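import Pool.Agent.PertZ.Defs

/-!
# The deterministic equivalence, from the mean of the perturbed zeta function to zeta
-/

set_option autoImplicit false

namespace Pool.Agent.PertZ

open MeasureTheory ProbabilityTheory Set Filter Topology Complex Pool.Agent.CW

/-- three lines with power bounds -/
theorem DET2_tlr (hT : P_TLR) {a b x y K : ℝ} (hab : a < b) (hx : 0 ≤ x) (hy : 0 ≤ y)
    (hK : 0 ≤ K) (f : ℂ → ℂ) (T₀ C : ℝ)
    (han : ∀ z : ℂ, a ≤ z.re → z.re ≤ b → T₀ ≤ z.im → AnalyticAt ℂ f z ∧ ‖f z‖ ≤ C * z.im ^ K)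
    (hl : ∀ v : ℝ, T₀ ≤ v → ‖f (a + v * I)‖ ≤ C * v ^ x)
    (hr : ∀ v : ℝ, T₀ ≤ v → ‖f (b + v * I)‖ ≤ C * v ^ y) (σ : ℝ) (h1 : a ≤ σ) (h2 : σ ≤ b) :
    ∃ C' T₁ : ℝ, 0 ≤ C' ∧ ∀ T : ℝ, T₁ ≤ T →
      ‖f (σ + T * I)‖ ≤ C' * T ^ (x * ((b - σ) / (b - a)) + y * ((σ - a) / (b - a))) := by
  set D : ℝ := max C 1 with hD
  have hD1 : 1 ≤ D := le_max_right _ _
  have hCD : C ≤ D := le_max_left _ _
  obtain ⟨C₀, hC₀, hmain⟩ := hT a b (K + x + y + 1) hab (by linarith)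
  set α := (b - σ) / (b - a) with hα
  set β := (σ - a) / (b - a) with hβ
  have hba : 0 < b - a := by linarith
  have hα0 : 0 ≤ α := div_nonneg (by linarith) hba.le
  have hβ0 : 0 ≤ β := div_nonneg (by linarith) hba.le
  refine ⟨C₀ * (D * 2 ^ x) ^ α * (D * 2 ^ y) ^ β,
    max (max 2 (2 * T₀)) (D * 2 ^ (K + x + y)), by positivity, fun T hTT => ?_⟩
  have hT2 : 2 ≤ T := le_trans (le_trans (le_max_left _ _) (le_max_left _ _)) hTT
  have hTT0 : 2 * T₀ ≤ T := le_trans (le_trans (le_max_right _ _) (le_max_left _ _)) hTT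
  have hTD : D * 2 ^ (K + x + y) ≤ T := le_trans (le_max_right _ _) hTT
  have hT0 : 0 < T := by linarith
  have hT1 : 1 ≤ T := by linarith
  have key : ∀ w : ℝ, 0 ≤ w → w ≤ K + x + y → D * (2 * T) ^ w ≤ T ^ (K + x + y + 1) := by
    intro w hw0 hw
    have e1 : (2 * T) ^ w = 2 ^ w * T ^ w := Real.mul_rpow (by norm_num) hT0.le
    have e2 : (2 : ℝ) ^ w ≤ 2 ^ (K + x + y) := Real.rpow_le_rpow_of_exponent_le (by norm_num) hw
    have e3 : T ^ w ≤ T ^ (K + x + y) := Real.rpow_le_rpow_of_exponent_le hT1 hw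
    calc D * (2 * T) ^ w = D * 2 ^ w * T ^ w := by rw [e1]; ring
      _ ≤ D * 2 ^ (K + x + y) * T ^ (K + x + y) := by
          have : D * 2 ^ w ≤ D * 2 ^ (K + x + y) := by
            apply mul_le_mul_of_nonneg_left e2 (by linarith)
          apply mul_le_mul this e3 (by positivity) (by positivity)
      _ ≤ T * T ^ (K + x + y) := by
          apply mul_le_mul_of_nonneg_right hTD (by positivity)
      _ = T ^ (K + x + y + 1) := by
          rw [Real.rpow_add hT0 (K + x + y) 1, Real.rpow_one]; ring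
  have lower : ∀ w : ℝ, 0 ≤ w → T ^ (-(K + x + y + 1)) ≤ D * (2 * T) ^ w := by
    intro w hw0
    have e1 : T ^ (-(K + x + y + 1)) ≤ 1 :=
      Real.rpow_le_one_of_one_le_of_nonpos hT1 (by linarith)
    have e2 : 1 ≤ (2 * T) ^ w := Real.one_le_rpow (by linarith) hw0
    nlinarith
  have h := hmain T (D * (2 * T) ^ x) (D * (2 * T) ^ y) f hT2 (lower x hx)
    (key x hx (by linarith)) (lower y hy) (key y hy (by linarith)) ?_ ?_ σ h1 h2
  · refine h.trans (le_of_eq ?_)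
    have e1 : D * (2 * T) ^ x = (D * 2 ^ x) * T ^ x := by
      rw [Real.mul_rpow (by norm_num) hT0.le]; ring
    have e2 : D * (2 * T) ^ y = (D * 2 ^ y) * T ^ y := by
      rw [Real.mul_rpow (by norm_num) hT0.le]; ring
    have e3 : ((D * 2 ^ x) * T ^ x) ^ α = (D * 2 ^ x) ^ α * T ^ (x * α) := by
      rw [Real.mul_rpow (x := D * 2 ^ x) (by positivity) (by positivity), ← Real.rpow_mul hT0.le]
    have e4 : ((D * 2 ^ y) * T ^ y) ^ β = (D * 2 ^ y) ^ β * T ^ (y * β) := by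
      rw [Real.mul_rpow (x := D * 2 ^ y) (by positivity) (by positivity), ← Real.rpow_mul hT0.le]
    rw [e1, e2, ← hα, ← hβ, e3, e4, Real.rpow_add hT0]
    ring
  · intro z hz1 hz2 hz3 hz4
    have hT0' : T₀ ≤ z.im := by linarith
    have hzim : 0 < z.im := by linarith
    obtain ⟨ha, hb⟩ := han z hz1 hz2 hT0'
    refine ⟨ha, hb.trans ?_⟩
    calc C * z.im ^ K ≤ D * z.im ^ K := by
          apply mul_le_mul_of_nonneg_right hCD (by positivity)
      _ ≤ D * (2 * T) ^ K := by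
          apply mul_le_mul_of_nonneg_left _ (by linarith)
          exact Real.rpow_le_rpow hzim.le hz4 hK
      _ ≤ _ := key K hK (by linarith)
  · intro v hv1 hv2
    have hv0 : 0 < v := by linarith
    have hT0' : T₀ ≤ v := by linarith
    constructor
    · refine (hl v hT0').trans ?_
      calc C * v ^ x ≤ D * v ^ x := by
            apply mul_le_mul_of_nonneg_right hCD (by positivity)
        _ ≤ D * (2 * T) ^ x := by
            apply mul_le_mul_of_nonneg_left _ (by linarith)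
            exact Real.rpow_le_rpow hv0.le hv2 hx
    · refine (hr v hT0').trans ?_
      calc C * v ^ y ≤ D * v ^ y := by
            apply mul_le_mul_of_nonneg_right hCD (by positivity)
        _ ≤ D * (2 * T) ^ y := by
            apply mul_le_mul_of_nonneg_left _ (by linarith)
            exact Real.rpow_le_rpow hv0.le hv2 hy

theorem DET2_line_ne (t : ℝ) : (1 / 2 + t * I : ℂ) ≠ 1 := by
  intro h
  have := congrArg Complex.re h
  simp at this

theorem DET2_cont : Continuous zl := by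
  rw [continuous_iff_continuousAt]
  intro t
  have h1 : ContinuousAt riemannZeta (1 / 2 + t * I) :=
    (differentiableAt_riemannZeta (DET2_line_ne t)).continuousAt
  have h2 : ContinuousAt (fun t : ℝ => (1 / 2 + t * I : ℂ)) t := by fun_prop
  exact ContinuousAt.comp (f := fun t : ℝ => (1 / 2 + t * I : ℂ)) h1 h2

theorem DET2_neg (t : ℝ) : ‖zl (-t)‖ = ‖zl t‖ := by
  unfold zl
  have h : (1 / 2 + ((-t : ℝ) : ℂ) * I : ℂ) = (starRingEnd ℂ) (1 / 2 + t * I) := by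
    apply Complex.ext <;> simp
  rw [h, riemannZeta_conj, Complex.norm_conj]

theorem DET2_mono {m m' : ℝ} (h : m ≤ m') (hm : LineBound m) : LineBound m' := by
  intro ε hε
  obtain ⟨C, hC⟩ := hm ε hε
  refine ⟨max C 0, fun t => (hC t).trans ?_⟩
  have h1 : (1 : ℝ) ≤ 1 + |t| := by linarith [abs_nonneg t]
  have e1 : (1 + |t|) ^ (m + ε) ≤ (1 + |t|) ^ (m' + ε) :=
    Real.rpow_le_rpow_of_exponent_le h1 (by linarith)
  calc C * (1 + |t|) ^ (m + ε) ≤ max C 0 * (1 + |t|) ^ (m + ε) := by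
        apply mul_le_mul_of_nonneg_right (le_max_left _ _) (by positivity)
    _ ≤ _ := by
        apply mul_le_mul_of_nonneg_left e1 (le_max_right _ _)

/-- from large `t` to all `t` -/
theorem DET2_all {m : ℝ} (hm : 0 ≤ m)
    (h : ∀ ε : ℝ, 0 < ε → ∃ C T : ℝ, ∀ t : ℝ, T ≤ t → ‖zl t‖ ≤ C * t ^ (m + ε)) :
    LineBound m := by
  intro ε hε
  obtain ⟨C, T, hC⟩ := h ε hε
  obtain ⟨C₁, hC₁⟩ := (isCompact_Icc (a := (0 : ℝ)) (b := max T 1)).exists_bound_of_continuousOn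
    (f := zl) DET2_cont.continuousOn
  have key : ∀ t : ℝ, 0 ≤ t → ‖zl t‖ ≤ (|C| + |C₁|) * (1 + |t|) ^ (m + ε) := by
    intro t ht
    have h1 : (1 : ℝ) ≤ 1 + |t| := by linarith [abs_nonneg t]
    have h2 : 1 ≤ (1 + |t|) ^ (m + ε) := Real.one_le_rpow h1 (by linarith)
    rcases le_total t (max T 1) with h3 | h3
    · have h4 := hC₁ t ⟨ht, h3⟩
      have h5 : C₁ ≤ |C₁| := le_abs_self _
      nlinarith [abs_nonneg C, abs_nonneg C₁]
    · have h4 := hC t (le_trans (le_max_left _ _) h3)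
      have h5 : t ^ (m + ε) ≤ (1 + |t|) ^ (m + ε) := by
        apply Real.rpow_le_rpow ht _ (by linarith)
        rw [abs_of_nonneg ht]; linarith
      have h6 : 0 ≤ t ^ (m + ε) := by positivity
      calc ‖zl t‖ ≤ C * t ^ (m + ε) := h4
        _ ≤ |C| * t ^ (m + ε) := by
            apply mul_le_mul_of_nonneg_right (le_abs_self _) h6
        _ ≤ |C| * (1 + |t|) ^ (m + ε) := by
            apply mul_le_mul_of_nonneg_left h5 (abs_nonneg _)
        _ ≤ _ := by nlinarith [abs_nonneg C₁]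
  refine ⟨|C| + |C₁|, fun t => ?_⟩
  rcases le_total 0 t with ht | ht
  · exact key t ht
  · have := key (-t) (by linarith)
    rwa [DET2_neg, abs_neg] at this

/-- the set of exponents is closed -/
theorem DET2_inf (hZ : P_ZST) : 0 ≤ sInf {m : ℝ | 0 ≤ m ∧ LineBound m} ∧
    LineBound (sInf {m : ℝ | 0 ≤ m ∧ LineBound m}) := by
  have hne : {m : ℝ | 0 ≤ m ∧ LineBound m}.Nonempty := ⟨1 / 2, by norm_num, hZ.2.2.2⟩
  refine ⟨Real.sInf_nonneg (fun x hx => hx.1), ?_⟩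
  intro ε hε
  obtain ⟨m, hm, hlt⟩ := exists_lt_of_csInf_lt hne
    (show sInf {m : ℝ | 0 ≤ m ∧ LineBound m} < sInf {m : ℝ | 0 ≤ m ∧ LineBound m} + ε / 2 by
      linarith)
  have h1 : LineBound (sInf {m : ℝ | 0 ≤ m ∧ LineBound m} + ε / 2) := DET2_mono hlt.le hm.2
  obtain ⟨C, hC⟩ := h1 (ε / 2) (by linarith)
  refine ⟨C, fun t => ?_⟩
  have := hC t
  rwa [show sInf {m : ℝ | 0 ≤ m ∧ LineBound m} + ε / 2 + ε / 2 =
    sInf {m : ℝ | 0 ≤ m ∧ LineBound m} + ε by ring] at this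

theorem DET2_cast (σ t : ℝ) : ((σ : ℂ) + t * I).re = σ ∧ ((σ : ℂ) + t * I).im = t := by
  simp

/-- the difference `ζ - Sm` in the strip `0 ≤ Re s ≤ 1/2` -/
theorem DET2_strip (hZ : P_ZST) (hA : P_SMA) {B : ℝ} (hB : 2 < B) : ∃ C : ℝ, 0 ≤ C ∧
    ∀ z : ℂ, 0 ≤ z.re → z.re ≤ 1 / 2 → 2 ≤ z.im →
      AnalyticAt ℂ (fun s => riemannZeta s - Sm one' B s) z ∧
      ‖riemannZeta z - Sm one' B z‖ ≤ C * z.im ^ (1 : ℝ) := by
  obtain ⟨C₁, hC₁⟩ := hZ.2.1 (1 / 2) (by norm_num)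
  have hone : (one' 0 = 0) ∧ ∀ n, ‖one' n‖ ≤ 1 := by
    constructor
    · simp [one']
    · intro n; unfold one'; split_ifs <;> simp
  obtain ⟨-, hA2, hA3, -⟩ := hA one' B (by linarith) hone.1 hone.2
  obtain ⟨C₂, hC₂⟩ := hA3 0 le_rfl (by linarith) (1 / 2) (by norm_num)
  have hexp : max 0 ((1 - 0) / B) + 1 / 2 ≤ 1 := by
    have : (1 - 0) / B ≤ 1 / 2 := by
      rw [div_le_iff₀ (by linarith)]; linarith
    have : max 0 ((1 - 0) / B) ≤ 1 / 2 := max_le (by norm_num) this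
    linarith
  refine ⟨3 * |C₁| + 3 * |C₂|, by positivity, fun z h1 h2 h3 => ⟨?_, ?_⟩⟩
  · have hz1 : z ≠ 1 := by
      intro h; rw [h] at h3; simp at h3; linarith
    have hz0 : z ≠ 0 := by
      intro h; rw [h] at h3; simp at h3; linarith
    have e1 : AnalyticAt ℂ riemannZeta z := by
      apply DifferentiableOn.analyticAt (s := {1}ᶜ)
      · intro w hw
        exact (differentiableAt_riemannZeta hw).differentiableWithinAt
      · exact isOpen_compl_singleton.mem_nhds hz1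
    exact e1.sub (hA2 z h1 (by linarith) hz0)
  · have e1 : ‖riemannZeta z‖ ≤ 3 * |C₁| * z.im := by
      have h4 := hC₁ z h1 (by linarith) (by linarith)
      have h5 : (1 + z.im) ^ ((1 : ℝ) / 2 + 1 / 2) = 1 + z.im := by
        rw [show (1 : ℝ) / 2 + 1 / 2 = 1 by norm_num, Real.rpow_one]
      rw [h5] at h4
      have h6 : C₁ * (1 + z.im) ≤ |C₁| * (1 + z.im) :=
        mul_le_mul_of_nonneg_right (le_abs_self _) (by linarith)
      nlinarith [abs_nonneg C₁]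
    have e2 : ‖Sm one' B z‖ ≤ 3 * |C₂| * z.im := by
      have h4 := hC₂ z h1
      have hn : ‖z‖ ≤ 1 / 2 + z.im := by
        have := Complex.norm_le_abs_re_add_abs_im z
        rw [abs_of_nonneg h1, abs_of_nonneg (by linarith : 0 ≤ z.im)] at this
        linarith
      have h5 : (1 + ‖z‖) ^ (max 0 ((1 - 0) / B) + 1 / 2) ≤ (1 + ‖z‖) ^ (1 : ℝ) :=
        Real.rpow_le_rpow_of_exponent_le (by linarith [norm_nonneg z]) hexp
      rw [Real.rpow_one] at h5
      have h6 : C₂ * (1 + ‖z‖) ^ (max 0 ((1 - 0) / B) + 1 / 2) ≤ |C₂| * (1 + ‖z‖) := by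
        calc C₂ * (1 + ‖z‖) ^ (max 0 ((1 - 0) / B) + 1 / 2)
            ≤ |C₂| * (1 + ‖z‖) ^ (max 0 ((1 - 0) / B) + 1 / 2) :=
              mul_le_mul_of_nonneg_right (le_abs_self _) (by positivity)
          _ ≤ |C₂| * (1 + ‖z‖) := mul_le_mul_of_nonneg_left h5 (abs_nonneg _)
      have h7 : 1 + ‖z‖ ≤ 3 * z.im := by linarith
      nlinarith [abs_nonneg C₂]
    rw [Real.rpow_one]
    calc ‖riemannZeta z - Sm one' B z‖ ≤ ‖riemannZeta z‖ + ‖Sm one' B z‖ := norm_sub_le _ _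
      _ ≤ _ := by linarith

theorem DET2_zana {z : ℂ} (hz : z ≠ 1) : AnalyticAt ℂ riemannZeta z := by
  apply DifferentiableOn.analyticAt (s := {1}ᶜ)
  · intro w hw
    exact (differentiableAt_riemannZeta hw).differentiableWithinAt
  · exact isOpen_compl_singleton.mem_nhds hz

theorem DET2_two {v w : ℝ} (hv : 1 ≤ v) (hw : 0 ≤ w) (C : ℝ) :
    C * (1 + v) ^ w ≤ |C| * 2 ^ w * v ^ w := by
  have h1 : (1 + v) ^ w ≤ (2 * v) ^ w := Real.rpow_le_rpow (by linarith) (by linarith) hw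
  rw [Real.mul_rpow (by norm_num) (by linarith)] at h1
  calc C * (1 + v) ^ w ≤ |C| * (1 + v) ^ w :=
        mul_le_mul_of_nonneg_right (le_abs_self _) (by positivity)
    _ ≤ |C| * (2 ^ w * v ^ w) := mul_le_mul_of_nonneg_left h1 (abs_nonneg _)
    _ = _ := by ring

/-- the mean in the strip, between the lines `0` and `1/2` -/
theorem DET2_mid (hT : P_TLR) (hZ : P_ZST) (hA : P_SMA) {B A h : ℝ} (hB : 2 < B) (hA0 : 0 ≤ A)
    (hh : 0 ≤ h) (hh2 : h ≤ 1 / 2) (hD : ExpLe A (Dl B)) (ε : ℝ) (hε : 0 < ε) :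
    ∃ C T : ℝ, 0 ≤ C ∧ ∀ t : ℝ, T ≤ t →
      ‖riemannZeta (((1 / 2 - h : ℝ) : ℂ) + t * I) - Sm one' B (((1 / 2 - h : ℝ) : ℂ) + t * I)‖
        ≤ C * t ^ (A + h + ε) := by
  obtain ⟨C₁, hC₁0, hC₁⟩ := DET2_strip hZ hA hB
  obtain ⟨C₂, hC₂⟩ := hZ.2.1 ε hε
  have hone : (one' 0 = 0) ∧ ∀ n, ‖one' n‖ ≤ 1 := by
    constructor
    · simp [one']
    · intro n; unfold one'; split_ifs <;> simp
  obtain ⟨-, -, hA3, -⟩ := hA one' B (by linarith) hone.1 hone.2
  obtain ⟨C₃, hC₃⟩ := hA3 0 le_rfl (by linarith) ε hε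
  obtain ⟨C₄, hC₄⟩ := hD ε hε
  have hexp : max 0 ((1 - 0) / B) + ε ≤ 1 / 2 + ε := by
    have : (1 - 0) / B ≤ 1 / 2 := by
      rw [div_le_iff₀ (by linarith)]; linarith
    have : max 0 ((1 - 0) / B) ≤ 1 / 2 := max_le (by norm_num) this
    linarith
  set C : ℝ := C₁ + (|C₂| * 2 ^ (1 / 2 + ε) + |C₃| * 2 ^ (1 / 2 + ε)) + |C₄| * 2 ^ (A + ε)
    with hC
  have p1 : 0 ≤ |C₂| * 2 ^ (1 / 2 + ε) + |C₃| * 2 ^ (1 / 2 + ε) := by positivity
  have p2 : 0 ≤ |C₄| * 2 ^ (A + ε) := by positivity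
  have hstep := DET2_tlr hT (a := 0) (b := 1 / 2) (x := 1 / 2 + ε) (y := A + ε)
    (K := 1) (by norm_num) (by linarith) (by linarith) (by norm_num)
    (fun s => riemannZeta s - Sm one' B s) 2 C ?_ ?_ ?_ (1 / 2 - h) (by linarith) (by linarith)
  · obtain ⟨C', T₁, hC'0, hmain⟩ := hstep
    refine ⟨C', max T₁ 1, hC'0, fun t ht => ?_⟩
    have ht1 : 1 ≤ t := le_trans (le_max_right _ _) ht
    refine (hmain t (le_trans (le_max_left _ _) ht)).trans ?_
    apply mul_le_mul_of_nonneg_left _ hC'0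
    apply Real.rpow_le_rpow_of_exponent_le ht1
    have : (1 / 2 + ε) * ((1 / 2 - (1 / 2 - h)) / (1 / 2 - 0)) +
      (A + ε) * ((1 / 2 - h - 0) / (1 / 2 - 0)) = A + h + ε - 2 * (h * A) := by ring
    rw [this]
    nlinarith [mul_nonneg hh hA0]
  · intro z h1 h2 h3
    obtain ⟨e1, e2⟩ := hC₁ z h1 h2 h3
    refine ⟨e1, e2.trans ?_⟩
    apply mul_le_mul_of_nonneg_right _ (Real.rpow_nonneg (by linarith) _)
    linarith
  · intro v hv
    have hz : ((((0 : ℝ) : ℂ) + v * I).re = 0) ∧ ((((0 : ℝ) : ℂ) + v * I).im = v) :=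
      DET2_cast 0 v
    have e1 := hC₂ (((0 : ℝ) : ℂ) + v * I) (by rw [hz.1]) (by rw [hz.1]; norm_num)
      (by rw [hz.2]; linarith)
    rw [hz.2] at e1
    have e2 := hC₃ (((0 : ℝ) : ℂ) + v * I) (by rw [hz.1])
    have hn : ‖(((0 : ℝ) : ℂ) + v * I)‖ = v := by
      simp [abs_of_nonneg (by linarith : 0 ≤ v)]
    rw [hn] at e2
    have e3' := DET2_two (v := v) (by linarith) (by linarith : (0 : ℝ) ≤ 1 / 2 + ε) |C₃|
    rw [abs_abs] at e3'
    have e3 : C₃ * (1 + v) ^ (max 0 ((1 - 0) / B) + ε) ≤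
        |C₃| * 2 ^ (1 / 2 + ε) * v ^ (1 / 2 + ε) := by
      refine le_trans ?_ e3'
      calc C₃ * (1 + v) ^ (max 0 ((1 - 0) / B) + ε) ≤ |C₃| * (1 + v) ^ (max 0 ((1 - 0) / B) + ε) :=
            mul_le_mul_of_nonneg_right (le_abs_self _) (Real.rpow_nonneg (by linarith) _)
        _ ≤ _ := mul_le_mul_of_nonneg_left
            (Real.rpow_le_rpow_of_exponent_le (by linarith) hexp) (abs_nonneg _)
    have e4 := DET2_two (v := v) (by linarith) (by linarith : (0 : ℝ) ≤ 1 / 2 + ε) C₂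
    have e5 : 0 ≤ v ^ (1 / 2 + ε) := Real.rpow_nonneg (by linarith) _
    calc ‖riemannZeta (((0 : ℝ) : ℂ) + v * I) - Sm one' B (((0 : ℝ) : ℂ) + v * I)‖
        ≤ ‖riemannZeta (((0 : ℝ) : ℂ) + v * I)‖ + ‖Sm one' B (((0 : ℝ) : ℂ) + v * I)‖ :=
          norm_sub_le _ _
      _ ≤ (|C₂| * 2 ^ (1 / 2 + ε) + |C₃| * 2 ^ (1 / 2 + ε)) * v ^ (1 / 2 + ε) := by linarith
      _ ≤ C * v ^ (1 / 2 + ε) := mul_le_mul_of_nonneg_right (by linarith) e5
  · intro v hv
    have e1 := hC₄ v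
    rw [abs_of_nonneg (by linarith : 0 ≤ v)] at e1
    have e2 := DET2_two (v := v) (by linarith) (by linarith : (0 : ℝ) ≤ A + ε) C₄
    have e5 : 0 ≤ v ^ (A + ε) := Real.rpow_nonneg (by linarith) _
    have e6 : riemannZeta (((1 / 2 : ℝ) : ℂ) + v * I) - Sm one' B (((1 / 2 : ℝ) : ℂ) + v * I) =
        Dl B v := by
      unfold Dl zl
      push_cast
      rfl
    show ‖riemannZeta (((1 / 2 : ℝ) : ℂ) + v * I) - Sm one' B (((1 / 2 : ℝ) : ℂ) + v * I)‖ ≤ _
    rw [e6]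
    calc ‖Dl B v‖ ≤ |C₄| * 2 ^ (A + ε) * v ^ (A + ε) := e1.trans e2
      _ ≤ C * v ^ (A + ε) := mul_le_mul_of_nonneg_right (by linarith) e5

theorem p_DET2 (hT : P_TLR) (hZ : P_ZST) (hD : P_SBD) (hA : P_SMA) : P_DET2 := by
  intro B A hB hA0 hE
  by_contra hne
  obtain ⟨hμ0, hμ⟩ := DET2_inf hZ
  set μ := sInf {m : ℝ | 0 ≤ m ∧ LineBound m} with hμdef
  have hAμ : A < μ := by
    by_contra hle
    exact hne (DET2_mono (not_lt.mp hle) hμ)
  set h := min (1 / 4) (μ - A) with hhdef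
  have hh0 : 0 < h := lt_min (by norm_num) (by linarith)
  have hh4 : h ≤ 1 / 4 := min_le_left _ _
  have hhμ : h ≤ μ - A := min_le_right _ _
  have hB0 : 0 < B := by linarith
  have hhB : 0 < h / B := div_pos hh0 hB0
  have hhB2 : h / B < h / 2 := div_lt_div_of_pos_left hh0 (by norm_num) hB
  have hLB : LineBound (μ + h / B - h / 2) := by
    refine DET2_all (by linarith) (fun ε hε => ?_)
    obtain ⟨C₁, T₁, hC₁0, hC₁⟩ := DET2_mid hT hZ hA hB hA0 hh0.le (by linarith) hE ε hε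
    obtain ⟨C₂, hC₂⟩ := hD B μ (by linarith) hμ0 hμ (-h) (by linarith) (by linarith) ε hε
    obtain ⟨C₃, hC₃0, hC₃⟩ := hZ.2.2.1
    obtain ⟨C₄, hC₄⟩ := hZ.2.1 (1 / 2) (by norm_num)
    set C := C₁ + |C₂| with hC
    have hCnn : 0 ≤ C := by positivity
    have left : ∀ v : ℝ, max T₁ 2 ≤ v →
        ‖riemannZeta (((1 / 2 - h : ℝ) : ℂ) + v * I)‖ ≤ C * v ^ (μ + h / B + ε) := by
      intro v hv
      have hv2 : 2 ≤ v := le_trans (le_max_right _ _) hv
      have e1 := hC₁ v (le_trans (le_max_left _ _) hv)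
      have e2 := hC₂ v (by linarith)
      rw [show (1 / 2 + -h : ℝ) = 1 / 2 - h by ring, show μ - -h / B + ε = μ + h / B + ε by ring]
        at e2
      have e3 : v ^ (A + h + ε) ≤ v ^ (μ + h / B + ε) :=
        Real.rpow_le_rpow_of_exponent_le (by linarith) (by linarith)
      have e4 : 0 ≤ v ^ (μ + h / B + ε) := Real.rpow_nonneg (by linarith) _
      have e5 : C₂ * v ^ (μ + h / B + ε) ≤ |C₂| * v ^ (μ + h / B + ε) :=
        mul_le_mul_of_nonneg_right (le_abs_self _) e4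
      have e6 : C₁ * v ^ (A + h + ε) ≤ C₁ * v ^ (μ + h / B + ε) :=
        mul_le_mul_of_nonneg_left e3 hC₁0
      calc ‖riemannZeta (((1 / 2 - h : ℝ) : ℂ) + v * I)‖
          = ‖(riemannZeta (((1 / 2 - h : ℝ) : ℂ) + v * I) -
              Sm one' B (((1 / 2 - h : ℝ) : ℂ) + v * I)) +
              Sm one' B (((1 / 2 - h : ℝ) : ℂ) + v * I)‖ := by rw [sub_add_cancel]
        _ ≤ ‖riemannZeta (((1 / 2 - h : ℝ) : ℂ) + v * I) -
              Sm one' B (((1 / 2 - h : ℝ) : ℂ) + v * I)‖ +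
              ‖Sm one' B (((1 / 2 - h : ℝ) : ℂ) + v * I)‖ := norm_add_le _ _
        _ ≤ C * v ^ (μ + h / B + ε) := by rw [hC, add_mul]; linarith
    have right : ∀ v : ℝ, max T₁ 2 ≤ v →
        ‖riemannZeta (((1 / 2 + h : ℝ) : ℂ) + v * I)‖ ≤ C₃ * C * v ^ (μ + h / B - h + ε) := by
      intro v hv
      have hv2 : 2 ≤ v := le_trans (le_max_right _ _) hv
      have e1 := (hC₃ h v hh0.le (by linarith) (by linarith)).2
      have e2 := left v hv
      have e3 : 0 ≤ C₃ * v ^ (-h) := mul_nonneg hC₃0.le (Real.rpow_nonneg (by linarith) _)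
      calc ‖riemannZeta (((1 / 2 + h : ℝ) : ℂ) + v * I)‖
          ≤ C₃ * v ^ (-h) * ‖riemannZeta (((1 / 2 - h : ℝ) : ℂ) + v * I)‖ := e1
        _ ≤ C₃ * v ^ (-h) * (C * v ^ (μ + h / B + ε)) := mul_le_mul_of_nonneg_left e2 e3
        _ = C₃ * C * (v ^ (-h) * v ^ (μ + h / B + ε)) := by ring
        _ = _ := by
            rw [← Real.rpow_add (by linarith)]
            congr 2
            ring
    have hstep := DET2_tlr hT (a := 1 / 2 - h) (b := 1 / 2 + h)
      (x := μ + h / B + ε) (y := μ + h / B - h + ε) (K := 1) (by linarith) (by linarith)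
      (by linarith) (by norm_num) riemannZeta (max T₁ 2) (|C₄| * 2 + C + C₃ * C) ?_ ?_ ?_ (1 / 2)
      (by linarith) (by linarith)
    · obtain ⟨C', T', hC'0, hmain⟩ := hstep
      refine ⟨C', max T' 1, fun t ht => ?_⟩
      have e1 := hmain t (le_trans (le_max_left _ _) ht)
      have e2 : (μ + h / B + ε) * ((1 / 2 + h - 1 / 2) / (1 / 2 + h - (1 / 2 - h))) +
          (μ + h / B - h + ε) * ((1 / 2 - (1 / 2 - h)) / (1 / 2 + h - (1 / 2 - h))) =
          μ + h / B - h / 2 + ε := by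
        have : (1 / 2 + h - (1 / 2 - h)) = 2 * h := by ring
        rw [this]
        field_simp
        ring
      rw [e2] at e1
      have e3 : riemannZeta (((1 / 2 : ℝ) : ℂ) + t * I) = zl t := by
        unfold zl; push_cast; rfl
      rwa [e3] at e1
    · intro z h1 h2 h3
      have hz2 : 2 ≤ z.im := le_trans (le_max_right _ _) h3
      refine ⟨DET2_zana (by intro hz; rw [hz] at hz2; simp at hz2; linarith), ?_⟩
      have e1 := hC₄ z (by linarith) (by linarith) (by linarith)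
      rw [show (1 / 2 + 1 / 2 : ℝ) = 1 by norm_num] at e1
      refine e1.trans ((DET2_two (by linarith) (by norm_num) C₄).trans ?_)
      rw [Real.rpow_one]
      apply mul_le_mul_of_nonneg_right _ (Real.rpow_nonneg (by linarith) _)
      have : 0 ≤ C₃ * C := mul_nonneg hC₃0.le hCnn
      linarith
    · intro v hv
      have hv2 : 2 ≤ v := le_trans (le_max_right _ _) hv
      refine (left v hv).trans ?_
      apply mul_le_mul_of_nonneg_right _ (Real.rpow_nonneg (by linarith) _)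
      have : 0 ≤ C₃ * C := mul_nonneg hC₃0.le hCnn
      have := abs_nonneg C₄
      linarith
    · intro v hv
      have hv2 : 2 ≤ v := le_trans (le_max_right _ _) hv
      refine (right v hv).trans ?_
      apply mul_le_mul_of_nonneg_right _ (Real.rpow_nonneg (by linarith) _)
      have := abs_nonneg C₄
      linarith
  have hge : μ ≤ μ + h / B - h / 2 :=
    csInf_le ⟨0, fun x hx => hx.1⟩ ⟨by linarith, hLB⟩
  linarith

end Pool.Agent.PertZ
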