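import Pool.Agent.PertZ.Defs

/-!
# Means of the perturbed powers
-/

set_option autoImplicit false

namespace Pool.Agent.PertZ

open MeasureTheory ProbabilityTheory Set Filter Topology Complex

/-- integral against the exponential law of mean one -/
theorem MEX_int {E : Type*} [NormedAddCommGroup E] [NormedSpace ℝ E] (f : ℝ → E) :
    ∫ x, f x ∂(expMeasure 1) = ∫ x in Ioi (0 : ℝ), Real.exp (-x) • f x := by
  rw [expMeasure, gammaMeasure, integral_withDensity_eq_integral_toReal_smul
    (by unfold gammaPDF; exact (measurable_gammaPDFReal 1 1).ennreal_ofReal)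
    (by
      refine Filter.Eventually.of_forall fun x => ?_
      simp [gammaPDF])]
  rw [← integral_Ici_eq_integral_Ioi, ← integral_indicator measurableSet_Ici]
  congr 1
  ext x
  by_cases hx : 0 ≤ x
  · rw [indicator_of_mem (mem_Ici.2 hx), gammaPDF_of_nonneg hx]
    congr 1
    rw [ENNReal.toReal_ofReal (by positivity)]
    simp
  · rw [indicator_of_notMem (by simpa using hx), gammaPDF_of_neg (lt_of_not_ge hx)]
    simp

/-- integrability against the exponential law of mean one -/
theorem MEX_integrable {f : ℝ → ℝ}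
    (h : IntegrableOn (fun x => Real.exp (-x) * f x) (Ioi (0 : ℝ))) :
    Integrable f (expMeasure 1) := by
  rw [expMeasure, gammaMeasure, integrable_withDensity_iff_integrable_smul'
    (by unfold gammaPDF; exact (measurable_gammaPDFReal 1 1).ennreal_ofReal)
    (by
      refine Filter.Eventually.of_forall fun x => ?_
      simp [gammaPDF])]
  rw [← integrableOn_Ici_iff_integrableOn_Ioi, ← integrable_indicator_iff measurableSet_Ici] at h
  refine h.congr (Filter.Eventually.of_forall fun x => ?_)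
  by_cases hx : 0 ≤ x
  · simp only [indicator_of_mem (mem_Ici.2 hx), gammaPDF_of_nonneg hx, smul_eq_mul]
    congr 1
    rw [ENNReal.toReal_ofReal (by positivity)]
    simp
  · simp only [gammaPDF_of_neg (lt_of_not_ge hx)]
    rw [indicator_of_notMem (by simpa using hx)]
    simp

/-- the exponential law is carried by the nonnegative numbers -/
theorem MEX_nonneg : ∀ᵐ x ∂(expMeasure 1), 0 ≤ x := by
  rw [expMeasure, gammaMeasure, ae_iff]
  have hs : {a : ℝ | ¬ 0 ≤ a} = Iio 0 := by ext x; simp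
  rw [hs, withDensity_apply _ measurableSet_Iio]
  exact lintegral_gammaPDF_of_nonpos le_rfl

/-- the mean of the perturbed power -/
theorem MEX_pow (B : ℝ) (n : ℕ) (s : ℂ) (hn : 1 ≤ n) (hs : 0 ≤ s.re) :
    ∫ x in Ioi (0 : ℝ), Real.exp (-x) •
      (((n : ℝ) * Real.exp (x * (n : ℝ) ^ (-B)) : ℝ) : ℂ) ^ (-s) =
      (n : ℂ) ^ (-s) * (((n : ℝ) ^ B : ℝ) / ((((n : ℝ) ^ B : ℝ) : ℂ) + s)) := by
  have hn0 : (0 : ℝ) < n := by exact_mod_cast hn
  have hc : (0 : ℝ) < (n : ℝ) ^ (-B) := Real.rpow_pos_of_pos hn0 _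
  have hC : (0 : ℝ) < (n : ℝ) ^ B := Real.rpow_pos_of_pos hn0 _
  have hn0' : ((n : ℝ) : ℂ) ≠ 0 := by exact_mod_cast hn0.ne'
  have hn0'' : (n : ℂ) ≠ 0 := by exact_mod_cast hn0.ne'
  set c : ℝ := (n : ℝ) ^ (-B) with hcdef
  have hpt : ∀ x : ℝ, Real.exp (-x) • (((n : ℝ) * Real.exp (x * c) : ℝ) : ℂ) ^ (-s) =
      (n : ℂ) ^ (-s) * Complex.exp ((-(1 + s * c)) * x) := by
    intro x
    have hpos : (0 : ℝ) < (n : ℝ) * Real.exp (x * c) := by positivity
    rw [Complex.cpow_def_of_ne_zero (by exact_mod_cast hpos.ne'), ← Complex.ofReal_log hpos.le,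
      Real.log_mul hn0.ne' (Real.exp_pos _).ne', Real.log_exp,
      Complex.cpow_def_of_ne_zero hn0'', Complex.real_smul, Complex.ofReal_exp,
      ← Complex.exp_add, ← Complex.exp_add]
    congr 1
    rw [Complex.ofReal_add, Complex.ofReal_log hn0.le]
    push_cast
    ring
  simp_rw [hpt]
  rw [integral_const_mul]
  congr 1
  have hre : (-(1 + s * (c : ℂ))).re < 0 := by
    have : (s * (c : ℂ)).re = s.re * c := by simp
    rw [Complex.neg_re, Complex.add_re, this]
    have : 0 ≤ s.re * c := mul_nonneg hs hc.le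
    simp only [Complex.one_re]
    linarith
  rw [integral_exp_mul_complex_Ioi hre]
  have hne : (1 + s * (c : ℂ)) ≠ 0 := by
    intro h
    rw [h] at hre
    simp at hre
  have hcC : (c : ℂ) * ((((n : ℝ) ^ B : ℝ)) : ℂ) = 1 := by
    rw [← Complex.ofReal_mul, hcdef, ← Real.rpow_add hn0]
    simp
  have hne2 : ((((n : ℝ) ^ B : ℝ)) : ℂ) + s ≠ 0 := by
    intro h
    have := congrArg Complex.re h
    simp only [Complex.add_re, Complex.ofReal_re, Complex.zero_re] at this
    linarith
  simp only [Complex.ofReal_zero, mul_zero, Complex.exp_zero]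
  rw [neg_div_neg_eq, div_eq_div_iff hne hne2]
  linear_combination (-s) * hcC

theorem p_MEX : P_MEX := by
  intro Ω _ P _ X hX hlaw
  have hmean : IntegrableOn (fun x => Real.exp (-x) * x) (Ioi (0 : ℝ)) := by
    have := Real.GammaIntegral_convergent (s := 2) (by norm_num)
    refine this.congr_fun (fun x _ => ?_) measurableSet_Ioi
    norm_num
  have hval : ∫ x in Ioi (0 : ℝ), Real.exp (-x) * x = 1 := by
    have := Real.Gamma_eq_integral (s := 2) (by norm_num)
    rw [Real.Gamma_two] at this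
    rw [this]
    refine setIntegral_congr_fun measurableSet_Ioi (fun x _ => ?_)
    norm_num
  refine ⟨?_, ?_, ?_, ?_⟩
  · have h := MEX_nonneg
    rw [← hlaw] at h
    exact ae_of_ae_map hX.aemeasurable h
  · have h : Integrable (fun x : ℝ => x) (P.map X) := by
      rw [hlaw]
      exact MEX_integrable hmean
    exact (integrable_map_measure h.aestronglyMeasurable hX.aemeasurable).1 h
  · have h : ∫ ω, X ω ∂P = ∫ x, x ∂(P.map X) :=
      (integral_map (f := fun x : ℝ => x) hX.aemeasurable aestronglyMeasurable_id).symm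
    rw [h, hlaw, MEX_int]
    simp only [smul_eq_mul]
    exact hval.le
  · intro B n s hn hs
    have hn0 : (0 : ℝ) < n := by exact_mod_cast hn
    have h : ∫ ω, (((n : ℝ) * Real.exp (X ω * (n : ℝ) ^ (-B)) : ℝ) : ℂ) ^ (-s) ∂P =
        ∫ x, (((n : ℝ) * Real.exp (x * (n : ℝ) ^ (-B)) : ℝ) : ℂ) ^ (-s) ∂(P.map X) := by
      have hm : Measurable (fun x : ℝ =>
          (((n : ℝ) * Real.exp (x * (n : ℝ) ^ (-B)) : ℝ) : ℂ) ^ (-s)) := by
        fun_prop
      exact (integral_map hX.aemeasurable hm.aestronglyMeasurable).symm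
    rw [h, hlaw, MEX_int]
    exact MEX_pow B n s hn hs

end Pool.Agent.PertZ
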