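import Pool.Agent.PertZ.Defs

/-!
# Fluctuations of the prime sums
-/

set_option autoImplicit false

namespace Pool.Agent.PertZ

open MeasureTheory ProbabilityTheory Set Filter Topology Complex Pool.Agent.CW

namespace PFL_

/-! ### one term -/

/-- `n exp (x n ^ (-B))` -/
noncomputable def lv (B x : ℝ) (n : ℕ) : ℝ := n * Real.exp (x * (n : ℝ) ^ (-B))

lemma lv_pos {B x : ℝ} {n : ℕ} (hn : 1 ≤ n) : 0 < lv B x n := by
  have h : (0 : ℝ) < n := by exact_mod_cast hn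
  exact mul_pos h (Real.exp_pos _)

lemma log_lv {B x : ℝ} {n : ℕ} (hn : 1 ≤ n) :
    Real.log (lv B x n) = Real.log n + x * (n : ℝ) ^ (-B) := by
  have h : (0 : ℝ) < n := by exact_mod_cast hn
  unfold lv
  rw [Real.log_mul h.ne' (Real.exp_pos _).ne', Real.log_exp]

lemma cpow_eq {r : ℝ} (hr : 0 < r) (s : ℂ) : (r : ℂ) ^ (-s) = exp (-(s * (Real.log r : ℝ))) := by
  have h : (r : ℂ) ≠ 0 := by exact_mod_cast hr.ne'
  rw [cpow_def_of_ne_zero h, ← Complex.ofReal_log hr.le]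
  congr 1
  ring

lemma nat_cpow_eq {n : ℕ} (hn : 1 ≤ n) (s : ℂ) :
    (n : ℂ) ^ (-s) = exp (-(s * (Real.log n : ℝ))) := by
  have h : (0 : ℝ) < n := by exact_mod_cast hn
  have := cpow_eq h s
  simpa using this

lemma cpow_lv {B x : ℝ} {n : ℕ} (hn : 1 ≤ n) (s : ℂ) :
    (lv B x n : ℂ) ^ (-s) = (n : ℂ) ^ (-s) * exp (-(s * ((x * (n : ℝ) ^ (-B) : ℝ) : ℂ))) := by
  rw [cpow_eq (lv_pos hn), log_lv hn, nat_cpow_eq hn, ← Complex.exp_add]
  congr 1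
  push_cast
  ring

lemma norm_exp_neg_sub_one {z : ℂ} (hz : 0 ≤ z.re) : ‖exp (-z) - 1‖ ≤ ‖z‖ := by
  have h := Convex.norm_image_sub_le_of_norm_deriv_le (𝕜 := ℂ) (f := exp) (s := {w : ℂ | w.re ≤ 0})
    (C := 1) (x := 0) (y := -z) (fun w _ => differentiable_exp w) ?_ (convex_halfSpace_re_le 0)
    (by simp) (by simpa using hz)
  · simpa using h
  · intro w hw
    rw [Complex.deriv_exp, norm_exp]
    exact Real.exp_le_one_iff.2 hw

lemma norm_nat_cpow {n : ℕ} (hn : 1 ≤ n) (s : ℂ) : ‖(n : ℂ) ^ (-s)‖ = (n : ℝ) ^ (-s.re) := by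
  have h : (0 : ℝ) < n := by exact_mod_cast hn
  have := Complex.norm_cpow_eq_rpow_re_of_pos h (-s)
  simpa using this

lemma norm_lv_le {B x : ℝ} (hx : 0 ≤ x) {n : ℕ} (hn : 1 ≤ n) {s : ℂ} (hs : 0 ≤ s.re) :
    ‖(lv B x n : ℂ) ^ (-s)‖ ≤ (n : ℝ) ^ (-s.re) := by
  rw [cpow_lv hn, norm_mul, norm_nat_cpow hn]
  have h1 : (0 : ℝ) ≤ (n : ℝ) ^ (-s.re) := by positivity
  refine mul_le_of_le_one_right h1 ?_
  rw [norm_exp]
  refine Real.exp_le_one_iff.2 ?_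
  have h2 : (0 : ℝ) ≤ x * (n : ℝ) ^ (-B) := by positivity
  simp only [neg_re, re_mul_ofReal]
  nlinarith

lemma norm_diff_le {B x : ℝ} (hx : 0 ≤ x) {n : ℕ} (hn : 1 ≤ n) {s : ℂ} (hs : 0 ≤ s.re) :
    ‖(lv B x n : ℂ) ^ (-s) - (n : ℂ) ^ (-s)‖ ≤ ‖s‖ * (x * (n : ℝ) ^ (-(s.re + B))) := by
  have h0 : (0 : ℝ) < n := by exact_mod_cast hn
  have h1 : (0 : ℝ) ≤ (n : ℝ) ^ (-s.re) := by positivity
  have h2 : (0 : ℝ) ≤ x * (n : ℝ) ^ (-B) := by positivity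
  have e : (lv B x n : ℂ) ^ (-s) - (n : ℂ) ^ (-s) =
      (n : ℂ) ^ (-s) * (exp (-(s * ((x * (n : ℝ) ^ (-B) : ℝ) : ℂ))) - 1) := by
    rw [cpow_lv hn]; ring
  rw [e, norm_mul, norm_nat_cpow hn]
  have h3 : ‖exp (-(s * ((x * (n : ℝ) ^ (-B) : ℝ) : ℂ))) - 1‖ ≤
      ‖s * ((x * (n : ℝ) ^ (-B) : ℝ) : ℂ)‖ :=
    norm_exp_neg_sub_one (by rw [re_mul_ofReal]; positivity)
  rw [norm_mul, Complex.norm_real, Real.norm_of_nonneg h2] at h3
  calc (n : ℝ) ^ (-s.re) * ‖exp (-(s * ((x * (n : ℝ) ^ (-B) : ℝ) : ℂ))) - 1‖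
      ≤ (n : ℝ) ^ (-s.re) * (‖s‖ * (x * (n : ℝ) ^ (-B))) := mul_le_mul_of_nonneg_left h3 h1
    _ = ‖s‖ * (x * ((n : ℝ) ^ (-s.re) * (n : ℝ) ^ (-B))) := by ring
    _ = ‖s‖ * (x * (n : ℝ) ^ (-(s.re + B))) := by
      rw [← Real.rpow_add h0]
      congr 3
      ring

lemma norm_diff_le' {B x : ℝ} (hx : 0 ≤ x) {n : ℕ} (hn : 1 ≤ n) {s : ℂ} (hs : 0 ≤ s.re) :
    ‖(lv B x n : ℂ) ^ (-s) - (n : ℂ) ^ (-s)‖ ≤ 2 * (n : ℝ) ^ (-s.re) := by
  have h1 := norm_lv_le (B := B) hx hn hs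
  have h2 := norm_nat_cpow hn s
  have h3 := norm_sub_le ((lv B x n : ℂ) ^ (-s)) ((n : ℂ) ^ (-s))
  linarith

lemma norm_exp_I_sub (a t t' : ℝ) : ‖exp (-((t * a : ℝ) : ℂ) * I) - exp (-((t' * a : ℝ) : ℂ) * I)‖ ≤
    |t - t'| * |a| := by
  have e : exp (-((t * a : ℝ) : ℂ) * I) - exp (-((t' * a : ℝ) : ℂ) * I) =
      exp (-((t' * a : ℝ) : ℂ) * I) * (exp (I * (((t' - t) * a : ℝ) : ℂ)) - 1) := by
    rw [mul_sub, ← Complex.exp_add, mul_one]
    congr 2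
    push_cast
    ring
  rw [e, norm_mul]
  have h1 : ‖exp (-((t' * a : ℝ) : ℂ) * I)‖ = 1 := by
    have := Complex.norm_exp_ofReal_mul_I (-(t' * a))
    simpa using this
  rw [h1, one_mul]
  have h2 := Real.norm_exp_I_mul_ofReal_sub_one_le (x := (t' - t) * a)
  refine h2.trans ?_
  rw [Real.norm_eq_abs, abs_mul, abs_sub_comm]

lemma cpow_line {r : ℝ} (hr : 0 < r) (σ t : ℝ) : (r : ℂ) ^ (-((σ : ℂ) + t * I)) =
    ((r ^ (-σ) : ℝ) : ℂ) * exp (-((t * Real.log r : ℝ) : ℂ) * I) := by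
  rw [cpow_eq hr, Real.rpow_def_of_pos hr, Complex.ofReal_exp, ← Complex.exp_add]
  congr 1
  push_cast
  ring

lemma cpow_lip {r : ℝ} (hr : 1 ≤ r) {σ : ℝ} (hσ : 0 ≤ σ) (t t' : ℝ) :
    ‖(r : ℂ) ^ (-((σ : ℂ) + t * I)) - (r : ℂ) ^ (-((σ : ℂ) + t' * I))‖ ≤
      |t - t'| * Real.log r := by
  have h0 : 0 < r := by linarith
  rw [cpow_line h0, cpow_line h0, ← mul_sub, norm_mul, Complex.norm_real]
  have h1 : ‖r ^ (-σ)‖ ≤ 1 := by
    rw [Real.norm_of_nonneg (by positivity)]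
    exact Real.rpow_le_one_of_one_le_of_nonpos hr (by linarith)
  have h2 := norm_exp_I_sub (Real.log r) t t'
  rw [abs_of_nonneg (Real.log_nonneg hr)] at h2
  calc _ ≤ 1 * (|t - t'| * Real.log r) := mul_le_mul h1 h2 (norm_nonneg _) zero_le_one
    _ = _ := one_mul _

lemma lip_term {B x σ : ℝ} (hB : 0 ≤ B) (hx : 0 ≤ x) (hσ : 0 ≤ σ) {n : ℕ} (hn : 1 ≤ n)
    (t t' : ℝ) :
    ‖((lv B x n : ℂ) ^ (-((σ : ℂ) + t * I)) - (n : ℂ) ^ (-((σ : ℂ) + t * I))) -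
      ((lv B x n : ℂ) ^ (-((σ : ℂ) + t' * I)) - (n : ℂ) ^ (-((σ : ℂ) + t' * I)))‖ ≤
      |t - t'| * (4 * ((n : ℝ) + 1) * (1 + x)) := by
  have h0 : (1 : ℝ) ≤ n := by exact_mod_cast hn
  have h1 : (n : ℝ) ^ (-B) ≤ 1 := Real.rpow_le_one_of_one_le_of_nonpos h0 (by linarith)
  have h1' : (0 : ℝ) ≤ (n : ℝ) ^ (-B) := by positivity
  have h2 : 1 ≤ lv B x n := by
    unfold lv
    have : 1 ≤ Real.exp (x * (n : ℝ) ^ (-B)) := Real.one_le_exp (by positivity)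
    nlinarith
  have h3 := cpow_lip h2 hσ t t'
  have h4 := cpow_lip h0 hσ t t'
  rw [log_lv hn] at h3
  have h5 : Real.log n ≤ n := (Real.log_le_sub_one_of_pos (by linarith)).trans (by linarith)
  have h6 : x * (n : ℝ) ^ (-B) ≤ x := mul_le_of_le_one_right hx h1
  have h7 : 0 ≤ |t - t'| := abs_nonneg _
  have h8 : Real.log n + (Real.log n + x * (n : ℝ) ^ (-B)) ≤ 4 * ((n : ℝ) + 1) * (1 + x) := by
    nlinarith
  have e : ((lv B x n : ℂ) ^ (-((σ : ℂ) + t * I)) - (n : ℂ) ^ (-((σ : ℂ) + t * I))) -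
      ((lv B x n : ℂ) ^ (-((σ : ℂ) + t' * I)) - (n : ℂ) ^ (-((σ : ℂ) + t' * I))) =
      ((lv B x n : ℂ) ^ (-((σ : ℂ) + t * I)) - (lv B x n : ℂ) ^ (-((σ : ℂ) + t' * I))) -
      ((n : ℂ) ^ (-((σ : ℂ) + t * I)) - (n : ℂ) ^ (-((σ : ℂ) + t' * I))) := by ring
  rw [e]
  refine (norm_sub_le _ _).trans ?_
  have h4' : ‖(n : ℂ) ^ (-((σ : ℂ) + t * I)) - (n : ℂ) ^ (-((σ : ℂ) + t' * I))‖ ≤
      |t - t'| * Real.log n := by simpa using h4
  calc _ ≤ |t - t'| * (Real.log n + x * (n : ℝ) ^ (-B)) + |t - t'| * Real.log n := add_le_add h3 h4'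
    _ = |t - t'| * (Real.log n + (Real.log n + x * (n : ℝ) ^ (-B))) := by ring
    _ ≤ _ := mul_le_mul_of_nonneg_left h8 h7

/-! ### the prime indicator -/

lemma pr_zero : pr 0 = 0 := by simp [pr, Nat.not_prime_zero]

lemma pr_norm_le (n : ℕ) : ‖pr n‖ ≤ 1 := by
  unfold pr
  split_ifs <;> simp

lemma pr_conj (n : ℕ) : (starRingEnd ℂ) (pr n) = pr n := by
  unfold pr
  split_ifs <;> simp

/-- one term of the perturbed prime sum -/
noncomputable def tm (B : ℝ) (x : ℕ → ℝ) (s : ℂ) (n : ℕ) : ℂ :=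
  pr n * ((pert B x n : ℂ) ^ (-s) - (n : ℂ) ^ (-s))

lemma tm_zero (B : ℝ) (x : ℕ → ℝ) (s : ℂ) : tm B x s 0 = 0 := by simp [tm, pr_zero]

lemma pert_eq (B : ℝ) (x : ℕ → ℝ) (n : ℕ) : pert B x n = lv B (x n) n := rfl

lemma tm_norm_le {B : ℝ} {x : ℕ → ℝ} (hx : ∀ n, 0 ≤ x n) {s : ℂ} (hs : 0 ≤ s.re) (n : ℕ) :
    ‖tm B x s n‖ ≤ ‖s‖ * (x n * (n : ℝ) ^ (-(s.re + B))) := by
  rcases Nat.eq_zero_or_pos n with rfl | hn
  · rw [tm_zero, norm_zero]
    exact mul_nonneg (norm_nonneg _) (mul_nonneg (hx _) (Real.rpow_nonneg (Nat.cast_nonneg _) _))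
  · unfold tm
    rw [norm_mul, pert_eq]
    calc _ ≤ 1 * (‖s‖ * (x n * (n : ℝ) ^ (-(s.re + B)))) :=
          mul_le_mul (pr_norm_le n) (norm_diff_le (hx n) hn hs) (norm_nonneg _) zero_le_one
      _ = _ := one_mul _

lemma tm_norm_le' {B : ℝ} {x : ℕ → ℝ} (hx : ∀ n, 0 ≤ x n) {s : ℂ} (hs : 0 ≤ s.re) (n : ℕ) :
    ‖tm B x s n‖ ≤ 2 * (n : ℝ) ^ (-s.re) := by
  rcases Nat.eq_zero_or_pos n with rfl | hn
  · rw [tm_zero, norm_zero]
    exact mul_nonneg (by norm_num) (Real.rpow_nonneg (Nat.cast_nonneg _) _)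
  · unfold tm
    rw [norm_mul, pert_eq]
    calc _ ≤ 1 * (2 * (n : ℝ) ^ (-s.re)) :=
          mul_le_mul (pr_norm_le n) (norm_diff_le' (hx n) hn hs) (norm_nonneg _) zero_le_one
      _ = _ := one_mul _

/-! ### the analytic function -/

/-- the sum of the fluctuations -/
noncomputable def FF (B : ℝ) (x : ℕ → ℝ) (s : ℂ) : ℂ := (∑' n, tm B x s n) + Sm pr B s

lemma real_cpow_conj {r : ℝ} (hr : 0 ≤ r) (s : ℂ) :
    (r : ℂ) ^ (-(starRingEnd ℂ) s) = (starRingEnd ℂ) ((r : ℂ) ^ (-s)) := by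
  have h := Complex.cpow_conj (r : ℂ) (-s)
    (by rw [Complex.arg_ofReal_of_nonneg hr]; exact Real.pi_pos.ne)
  rw [map_neg, Complex.conj_ofReal] at h
  exact h

lemma nat_cpow_conj (n : ℕ) (s : ℂ) :
    (n : ℂ) ^ (-(starRingEnd ℂ) s) = (starRingEnd ℂ) ((n : ℂ) ^ (-s)) := by
  have h := real_cpow_conj (r := (n : ℝ)) (Nat.cast_nonneg n) s
  simpa using h

lemma tm_conj (B : ℝ) (x : ℕ → ℝ) (s : ℂ) (n : ℕ) :
    tm B x ((starRingEnd ℂ) s) n = (starRingEnd ℂ) (tm B x s n) := by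
  have h0 : 0 ≤ pert B x n := mul_nonneg (Nat.cast_nonneg _) (Real.exp_pos _).le
  unfold tm
  rw [map_mul, map_sub, pr_conj, real_cpow_conj h0, nat_cpow_conj]

lemma Sm_conj (B : ℝ) (s : ℂ) : Sm pr B ((starRingEnd ℂ) s) = (starRingEnd ℂ) (Sm pr B s) := by
  unfold Sm
  rw [map_mul, Complex.conj_tsum]
  congr 1
  refine tsum_congr fun n => ?_
  rw [map_div₀, map_mul, map_add, pr_conj, nat_cpow_conj, Complex.conj_ofReal]

lemma FF_conj (B : ℝ) (x : ℕ → ℝ) (s : ℂ) : FF B x ((starRingEnd ℂ) s) =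
    (starRingEnd ℂ) (FF B x s) := by
  unfold FF
  rw [map_add, Complex.conj_tsum, Sm_conj]
  congr 1
  exact tsum_congr fun n => tm_conj B x s n

lemma rpow_le_rpow_nat {a b : ℝ} (hab : a ≤ b) (ha : a < 0) (n : ℕ) :
    (n : ℝ) ^ a ≤ (n : ℝ) ^ b + if n = 0 then 1 else 0 := by
  rcases Nat.eq_zero_or_pos n with rfl | hn
  · rw [if_pos rfl, Nat.cast_zero, Real.zero_rpow ha.ne]
    have := Real.rpow_nonneg (le_refl (0 : ℝ)) b
    linarith
  · rw [if_neg (by omega), add_zero]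
    exact Real.rpow_le_rpow_of_exponent_le (by exact_mod_cast hn) hab

lemma rpow_anti {a b : ℝ} (hab : a ≤ b) (hb : b < 0) (n : ℕ) :
    (n : ℝ) ^ a ≤ (n : ℝ) ^ b := by
  rcases Nat.eq_zero_or_pos n with rfl | hn
  · rw [Nat.cast_zero, Real.zero_rpow hb.ne, Real.zero_rpow (by linarith)]
  · exact Real.rpow_le_rpow_of_exponent_le (by exact_mod_cast hn) hab

lemma sum_norm_le {B : ℝ} (hB : 0 < B) {x : ℕ → ℝ} (hx : ∀ n, 0 ≤ x n) {σ₀ : ℝ} (h0 : 0 < σ₀)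
    (hS : Summable (fun n : ℕ => x n * (n : ℝ) ^ (-(σ₀ + B)))) {s : ℂ} (hs : σ₀ ≤ s.re) :
    Summable (fun n => tm B x s n) ∧
      ‖∑' n, tm B x s n‖ ≤ ‖s‖ * ∑' n : ℕ, x n * (n : ℝ) ^ (-(σ₀ + B)) := by
  have h1 : ∀ n, ‖tm B x s n‖ ≤ ‖s‖ * (x n * (n : ℝ) ^ (-(σ₀ + B))) := fun n => by
    refine (tm_norm_le hx (h0.le.trans hs) n).trans ?_
    refine mul_le_mul_of_nonneg_left (mul_le_mul_of_nonneg_left ?_ (hx n)) (norm_nonneg _)
    exact rpow_anti (by linarith) (by linarith) n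
  have h2 := hS.mul_left ‖s‖
  refine ⟨Summable.of_norm_bounded h2 h1, ?_⟩
  rw [← tsum_mul_left]
  exact tsum_of_norm_bounded h2.hasSum h1

lemma tm_differentiable (B : ℝ) (x : ℕ → ℝ) (n : ℕ) : Differentiable ℂ (fun s => tm B x s n) := by
  rcases Nat.eq_zero_or_pos n with rfl | hn
  · have : (fun s => tm B x s 0) = fun _ => 0 := funext fun s => tm_zero B x s
    rw [this]
    exact differentiable_const _
  · have h1 : (pert B x n : ℂ) ≠ 0 := by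
      rw [pert_eq]
      exact_mod_cast (lv_pos hn).ne'
    have h2 : (n : ℂ) ≠ 0 := by exact_mod_cast (by omega : n ≠ 0)
    unfold tm
    intro s
    have h3 : DifferentiableAt ℂ (fun s : ℂ => (pert B x n : ℂ) ^ (-s)) s :=
      (differentiableAt_id.neg).const_cpow (Or.inl h1)
    have h4 : DifferentiableAt ℂ (fun s : ℂ => (n : ℂ) ^ (-s)) s :=
      (differentiableAt_id.neg).const_cpow (Or.inl h2)
    exact (h3.sub h4).const_mul _

lemma FF_analytic (hA : P_SMA) {B : ℝ} (hB : 1 / 2 < B) {x : ℕ → ℝ} (hx : ∀ n, 0 ≤ x n)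
    (hS : ∀ σ : ℝ, 1 / 2 < σ → Summable (fun n : ℕ => x n * (n : ℝ) ^ (-(σ + B))))
    {z : ℂ} (hz : 1 / 2 < z.re) : AnalyticAt ℂ (FF B x) z := by
  have hA1 := (hA pr B hB pr_zero pr_norm_le).1 z (by linarith) (by linarith)
  set σ₁ : ℝ := (1 / 2 + z.re) / 2 with hσ
  have h1 : 1 / 2 < σ₁ := by rw [hσ]; linarith
  have h1' : σ₁ < z.re := by rw [hσ]; linarith
  set U : Set ℂ := {w : ℂ | σ₁ < w.re} ∩ Metric.ball 0 (‖z‖ + 1) with hU
  have hUo : IsOpen U := (isOpen_lt continuous_const Complex.continuous_re).inter Metric.isOpen_ball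
  have hzU : z ∈ U := ⟨h1', by simp⟩
  have h2 : DifferentiableOn ℂ (fun s => ∑' n, tm B x s n) U := by
    refine Complex.differentiableOn_tsum_of_summable_norm
      (u := fun n : ℕ => (‖z‖ + 1) * (x n * (n : ℝ) ^ (-(σ₁ + B)))) ((hS σ₁ h1).mul_left _)
      (fun n => (tm_differentiable B x n).differentiableOn) hUo ?_
    rintro n w ⟨hw1, hw2⟩
    have hw3 : ‖w‖ ≤ ‖z‖ + 1 := by
      have := mem_ball_zero_iff.1 hw2
      exact this.le
    have hw4 : σ₁ ≤ w.re := le_of_lt hw1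
    refine (tm_norm_le hx (by linarith) n).trans ?_
    have h3 : x n * (n : ℝ) ^ (-(w.re + B)) ≤ x n * (n : ℝ) ^ (-(σ₁ + B)) :=
      mul_le_mul_of_nonneg_left (rpow_anti (by linarith) (by linarith) n) (hx n)
    have h4 : 0 ≤ x n * (n : ℝ) ^ (-(w.re + B)) :=
      mul_nonneg (hx n) (Real.rpow_nonneg (Nat.cast_nonneg _) _)
    exact mul_le_mul hw3 h3 h4 (by positivity)
  have h3 : AnalyticAt ℂ (fun s => ∑' n, tm B x s n) z := h2.analyticAt (hUo.mem_nhds hzU)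
  exact h3.add hA1

/-- crude bound -/
lemma FF_crude (hA : P_SMA) {B : ℝ} (hB : 1 / 2 < B) {x : ℕ → ℝ} (hx : ∀ n, 0 ≤ x n)
    (hS : ∀ σ : ℝ, 1 / 2 < σ → Summable (fun n : ℕ => x n * (n : ℝ) ^ (-(σ + B))))
    {σ₀ : ℝ} (h0 : 1 / 2 < σ₀) : ∃ C : ℝ, 0 ≤ C ∧ ∀ s : ℂ, σ₀ ≤ s.re →
      ‖FF B x s‖ ≤ C * (1 + ‖s‖) ^ 2 := by
  obtain ⟨C3, hC3⟩ := (hA pr B hB pr_zero pr_norm_le).2.2.1 σ₀ (by linarith) (by linarith) 1 one_pos
  set K := ∑' n : ℕ, x n * (n : ℝ) ^ (-(σ₀ + B)) with hK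
  have hK0 : 0 ≤ K := tsum_nonneg fun n =>
    mul_nonneg (hx n) (Real.rpow_nonneg (Nat.cast_nonneg _) _)
  refine ⟨K + |C3|, by positivity, fun s hs => ?_⟩
  have h1 := (sum_norm_le (by linarith) hx (by linarith) (hS σ₀ h0) hs).2
  rw [← hK] at h1
  have h2 := hC3 s hs
  have h3 : (1 : ℝ) ≤ 1 + ‖s‖ := by have := norm_nonneg s; linarith
  have h4 : (1 + ‖s‖) ^ (max 0 ((1 - σ₀) / B) + 1) ≤ (1 + ‖s‖) ^ (2 : ℝ) := by
    refine Real.rpow_le_rpow_of_exponent_le h3 ?_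
    have : max 0 ((1 - σ₀) / B) ≤ 1 := by
      refine max_le (by norm_num) ?_
      rw [div_le_one (by linarith)]
      linarith
    linarith
  rw [Real.rpow_two] at h4
  have h5 : ‖Sm pr B s‖ ≤ |C3| * (1 + ‖s‖) ^ 2 := by
    refine h2.trans ((mul_le_mul_of_nonneg_right (le_abs_self C3) (by positivity)).trans ?_)
    exact mul_le_mul_of_nonneg_left h4 (abs_nonneg _)
  have h6 : ‖s‖ * K ≤ K * (1 + ‖s‖) ^ 2 := by
    have : ‖s‖ ≤ (1 + ‖s‖) ^ 2 := by nlinarith [norm_nonneg s]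
    nlinarith
  unfold FF
  refine (norm_add_le _ _).trans ?_
  nlinarith

/-- bound to the right -/
lemma FF_right (hA : P_SMA) {B : ℝ} (hB : 1 / 2 < B) {x : ℕ → ℝ} (hx : ∀ n, 0 ≤ x n) :
    ∃ C : ℝ, 0 ≤ C ∧ ∀ s : ℂ, 2 ≤ s.re → ‖FF B x s‖ ≤ C := by
  obtain ⟨C4, hC4⟩ := (hA pr B hB pr_zero pr_norm_le).2.2.2.1
  have hs2 : Summable (fun n : ℕ => 2 * (n : ℝ) ^ (-(2 : ℝ))) :=
    (Real.summable_nat_rpow.2 (by norm_num)).mul_left 2
  set K := ∑' n : ℕ, 2 * (n : ℝ) ^ (-(2 : ℝ)) with hK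
  have hK0 : 0 ≤ K := tsum_nonneg fun n =>
    mul_nonneg (by norm_num) (Real.rpow_nonneg (Nat.cast_nonneg _) _)
  refine ⟨K + |C4|, by positivity, fun s hs => ?_⟩
  have h1 : ∀ n, ‖tm B x s n‖ ≤ 2 * (n : ℝ) ^ (-(2 : ℝ)) := fun n => by
    refine (tm_norm_le' hx (by linarith) n).trans ?_
    exact mul_le_mul_of_nonneg_left (rpow_anti (by linarith) (by norm_num) n) (by norm_num)
  have h2 : ‖∑' n, tm B x s n‖ ≤ K := tsum_of_norm_bounded hs2.hasSum h1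
  unfold FF
  refine (norm_add_le _ _).trans (add_le_add h2 ((hC4 s hs).trans (le_abs_self _)))

/-- the comparison function -/
noncomputable def uu (t : ℝ) : ℝ := (1 + Real.log (1 + |t|)) ^ (2 / 3 : ℝ)

lemma log_nonneg' (t : ℝ) : 0 ≤ Real.log (1 + |t|) :=
  Real.log_nonneg (by have := abs_nonneg t; linarith)

lemma uu_one_le (t : ℝ) : 1 ≤ uu t := by
  unfold uu
  exact Real.one_le_rpow (by have := log_nonneg' t; linarith) (by norm_num)

lemma uu_mono {t t' : ℝ} (h : |t| ≤ |t'|) : uu t ≤ uu t' := by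
  unfold uu
  refine Real.rpow_le_rpow (by have := log_nonneg' t; linarith) ?_ (by norm_num)
  have := Real.log_le_log (by have := abs_nonneg t; linarith) (by linarith : 1 + |t| ≤ 1 + |t'|)
  linarith

lemma uu_abs (t : ℝ) : uu (-t) = uu t := by unfold uu; rw [abs_neg]

lemma uu_two_mul (t : ℝ) : uu (2 * t) ≤ 2 * uu t := by
  unfold uu
  have h1 := log_nonneg' t
  have h2 : Real.log (1 + |2 * t|) ≤ 1 + Real.log (1 + |t|) := by
    have h3 : 1 + |2 * t| ≤ 2 * (1 + |t|) := by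
      rw [abs_mul, abs_of_pos (by norm_num : (0 : ℝ) < 2)]; linarith [abs_nonneg t]
    have h4 := Real.log_le_log (by have := abs_nonneg (2 * t); linarith) h3
    rw [Real.log_mul (by norm_num) (by have := abs_nonneg t; positivity)] at h4
    have h5 : Real.log 2 ≤ 1 := by have := Real.log_two_lt_d9; linarith
    linarith
  calc (1 + Real.log (1 + |2 * t|)) ^ (2 / 3 : ℝ)
      ≤ (2 * (1 + Real.log (1 + |t|))) ^ (2 / 3 : ℝ) :=
        Real.rpow_le_rpow (by have := log_nonneg' (2 * t); linarith) (by linarith) (by norm_num)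
    _ = 2 ^ (2 / 3 : ℝ) * (1 + Real.log (1 + |t|)) ^ (2 / 3 : ℝ) :=
        Real.mul_rpow (by norm_num) (by linarith)
    _ ≤ 2 * (1 + Real.log (1 + |t|)) ^ (2 / 3 : ℝ) := by
      refine mul_le_mul_of_nonneg_right ?_ (by positivity)
      calc (2 : ℝ) ^ (2 / 3 : ℝ) ≤ 2 ^ (1 : ℝ) :=
            Real.rpow_le_rpow_of_exponent_le (by norm_num) (by norm_num)
        _ = 2 := Real.rpow_one 2

lemma uu_le (t : ℝ) : uu t ≤ 1 + |t| := by
  unfold uu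
  have h1 := log_nonneg' t
  have h2 : Real.log (1 + |t|) ≤ |t| := by
    have := Real.log_le_sub_one_of_pos (by have := abs_nonneg t; linarith : 0 < 1 + |t|)
    linarith
  calc (1 + Real.log (1 + |t|)) ^ (2 / 3 : ℝ) ≤ (1 + Real.log (1 + |t|)) ^ (1 : ℝ) :=
        Real.rpow_le_rpow_of_exponent_le (by linarith) (by norm_num)
    _ ≤ 1 + |t| := by rw [Real.rpow_one]; linarith

/-- from one line to the half plane -/
theorem half_plane (hT : P_TLR) (hA : P_SMA) {B : ℝ} (hB : 1 / 2 < B) {x : ℕ → ℝ}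
    (hx : ∀ n, 0 ≤ x n)
    (hS : ∀ σ : ℝ, 1 / 2 < σ → Summable (fun n : ℕ => x n * (n : ℝ) ^ (-(σ + B))))
    {σ₀ : ℝ} (h0 : 1 / 2 < σ₀) (h2 : σ₀ < 2) {C₀ : ℝ}
    (hC : ∀ t : ℝ, ‖FF B x ((σ₀ : ℂ) + t * I)‖ ≤ C₀ * uu t) :
    ∃ C : ℝ, ∀ s : ℂ, σ₀ ≤ s.re → ‖FF B x s‖ ≤ C * uu s.im := by
  obtain ⟨C4, hC40, hC4⟩ := FF_crude hA hB hx hS h0
  obtain ⟨C5, hC50, hC5⟩ := FF_right hA hB hx
  -- the constants
  obtain ⟨k, hk⟩ : ∃ k : ℕ, C4 + (2 * |C₀| + C5 + 1) ≤ 2 ^ k := by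
    obtain ⟨k, hk⟩ := pow_unbounded_of_one_lt (C4 + (2 * |C₀| + C5 + 1)) (by norm_num : (1 : ℝ) < 2)
    exact ⟨k, hk.le⟩
  set D : ℝ := 2 * |C₀| + C5 + 1 with hD
  have hD1 : 1 ≤ D := by have := abs_nonneg C₀; linarith
  obtain ⟨C6, hC61, hC6⟩ := hT σ₀ 2 (k + 6 : ℕ) h2 (by positivity)
  have hup : ∀ s : ℂ, σ₀ ≤ s.re → s.re ≤ 2 → 2 ≤ s.im → ‖FF B x s‖ ≤ C6 * D * uu s.im := by
    intro s hs1 hs2 hs3
    set T := s.im with hTdef
    have hT1 : (1 : ℝ) ≤ T := by linarith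
    have hu1 := uu_one_le T
    have hM1 : 1 ≤ D * uu T := by nlinarith
    have hpow : ∀ m : ℕ, T ^ ((m : ℕ) : ℝ) = T ^ m := fun m => Real.rpow_natCast T m
    have h2k : (2 : ℝ) ^ k ≤ T ^ k := pow_le_pow_left₀ (by norm_num) hs3 k
    have hTk : (1 : ℝ) ≤ T ^ k := one_le_pow₀ hT1
    have hT6 : T ^ (k + 6) = T ^ k * T ^ 6 := pow_add T k 6
    have hMK : D * uu T ≤ T ^ (((k + 6 : ℕ) : ℕ) : ℝ) := by
      rw [hpow, hT6]
      have h3 : uu T ≤ T ^ 6 := by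
        refine (uu_le T).trans ?_
        rw [abs_of_nonneg (by linarith)]
        nlinarith [pow_le_pow_right₀ hT1 (by norm_num : 2 ≤ 6), sq_nonneg T]
      have h4 : D ≤ T ^ k := by linarith
      exact mul_le_mul h4 h3 (by linarith) (by positivity)
    have hneg : T ^ (-(((k + 6 : ℕ) : ℕ) : ℝ)) ≤ D * uu T := by
      refine le_trans ?_ hM1
      exact Real.rpow_le_one_of_one_le_of_nonpos hT1 (by
        have : (0 : ℝ) ≤ ((k + 6 : ℕ) : ℝ) := Nat.cast_nonneg _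
        linarith)
    have hmain := hC6 T (D * uu T) (D * uu T) (FF B x) hs3 hneg hMK hneg hMK ?_ ?_ s.re hs1 hs2
    · have e : ((s.re : ℂ) + T * I) = s := by
        rw [hTdef]; exact Complex.re_add_im s
      rw [e] at hmain
      refine hmain.trans (le_of_eq ?_)
      rw [mul_assoc, ← Real.rpow_add (by linarith)]
      have : (2 - s.re) / (2 - σ₀) + (s.re - σ₀) / (2 - σ₀) = 1 := by
        rw [← add_div]
        rw [show 2 - s.re + (s.re - σ₀) = 2 - σ₀ by ring]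
        exact div_self (by linarith)
      rw [this, Real.rpow_one]
      ring
    · intro z hz1 hz2 hz3 hz4
      refine ⟨FF_analytic hA hB hx hS (by linarith), ?_⟩
      refine (hC4 z hz1).trans ?_
      rw [hpow, hT6]
      have h3 : ‖z‖ ≤ 3 * T := by
        refine (Complex.norm_le_abs_re_add_abs_im z).trans ?_
        rw [abs_of_nonneg (by linarith), abs_of_nonneg (by linarith)]
        linarith
      have h4 : (1 + ‖z‖) ^ 2 ≤ T ^ 6 := by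
        have h5 : 1 + ‖z‖ ≤ T ^ 3 := by nlinarith [pow_le_pow_right₀ hT1 (by norm_num : 2 ≤ 3)]
        calc (1 + ‖z‖) ^ 2 ≤ (T ^ 3) ^ 2 := pow_le_pow_left₀ (by positivity) h5 2
          _ = T ^ 6 := by ring
      have h6 : C4 ≤ T ^ k := by linarith
      exact mul_le_mul h6 h4 (by positivity) (by positivity)
    · intro v hv1 hv2
      have huv : uu v ≤ 2 * uu T := by
        refine le_trans (uu_mono ?_) (uu_two_mul T)
        rw [abs_of_nonneg (by linarith), abs_of_nonneg (by linarith)]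
        exact hv2
      constructor
      · refine (hC v).trans ?_
        have h7 : C₀ * uu v ≤ |C₀| * (2 * uu T) :=
          mul_le_mul (le_abs_self _) huv (by have := uu_one_le v; linarith) (abs_nonneg _)
        nlinarith
      · refine (hC5 _ (by simp)).trans ?_
        nlinarith [abs_nonneg C₀]
  refine ⟨C6 * D + 25 * C4 + C5, fun s hs => ?_⟩
  have hu1 := uu_one_le s.im
  have hp1 : 0 ≤ C6 * D * uu s.im := by positivity
  have hp2 : 0 ≤ 25 * C4 * uu s.im := by positivity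
  have hp3 : 0 ≤ C5 * uu s.im := by positivity
  have hexp : (C6 * D + 25 * C4 + C5) * uu s.im = C6 * D * uu s.im + 25 * C4 * uu s.im +
      C5 * uu s.im := by ring
  rcases le_total 2 s.re with h3 | h3
  · have := hC5 s h3
    nlinarith
  rcases le_total 2 s.im with h4 | h4
  · have := hup s hs h3 h4
    nlinarith
  rcases le_total s.im (-2) with h5 | h5
  · have h6 := hup ((starRingEnd ℂ) s) (by simpa using hs) (by simpa using h3)
      (by simpa using (by linarith : 2 ≤ -s.im))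
    rw [FF_conj, RCLike.norm_conj, Complex.conj_im, uu_abs] at h6
    nlinarith
  · have h6 := hC4 s hs
    have h7 : ‖s‖ ≤ 4 := by
      refine (Complex.norm_le_abs_re_add_abs_im s).trans ?_
      rw [abs_of_nonneg (by linarith)]
      have : |s.im| ≤ 2 := abs_le.2 ⟨by linarith, h4⟩
      linarith
    have h8 : (1 + ‖s‖) ^ 2 ≤ 25 := by nlinarith [norm_nonneg s]
    nlinarith

/-! ### probability -/

lemma ae_summable {Ω : Type} [MeasurableSpace Ω] (P : Measure Ω) [IsProbabilityMeasure P]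
    (X : ℕ → Ω → ℝ) (hm : ∀ n, Measurable (X n)) (h0 : ∀ n, ∀ᵐ ω ∂P, 0 ≤ X n ω)
    (hi : ∀ n, Integrable (X n) P) (h1 : ∀ n, ∫ ω, X n ω ∂P ≤ 1) {w : ℕ → ℝ} (hw : ∀ n, 0 ≤ w n)
    (hs : Summable w) : ∀ᵐ ω ∂P, Summable (fun n => X n ω * w n) := by
  have hmeas : ∀ n, Measurable (fun ω => ENNReal.ofReal (X n ω * w n)) := fun n =>
    ((hm n).mul_const _).ennreal_ofReal
  have hle : ∀ n, ∫⁻ ω, ENNReal.ofReal (X n ω * w n) ∂P ≤ ENNReal.ofReal (w n) := by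
    intro n
    have e : ∫⁻ ω, ENNReal.ofReal (X n ω * w n) ∂P = ENNReal.ofReal (∫ ω, X n ω * w n ∂P) := by
      refine (ofReal_integral_eq_lintegral_ofReal ((hi n).mul_const _) ?_).symm
      filter_upwards [h0 n] with ω hω
      exact mul_nonneg hω (hw n)
    rw [e, integral_mul_const]
    refine ENNReal.ofReal_le_ofReal ?_
    exact mul_le_of_le_one_left (hw n) (h1 n)
  have hfin : ∫⁻ ω, ∑' n, ENNReal.ofReal (X n ω * w n) ∂P ≠ ⊤ := by
    rw [lintegral_tsum (fun n => (hmeas n).aemeasurable)]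
    refine ne_top_of_le_ne_top ?_ (ENNReal.tsum_le_tsum hle)
    rw [← ENNReal.ofReal_tsum_of_nonneg hw hs]
    exact ENNReal.ofReal_ne_top
  have h2 := ae_lt_top (Measurable.tsum hmeas) hfin
  filter_upwards [h2, ae_all_iff.2 h0] with ω hω hω0
  have h3 := ENNReal.summable_toReal hω.ne
  refine h3.congr fun n => ?_
  rw [ENNReal.toReal_ofReal (mul_nonneg (hω0 n) (hw n))]

/-- the summand as a function of a real variable -/
noncomputable def gg (B σ : ℝ) (n : ℕ) (t x : ℝ) : ℂ :=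
  pr n * ((lv B x n : ℂ) ^ (-((σ : ℂ) + t * I)) - (n : ℂ) ^ (-((σ : ℂ) + t * I)))

lemma gg_zero (B σ t x : ℝ) : gg B σ 0 t x = 0 := by simp [gg, pr_zero]

lemma re_line (σ t : ℝ) : ((σ : ℂ) + t * I).re = σ := by simp

lemma gg_bound {B σ : ℝ} (hσ : 0 ≤ σ) (n : ℕ) (t : ℝ) {x : ℝ} (hx : 0 ≤ x) :
    ‖gg B σ n t x‖ ≤ 2 * (n : ℝ) ^ (-σ) := by
  have h := tm_norm_le' (B := B) (x := fun _ => x) (fun _ => hx) (s := (σ : ℂ) + t * I)
    (by rw [re_line]; exact hσ) n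
  rw [re_line] at h
  exact h

lemma gg_bound' {B σ : ℝ} (hσ : 0 ≤ σ) (n : ℕ) (t : ℝ) {x : ℝ} (hx : 0 ≤ x) :
    ‖gg B σ n t x‖ ≤ (1 + |t|) * (((1 + σ) * (n : ℝ) ^ (-(σ + B))) * (1 + x)) := by
  have h := tm_norm_le (B := B) (x := fun _ => x) (fun _ => hx) (s := (σ : ℂ) + t * I)
    (by rw [re_line]; exact hσ) n
  rw [re_line] at h
  refine h.trans ?_
  have h1 : ‖(σ : ℂ) + t * I‖ ≤ (1 + |t|) * (1 + σ) := by
    refine (norm_add_le _ _).trans ?_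
    rw [norm_mul, Complex.norm_real, Complex.norm_real, Complex.norm_I, mul_one,
      Real.norm_of_nonneg hσ, Real.norm_eq_abs]
    nlinarith [abs_nonneg t]
  have h2 : (0 : ℝ) ≤ (n : ℝ) ^ (-(σ + B)) := Real.rpow_nonneg (Nat.cast_nonneg _) _
  have h3 : x * (n : ℝ) ^ (-(σ + B)) ≤ (1 + x) * (n : ℝ) ^ (-(σ + B)) :=
    mul_le_mul_of_nonneg_right (by linarith) h2
  calc ‖(σ : ℂ) + t * I‖ * (x * (n : ℝ) ^ (-(σ + B)))
      ≤ ((1 + |t|) * (1 + σ)) * ((1 + x) * (n : ℝ) ^ (-(σ + B))) :=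
        mul_le_mul h1 h3 (mul_nonneg hx h2) (by positivity)
    _ = _ := by ring

lemma gg_lip {B σ : ℝ} (hB : 0 ≤ B) (hσ : 0 ≤ σ) (n : ℕ) (t t' : ℝ) {x : ℝ} (hx : 0 ≤ x) :
    ‖gg B σ n t x - gg B σ n t' x‖ ≤ |t - t'| * (4 * ((n : ℝ) + 1) * (1 + x)) := by
  rcases Nat.eq_zero_or_pos n with rfl | hn
  · rw [gg_zero, gg_zero, sub_zero, norm_zero]
    positivity
  · unfold gg
    rw [← mul_sub, norm_mul]
    calc _ ≤ 1 * (|t - t'| * (4 * ((n : ℝ) + 1) * (1 + x))) :=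
          mul_le_mul (pr_norm_le n) (lip_term hB hx hσ hn t t') (norm_nonneg _) zero_le_one
      _ = _ := one_mul _

lemma gg_meas (B σ : ℝ) (n : ℕ) (t : ℝ) : Measurable (gg B σ n t) := by
  unfold gg lv
  have h1 : Measurable (fun x : ℝ => (((n : ℝ) * Real.exp (x * (n : ℝ) ^ (-B)) : ℝ) : ℂ)) := by
    refine Complex.measurable_ofReal.comp ?_
    fun_prop
  exact ((h1.pow_const _).sub measurable_const).const_mul _

lemma summable_c {B σ : ℝ} (h : 1 < σ + B) (hσ : 0 ≤ σ) :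
    Summable (fun n : ℕ => ((1 + σ) * (n : ℝ) ^ (-(σ + B))) *
      ((n : ℝ) + 1) ^ ((σ + B - 1) / 2)) := by
  have h1 : Summable (fun n : ℕ => ((1 + σ) * 2 ^ ((σ + B - 1) / 2)) *
      (n : ℝ) ^ (-(σ + B) / 2 - 1 / 2)) :=
    (Real.summable_nat_rpow.2 (by linarith)).mul_left _
  refine Summable.of_nonneg_of_le (fun n => ?_) (fun n => ?_) h1
  · have h2 : (0 : ℝ) ≤ (n : ℝ) ^ (-(σ + B)) := Real.rpow_nonneg (Nat.cast_nonneg _) _
    positivity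
  · rcases Nat.eq_zero_or_pos n with rfl | hn
    · rw [Nat.cast_zero, Real.zero_rpow (by linarith), Real.zero_rpow (by linarith)]
      simp
    · have h0 : (0 : ℝ) < n := by exact_mod_cast hn
      have h0' : (1 : ℝ) ≤ n := by exact_mod_cast hn
      have h3 : ((n : ℝ) + 1) ^ ((σ + B - 1) / 2) ≤
          2 ^ ((σ + B - 1) / 2) * (n : ℝ) ^ ((σ + B - 1) / 2) := by
        rw [← Real.mul_rpow (by norm_num) h0.le]
        exact Real.rpow_le_rpow (by linarith) (by linarith) (by linarith)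
      have h4 : (n : ℝ) ^ (-(σ + B)) * (n : ℝ) ^ ((σ + B - 1) / 2) =
          (n : ℝ) ^ (-(σ + B) / 2 - 1 / 2) := by
        rw [← Real.rpow_add h0]
        congr 1
        ring
      calc ((1 + σ) * (n : ℝ) ^ (-(σ + B))) * ((n : ℝ) + 1) ^ ((σ + B - 1) / 2)
          ≤ ((1 + σ) * (n : ℝ) ^ (-(σ + B))) *
            (2 ^ ((σ + B - 1) / 2) * (n : ℝ) ^ ((σ + B - 1) / 2)) :=
            mul_le_mul_of_nonneg_left h3 (by positivity)
        _ = ((1 + σ) * 2 ^ ((σ + B - 1) / 2)) *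
            ((n : ℝ) ^ (-(σ + B)) * (n : ℝ) ^ ((σ + B - 1) / 2)) := by ring
        _ = _ := by rw [h4]

lemma summable_b {σ : ℝ} (h : 1 / 2 < σ) : Summable (fun n : ℕ => (2 * (n : ℝ) ^ (-σ)) ^ 2) := by
  have h1 : Summable (fun n : ℕ => 4 * (n : ℝ) ^ (-(2 * σ))) :=
    (Real.summable_nat_rpow.2 (by linarith)).mul_left _
  refine h1.congr fun n => ?_
  rw [mul_pow, ← Real.rpow_natCast ((n : ℝ) ^ (-σ)) 2, ← Real.rpow_mul (Nat.cast_nonneg _)]
  norm_num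
  congr 1
  ring

lemma uu_sq (t : ℝ) :
    uu t ^ 2 = (1 + Real.log (1 + |t|)) * (1 + Real.log (1 + |t|)) ^ (1 / 3 : ℝ) := by
  have h := log_nonneg' t
  have h1 : 0 < 1 + Real.log (1 + |t|) := by linarith
  unfold uu
  rw [← Real.rpow_natCast, ← Real.rpow_mul h1.le]
  nth_rw 2 [← Real.rpow_one (1 + Real.log (1 + |t|))]
  rw [← Real.rpow_add h1]
  congr 1
  norm_num

lemma summable_exp {σ : ℝ} (h : 1 / 2 < σ) (q : ℕ) (hq : 1 ≤ q) :
    Summable (fun k : ℕ => Real.exp (-(uu ((k : ℝ) ^ (1 / (q : ℝ)))) ^ 2 /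
      (q * (1 + ∑ n ∈ Finset.range k, (2 * (n : ℝ) ^ (-σ)) ^ 2)))) := by
  set V : ℝ := 1 + ∑' n : ℕ, (2 * (n : ℝ) ^ (-σ)) ^ 2 with hV
  have hV1 : 1 ≤ V := by
    have : 0 ≤ ∑' n : ℕ, (2 * (n : ℝ) ^ (-σ)) ^ 2 := tsum_nonneg fun n => sq_nonneg _
    linarith
  have hq0 : (0 : ℝ) < q := by exact_mod_cast hq
  have hlim : Tendsto (fun k : ℕ => (1 + Real.log (1 + |(k : ℝ) ^ (1 / (q : ℝ))|)) ^ (1 / 3 : ℝ))
      atTop atTop := by
    have h1 : Tendsto (fun k : ℕ => (k : ℝ) ^ (1 / (q : ℝ))) atTop atTop :=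
      (tendsto_rpow_atTop (by positivity)).comp tendsto_natCast_atTop_atTop
    have h2 : Tendsto (fun k : ℕ => 1 + |(k : ℝ) ^ (1 / (q : ℝ))|) atTop atTop :=
      tendsto_atTop_add_const_left _ _ (tendsto_abs_atTop_atTop.comp h1)
    have h3 : Tendsto (fun k : ℕ => 1 + Real.log (1 + |(k : ℝ) ^ (1 / (q : ℝ))|)) atTop atTop :=
      tendsto_atTop_add_const_left _ _ (Real.tendsto_log_atTop.comp h2)
    exact (tendsto_rpow_atTop (by norm_num)).comp h3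
  have hs2 : Summable (fun k : ℕ => (k : ℝ) ^ (-(2 : ℝ))) :=
    Real.summable_nat_rpow.2 (by norm_num)
  refine Summable.of_norm_bounded_eventually_nat hs2 ?_
  filter_upwards [hlim.eventually_ge_atTop (2 * (q : ℝ) ^ 2 * V), eventually_ge_atTop 1]
    with k hk hk1
  have hk0 : (0 : ℝ) < k := by exact_mod_cast hk1
  rw [Real.norm_of_nonneg (Real.exp_pos _).le]
  set τ : ℝ := (k : ℝ) ^ (1 / (q : ℝ)) with hτ
  have hτ0 : 0 < τ := Real.rpow_pos_of_pos hk0 _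
  set L : ℝ := 1 + Real.log (1 + |τ|) with hL
  have hL1 : 1 ≤ L := by have := log_nonneg' τ; linarith
  have hlog : Real.log k ≤ q * L := by
    have h4 : Real.log τ = (1 / (q : ℝ)) * Real.log k := Real.log_rpow hk0 _
    have h5 : Real.log τ ≤ Real.log (1 + |τ|) := by
      refine Real.log_le_log hτ0 ?_
      rw [abs_of_pos hτ0]; linarith
    have h6 : Real.log k = q * Real.log τ := by rw [h4]; field_simp
    rw [h6]
    refine mul_le_mul_of_nonneg_left ?_ hq0.le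
    linarith
  set Sg : ℝ := 1 + ∑ n ∈ Finset.range k, (2 * (n : ℝ) ^ (-σ)) ^ 2 with hSg
  have hSg1 : 1 ≤ Sg := by
    have : 0 ≤ ∑ n ∈ Finset.range k, (2 * (n : ℝ) ^ (-σ)) ^ 2 :=
      Finset.sum_nonneg fun n _ => sq_nonneg _
    linarith
  have hSgV : Sg ≤ V := by
    have := (summable_b h).sum_le_tsum (Finset.range k) (fun n _ => sq_nonneg _)
    linarith
  have hkey : 2 * Real.log k ≤ uu τ ^ 2 / (q * Sg) := by
    rw [le_div_iff₀ (by positivity), uu_sq]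
    calc 2 * Real.log k * (q * Sg) ≤ 2 * (q * L) * (q * V) := by
          have hk' : 0 ≤ Real.log k := Real.log_natCast_nonneg k
          have h7 : 2 * Real.log k ≤ 2 * (q * L) := by linarith
          have h8 : q * Sg ≤ q * V := mul_le_mul_of_nonneg_left hSgV hq0.le
          exact mul_le_mul h7 h8 (by positivity) (by positivity)
      _ = L * (2 * (q : ℝ) ^ 2 * V) := by ring
      _ ≤ L * L ^ (1 / 3 : ℝ) := mul_le_mul_of_nonneg_left hk (by linarith)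
  calc Real.exp (-uu τ ^ 2 / (q * Sg)) ≤ Real.exp (-(2 * Real.log k)) := by
        refine Real.exp_le_exp.2 ?_
        rw [neg_div]
        linarith
    _ = (k : ℝ) ^ (-(2 : ℝ)) := by
      rw [Real.rpow_def_of_pos hk0]
      congr 1
      ring

lemma integral_gg (hM : P_MEX) {Ω : Type} [MeasurableSpace Ω] (P : Measure Ω)
    [IsProbabilityMeasure P] (X : Ω → ℝ) (hm : Measurable X) (hl : P.map X = expMeasure 1)
    {B σ : ℝ} (hσ : 0 < σ) (n : ℕ) (t : ℝ) :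
    ∫ ω, gg B σ n t (X ω) ∂P = -(((σ : ℂ) + t * I) *
      (pr n * (n : ℂ) ^ (-((σ : ℂ) + t * I)) / ((((n : ℝ) ^ B : ℝ) : ℂ) + ((σ : ℂ) + t * I)))) := by
  rcases Nat.eq_zero_or_pos n with rfl | hn
  · simp [gg_zero, pr_zero]
  obtain ⟨h0, hi, h1, hf⟩ := hM P X hm hl
  set s : ℂ := (σ : ℂ) + t * I with hs
  have hre : s.re = σ := re_line σ t
  have hf' := hf B n s hn (by rw [hre]; exact hσ.le)
  have hint : Integrable (fun ω => (lv B (X ω) n : ℂ) ^ (-s)) P := by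
    refine Integrable.of_bound (C := (n : ℝ) ^ (-s.re)) ?_ ?_
    · have h2 : Measurable (fun x : ℝ => (((n : ℝ) * Real.exp (x * (n : ℝ) ^ (-B)) : ℝ) : ℂ)) := by
        refine Complex.measurable_ofReal.comp ?_
        fun_prop
      exact ((h2.pow_const (-s)).comp hm).aestronglyMeasurable
    · filter_upwards [h0] with ω hω
      exact norm_lv_le hω hn (by rw [hre]; exact hσ.le)
  have e1 : ∫ ω, gg B σ n t (X ω) ∂P =
      pr n * ((∫ ω, (lv B (X ω) n : ℂ) ^ (-s) ∂P) - (n : ℂ) ^ (-s)) := by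
    have e0 : ∫ ω, gg B σ n t (X ω) ∂P =
        ∫ ω, pr n * ((lv B (X ω) n : ℂ) ^ (-s) - (n : ℂ) ^ (-s)) ∂P := rfl
    rw [e0, integral_const_mul, integral_sub hint (integrable_const _), integral_const,
      probReal_univ, one_smul]
  have e2 : ∫ ω, (lv B (X ω) n : ℂ) ^ (-s) ∂P =
      (n : ℂ) ^ (-s) * (((n : ℝ) ^ B : ℝ) / ((((n : ℝ) ^ B : ℝ) : ℂ) + s)) := hf'
  rw [e1, e2]
  have hne : (((n : ℝ) ^ B : ℝ) : ℂ) + s ≠ 0 := by
    intro h
    have := congrArg Complex.re h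
    rw [Complex.add_re, Complex.ofReal_re, hre, Complex.zero_re] at this
    have h3 : (0 : ℝ) ≤ (n : ℝ) ^ B := by positivity
    linarith
  field_simp
  ring

theorem line (hF : P_FLU) (hM : P_MEX) {Ω : Type} [MeasurableSpace Ω] (P : Measure Ω)
    [IsProbabilityMeasure P] (X : ℕ → Ω → ℝ) (hX : IsExpSeq P X) {B : ℝ} (hB : 1 / 2 < B)
    {σ : ℝ} (hσ : 1 / 2 < σ) :
    ∀ᵐ ω ∂P, ∃ C : ℝ, ∀ t : ℝ, ‖FF B (fun n => X n ω) ((σ : ℂ) + t * I)‖ ≤ C * uu t := by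
  have hM' := fun n => hM P (X n) (hX.measurable n) (hX.law n)
  have h := hF P X (gg B σ) (fun n => 2 * (n : ℝ) ^ (-σ))
    (fun n => (1 + σ) * (n : ℝ) ^ (-(σ + B))) ((σ + B - 1) / 2) uu hX.measurable hX.indep
    (fun n => (hM' n).1) (fun n => (hM' n).2.1) (fun n => (hM' n).2.2.1) (by linarith)
    (fun n t => gg_meas B σ n t)
    (fun n => mul_nonneg (by norm_num) (Real.rpow_nonneg (Nat.cast_nonneg _) _))
    (fun n => mul_nonneg (by linarith) (Real.rpow_nonneg (Nat.cast_nonneg _) _))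
    (fun n t x hx => gg_bound (by linarith) n t hx)
    (fun n t t' x hx => gg_lip (by linarith) (by linarith) n t t' hx)
    (fun n t x hx => gg_bound' (by linarith) n t hx)
    (summable_c (by linarith) (by linarith)) uu_one_le (fun t t' => uu_mono)
    (fun q hq => summable_exp hσ q hq)
  filter_upwards [h] with ω hω
  obtain ⟨h1, h2, C, hC⟩ := hω
  refine ⟨C, fun t => ?_⟩
  have e1 := (h1 t).tsum_sub (h2 t)
  have e2 : ∑' n, ∫ ω', gg B σ n t (X n ω') ∂P = -Sm pr B ((σ : ℂ) + t * I) := by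
    unfold Sm
    rw [← tsum_mul_left, ← tsum_neg]
    exact tsum_congr fun n => integral_gg hM P (X n) (hX.measurable n) (hX.law n) (by linarith) n t
  have e3 : FF B (fun n => X n ω) ((σ : ℂ) + t * I) =
      ∑' n, (gg B σ n t (X n ω) - ∫ ω', gg B σ n t (X n ω') ∂P) := by
    rw [e1, e2, sub_neg_eq_add]
    rfl
  rw [e3]
  exact hC t

/-- the abscissas -/
noncomputable def sg (j : ℕ) : ℝ := 1 / 2 + 1 / ((j : ℝ) + 2)

lemma sg_gt (j : ℕ) : 1 / 2 < sg j := by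
  unfold sg
  have : (0 : ℝ) < 1 / ((j : ℝ) + 2) := by positivity
  linarith

lemma sg_lt (j : ℕ) : sg j < 2 := by
  unfold sg
  have : 1 / ((j : ℝ) + 2) ≤ 1 / 2 := by
    refine one_div_le_one_div_of_le (by norm_num) ?_
    have : (0 : ℝ) ≤ j := Nat.cast_nonneg j
    linarith
  linarith

lemma exists_sg {σ : ℝ} (hσ : 1 / 2 < σ) : ∃ j, sg j ≤ σ := by
  obtain ⟨j, hj⟩ := exists_nat_gt (1 / (σ - 1 / 2))
  refine ⟨j, ?_⟩
  unfold sg
  have h1 : 0 < σ - 1 / 2 := by linarith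
  have h2 : 1 / ((j : ℝ) + 2) ≤ σ - 1 / 2 := by
    rw [div_le_iff₀ (by positivity)]
    rw [div_lt_iff₀ h1] at hj
    nlinarith
  linarith

end PFL_

open PFL_ in
/-- fluctuations of the prime sums -/
theorem p_PFL (hF : P_FLU) (hM : P_MEX) (hT : P_TLR) (hA : P_SMA) : P_PFL := by
  intro Ω _ P _ X hX B hB
  have hM' := fun n => hM P (X n) (hX.measurable n) (hX.law n)
  have h0 : ∀ᵐ ω ∂P, ∀ n, 0 ≤ X n ω := ae_all_iff.2 fun n => (hM' n).1
  have h1 : ∀ᵐ ω ∂P, ∀ j : ℕ, Summable (fun n : ℕ => X n ω * (n : ℝ) ^ (-(sg j + B))) :=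
    ae_all_iff.2 fun j => ae_summable P X hX.measurable (fun n => (hM' n).1)
      (fun n => (hM' n).2.1) (fun n => (hM' n).2.2.1)
      (fun n => Real.rpow_nonneg (Nat.cast_nonneg _) _)
      (Real.summable_nat_rpow.2 (by have := sg_gt j; linarith))
  have h2 : ∀ᵐ ω ∂P, ∀ j : ℕ, ∃ C : ℝ, ∀ t : ℝ,
      ‖FF B (fun n => X n ω) ((sg j : ℂ) + t * I)‖ ≤ C * uu t :=
    ae_all_iff.2 fun j => line hF hM P X hX hB (sg_gt j)
  filter_upwards [h0, h1, h2] with ω hω0 hω1 hω2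
  have hS : ∀ σ : ℝ, 1 / 2 < σ → Summable (fun n : ℕ => X n ω * (n : ℝ) ^ (-(σ + B))) := by
    intro σ hσ
    obtain ⟨j, hj⟩ := exists_sg hσ
    refine Summable.of_nonneg_of_le
      (fun n => mul_nonneg (hω0 n) (Real.rpow_nonneg (Nat.cast_nonneg _) _))
      (fun n => mul_le_mul_of_nonneg_left (rpow_anti (by linarith) ?_ n) (hω0 n)) (hω1 j)
    have := sg_gt j
    linarith
  refine ⟨hω0, hS, fun σ hσ => ?_⟩
  obtain ⟨j, hj⟩ := exists_sg hσ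
  obtain ⟨C₀, hC₀⟩ := hω2 j
  obtain ⟨C, hC⟩ := half_plane hT hA hB (x := fun n => X n ω) hω0 hS (sg_gt j) (sg_lt j) hC₀
  exact ⟨C, fun s hs => hC s (hj.trans hs)⟩

end Pool.Agent.PertZ
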