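import Pool.Agent.PertZ.Defs
import Pool.Agent.DBN.Mu2

/-!
# PertZ: block ZST (growth facts for zeta)
-/

set_option autoImplicit false

namespace Pool.Agent.PertZ

open MeasureTheory Set Filter Topology Complex Pool.Agent.CW Pool.Agent.DBN

/-- zeta is bounded on rectangles away from the real axis -/
theorem ZST_compact (a b c d : ℝ) (hc : 0 < c) : ∃ M : ℝ, 1 ≤ M ∧ ∀ s : ℂ, a ≤ s.re → s.re ≤ b →
    c ≤ s.im → s.im ≤ d → ‖riemannZeta s‖ ≤ M := by
  have hcomp : IsCompact ((Icc a b) ×ℂ (Icc c d)) := isCompact_Icc.reProdIm isCompact_Icc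
  obtain ⟨M, hM⟩ := hcomp.exists_bound_of_continuousOn (f := riemannZeta) (by
    intro z hz
    refine (differentiableAt_riemannZeta ?_).continuousAt.continuousWithinAt
    rintro rfl
    rw [mem_reProdIm] at hz
    have := hz.2.1
    simp at this
    linarith)
  refine ⟨|M| + 1, by linarith [abs_nonneg M], fun s h1 h2 h3 h4 => ?_⟩
  refine (hM s ?_).trans (by linarith [le_abs_self M])
  rw [mem_reProdIm]
  exact ⟨⟨h1, h2⟩, ⟨h3, h4⟩⟩

theorem ZST_eta (s : ℂ) : s = (s.re : ℂ) + (s.im : ℂ) * I := (re_add_im s).symm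

/-- from a bound at height `≥ 2` to a bound at height `≥ 1/2` -/
theorem ZST_ext {a b p C₀ : ℝ} (hp : 0 ≤ p)
    (h : ∀ σ T : ℝ, a ≤ σ → σ ≤ b → 2 ≤ T → ‖riemannZeta (σ + T * I)‖ ≤ C₀ * T ^ p) :
    ∃ C : ℝ, ∀ s : ℂ, a ≤ s.re → s.re ≤ b → 1 / 2 ≤ s.im →
      ‖riemannZeta s‖ ≤ C * (1 + s.im) ^ p := by
  obtain ⟨M, hM1, hM⟩ := ZST_compact a b (1 / 2) 2 (by norm_num)
  refine ⟨|C₀| + M, fun s h1 h2 h3 => ?_⟩
  have hp1 : 1 ≤ (1 + s.im) ^ p := Real.one_le_rpow (by linarith) hp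
  rcases le_total 2 s.im with h4 | h4
  · have h5 := h s.re s.im h1 h2 h4
    rw [← ZST_eta] at h5
    refine h5.trans ?_
    have h6 : s.im ^ p ≤ (1 + s.im) ^ p := Real.rpow_le_rpow (by linarith) (by linarith) hp
    calc C₀ * s.im ^ p ≤ |C₀| * s.im ^ p := by
          have : 0 ≤ s.im ^ p := Real.rpow_nonneg (by linarith) _
          exact mul_le_mul_of_nonneg_right (le_abs_self _) this
      _ ≤ |C₀| * (1 + s.im) ^ p := mul_le_mul_of_nonneg_left h6 (abs_nonneg _)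
      _ ≤ (|C₀| + M) * (1 + s.im) ^ p := by nlinarith
  · refine (hM s h1 h2 h3 h4).trans ?_
    have := abs_nonneg C₀
    nlinarith

theorem ZST_mu {m : ℝ} (hm : 0 ≤ m) (hL : LineBound m) : MuLe (1 / 2) m := by
  intro ε hε
  obtain ⟨C, hC⟩ := hL ε hε
  refine ⟨|C| * 2 ^ (m + ε), fun T hT => ?_⟩
  have h1 := hC T
  unfold zl at h1
  have e0 : (((1 / 2 : ℝ) : ℂ) + T * I) = 1 / 2 + T * I := by push_cast; ring
  rw [e0]
  refine h1.trans ?_
  rw [abs_of_nonneg (by linarith : (0 : ℝ) ≤ T)]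
  have h2 : (1 + T) ^ (m + ε) ≤ 2 ^ (m + ε) * T ^ (m + ε) := by
    rw [← Real.mul_rpow (by norm_num) (by linarith)]
    exact Real.rpow_le_rpow (by linarith) (by linarith) (by linarith)
  have h3 : 0 ≤ (1 + T) ^ (m + ε) := by positivity
  calc C * (1 + T) ^ (m + ε) ≤ |C| * (1 + T) ^ (m + ε) :=
        mul_le_mul_of_nonneg_right (le_abs_self C) h3
    _ ≤ |C| * (2 ^ (m + ε) * T ^ (m + ε)) := mul_le_mul_of_nonneg_left h2 (abs_nonneg C)
    _ = |C| * 2 ^ (m + ε) * T ^ (m + ε) := by ring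

/-- growth in a strip from the growth on its left side -/
theorem ZST_strip {σ₁ a : ℝ} (h3 : σ₁ < 3) (ha : 0 ≤ a) (h : MuLe σ₁ a) (ε : ℝ) (hε : 0 < ε) :
    ∃ C : ℝ, ∀ s : ℂ, σ₁ ≤ s.re → s.re ≤ 3 → 1 / 2 ≤ s.im →
      ‖riemannZeta s‖ ≤ C * (1 + s.im) ^ (a + ε) := by
  obtain ⟨C, hC⟩ := mu_interp h3 h (mu_zero (σ := 3) (by norm_num)) hε
  refine ZST_ext (p := a + ε) (C₀ := |C|) (by linarith) fun σ T h1 h2 hT => ?_
  refine (hC σ T h1 h2 hT).trans ?_
  have hT1 : 1 ≤ T := by linarith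
  have h4 : T ^ ((a * (3 - σ) + 0 * (σ - σ₁)) / (3 - σ₁) + ε) ≤ T ^ (a + ε) := by
    refine Real.rpow_le_rpow_of_exponent_le hT1 ?_
    have h5 : (a * (3 - σ) + 0 * (σ - σ₁)) / (3 - σ₁) ≤ a := by
      rw [div_le_iff₀ (by linarith)]
      nlinarith
    linarith
  have h6 : 0 ≤ T ^ ((a * (3 - σ) + 0 * (σ - σ₁)) / (3 - σ₁) + ε) := by positivity
  calc C * T ^ ((a * (3 - σ) + 0 * (σ - σ₁)) / (3 - σ₁) + ε)
      ≤ |C| * T ^ ((a * (3 - σ) + 0 * (σ - σ₁)) / (3 - σ₁) + ε) :=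
        mul_le_mul_of_nonneg_right (le_abs_self C) h6
    _ ≤ |C| * T ^ (a + ε) := mul_le_mul_of_nonneg_left h4 (abs_nonneg _)

/-- the ratio for large heights -/
theorem ZST_ratio_large : ∃ C : ℝ, 1 ≤ C ∧ ∀ h T : ℝ, |h| ≤ 1 / 2 → 2 ≤ T →
    ‖riemannZeta ((1 / 2 - h : ℝ) + T * I)‖ ≤ C * T ^ h * ‖riemannZeta ((1 / 2 + h : ℝ) + T * I)‖ := by
  obtain ⟨C, hC, hx⟩ := xi_two 1
  refine ⟨C * C, by nlinarith, fun h T hh hT => ?_⟩
  have hT0 : 0 < T := by linarith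
  have hs : 0 < size T := by unfold size; positivity
  obtain ⟨hh1, hh2⟩ := abs_le.mp hh
  have hσ1 : |1 / 2 + h| ≤ 1 := by rw [abs_le]; constructor <;> linarith
  have hσ2 : |1 / 2 - h| ≤ 1 := by rw [abs_le]; constructor <;> linarith
  have h1 := (hx (1 / 2 + h) T hσ1 hT).1
  have h2 := (hx (1 / 2 - h) T hσ2 hT).2
  have h3 := norm_xi_symm (1 / 2 + h) T
  have e1 : (1 - (1 / 2 + h) : ℝ) = 1 / 2 - h := by ring
  rw [e1] at h3
  rw [h3] at h2
  have e2 : (1 / 2 - h - 1 / 2) / 2 = -(h / 2) := by ring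
  have e3 : (1 / 2 + h - 1 / 2) / 2 = h / 2 := by ring
  rw [e2] at h2
  rw [e3] at h1
  have hp3 : T ^ (h / 2) * T ^ (-(h / 2)) = 1 := by
    rw [← Real.rpow_add hT0]; simp
  have hp4 : T ^ (h / 2) * T ^ (h / 2) = T ^ h := by
    rw [← Real.rpow_add hT0]; congr 1; ring
  have hp1 : 0 < T ^ (h / 2) := by positivity
  set x := ‖riemannZeta ((1 / 2 - h : ℝ) + T * I)‖
  set y := ‖riemannZeta ((1 / 2 + h : ℝ) + T * I)‖
  have h5 : T ^ (-(h / 2)) * size T * x ≤ C * (C * (T ^ (h / 2) * size T * y)) :=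
    h2.trans (mul_le_mul_of_nonneg_left h1 (by linarith))
  have h6 : size T * x ≤ size T * (C * C * T ^ h * y) := by
    calc size T * x = T ^ (h / 2) * (T ^ (-(h / 2)) * size T * x) := by
          rw [← mul_assoc, ← mul_assoc, hp3, one_mul]
      _ ≤ T ^ (h / 2) * (C * (C * (T ^ (h / 2) * size T * y))) :=
          mul_le_mul_of_nonneg_left h5 hp1.le
      _ = size T * (C * C * (T ^ (h / 2) * T ^ (h / 2)) * y) := by ring
      _ = _ := by rw [hp4]
  exact le_of_mul_le_mul_left h6 hs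

/-- the ratio for small heights -/
theorem ZST_ratio_small : ∃ C : ℝ, 1 ≤ C ∧ ∀ h T : ℝ, |h| ≤ 1 / 2 → 1 / 2 ≤ T → T ≤ 2 →
    ‖riemannZeta ((1 / 2 - h : ℝ) + T * I)‖ ≤ C * ‖riemannZeta ((1 / 2 + h : ℝ) + T * I)‖ := by
  have hcomp : IsCompact ((Icc (0 : ℝ) 1) ×ℂ (Icc (1 / 2 : ℝ) 2)) :=
    isCompact_Icc.reProdIm isCompact_Icc
  have him : ∀ z ∈ ((Icc (0 : ℝ) 1) ×ℂ (Icc (1 / 2 : ℝ) 2)), z.im ≠ 0 := by
    intro z hz
    rw [mem_reProdIm] at hz
    have := hz.2.1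
    linarith
  set g : ℂ → ℂ := fun z => z * (z - 1) / 2 * Gammaℝ z with hg
  have hg0 : ∀ z : ℂ, z.im ≠ 0 → g z ≠ 0 := by
    intro z hz
    have h1 : z ≠ 0 := by rintro rfl; simp at hz
    have h2 : z - 1 ≠ 0 := by
      intro h
      rw [sub_eq_zero] at h
      rw [h] at hz
      simp at hz
    exact mul_ne_zero (div_ne_zero (mul_ne_zero h1 h2) (by norm_num)) (gammaR_ne_zero hz)
  have hGc : ∀ z : ℂ, z.im ≠ 0 → ContinuousAt Gammaℝ z := by
    intro z hz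
    unfold Gammaℝ
    refine ContinuousAt.mul ?_ ?_
    · refine ContinuousAt.const_cpow (by fun_prop) (Or.inl ?_)
      exact_mod_cast Real.pi_ne_zero
    · have h1 : DifferentiableAt ℂ Complex.Gamma (z / 2) := by
        refine Complex.differentiableAt_Gamma _ fun m => ?_
        intro h
        have := congrArg Complex.im h
        simp at this
        exact hz this
      exact ContinuousAt.comp (f := fun z : ℂ => z / 2) (g := Complex.Gamma) h1.continuousAt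
        (by fun_prop)
  have hgc : ∀ z : ℂ, z.im ≠ 0 → ContinuousAt g z := by
    intro z hz
    exact ContinuousAt.mul (by fun_prop) (hGc z hz)
  obtain ⟨M₁, hM₁⟩ := hcomp.exists_bound_of_continuousOn (f := g)
    (fun z hz => (hgc z (him z hz)).continuousWithinAt)
  obtain ⟨M₂, hM₂⟩ := hcomp.exists_bound_of_continuousOn (f := fun z => (g z)⁻¹)
    (fun z hz => ((hgc z (him z hz)).inv₀ (hg0 z (him z hz))).continuousWithinAt)
  refine ⟨(|M₁| + 1) * (|M₂| + 1), ?_, fun h T hh hT hT2 => ?_⟩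
  · have := abs_nonneg M₁
    have := abs_nonneg M₂
    nlinarith
  obtain ⟨hh1, hh2⟩ := abs_le.mp hh
  set s₁ : ℂ := ((1 / 2 - h : ℝ) : ℂ) + T * I with hs₁
  set s₂ : ℂ := ((1 / 2 + h : ℝ) : ℂ) + T * I with hs₂
  have r1 : s₁.re = 1 / 2 - h := by simp [hs₁]
  have r2 : s₂.re = 1 / 2 + h := by simp [hs₂]
  have i1 : s₁.im = T := by simp [hs₁]
  have i2 : s₂.im = T := by simp [hs₂]
  have m1 : s₁ ∈ ((Icc (0 : ℝ) 1) ×ℂ (Icc (1 / 2 : ℝ) 2)) := by
    rw [mem_reProdIm, r1, i1]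
    exact ⟨⟨by linarith, by linarith⟩, ⟨hT, hT2⟩⟩
  have m2 : s₂ ∈ ((Icc (0 : ℝ) 1) ×ℂ (Icc (1 / 2 : ℝ) 2)) := by
    rw [mem_reProdIm, r2, i2]
    exact ⟨⟨by linarith, by linarith⟩, ⟨hT, hT2⟩⟩
  have hxi : ∀ z : ℂ, z.im ≠ 0 → xi z = g z * riemannZeta z := by
    intro z hz
    apply xi_eq
    · rintro rfl
      simp at hz
    · rintro rfl
      simp at hz
    · exact gammaR_ne_zero hz
  have h3 := norm_xi_symm (1 / 2 + h) T
  have e1 : (1 - (1 / 2 + h) : ℝ) = 1 / 2 - h := by ring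
  rw [e1] at h3
  have hT0 : T ≠ 0 := by linarith
  have h4 : ‖g s₁‖ * ‖riemannZeta s₁‖ = ‖g s₂‖ * ‖riemannZeta s₂‖ := by
    rw [← norm_mul, ← norm_mul, ← hxi s₁ (by rw [i1]; exact hT0), ← hxi s₂ (by rw [i2]; exact hT0)]
    exact h3
  have hgs : ‖g s₁‖ ≠ 0 := norm_ne_zero_iff.mpr (hg0 s₁ (him s₁ m1))
  have h5 : ‖riemannZeta s₁‖ = ‖(g s₁)⁻¹‖ * (‖g s₂‖ * ‖riemannZeta s₂‖) := by
    rw [← h4, norm_inv, ← mul_assoc, inv_mul_cancel₀ hgs, one_mul]
  have h6 := hM₁ s₂ m2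
  have h7 : ‖(g s₁)⁻¹‖ ≤ M₂ := hM₂ s₁ m1
  rw [h5]
  calc ‖(g s₁)⁻¹‖ * (‖g s₂‖ * ‖riemannZeta s₂‖)
      ≤ (|M₂| + 1) * ((|M₁| + 1) * ‖riemannZeta s₂‖) := by
        gcongr
        · linarith [le_abs_self M₂]
        · linarith [le_abs_self M₁]
    _ = (|M₁| + 1) * (|M₂| + 1) * ‖riemannZeta s₂‖ := by ring

/-- the ratio -/
theorem ZST_ratio : ∃ C : ℝ, 1 ≤ C ∧ ∀ h T : ℝ, |h| ≤ 1 / 2 → 1 / 2 ≤ T →
    ‖riemannZeta ((1 / 2 - h : ℝ) + T * I)‖ ≤ C * T ^ h * ‖riemannZeta ((1 / 2 + h : ℝ) + T * I)‖ := by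
  obtain ⟨C₁, hC₁, H₁⟩ := ZST_ratio_large
  obtain ⟨C₂, hC₂, H₂⟩ := ZST_ratio_small
  refine ⟨C₁ + 2 * C₂, by linarith, fun h T hh hT => ?_⟩
  have hT0 : 0 < T := by linarith
  have hp : 0 < T ^ h := by positivity
  rcases le_total 2 T with h1 | h1
  · refine (H₁ h T hh h1).trans ?_
    gcongr
    linarith
  · refine (H₂ h T hh hT h1).trans ?_
    have h2 : 1 ≤ 2 * T ^ h := by
      obtain ⟨hh1, hh2⟩ := abs_le.mp hh
      have h3 : (1 / 2 : ℝ) ≤ T ^ h := by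
        rcases le_total 1 T with h4 | h4
        · have h5 : T ^ (-(1 / 2) : ℝ) ≤ T ^ h :=
            Real.rpow_le_rpow_of_exponent_le h4 (by linarith)
          have h6 : (1 / 2 : ℝ) ≤ T ^ (-(1 / 2) : ℝ) := by
            rw [Real.rpow_neg hT0.le, ← one_div]
            apply one_div_le_one_div_of_le (by positivity)
            calc T ^ (1 / 2 : ℝ) ≤ T ^ (1 : ℝ) :=
                  Real.rpow_le_rpow_of_exponent_le h4 (by norm_num)
              _ = T := Real.rpow_one T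
              _ ≤ 2 := h1
          linarith
        · have h5 : T ^ (1 : ℝ) ≤ T ^ h :=
            Real.rpow_le_rpow_of_exponent_ge hT0 h4 (by linarith)
          rw [Real.rpow_one] at h5
          linarith
      linarith
    have h4 : C₂ ≤ (C₁ + 2 * C₂) * T ^ h := by nlinarith
    exact mul_le_mul_of_nonneg_right h4 (norm_nonneg _)

theorem ZST_line : LineBound (1 / 2) := by
  intro ε hε
  have h0 : MuLe (1 / 2 + 0) (1 / 4 - 0 / 2) := mu_convexity (by norm_num)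
  have e0 : (1 / 2 + 0 : ℝ) = 1 / 2 := by norm_num
  have e1 : (1 / 4 - 0 / 2 : ℝ) = 1 / 4 := by norm_num
  rw [e0, e1] at h0
  obtain ⟨C, hC⟩ := h0 ε hε
  obtain ⟨M, hM⟩ := (isCompact_Icc (a := (-2 : ℝ)) (b := 2)).exists_bound_of_continuousOn
    (f := fun t : ℝ => zl t) (by
      intro t _
      unfold zl
      refine ContinuousAt.continuousWithinAt ?_
      have hne : (1 / 2 + (t : ℂ) * I : ℂ) ≠ 1 := by
        intro h
        have := congrArg Complex.re h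
        norm_num at this
      exact ContinuousAt.comp (f := fun t : ℝ => (1 / 2 + (t : ℂ) * I : ℂ)) (g := riemannZeta)
        (differentiableAt_riemannZeta hne).continuousAt (by fun_prop))
  have hneg : ∀ t : ℝ, ‖zl (-t)‖ = ‖zl t‖ := by
    intro t
    unfold zl
    have h : (1 / 2 + ((-t : ℝ) : ℂ) * I : ℂ) = (starRingEnd ℂ) (1 / 2 + (t : ℂ) * I) := by
      simp only [map_add, map_mul, Complex.conj_ofReal, Complex.conj_I, map_div₀, map_one]
      push_cast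
      have : (starRingEnd ℂ) 2 = 2 := by
        have := Complex.conj_ofReal 2
        push_cast at this
        exact this
      rw [this]
      ring
    rw [h, riemannZeta_conj, Complex.norm_conj]
  have key : ∀ t : ℝ, 0 ≤ t → ‖zl t‖ ≤ (|C| + |M|) * (1 + |t|) ^ (1 / 2 + ε) := by
    intro t ht
    rw [abs_of_nonneg ht]
    have hp1 : 1 ≤ (1 + t) ^ (1 / 2 + ε) := Real.one_le_rpow (by linarith) (by linarith)
    rcases le_total 2 t with h2 | h2
    · have h3 := hC t h2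
      have e2 : (((1 / 2 : ℝ) : ℂ) + t * I) = 1 / 2 + t * I := by push_cast; ring
      rw [e2] at h3
      have h4 : t ^ (1 / 4 + ε) ≤ (1 + t) ^ (1 / 2 + ε) := by
        calc t ^ (1 / 4 + ε) ≤ t ^ (1 / 2 + ε) :=
              Real.rpow_le_rpow_of_exponent_le (by linarith) (by linarith)
          _ ≤ (1 + t) ^ (1 / 2 + ε) := Real.rpow_le_rpow ht (by linarith) (by linarith)
      have h5 : 0 ≤ t ^ (1 / 4 + ε) := by positivity
      calc ‖zl t‖ ≤ C * t ^ (1 / 4 + ε) := h3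
        _ ≤ |C| * t ^ (1 / 4 + ε) := mul_le_mul_of_nonneg_right (le_abs_self C) h5
        _ ≤ |C| * (1 + t) ^ (1 / 2 + ε) := mul_le_mul_of_nonneg_left h4 (abs_nonneg C)
        _ ≤ _ := by
            have := abs_nonneg M
            nlinarith
    · have h3 := hM t ⟨by linarith, h2⟩
      have h4 : ‖zl t‖ ≤ |M| := h3.trans (le_abs_self M)
      have := abs_nonneg C
      have := abs_nonneg M
      nlinarith
  refine ⟨|C| + |M|, fun t => ?_⟩
  rcases le_total 0 t with ht | ht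
  · exact key t ht
  · have := key (-t) (by linarith)
    rwa [hneg, abs_neg] at this

theorem p_ZST : P_ZST := by
  refine ⟨fun m hm hL ε hε => ?_, fun ε hε => ?_, ?_, ZST_line⟩
  · exact ZST_strip (by norm_num) hm (ZST_mu hm hL) ε hε
  · have h0 : MuLe (1 / 2 + -(1 / 2)) (1 / 4 - -(1 / 2) / 2) := mu_convexity (by norm_num [abs_of_neg])
    have e0 : (1 / 2 + -(1 / 2) : ℝ) = 0 := by norm_num
    have e1 : (1 / 4 - -(1 / 2) / 2 : ℝ) = 1 / 2 := by norm_num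
    rw [e0, e1] at h0
    exact ZST_strip (by norm_num) (by norm_num) h0 ε hε
  · obtain ⟨C, hC, H⟩ := ZST_ratio
    refine ⟨C, by linarith, fun h t h0 h1 ht => ⟨?_, ?_⟩⟩
    · exact H h t (by rw [abs_le]; constructor <;> linarith) ht
    · have h2 := H (-h) t (by rw [abs_le]; constructor <;> linarith) ht
      have e1 : (1 / 2 - -h : ℝ) = 1 / 2 + h := by ring
      have e2 : (1 / 2 + -h : ℝ) = 1 / 2 - h := by ring
      rw [e1, e2] at h2
      exact h2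

end Pool.Agent.PertZ
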