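import Pool.Agent.PertZ.CONT
import Pool.Agent.PertZ.DET2
import Pool.Agent.PertZ.MEX
import Pool.Agent.PertZ.PFL
import Pool.Agent.PertZ.ZST

/-!
# Lemmas for the final statement
-/

set_option autoImplicit false

namespace Pool.Agent.PertZ

open MeasureTheory ProbabilityTheory Set Filter Topology Complex Pool.Agent.CW

theorem FINL_mu {A : ℝ} (hA : 0 ≤ A) : LineAt (1 / 2) A ↔ LineBound A := by
  have hz : ∀ t : ℝ, riemannZeta (((1 / 2 : ℝ) : ℂ) + t * I) = zl t := by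
    intro t; unfold zl; push_cast; rfl
  constructor
  · intro h ε hε
    obtain ⟨C, hC⟩ := h ε hε
    obtain ⟨C₁, hC₁⟩ := (isCompact_Icc (a := (-1 : ℝ)) (b := 1)).exists_bound_of_continuousOn
      (f := zl) DET2_cont.continuousOn
    refine ⟨|C| + |C₁|, fun t => ?_⟩
    have h1 : (1 : ℝ) ≤ 1 + |t| := by linarith [abs_nonneg t]
    have h2 : 1 ≤ (1 + |t|) ^ (A + ε) := Real.one_le_rpow h1 (by linarith)
    rcases le_total |t| 1 with h3 | h3
    · have h4 := hC₁ t (abs_le.mp h3)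
      have h5 : C₁ ≤ |C₁| := le_abs_self _
      nlinarith [abs_nonneg C, abs_nonneg C₁]
    · have h4 := hC t h3
      rw [hz] at h4
      have h5 : |t| ^ (A + ε) ≤ (1 + |t|) ^ (A + ε) :=
        Real.rpow_le_rpow (abs_nonneg _) (by linarith) (by linarith)
      have h6 : 0 ≤ |t| ^ (A + ε) := by positivity
      calc ‖zl t‖ ≤ C * |t| ^ (A + ε) := h4
        _ ≤ |C| * |t| ^ (A + ε) := mul_le_mul_of_nonneg_right (le_abs_self _) h6
        _ ≤ |C| * (1 + |t|) ^ (A + ε) := mul_le_mul_of_nonneg_left h5 (abs_nonneg _)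
        _ ≤ _ := by nlinarith [abs_nonneg C₁]
  · intro h ε hε
    obtain ⟨C, hC⟩ := h ε hε
    refine ⟨|C| * 2 ^ (A + ε), fun t ht => ?_⟩
    rw [hz]
    exact (hC t).trans (DET2_two ht (by linarith) C)

theorem FINL_conj (σ t : ℝ) :
    ‖riemannZeta ((σ : ℂ) + ((-t : ℝ) : ℂ) * I)‖ = ‖riemannZeta ((σ : ℂ) + t * I)‖ := by
  have h : ((σ : ℂ) + ((-t : ℝ) : ℂ) * I) = (starRingEnd ℂ) ((σ : ℂ) + t * I) := by
    apply Complex.ext <;> simp
  rw [h, riemannZeta_conj, Complex.norm_conj]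

theorem FINL_ofMu {σ m : ℝ} (h : Pool.Agent.DBN.MuLe σ m) : LineAt σ m := by
  intro ε hε
  obtain ⟨C, hC⟩ := h ε hε
  obtain ⟨M, hM1, hM⟩ := ZST_compact σ σ 1 2 one_pos
  have key : ∀ t : ℝ, 1 ≤ t → ‖riemannZeta ((σ : ℂ) + t * I)‖ ≤
      (|C| + M * 2 ^ |m + ε|) * t ^ (m + ε) := by
    intro t ht
    have h0 : 0 ≤ t ^ (m + ε) := by positivity
    rcases le_total 2 t with h2 | h2
    · calc ‖riemannZeta ((σ : ℂ) + t * I)‖ ≤ C * t ^ (m + ε) := hC t h2
        _ ≤ |C| * t ^ (m + ε) := mul_le_mul_of_nonneg_right (le_abs_self _) h0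
        _ ≤ _ := by
            apply mul_le_mul_of_nonneg_right _ h0
            have : 0 ≤ M * 2 ^ |m + ε| := by positivity
            linarith
    · have h3 := hM ((σ : ℂ) + t * I) (by simp) (by simp) (by simpa using ht) (by simpa using h2)
      have h4 : 1 ≤ 2 ^ |m + ε| * t ^ (m + ε) := by
        have h5 : t ^ (-|m + ε|) ≤ t ^ (m + ε) :=
          Real.rpow_le_rpow_of_exponent_le ht (neg_abs_le _)
        have h6 : t ^ |m + ε| ≤ 2 ^ |m + ε| :=
          Real.rpow_le_rpow (by linarith) h2 (abs_nonneg _)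
        have h7 : t ^ |m + ε| * t ^ (-|m + ε|) = 1 := by
          rw [← Real.rpow_add (by linarith), add_neg_cancel, Real.rpow_zero]
        calc 1 = t ^ |m + ε| * t ^ (-|m + ε|) := h7.symm
          _ ≤ 2 ^ |m + ε| * t ^ (m + ε) := mul_le_mul h6 h5 (by positivity) (by positivity)
      calc ‖riemannZeta ((σ : ℂ) + t * I)‖ ≤ M := h3
        _ = M * 1 := (mul_one M).symm
        _ ≤ M * (2 ^ |m + ε| * t ^ (m + ε)) := mul_le_mul_of_nonneg_left h4 (by linarith)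
        _ = M * 2 ^ |m + ε| * t ^ (m + ε) := by ring
        _ ≤ _ := by
            apply mul_le_mul_of_nonneg_right _ h0
            linarith [abs_nonneg C]
  refine ⟨|C| + M * 2 ^ |m + ε|, fun t ht => ?_⟩
  rcases le_total 0 t with h0 | h0
  · rw [abs_of_nonneg h0] at ht ⊢
    exact key t ht
  · rw [abs_of_nonpos h0] at ht ⊢
    have := key (-t) ht
    rwa [FINL_conj] at this

theorem FINL_toMu {σ m : ℝ} (h : LineAt σ m) : Pool.Agent.DBN.MuLe σ m := by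
  intro ε hε
  obtain ⟨C, hC⟩ := h ε hε
  refine ⟨C, fun T hT => ?_⟩
  have := hC T (by rw [abs_of_nonneg (by linarith)]; linarith)
  rwa [abs_of_nonneg (by linarith)] at this

theorem FINL_one : LineAt (1 / 2 + 1 / 2) 0 := FINL_ofMu (Pool.Agent.DBN.mu_right le_rfl)

theorem FINL_nonneg {σ m : ℝ} (h : LineAt σ m) : 0 ≤ m :=
  Pool.Agent.DBN.mu_nonneg (FINL_toMu h)

/-- almost surely, the growth of the continuation is the growth of `zlam` -/
theorem FINL_exp (hM : P_MEX) {Ω : Type} [MeasurableSpace Ω] (P : Measure Ω)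
    [IsProbabilityMeasure P] (X : ℕ → Ω → ℝ) (hX : IsExpSeq P X) {B : ℝ} (hB : 1 / 2 < B) :
    ∀ᵐ ω ∂P, ∀ Q : (ℝ → ℂ) → Prop, (∃ Z, ContinuesL (pert B (fun n => X n ω)) Z ∧
      Q (fun t => Z (1 / 2 + t * I))) ↔ Q (zlam (pert B (fun n => X n ω))) := by
  have hM' := fun n => hM P (X n) (hX.measurable n) (hX.law n)
  obtain ⟨δ, hδ, hδ2, hδB⟩ : ∃ δ : ℝ, 0 < δ ∧ δ ≤ 1 / 2 ∧ δ < B - 1 / 2 :=
    ⟨min (1 / 2) ((B - 1 / 2) / 2), lt_min (by norm_num) (by linarith), min_le_left _ _,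
      lt_of_le_of_lt (min_le_right _ _) (by linarith)⟩
  have h0 : ∀ᵐ ω ∂P, ∀ n, 0 ≤ X n ω := ae_all_iff.2 fun n => (hM' n).1
  have h1 : ∀ᵐ ω ∂P, Summable (fun n : ℕ => X n ω * (n : ℝ) ^ (-(B + (1 / 2 - δ)))) :=
    PFL_.ae_summable P X hX.measurable (fun n => (hM' n).1)
      (fun n => (hM' n).2.1) (fun n => (hM' n).2.2.1)
      (fun n => Real.rpow_nonneg (Nat.cast_nonneg _) _)
      (Real.summable_nat_rpow.2 (by linarith))
  filter_upwards [h0, h1] with ω hω0 hω1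
  intro Q
  refine p_CONT (pert B (fun n => X n ω)) (fun n => X n ω * (n : ℝ) ^ (-B)) δ hδ hδ2
    (fun n _ => rfl) (fun n _ => ?_) ?_ Q
  · have : 0 ≤ X n ω * (n : ℝ) ^ (-B) :=
      mul_nonneg (hω0 n) (Real.rpow_nonneg (Nat.cast_nonneg _) _)
    linarith
  · refine ((summable_nat_add_iff 1).mpr hω1).congr (fun n => ?_)
    have hn : (0 : ℝ) < ((n + 1 : ℕ) : ℝ) := by positivity
    rw [abs_of_nonneg (mul_nonneg (hω0 _) (Real.rpow_nonneg hn.le _)), mul_assoc,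
      ← Real.rpow_add hn]
    congr 2
    ring

/-- almost surely, the growth of the continuation is the growth of `zlam`, uniform case -/
theorem FINL_unif {Ω : Type} [MeasurableSpace Ω] (P : Measure Ω)
    [IsProbabilityMeasure P] (U : ℕ → Ω → ℝ) (hU : IsUnifSeq P U) :
    ∀ᵐ ω ∂P, ∀ Q : (ℝ → ℂ) → Prop, (∃ Z, ContinuesL (fun n => n + U n ω) Z ∧
      Q (fun t => Z (1 / 2 + t * I))) ↔ Q (zlam (fun n => n + U n ω)) := by
  have h0 : ∀ n, ∀ᵐ ω ∂P, U n ω ∈ Icc (0 : ℝ) 1 := by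
    intro n
    have h1 : ∀ᵐ x ∂(P.map (U n)), x ∈ Icc (0 : ℝ) 1 := by
      rw [hU.law n]
      exact ae_restrict_mem measurableSet_Icc
    exact ae_of_ae_map (hU.measurable n).aemeasurable h1
  filter_upwards [ae_all_iff.2 h0] with ω hω
  intro Q
  have hpos : ∀ n : ℕ, 1 ≤ n → (0 : ℝ) < n := fun n hn => by exact_mod_cast hn
  have hlog : ∀ n : ℕ, 1 ≤ n → 0 ≤ Real.log (1 + U n ω / n) ∧
      Real.log (1 + U n ω / n) ≤ (n : ℝ) ^ (-1 : ℝ) := by
    intro n hn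
    have hn0 := hpos n hn
    have h1 : 0 ≤ U n ω / n := div_nonneg (hω n).1 hn0.le
    refine ⟨Real.log_nonneg (by linarith), ?_⟩
    have h2 := Real.log_le_sub_one_of_pos (show 0 < 1 + U n ω / n by linarith)
    have h3 : U n ω / n ≤ 1 / n := div_le_div_of_nonneg_right (hω n).2 hn0.le
    rw [Real.rpow_neg_one, ← one_div]
    linarith
  refine p_CONT (fun n => n + U n ω) (fun n => Real.log (1 + U n ω / n)) (1 / 4) (by norm_num)
    (by norm_num) (fun n hn => ?_) (fun n hn => ?_) ?_ Q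
  · have hn0 := hpos n hn
    have h1 : 0 ≤ U n ω / n := div_nonneg (hω n).1 hn0.le
    rw [Real.exp_log (by linarith)]
    field_simp
  · linarith [(hlog n hn).1]
  · have hs : Summable (fun n : ℕ => ((n + 1 : ℕ) : ℝ) ^ (-(5 / 4) : ℝ)) :=
      (summable_nat_add_iff 1).mpr (Real.summable_nat_rpow.2 (by norm_num))
    refine Summable.of_nonneg_of_le (fun n => by positivity) (fun n => ?_) hs
    have hn : (0 : ℝ) < ((n + 1 : ℕ) : ℝ) := by positivity
    have h1 := hlog (n + 1) (by omega)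
    rw [abs_of_nonneg h1.1]
    calc Real.log (1 + U (n + 1) ω / ((n + 1 : ℕ) : ℝ)) *
          ((n + 1 : ℕ) : ℝ) ^ (-(1 / 2 - 1 / 4) : ℝ)
        ≤ ((n + 1 : ℕ) : ℝ) ^ (-1 : ℝ) * ((n + 1 : ℕ) : ℝ) ^ (-(1 / 2 - 1 / 4) : ℝ) :=
          mul_le_mul_of_nonneg_right h1.2 (Real.rpow_nonneg hn.le _)
      _ = _ := by
          rw [← Real.rpow_add hn]
          congr 1
          norm_num

/-- the growth of the continuation is the growth of `zlam`, bounded case -/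
theorem FINL_det {B : ℝ} (hB : 1 / 2 < B) {d : ℕ → ℝ}
    (hd : ∀ n, 1 ≤ n → |d n| ≤ (n : ℝ) ^ (-B)) (Q : (ℝ → ℂ) → Prop) :
    (∃ Z, ContinuesL (fun n => n * Real.exp (d n)) Z ∧ Q (fun t => Z (1 / 2 + t * I))) ↔
      Q (zlam (fun n => n * Real.exp (d n))) := by
  obtain ⟨δ, hδ, hδ2, hδB⟩ : ∃ δ : ℝ, 0 < δ ∧ δ ≤ 1 / 2 ∧ δ < B - 1 / 2 :=
    ⟨min (1 / 2) ((B - 1 / 2) / 2), lt_min (by norm_num) (by linarith), min_le_left _ _,
      lt_of_le_of_lt (min_le_right _ _) (by linarith)⟩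
  refine p_CONT (fun n => n * Real.exp (d n)) d δ hδ hδ2 (fun n _ => rfl) (fun n hn => ?_) ?_ Q
  · have hn1 : (1 : ℝ) ≤ n := by exact_mod_cast hn
    have h1 : (n : ℝ) ^ (-B) ≤ 1 := Real.rpow_le_one_of_one_le_of_nonpos hn1 (by linarith)
    linarith [(abs_le.mp ((hd n hn).trans h1)).1]
  · have hs : Summable (fun n : ℕ => ((n + 1 : ℕ) : ℝ) ^ (-(B + (1 / 2 - δ)))) :=
      (summable_nat_add_iff 1).mpr (Real.summable_nat_rpow.2 (by linarith))
    refine Summable.of_nonneg_of_le (fun n => by positivity) (fun n => ?_) hs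
    have hn : (0 : ℝ) < ((n + 1 : ℕ) : ℝ) := by positivity
    calc |d (n + 1)| * ((n + 1 : ℕ) : ℝ) ^ (-(1 / 2 - δ))
        ≤ ((n + 1 : ℕ) : ℝ) ^ (-B) * ((n + 1 : ℕ) : ℝ) ^ (-(1 / 2 - δ)) :=
          mul_le_mul_of_nonneg_right (hd (n + 1) (by omega)) (Real.rpow_nonneg hn.le _)
      _ = _ := by
          rw [← Real.rpow_add hn]
          congr 1
          ring

end Pool.Agent.PertZ
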