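import Pool.Agent.PertZ.Defs

/-!
# The deterministic equivalence, from zeta to the mean
-/

set_option autoImplicit false

namespace Pool.Agent.PertZ

open MeasureTheory ProbabilityTheory Set Filter Topology Complex Pool.Agent.CW

/-- the smoothed sums commute with conjugation -/
theorem DET1_conj (B : ℝ) (s : ℂ) :
    Sm one' B ((starRingEnd ℂ) s) = (starRingEnd ℂ) (Sm one' B s) := by
  unfold Sm
  rw [map_mul, Complex.conj_tsum]
  congr 1
  refine tsum_congr fun n => ?_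
  rcases Nat.eq_zero_or_pos n with rfl | hn
  · simp [one']
  · have harg : (n : ℂ).arg ≠ Real.pi := by
      rw [Complex.natCast_arg]; exact Real.pi_pos.ne
    have h1 : (n : ℂ) ^ (-(starRingEnd ℂ) s) = (starRingEnd ℂ) ((n : ℂ) ^ (-s)) := by
      have := Complex.cpow_conj (n : ℂ) (-s) harg
      rw [map_neg, Complex.conj_natCast] at this
      exact this
    have h2 : (starRingEnd ℂ) (one' n) = one' n := by
      unfold one'; split_ifs <;> simp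
    rw [map_div₀, map_mul, map_add, h1, h2, Complex.conj_ofReal]

theorem p_DET1 (_hZ : P_ZST) (hD : P_SBD) (hA : P_SMA) : P_DET1 := by
  intro B A hB hA0 hL ε hε
  obtain ⟨C₁, hC₁⟩ := hL ε hε
  obtain ⟨C₂, hC₂⟩ := hD B A hB hA0 hL 0 (by norm_num) le_rfl ε hε
  have hone : ∀ n, ‖one' n‖ ≤ 1 := by
    intro n; unfold one'; split_ifs <;> simp
  obtain ⟨-, -, h3, -, -⟩ := hA one' B (by linarith) (by simp [one']) hone
  obtain ⟨C₃, hC₃⟩ := h3 (1 / 2) (by norm_num) (by linarith) 1 one_pos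
  set e : ℝ := max 0 ((1 - 1 / 2) / B) + 1 with he
  have he0 : 0 ≤ e := by positivity
  -- nonnegativity of constants
  have hC3' : 0 ≤ |C₃| := abs_nonneg _
  have hC2' : 0 ≤ |C₂| := abs_nonneg _
  -- bound for t ≥ 1
  have hpos : ∀ t : ℝ, 1 ≤ t → ‖Sm one' B (1 / 2 + t * I)‖ ≤ |C₂| * (1 + |t|) ^ (A + ε) := by
    intro t ht
    have h := hC₂ t ht
    have e1 : (((1 / 2 + 0 : ℝ) : ℂ) + t * I) = 1 / 2 + t * I := by push_cast; ring
    rw [e1] at h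
    have e2 : A - 0 / B + ε = A + ε := by rw [zero_div, sub_zero]
    rw [e2] at h
    have h5 : t ^ (A + ε) ≤ (1 + |t|) ^ (A + ε) := by
      apply Real.rpow_le_rpow (by linarith) _ (by linarith)
      rw [abs_of_pos (by linarith)]; linarith
    have h6 : 0 ≤ t ^ (A + ε) := Real.rpow_nonneg (by linarith) _
    calc ‖Sm one' B (1 / 2 + t * I)‖ ≤ C₂ * t ^ (A + ε) := h
      _ ≤ |C₂| * t ^ (A + ε) := mul_le_mul_of_nonneg_right (le_abs_self _) h6
      _ ≤ |C₂| * (1 + |t|) ^ (A + ε) := mul_le_mul_of_nonneg_left h5 hC2'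
  -- bound for |t| ≤ 1
  have hmid : ∀ t : ℝ, |t| ≤ 1 →
      ‖Sm one' B (1 / 2 + t * I)‖ ≤ (|C₃| * 3 ^ e) * (1 + |t|) ^ (A + ε) := by
    intro t ht
    have h := hC₃ (1 / 2 + t * I) (by simp)
    have hn : ‖(1 / 2 + t * I : ℂ)‖ ≤ 2 := by
      calc ‖(1 / 2 + t * I : ℂ)‖ ≤ ‖(1 / 2 : ℂ)‖ + ‖(t * I : ℂ)‖ := norm_add_le _ _
        _ ≤ 2 := by
          rw [norm_mul, Complex.norm_I, mul_one, Complex.norm_real, Real.norm_eq_abs]
          norm_num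
          linarith
    have h5 : (1 + ‖(1 / 2 + t * I : ℂ)‖) ^ e ≤ 3 ^ e :=
      Real.rpow_le_rpow (by positivity) (by linarith) he0
    have h6 : (0 : ℝ) ≤ (1 + ‖(1 / 2 + t * I : ℂ)‖) ^ e := by positivity
    have h7 : (1 : ℝ) ≤ (1 + |t|) ^ (A + ε) :=
      Real.one_le_rpow (by linarith [abs_nonneg t]) (by linarith)
    have h8 : (0 : ℝ) ≤ |C₃| * 3 ^ e := by positivity
    calc ‖Sm one' B (1 / 2 + t * I)‖ ≤ C₃ * (1 + ‖(1 / 2 + t * I : ℂ)‖) ^ e := h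
      _ ≤ |C₃| * (1 + ‖(1 / 2 + t * I : ℂ)‖) ^ e :=
          mul_le_mul_of_nonneg_right (le_abs_self _) h6
      _ ≤ |C₃| * 3 ^ e := mul_le_mul_of_nonneg_left h5 hC3'
      _ ≤ (|C₃| * 3 ^ e) * (1 + |t|) ^ (A + ε) := by nlinarith
  -- bound for t ≤ -1
  have hneg : ∀ t : ℝ, t ≤ -1 → ‖Sm one' B (1 / 2 + t * I)‖ ≤ |C₂| * (1 + |t|) ^ (A + ε) := by
    intro t ht
    have h := hpos (-t) (by linarith)
    have e1 : (1 / 2 + t * I : ℂ) = (starRingEnd ℂ) (1 / 2 + ((-t : ℝ) : ℂ) * I) := by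
      apply Complex.ext <;> simp
    rw [e1, DET1_conj, RCLike.norm_conj]
    rwa [abs_neg] at h
  refine ⟨C₁ + (|C₂| + |C₃| * 3 ^ e), fun t => ?_⟩
  have hP : (0 : ℝ) ≤ (1 + |t|) ^ (A + ε) := by positivity
  have hS : ‖Sm one' B (1 / 2 + t * I)‖ ≤ (|C₂| + |C₃| * 3 ^ e) * (1 + |t|) ^ (A + ε) := by
    have h8 : (0 : ℝ) ≤ |C₃| * 3 ^ e := by positivity
    have k2 : (0 : ℝ) ≤ |C₂| * (1 + |t|) ^ (A + ε) := mul_nonneg hC2' hP
    have k3 : (0 : ℝ) ≤ (|C₃| * 3 ^ e) * (1 + |t|) ^ (A + ε) := mul_nonneg h8 hP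
    rw [add_mul]
    rcases le_total |t| 1 with h | h
    · linarith [hmid t h]
    · rcases le_total 0 t with h0 | h0
      · rw [abs_of_nonneg h0] at h
        linarith [hpos t h]
      · rw [abs_of_nonpos h0] at h
        linarith [hneg t (by linarith)]
  calc ‖Dl B t‖ ≤ ‖zl t‖ + ‖Sm one' B (1 / 2 + t * I)‖ := norm_sub_le _ _
    _ ≤ C₁ * (1 + |t|) ^ (A + ε) + (|C₂| + |C₃| * 3 ^ e) * (1 + |t|) ^ (A + ε) :=
        add_le_add (hC₁ t) hS
    _ = (C₁ + (|C₂| + |C₃| * 3 ^ e)) * (1 + |t|) ^ (A + ε) := by ring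

end Pool.Agent.PertZ
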