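import Pool.Agent.PertZ.Defs

/-!
# Block SBD: the smoothed initial sums of zeta
-/

set_option autoImplicit false

namespace Pool.Agent.PertZ

open MeasureTheory ProbabilityTheory Set Filter Topology Complex Pool.Agent.CW

namespace SBD_

lemma norm_one' (n : ℕ) : ‖one' n‖ ≤ 1 := by
  unfold one'
  split_ifs <;> simp

lemma summ {p : ℝ} (hp : 1 < p) : Summable (fun n : ℕ => ‖one' n‖ * (n : ℝ) ^ (-p)) := by
  have h : Summable (fun n : ℕ => (n : ℝ) ^ (-p)) := Real.summable_nat_rpow.2 (by linarith)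
  refine Summable.of_nonneg_of_le (fun n => by positivity) (fun n => ?_) h
  have h1 : 0 ≤ (n : ℝ) ^ (-p) := by positivity
  calc ‖one' n‖ * (n : ℝ) ^ (-p) ≤ 1 * (n : ℝ) ^ (-p) :=
        mul_le_mul_of_nonneg_right (norm_one' n) h1
    _ = _ := one_mul _

lemma zeta_eq {z : ℂ} (hz : 1 < z.re) : riemannZeta z = ∑' n : ℕ, one' n * (n : ℂ) ^ (-z) := by
  rw [zeta_eq_tsum_one_div_nat_cpow hz]
  refine tsum_congr fun n => ?_
  unfold one'
  split_ifs with h
  · subst h
    have hz0 : z ≠ 0 := by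
      rintro rfl
      norm_num at hz
    simp [Complex.zero_cpow hz0]
  · rw [one_mul, Complex.cpow_neg, one_div]

end SBD_

open SBD_ in
theorem p_SBD (hB : P_BL) (hS : P_SUPI) (hZ : P_ZST) : P_SBD := by
  intro B m hB1 hm hL κ hκ1 hκ0 ε hε
  obtain ⟨C₁, hC₁⟩ := hZ.1 m hm hL (ε / 2) (by linarith)
  set ε₂ : ℝ := min (ε / 2) (1 / 2) with hε₂
  have hε₂0 : 0 < ε₂ := lt_min (by linarith) (by norm_num)
  have hε₂1 : ε₂ ≤ ε / 2 := min_le_left _ _
  have hε₂2 : ε₂ ≤ 1 / 2 := min_le_right _ _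
  have hB0 : 0 < B := by linarith
  have hkB0 : 0 ≤ -κ / B := div_nonneg (by linarith) hB0.le
  have hkB1 : -κ / B ≤ 1 / 4 := by
    rw [div_le_iff₀ hB0]
    linarith
  obtain ⟨C₂, hC₂0, hC₂⟩ := hB (3 / 4) (by norm_num) (by norm_num)
  obtain ⟨C₃, hC₃0, hC₃⟩ := hS B κ (1 / 2) (3 / 4) (-κ / B + ε₂) 1 hB0 (by norm_num)
    (by linarith) (by norm_num) (by linarith) (by linarith) (by linarith) (by linarith)
    (by
      have : B * (-κ / B + ε₂) = -κ + B * ε₂ := by field_simp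
      rw [this]
      have : 0 < B * ε₂ := mul_pos hB0 hε₂0
      linarith) zero_le_one le_rfl (by linarith)
  set L : ℝ := ∑' n : ℕ, ‖one' n‖ * (n : ℝ) ^ (-(1 / 2 + 3 / 4 : ℝ)) with hLd
  have hL0 : 0 ≤ L := tsum_nonneg fun n => by positivity
  set D : ℝ := |C₁| * 3 ^ (m + ε / 2) with hD
  have hD0 : 0 ≤ D := by positivity
  refine ⟨C₃ * (C₂ * D + C₂ * (L + D)), fun t ht => ?_⟩
  have ht0 : 0 < t := by linarith
  set K : ℝ := D * t ^ (m + ε / 2) with hK
  have hK0 : 0 ≤ K := by positivity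
  have hzb : ∀ z : ℂ, (1 / 2 : ℝ) ≤ z.re → z.re ≤ 1 / 2 + 3 / 4 → t / 2 ≤ z.im → z.im ≤ 2 * t →
      AnalyticAt ℂ riemannZeta z ∧ ‖riemannZeta z‖ ≤ K := by
    intro z h1 h2 h3 h4
    constructor
    · have hz1 : z ≠ 1 := by
        rintro rfl
        simp at h3
        linarith
      have hop : IsOpen ({1}ᶜ : Set ℂ) := isOpen_compl_singleton
      exact (DifferentiableOn.analyticAt (s := ({1}ᶜ : Set ℂ))
        (fun w hw => (differentiableAt_riemannZeta hw).differentiableWithinAt)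
        (hop.mem_nhds hz1))
    · have h5 := hC₁ z (by linarith) (by linarith) (by linarith)
      have h6 : (1 + z.im) ^ (m + ε / 2) ≤ (3 * t) ^ (m + ε / 2) :=
        Real.rpow_le_rpow (by linarith) (by linarith) (by linarith)
      calc ‖riemannZeta z‖ ≤ C₁ * (1 + z.im) ^ (m + ε / 2) := h5
        _ ≤ |C₁| * (3 * t) ^ (m + ε / 2) :=
            mul_le_mul (le_abs_self _) h6 (Real.rpow_nonneg (by linarith) _) (abs_nonneg _)
        _ = K := by
            rw [hK, hD, Real.mul_rpow (by norm_num) ht0.le]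
            ring
  have hW : ∀ Y : ℝ, 1 ≤ Y → ‖Wb one' (1 / 2) t Y‖ ≤
      C₂ * K + C₂ * (L / t + K / t ^ 2) * Y ^ (3 / 4 : ℝ) := by
    intro Y hY
    have h := hC₂ one' (1 / 2) L K t Y riemannZeta (by norm_num) ht hY hK0 (by simp [one'])
      (summ (by norm_num)) le_rfl hzb (fun z hz _ _ => zeta_eq (by rw [hz]; norm_num))
    calc ‖Wb one' (1 / 2) t Y‖ ≤ C₂ * (K + Y ^ (3 / 4 : ℝ) * (L / t + K / t ^ 2)) := h
      _ = _ := by ring
  have hfin := hC₃ one' t (C₂ * K) (C₂ * (L / t + K / t ^ 2)) (by simp [one']) norm_one' ht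
    (by positivity) (by positivity) hW
  refine hfin.trans ?_
  rw [mul_assoc C₃]
  refine mul_le_mul_of_nonneg_left ?_ hC₃0.le
  set E : ℝ := m - κ / B + ε with hE
  have hE0 : 0 ≤ E := by
    have : κ / B = -(-κ / B) := by ring
    rw [hE, this]
    linarith
  have hmE : m + ε / 2 ≤ E := by
    have : κ / B = -(-κ / B) := by ring
    rw [hE, this]
    linarith
  have h1 : C₂ * K * t ^ (-κ / B + ε₂) ≤ C₂ * D * t ^ E := by
    have : K * t ^ (-κ / B + ε₂) = D * t ^ (m + ε / 2 + (-κ / B + ε₂)) := by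
      rw [hK, Real.rpow_add ht0 (m + ε / 2)]
      ring
    rw [mul_assoc, this, ← mul_assoc]
    refine mul_le_mul_of_nonneg_left ?_ (by positivity)
    refine Real.rpow_le_rpow_of_exponent_le ht ?_
    have : κ / B = -(-κ / B) := by ring
    rw [hE, this]
    linarith
  have h2 : C₂ * (L / t + K / t ^ 2) * t ^ (1 : ℝ) ≤ C₂ * (L + D) * t ^ E := by
    have h3 : (L / t + K / t ^ 2) * t = L + K / t := by
      field_simp
    rw [Real.rpow_one, mul_assoc, h3, mul_assoc]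
    refine mul_le_mul_of_nonneg_left ?_ hC₂0.le
    have h4 : K / t ≤ K := div_le_self hK0 ht
    have h5 : K ≤ D * t ^ E := mul_le_mul_of_nonneg_left
      (Real.rpow_le_rpow_of_exponent_le ht hmE) hD0
    have h6 : L ≤ L * t ^ E := le_mul_of_one_le_right hL0 (Real.one_le_rpow ht hE0)
    calc L + K / t ≤ L * t ^ E + D * t ^ E := by linarith
      _ = _ := by ring
  calc C₂ * K * t ^ (-κ / B + ε₂) + C₂ * (L / t + K / t ^ 2) * t ^ (1 : ℝ)
      ≤ C₂ * D * t ^ E + C₂ * (L + D) * t ^ E := add_le_add h1 h2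
    _ = _ := by ring

end Pool.Agent.PertZ
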