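import Pool.Agent.PertZ.Defs2
import Pool.Agent.PertZ.SBD
import Pool.Agent.PertZ.DET1

/-!
# Block DETX: bounds of the mean for all exponents above one half
-/

set_option autoImplicit false

namespace Pool.Agent.PertZ

open MeasureTheory ProbabilityTheory Set Filter Topology Complex Pool.Agent.CW

theorem DETX_zl_conj (t : ℝ) : zl (-t) = (starRingEnd ℂ) (zl t) := by
  unfold zl
  rw [← riemannZeta_conj]
  congr 1
  apply Complex.ext <;> simp

theorem DETX_Dl_conj (B t : ℝ) : Dl B (-t) = (starRingEnd ℂ) (Dl B t) := by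
  unfold Dl
  rw [DETX_zl_conj, map_sub, ← DET1_conj]
  congr 2
  apply Complex.ext <;> simp

theorem DETX_zl_mid : ∃ C : ℝ, ∀ t : ℝ, |t| ≤ 2 → ‖zl t‖ ≤ C := by
  have hc : ContinuousOn zl (Icc (-2) 2) := by
    refine Continuous.continuousOn ?_
    rw [continuous_iff_continuousAt]
    intro t
    unfold zl
    have h1 : (1 / 2 + (t : ℂ) * I) ≠ 1 := by
      intro h
      have := congrArg Complex.re h
      simp at this
    exact ((differentiableAt_riemannZeta h1).continuousAt).comp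
      (f := fun t : ℝ => (1 / 2 + (t : ℂ) * I)) (by fun_prop)
  obtain ⟨C, hC⟩ := isCompact_Icc.exists_bound_of_continuousOn hc
  exact ⟨C, fun t ht => hC t (abs_le.mp ht)⟩

theorem DETX_mid (hA : P_SMA) (B : ℝ) (hB : 1 / 2 < B) :
    ∃ C : ℝ, ∀ t : ℝ, |t| ≤ 2 → ‖Dl B t‖ ≤ C := by
  have hone : ∀ n, ‖one' n‖ ≤ 1 := by
    intro n; unfold one'; split_ifs <;> simp
  obtain ⟨-, -, h3, -, -⟩ := hA one' B hB (by simp [one']) hone
  obtain ⟨C₃, hC₃⟩ := h3 (1 / 2) (by norm_num) (by linarith) 1 one_pos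
  obtain ⟨C₁, hC₁⟩ := DETX_zl_mid
  set e : ℝ := max 0 ((1 - 1 / 2) / B) + 1 with he
  have he0 : 0 ≤ e := by positivity
  refine ⟨C₁ + |C₃| * 4 ^ e, fun t ht => ?_⟩
  have h := hC₃ (1 / 2 + t * I) (by simp)
  have hn : ‖(1 / 2 + t * I : ℂ)‖ ≤ 3 := by
    calc ‖(1 / 2 + t * I : ℂ)‖ ≤ ‖(1 / 2 : ℂ)‖ + ‖(t * I : ℂ)‖ := norm_add_le _ _
      _ ≤ 3 := by
        rw [norm_mul, Complex.norm_I, mul_one, Complex.norm_real, Real.norm_eq_abs]
        norm_num
        linarith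
  have h5 : (1 + ‖(1 / 2 + t * I : ℂ)‖) ^ e ≤ 4 ^ e :=
    Real.rpow_le_rpow (by positivity) (by linarith) he0
  have h6 : (0 : ℝ) ≤ (1 + ‖(1 / 2 + t * I : ℂ)‖) ^ e := by positivity
  calc ‖Dl B t‖ ≤ ‖zl t‖ + ‖Sm one' B (1 / 2 + t * I)‖ := norm_sub_le _ _
    _ ≤ C₁ + C₃ * (1 + ‖(1 / 2 + t * I : ℂ)‖) ^ e := add_le_add (hC₁ t ht) h
    _ ≤ C₁ + |C₃| * (1 + ‖(1 / 2 + t * I : ℂ)‖) ^ e := by
        have := mul_le_mul_of_nonneg_right (le_abs_self C₃) h6
        linarith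
    _ ≤ C₁ + |C₃| * 4 ^ e := by
        have := mul_le_mul_of_nonneg_left h5 (abs_nonneg C₃)
        linarith

theorem DETX_red (hA : P_SMA) (B : ℝ) (hB : 1 / 2 < B) (e : ℝ) (he : 0 ≤ e)
    (h : ∃ C : ℝ, ∀ t : ℝ, 2 ≤ t → ‖Dl B t‖ ≤ C * t ^ e) :
    ∃ C : ℝ, ∀ t : ℝ, ‖Dl B t‖ ≤ C * (1 + |t|) ^ e := by
  obtain ⟨C, hC⟩ := h
  obtain ⟨C', hC'⟩ := DETX_mid hA B hB
  have hpos : ∀ t : ℝ, 2 ≤ t → ‖Dl B t‖ ≤ |C| * (1 + |t|) ^ e := by
    intro t ht
    have h1 : t ^ e ≤ (1 + |t|) ^ e := by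
      refine Real.rpow_le_rpow (by linarith) ?_ he
      rw [abs_of_pos (by linarith)]
      linarith
    have h2 : 0 ≤ t ^ e := Real.rpow_nonneg (by linarith) _
    calc ‖Dl B t‖ ≤ C * t ^ e := hC t ht
      _ ≤ |C| * t ^ e := mul_le_mul_of_nonneg_right (le_abs_self _) h2
      _ ≤ |C| * (1 + |t|) ^ e := mul_le_mul_of_nonneg_left h1 (abs_nonneg _)
  refine ⟨|C| + |C'|, fun t => ?_⟩
  have hP : (0 : ℝ) ≤ (1 + |t|) ^ e := by positivity
  have hP1 : (1 : ℝ) ≤ (1 + |t|) ^ e := Real.one_le_rpow (by linarith [abs_nonneg t]) he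
  rw [add_mul]
  have k1 : 0 ≤ |C| * (1 + |t|) ^ e := mul_nonneg (abs_nonneg _) hP
  have k2 : 0 ≤ |C'| * (1 + |t|) ^ e := mul_nonneg (abs_nonneg _) hP
  rcases le_total |t| 2 with h | h
  · have h3 := hC' t h
    have h4 : |C'| ≤ |C'| * (1 + |t|) ^ e := le_mul_of_one_le_right (abs_nonneg _) hP1
    linarith [le_abs_self C']
  · rcases le_total 0 t with h0 | h0
    · rw [abs_of_nonneg h0] at h
      linarith [hpos t h]
    · rw [abs_of_nonpos h0] at h
      have h5 := hpos (-t) h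
      rw [DETX_Dl_conj, RCLike.norm_conj, abs_neg] at h5
      linarith

/-- powers of comparable numbers -/
theorem DETX_pow (e t v : ℝ) (ht : 2 ≤ t) (h1 : t / 2 ≤ v) (h2 : v ≤ 2 * t) :
    v ^ e ≤ 2 ^ |e| * t ^ e := by
  have ht0 : 0 < t := by linarith
  have hv0 : 0 < v := by linarith
  rcases le_total 0 e with h | h
  · rw [abs_of_nonneg h, ← Real.mul_rpow (by norm_num) ht0.le]
    exact Real.rpow_le_rpow hv0.le h2 h
  · rw [abs_of_nonpos h]
    have h3 : v ^ e ≤ (t / 2) ^ e := Real.rpow_le_rpow_of_nonpos (by linarith) h1 h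
    refine h3.trans (le_of_eq ?_)
    rw [Real.div_rpow ht0.le (by norm_num), Real.rpow_neg (by norm_num)]
    rw [div_eq_mul_inv, mul_comm]

theorem DETX_pos (hZ : P_ZST) (hB : P_BLV) (hH : P_HP) (hA : P_SMA) (B h m : ℝ)
    (hB1 : 1 / 2 < B) (hh0 : 0 < h) (hh1 : h ≤ 1 / 2) (hL : LineAt (1 / 2 + h) m) :
    ExpLe (max 0 (m + h * (1 - 1 / B))) (Dl B) := by
  intro ε hε
  have hB0 : 0 < B := by linarith
  set A : ℝ := max 0 (m + h * (1 - 1 / B)) with hAd
  have hA0 : 0 ≤ A := le_max_left _ _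
  have hA1 : m + h * (1 - 1 / B) ≤ A := le_max_right _ _
  refine DETX_red hA B hB1 (A + ε) (by linarith) ?_
  obtain ⟨r, hr1, hr2, hr3⟩ : ∃ r : ℝ, 1 / 2 < r ∧ r < 1 ∧ r < B := by
    refine ⟨(1 / 2 + min 1 B) / 2, ?_, ?_, ?_⟩
    · have : 1 / 2 < min 1 B := lt_min (by norm_num) hB1
      linarith
    · have := min_le_left 1 B
      linarith
    · have := min_le_right 1 B
      linarith
  obtain ⟨Cb, hCb0, hCb⟩ := hB h r hh0 (by linarith) (by linarith) hr2
  obtain ⟨Ch, hCh0, hCh⟩ := hH B h r hB1 hh0 (by linarith) (by linarith) hr3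
  obtain ⟨Cz, hCz⟩ := hZ.2.1 (1 / 4) (by norm_num)
  obtain ⟨C3, hC30, hC3⟩ := hZ.2.2.1
  obtain ⟨Cm, hCm⟩ := hL ε hε
  set L : ℝ := ∑' n : ℕ, ‖one' n‖ * (n : ℝ) ^ (-(1 / 2 + r : ℝ)) with hLd
  have hL0 : 0 ≤ L := tsum_nonneg fun n => by positivity
  set D : ℝ := |Cz| * 3 ^ (3 / 4 : ℝ) with hD
  have hD0 : 0 ≤ D := by positivity
  set e : ℝ := m + ε + h with he
  set F : ℝ := C3 * |Cm| * 2 ^ |e| with hF
  have hF0 : 0 ≤ F := by positivity
  refine ⟨Ch * (1 + D + Cb * F + Cb * (L + D)), fun t ht => ?_⟩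
  have ht0 : 0 < t := by linarith
  have ht1 : 1 ≤ t := by linarith
  set K' : ℝ := D * t ^ (3 / 4 : ℝ) with hK'
  have hK'0 : 0 ≤ K' := by positivity
  set K : ℝ := F * t ^ e with hK
  have hK0 : 0 ≤ K := by positivity
  have hzan : ∀ z : ℂ, t / 2 ≤ z.im → AnalyticAt ℂ riemannZeta z := by
    intro z h3
    have hz1 : z ≠ 1 := by
      rintro rfl
      simp at h3
      linarith
    have hop : IsOpen ({1}ᶜ : Set ℂ) := isOpen_compl_singleton
    exact (DifferentiableOn.analyticAt (s := ({1}ᶜ : Set ℂ))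
      (fun w hw => (differentiableAt_riemannZeta hw).differentiableWithinAt)
      (hop.mem_nhds hz1))
  have hzb : ∀ z : ℂ, 0 ≤ z.re → z.re ≤ 3 → t / 2 ≤ z.im → z.im ≤ 2 * t →
      ‖riemannZeta z‖ ≤ K' := by
    intro z h1 h2 h3 h4
    have h5 := hCz z h1 h2 (by linarith)
    have e1 : (1 / 2 + 1 / 4 : ℝ) = 3 / 4 := by norm_num
    rw [e1] at h5
    have h6 : (1 + z.im) ^ (3 / 4 : ℝ) ≤ (3 * t) ^ (3 / 4 : ℝ) :=
      Real.rpow_le_rpow (by linarith) (by linarith) (by norm_num)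
    calc ‖riemannZeta z‖ ≤ Cz * (1 + z.im) ^ (3 / 4 : ℝ) := h5
      _ ≤ |Cz| * (3 * t) ^ (3 / 4 : ℝ) :=
          mul_le_mul (le_abs_self _) h6 (Real.rpow_nonneg (by linarith) _) (abs_nonneg _)
      _ = K' := by
          rw [hK', hD, Real.mul_rpow (by norm_num) ht0.le]
          ring
  have hV : ∀ Y : ℝ, 1 ≤ Y → ‖zl t - Vb one' (1 / 2) t Y‖ ≤
      Cb * K * Y ^ (-h) + Cb * ((L + K') / t ^ 2) * Y ^ r := by
    intro Y hY
    have hY0 : 0 < Y := by linarith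
    have h1 := hCb one' (1 / 2) L K K' t Y riemannZeta (by norm_num) ht hY hK0 hK'0
      (by simp [one']) (SBD_.summ (by linarith)) le_rfl
      (fun z h1 h2 h3 h4 => ⟨hzan z h3, hzb z (by linarith) (by linarith) h3 h4⟩)
      (fun v h1 h2 => ?_) (fun z hz _ _ => SBD_.zeta_eq (by rw [hz]; linarith))
    · have e1 : riemannZeta (((1 / 2 : ℝ) : ℂ) + t * I) = zl t := by
        unfold zl
        congr 2
        push_cast
        ring
      rw [e1] at h1
      refine h1.trans (le_of_eq ?_)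
      ring
    · have hv1 : 1 ≤ v := by linarith
      have h5 := (hC3 h v hh0.le hh1 (by linarith)).1
      have h6 := hCm v (by rw [abs_of_pos (by linarith)]; exact hv1)
      rw [abs_of_pos (by linarith : 0 < v)] at h6
      have h7 : ‖riemannZeta (((1 / 2 + h : ℝ) : ℂ) + v * I)‖ ≤ |Cm| * v ^ (m + ε) :=
        h6.trans (mul_le_mul_of_nonneg_right (le_abs_self _) (Real.rpow_nonneg (by linarith) _))
      have h8 : 0 ≤ C3 * v ^ h := by positivity
      calc ‖riemannZeta (((1 / 2 - h : ℝ) : ℂ) + v * I)‖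
          ≤ C3 * v ^ h * ‖riemannZeta (((1 / 2 + h : ℝ) : ℂ) + v * I)‖ := h5
        _ ≤ C3 * v ^ h * (|Cm| * v ^ (m + ε)) := mul_le_mul_of_nonneg_left h7 h8
        _ = C3 * |Cm| * v ^ e := by
            rw [he, Real.rpow_add (by linarith : 0 < v) (m + ε)]
            ring
        _ ≤ C3 * |Cm| * (2 ^ |e| * t ^ e) :=
            mul_le_mul_of_nonneg_left (DETX_pow e t v ht h1 h2) (by positivity)
        _ = K := by rw [hK, hF]; ring
  have hfin := hCh t (Cb * K) (Cb * ((L + K') / t ^ 2)) ht (by positivity) (by positivity) hV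
  refine hfin.trans ?_
  rw [mul_assoc Ch]
  refine mul_le_mul_of_nonneg_left ?_ hCh0.le
  have hone : 1 ≤ t ^ (A + ε) := Real.one_le_rpow ht1 (by linarith)
  have b1 : ‖zl t‖ / t ≤ D := by
    have h1 : ‖zl t‖ ≤ K' := by
      have := hzb (1 / 2 + t * I) (by simp) (by simp; norm_num) (by simp; linarith)
        (by simp; linarith)
      exact this
    rw [div_le_iff₀ ht0]
    refine h1.trans ?_
    rw [hK']
    refine mul_le_mul_of_nonneg_left ?_ hD0
    calc t ^ (3 / 4 : ℝ) ≤ t ^ (1 : ℝ) := Real.rpow_le_rpow_of_exponent_le ht1 (by norm_num)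
      _ = t := Real.rpow_one t
  have b2 : Cb * K * t ^ (-(h / B)) ≤ Cb * F * t ^ (A + ε) := by
    have h1 : K * t ^ (-(h / B)) = F * t ^ (e + -(h / B)) := by
      rw [hK, Real.rpow_add ht0 e]
      ring
    rw [mul_assoc, h1, ← mul_assoc]
    refine mul_le_mul_of_nonneg_left ?_ (by positivity)
    refine Real.rpow_le_rpow_of_exponent_le ht1 ?_
    have h2 : h * (1 - 1 / B) = h - h / B := by ring
    rw [h2] at hA1
    rw [he]
    linarith
  have b3 : Cb * ((L + K') / t ^ 2) * t ^ (r / B) ≤ Cb * (L + D) := by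
    rw [mul_assoc]
    refine mul_le_mul_of_nonneg_left ?_ hCb0.le
    have h1 : t ^ (r / B) ≤ t := by
      calc t ^ (r / B) ≤ t ^ (1 : ℝ) := by
            refine Real.rpow_le_rpow_of_exponent_le ht1 ?_
            rw [div_le_one hB0]
            exact hr3.le
        _ = t := Real.rpow_one t
    have h2 : K' ≤ D * t := by
      rw [hK']
      refine mul_le_mul_of_nonneg_left ?_ hD0
      calc t ^ (3 / 4 : ℝ) ≤ t ^ (1 : ℝ) := Real.rpow_le_rpow_of_exponent_le ht1 (by norm_num)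
        _ = t := Real.rpow_one t
    have h3 : L + K' ≤ (L + D) * t := by
      nlinarith
    calc (L + K') / t ^ 2 * t ^ (r / B) ≤ (L + D) * t / t ^ 2 * t := by
          gcongr
      _ = L + D := by
          field_simp
  have b4 : Cb * (L + D) ≤ Cb * (L + D) * t ^ (A + ε) :=
    le_mul_of_one_le_right (by positivity) hone
  have b5 : D ≤ D * t ^ (A + ε) := le_mul_of_one_le_right hD0 hone
  calc 1 + ‖zl t‖ / t + Cb * K * t ^ (-(h / B)) + Cb * ((L + K') / t ^ 2) * t ^ (r / B)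
      ≤ t ^ (A + ε) + D * t ^ (A + ε) + Cb * F * t ^ (A + ε) + Cb * (L + D) * t ^ (A + ε) := by
        linarith
    _ = (1 + D + Cb * F + Cb * (L + D)) * t ^ (A + ε) := by ring

/-- from one line to the lines on its right -/
theorem DETX_zero (m : ℝ) (hL : LineAt (1 / 2) m) : LineBound (max 0 m) := by
  intro ε hε
  obtain ⟨C, hC⟩ := hL ε hε
  obtain ⟨C', hC'⟩ := DETX_zl_mid
  refine ⟨|C| + |C'|, fun t => ?_⟩
  have he : 0 ≤ max 0 m + ε := by
    have := le_max_left 0 m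
    linarith
  have hP : (0 : ℝ) ≤ (1 + |t|) ^ (max 0 m + ε) := by positivity
  have hP1 : (1 : ℝ) ≤ (1 + |t|) ^ (max 0 m + ε) :=
    Real.one_le_rpow (by linarith [abs_nonneg t]) he
  rw [add_mul]
  have k1 : 0 ≤ |C| * (1 + |t|) ^ (max 0 m + ε) := mul_nonneg (abs_nonneg _) hP
  have k2 : 0 ≤ |C'| * (1 + |t|) ^ (max 0 m + ε) := mul_nonneg (abs_nonneg _) hP
  rcases le_total |t| 1 with h | h
  · have h3 := hC' t (by linarith)
    have h4 : |C'| ≤ |C'| * (1 + |t|) ^ (max 0 m + ε) :=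
      le_mul_of_one_le_right (abs_nonneg _) hP1
    linarith [le_abs_self C']
  · have h5 := hC t h
    have e1 : riemannZeta (((1 / 2 : ℝ) : ℂ) + t * I) = zl t := by
      unfold zl
      congr 2
      push_cast
      ring
    rw [e1] at h5
    have h6 : |t| ^ (m + ε) ≤ |t| ^ (max 0 m + ε) :=
      Real.rpow_le_rpow_of_exponent_le h (by linarith [le_max_right 0 m])
    have h7 : |t| ^ (max 0 m + ε) ≤ (1 + |t|) ^ (max 0 m + ε) :=
      Real.rpow_le_rpow (abs_nonneg _) (by linarith) he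
    have h8 : 0 ≤ |t| ^ (m + ε) := by positivity
    calc ‖zl t‖ ≤ C * |t| ^ (m + ε) := h5
      _ ≤ |C| * |t| ^ (m + ε) := mul_le_mul_of_nonneg_right (le_abs_self _) h8
      _ ≤ |C| * (1 + |t|) ^ (max 0 m + ε) :=
          mul_le_mul_of_nonneg_left (h6.trans h7) (abs_nonneg _)
      _ ≤ _ := by linarith

theorem DETX_lineAt (hZ : P_ZST) (m h : ℝ) (hm : 0 ≤ m) (hL : LineBound m) (hh : 0 ≤ h)
    (hh1 : h ≤ 1 / 2) : LineAt (1 / 2 + h) m := by
  intro ε hε
  obtain ⟨C, hC⟩ := hZ.1 m hm hL ε hε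
  have hpos : ∀ t : ℝ, 1 ≤ t → ‖riemannZeta (((1 / 2 + h : ℝ) : ℂ) + t * I)‖ ≤
      |C| * 2 ^ (m + ε) * t ^ (m + ε) := by
    intro t ht
    have h1 := hC (((1 / 2 + h : ℝ) : ℂ) + t * I) (by simp; linarith) (by simp; linarith)
      (by simp; linarith)
    have e1 : (((1 / 2 + h : ℝ) : ℂ) + t * I).im = t := by simp
    rw [e1] at h1
    have h2 : (1 + t) ^ (m + ε) ≤ (2 * t) ^ (m + ε) :=
      Real.rpow_le_rpow (by linarith) (by linarith) (by linarith)
    calc ‖riemannZeta (((1 / 2 + h : ℝ) : ℂ) + t * I)‖ ≤ C * (1 + t) ^ (m + ε) := h1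
      _ ≤ |C| * (2 * t) ^ (m + ε) :=
          mul_le_mul (le_abs_self _) h2 (Real.rpow_nonneg (by linarith) _) (abs_nonneg _)
      _ = _ := by
          rw [Real.mul_rpow (by norm_num) (by linarith)]
          ring
  refine ⟨|C| * 2 ^ (m + ε), fun t ht => ?_⟩
  rcases le_total 0 t with h0 | h0
  · rw [abs_of_nonneg h0] at ht ⊢
    exact hpos t ht
  · rw [abs_of_nonpos h0] at ht ⊢
    have h1 := hpos (-t) ht
    have e1 : (((1 / 2 + h : ℝ) : ℂ) + ((-t : ℝ) : ℂ) * I) =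
        (starRingEnd ℂ) (((1 / 2 + h : ℝ) : ℂ) + t * I) := by
      apply Complex.ext <;> simp
    rw [e1, riemannZeta_conj, RCLike.norm_conj] at h1
    exact h1

theorem p_DETX (hZ : P_ZST) (hB : P_BLV) (hH : P_HP) (hA : P_SMA) : P_DETX := by
  intro B h m hB1 hh0 hh1 hL
  rcases hh0.eq_or_lt with h0 | h0
  · subst h0
    rw [add_zero] at hL
    rw [zero_mul, add_zero]
    have hLB := DETX_zero m hL
    have hm0 : 0 ≤ max 0 m := le_max_left _ _
    intro ε hε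
    set q : ℝ := |1 - 1 / B| with hq
    have hq0 : 0 ≤ q := abs_nonneg _
    set h' : ℝ := min (1 / 2) (ε / (2 * (1 + q))) with hh'
    have hh'0 : 0 < h' := lt_min (by norm_num) (by positivity)
    have hh'1 : h' ≤ 1 / 2 := min_le_left _ _
    have hh'2 : h' * q ≤ ε / 2 := by
      have h1 : h' ≤ ε / (2 * (1 + q)) := min_le_right _ _
      calc h' * q ≤ ε / (2 * (1 + q)) * (1 + q) := by
            refine mul_le_mul h1 (by linarith) hq0 (by positivity)
        _ = ε / 2 := by field_simp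
    obtain ⟨C, hC⟩ := DETX_pos hZ hB hH hA B h' (max 0 m) hB1 hh'0 hh'1
      (DETX_lineAt hZ (max 0 m) h' hm0 hLB hh'0.le hh'1) (ε / 2) (by linarith)
    refine ⟨|C|, fun t => ?_⟩
    have h2 : h' * (1 - 1 / B) ≤ ε / 2 := by
      refine le_trans ?_ hh'2
      exact mul_le_mul_of_nonneg_left (le_abs_self _) hh'0.le
    have h3 : max 0 (max 0 m + h' * (1 - 1 / B)) + ε / 2 ≤ max 0 m + ε := by
      have : max 0 (max 0 m + h' * (1 - 1 / B)) ≤ max 0 m + ε / 2 :=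
        max_le (by linarith) (by linarith)
      linarith
    have h4 : (0 : ℝ) ≤ (1 + |t|) ^ (max 0 (max 0 m + h' * (1 - 1 / B)) + ε / 2) := by
      positivity
    calc ‖Dl B t‖ ≤ C * (1 + |t|) ^ (max 0 (max 0 m + h' * (1 - 1 / B)) + ε / 2) := hC t
      _ ≤ |C| * (1 + |t|) ^ (max 0 (max 0 m + h' * (1 - 1 / B)) + ε / 2) :=
          mul_le_mul_of_nonneg_right (le_abs_self _) h4
      _ ≤ |C| * (1 + |t|) ^ (max 0 m + ε) := by
          refine mul_le_mul_of_nonneg_left ?_ (abs_nonneg _)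
          exact Real.rpow_le_rpow_of_exponent_le (by linarith [abs_nonneg t]) h3
  · exact DETX_pos hZ hB hH hA B h m hB1 h0 hh1 hL

end Pool.Agent.PertZ
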