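import Pool.Agent.PertZ.Defs

/-!
# Lindelöf under random perturbation: SMA (helper49)

Analyticity and trivial bounds of the series `Sm a B s`.
-/

set_option autoImplicit false

namespace Pool.Agent.PertZ

open MeasureTheory ProbabilityTheory Set Filter Topology Complex Pool.Agent.CW

namespace SMA_

/-- the terms -/
noncomputable def term (a : ℕ → ℂ) (B : ℝ) (n : ℕ) (s : ℂ) : ℂ :=
  a n * (n : ℂ) ^ (-s) / ((((n : ℝ) ^ B : ℝ) : ℂ) + s)

theorem one_le_pow {B : ℝ} (hB : 0 ≤ B) {n : ℕ} (hn : 1 ≤ n) : (1 : ℝ) ≤ (n : ℝ) ^ B :=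
  Real.one_le_rpow (by exact_mod_cast hn) hB

theorem re_le_norm_den (x : ℝ) (s : ℂ) : x + s.re ≤ ‖((x : ℝ) : ℂ) + s‖ := by
  have h := Complex.re_le_norm (((x : ℝ) : ℂ) + s)
  simpa using h

theorem norm_le_den {x : ℝ} (hx : 0 ≤ x) {s : ℂ} (hs : 0 ≤ s.re) :
    ‖s‖ ≤ ‖((x : ℝ) : ℂ) + s‖ := by
  apply le_of_sq_le_sq _ (norm_nonneg _)
  rw [Complex.sq_norm, Complex.sq_norm, Complex.normSq_apply, Complex.normSq_apply]
  simp only [Complex.add_re, Complex.ofReal_re, Complex.add_im, Complex.ofReal_im, zero_add]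
  nlinarith [mul_nonneg hx hs]

theorem ratio {x e : ℝ} (hx : 0 < x) (he : 0 ≤ e) (he1 : e ≤ 1) {s : ℂ} (hs : 0 ≤ s.re) :
    ‖s‖ / ‖((x : ℝ) : ℂ) + s‖ ≤ (‖s‖ / x) ^ e := by
  have h1 : x ≤ ‖((x : ℝ) : ℂ) + s‖ := by
    have := re_le_norm_den x s
    linarith
  have h2 := norm_le_den hx.le hs
  have hD : 0 < ‖((x : ℝ) : ℂ) + s‖ := lt_of_lt_of_le hx h1
  rcases le_or_gt ‖s‖ x with h | h
  · rcases (norm_nonneg s).eq_or_lt with h0 | h0
    · rw [← h0]
      simp only [zero_div]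
      exact Real.rpow_nonneg le_rfl _
    · have h3 : ‖s‖ / x ≤ 1 := (div_le_one hx).2 h
      have h4 : 0 < ‖s‖ / x := div_pos h0 hx
      calc ‖s‖ / ‖((x : ℝ) : ℂ) + s‖ ≤ ‖s‖ / x := by gcongr
        _ = (‖s‖ / x) ^ (1 : ℝ) := (Real.rpow_one _).symm
        _ ≤ (‖s‖ / x) ^ e := Real.rpow_le_rpow_of_exponent_ge h4 h3 he1
  · calc ‖s‖ / ‖((x : ℝ) : ℂ) + s‖ ≤ 1 := (div_le_one hD).2 h2
      _ ≤ (‖s‖ / x) ^ e := Real.one_le_rpow ((one_le_div hx).2 h.le) he

theorem norm_pow_le {σ : ℝ} {s : ℂ} (hσ : σ ≤ s.re) {n : ℕ} (hn : 1 ≤ n) :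
    ‖(n : ℂ) ^ (-s)‖ ≤ (n : ℝ) ^ (-σ) := by
  rw [Complex.norm_natCast_cpow_of_pos (by omega)]
  apply Real.rpow_le_rpow_of_exponent_le (by exact_mod_cast hn)
  simp only [Complex.neg_re]
  linarith

/-- bound of a term -/
theorem term_bound {a : ℕ → ℂ} {B σ e : ℝ} (h0 : a 0 = 0) (ha : ∀ n, ‖a n‖ ≤ 1)
    (he : 0 ≤ e) (he1 : e ≤ 1) {s : ℂ} (hs : 0 ≤ s.re) (hσ : σ ≤ s.re) (n : ℕ) :
    ‖s * term a B n s‖ ≤ ‖s‖ ^ e * (n : ℝ) ^ (-(σ + B * e)) := by
  rcases Nat.eq_zero_or_pos n with hn | hn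
  · subst hn
    have : s * term a B 0 s = 0 := by simp [term, h0]
    rw [this, norm_zero]
    positivity
  · have hn0 : (0 : ℝ) < n := by exact_mod_cast hn
    have hx : (0 : ℝ) < (n : ℝ) ^ B := Real.rpow_pos_of_pos hn0 _
    have e1 : ‖s * term a B n s‖ =
        ‖a n‖ * ‖(n : ℂ) ^ (-s)‖ * (‖s‖ / ‖(((n : ℝ) ^ B : ℝ) : ℂ) + s‖) := by
      rw [term, norm_mul, norm_div, norm_mul]; ring
    rw [e1]
    calc ‖a n‖ * ‖(n : ℂ) ^ (-s)‖ * (‖s‖ / ‖(((n : ℝ) ^ B : ℝ) : ℂ) + s‖)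
        ≤ 1 * (n : ℝ) ^ (-σ) * (‖s‖ / (n : ℝ) ^ B) ^ e := by
          gcongr
          · exact ha n
          · exact norm_pow_le hσ hn
          · exact ratio hx he he1 hs
      _ = ‖s‖ ^ e * (n : ℝ) ^ (-(σ + B * e)) := by
          rw [Real.div_rpow (norm_nonneg _) hx.le, ← Real.rpow_mul hn0.le, neg_add,
            Real.rpow_add hn0, Real.rpow_neg hn0.le (B * e)]
          ring

theorem summ {c : ℝ} (hc : 1 < c) : Summable (fun n : ℕ => (n : ℝ) ^ (-c)) :=
  Real.summable_nat_rpow.2 (by linarith)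

theorem Sm_bound {a : ℕ → ℂ} {B σ e : ℝ} (h0 : a 0 = 0) (ha : ∀ n, ‖a n‖ ≤ 1)
    (he : 0 ≤ e) (he1 : e ≤ 1) (hc : 1 < σ + B * e) {s : ℂ} (hs : 0 ≤ s.re) (hσ : σ ≤ s.re) :
    ‖Sm a B s‖ ≤ ‖s‖ ^ e * ∑' n : ℕ, (n : ℝ) ^ (-(σ + B * e)) := by
  have h1 : Sm a B s = ∑' n : ℕ, s * term a B n s := by
    rw [tsum_mul_left]; rfl
  rw [h1]
  exact tsum_of_norm_bounded ((summ hc).hasSum.mul_left _)
    (fun n => term_bound h0 ha he he1 hs hσ n)

/-- bound used for the analyticity -/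
theorem term_bound2 {a : ℕ → ℂ} {B r : ℝ} (hB : 0 ≤ B) (h0 : a 0 = 0) (ha : ∀ n, ‖a n‖ ≤ 1)
    {s : ℂ} (hs : -(1 / 2) ≤ s.re) (hr : r ≤ s.re) (n : ℕ) :
    ‖term a B n s‖ ≤ 2 * (n : ℝ) ^ (-(r + B)) := by
  rcases Nat.eq_zero_or_pos n with hn | hn
  · subst hn
    have : term a B 0 s = 0 := by simp [term, h0]
    rw [this, norm_zero]
    positivity
  · have hn0 : (0 : ℝ) < n := by exact_mod_cast hn
    have hx : (0 : ℝ) < (n : ℝ) ^ B := Real.rpow_pos_of_pos hn0 _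
    have hx1 : (1 : ℝ) ≤ (n : ℝ) ^ B := one_le_pow hB hn
    have hD : (n : ℝ) ^ B / 2 ≤ ‖(((n : ℝ) ^ B : ℝ) : ℂ) + s‖ := by
      have := re_le_norm_den ((n : ℝ) ^ B) s
      linarith
    rw [term, norm_div, norm_mul]
    calc ‖a n‖ * ‖(n : ℂ) ^ (-s)‖ / ‖(((n : ℝ) ^ B : ℝ) : ℂ) + s‖
        ≤ 1 * (n : ℝ) ^ (-r) / ((n : ℝ) ^ B / 2) := by
          gcongr
          · exact ha n
          · exact norm_pow_le hr hn
      _ = 2 * (n : ℝ) ^ (-(r + B)) := by
          rw [neg_add, Real.rpow_add hn0, Real.rpow_neg hn0.le B]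
          field_simp

theorem summable_term {a : ℕ → ℂ} {B : ℝ} (hB : 0 ≤ B) (h0 : a 0 = 0) (ha : ∀ n, ‖a n‖ ≤ 1)
    {s : ℂ} (hs : 0 ≤ s.re) (h1 : 1 - B < s.re) : Summable (fun n => term a B n s) := by
  refine Summable.of_norm_bounded ((summ (c := s.re + B) (by linarith)).mul_left 2) ?_
  intro n
  exact term_bound2 hB h0 ha (by linarith) le_rfl n

theorem analytic {a : ℕ → ℂ} {B : ℝ} (hB : 1 / 2 < B) (h0 : a 0 = 0) (ha : ∀ n, ‖a n‖ ≤ 1)
    {s : ℂ} (hs : 0 ≤ s.re) (h1 : 1 - B < s.re) : AnalyticAt ℂ (Sm a B) s := by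
  have hB0 : 0 ≤ B := by linarith
  set r : ℝ := max (-(1 / 2)) ((1 - B + s.re) / 2) with hr
  have hr1 : r < s.re := max_lt (by linarith) (by linarith)
  have hr2 : 1 < r + B := by
    have : (1 - B + s.re) / 2 ≤ r := le_max_right _ _
    linarith
  have hr3 : -(1 / 2) ≤ r := le_max_left _ _
  set U : Set ℂ := {z : ℂ | r < z.re} with hU
  have hUo : IsOpen U := isOpen_lt continuous_const Complex.continuous_re
  have hd : DifferentiableOn ℂ (fun z => ∑' n : ℕ, term a B n z) U := by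
    refine differentiableOn_tsum_of_summable_norm ((summ (c := r + B) hr2).mul_left 2) ?_ hUo ?_
    · intro n
      rcases Nat.eq_zero_or_pos n with hn | hn
      · subst hn
        have : term a B 0 = fun _ => 0 := by
          funext z
          simp [term, h0]
        rw [this]
        exact differentiableOn_const _
      · intro z hz
        have hz' : r < z.re := hz
        have hn0 : (n : ℂ) ≠ 0 := by
          exact_mod_cast (Nat.pos_iff_ne_zero.1 hn)
        have hden : (((n : ℝ) ^ B : ℝ) : ℂ) + z ≠ 0 := by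
          intro hc
          have h2 := re_le_norm_den ((n : ℝ) ^ B) z
          rw [hc, norm_zero] at h2
          have h3 := one_le_pow hB0 hn
          linarith
        refine DifferentiableAt.differentiableWithinAt ?_
        unfold term
        refine DifferentiableAt.div ?_ ?_ hden
        · refine DifferentiableAt.const_mul ?_ _
          exact DifferentiableAt.const_cpow (differentiableAt_id.neg) (Or.inl hn0)
        · exact (differentiableAt_const _).add differentiableAt_id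
    · intro n z hz
      have hz' : r < z.re := hz
      exact term_bound2 hB0 h0 ha (by linarith) hz'.le n
  have hd2 : DifferentiableOn ℂ (Sm a B) U := by
    have : Sm a B = fun z => z * ∑' n : ℕ, term a B n z := rfl
    rw [this]
    exact differentiableOn_id.mul hd
  exact hd2.analyticAt (hUo.mem_nhds hr1)

end SMA_

open SMA_

theorem p_SMA : P_SMA := by
  intro a B hB h0 ha
  have hB0 : 0 ≤ B := by linarith
  have hBp : 0 < B := by linarith
  refine ⟨fun s hs h1 => analytic hB h0 ha hs.le h1, fun s hs h1 _ => analytic hB h0 ha hs h1,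
    ?_, ?_, fun s hs _ h1 => summable_term hB0 h0 ha hs h1⟩
  · intro σ hσ hσB ε hε
    set m : ℝ := max 0 ((1 - σ) / B) with hm
    have hm0 : 0 ≤ m := le_max_left _ _
    have hm1 : m < 1 := by
      refine max_lt one_pos ?_
      rw [div_lt_one hBp]
      linarith
    have hm2 : 1 - σ ≤ B * m := by
      have : (1 - σ) / B ≤ m := le_max_right _ _
      rw [div_le_iff₀ hBp] at this
      linarith
    set e : ℝ := m + min ε (1 - m) with he
    have hmin : 0 < min ε (1 - m) := lt_min hε (by linarith)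
    have he0 : 0 ≤ e := by linarith
    have he1 : e ≤ 1 := by
      have := min_le_right ε (1 - m)
      linarith
    have he2 : e ≤ m + ε := by
      have := min_le_left ε (1 - m)
      linarith
    have hc : 1 < σ + B * e := by
      have : 0 < B * min ε (1 - m) := mul_pos hBp hmin
      have h2 : B * e = B * m + B * min ε (1 - m) := by rw [he]; ring
      linarith
    refine ⟨∑' n : ℕ, (n : ℝ) ^ (-(σ + B * e)), ?_⟩
    intro s hs
    have hC : 0 ≤ ∑' n : ℕ, (n : ℝ) ^ (-(σ + B * e)) :=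
      tsum_nonneg fun n => Real.rpow_nonneg (Nat.cast_nonneg _) _
    refine (Sm_bound h0 ha he0 he1 hc (hσ.trans hs) hs).trans ?_
    rw [mul_comm]
    refine mul_le_mul_of_nonneg_left ?_ hC
    calc ‖s‖ ^ e ≤ (1 + ‖s‖) ^ e :=
          Real.rpow_le_rpow (norm_nonneg _) (by linarith) he0
      _ ≤ (1 + ‖s‖) ^ (m + ε) :=
          Real.rpow_le_rpow_of_exponent_le (by linarith [norm_nonneg s]) he2
  · refine ⟨∑' n : ℕ, (n : ℝ) ^ (-(2 + B * 0)), ?_⟩
    intro s hs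
    have := Sm_bound (B := B) (σ := 2) (e := 0) h0 ha le_rfl zero_le_one (by norm_num)
      (s := s) (by linarith) hs
    simpa using this

end Pool.Agent.PertZ
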