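import Pool.Agent.PertZ.Defs5
import Pool.Agent.PertZ.DETX
import Pool.Agent.PertZ.DET2
import Pool.Agent.PertZ.SMA

/-!
# Block TRF: comparison of the exponents of the means
-/

set_option autoImplicit false

namespace Pool.Agent.PertZ

open MeasureTheory ProbabilityTheory Set Filter Topology Complex Pool.Agent.CW

/-- the coefficients -/
noncomputable def TRF_a (B' : ℝ) (s : ℂ) (n : ℕ) : ℂ :=
  one' n * ((((n : ℝ) ^ B' : ℝ) : ℂ) / ((((n : ℝ) ^ B' : ℝ) : ℂ) + s))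

/-- the auxiliary sum -/
noncomputable def TRF_g (B' : ℝ) (s z : ℂ) : ℂ :=
  ∑' n : ℕ, one' n * (n : ℂ) ^ (-z) / ((((n : ℝ) ^ B' : ℝ) : ℂ) + s)

theorem TRF_den (B' : ℝ) (n : ℕ) {s : ℂ} (hs : 0 ≤ s.re) :
    (n : ℝ) ^ B' ≤ ‖(((n : ℝ) ^ B' : ℝ) : ℂ) + s‖ := by
  have := SMA_.re_le_norm_den ((n : ℝ) ^ B') s
  linarith

theorem TRF_ne (B' : ℝ) {n : ℕ} (hn : 1 ≤ n) {s : ℂ} (hs : 0 ≤ s.re) :
    (((n : ℝ) ^ B' : ℝ) : ℂ) + s ≠ 0 := by
  intro h
  have h1 := TRF_den B' n hs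
  rw [h, norm_zero] at h1
  have : (0 : ℝ) < (n : ℝ) ^ B' := Real.rpow_pos_of_pos (by exact_mod_cast hn) _
  linarith

theorem TRF_quot (B' : ℝ) (n : ℕ) {s : ℂ} (hs : 0 ≤ s.re) :
    ‖(((n : ℝ) ^ B' : ℝ) : ℂ) / ((((n : ℝ) ^ B' : ℝ) : ℂ) + s)‖ ≤ 1 := by
  have h0 : (0 : ℝ) ≤ (n : ℝ) ^ B' := Real.rpow_nonneg (Nat.cast_nonneg _) _
  rw [norm_div, Complex.norm_real, Real.norm_of_nonneg h0]
  exact div_le_one_of_le₀ (TRF_den B' n hs) (norm_nonneg _)

theorem TRF_a_le (B' : ℝ) {s : ℂ} (hs : 0 ≤ s.re) (n : ℕ) : ‖TRF_a B' s n‖ ≤ 1 := by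
  unfold TRF_a
  rw [norm_mul]
  calc _ ≤ 1 * 1 := mul_le_mul (SBD_.norm_one' n) (TRF_quot B' n hs) (norm_nonneg _)
        zero_le_one
    _ = 1 := one_mul 1

/-- a term of the auxiliary sum -/
theorem TRF_term (B' : ℝ) {s z : ℂ} (hs : 0 ≤ s.re) {c : ℝ} (hz : c ≤ z.re) (n : ℕ) :
    ‖one' n * (n : ℂ) ^ (-z) / ((((n : ℝ) ^ B' : ℝ) : ℂ) + s)‖ ≤ (n : ℝ) ^ (-(c + B')) := by
  rcases Nat.eq_zero_or_pos n with rfl | hn
  · simp only [one', if_true, zero_mul, zero_div, norm_zero]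
    exact Real.rpow_nonneg (Nat.cast_nonneg _) _
  · have hn0 : (0 : ℝ) < n := by exact_mod_cast hn
    have hx : (0 : ℝ) < (n : ℝ) ^ B' := Real.rpow_pos_of_pos hn0 _
    rw [norm_div, norm_mul]
    calc ‖one' n‖ * ‖(n : ℂ) ^ (-z)‖ / ‖(((n : ℝ) ^ B' : ℝ) : ℂ) + s‖
        ≤ 1 * (n : ℝ) ^ (-c) / (n : ℝ) ^ B' := by
          gcongr
          · exact SBD_.norm_one' n
          · exact SMA_.norm_pow_le hz hn
          · exact TRF_den B' n hs
      _ = (n : ℝ) ^ (-(c + B')) := by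
          rw [neg_add, Real.rpow_add hn0, Real.rpow_neg hn0.le B']
          field_simp

theorem TRF_summable {B' : ℝ} (hB : 1 / 2 < B') {s z : ℂ} (hs : 0 ≤ s.re)
    (hz : 1 / 2 ≤ z.re) :
    Summable (fun n : ℕ => one' n * (n : ℂ) ^ (-z) / ((((n : ℝ) ^ B' : ℝ) : ℂ) + s)) :=
  Summable.of_norm_bounded (SMA_.summ (c := 1 / 2 + B') (by linarith))
    (fun n => TRF_term B' hs hz n)

theorem TRF_g_le {B' : ℝ} (hB : 1 / 2 < B') {s z : ℂ} (hs : 0 ≤ s.re) (hz : 1 / 2 ≤ z.re) :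
    ‖TRF_g B' s z‖ ≤ ∑' n : ℕ, (n : ℝ) ^ (-(1 / 2 + B')) :=
  tsum_of_norm_bounded (SMA_.summ (c := 1 / 2 + B') (by linarith)).hasSum
    (fun n => TRF_term B' hs hz n)

theorem TRF_an {B' : ℝ} (hB : 1 / 2 < B') {s z : ℂ} (hs : 0 ≤ s.re) (hz : 1 / 2 < z.re) :
    AnalyticAt ℂ (TRF_g B' s) z := by
  set U : Set ℂ := {w : ℂ | 1 / 2 < w.re} with hU
  have hUo : IsOpen U := isOpen_lt continuous_const Complex.continuous_re
  have hd : DifferentiableOn ℂ (TRF_g B' s) U := by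
    refine differentiableOn_tsum_of_summable_norm
      (SMA_.summ (c := 1 / 2 + B') (by linarith)) ?_ hUo ?_
    · intro n
      rcases Nat.eq_zero_or_pos n with rfl | hn
      · simp only [one', if_true, zero_mul, zero_div]
        exact differentiableOn_const _
      · intro w _
        have hn0 : (n : ℂ) ≠ 0 := by exact_mod_cast (Nat.pos_iff_ne_zero.1 hn)
        refine DifferentiableAt.differentiableWithinAt ?_
        refine DifferentiableAt.div_const ?_ _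
        refine DifferentiableAt.const_mul ?_ _
        exact DifferentiableAt.const_cpow (differentiableAt_id.neg) (Or.inl hn0)
    · intro n w hw
      exact TRF_term B' hs (le_of_lt hw) n
  exact hd.analyticAt (hUo.mem_nhds hz)

/-- the function to the right of the line `Re z = 1` -/
theorem TRF_right {B' : ℝ} (hB : 1 / 2 < B') {s z : ℂ} (hs : 0 ≤ s.re) (hz : 1 < z.re) :
    riemannZeta z - s * TRF_g B' s z = ∑' n : ℕ, TRF_a B' s n * (n : ℂ) ^ (-z) := by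
  have h1 : Summable (fun n : ℕ => one' n * (n : ℂ) ^ (-z)) := by
    refine Summable.of_norm_bounded (SBD_.summ hz) fun n => ?_
    rw [norm_mul]
    rcases Nat.eq_zero_or_pos n with rfl | hn
    · simp [one']
    · exact mul_le_mul_of_nonneg_left (SMA_.norm_pow_le le_rfl hn) (norm_nonneg _)
  have h2 := (TRF_summable hB hs (by linarith : 1 / 2 ≤ z.re)).mul_left s
  rw [SBD_.zeta_eq hz, TRF_g, ← tsum_mul_left, ← h1.tsum_sub h2]
  refine tsum_congr fun n => ?_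
  rcases Nat.eq_zero_or_pos n with rfl | hn
  · simp [one', TRF_a]
  · have h3 := TRF_ne B' hn hs
    unfold TRF_a
    field_simp
    ring

/-- comparison with the sum `Sm` -/
theorem TRF_diff {B' : ℝ} (hB : 1 / 2 < B') {s z : ℂ} (hs : 0 ≤ s.re) (hz : 1 / 2 ≤ z.re) :
    ‖Sm one' B' z - s * TRF_g B' s z‖ ≤ ‖z - s‖ * ∑' n : ℕ, (n : ℝ) ^ (-(1 / 2 + B')) := by
  have hz0 : 0 ≤ z.re := by linarith
  have h1 := (TRF_summable hB hz0 hz).mul_left z
  have h2 := (TRF_summable hB hs hz).mul_left s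
  unfold Sm TRF_g
  rw [← tsum_mul_left, ← tsum_mul_left, ← h1.tsum_sub h2]
  refine tsum_of_norm_bounded
    ((SMA_.summ (c := 1 / 2 + B') (by linarith)).hasSum.mul_left _) fun n => ?_
  rcases Nat.eq_zero_or_pos n with rfl | hn
  · simp only [one', if_true, zero_mul, zero_div, mul_zero, sub_zero, norm_zero]
    exact mul_nonneg (norm_nonneg _) (Real.rpow_nonneg (Nat.cast_nonneg _) _)
  · have h3 := TRF_ne B' hn hs
    have h4 := TRF_ne B' hn hz0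
    have e : z * (one' n * (n : ℂ) ^ (-z) / ((((n : ℝ) ^ B' : ℝ) : ℂ) + z)) -
        s * (one' n * (n : ℂ) ^ (-z) / ((((n : ℝ) ^ B' : ℝ) : ℂ) + s)) =
        (z - s) * ((((n : ℝ) ^ B' : ℝ) : ℂ) / ((((n : ℝ) ^ B' : ℝ) : ℂ) + z)) *
          (one' n * (n : ℂ) ^ (-z) / ((((n : ℝ) ^ B' : ℝ) : ℂ) + s)) := by
      field_simp
      ring
    rw [e, norm_mul, norm_mul]
    calc ‖z - s‖ * ‖(((n : ℝ) ^ B' : ℝ) : ℂ) / ((((n : ℝ) ^ B' : ℝ) : ℂ) + z)‖ *
          ‖one' n * (n : ℂ) ^ (-z) / ((((n : ℝ) ^ B' : ℝ) : ℂ) + s)‖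
        ≤ ‖z - s‖ * 1 * (n : ℝ) ^ (-(1 / 2 + B')) := by
          gcongr
          · exact TRF_quot B' n hz0
          · exact TRF_term B' hs hz n
      _ = _ := by ring

/-- the two low-pass sums -/
noncomputable def TRF_S (B κ : ℝ) (a : ℕ → ℂ) (t : ℝ) : ℂ :=
  ∑' n : ℕ, a n * (n : ℂ) ^ (-(1 / 2 + t * I)) * ((((n : ℝ) ^ (-κ) : ℝ) : ℂ) *
      ((1 / 2 + t * I) / ((((n : ℝ) ^ B : ℝ) : ℂ) + (1 / 2 + t * I))))

theorem TRF_S_summable {B κ : ℝ} (hκ : 1 / 2 < κ + B) (a : ℕ → ℂ) (h0 : a 0 = 0)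
    (ha : ∀ n, ‖a n‖ ≤ 1) (t : ℝ) :
    Summable (fun n : ℕ => a n * (n : ℂ) ^ (-(1 / 2 + t * I)) * ((((n : ℝ) ^ (-κ) : ℝ) : ℂ) *
      ((1 / 2 + t * I) / ((((n : ℝ) ^ B : ℝ) : ℂ) + (1 / 2 + t * I))))) := by
  have hs : (0 : ℝ) ≤ (1 / 2 + t * I : ℂ).re := by simp
  have hs2 : (1 / 2 : ℝ) ≤ (1 / 2 + t * I : ℂ).re := by simp
  refine Summable.of_norm_bounded
    ((SMA_.summ (c := 1 / 2 + (κ + B)) (by linarith)).mul_left ‖(1 / 2 + t * I : ℂ)‖) fun n => ?_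
  rcases Nat.eq_zero_or_pos n with rfl | hn
  · rw [h0]
    simp only [zero_mul, norm_zero]
    exact mul_nonneg (norm_nonneg _) (Real.rpow_nonneg (Nat.cast_nonneg _) _)
  · have hn0 : (0 : ℝ) < n := by exact_mod_cast hn
    have hx : (0 : ℝ) < (n : ℝ) ^ B := Real.rpow_pos_of_pos hn0 _
    have hk : (0 : ℝ) ≤ (n : ℝ) ^ (-κ) := Real.rpow_nonneg hn0.le _
    rw [norm_mul, norm_mul, norm_mul, norm_div, Complex.norm_real, Real.norm_of_nonneg hk]
    calc ‖a n‖ * ‖(n : ℂ) ^ (-(1 / 2 + t * I))‖ * ((n : ℝ) ^ (-κ) *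
          (‖(1 / 2 + t * I : ℂ)‖ / ‖(((n : ℝ) ^ B : ℝ) : ℂ) + (1 / 2 + t * I)‖))
        ≤ 1 * (n : ℝ) ^ (-(1 / 2 : ℝ)) * ((n : ℝ) ^ (-κ) *
          (‖(1 / 2 + t * I : ℂ)‖ / (n : ℝ) ^ B)) := by
          gcongr
          · exact ha n
          · exact SMA_.norm_pow_le hs2 hn
          · exact TRF_den B n hs
      _ = ‖(1 / 2 + t * I : ℂ)‖ * (n : ℝ) ^ (-(1 / 2 + (κ + B))) := by
          have e : -(1 / 2 + (κ + B)) = -(1 / 2 : ℝ) + (-κ + -B) := by ring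
          rw [e, Real.rpow_add hn0, Real.rpow_add hn0, Real.rpow_neg hn0.le B]
          field_simp

theorem TRF_split {B B' : ℝ} (hB : 1 / 2 < B) (hB' : 1 / 2 < B') (t : ℝ) :
    Dl B t = Dl B' t + (TRF_S B (B' - B) (TRF_a B' (1 / 2 + t * I)) t -
      TRF_S B 0 (TRF_a B' (1 / 2 + t * I)) t) := by
  have hs : (0 : ℝ) ≤ (1 / 2 + t * I : ℂ).re := by simp
  have hs2 : (1 / 2 : ℝ) ≤ (1 / 2 + t * I : ℂ).re := by simp
  have ha0 : TRF_a B' (1 / 2 + t * I) 0 = 0 := by simp [TRF_a, one']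
  have s1 := TRF_S_summable (B := B) (κ := B' - B) (by linarith) _ ha0 (TRF_a_le B' hs) t
  have s2 := TRF_S_summable (B := B) (κ := 0) (by linarith) _ ha0 (TRF_a_le B' hs) t
  have s3 := (TRF_summable hB' hs hs2).mul_left (1 / 2 + t * I : ℂ)
  have s4 := (TRF_summable hB hs hs2).mul_left (1 / 2 + t * I : ℂ)
  have key : Sm one' B' (1 / 2 + t * I) - Sm one' B (1 / 2 + t * I) =
      TRF_S B (B' - B) (TRF_a B' (1 / 2 + t * I)) t -
        TRF_S B 0 (TRF_a B' (1 / 2 + t * I)) t := by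
    unfold Sm TRF_S
    rw [← tsum_mul_left, ← tsum_mul_left, ← s3.tsum_sub s4, ← s1.tsum_sub s2]
    refine tsum_congr fun n => ?_
    rcases Nat.eq_zero_or_pos n with rfl | hn
    · simp [one', TRF_a]
    · have hn0 : (0 : ℝ) < n := by exact_mod_cast hn
      have h3 := TRF_ne B' hn hs
      have h4 := TRF_ne B hn hs
      have hN : (((n : ℝ) ^ B' : ℝ) : ℂ) ≠ 0 := by
        have : (0 : ℝ) < (n : ℝ) ^ B' := Real.rpow_pos_of_pos hn0 _
        exact_mod_cast this.ne'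
      have e1 : (((n : ℝ) ^ (-(B' - B)) : ℝ) : ℂ) =
          (((n : ℝ) ^ B : ℝ) : ℂ) / (((n : ℝ) ^ B' : ℝ) : ℂ) := by
        rw [← Complex.ofReal_div, ← Real.rpow_sub hn0]
        congr 2
        ring
      have e2 : (((n : ℝ) ^ (-(0 : ℝ)) : ℝ) : ℂ) = 1 := by
        rw [neg_zero, Real.rpow_zero]
        norm_num
      rw [e1, e2]
      unfold TRF_a
      generalize (((n : ℝ) ^ B' : ℝ) : ℂ) = N' at *
      generalize (((n : ℝ) ^ B : ℝ) : ℂ) = N at *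
      generalize (1 / 2 + t * I : ℂ) = s at *
      field_simp
      ring
  unfold Dl
  rw [← key]
  ring

/-- bound on compact sets of heights -/
theorem TRF_mid (hA : P_SMA) (B : ℝ) (hB : 1 / 2 < B) (T : ℝ) :
    ∃ C : ℝ, ∀ t : ℝ, |t| ≤ T → ‖Dl B t‖ ≤ C := by
  obtain ⟨-, -, h3, -, -⟩ := hA one' B hB (by simp [one']) SBD_.norm_one'
  obtain ⟨C₃, hC₃⟩ := h3 (1 / 2) (by norm_num) (by linarith) 1 one_pos
  obtain ⟨C₁, hC₁⟩ := (isCompact_Icc (a := -T) (b := T)).exists_bound_of_continuousOn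
    (f := zl) DET2_cont.continuousOn
  set e : ℝ := max 0 ((1 - 1 / 2) / B) + 1 with he
  have he0 : 0 ≤ e := by positivity
  refine ⟨C₁ + |C₃| * (2 + |T|) ^ e, fun t ht => ?_⟩
  have h := hC₃ (1 / 2 + t * I) (by simp)
  have hn : ‖(1 / 2 + t * I : ℂ)‖ ≤ 1 + |T| := by
    calc ‖(1 / 2 + t * I : ℂ)‖ ≤ ‖(1 / 2 : ℂ)‖ + ‖(t * I : ℂ)‖ := norm_add_le _ _
      _ ≤ 1 + |T| := by
        rw [norm_mul, Complex.norm_I, mul_one, Complex.norm_real, Real.norm_eq_abs]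
        have : |t| ≤ |T| := ht.trans (le_abs_self _)
        norm_num
        linarith
  have h5 : (1 + ‖(1 / 2 + t * I : ℂ)‖) ^ e ≤ (2 + |T|) ^ e :=
    Real.rpow_le_rpow (by positivity) (by linarith) he0
  have h6 : (0 : ℝ) ≤ (1 + ‖(1 / 2 + t * I : ℂ)‖) ^ e := by positivity
  calc ‖Dl B t‖ ≤ ‖zl t‖ + ‖Sm one' B (1 / 2 + t * I)‖ := norm_sub_le _ _
    _ ≤ C₁ + C₃ * (1 + ‖(1 / 2 + t * I : ℂ)‖) ^ e := add_le_add (hC₁ t (abs_le.1 ht)) h
    _ ≤ C₁ + |C₃| * (1 + ‖(1 / 2 + t * I : ℂ)‖) ^ e := by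
        have := mul_le_mul_of_nonneg_right (le_abs_self C₃) h6
        linarith
    _ ≤ C₁ + |C₃| * (2 + |T|) ^ e := by
        have := mul_le_mul_of_nonneg_left h5 (abs_nonneg C₃)
        linarith

theorem TRF_red (hA : P_SMA) (B : ℝ) (hB : 1 / 2 < B) (e : ℝ) (he : 0 ≤ e)
    (h : ∃ C T : ℝ, ∀ t : ℝ, T ≤ t → ‖Dl B t‖ ≤ C * t ^ e) :
    ∃ C : ℝ, ∀ t : ℝ, ‖Dl B t‖ ≤ C * (1 + |t|) ^ e := by
  obtain ⟨C, T, hC⟩ := h
  obtain ⟨C', hC'⟩ := TRF_mid hA B hB (|T|)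
  refine DETX_red hA B hB e he ⟨|C| + |C'|, fun t ht => ?_⟩
  have ht0 : (0 : ℝ) < t := by linarith
  have hP : (0 : ℝ) ≤ t ^ e := Real.rpow_nonneg ht0.le _
  have hP1 : (1 : ℝ) ≤ t ^ e := Real.one_le_rpow (by linarith) he
  rw [add_mul]
  have k1 : 0 ≤ |C| * t ^ e := mul_nonneg (abs_nonneg _) hP
  have k2 : 0 ≤ |C'| * t ^ e := mul_nonneg (abs_nonneg _) hP
  rcases le_total T t with h | h
  · have h1 := hC t h
    have h2 := mul_le_mul_of_nonneg_right (le_abs_self C) hP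
    linarith
  · have h1 := hC' t (by rw [abs_of_pos ht0]; exact h.trans (le_abs_self _))
    have h2 : |C'| * 1 ≤ |C'| * t ^ e := mul_le_mul_of_nonneg_left hP1 (abs_nonneg _)
    have h3 := le_abs_self C'
    linarith

/-- the mean on the lines to the right of the critical line -/
theorem TRF_line (hT : P_TLR) (hZ : P_ZST) (hA : P_SMA) {B' A : ℝ} (hB : 1 / 2 < B')
    (hA0 : 0 ≤ A) (hE : ExpLe A (Dl B')) {ε δ : ℝ} (hε : 0 < ε) (hδ : 0 < δ) (hδ1 : δ ≤ 1) :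
    ∃ C T₁ : ℝ, 0 ≤ C ∧ ∀ v : ℝ, T₁ ≤ v →
      ‖riemannZeta (((1 / 2 + δ : ℝ) : ℂ) + v * I) - Sm one' B' (((1 / 2 + δ : ℝ) : ℂ) + v * I)‖
        ≤ C * v ^ (A + ε) := by
  obtain ⟨C₁, hC₁⟩ := hZ.2.1 (1 / 2) (by norm_num)
  obtain ⟨-, hA2, hA3, hA4, -⟩ := hA one' B' hB (by simp [one']) SBD_.norm_one'
  obtain ⟨C₃, hC₃⟩ := hA3 (1 / 2) (by norm_num) (by linarith) 1 one_pos
  obtain ⟨C₂, hC₂⟩ := hA4
  obtain ⟨C₄, hC₄⟩ := hE ε hε
  set e : ℝ := max 0 ((1 - 1 / 2) / B') + 1 with he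
  have he0 : 1 ≤ e := by
    have : 0 ≤ max 0 ((1 - 1 / 2) / B') := le_max_left _ _
    linarith
  set Z : ℝ := ∑' n : ℕ, ‖one' n‖ * (n : ℝ) ^ (-(2 : ℝ)) with hZd
  have hZ0 : 0 ≤ Z := tsum_nonneg fun n => by positivity
  set C : ℝ := (|C₁| * 3 ^ e + |C₃| * 3 ^ e) + |C₄| * 2 ^ (A + ε) + (Z + |C₂|) with hC
  have p1 : 0 ≤ |C₁| * 3 ^ e + |C₃| * 3 ^ e := by positivity
  have p2 : 0 ≤ |C₄| * 2 ^ (A + ε) := by positivity
  have p3 : 0 ≤ Z + |C₂| := by positivity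
  have hstep := DET2_tlr hT (a := 1 / 2) (b := 2) (x := A + ε) (y := 0)
    (K := e) (by norm_num) (by linarith) le_rfl (by linarith)
    (fun s => riemannZeta s - Sm one' B' s) 2 C ?_ ?_ ?_ (1 / 2 + δ) (by linarith) (by linarith)
  · obtain ⟨C', T₁, hC'0, hmain⟩ := hstep
    refine ⟨C', max T₁ 1, hC'0, fun v hv => ?_⟩
    have hv1 : 1 ≤ v := le_trans (le_max_right _ _) hv
    refine (hmain v (le_trans (le_max_left _ _) hv)).trans ?_
    apply mul_le_mul_of_nonneg_left _ hC'0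
    apply Real.rpow_le_rpow_of_exponent_le hv1
    have h1 : (2 - (1 / 2 + δ)) / (2 - 1 / 2) ≤ 1 := by
      rw [div_le_one (by norm_num)]
      linarith
    have h2 : (A + ε) * ((2 - (1 / 2 + δ)) / (2 - 1 / 2)) ≤ (A + ε) * 1 :=
      mul_le_mul_of_nonneg_left h1 (by linarith)
    linarith
  · intro z h1 h2 h3
    have hz1 : z ≠ 1 := by
      intro h; rw [h] at h3; simp at h3; linarith
    have hz0 : z ≠ 0 := by
      intro h; rw [h] at h3; simp at h3; linarith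
    refine ⟨(DET2_zana hz1).sub (hA2 z (by linarith) (by linarith) hz0), ?_⟩
    have e1 : ‖riemannZeta z‖ ≤ |C₁| * 3 ^ e * z.im ^ e := by
      have h4 := hC₁ z (by linarith) (by linarith) (by linarith)
      have h5 : (1 + z.im) ^ ((1 : ℝ) / 2 + 1 / 2) ≤ (3 * z.im) ^ e := by
        calc (1 + z.im) ^ ((1 : ℝ) / 2 + 1 / 2) ≤ (3 * z.im) ^ ((1 : ℝ) / 2 + 1 / 2) :=
              Real.rpow_le_rpow (by linarith) (by linarith) (by norm_num)
          _ ≤ (3 * z.im) ^ e :=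
              Real.rpow_le_rpow_of_exponent_le (by linarith) (by linarith)
      calc ‖riemannZeta z‖ ≤ C₁ * (1 + z.im) ^ ((1 : ℝ) / 2 + 1 / 2) := h4
        _ ≤ |C₁| * (3 * z.im) ^ e :=
            mul_le_mul (le_abs_self _) h5 (Real.rpow_nonneg (by linarith) _) (abs_nonneg _)
        _ = _ := by
            rw [Real.mul_rpow (by norm_num) (by linarith)]
            ring
    have e2 : ‖Sm one' B' z‖ ≤ |C₃| * 3 ^ e * z.im ^ e := by
      have h4 := hC₃ z h1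
      have hn : ‖z‖ ≤ 2 + z.im := by
        have := Complex.norm_le_abs_re_add_abs_im z
        rw [abs_of_nonneg (by linarith : 0 ≤ z.re), abs_of_nonneg (by linarith : 0 ≤ z.im)] at this
        linarith
      have h5 : (1 + ‖z‖) ^ e ≤ (3 * z.im) ^ e :=
        Real.rpow_le_rpow (by positivity) (by linarith) (by linarith)
      calc ‖Sm one' B' z‖ ≤ C₃ * (1 + ‖z‖) ^ e := h4
        _ ≤ |C₃| * (3 * z.im) ^ e :=
            mul_le_mul (le_abs_self _) h5 (Real.rpow_nonneg (by positivity) _) (abs_nonneg _)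
        _ = _ := by
            rw [Real.mul_rpow (by norm_num) (by linarith)]
            ring
    have e3 : 0 ≤ z.im ^ e := Real.rpow_nonneg (by linarith) _
    calc ‖riemannZeta z - Sm one' B' z‖ ≤ ‖riemannZeta z‖ + ‖Sm one' B' z‖ := norm_sub_le _ _
      _ ≤ (|C₁| * 3 ^ e + |C₃| * 3 ^ e) * z.im ^ e := by linarith
      _ ≤ C * z.im ^ e := mul_le_mul_of_nonneg_right (by linarith) e3
  · intro v hv
    have e1 := hC₄ v
    rw [abs_of_nonneg (by linarith : 0 ≤ v)] at e1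
    have e2 := DET2_two (v := v) (by linarith) (by linarith : (0 : ℝ) ≤ A + ε) C₄
    have e5 : 0 ≤ v ^ (A + ε) := Real.rpow_nonneg (by linarith) _
    have e6 : riemannZeta (((1 / 2 : ℝ) : ℂ) + v * I) - Sm one' B' (((1 / 2 : ℝ) : ℂ) + v * I) =
        Dl B' v := by
      unfold Dl zl
      push_cast
      rfl
    show ‖riemannZeta (((1 / 2 : ℝ) : ℂ) + v * I) - Sm one' B' (((1 / 2 : ℝ) : ℂ) + v * I)‖ ≤ _
    rw [e6]
    calc ‖Dl B' v‖ ≤ |C₄| * 2 ^ (A + ε) * v ^ (A + ε) := e1.trans e2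
      _ ≤ C * v ^ (A + ε) := mul_le_mul_of_nonneg_right (by linarith) e5
  · intro v hv
    rw [Real.rpow_zero, mul_one]
    have hre : (((2 : ℝ) : ℂ) + v * I).re = 2 := by simp
    have e1 : ‖riemannZeta (((2 : ℝ) : ℂ) + v * I)‖ ≤ Z := by
      rw [SBD_.zeta_eq (by rw [hre]; norm_num)]
      refine tsum_of_norm_bounded (SBD_.summ (p := 2) (by norm_num)).hasSum fun n => ?_
      rw [norm_mul]
      rcases Nat.eq_zero_or_pos n with rfl | hn
      · simp [one']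
      · exact mul_le_mul_of_nonneg_left (SMA_.norm_pow_le (by rw [hre]) hn) (norm_nonneg _)
    have e2 := hC₂ (((2 : ℝ) : ℂ) + v * I) (by rw [hre])
    calc ‖riemannZeta (((2 : ℝ) : ℂ) + v * I) - Sm one' B' (((2 : ℝ) : ℂ) + v * I)‖
        ≤ ‖riemannZeta (((2 : ℝ) : ℂ) + v * I)‖ + ‖Sm one' B' (((2 : ℝ) : ℂ) + v * I)‖ :=
          norm_sub_le _ _
      _ ≤ C := by linarith [le_abs_self C₂]

theorem p_TRF (hT : P_TLR) (hZ : P_ZST) (hW : P_BLW) (hL : P_LPS) (hA : P_SMA) : P_TRF := by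
  intro B B' A hB hB' hA0 hE ε₀ hε₀
  have hB0 : 0 < B := by linarith
  have hB'0 : 0 < B' := by linarith
  set M : ℝ := max 0 (1 - B' / B) with hM
  have hM0 : 0 ≤ M := le_max_left _ _
  have hM1 : 1 - B' / B ≤ M := le_max_right _ _
  refine TRF_red hA B hB (A + M + ε₀) (by linarith) ?_
  obtain ⟨r, hr1, hr2, hr3, hr4⟩ : ∃ r : ℝ, 1 / 2 < r ∧ r < 1 ∧ r < B ∧ r < B' := by
    refine ⟨(1 / 2 + min 1 (min B B')) / 2, ?_, ?_, ?_, ?_⟩
    · have : 1 / 2 < min 1 (min B B') := lt_min (by norm_num) (lt_min hB hB')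
      linarith
    · have := min_le_left 1 (min B B')
      linarith
    · have := (min_le_right 1 (min B B')).trans (min_le_left _ _)
      linarith
    · have := (min_le_right 1 (min B B')).trans (min_le_right _ _)
      linarith
  obtain ⟨δ, hδ0, hδ1, hδ2, hδ3⟩ : ∃ δ : ℝ, 0 < δ ∧ δ ≤ 1 / 4 ∧ 2 * δ / B ≤ ε₀ / 2 ∧
      δ ≤ 1 / 4 := by
    refine ⟨min (1 / 4) (ε₀ * B / 4), lt_min (by norm_num) (by positivity), min_le_left _ _, ?_,
      min_le_left _ _⟩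
    rw [div_le_iff₀ hB0]
    have := min_le_right (1 / 4) (ε₀ * B / 4)
    linarith
  set ε : ℝ := ε₀ / 2 with hεd
  have hε : 0 < ε := by positivity
  obtain ⟨Ct, T₁, hCt0, hCt⟩ := TRF_line hT hZ hA hB' hA0 hE hε hδ0 (by linarith)
  obtain ⟨Cb, hCb0, hCb⟩ := hW δ r hδ0 (by linarith) hr2
  have hdB : 0 ≤ 2 * δ / B := by positivity
  have hdB1 : 2 * δ / B ≤ 1 := by
    rw [div_le_one hB0]
    linarith
  set e₂ : ℝ := max 0 (1 - B' / B + 2 * δ / B) with he₂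
  have he₂0 : 0 ≤ e₂ := le_max_left _ _
  have he₂1 : e₂ ≤ 1 := by
    refine max_le zero_le_one ?_
    have : 2 * δ / B ≤ B' / B := div_le_div_of_nonneg_right (by linarith) hB0.le
    linarith
  have he₂2 : e₂ ≤ M + 2 * δ / B := max_le (by positivity) (by linarith)
  obtain ⟨C₁, hC₁0, hC₁⟩ := hL B 0 δ r (2 * δ / B) 1 hB0 (by linarith) hδ0.le (by linarith)
    hdB hdB1 zero_le_one le_rfl (by
      have : B * (2 * δ / B) = 2 * δ := by field_simp
      rw [this]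
      linarith) (by linarith)
  obtain ⟨C₂, hC₂0, hC₂⟩ := hL B (B' - B) δ r e₂ 1 hB0 (by linarith) hδ0.le (by linarith)
    he₂0 he₂1 zero_le_one le_rfl (by
      have h1 : 1 - B' / B + 2 * δ / B ≤ e₂ := le_max_right _ _
      have h2 : B * (1 - B' / B + 2 * δ / B) ≤ B * e₂ := mul_le_mul_of_nonneg_left h1 hB0.le
      have h3 : B * (1 - B' / B + 2 * δ / B) = B - B' + 2 * δ := by field_simp
      linarith) (by linarith)
  obtain ⟨Cz, hCz⟩ := hZ.2.1 (1 / 2) (by norm_num)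
  obtain ⟨C₄, hC₄⟩ := hE ε hε
  set Cs : ℝ := ∑' n : ℕ, (n : ℝ) ^ (-(1 / 2 + B')) with hCs
  have hCs0 : 0 ≤ Cs := tsum_nonneg fun n => Real.rpow_nonneg (Nat.cast_nonneg _) _
  set L : ℝ := ∑' n : ℕ, ‖one' n‖ * (n : ℝ) ^ (-(1 / 2 + r : ℝ)) with hLd
  have hL0 : 0 ≤ L := tsum_nonneg fun n => by positivity
  set D : ℝ := |Cz| * 3 + 2 * Cs with hD
  have hD0 : 0 ≤ D := by positivity
  set Q : ℝ := Ct * 2 ^ (A + ε) + (δ * Cs + Cs) with hQ
  have hQ0 : 0 ≤ Q := by positivity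
  refine ⟨|C₄| * 2 ^ (A + ε) + (C₂ * (Cb * Q + Cb * (L + D)) + C₁ * (Cb * Q + Cb * (L + D))),
    max 2 (2 * T₁), fun t htT => ?_⟩
  have ht : 2 ≤ t := (le_max_left _ _).trans htT
  have htT₁ : T₁ ≤ t / 2 := by
    have := (le_max_right 2 (2 * T₁)).trans htT
    linarith
  have ht0 : 0 < t := by linarith
  have ht1 : 1 ≤ t := by linarith
  set s : ℂ := 1 / 2 + t * I with hs
  have hsre : s.re = 1 / 2 := by simp [hs]
  have hs0 : 0 ≤ s.re := by rw [hsre]; norm_num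
  have hsn : ‖s‖ ≤ 2 * t := by
    calc ‖s‖ ≤ ‖(1 / 2 : ℂ)‖ + ‖(t * I : ℂ)‖ := norm_add_le _ _
      _ ≤ 2 * t := by
        rw [norm_mul, Complex.norm_I, mul_one, Complex.norm_real, Real.norm_eq_abs,
          abs_of_pos ht0]
        norm_num
        linarith
  set K' : ℝ := D * t with hK'
  have hK'0 : 0 ≤ K' := by positivity
  set K₀ : ℝ := Ct * 2 ^ (A + ε) * t ^ (A + ε) + δ * Cs with hK₀
  have hK₀0 : 0 ≤ K₀ := by positivity
  have ha0 : TRF_a B' s 0 = 0 := by simp [TRF_a, one']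
  have hale := TRF_a_le B' hs0
  have hterm : ∀ n : ℕ, ‖TRF_a B' s n‖ * (n : ℝ) ^ (-(1 / 2 + r)) ≤
      ‖one' n‖ * (n : ℝ) ^ (-(1 / 2 + r)) := by
    intro n
    refine mul_le_mul_of_nonneg_right ?_ (Real.rpow_nonneg (Nat.cast_nonneg _) _)
    unfold TRF_a
    rw [norm_mul]
    exact mul_le_of_le_one_right (norm_nonneg _) (TRF_quot B' n hs0)
  have hsum2 := SBD_.summ (p := 1 / 2 + r) (by linarith)
  have hsum : Summable (fun n : ℕ => ‖TRF_a B' s n‖ * (n : ℝ) ^ (-(1 / 2 + r))) :=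
    Summable.of_nonneg_of_le (fun n => by positivity) hterm hsum2
  have hV : ∀ Y : ℝ, 1 ≤ Y → ‖Vb (TRF_a B' s) (1 / 2) t Y‖ ≤
      Cb * (K₀ + Cs) * Y ^ δ + Cb * ((L + K') / t ^ 2) * Y ^ r := by
    intro Y hY
    have h1 := hCb (TRF_a B' s) (1 / 2) L K₀ Cs K' t Y
      (fun z => riemannZeta z - s * TRF_g B' s z) (by norm_num) ht hY hK₀0 hCs0 hK'0 ha0 hsum
      (hsum.tsum_le_tsum hterm hsum2) ?_ ?_ ?_
    · refine h1.trans (le_of_eq ?_)
      ring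
    · intro z h1 h2 h3 h4
      have hz1 : z ≠ 1 := by
        rintro rfl
        simp at h3
        linarith
      refine ⟨(DET2_zana hz1).sub (analyticAt_const.mul (TRF_an hB' hs0 (by linarith))), ?_⟩
      have e1 : ‖riemannZeta z‖ ≤ |Cz| * (3 * t) := by
        have h5 := hCz z (by linarith) (by linarith) (by linarith)
        rw [show (1 / 2 + 1 / 2 : ℝ) = 1 by norm_num, Real.rpow_one] at h5
        exact h5.trans (mul_le_mul (le_abs_self _) (by linarith) (by linarith) (abs_nonneg _))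
      have e2 : ‖s * TRF_g B' s z‖ ≤ 2 * t * Cs := by
        rw [norm_mul]
        exact mul_le_mul hsn (TRF_g_le hB' hs0 (by linarith)) (norm_nonneg _) (by linarith)
      calc ‖riemannZeta z - s * TRF_g B' s z‖ ≤ ‖riemannZeta z‖ + ‖s * TRF_g B' s z‖ :=
            norm_sub_le _ _
        _ ≤ |Cz| * (3 * t) + 2 * t * Cs := add_le_add e1 e2
        _ = K' := by rw [hK', hD]; ring
    · intro v h1 h2
      have hzre : (((1 / 2 + δ : ℝ) : ℂ) + v * I).re = 1 / 2 + δ := by simp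
      have e1 := hCt v (by linarith)
      have e2 := TRF_diff hB' (s := s) (z := ((1 / 2 + δ : ℝ) : ℂ) + v * I) hs0
        (by rw [hzre]; linarith)
      have e3 : ‖(((1 / 2 + δ : ℝ) : ℂ) + v * I) - s‖ ≤ δ + |v - t| := by
        have h5 : (((1 / 2 + δ : ℝ) : ℂ) + v * I) - s = (δ : ℂ) + ((v - t : ℝ) : ℂ) * I := by
          rw [hs]
          push_cast
          ring
        rw [h5]
        refine (norm_add_le _ _).trans (le_of_eq ?_)
        rw [norm_mul, Complex.norm_I, mul_one, Complex.norm_real, Complex.norm_real,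
          Real.norm_eq_abs, Real.norm_eq_abs, abs_of_pos hδ0]
      have e4 : v ^ (A + ε) ≤ 2 ^ (A + ε) * t ^ (A + ε) := by
        rw [← Real.mul_rpow (by norm_num) ht0.le]
        exact Real.rpow_le_rpow (by linarith) h2 (by linarith)
      calc ‖riemannZeta (((1 / 2 + δ : ℝ) : ℂ) + v * I) -
            s * TRF_g B' s (((1 / 2 + δ : ℝ) : ℂ) + v * I)‖
          = ‖(riemannZeta (((1 / 2 + δ : ℝ) : ℂ) + v * I) -
              Sm one' B' (((1 / 2 + δ : ℝ) : ℂ) + v * I)) +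
            (Sm one' B' (((1 / 2 + δ : ℝ) : ℂ) + v * I) -
              s * TRF_g B' s (((1 / 2 + δ : ℝ) : ℂ) + v * I))‖ := by
            congr 1
            ring
        _ ≤ Ct * v ^ (A + ε) + (δ + |v - t|) * Cs := by
            refine (norm_add_le _ _).trans (add_le_add e1 (e2.trans ?_))
            exact mul_le_mul_of_nonneg_right e3 hCs0
        _ ≤ Ct * (2 ^ (A + ε) * t ^ (A + ε)) + (δ + |v - t|) * Cs := by
            have := mul_le_mul_of_nonneg_left e4 hCt0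
            linarith
        _ = K₀ + Cs * |v - t| := by rw [hK₀]; ring
    · intro z hz _ _
      exact TRF_right hB' hs0 (by rw [hz]; linarith)
  have hS1 := hC₁ (TRF_a B' s) t (Cb * (K₀ + Cs)) (Cb * ((L + K') / t ^ 2)) ha0 hale ht1
    (by positivity) (by positivity) hV
  have hS2 := hC₂ (TRF_a B' s) t (Cb * (K₀ + Cs)) (Cb * ((L + K') / t ^ 2)) ha0 hale ht1
    (by positivity) (by positivity) hV
  have hS1' : ‖TRF_S B 0 (TRF_a B' s) t‖ ≤ C₁ * (Cb * (K₀ + Cs) * t ^ (2 * δ / B) +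
      Cb * ((L + K') / t ^ 2) * t ^ (1 : ℝ)) := hS1
  have hS2' : ‖TRF_S B (B' - B) (TRF_a B' s) t‖ ≤ C₂ * (Cb * (K₀ + Cs) * t ^ e₂ +
      Cb * ((L + K') / t ^ 2) * t ^ (1 : ℝ)) := hS2
  set E : ℝ := A + M + ε₀ with hEd
  have hE0 : 0 ≤ E := by linarith
  have hone : 1 ≤ t ^ E := Real.one_le_rpow ht1 hE0
  have hone2 : 1 ≤ t ^ (A + ε) := Real.one_le_rpow ht1 (by linarith)
  have b0 : K₀ + Cs ≤ Q * t ^ (A + ε) := by
    have h1 : (δ * Cs + Cs) * 1 ≤ (δ * Cs + Cs) * t ^ (A + ε) :=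
      mul_le_mul_of_nonneg_left hone2 (by positivity)
    have h2 : Q * t ^ (A + ε) = Ct * 2 ^ (A + ε) * t ^ (A + ε) + (δ * Cs + Cs) * t ^ (A + ε) := by
      rw [hQ]; ring
    rw [h2, hK₀]
    linarith
  have b1 : ∀ w : ℝ, A + ε + w ≤ E → Cb * (K₀ + Cs) * t ^ w ≤ Cb * Q * t ^ E := by
    intro w hw
    have h1 : 0 ≤ t ^ w := Real.rpow_nonneg ht0.le _
    calc Cb * (K₀ + Cs) * t ^ w ≤ Cb * (Q * t ^ (A + ε)) * t ^ w := by
          gcongr
      _ = Cb * Q * t ^ (A + ε + w) := by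
          rw [Real.rpow_add ht0 (A + ε)]
          ring
      _ ≤ Cb * Q * t ^ E := by
          refine mul_le_mul_of_nonneg_left ?_ (by positivity)
          exact Real.rpow_le_rpow_of_exponent_le ht1 hw
  have b3 : Cb * ((L + K') / t ^ 2) * t ^ (1 : ℝ) ≤ Cb * (L + D) * t ^ E := by
    rw [Real.rpow_one]
    have h3 : L + K' ≤ (L + D) * t := by
      rw [hK']
      nlinarith
    calc Cb * ((L + K') / t ^ 2) * t ≤ Cb * (((L + D) * t) / t ^ 2) * t := by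
          gcongr
      _ = Cb * (L + D) := by
          field_simp
      _ ≤ Cb * (L + D) * t ^ E := le_mul_of_one_le_right (by positivity) hone
  have b4 := b1 (2 * δ / B) (by linarith)
  have b5 := b1 e₂ (by linarith)
  have b6 : ‖Dl B' t‖ ≤ |C₄| * 2 ^ (A + ε) * t ^ E := by
    have e1 := hC₄ t
    rw [abs_of_pos ht0] at e1
    have e2 := DET2_two (v := t) ht1 (by linarith : (0 : ℝ) ≤ A + ε) C₄
    refine (e1.trans e2).trans ?_
    refine mul_le_mul_of_nonneg_left ?_ (by positivity)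
    exact Real.rpow_le_rpow_of_exponent_le ht1 (by linarith)
  have b7 : ‖TRF_S B 0 (TRF_a B' s) t‖ ≤ C₁ * (Cb * Q + Cb * (L + D)) * t ^ E := by
    refine hS1'.trans ?_
    rw [mul_assoc C₁]
    refine mul_le_mul_of_nonneg_left ?_ hC₁0.le
    rw [add_mul]
    linarith
  have b8 : ‖TRF_S B (B' - B) (TRF_a B' s) t‖ ≤ C₂ * (Cb * Q + Cb * (L + D)) * t ^ E := by
    refine hS2'.trans ?_
    rw [mul_assoc C₂]
    refine mul_le_mul_of_nonneg_left ?_ hC₂0.le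
    rw [add_mul]
    linarith
  calc ‖Dl B t‖ = ‖Dl B' t + (TRF_S B (B' - B) (TRF_a B' s) t - TRF_S B 0 (TRF_a B' s) t)‖ := by
        rw [TRF_split hB hB' t]
    _ ≤ ‖Dl B' t‖ + (‖TRF_S B (B' - B) (TRF_a B' s) t‖ + ‖TRF_S B 0 (TRF_a B' s) t‖) :=
        (norm_add_le _ _).trans (add_le_add le_rfl (norm_sub_le _ _))
    _ ≤ |C₄| * 2 ^ (A + ε) * t ^ E + (C₂ * (Cb * Q + Cb * (L + D)) * t ^ E +
        C₁ * (Cb * Q + Cb * (L + D)) * t ^ E) := add_le_add b6 (add_le_add b8 b7)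
    _ = _ := by ring

end Pool.Agent.PertZ
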