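import Pool.Agent.PertZ.Defs7

/-!
# GBK: bound of the parts of the mean by the smoothed sums
-/

set_option autoImplicit false

namespace Pool.Agent.PertZ

open MeasureTheory ProbabilityTheory Set Filter Topology Complex Pool.Agent.CW Pool.Agent.DBN

/-! ### Contour shift -/

/-- the integrable majorant -/
theorem GBK_kern_int {L : ℝ} (hL : 0 < L) : Integrable fun y : ℝ => (1 + (y / L) ^ 2)⁻¹ :=
  integrable_inv_one_add_sq.comp_div hL.ne'

theorem GBK_line_int (f : ℂ → ℂ) (b L M : ℝ) (hL : 0 < L)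
    (hd : ∀ s : ℂ, 0 ≤ s.re → s.re ≤ b → DifferentiableAt ℂ f s)
    (hB : ∀ c y : ℝ, 0 ≤ c → c ≤ b → ‖f (c + Complex.I * y)‖ ≤ M * (1 + (y / L) ^ 2)⁻¹)
    (c : ℝ) (hc : 0 ≤ c) (hcb : c ≤ b) : Integrable fun y : ℝ => f (c + Complex.I * y) := by
  have hcont : Continuous fun y : ℝ => f (c + Complex.I * y) := by
    rw [continuous_iff_continuousAt]
    intro y
    have h1 : ContinuousAt f (c + Complex.I * y) := by
      refine (hd _ ?_ ?_).continuousAt
      · simpa using hc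
      · simpa using hcb
    have h2 : ContinuousAt (fun y : ℝ => (c : ℂ) + Complex.I * y) y := by fun_prop
    exact ContinuousAt.comp (f := fun y : ℝ => (c : ℂ) + Complex.I * y) h1 h2
  refine Integrable.mono' ((GBK_kern_int hL).const_mul M) hcont.aestronglyMeasurable ?_
  filter_upwards with y using hB c y hc hcb

/-- Shift of the contour. -/
theorem GBK_shift (f : ℂ → ℂ) (b L M : ℝ) (hb : 0 ≤ b) (hL : 0 < L)
    (hd : ∀ s : ℂ, 0 ≤ s.re → s.re ≤ b → DifferentiableAt ℂ f s)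
    (hB : ∀ c y : ℝ, 0 ≤ c → c ≤ b → ‖f (c + Complex.I * y)‖ ≤ M * (1 + (y / L) ^ 2)⁻¹) :
    ∫ y : ℝ, f (Complex.I * y) = ∫ y : ℝ, f (b + Complex.I * y) := by
  have hi := GBK_line_int f b L M hL hd hB
  have i0 := hi 0 le_rfl hb
  have ib := hi b hb le_rfl
  have e0 : (fun y : ℝ => f ((0 : ℝ) + Complex.I * y)) = fun y : ℝ => f (Complex.I * y) := by
    funext y
    simp
  rw [e0] at i0
  have t0 := intervalIntegral_tendsto_integral i0 tendsto_neg_atTop_atBot tendsto_id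
  have tb := intervalIntegral_tendsto_integral ib tendsto_neg_atTop_atBot tendsto_id
  have hdiff := (tb.sub t0).norm
  have hz : Tendsto (fun T : ℝ => 2 * (M * (1 + (T / L) ^ 2)⁻¹ * b)) atTop (𝓝 0) := by
    have h1 : Tendsto (fun T : ℝ => (1 + (T / L) ^ 2)⁻¹) atTop (𝓝 0) := by
      refine tendsto_inv_atTop_zero.comp ?_
      refine tendsto_atTop_add_const_left _ _ ?_
      exact (tendsto_pow_atTop two_ne_zero).comp (tendsto_id.atTop_div_const hL)
    have h2 := ((h1.const_mul M).mul_const b).const_mul 2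
    simpa using h2
  have hle : ∀ᶠ T : ℝ in atTop,
      ‖(∫ y in (-T)..(id T), f (b + Complex.I * y)) - ∫ y in (-T)..(id T), f (Complex.I * y)‖
        ≤ 2 * (M * (1 + (T / L) ^ 2)⁻¹ * b) := by
    filter_upwards [eventually_ge_atTop (0 : ℝ)] with T hT
    have hrect := Complex.integral_boundary_rect_eq_zero_of_differentiableOn f
      (⟨0, -T⟩ : ℂ) (⟨b, T⟩ : ℂ) (by
        intro s hs
        rw [Complex.mem_reProdIm] at hs
        simp only at hs
        rw [Set.uIcc_of_le hb] at hs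
        exact (hd s hs.1.1 hs.1.2).differentiableWithinAt)
    simp only [smul_eq_mul] at hrect
    have c1 : (∫ y : ℝ in (-T)..T, f ((b : ℂ) + y * Complex.I)) =
        ∫ y : ℝ in (-T)..T, f (b + Complex.I * y) := by
      refine intervalIntegral.integral_congr fun y _ => ?_
      simp only [mul_comm]
    have c2 : (∫ y : ℝ in (-T)..T, f (((0 : ℝ) : ℂ) + y * Complex.I)) =
        ∫ y : ℝ in (-T)..T, f (Complex.I * y) := by
      refine intervalIntegral.integral_congr fun y _ => ?_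
      simp only [mul_comm, Complex.ofReal_zero, zero_add]
    rw [c1, c2] at hrect
    have hI : Complex.I * ((∫ y : ℝ in (-T)..T, f (b + Complex.I * y)) -
        ∫ y : ℝ in (-T)..T, f (Complex.I * y)) =
        (∫ x : ℝ in (0 : ℝ)..b, f (x + (T : ℝ) * Complex.I)) -
          ∫ x : ℝ in (0 : ℝ)..b, f (x + ((-T : ℝ) : ℂ) * Complex.I) := by
      linear_combination hrect
    have hn : ‖(∫ y : ℝ in (-T)..T, f (b + Complex.I * y)) -
        ∫ y : ℝ in (-T)..T, f (Complex.I * y)‖ =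
        ‖(∫ x : ℝ in (0 : ℝ)..b, f (x + (T : ℝ) * Complex.I)) -
          ∫ x : ℝ in (0 : ℝ)..b, f (x + ((-T : ℝ) : ℂ) * Complex.I)‖ := by
      rw [← hI, norm_mul, Complex.norm_I, one_mul]
    simp only [id]
    rw [hn]
    have b1 : ∀ S : ℝ, S ^ 2 = T ^ 2 → ‖∫ x : ℝ in (0 : ℝ)..b, f (x + (S : ℂ) * Complex.I)‖ ≤
        (M * (1 + (T / L) ^ 2)⁻¹) * |b - 0| := by
      intro S hS
      refine intervalIntegral.norm_integral_le_of_norm_le_const fun x hx => ?_
      rw [Set.uIoc_of_le hb] at hx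
      have h := hB x S hx.1.le hx.2
      rw [div_pow, hS, ← div_pow] at h
      rwa [mul_comm (S : ℂ) Complex.I]
    have h1 := b1 T rfl
    have h2 := b1 (-T) (by ring)
    rw [sub_zero, abs_of_nonneg hb] at h1 h2
    refine (norm_sub_le _ _).trans ?_
    linarith
  have hfin : ‖(∫ y : ℝ, f (b + Complex.I * y)) - ∫ y : ℝ, f (Complex.I * y)‖ ≤ 0 :=
    le_of_tendsto_of_tendsto hdiff hz hle
  have h3 := norm_le_zero_iff.1 hfin
  exact (sub_eq_zero.1 h3).symm

/-! ### The multiplier -/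

/-- the denominator -/
lemma GBK_den {X : ℂ} {T : ℝ} (hT : 2 ≤ T) (hX : |X.im| ≤ X.re) :
    ‖X‖ + T ≤ 4 * ‖X + (1 / 2 + T * I)‖ := by
  have hre : (X + (1 / 2 + T * I)).re = X.re + 1 / 2 := by simp
  have him : (X + (1 / 2 + T * I)).im = X.im + T := by simp
  have h1 : ‖X‖ ≤ 2 * X.re := by
    have h2 := Complex.norm_le_abs_re_add_abs_im X
    have h3 : 0 ≤ X.re := (abs_nonneg _).trans hX
    rw [abs_of_nonneg h3] at h2
    linarith
  have h4 := Complex.abs_re_le_norm (X + (1 / 2 + T * I))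
  have h5 := Complex.abs_im_le_norm (X + (1 / 2 + T * I))
  rw [hre] at h4
  rw [him] at h5
  rcases le_total (T / 2) X.re with h6 | h6
  · have h7 := (le_abs_self (X.re + 1 / 2)).trans h4
    linarith
  · have h7 := (le_abs_self (X.im + T)).trans h5
    have h8 := neg_abs_le X.im
    linarith

lemma GBK_sin_le_cos {θ : ℝ} (h : |θ| ≤ Real.pi / 4) : |Real.sin θ| ≤ Real.cos θ := by
  have h0 := Real.pi_pos
  have h1 : |Real.sin θ| ≤ √2 / 2 := by
    have h2 : |Real.sin θ| = Real.sin |θ| := by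
      rcases le_total 0 θ with h3 | h3
      · rw [abs_of_nonneg h3, abs_of_nonneg]
        apply Real.sin_nonneg_of_nonneg_of_le_pi h3
        rw [abs_of_nonneg h3] at h
        linarith
      · rw [abs_of_nonpos h3, Real.sin_neg, abs_of_nonpos]
        apply Real.sin_nonpos_of_nonpos_of_neg_pi_le h3
        rw [abs_of_nonpos h3] at h
        linarith
    rw [h2, ← Real.sin_pi_div_four]
    apply Real.sin_le_sin_of_le_of_le_pi_div_two
    · have := abs_nonneg θ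
      linarith
    · linarith
    · exact h
  have h4 : √2 / 2 ≤ Real.cos θ := by
    rw [← Real.cos_abs, ← Real.cos_pi_div_four]
    apply Real.cos_le_cos_of_nonneg_of_le_pi (abs_nonneg θ)
    · linarith
    · exact h
  exact h1.trans h4

/-- the multiplier -/
noncomputable def GBK_m (B T : ℝ) (w : ℂ) : ℂ := exp (B * w) / (exp (B * w) + (1 / 2 + T * I))

lemma GBK_X {B : ℝ} {w : ℂ} (hw : |B * w.im| ≤ Real.pi / 4) :
    |(exp (B * w)).im| ≤ (exp (B * w)).re := by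
  have hre : (B * w : ℂ).re = B * w.re := by simp
  have him : (B * w : ℂ).im = B * w.im := by simp
  rw [Complex.exp_re, Complex.exp_im, hre, him, abs_mul, abs_of_pos (Real.exp_pos _)]
  exact mul_le_mul_of_nonneg_left (GBK_sin_le_cos hw) (Real.exp_pos _).le

lemma GBK_ne {B T : ℝ} (hT : 2 ≤ T) {w : ℂ} (hw : |B * w.im| ≤ Real.pi / 4) :
    exp (B * w) + (1 / 2 + T * I) ≠ 0 := by
  intro h
  have h1 := GBK_den hT (GBK_X hw)
  rw [h, norm_zero] at h1
  have := norm_nonneg (exp (B * w))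
  linarith

lemma GBK_m_le {B T : ℝ} (hT : 2 ≤ T) {w : ℂ} (hw : |B * w.im| ≤ Real.pi / 4) :
    ‖GBK_m B T w‖ ≤ 4 * min 1 (Real.exp (B * w.re) / T) := by
  have hT0 : 0 < T := by linarith
  have h1 := GBK_den hT (GBK_X hw)
  have hX : ‖exp (B * w)‖ = Real.exp (B * w.re) := by
    rw [Complex.norm_exp]
    simp
  have h0 : 0 < ‖exp (B * w) + (1 / 2 + T * I)‖ := norm_pos_iff.mpr (GBK_ne hT hw)
  rw [GBK_m, norm_div, div_le_iff₀ h0]
  rw [hX] at h1 ⊢
  have he : 0 < Real.exp (B * w.re) := Real.exp_pos _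
  rcases le_total 1 (Real.exp (B * w.re) / T) with h2 | h2
  · rw [min_eq_left h2]
    linarith
  · rw [min_eq_right h2]
    have h3 : Real.exp (B * w.re) / T * T = Real.exp (B * w.re) := by field_simp
    have h4 : 0 ≤ Real.exp (B * w.re) / T := by positivity
    calc Real.exp (B * w.re) = Real.exp (B * w.re) / T * T := h3.symm
      _ ≤ Real.exp (B * w.re) / T * (4 * ‖exp (B * w) + (1 / 2 + T * I)‖) := by
        apply mul_le_mul_of_nonneg_left _ h4
        linarith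
      _ = _ := by ring

lemma GBK_min {B T u x : ℝ} (hB : 0 ≤ B) (hT : 2 ≤ T) :
    min 1 (Real.exp (B * (u + x)) / T) ≤ min 1 (Real.exp (B * u) / T) * Real.exp (B * |x|) := by
  have hT0 : 0 < T := by linarith
  have h1 : 1 ≤ Real.exp (B * |x|) := Real.one_le_exp (by positivity)
  rcases le_total 1 (Real.exp (B * u) / T) with h2 | h2
  · rw [min_eq_left h2, one_mul]
    exact (min_le_left _ _).trans h1
  · rw [min_eq_right h2]
    refine (min_le_right _ _).trans ?_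
    rw [div_mul_eq_mul_div, ← Real.exp_add]
    apply div_le_div_of_nonneg_right _ hT0.le
    apply Real.exp_le_exp.mpr
    have := mul_le_mul_of_nonneg_left (le_abs_self x) hB
    linarith

/-- the analytic function -/
noncomputable def GBK_h (B T u : ℝ) (z : ℂ) : ℂ := GBK_m B T (u + z) * exp (-z ^ 2 / 8)

/-- the constant -/
noncomputable def GBK_K (B : ℝ) : ℝ := 4 * (Real.exp 1 * Real.exp (4 * B ^ 2))

lemma GBK_K_pos (B : ℝ) : 0 < GBK_K B := by
  unfold GBK_K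
  positivity

lemma GBK_h_le {B T u : ℝ} (hB : 1 / 2 < B) (hT : 2 ≤ T) {z : ℂ}
    (hz : |B * z.im| ≤ Real.pi / 4) :
    ‖GBK_h B T u z‖ ≤ GBK_K B * min 1 (Real.exp (B * u) / T) * Real.exp (-z.re ^ 2 / 16) := by
  have hT0 : 0 < T := by linarith
  have hw : |B * ((u : ℂ) + z).im| ≤ Real.pi / 4 := by simpa using hz
  have h1 := GBK_m_le hT hw
  have h2 : ((u : ℂ) + z).re = u + z.re := by simp
  rw [h2] at h1
  have h3 := GBK_min (u := u) (x := z.re) (by linarith : (0 : ℝ) ≤ B) hT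
  have h4 : ‖exp (-z ^ 2 / 8)‖ = Real.exp ((z.im ^ 2 - z.re ^ 2) / 8) := by
    rw [Complex.norm_exp]
    congr 1
    have : (-z ^ 2 / 8 : ℂ).re = (-(z ^ 2)).re / 8 := by
      have h5 : (-z ^ 2 / 8 : ℂ) = -(z ^ 2) / ((8 : ℝ) : ℂ) := by push_cast; ring
      rw [h5, Complex.div_ofReal_re]
    rw [this, Complex.neg_re, pow_two, Complex.mul_re]
    ring
  have h5 : |z.im| ≤ 2 := by
    rw [abs_mul, abs_of_pos (by linarith : 0 < B)] at hz
    have h6 : 1 / 2 * |z.im| ≤ B * |z.im| := by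
      apply mul_le_mul_of_nonneg_right hB.le (abs_nonneg _)
    have := Real.pi_le_four
    linarith
  have h6 : z.im ^ 2 ≤ 4 := by
    have := abs_le.mp h5
    nlinarith
  have hq : 0 ≤ min 1 (Real.exp (B * u) / T) := by positivity
  rw [GBK_h, norm_mul, h4]
  calc ‖GBK_m B T (u + z)‖ * Real.exp ((z.im ^ 2 - z.re ^ 2) / 8) ≤
        (4 * (min 1 (Real.exp (B * u) / T) * Real.exp (B * |z.re|))) *
          Real.exp ((z.im ^ 2 - z.re ^ 2) / 8) := by
        apply mul_le_mul_of_nonneg_right _ (Real.exp_pos _).le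
        exact h1.trans (mul_le_mul_of_nonneg_left h3 (by norm_num))
    _ = 4 * min 1 (Real.exp (B * u) / T) *
          Real.exp (B * |z.re| + (z.im ^ 2 - z.re ^ 2) / 8) := by
        rw [Real.exp_add]
        ring
    _ ≤ 4 * min 1 (Real.exp (B * u) / T) * Real.exp (1 + 4 * B ^ 2 + -z.re ^ 2 / 16) := by
        apply mul_le_mul_of_nonneg_left _ (by positivity)
        apply Real.exp_le_exp.mpr
        have h7 : |z.re| ^ 2 = z.re ^ 2 := sq_abs _
        nlinarith [sq_nonneg (|z.re| / 4 - 2 * B)]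
    _ = _ := by
        rw [Real.exp_add, Real.exp_add, GBK_K]
        ring

lemma GBK_diff {B T u : ℝ} (hT : 2 ≤ T) {z : ℂ} (hz : |B * z.im| ≤ Real.pi / 4) :
    DifferentiableAt ℂ (GBK_h B T u) z := by
  have hw : |B * ((u : ℂ) + z).im| ≤ Real.pi / 4 := by simpa using hz
  have h1 := GBK_ne (T := T) hT hw
  unfold GBK_h GBK_m
  apply DifferentiableAt.mul
  · apply DifferentiableAt.div
    · fun_prop
    · fun_prop
    · exact h1
  · fun_prop

/-! ### The Fourier transform -/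

lemma GBK_gint : Integrable fun x : ℝ => Real.exp (-x ^ 2 / 16) := by
  have h := integrable_exp_neg_mul_sq (b := 1 / 16) (by norm_num)
  refine h.congr (Eventually.of_forall fun x => ?_)
  show Real.exp (-(1 / 16) * x ^ 2) = Real.exp (-x ^ 2 / 16)
  congr 1
  ring

/-- the integral of the Gaussian -/
noncomputable def GBK_G : ℝ := ∫ x : ℝ, Real.exp (-x ^ 2 / 16)

lemma GBK_G_nonneg : 0 ≤ GBK_G := integral_nonneg fun x => (Real.exp_pos _).le

lemma GBK_h_cont {B T u : ℝ} (hT : 2 ≤ T) : Continuous fun x : ℝ => GBK_h B T u x := by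
  rw [continuous_iff_continuousAt]
  intro x
  have h1 : ContinuousAt (GBK_h B T u) (x : ℂ) := by
    apply (GBK_diff hT _).continuousAt
    have := Real.pi_pos
    rw [Complex.ofReal_im, mul_zero, abs_zero]
    positivity
  exact ContinuousAt.comp (f := fun x : ℝ => (x : ℂ)) h1 Complex.continuous_ofReal.continuousAt

lemma GBK_h_real {B T u : ℝ} (hB : 1 / 2 < B) (hT : 2 ≤ T) (x : ℝ) :
    ‖GBK_h B T u x‖ ≤ GBK_K B * min 1 (Real.exp (B * u) / T) * Real.exp (-x ^ 2 / 16) := by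
  have h := GBK_h_le (u := u) (z := (x : ℂ)) hB hT (by
    have := Real.pi_pos
    rw [Complex.ofReal_im, mul_zero, abs_zero]
    positivity)
  simpa using h

lemma GBK_h_int {B T u : ℝ} (hB : 1 / 2 < B) (hT : 2 ≤ T) :
    Integrable fun x : ℝ => GBK_h B T u x := by
  refine (GBK_gint.const_mul (GBK_K B * min 1 (Real.exp (B * u) / T))).mono'
    (GBK_h_cont hT).aestronglyMeasurable (Eventually.of_forall fun x => ?_)
  exact GBK_h_real hB hT x

/-- the Fourier transform -/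
noncomputable def GBK_F (B T u ξ : ℝ) : ℂ :=
  ∫ x : ℝ, exp (((-2 * Real.pi * x * ξ : ℝ) : ℂ) * I) * GBK_h B T u x

lemma GBK_F_cont {B T u : ℝ} (hB : 1 / 2 < B) (hT : 2 ≤ T) :
    Continuous fun ξ : ℝ => GBK_F B T u ξ := by
  unfold GBK_F
  apply continuous_of_dominated (bound := fun x : ℝ => ‖GBK_h B T u (x : ℂ)‖)
  · intro ξ
    apply Continuous.aestronglyMeasurable
    apply Continuous.mul
    · fun_prop
    · exact GBK_h_cont hT
  · intro ξ
    refine Eventually.of_forall fun x => ?_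
    rw [norm_mul, Complex.norm_exp_ofReal_mul_I, one_mul]
  · exact (GBK_h_int hB hT).norm
  · refine Eventually.of_forall fun x => ?_
    fun_prop

lemma GBK_arg (ε c y : ℝ) : (-(ε : ℂ) * I * (c + I * y)) = ((ε * y : ℝ) : ℂ) + ((-(ε * c) : ℝ) : ℂ) * I := by
  push_cast
  linear_combination (-(ε : ℂ) * y) * Complex.I_sq

lemma GBK_F_aux {B T u ξ ε : ℝ} (hB : 1 / 2 < B) (hT : 2 ≤ T) (hε : ε = 1 ∨ ε = -1)
    (hξ : 0 ≤ ε * ξ) : ‖GBK_F B T u ξ‖ ≤ GBK_K B * min 1 (Real.exp (B * u) / T) * GBK_G *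
      Real.exp (-(2 * Real.pi * (ε * ξ) * (Real.pi / (4 * B)))) := by
  have hB0 : 0 < B := by linarith
  set b : ℝ := Real.pi / (4 * B) with hb
  have hb0 : 0 < b := by positivity
  set q : ℝ := min 1 (Real.exp (B * u) / T) with hq
  have hq0 : 0 ≤ q := by
    have : 0 < T := by linarith
    positivity
  have hε2 : ε ^ 2 = 1 := by rcases hε with h | h <;> rw [h] <;> norm_num
  have hε1 : |ε| = 1 := by rcases hε with h | h <;> rw [h] <;> norm_num
  let f : ℂ → ℂ := fun s => exp ((-2 * Real.pi * ξ : ℝ) * I * (-(ε : ℂ) * I * s)) *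
    GBK_h B T u (-(ε : ℂ) * I * s)
  have him : ∀ c y : ℝ, (-(ε : ℂ) * I * (c + I * y)).im = -(ε * c) := by
    intro c y
    rw [GBK_arg]
    simp
  have hre : ∀ c y : ℝ, (-(ε : ℂ) * I * (c + I * y)).re = ε * y := by
    intro c y
    rw [GBK_arg]
    simp
  have hstrip : ∀ c y : ℝ, 0 ≤ c → c ≤ b → |B * (-(ε : ℂ) * I * (c + I * y)).im| ≤ Real.pi / 4 := by
    intro c y hc hcb
    rw [him, abs_mul, abs_neg, abs_mul, hε1, one_mul, abs_of_nonneg hc, abs_of_pos hB0]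
    calc B * c ≤ B * b := mul_le_mul_of_nonneg_left hcb hB0.le
      _ = Real.pi / 4 := by rw [hb]; field_simp
  have hexp : ∀ c y : ℝ, ‖exp ((-2 * Real.pi * ξ : ℝ) * I * (-(ε : ℂ) * I * (c + I * y)))‖ =
      Real.exp (-(2 * Real.pi * (ε * ξ) * c)) := by
    intro c y
    rw [GBK_arg, Complex.norm_exp]
    congr 1
    simp
    ring
  have hbound : ∀ c y : ℝ, 0 ≤ c → c ≤ b → ‖f (c + I * y)‖ ≤
      GBK_K B * q * Real.exp (-y ^ 2 / 16) * Real.exp (-(2 * Real.pi * (ε * ξ) * c)) := by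
    intro c y hc hcb
    have h1 := GBK_h_le (u := u) hB hT (hstrip c y hc hcb)
    rw [hre, mul_pow, hε2, one_mul] at h1
    show ‖exp _ * _‖ ≤ _
    rw [norm_mul, hexp, mul_comm]
    exact mul_le_mul_of_nonneg_right h1 (Real.exp_pos _).le
  have hdecay : ∀ c : ℝ, 0 ≤ c → Real.exp (-(2 * Real.pi * (ε * ξ) * c)) ≤ 1 := by
    intro c hc
    apply Real.exp_le_one_iff.mpr
    have : 0 ≤ 2 * Real.pi * (ε * ξ) * c := by positivity
    linarith
  have hKq : 0 ≤ GBK_K B * q := mul_nonneg (GBK_K_pos B).le hq0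
  have hshift := GBK_shift f b 4 (GBK_K B * q) hb0.le (by norm_num) (by
      intro s hs hsb
      have h1 : |B * (-(ε : ℂ) * I * s).im| ≤ Real.pi / 4 := by
        have h2 := hstrip s.re s.im hs hsb
        have h3 : (s.re : ℂ) + I * s.im = s := by rw [mul_comm]; exact Complex.re_add_im s
        rwa [h3] at h2
      have h2 := GBK_diff (u := u) hT h1
      apply DifferentiableAt.mul
      · fun_prop
      · exact DifferentiableAt.comp (f := fun s : ℂ => -(ε : ℂ) * I * s) s h2 (by fun_prop))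
    (by
      intro c y hc hcb
      refine (hbound c y hc hcb).trans ?_
      have h1 : Real.exp (-y ^ 2 / 16) ≤ (1 + (y / 4) ^ 2)⁻¹ := by
        have h2 : -y ^ 2 / 16 = -(y ^ 2 / 16) := by ring
        rw [h2, Real.exp_neg]
        apply inv_anti₀ (by positivity)
        have := Real.add_one_le_exp (y ^ 2 / 16)
        calc 1 + (y / 4) ^ 2 = y ^ 2 / 16 + 1 := by ring
          _ ≤ _ := this
      calc GBK_K B * q * Real.exp (-y ^ 2 / 16) * Real.exp (-(2 * Real.pi * (ε * ξ) * c)) ≤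
            GBK_K B * q * Real.exp (-y ^ 2 / 16) * 1 := by
            apply mul_le_mul_of_nonneg_left (hdecay c hc)
            exact mul_nonneg hKq (Real.exp_pos _).le
        _ ≤ _ := by
            rw [mul_one]
            exact mul_le_mul_of_nonneg_left h1 hKq)
  have hF : GBK_F B T u ξ = ∫ y : ℝ, f (I * y) := by
    have h1 : ∀ y : ℝ, f (I * y) =
        exp (((-2 * Real.pi * (ε * y) * ξ : ℝ) : ℂ) * I) * GBK_h B T u ((ε * y : ℝ) : ℂ) := by
      intro y
      have h2 : (-(ε : ℂ) * I * (I * y)) = ((ε * y : ℝ) : ℂ) := by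
        push_cast
        linear_combination (-(ε : ℂ) * y) * Complex.I_sq
      show exp _ * _ = _
      rw [h2]
      congr 2
      push_cast
      ring
    have h3 : (fun y : ℝ => f (I * y)) = fun y : ℝ => (fun x : ℝ =>
        exp (((-2 * Real.pi * x * ξ : ℝ) : ℂ) * I) * GBK_h B T u x) (ε * y) := by
      funext y
      rw [h1]
    rw [h3, Measure.integral_comp_mul_left (fun x : ℝ =>
        exp (((-2 * Real.pi * x * ξ : ℝ) : ℂ) * I) * GBK_h B T u x) ε, abs_inv, hε1, inv_one,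
      one_smul]
    rfl
  rw [hF, hshift]
  have h5 : ‖∫ y : ℝ, f (b + I * y)‖ ≤ ∫ y : ℝ, GBK_K B * q * Real.exp (-y ^ 2 / 16) *
      Real.exp (-(2 * Real.pi * (ε * ξ) * b)) := by
    apply norm_integral_le_of_norm_le
    · exact (GBK_gint.const_mul _).mul_const _
    · exact Eventually.of_forall fun y => hbound b y hb0.le le_rfl
  refine h5.trans (le_of_eq ?_)
  rw [integral_mul_const, integral_const_mul]
  rfl

lemma GBK_F_le {B T u : ℝ} (ξ : ℝ) (hB : 1 / 2 < B) (hT : 2 ≤ T) :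
    ‖GBK_F B T u ξ‖ ≤ GBK_K B * min 1 (Real.exp (B * u) / T) * GBK_G *
      Real.exp (-(2 * Real.pi * |ξ| * (Real.pi / (4 * B)))) := by
  rcases le_total 0 ξ with h | h
  · have h1 := GBK_F_aux (u := u) (ξ := ξ) (ε := 1) hB hT (Or.inl rfl) (by linarith)
    rw [one_mul] at h1
    rwa [abs_of_nonneg h]
  · have h1 := GBK_F_aux (u := u) (ξ := ξ) (ε := -1) hB hT (Or.inr rfl) (by linarith)
    rw [neg_one_mul] at h1
    rwa [abs_of_nonpos h]

lemma GBK_exp_abs {a : ℝ} (ha : 0 < a) : Integrable fun ξ : ℝ => Real.exp (-(a * |ξ|)) := by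
  refine (GBK_kern_int (L := 2 / a) (by positivity)).mono' (by fun_prop)
    (Eventually.of_forall fun ξ => ?_)
  rw [Real.norm_of_nonneg (Real.exp_pos _).le, Real.exp_neg]
  apply inv_anti₀ (by positivity)
  have h1 := Real.quadratic_le_exp_of_nonneg (x := a * |ξ|) (by positivity)
  have h2 : (ξ / (2 / a)) ^ 2 = a ^ 2 * ξ ^ 2 / 4 := by field_simp; ring
  have h3 : (a * |ξ|) ^ 2 = a ^ 2 * ξ ^ 2 := by rw [mul_pow, sq_abs]
  rw [h2]
  rw [h3] at h1
  have h4 : 0 ≤ a * |ξ| := by positivity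
  have h5 : 0 ≤ a ^ 2 * ξ ^ 2 := by positivity
  linarith

lemma GBK_F_int {B T u : ℝ} (hB : 1 / 2 < B) (hT : 2 ≤ T) :
    Integrable fun ξ : ℝ => GBK_F B T u ξ := by
  have hB0 : 0 < B := by linarith
  have h := GBK_exp_abs (a := 2 * Real.pi * (Real.pi / (4 * B))) (by positivity)
  refine (h.const_mul (GBK_K B * min 1 (Real.exp (B * u) / T) * GBK_G)).mono'
    (GBK_F_cont hB hT).aestronglyMeasurable (Eventually.of_forall fun ξ => ?_)
  refine (GBK_F_le ξ hB hT).trans (le_of_eq ?_)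
  congr 2
  ring

lemma GBK_inv {B T u : ℝ} (x : ℝ) (hB : 1 / 2 < B) (hT : 2 ≤ T) :
    GBK_h B T u x = ∫ ξ : ℝ, exp (((2 * Real.pi * ξ * x : ℝ) : ℂ) * I) * GBK_F B T u ξ := by
  set g : ℝ → ℂ := fun x => GBK_h B T u x with hg
  have h1 : FourierTransform.fourier g = fun ξ : ℝ => GBK_F B T u ξ := by
    funext ξ
    rw [Real.fourier_real_eq_integral_exp_smul]
    rfl
  have h2 : Integrable (FourierTransform.fourier g) := by
    rw [h1]
    exact GBK_F_int hB hT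
  have h3 := (GBK_h_int hB hT).fourierInv_fourier_eq h2
    ((GBK_h_cont hT).continuousAt (x := x))
  have h4 : g x = GBK_h B T u x := rfl
  rw [← h4]
  change FourierTransformInv.fourierInv (FourierTransform.fourier g) x = g x at h3
  rw [← h3, Real.fourierInv_eq', h1]
  refine integral_congr_ae (Eventually.of_forall fun ξ => ?_)
  simp only [smul_eq_mul]
  congr 3
  simp
  ring

/-! ### The sums -/

lemma GBK_norm_c (n : ℕ) (T : ℝ) : ‖((n + 1 : ℕ) : ℂ) ^ (-(1 / 2 + T * I) : ℂ)‖ =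
    (n + 1 : ℝ) ^ (-(1 / 2) : ℝ) := by
  have hc' : ((n + 1 : ℕ) : ℂ) = (((n : ℝ) + 1 : ℝ) : ℂ) := by push_cast; ring
  rw [hc', norm_cpow_eq_rpow_re_of_pos (by positivity)]
  congr 1
  simp

lemma GBK_w (u : ℝ) (n : ℕ) : Real.exp (-(Real.log (n + 1 : ℝ) - u) ^ 2 / 8) ≤
    Real.exp (2 + u) * (n + 1 : ℝ)⁻¹ := by
  have hn : (0 : ℝ) < (n : ℝ) + 1 := by positivity
  set x : ℝ := Real.log (n + 1 : ℝ) - u with hx
  have h1 : -x ^ 2 / 8 ≤ (2 + u) + -Real.log (n + 1 : ℝ) := by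
    nlinarith [sq_nonneg (x - 4)]
  calc Real.exp (-x ^ 2 / 8) ≤ Real.exp ((2 + u) + -Real.log (n + 1 : ℝ)) := Real.exp_le_exp.mpr h1
    _ = _ := by rw [Real.exp_add, Real.exp_neg, Real.exp_log hn]

lemma GBK_sum (u : ℝ) : Summable fun n : ℕ =>
    (n + 1 : ℝ) ^ (-(1 / 2) : ℝ) * Real.exp (-(Real.log (n + 1 : ℝ) - u) ^ 2 / 8) := by
  have h1 := (Real.summable_nat_rpow (p := -(3 / 2))).mpr (by norm_num)
  have h2 := (summable_nat_add_iff 1).mpr h1
  refine Summable.of_nonneg_of_le (fun n => by positivity) (fun n => ?_)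
    (h2.mul_left (Real.exp (2 + u)))
  have hn : (0 : ℝ) < (n : ℝ) + 1 := by positivity
  have h3 : (((n + 1 : ℕ) : ℝ)) ^ (-(3 / 2) : ℝ) = (n + 1 : ℝ)⁻¹ * (n + 1 : ℝ) ^ (-(1 / 2) : ℝ) := by
    rw [← Real.rpow_neg_one, ← Real.rpow_add hn]
    push_cast
    norm_num
  rw [h3]
  calc (n + 1 : ℝ) ^ (-(1 / 2) : ℝ) * Real.exp (-(Real.log (n + 1 : ℝ) - u) ^ 2 / 8) ≤
        (n + 1 : ℝ) ^ (-(1 / 2) : ℝ) * (Real.exp (2 + u) * (n + 1 : ℝ)⁻¹) := by
        apply mul_le_mul_of_nonneg_left (GBK_w u n) (by positivity)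
    _ = _ := by ring

lemma GBK_gauss_eq (x y : ℝ) : Real.exp (-y ^ 2 / 4) * Real.exp (-(x - y) ^ 2 / 4) =
    Real.exp (-x ^ 2 / 8) * Real.exp (-(1 / 2) * (y - x / 2) ^ 2) := by
  rw [← Real.exp_add, ← Real.exp_add]
  congr 1
  ring

lemma GBK_gauss_int (x : ℝ) : Integrable fun y : ℝ =>
    Real.exp (-y ^ 2 / 4) * Real.exp (-(x - y) ^ 2 / 4) := by
  simp only [GBK_gauss_eq]
  exact ((integrable_exp_neg_mul_sq (b := 1 / 2) (by norm_num)).comp_sub_right (x / 2)).const_mul _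

lemma GBK_gauss (x : ℝ) : ∫ y : ℝ, Real.exp (-y ^ 2 / 4) * Real.exp (-(x - y) ^ 2 / 4) =
    √(2 * Real.pi) * Real.exp (-x ^ 2 / 8) := by
  simp only [GBK_gauss_eq]
  rw [integral_const_mul, integral_sub_right_eq_self (fun y : ℝ => Real.exp (-(1 / 2) * y ^ 2)) (x / 2),
    integral_gaussian, mul_comm]
  congr 2
  ring

/-- the sum with the wider Gaussian -/
noncomputable def GBK_Z (u T : ℝ) : ℂ := ∑' n : ℕ,
  ((Real.exp (-(Real.log (n + 1 : ℝ) - u) ^ 2 / 8) : ℝ) : ℂ) *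
    ((n + 1 : ℕ) : ℂ) ^ (-(1 / 2 + T * I) : ℂ)

lemma GBK_Z_eq (u T : ℝ) : ((√(2 * Real.pi) : ℝ) : ℂ) * GBK_Z u T =
    ∫ y : ℝ, ((Real.exp (-y ^ 2 / 4) : ℝ) : ℂ) * zsum (Real.exp (u + y)) T := by
  have hx : ∀ (n : ℕ) (y : ℝ), Real.log (((n + 1 : ℕ) : ℝ) / Real.exp (u + y)) =
      Real.log (n + 1 : ℝ) - u - y := by
    intro n y
    rw [Real.log_div (by positivity) (Real.exp_pos _).ne', Real.log_exp]
    push_cast
    ring
  let F : ℕ → ℝ → ℂ := fun n y => (((Real.exp (-y ^ 2 / 4) *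
    Real.exp (-(Real.log (n + 1 : ℝ) - u - y) ^ 2 / 4) : ℝ)) : ℂ) *
    ((n + 1 : ℕ) : ℂ) ^ (-(1 / 2 + T * I) : ℂ)
  have hFint : ∀ n, Integrable (F n) := fun n =>
    ((GBK_gauss_int (Real.log (n + 1 : ℝ) - u)).ofReal).mul_const _
  have hFnorm : ∀ n y, ‖F n y‖ = Real.exp (-y ^ 2 / 4) *
      Real.exp (-(Real.log (n + 1 : ℝ) - u - y) ^ 2 / 4) * (n + 1 : ℝ) ^ (-(1 / 2) : ℝ) := by
    intro n y
    show ‖_ * _‖ = _
    rw [norm_mul, GBK_norm_c, Complex.norm_real, Real.norm_of_nonneg (by positivity)]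
  have hFs : Summable fun n => ∫ y, ‖F n y‖ := by
    have h1 : (fun n => ∫ y, ‖F n y‖) = fun n : ℕ => √(2 * Real.pi) *
        ((n + 1 : ℝ) ^ (-(1 / 2) : ℝ) * Real.exp (-(Real.log (n + 1 : ℝ) - u) ^ 2 / 8)) := by
      funext n
      simp only [hFnorm]
      rw [integral_mul_const, GBK_gauss]
      ring
    rw [h1]
    exact (GBK_sum u).mul_left _
  have h := hasSum_integral_of_summable_integral_norm hFint hFs
  have h1 : (fun n => ∫ y, F n y) = fun n : ℕ => ((√(2 * Real.pi) : ℝ) : ℂ) *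
      (((Real.exp (-(Real.log (n + 1 : ℝ) - u) ^ 2 / 8) : ℝ) : ℂ) *
        ((n + 1 : ℕ) : ℂ) ^ (-(1 / 2 + T * I) : ℂ)) := by
    funext n
    show ∫ y : ℝ, _ * _ = _
    rw [integral_mul_const, integral_complex_ofReal, GBK_gauss]
    push_cast
    ring
  have h2 : (fun y => ∑' n, F n y) = fun y : ℝ =>
      ((Real.exp (-y ^ 2 / 4) : ℝ) : ℂ) * zsum (Real.exp (u + y)) T := by
    funext y
    rw [zsum, ← tsum_mul_left]
    refine tsum_congr fun n => ?_
    show _ * _ = _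
    rw [hx]
    push_cast
    ring
  rw [h1, h2] at h
  rw [← h.tsum_eq, tsum_mul_left]
  rfl

lemma GBK_gc (c : ℝ) : Integrable fun y : ℝ => Real.exp (-y ^ 2 / 4) * Real.exp (c * |y|) := by
  have h := (integrable_exp_neg_mul_sq (b := 1 / 8) (by norm_num)).const_mul (Real.exp (2 * c ^ 2))
  refine h.mono' (by fun_prop) (Eventually.of_forall fun y => ?_)
  rw [Real.norm_of_nonneg (by positivity), ← Real.exp_add, ← Real.exp_add]
  apply Real.exp_le_exp.mpr
  have h7 : |y| ^ 2 = y ^ 2 := sq_abs _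
  nlinarith [sq_nonneg (|y| - 4 * c)]

lemma GBK_Z_le {c u T M : ℝ}
    (h : ∀ y : ℝ, ‖zsum (Real.exp (u + y)) T‖ ≤ M * Real.exp (c * |y|)) :
    ‖GBK_Z u T‖ ≤ M * ∫ y : ℝ, Real.exp (-y ^ 2 / 4) * Real.exp (c * |y|) := by
  have h1 : ‖GBK_Z u T‖ ≤ ‖((√(2 * Real.pi) : ℝ) : ℂ) * GBK_Z u T‖ := by
    rw [norm_mul, Complex.norm_real, Real.norm_of_nonneg (Real.sqrt_nonneg _)]
    have h2 : 1 ≤ √(2 * Real.pi) := by
      rw [Real.one_le_sqrt]
      have := Real.pi_gt_three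
      linarith
    calc ‖GBK_Z u T‖ = 1 * ‖GBK_Z u T‖ := (one_mul _).symm
      _ ≤ _ := mul_le_mul_of_nonneg_right h2 (norm_nonneg _)
  refine h1.trans ?_
  rw [GBK_Z_eq, ← integral_const_mul]
  apply norm_integral_le_of_norm_le
  · exact (GBK_gc c).const_mul M
  · refine Eventually.of_forall fun y => ?_
    rw [norm_mul, Complex.norm_real, Real.norm_of_nonneg (Real.exp_pos _).le]
    calc Real.exp (-y ^ 2 / 4) * ‖zsum (Real.exp (u + y)) T‖ ≤
          Real.exp (-y ^ 2 / 4) * (M * Real.exp (c * |y|)) :=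
          mul_le_mul_of_nonneg_left (h y) (Real.exp_pos _).le
      _ = _ := by ring

lemma GBK_pow (n : ℕ) (T ξ : ℝ) : ((n + 1 : ℕ) : ℂ) ^ (-(1 / 2 + ((T - 2 * Real.pi * ξ : ℝ) : ℂ) * I) : ℂ) =
    ((n + 1 : ℕ) : ℂ) ^ (-(1 / 2 + T * I) : ℂ) *
      exp (((2 * Real.pi * ξ * Real.log (n + 1 : ℝ) : ℝ) : ℂ) * I) := by
  have hn : ((n + 1 : ℕ) : ℂ) ≠ 0 := by exact_mod_cast Nat.succ_ne_zero n
  have hlog : Complex.log ((n + 1 : ℕ) : ℂ) = ((Real.log (n + 1 : ℝ) : ℝ) : ℂ) := by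
    rw [Complex.ofReal_log (by positivity)]
    push_cast
    rfl
  rw [Complex.cpow_def_of_ne_zero hn, Complex.cpow_def_of_ne_zero hn, hlog, ← Complex.exp_add]
  congr 1
  push_cast
  ring

lemma GBK_blk {B T : ℝ} (u : ℝ) (hB : 1 / 2 < B) (hT : 2 ≤ T) : blk B T u =
    ∫ ξ : ℝ, GBK_F B T u ξ * exp (((-(2 * Real.pi * ξ * u) : ℝ) : ℂ) * I) *
      GBK_Z u (T - 2 * Real.pi * ξ) := by
  let G : ℕ → ℝ → ℂ := fun n ξ => GBK_F B T u ξ * exp (((-(2 * Real.pi * ξ * u) : ℝ) : ℂ) * I) *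
    (((Real.exp (-(Real.log (n + 1 : ℝ) - u) ^ 2 / 8) : ℝ) : ℂ) *
      ((n + 1 : ℕ) : ℂ) ^ (-(1 / 2 + ((T - 2 * Real.pi * ξ : ℝ) : ℂ) * I) : ℂ))
  have hGnorm : ∀ n ξ, ‖G n ξ‖ = ‖GBK_F B T u ξ‖ *
      ((n + 1 : ℝ) ^ (-(1 / 2) : ℝ) * Real.exp (-(Real.log (n + 1 : ℝ) - u) ^ 2 / 8)) := by
    intro n ξ
    show ‖_ * _‖ = _
    rw [norm_mul, norm_mul, norm_mul, GBK_norm_c, Complex.norm_exp_ofReal_mul_I, mul_one,
      Complex.norm_real, Real.norm_of_nonneg (Real.exp_pos _).le]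
    ring
  have hGform : ∀ n ξ, G n ξ = (((n + 1 : ℕ) : ℂ) ^ (-(1 / 2 + T * I) : ℂ) *
      ((Real.exp (-(Real.log (n + 1 : ℝ) - u) ^ 2 / 8) : ℝ) : ℂ)) *
      (exp (((2 * Real.pi * ξ * (Real.log (n + 1 : ℝ) - u) : ℝ) : ℂ) * I) * GBK_F B T u ξ) := by
    intro n ξ
    show _ * _ = _
    rw [GBK_pow]
    have h1 : exp (((2 * Real.pi * ξ * (Real.log (n + 1 : ℝ) - u) : ℝ) : ℂ) * I) =
        exp (((2 * Real.pi * ξ * Real.log (n + 1 : ℝ) : ℝ) : ℂ) * I) *
          exp (((-(2 * Real.pi * ξ * u) : ℝ) : ℂ) * I) := by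
      rw [← Complex.exp_add]
      congr 1
      push_cast
      ring
    rw [h1]
    ring
  have hGint : ∀ n, Integrable (G n) := by
    intro n
    have hc : Continuous (G n) := by
      have h1 : G n = fun ξ => (((n + 1 : ℕ) : ℂ) ^ (-(1 / 2 + T * I) : ℂ) *
        ((Real.exp (-(Real.log (n + 1 : ℝ) - u) ^ 2 / 8) : ℝ) : ℂ)) *
        (exp (((2 * Real.pi * ξ * (Real.log (n + 1 : ℝ) - u) : ℝ) : ℂ) * I) * GBK_F B T u ξ) :=
        funext fun ξ => hGform n ξ
      rw [h1]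
      apply Continuous.mul continuous_const
      apply Continuous.mul
      · fun_prop
      · exact GBK_F_cont hB hT
    refine ((GBK_F_int (u := u) hB hT).norm.mul_const
      ((n + 1 : ℝ) ^ (-(1 / 2) : ℝ) * Real.exp (-(Real.log (n + 1 : ℝ) - u) ^ 2 / 8))).mono'
      hc.aestronglyMeasurable (Eventually.of_forall fun ξ => ?_)
    rw [hGnorm]
  have hGs : Summable fun n => ∫ ξ, ‖G n ξ‖ := by
    have h1 : (fun n => ∫ ξ, ‖G n ξ‖) = fun n : ℕ => (∫ ξ, ‖GBK_F B T u ξ‖) *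
        ((n + 1 : ℝ) ^ (-(1 / 2) : ℝ) * Real.exp (-(Real.log (n + 1 : ℝ) - u) ^ 2 / 8)) := by
      funext n
      simp only [hGnorm]
      rw [integral_mul_const]
    rw [h1]
    exact (GBK_sum u).mul_left _
  have h := hasSum_integral_of_summable_integral_norm hGint hGs
  have h2 : (fun ξ => ∑' n, G n ξ) = fun ξ : ℝ =>
      GBK_F B T u ξ * exp (((-(2 * Real.pi * ξ * u) : ℝ) : ℂ) * I) *
      GBK_Z u (T - 2 * Real.pi * ξ) := by
    funext ξ
    rw [GBK_Z, ← tsum_mul_left]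
  rw [h2] at h
  set S : ℂ := ∫ ξ : ℝ, GBK_F B T u ξ * exp (((-(2 * Real.pi * ξ * u) : ℝ) : ℂ) * I) *
      GBK_Z u (T - 2 * Real.pi * ξ) with hS
  let f : ℕ → ℂ := fun n => one' n * (n : ℂ) ^ (-(1 / 2 + T * I)) *
    ((((n : ℝ) ^ B : ℝ) : ℂ) / ((((n : ℝ) ^ B : ℝ) : ℂ) + (1 / 2 + T * I))) *
    ((Real.exp (-(Real.log n - u) ^ 2 / 4) : ℝ) : ℂ)
  have hf : (fun n => ∫ ξ, G n ξ) = fun n => f (n + 1) := by
    funext n
    have h3 : ∫ ξ, G n ξ = (((n + 1 : ℕ) : ℂ) ^ (-(1 / 2 + T * I) : ℂ) *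
        ((Real.exp (-(Real.log (n + 1 : ℝ) - u) ^ 2 / 8) : ℝ) : ℂ)) *
        GBK_h B T u ((Real.log (n + 1 : ℝ) - u : ℝ) : ℂ) := by
      simp only [hGform]
      rw [integral_const_mul, ← GBK_inv _ hB hT]
    rw [h3]
    have hn : (0 : ℝ) < (n : ℝ) + 1 := by positivity
    have h4 : one' (n + 1) = 1 := by simp [one']
    have h5 : (((((n + 1 : ℕ) : ℝ)) ^ B : ℝ) : ℂ) =
        exp ((B : ℂ) * ((u : ℂ) + ((Real.log (n + 1 : ℝ) - u : ℝ) : ℂ))) := by
      have h6 : (B : ℂ) * ((u : ℂ) + ((Real.log (n + 1 : ℝ) - u : ℝ) : ℂ)) =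
          ((Real.log (n + 1 : ℝ) * B : ℝ) : ℂ) := by
        push_cast
        ring
      rw [h6, ← Complex.ofReal_exp, Real.rpow_def_of_pos (by exact_mod_cast Nat.succ_pos n)]
      push_cast
      rfl
    show _ = one' (n + 1) * ((n + 1 : ℕ) : ℂ) ^ (-(1 / 2 + T * I)) * _ * _
    rw [h4, h5, GBK_h, GBK_m]
    have h7 : ((Real.exp (-(Real.log ((n + 1 : ℕ) : ℝ) - u) ^ 2 / 4) : ℝ) : ℂ) =
        ((Real.exp (-(Real.log (n + 1 : ℝ) - u) ^ 2 / 8) : ℝ) : ℂ) *
          exp (-((Real.log (n + 1 : ℝ) - u : ℝ) : ℂ) ^ 2 / 8) := by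
      rw [Complex.ofReal_exp, Complex.ofReal_exp, ← Complex.exp_add]
      congr 1
      push_cast
      ring
    rw [h7]
    ring
  rw [hf] at h
  have h8 := (hasSum_nat_add_iff 1).mp h
  have h9 : f 0 = 0 := by simp [f, one']
  rw [Finset.sum_range_one, h9, add_zero] at h8
  exact h8.tsum_eq

theorem p_GBK : P_GBK := by
  intro B hB
  have hB0 : 0 < B := by linarith
  refine ⟨Real.pi / (8 * B), by positivity, ?_⟩
  intro c hc
  set J : ℝ := ∫ y : ℝ, Real.exp (-y ^ 2 / 4) * Real.exp (c * |y|) with hJ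
  have hJ0 : 0 ≤ J := integral_nonneg fun y => by positivity
  set τ : ℝ := Real.pi / (8 * B) with hτ
  have hτ0 : 0 < τ := by positivity
  set E : ℝ := ∫ ξ : ℝ, Real.exp (-(2 * Real.pi * τ * |ξ|)) with hE
  have hE0 : 0 ≤ E := integral_nonneg fun y => by positivity
  have hK := GBK_K_pos B
  have hG := GBK_G_nonneg
  refine ⟨GBK_K B * GBK_G * J * E + 1, by positivity, ?_⟩
  intro T u M hT hM h
  have hT0 : 0 < T := by linarith
  set q : ℝ := min 1 (Real.exp (B * u) / T) with hq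
  have hq0 : 0 ≤ q := by positivity
  have h1 : ‖blk B T u‖ ≤ ∫ ξ : ℝ, GBK_K B * q * GBK_G * (M * J) *
      Real.exp (-(2 * Real.pi * τ * |ξ|)) := by
    rw [GBK_blk u hB hT]
    apply norm_integral_le_of_norm_le
    · exact (GBK_exp_abs (by positivity)).const_mul _
    · refine Eventually.of_forall fun ξ => ?_
      have h2 := GBK_Z_le (c := c) (u := u) (T := T - 2 * Real.pi * ξ)
        (M := M * Real.exp (τ * |2 * Real.pi * ξ|)) (fun y => by
          refine (h (2 * Real.pi * ξ) y).trans (le_of_eq ?_)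
          ring)
      rw [← hJ] at h2
      have h3 := GBK_F_le (u := u) ξ hB hT
      rw [← hq] at h3
      rw [norm_mul, norm_mul, Complex.norm_exp_ofReal_mul_I, mul_one]
      calc ‖GBK_F B T u ξ‖ * ‖GBK_Z u (T - 2 * Real.pi * ξ)‖ ≤
            (GBK_K B * q * GBK_G * Real.exp (-(2 * Real.pi * |ξ| * (Real.pi / (4 * B))))) *
              (M * Real.exp (τ * |2 * Real.pi * ξ|) * J) :=
            mul_le_mul h3 h2 (norm_nonneg _) (by positivity)
        _ = GBK_K B * q * GBK_G * (M * J) * (Real.exp (-(2 * Real.pi * |ξ| * (Real.pi / (4 * B)))) *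
              Real.exp (τ * |2 * Real.pi * ξ|)) := by ring
        _ = _ := by
            rw [← Real.exp_add]
            congr 2
            rw [abs_mul, abs_of_pos (by positivity : (0 : ℝ) < 2 * Real.pi), hτ]
            field_simp
            ring
  rw [integral_const_mul, ← hE] at h1
  refine h1.trans ?_
  have h4 : 0 ≤ q * M := mul_nonneg hq0 hM
  calc GBK_K B * q * GBK_G * (M * J) * E = (GBK_K B * GBK_G * J * E) * (q * M) := by ring
    _ ≤ (GBK_K B * GBK_G * J * E + 1) * (q * M) := by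
        apply mul_le_mul_of_nonneg_right _ h4
        linarith
    _ = _ := by ring

end Pool.Agent.PertZ
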