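import Pool.Agent.PertZ.Defs7
import Pool.Agent.PertZ.TRF

/-!
# Block GSF: from the mean to the smoothed sums
-/

set_option autoImplicit false

namespace Pool.Agent.PertZ

open MeasureTheory ProbabilityTheory Set Filter Topology Complex Pool.Agent.CW Pool.Agent.DBN

theorem GSF_gw_nonneg {b N : ℝ} (hN : 0 < N) (n : ℕ) : 0 ≤ gw b N n := by
  unfold gw
  positivity

theorem GSF_gw_le {b N : ℝ} (hN : 0 < N) {n : ℕ} (hn : 1 ≤ n) :
    gw b N n ≤ Real.exp ((1 - b) ^ 2) * (N / n) := by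
  have hn0 : (0 : ℝ) < n := by exact_mod_cast hn
  obtain ⟨x, hx⟩ : ∃ x : ℝ, x = Real.log (n / N) := ⟨_, rfl⟩
  have h1 : N / n = Real.exp (-x) := by
    rw [hx, Real.exp_neg, Real.exp_log (by positivity), inv_div]
  unfold gw
  rw [← hx, h1, ← Real.exp_mul, ← Real.exp_add, ← Real.exp_add, Real.exp_le_exp]
  nlinarith [sq_nonneg (x / 2 - (1 - b))]

theorem GSF_bd {b N : ℝ} (hN : 0 < N) {a : ℕ → ℂ} (h0 : a 0 = 0) (ha : ∀ n, ‖a n‖ ≤ 1) (T : ℝ)
    (n : ℕ) : ‖a n * (n : ℂ) ^ (-(((1 / 2 : ℝ) : ℂ) + T * I)) * ((gw b N n : ℝ) : ℂ)‖ ≤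
      Real.exp ((1 - b) ^ 2) * N * (n : ℝ) ^ (-(3 / 2) : ℝ) := by
  rcases Nat.eq_zero_or_pos n with rfl | hn
  · rw [h0]
    simp only [zero_mul, norm_zero]
    positivity
  · have hn0 : (0 : ℝ) < n := by exact_mod_cast hn
    rw [norm_mul, norm_mul, Complex.norm_real, Real.norm_of_nonneg (GSF_gw_nonneg hN n)]
    have h1 : ‖(n : ℂ) ^ (-(((1 / 2 : ℝ) : ℂ) + T * I))‖ ≤ (n : ℝ) ^ (-(1 / 2 : ℝ)) :=
      SMA_.norm_pow_le (by simp) hn
    have h2 := GSF_gw_le (b := b) hN hn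
    have h3 := GSF_gw_nonneg (b := b) hN n
    calc ‖a n‖ * ‖(n : ℂ) ^ (-(((1 / 2 : ℝ) : ℂ) + T * I))‖ * gw b N n
        ≤ 1 * (n : ℝ) ^ (-(1 / 2 : ℝ)) * (Real.exp ((1 - b) ^ 2) * (N / n)) := by
          gcongr
          exact ha n
      _ = Real.exp ((1 - b) ^ 2) * N * ((n : ℝ) ^ (-(1 / 2 : ℝ)) * (n : ℝ) ^ (-1 : ℝ)) := by
          rw [Real.rpow_neg_one]
          ring
      _ = _ := by
          rw [← Real.rpow_add hn0]
          norm_num

theorem GSF_sum {b N : ℝ} (hN : 0 < N) {a : ℕ → ℂ} (h0 : a 0 = 0) (ha : ∀ n, ‖a n‖ ≤ 1)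
    (T : ℝ) : Summable fun n : ℕ =>
      a n * (n : ℂ) ^ (-(((1 / 2 : ℝ) : ℂ) + T * I)) * ((gw b N n : ℝ) : ℂ) :=
  Summable.of_norm_bounded
    ((Real.summable_nat_rpow (p := -(3 / 2)).2 (by norm_num)).mul_left _)
    (GSF_bd hN h0 ha T)

theorem GSF_zsum {N : ℝ} (hN : 0 < N) (T : ℝ) : zsum N T = ∑' n : ℕ,
    one' n * (n : ℂ) ^ (-(((1 / 2 : ℝ) : ℂ) + T * I)) * ((gw 0 N n : ℝ) : ℂ) := by
  rw [(GSF_sum (b := 0) hN (by simp [one']) SBD_.norm_one' T).tsum_eq_zero_add]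
  have h1 : one' 0 = 0 := by simp [one']
  rw [h1]
  simp only [zero_mul, zero_add]
  unfold zsum
  refine tsum_congr fun n => ?_
  have h2 : one' (n + 1) = 1 := by simp [one']
  have h3 : gw 0 N (n + 1) = Real.exp (-(Real.log ((n + 1 : ℕ) / N)) ^ 2 / 4) := by
    unfold gw
    rw [Real.rpow_zero, one_mul]
  have h4 : (((1 / 2 : ℝ) : ℂ) + T * I) = 1 / 2 + T * I := by push_cast; ring
  rw [h2, h3, h4]
  ring

theorem GSF_one {B N : ℝ} (hN : 0 < N) {s : ℂ} (hs : 0 ≤ s.re) (w : ℂ) (n : ℕ) :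
    one' n * w * ((gw 0 N n : ℝ) : ℂ) = TRF_a B s n * w * ((gw 0 N n : ℝ) : ℂ) +
      (s * ((N ^ (-B) : ℝ) : ℂ)) * (TRF_a B s n * w * ((gw B N n : ℝ) : ℂ)) := by
  rcases Nat.eq_zero_or_pos n with rfl | hn
  · simp [one', TRF_a]
  · have hn0 : (0 : ℝ) < n := by exact_mod_cast hn
    have h3 := TRF_ne B hn hs
    have hx : (0 : ℝ) < (n : ℝ) ^ B := Real.rpow_pos_of_pos hn0 _
    have hx' : (((n : ℝ) ^ B : ℝ) : ℂ) ≠ 0 := by exact_mod_cast hx.ne'
    have h4 : gw B N n = N ^ B * ((n : ℝ) ^ B)⁻¹ * gw 0 N n := by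
      unfold gw
      rw [Real.rpow_zero, one_mul, Real.div_rpow hN.le hn0.le]
      ring
    have h5 : (((N ^ (-B) : ℝ) : ℂ)) * ((N ^ B : ℝ) : ℂ) = 1 := by
      rw [← Complex.ofReal_mul, ← Real.rpow_add hN]
      simp
    have h6 : TRF_a B s n * (1 + s * ((((n : ℝ) ^ B)⁻¹ : ℝ) : ℂ)) = one' n := by
      unfold TRF_a
      rw [Complex.ofReal_inv]
      field_simp
    rw [h4]
    calc one' n * w * ((gw 0 N n : ℝ) : ℂ)
        = TRF_a B s n * (1 + s * ((((n : ℝ) ^ B)⁻¹ : ℝ) : ℂ)) * w * ((gw 0 N n : ℝ) : ℂ) := by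
          rw [h6]
      _ = TRF_a B s n * w * ((gw 0 N n : ℝ) : ℂ) + s * ((((N ^ (-B) : ℝ) : ℂ)) *
          ((N ^ B : ℝ) : ℂ)) * (TRF_a B s n * w * (((((n : ℝ) ^ B)⁻¹ : ℝ) : ℂ) *
          ((gw 0 N n : ℝ) : ℂ))) := by
          rw [h5]
          ring
      _ = _ := by
          push_cast
          ring

theorem GSF_an {B' : ℝ} {s z : ℂ} (hs : 0 ≤ s.re) (hz : 1 - B' < z.re) :
    AnalyticAt ℂ (TRF_g B' s) z := by
  obtain ⟨c, hc1, hc2⟩ := exists_between hz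
  set U : Set ℂ := {w : ℂ | c < w.re} with hU
  have hUo : IsOpen U := isOpen_lt continuous_const Complex.continuous_re
  have hd : DifferentiableOn ℂ (TRF_g B' s) U := by
    refine differentiableOn_tsum_of_summable_norm
      (SMA_.summ (c := c + B') (by linarith)) ?_ hUo ?_
    · intro n
      rcases Nat.eq_zero_or_pos n with rfl | hn
      · simp only [one', if_true, zero_mul, zero_div]
        exact differentiableOn_const _
      · intro w _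
        have hn0 : (n : ℂ) ≠ 0 := by exact_mod_cast (Nat.pos_iff_ne_zero.1 hn)
        refine DifferentiableAt.differentiableWithinAt ?_
        refine DifferentiableAt.div_const ?_ _
        refine DifferentiableAt.const_mul ?_ _
        exact DifferentiableAt.const_cpow (differentiableAt_id.neg) (Or.inl hn0)
    · intro n w hw
      exact TRF_term B' hs (le_of_lt hw) n
  exact hd.analyticAt (hUo.mem_nhds hc2)

theorem GSF_exp {T : ℝ} (hT : 1 ≤ T) : T ^ 3 * Real.exp (-T ^ 2 / 8) ≤ 128 := by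
  have h1 : (T ^ 2 / 8) ^ 2 / 2 ≤ Real.exp (T ^ 2 / 8) := by
    have := Real.quadratic_le_exp_of_nonneg (x := T ^ 2 / 8) (by positivity)
    have h2 : 0 ≤ T ^ 2 / 8 := by positivity
    linarith
  have h3 : Real.exp (-T ^ 2 / 8) = (Real.exp (T ^ 2 / 8))⁻¹ := by
    rw [← Real.exp_neg]
    congr 1
    ring
  rw [h3, ← div_eq_mul_inv, div_le_iff₀ (Real.exp_pos _)]
  have h4 : T ^ 3 ≤ T ^ 4 := pow_le_pow_right₀ hT (by norm_num)
  nlinarith

/-- the main bound -/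
theorem GSF_main (hG : P_BLG) (hZ : P_ZST) {B A : ℝ} (hB : 1 / 2 < B)
    (hA0 : 0 ≤ A) (hE : ExpLe A (Dl B)) {ε : ℝ} (hε : 0 < ε) (b : ℝ) :
    ∃ C : ℝ, 0 ≤ C ∧ ∀ T N : ℝ, 2 ≤ T → 0 < N → N ≤ T ^ 2 →
      ‖∑' n : ℕ, TRF_a B (((1 / 2 : ℝ) : ℂ) + T * I) n *
        (n : ℂ) ^ (-(((1 / 2 : ℝ) : ℂ) + T * I)) * ((gw b N n : ℝ) : ℂ)‖ ≤ C * T ^ (A + ε) := by
  obtain ⟨Cb, hCb0, hCb⟩ := hG b 0 1 zero_lt_one
  obtain ⟨Cz, hCz⟩ := hZ.2.1 (1 / 2) (by norm_num)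
  obtain ⟨C₄, hC₄⟩ := hE ε hε
  set Cs : ℝ := ∑' n : ℕ, (n : ℝ) ^ (-(1 / 2 + B)) with hCs
  have hCs0 : 0 ≤ Cs := tsum_nonneg fun n => Real.rpow_nonneg (Nat.cast_nonneg _) _
  set L : ℝ := ∑' n : ℕ, ‖one' n‖ * (n : ℝ) ^ (-(1 / 2 + 1 : ℝ)) with hLd
  have hL0 : 0 ≤ L := tsum_nonneg fun n => by positivity
  set D : ℝ := |Cz| * 3 + 2 * Cs with hD
  have hD0 : 0 ≤ D := by positivity
  refine ⟨Cb * ((|C₄| * 2 ^ (A + ε) * 2 ^ (A + ε) + Cs) + 256 * (L + D)), by positivity, ?_⟩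
  intro T N hT hN hNT
  have hT0 : 0 < T := by linarith
  have hT1 : 1 ≤ T := by linarith
  obtain ⟨s, hs⟩ : ∃ s : ℂ, s = ((1 / 2 : ℝ) : ℂ) + T * I := ⟨_, rfl⟩
  rw [← hs]
  have hsre : s.re = 1 / 2 := by simp [hs]
  have hs0 : 0 ≤ s.re := by rw [hsre]; norm_num
  have hsn : ‖s‖ ≤ 2 * T := by
    calc ‖s‖ ≤ ‖((1 / 2 : ℝ) : ℂ)‖ + ‖(T * I : ℂ)‖ := by
          rw [hs]
          exact norm_add_le _ _
      _ ≤ 2 * T := by
        rw [norm_mul, Complex.norm_I, mul_one, Complex.norm_real, Complex.norm_real,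
          Real.norm_eq_abs, Real.norm_eq_abs, abs_of_pos hT0, abs_of_pos (by norm_num)]
        linarith
  set K' : ℝ := D * T with hK'
  have hK'0 : 0 ≤ K' := by positivity
  set K₀ : ℝ := |C₄| * 2 ^ (A + ε) * (2 * T) ^ (A + ε) with hK₀
  have hK₀0 : 0 ≤ K₀ := by positivity
  have ha0 : TRF_a B s 0 = 0 := by simp [TRF_a, one']
  have hterm : ∀ n : ℕ, ‖TRF_a B s n‖ * (n : ℝ) ^ (-(1 / 2 + 1 : ℝ)) ≤
      ‖one' n‖ * (n : ℝ) ^ (-(1 / 2 + 1 : ℝ)) := by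
    intro n
    refine mul_le_mul_of_nonneg_right ?_ (Real.rpow_nonneg (Nat.cast_nonneg _) _)
    unfold TRF_a
    rw [norm_mul]
    exact mul_le_of_le_one_right (norm_nonneg _) (TRF_quot B n hs0)
  have hsum2 := SBD_.summ (p := 1 / 2 + 1) (by norm_num)
  have hsum : Summable (fun n : ℕ => ‖TRF_a B s n‖ * (n : ℝ) ^ (-(1 / 2 + 1 : ℝ))) :=
    Summable.of_nonneg_of_le (fun n => by positivity) hterm hsum2
  have h1 := hCb (TRF_a B s) (1 / 2) L K₀ Cs K' T N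
    (fun z => riemannZeta z - s * TRF_g B s z) hT hN hK₀0 hCs0 hK'0 ha0 hsum
    (hsum.tsum_le_tsum hterm hsum2) ?_ ?_ ?_
  · rw [← hs] at h1
    refine h1.trans ?_
    rw [Real.rpow_zero, Real.rpow_one, mul_one, mul_assoc Cb]
    refine mul_le_mul_of_nonneg_left ?_ hCb0.le
    have hTe : 1 ≤ T ^ (A + ε) := Real.one_le_rpow hT1 (by linarith)
    have e1 : K₀ + Cs ≤ (|C₄| * 2 ^ (A + ε) * 2 ^ (A + ε) + Cs) * T ^ (A + ε) := by
      rw [hK₀, Real.mul_rpow (by norm_num) hT0.le]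
      nlinarith
    have e2 : (1 + N) * (L + K') * Real.exp (-T ^ 2 / 8) ≤ 256 * (L + D) := by
      have e3 : L + K' ≤ (L + D) * T := by
        rw [hK']
        nlinarith
      have e4 : 1 + N ≤ 2 * T ^ 2 := by nlinarith
      calc (1 + N) * (L + K') * Real.exp (-T ^ 2 / 8)
          ≤ (2 * T ^ 2) * ((L + D) * T) * Real.exp (-T ^ 2 / 8) := by gcongr
        _ = 2 * (L + D) * (T ^ 3 * Real.exp (-T ^ 2 / 8)) := by ring
        _ ≤ 2 * (L + D) * 128 := by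
          gcongr
          exact GSF_exp hT1
        _ = _ := by ring
    have e5 : 256 * (L + D) ≤ 256 * (L + D) * T ^ (A + ε) :=
      le_mul_of_one_le_right (by positivity) hTe
    calc K₀ + Cs + (1 + N) * (L + K') * Real.exp (-T ^ 2 / 8)
        ≤ (|C₄| * 2 ^ (A + ε) * 2 ^ (A + ε) + Cs) * T ^ (A + ε) +
          256 * (L + D) * T ^ (A + ε) := by linarith
      _ = _ := by ring
  · intro z h1 h2 h3 h4
    have hz1 : z ≠ 1 := by
      rintro rfl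
      simp at h3
      linarith
    refine ⟨(DET2_zana hz1).sub (analyticAt_const.mul (GSF_an hs0 (by linarith))), ?_⟩
    have e1 : ‖riemannZeta z‖ ≤ |Cz| * (3 * T) := by
      have h5 := hCz z (by linarith) (by linarith) (by linarith)
      rw [show (1 / 2 + 1 / 2 : ℝ) = 1 by norm_num, Real.rpow_one] at h5
      exact h5.trans (mul_le_mul (le_abs_self _) (by linarith) (by linarith) (abs_nonneg _))
    have e2 : ‖s * TRF_g B s z‖ ≤ 2 * T * Cs := by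
      rw [norm_mul]
      exact mul_le_mul hsn (TRF_g_le hB hs0 (by linarith)) (norm_nonneg _) (by linarith)
    calc ‖riemannZeta z - s * TRF_g B s z‖ ≤ ‖riemannZeta z‖ + ‖s * TRF_g B s z‖ :=
          norm_sub_le _ _
      _ ≤ |Cz| * (3 * T) + 2 * T * Cs := add_le_add e1 e2
      _ = K' := by rw [hK', hD]; ring
  · intro v h1 h2
    have hz0 : (((1 / 2 + 0 : ℝ) : ℂ) + v * I) = 1 / 2 + v * I := by
      push_cast
      ring
    rw [hz0]
    have hzre : (1 / 2 + v * I : ℂ).re = 1 / 2 := by simp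
    have hv0 : 0 ≤ v := by linarith
    have e1 : ‖riemannZeta (1 / 2 + v * I) - Sm one' B (1 / 2 + v * I)‖ ≤
        |C₄| * 2 ^ (A + ε) * (2 * T) ^ (A + ε) := by
      have e2 : riemannZeta (1 / 2 + v * I) - Sm one' B (1 / 2 + v * I) = Dl B v := rfl
      rw [e2]
      have e3 := hC₄ v
      rw [abs_of_nonneg hv0] at e3
      have e4 := DET2_two (v := v) (by linarith) (by linarith : (0 : ℝ) ≤ A + ε) C₄
      refine (e3.trans e4).trans ?_
      gcongr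
    have e2 := TRF_diff hB (s := s) (z := 1 / 2 + v * I) hs0 (by rw [hzre])
    have e3 : ‖(1 / 2 + v * I) - s‖ = |v - T| := by
      have h5 : (1 / 2 + v * I) - s = ((v - T : ℝ) : ℂ) * I := by
        rw [hs]
        push_cast
        ring
      rw [h5, norm_mul, Complex.norm_I, mul_one, Complex.norm_real, Real.norm_eq_abs]
    rw [e3] at e2
    calc ‖riemannZeta (1 / 2 + v * I) - s * TRF_g B s (1 / 2 + v * I)‖
        = ‖(riemannZeta (1 / 2 + v * I) - Sm one' B (1 / 2 + v * I)) +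
          (Sm one' B (1 / 2 + v * I) - s * TRF_g B s (1 / 2 + v * I))‖ := by
          congr 1
          ring
      _ ≤ K₀ + |v - T| * Cs := (norm_add_le _ _).trans (add_le_add e1 e2)
      _ = K₀ + Cs * |v - T| := by ring
  · intro z hz _ _
    exact TRF_right hB hs0 (by rw [hz]; norm_num)

theorem p_GSF (hG : P_BLG) (hZ : P_ZST) (_hA : P_SMA) : P_GSF := by
  intro B A hB hA0 hE b hb0 hb1 ε hε
  have hB0 : 0 < B := by linarith
  obtain ⟨C₀, hC₀0, hC₀⟩ := GSF_main hG hZ hB hA0 hE (ε := ε / 2) (by positivity) 0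
  obtain ⟨C₁, hC₁0, hC₁⟩ := GSF_main hG hZ hB hA0 hE (ε := ε / 2) (by positivity) B
  refine ⟨min 1 (ε / (2 * B)), lt_min one_pos (by positivity), C₀ + 2 * C₁,
    fun T N hT hN1 hN2 => ?_⟩
  set δ : ℝ := min 1 (ε / (2 * B)) with hδ
  have hδ1 : δ ≤ 1 := min_le_left _ _
  have hδ2 : B * δ ≤ ε / 2 := by
    have h1 : δ ≤ ε / (2 * B) := min_le_right _ _
    calc B * δ ≤ B * (ε / (2 * B)) := mul_le_mul_of_nonneg_left h1 hB0.le
      _ = ε / 2 := by field_simp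
  have hT0 : 0 < T := by linarith
  have hT1 : 1 ≤ T := by linarith
  have hN0 : 0 < N := lt_of_lt_of_le (Real.rpow_pos_of_pos hT0 _) hN1
  have hNT : N ≤ T ^ 2 := by
    refine hN2.trans ?_
    rw [← Real.rpow_natCast]
    exact Real.rpow_le_rpow_of_exponent_le hT1 (by push_cast; linarith)
  obtain ⟨s, hs⟩ : ∃ s : ℂ, s = ((1 / 2 : ℝ) : ℂ) + T * I := ⟨_, rfl⟩
  have hsre : s.re = 1 / 2 := by simp [hs]
  have hs0 : 0 ≤ s.re := by rw [hsre]; norm_num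
  have hsn : ‖s‖ ≤ 2 * T := by
    calc ‖s‖ ≤ ‖((1 / 2 : ℝ) : ℂ)‖ + ‖(T * I : ℂ)‖ := by
          rw [hs]
          exact norm_add_le _ _
      _ ≤ 2 * T := by
        rw [norm_mul, Complex.norm_I, mul_one, Complex.norm_real, Complex.norm_real,
          Real.norm_eq_abs, Real.norm_eq_abs, abs_of_pos hT0, abs_of_pos (by norm_num)]
        linarith
  have ha0 : TRF_a B s 0 = 0 := by simp [TRF_a, one']
  have hale := TRF_a_le B hs0
  have hz : zsum N T = (∑' n : ℕ, TRF_a B s n * (n : ℂ) ^ (-s) * ((gw 0 N n : ℝ) : ℂ)) +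
      (s * ((N ^ (-B) : ℝ) : ℂ)) *
        ∑' n : ℕ, TRF_a B s n * (n : ℂ) ^ (-s) * ((gw B N n : ℝ) : ℂ) := by
    have h1 := GSF_sum (b := 0) hN0 ha0 hale T
    have h2 := (GSF_sum (b := B) hN0 ha0 hale T).mul_left (s * ((N ^ (-B) : ℝ) : ℂ))
    rw [← hs] at h1 h2
    rw [GSF_zsum hN0 T, ← hs, ← tsum_mul_left, ← h1.tsum_add h2]
    exact tsum_congr fun n => GSF_one hN0 hs0 _ n
  have e0 := hC₀ T N hT hN0 hNT
  have e1 := hC₁ T N hT hN0 hNT
  rw [← hs] at e0 e1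
  have hX : (0 : ℝ) ≤ T ^ (A + ε / 2) := by positivity
  have hM : 0 ≤ max 0 (1 - B * b) := le_max_left _ _
  have hNB : N ^ (-B) ≤ T ^ (-(B * b) + ε / 2) := by
    calc N ^ (-B) ≤ (T ^ (b - δ)) ^ (-B) :=
          Real.rpow_le_rpow_of_nonpos (by positivity) hN1 (by linarith)
      _ = T ^ ((b - δ) * (-B)) := by rw [← Real.rpow_mul hT0.le]
      _ ≤ _ := Real.rpow_le_rpow_of_exponent_le hT1 (by nlinarith)
  have hNB' : T * N ^ (-B) ≤ T ^ (max 0 (1 - B * b) + ε / 2) := by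
    calc T * N ^ (-B) ≤ T * T ^ (-(B * b) + ε / 2) := by gcongr
      _ = T ^ (1 + (-(B * b) + ε / 2)) := by rw [Real.rpow_add hT0 1, Real.rpow_one]
      _ ≤ _ := by
        apply Real.rpow_le_rpow_of_exponent_le hT1
        have := le_max_right 0 (1 - B * b)
        linarith
  have hfin : T ^ (A + max 0 (1 - B * b) + ε) =
      T ^ (max 0 (1 - B * b) + ε / 2) * T ^ (A + ε / 2) := by
    rw [← Real.rpow_add hT0]
    congr 1
    ring
  have hone : 1 ≤ T ^ (max 0 (1 - B * b) + ε / 2) := Real.one_le_rpow hT1 (by positivity)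
  rw [hz, hfin]
  calc ‖(∑' n : ℕ, TRF_a B s n * (n : ℂ) ^ (-s) * ((gw 0 N n : ℝ) : ℂ)) +
        (s * ((N ^ (-B) : ℝ) : ℂ)) *
          ∑' n : ℕ, TRF_a B s n * (n : ℂ) ^ (-s) * ((gw B N n : ℝ) : ℂ)‖
      ≤ C₀ * T ^ (A + ε / 2) + (2 * T * N ^ (-B)) * (C₁ * T ^ (A + ε / 2)) := by
        refine (norm_add_le _ _).trans (add_le_add e0 ?_)
        rw [norm_mul, norm_mul, Complex.norm_real,
          Real.norm_of_nonneg (Real.rpow_nonneg hN0.le _)]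
        gcongr
    _ = C₀ * T ^ (A + ε / 2) + 2 * C₁ * ((T * N ^ (-B)) * T ^ (A + ε / 2)) := by ring
    _ ≤ C₀ * (T ^ (max 0 (1 - B * b) + ε / 2) * T ^ (A + ε / 2)) +
        2 * C₁ * (T ^ (max 0 (1 - B * b) + ε / 2) * T ^ (A + ε / 2)) := by
        gcongr
        exact le_mul_of_one_le_left hX hone
    _ = _ := by ring

end Pool.Agent.PertZ
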