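import Pool.Agent.PertZ.Defs7
import Pool.Agent.PertZ.TRF
import Pool.Agent.PertZ.SMA
import Pool.Agent.DBN.WinSumC

/-!
# Block GSB: from the smoothed sums to the mean
-/

set_option autoImplicit false

namespace Pool.Agent.PertZ

open MeasureTheory ProbabilityTheory Set Filter Topology Complex Pool.Agent.CW Pool.Agent.DBN

/-- local uniformity in the length -/
lemma GSB_loc {A B b : ℝ} (hB : 0 < B) (h : SumLe b (A + max 0 (1 - B * b))) {ε : ℝ}
    (hε : 0 < ε) : ∃ δ : ℝ, 0 < δ ∧ ∃ C : ℝ, 0 ≤ C ∧ ∀ T N : ℝ, 2 ≤ T → T ^ (b - δ) ≤ N →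
      N ≤ T ^ (b + δ) → ‖zsum N T‖ ≤ C * T ^ (A + ε) * max 1 (T * N ^ (-B)) := by
  obtain ⟨δ₁, hδ₁, C₁, h1⟩ := h (ε / 2) (by positivity)
  refine ⟨min δ₁ (ε / (2 * B)), lt_min hδ₁ (by positivity), |C₁|, abs_nonneg _,
    fun T N hT hN1 hN2 => ?_⟩
  set δ := min δ₁ (ε / (2 * B)) with hδ
  have hT1 : 1 ≤ T := by linarith
  have hT0 : 0 < T := by linarith
  have hN0 : 0 < N := lt_of_lt_of_le (Real.rpow_pos_of_pos hT0 _) hN1
  have hδa : δ ≤ δ₁ := min_le_left _ _
  have hδb : B * δ ≤ ε / 2 := by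
    have h2 : δ ≤ ε / (2 * B) := min_le_right _ _
    calc B * δ ≤ B * (ε / (2 * B)) := by gcongr
      _ = ε / 2 := by field_simp
  have h2 := h1 T N hT
    ((Real.rpow_le_rpow_of_exponent_le hT1 (by linarith)).trans hN1)
    (hN2.trans (Real.rpow_le_rpow_of_exponent_le hT1 (by linarith)))
  have h3 : T ^ (A + max 0 (1 - B * b) + ε / 2) ≤ T ^ (A + ε) * max 1 (T * N ^ (-B)) := by
    rcases le_total (1 - B * b) 0 with hm | hm
    · rw [max_eq_left hm]
      calc T ^ (A + 0 + ε / 2) ≤ T ^ (A + ε) :=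
            Real.rpow_le_rpow_of_exponent_le hT1 (by linarith)
        _ = T ^ (A + ε) * 1 := (mul_one _).symm
        _ ≤ _ := by
            gcongr
            exact le_max_left _ _
    · rw [max_eq_right hm]
      have h4 : T ^ (-B * (b + δ)) ≤ N ^ (-B) := by
        have h5 : N ^ (-B) ≥ (T ^ (b + δ)) ^ (-B) :=
          Real.rpow_le_rpow_of_nonpos hN0 hN2 (by linarith)
        rw [← Real.rpow_mul hT0.le] at h5
        convert h5 using 2
        ring
      calc T ^ (A + (1 - B * b) + ε / 2) ≤ T ^ ((A + ε) + (1 + -B * (b + δ))) :=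
            Real.rpow_le_rpow_of_exponent_le hT1 (by nlinarith)
        _ = T ^ (A + ε) * (T * T ^ (-B * (b + δ))) := by
            rw [Real.rpow_add hT0, Real.rpow_add hT0 1, Real.rpow_one]
        _ ≤ T ^ (A + ε) * (T * N ^ (-B)) := by gcongr
        _ ≤ _ := by
            gcongr
            exact le_max_right _ _
  calc ‖zsum N T‖ ≤ C₁ * T ^ (A + max 0 (1 - B * b) + ε / 2) := h2
    _ ≤ |C₁| * T ^ (A + max 0 (1 - B * b) + ε / 2) := by
        gcongr
        exact le_abs_self _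
    _ ≤ |C₁| * (T ^ (A + ε) * max 1 (T * N ^ (-B))) := by gcongr
    _ = _ := by ring

/-- uniformity in the length up to the height -/
lemma GSB_unif {A B : ℝ} (hB : 0 < B)
    (h : ∀ b : ℝ, 0 ≤ b → b ≤ 1 → SumLe b (A + max 0 (1 - B * b))) {ε : ℝ}
    (hε : 0 < ε) : ∃ C : ℝ, 0 ≤ C ∧ ∀ T N : ℝ, 2 ≤ T → 1 ≤ N → N ≤ T →
      ‖zsum N T‖ ≤ C * T ^ (A + ε) * max 1 (T * N ^ (-B)) := by
  have key : ∃ C : ℝ, 0 ≤ C ∧ ∀ T β : ℝ, 2 ≤ T → β ∈ Icc (0 : ℝ) 1 →
      ‖zsum (T ^ β) T‖ ≤ C * T ^ (A + ε) * max 1 (T * (T ^ β) ^ (-B)) := by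
    refine IsCompact.induction_on (s := Icc (0 : ℝ) 1)
      (p := fun s => ∃ C : ℝ, 0 ≤ C ∧ ∀ T β : ℝ, 2 ≤ T → β ∈ s →
      ‖zsum (T ^ β) T‖ ≤ C * T ^ (A + ε) * max 1 (T * (T ^ β) ^ (-B))) isCompact_Icc ?_ ?_ ?_ ?_
    · exact ⟨0, le_rfl, fun _ _ _ hβ => absurd hβ (Set.notMem_empty _)⟩
    · rintro s t hst ⟨C, hC, h1⟩
      exact ⟨C, hC, fun T β hT hβ => h1 T β hT (hst hβ)⟩
    · rintro s t ⟨C, hC, h1⟩ ⟨C', hC', h2⟩
      refine ⟨C + C', by positivity, fun T β hT hβ => ?_⟩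
      have hT0 : 0 < T := by linarith
      have hp : 0 ≤ T ^ (A + ε) * max 1 (T * (T ^ β) ^ (-B)) := by positivity
      rcases hβ with hβ | hβ
      · have h3 := h1 T β hT hβ
        nlinarith [mul_nonneg hC' hp]
      · have h3 := h2 T β hT hβ
        nlinarith [mul_nonneg hC hp]
    · intro b hb
      obtain ⟨δ, hδ, C, hC, h1⟩ := GSB_loc hB (h b hb.1 hb.2) hε
      refine ⟨Ioo (b - δ) (b + δ), mem_nhdsWithin_of_mem_nhds
        (Ioo_mem_nhds (by linarith) (by linarith)), C, hC, fun T β hT hβ => ?_⟩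
      exact h1 T _ hT (Real.rpow_le_rpow_of_exponent_le (by linarith) hβ.1.le)
        (Real.rpow_le_rpow_of_exponent_le (by linarith) hβ.2.le)
  obtain ⟨C, hC, h1⟩ := key
  refine ⟨C, hC, fun T N hT hN1 hN2 => ?_⟩
  have hT0 : 0 < T := by linarith
  have hN0 : 0 < N := by linarith
  have hlT : 0 < Real.log T := Real.log_pos (by linarith)
  have hlN : 0 ≤ Real.log N := Real.log_nonneg hN1
  have e1 : T ^ (Real.log N / Real.log T) = N := by
    rw [Real.rpow_def_of_pos hT0, mul_div_cancel₀ _ hlT.ne', Real.exp_log hN0]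
  have h2 := h1 T (Real.log N / Real.log T) hT ⟨by positivity, by
    rw [div_le_one hlT]
    exact Real.log_le_log hN0 hN2⟩
  rwa [e1] at h2

/-- smoothed sums of polynomial length -/
lemma GSB_star (hL : P_GZL) {A B : ℝ} (hA : 0 ≤ A) (hB : 0 < B)
    (h : ∀ b : ℝ, 0 ≤ b → b ≤ 1 → SumLe b (A + max 0 (1 - B * b))) {ε K : ℝ}
    (hε : 0 < ε) (hK : 1 ≤ K) : ∃ C : ℝ, 0 ≤ C ∧ ∀ T N : ℝ, 2 ≤ T → 1 ≤ N → N ≤ T ^ K →
      ‖zsum N T‖ ≤ C * T ^ (A + ε) * max 1 (T * N ^ (-B)) := by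
  obtain ⟨C, hC, h1⟩ := GSB_unif hB h hε
  obtain ⟨C', h2⟩ := hL K ε hK hε
  refine ⟨C + |C'|, by positivity, fun T N hT hN1 hN2 => ?_⟩
  have hT0 : 0 < T := by linarith
  have hp : 0 ≤ T ^ (A + ε) * max 1 (T * N ^ (-B)) := by positivity
  rcases le_total N T with hNT | hNT
  · have h3 := h1 T N hT hN1 hNT
    nlinarith [mul_nonneg (abs_nonneg C') hp]
  · have h3 := h2 T N hT hNT hN2
    have h4 : T ^ ε ≤ T ^ (A + ε) * max 1 (T * N ^ (-B)) := by
      calc T ^ ε ≤ T ^ (A + ε) := Real.rpow_le_rpow_of_exponent_le (by linarith) (by linarith)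
        _ = T ^ (A + ε) * 1 := (mul_one _).symm
        _ ≤ _ := by
            gcongr
            exact le_max_left _ _
    calc ‖zsum N T‖ ≤ C' * T ^ ε := h3
      _ ≤ |C'| * T ^ ε := by
          gcongr
          exact le_abs_self _
      _ ≤ |C'| * (T ^ (A + ε) * max 1 (T * N ^ (-B))) := by gcongr
      _ ≤ (C + |C'|) * T ^ (A + ε) * max 1 (T * N ^ (-B)) := by
          nlinarith [mul_nonneg hC hp]

/-- powers against the exponential function -/
lemma GSB_pow {K τ T : ℝ} (hK : 0 < K) (hτ : 0 < τ) (hT : 0 < T) :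
    K * Real.log T ≤ τ * (T / 2) + (-K - K * Real.log (τ / (2 * K))) := by
  have hs : 0 < τ / (2 * K) := by positivity
  have h1 : Real.log (τ / (2 * K) * T) ≤ τ / (2 * K) * T - 1 :=
    Real.log_le_sub_one_of_pos (by positivity)
  rw [Real.log_mul hs.ne' hT.ne'] at h1
  have h2 : K * (τ / (2 * K) * T) = τ * (T / 2) := by field_simp
  nlinarith

/-- the crude bound -/
lemma GSB_crude (N T : ℝ) (hN : 0 < N) : ‖zsum N T‖ ≤ Real.exp 1 * Nw.S32 * N :=
  Nw.norm_zsum_le hN T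

/-- the hypothesis of GBK for `0 ≤ u ≤ K log T` -/
lemma GSB_M (hL : P_GZL) {A B : ℝ} (hA : 0 ≤ A) (hB : 0 < B)
    (h : ∀ b : ℝ, 0 ≤ b → b ≤ 1 → SumLe b (A + max 0 (1 - B * b))) {ε K τ : ℝ}
    (hε : 0 < ε) (hK : 2 ≤ K) (hτ : 0 < τ) : ∃ C : ℝ, 0 ≤ C ∧ ∀ T u : ℝ, 4 ≤ T → 0 ≤ u →
      u ≤ K * Real.log T → ∀ v y : ℝ, ‖zsum (Real.exp (u + y)) (T - v)‖ ≤
        (C * T ^ (A + ε) * max 1 (T * Real.exp (-(B * u)))) *
          Real.exp ((K / 2 + 1 + B) * |y|) * Real.exp (τ * |v|) := by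
  obtain ⟨C₃, hC₃, hst⟩ := GSB_star hL hA hB h hε (K := K + 2) (by linarith)
  set D₀ : ℝ := Real.exp 1 * Nw.S32 with hD₀
  have hD : 0 ≤ D₀ := mul_nonneg (Real.exp_pos _).le Nw.S32_nonneg
  set Cτ : ℝ := Real.exp (-K - K * Real.log (τ / (2 * K))) with hCτ
  set E : ℝ := Real.exp (K / 2 * (K + 2) * Real.log 2) with hE
  have hCτ0 : 0 < Cτ := Real.exp_pos _
  have hE0 : 0 < E := Real.exp_pos _
  have h2A : (0 : ℝ) < 2 ^ (A + ε) := by positivity
  refine ⟨D₀ * Cτ + D₀ + C₃ * 2 ^ (A + ε) * 2 + D₀ * E, by positivity,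
    fun T u hT hu hu' v y => ?_⟩
  have hT0 : 0 < T := by linarith
  set P : ℝ := T ^ (A + ε) with hP
  set Q : ℝ := max 1 (T * Real.exp (-(B * u))) with hQ
  have hP1 : 1 ≤ P := Real.one_le_rpow (by linarith) (by linarith)
  have hQ1 : 1 ≤ Q := le_max_left _ _
  have hPQ : 1 ≤ P * Q := by nlinarith
  have hy0 : 0 ≤ |y| := abs_nonneg y
  have hv0 : 0 ≤ |v| := abs_nonneg v
  set F : ℝ := Real.exp ((K / 2 + 1 + B) * |y|) with hF
  set G : ℝ := Real.exp (τ * |v|) with hG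
  have hF1 : 1 ≤ F := Real.one_le_exp (by positivity)
  have hG1 : 1 ≤ G := Real.one_le_exp (by positivity)
  have hFG : 1 ≤ F * G := by nlinarith
  have hcr := GSB_crude (Real.exp (u + y)) (T - v) (Real.exp_pos _)
  rw [← hD₀] at hcr
  -- it suffices to bound by one of the four parts
  have suff : ∀ c : ℝ, 0 ≤ c → c ≤ D₀ * Cτ + D₀ + C₃ * 2 ^ (A + ε) * 2 + D₀ * E →
      ∀ X : ℝ, X ≤ c * (P * Q * (F * G)) →
      X ≤ ((D₀ * Cτ + D₀ + C₃ * 2 ^ (A + ε) * 2 + D₀ * E) * P * Q) * F * G := by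
    intro c hc hcc X hX
    refine hX.trans ?_
    have h5 : (0 : ℝ) ≤ P * Q * (F * G) := by positivity
    calc c * (P * Q * (F * G)) ≤
          (D₀ * Cτ + D₀ + C₃ * 2 ^ (A + ε) * 2 + D₀ * E) * (P * Q * (F * G)) := by gcongr
      _ = _ := by ring
  have hA1 : 0 ≤ D₀ * Cτ := by positivity
  have hA2 : 0 ≤ C₃ * 2 ^ (A + ε) * 2 := by positivity
  have hA3 : 0 ≤ D₀ * E := by positivity
  rcases lt_or_ge (T / 2) |v| with hv | hv
  · -- large shifts in the height
    refine suff (D₀ * Cτ) hA1 (by linarith) _ (hcr.trans ?_)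
    have h1 : Real.exp (u + y) ≤ Cτ * (F * G) := by
      rw [hCτ, hF, hG, ← Real.exp_add, ← Real.exp_add, Real.exp_le_exp]
      have h2 := GSB_pow (K := K) (by linarith) hτ hT0
      have h3 : τ * (T / 2) ≤ τ * |v| := by gcongr
      have h4 := le_abs_self y
      have h5 : 0 ≤ (K / 2 + B) * |y| := by positivity
      nlinarith
    calc D₀ * Real.exp (u + y) ≤ D₀ * (Cτ * (F * G)) := by gcongr
      _ = (D₀ * Cτ) * (1 * (F * G)) := by ring
      _ ≤ (D₀ * Cτ) * (P * Q * (F * G)) := by gcongr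
  · have hv1 : T / 2 ≤ T - v := by linarith [le_abs_self v]
    have hv2 : T - v ≤ 2 * T := by linarith [neg_abs_le v]
    have hT'2 : 2 ≤ T - v := by linarith
    have hT'0 : 0 < T - v := by linarith
    rcases lt_or_ge (u + y) 0 with huy | huy
    · refine suff D₀ hD (by linarith) _ (hcr.trans ?_)
      have h1 : Real.exp (u + y) ≤ 1 := Real.exp_le_one_iff.2 huy.le
      calc D₀ * Real.exp (u + y) ≤ D₀ * 1 := by gcongr
        _ ≤ D₀ * (P * Q * (F * G)) := by
            gcongr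
            nlinarith
    · rcases le_or_gt (Real.exp (u + y)) ((T - v) ^ (K + 2)) with hN | hN
      · refine suff (C₃ * 2 ^ (A + ε) * 2) hA2 (by linarith) _
          ((hst (T - v) (Real.exp (u + y)) hT'2 (Real.one_le_exp huy) hN).trans ?_)
        have h1 : (T - v) ^ (A + ε) ≤ 2 ^ (A + ε) * P := by
          rw [hP, ← Real.mul_rpow (by norm_num) hT0.le]
          exact Real.rpow_le_rpow hT'0.le hv2 (by linarith)
        have h2 : Real.exp (u + y) ^ (-B) = Real.exp (-(B * u)) * Real.exp (-(B * y)) := by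
          rw [← Real.exp_mul, ← Real.exp_add]
          congr 1
          ring
        have h3 : Real.exp (-(B * y)) ≤ F := by
          rw [hF, Real.exp_le_exp]
          have h4 := neg_abs_le y
          have h5 : 0 ≤ (K / 2 + 1) * |y| := by positivity
          nlinarith
        have h4 : max 1 ((T - v) * Real.exp (u + y) ^ (-B)) ≤ 2 * F * Q := by
          refine max_le (by nlinarith) ?_
          rw [h2]
          calc (T - v) * (Real.exp (-(B * u)) * Real.exp (-(B * y)))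
              ≤ (2 * T) * (Real.exp (-(B * u)) * F) := by gcongr
            _ = 2 * F * (T * Real.exp (-(B * u))) := by ring
            _ ≤ 2 * F * Q := by
                gcongr
                exact le_max_right _ _
        calc C₃ * (T - v) ^ (A + ε) * max 1 ((T - v) * Real.exp (u + y) ^ (-B))
            ≤ C₃ * (2 ^ (A + ε) * P) * (2 * F * Q) := by gcongr
          _ = (C₃ * 2 ^ (A + ε) * 2) * (P * Q * (F * 1)) := by ring
          _ ≤ (C₃ * 2 ^ (A + ε) * 2) * (P * Q * (F * G)) := by gcongr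
      · refine suff (D₀ * E) hA3 (by linarith) _ (hcr.trans ?_)
        have h1 : (K + 2) * Real.log (T - v) < u + y := by
          have h2 := Real.log_lt_log (by positivity) hN
          rwa [Real.log_rpow hT'0, Real.log_exp] at h2
        have h2 : Real.log T - Real.log 2 ≤ Real.log (T - v) := by
          rw [← Real.log_div hT0.ne' (by norm_num)]
          exact Real.log_le_log (by positivity) hv1
        have h3 : Real.exp (u + y) ≤ E * (F * 1) := by
          rw [mul_one, hE, hF, ← Real.exp_add, Real.exp_le_exp]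
          have h4 := le_abs_self y
          have h5 : 0 ≤ B * |y| := by positivity
          have h6 : (K + 2) * (Real.log T - Real.log 2) ≤ (K + 2) * Real.log (T - v) := by
            gcongr
          have h7 : 2 * Real.log T ≤ |y| + (K + 2) * Real.log 2 := by nlinarith
          have h8 : K / 2 * (2 * Real.log T) ≤ K / 2 * (|y| + (K + 2) * Real.log 2) := by
            gcongr
          nlinarith
        calc D₀ * Real.exp (u + y) ≤ D₀ * (E * (F * 1)) := by gcongr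
          _ = (D₀ * E) * (1 * (F * 1)) := by ring
          _ ≤ (D₀ * E) * (P * Q * (F * G)) := by gcongr

theorem p_GSB (hK : P_GBK) (hI : P_GID) (hL : P_GZL) : P_GSB := by
  intro B A hB2 hA h ε hε
  have hB : 0 < B := by linarith
  set K : ℝ := max 2 (1 / (B - 1 / 2)) with hKdef
  have hK2 : 2 ≤ K := le_max_left _ _
  have hK1 : 1 ≤ K * (B - 1 / 2) := by
    have h1 : 1 / (B - 1 / 2) ≤ K := le_max_right _ _
    have h2 : 0 < B - 1 / 2 := by linarith
    rwa [div_le_iff₀ h2] at h1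
  obtain ⟨τ, hτ, hGB⟩ := hK B hB2
  obtain ⟨Cg, hCg, hblk⟩ := hGB (K / 2 + 1 + B) (by positivity)
  obtain ⟨C, hC, hM⟩ := GSB_M hL hA hB h (ε := ε / 2) (by positivity) hK2 hτ
  obtain ⟨CI, hCI⟩ := hI B K hB2 hK2 hK1
  set D₀ : ℝ := Real.exp 1 * Nw.S32 with hD₀
  have hD : 0 ≤ D₀ := mul_nonneg (Real.exp_pos _).le Nw.S32_nonneg
  -- the part `u ≤ 0`
  have hneg : ∀ T u : ℝ, 2 ≤ T → u ≤ 0 → ‖blk B T u‖ ≤ Cg * D₀ * Real.exp (B * u) := by
    intro T u hT hu
    have h1 := hblk T u D₀ hT hD fun v y => ?_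
    · calc ‖blk B T u‖ ≤ Cg * min 1 (Real.exp (B * u) / T) * D₀ := h1
        _ ≤ Cg * Real.exp (B * u) * D₀ := by
            gcongr
            refine (min_le_right _ _).trans ?_
            rw [div_le_iff₀ (by linarith)]
            nlinarith [Real.exp_pos (B * u)]
        _ = _ := by ring
    · refine (GSB_crude _ _ (Real.exp_pos _)).trans ?_
      rw [← hD₀, mul_assoc D₀ (Real.exp ((K / 2 + 1 + B) * |y|))]
      refine mul_le_mul_of_nonneg_left ?_ hD
      rw [← Real.exp_add, Real.exp_le_exp]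
      have h2 := le_abs_self y
      have h3 : 0 ≤ (K / 2 + B) * |y| := by positivity
      have h4 : 0 ≤ τ * |v| := by positivity
      nlinarith
  -- the part `0 ≤ u`
  have hpos : ∀ T u : ℝ, 4 ≤ T → 0 ≤ u → u ≤ K * Real.log T →
      ‖blk B T u‖ ≤ Cg * (C * T ^ (A + ε / 2)) := by
    intro T u hT hu hu'
    have hT0 : 0 < T := by linarith
    have h1 := hblk T u (C * T ^ (A + ε / 2) * max 1 (T * Real.exp (-(B * u)))) (by linarith)
      (by positivity) (hM T u hT hu hu')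
    have h2 : min 1 (Real.exp (B * u) / T) * max 1 (T * Real.exp (-(B * u))) ≤ 1 := by
      have hx : 0 < Real.exp (B * u) / T := by positivity
      have e1 : T * Real.exp (-(B * u)) = (Real.exp (B * u) / T)⁻¹ := by
        rw [Real.exp_neg, inv_div]
        rfl
      rw [e1]
      rcases le_total (Real.exp (B * u) / T) 1 with h3 | h3
      · rw [min_eq_right h3, max_eq_right ((one_le_inv₀ hx).2 h3), mul_inv_cancel₀ hx.ne']
      · rw [min_eq_left h3, max_eq_left (inv_le_one_of_one_le₀ h3), mul_one]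
    calc ‖blk B T u‖ ≤ Cg * min 1 (Real.exp (B * u) / T) *
          (C * T ^ (A + ε / 2) * max 1 (T * Real.exp (-(B * u)))) := h1
      _ = Cg * (C * T ^ (A + ε / 2)) *
          (min 1 (Real.exp (B * u) / T) * max 1 (T * Real.exp (-(B * u)))) := by ring
      _ ≤ Cg * (C * T ^ (A + ε / 2)) * 1 := by gcongr
      _ = _ := mul_one _
  refine TRF_red p_SMA B hB2 (A + ε) (by linarith)
    ⟨|CI| + Cg * D₀ / B + Cg * C * K * (2 / ε), 4, fun T hT => ?_⟩
  have hT0 : 0 < T := by linarith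
  have hT1 : 1 ≤ T := by linarith
  have hlT : 0 ≤ Real.log T := Real.log_nonneg hT1
  set U : ℝ := K * Real.log T with hU
  have hU0 : 0 ≤ U := by positivity
  obtain ⟨hint, hdiff⟩ := hCI T (by linarith)
  rw [← hU] at hint hdiff
  have hi1 : IntegrableOn (blk B T) (Iic 0) := hint.mono_set (Iic_subset_Iic.2 hU0)
  have hi2 : IntegrableOn (blk B T) (Ioc 0 U) := hint.mono_set Ioc_subset_Iic_self
  have hsplit : ∫ u in Iic U, blk B T u = (∫ u in Iic (0 : ℝ), blk B T u) +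
      ∫ u in Ioc 0 U, blk B T u := by
    rw [← Iic_union_Ioc_eq_Iic hU0]
    exact setIntegral_union (Set.Iic_disjoint_Ioc le_rfl) measurableSet_Ioc hi1 hi2
  have hn1 : ‖∫ u in Iic (0 : ℝ), blk B T u‖ ≤ Cg * D₀ / B := by
    have hg : IntegrableOn (fun u => Cg * D₀ * Real.exp (B * u)) (Iic (0 : ℝ)) :=
      (integrableOn_exp_mul_Iic hB 0).const_mul _
    have h1 : ‖∫ u in Iic (0 : ℝ), blk B T u‖ ≤
        ∫ u in Iic (0 : ℝ), Cg * D₀ * Real.exp (B * u) :=
      norm_integral_le_of_norm_le hg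
        ((ae_restrict_mem measurableSet_Iic).mono fun u hu => hneg T u (by linarith) hu)
    refine h1.trans (le_of_eq ?_)
    rw [integral_const_mul, integral_exp_mul_Iic hB, mul_zero, Real.exp_zero, mul_one_div]
  have hn2 : ‖∫ u in Ioc 0 U, blk B T u‖ ≤ Cg * (C * T ^ (A + ε / 2)) * U := by
    have h1 := norm_setIntegral_le_of_norm_le_const (μ := volume) (s := Ioc 0 U)
      (f := blk B T) (C := Cg * (C * T ^ (A + ε / 2))) measure_Ioc_lt_top
      (fun u hu => hpos T u hT hu.1.le hu.2)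
    rwa [Real.volume_real_Ioc_of_le hU0, sub_zero] at h1
  have hpi : (1 / (2 * √Real.pi) : ℝ) ≤ 1 := by
    have h1 : 1 ≤ √Real.pi := by
      rw [Real.one_le_sqrt]
      linarith [Real.pi_gt_three]
    rw [div_le_one (by positivity)]
    linarith
  have hpi0 : (0 : ℝ) ≤ 1 / (2 * √Real.pi) := by positivity
  have hlog : T ^ (A + ε / 2) * Real.log T ≤ T ^ (A + ε) * (2 / ε) := by
    have h1 : Real.log T ≤ T ^ (ε / 2) / (ε / 2) := Real.log_le_rpow_div hT0.le (by positivity)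
    calc T ^ (A + ε / 2) * Real.log T ≤ T ^ (A + ε / 2) * (T ^ (ε / 2) / (ε / 2)) := by gcongr
      _ = (T ^ (A + ε / 2) * T ^ (ε / 2)) * (2 / ε) := by
          field_simp
      _ = T ^ (A + ε) * (2 / ε) := by
          rw [← Real.rpow_add hT0]
          congr 2
          ring
  have hX1 : 1 ≤ T ^ (A + ε) := Real.one_le_rpow hT1 (by linarith)
  have hmain : ‖Dl B T‖ ≤ CI + (Cg * D₀ / B + Cg * (C * T ^ (A + ε / 2)) * U) := by
    have h1 : ‖((1 / (2 * √Real.pi) : ℝ) : ℂ) * ∫ u in Iic U, blk B T u‖ ≤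
        Cg * D₀ / B + Cg * (C * T ^ (A + ε / 2)) * U := by
      rw [norm_mul, Complex.norm_real, Real.norm_of_nonneg hpi0, hsplit]
      calc 1 / (2 * √Real.pi) * ‖(∫ u in Iic (0 : ℝ), blk B T u) + ∫ u in Ioc 0 U, blk B T u‖
          ≤ 1 * (‖∫ u in Iic (0 : ℝ), blk B T u‖ + ‖∫ u in Ioc 0 U, blk B T u‖) := by
            gcongr
            exact norm_add_le _ _
        _ ≤ _ := by
            rw [one_mul]
            exact add_le_add hn1 hn2
    calc ‖Dl B T‖ = ‖(Dl B T - ((1 / (2 * √Real.pi) : ℝ) : ℂ) * ∫ u in Iic U, blk B T u) +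
          ((1 / (2 * √Real.pi) : ℝ) : ℂ) * ∫ u in Iic U, blk B T u‖ := by
            rw [sub_add_cancel]
      _ ≤ _ := (norm_add_le _ _).trans (add_le_add hdiff h1)
  have e2 : Cg * (C * T ^ (A + ε / 2)) * U = Cg * C * K * (T ^ (A + ε / 2) * Real.log T) := by
    rw [hU]
    ring
  rw [e2] at hmain
  have h9 : Cg * C * K * (T ^ (A + ε / 2) * Real.log T) ≤
      Cg * C * K * (T ^ (A + ε) * (2 / ε)) := by
    gcongr
  have h10 : |CI| + Cg * D₀ / B ≤ (|CI| + Cg * D₀ / B) * T ^ (A + ε) :=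
    le_mul_of_one_le_right (by positivity) hX1
  have h11 := le_abs_self CI
  nlinarith

end Pool.Agent.PertZ
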