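import Pool.Agent.PertZ.Defs

/-!
# BL: block sums are bounded by the analytic function to the left
-/

set_option autoImplicit false

namespace Pool.Agent.PertZ

open MeasureTheory ProbabilityTheory Set Filter Topology Complex Pool.Agent.CW

theorem BL_den (w : ℂ) : 1 - w ^ 2 = (1 - w) * (1 + w) := by ring

theorem BL_ne (w : ℂ) (h0 : 0 ≤ w.re) (h1 : w.re < 1) : 1 - w ^ 2 ≠ 0 := by
  rw [BL_den]
  apply mul_ne_zero
  · intro h
    have := congrArg Complex.re h
    simp only [sub_re, one_re, zero_re] at this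
    linarith
  · intro h
    have := congrArg Complex.re h
    simp only [add_re, one_re, zero_re] at this
    linarith

theorem BL_ge (w : ℂ) : w.im ^ 2 ≤ ‖1 - w ^ 2‖ := by
  rw [BL_den, norm_mul]
  have h1 := abs_im_le_norm (1 - w)
  have h2 := abs_im_le_norm (1 + w)
  rw [sub_im, one_im, zero_sub, abs_neg] at h1
  rw [add_im, one_im, zero_add] at h2
  calc w.im ^ 2 = |w.im| * |w.im| := by rw [← sq, sq_abs]
    _ ≤ _ := mul_le_mul h1 h2 (abs_nonneg _) (norm_nonneg _)

theorem BL_re (r v : ℝ) : ((r : ℂ) + v * I).re = r := by simp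

theorem BL_im (r v : ℝ) : ((r : ℂ) + v * I).im = v := by simp

/-- the scaled Cauchy integral -/
theorem BL_cauchy (M q : ℝ) (hq : 0 < q) :
    Integrable (fun v : ℝ => M * (2 / (v ^ 2 + q ^ 2))) ∧
      ∫ v : ℝ, M * (2 / (v ^ 2 + q ^ 2)) = M * (2 * Real.pi / q) := by
  have h1 : (fun v : ℝ => M * (2 / (v ^ 2 + q ^ 2))) =
      fun v : ℝ => (M * 2 / q ^ 2) * (1 + (v / q) ^ 2)⁻¹ := by
    funext v
    have : 0 < v ^ 2 + q ^ 2 := by positivity
    field_simp
    ring
  rw [h1]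
  refine ⟨(integrable_inv_one_add_sq.comp_div hq.ne').const_mul _, ?_⟩
  rw [integral_const_mul, Measure.integral_comp_div (fun y : ℝ => (1 + y ^ 2)⁻¹) q,
    integral_univ_inv_one_add_sq, abs_of_pos hq, smul_eq_mul]
  field_simp

theorem p_BL (h : P_FIK) : P_BL := by
  intro r hr0 hr1
  refine ⟨8, by norm_num, ?_⟩
  intro a σ L K t Y f hσ ht hY hK ha0 hsum hL hf hser
  have hY0 : 0 < Y := by linarith
  have ht0 : 0 < t := by linarith
  have hYr : 0 < Y ^ r := Real.rpow_pos_of_pos hY0 r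
  have hL0 : 0 ≤ L := (tsum_nonneg fun n => by positivity).trans hL
  obtain ⟨x, hx⟩ : ∃ x : ℕ → ℝ, x = fun n : ℕ => Real.log Y - Real.log n := ⟨_, rfl⟩
  obtain ⟨c, hc⟩ : ∃ c : ℕ → ℂ, c = fun n : ℕ => a n * (n : ℂ) ^ (-((σ : ℂ) + t * I)) := ⟨_, rfl⟩
  obtain ⟨b, hb⟩ : ∃ b : ℕ → ℝ, b = fun n : ℕ => ‖a n‖ * (n : ℝ) ^ (-(σ + r)) := ⟨_, rfl⟩
  have hbs : Summable b := by rw [hb]; exact hsum
  have hbL : ∑' n, b n ≤ L := by rw [hb]; exact hL
  have hb0 : ∀ n, 0 ≤ b n := fun n => by rw [hb]; positivity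
  have hc0 : c 0 = 0 := by rw [hc]; simp [ha0]
  have hb00 : b 0 = 0 := by rw [hb]; simp [ha0]
  -- the size of the coefficients
  have hcn : ∀ n, ‖c n * cexp (r * x n)‖ = b n * Y ^ r := by
    intro n
    rcases Nat.eq_zero_or_pos n with rfl | hn
    · rw [hc0, hb00]
      simp
    · have hn' : (0 : ℝ) < n := by exact_mod_cast hn
      have e1 : ‖(n : ℂ) ^ (-((σ : ℂ) + t * I))‖ = (n : ℝ) ^ (-σ) := by
        rw [Complex.norm_natCast_cpow_of_pos hn]
        congr 1
        simp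
      have e2 : ‖cexp (r * x n)‖ = Y ^ r * (n : ℝ) ^ (-r) := by
        rw [Complex.norm_exp, hx, Real.rpow_def_of_pos hY0, Real.rpow_def_of_pos hn', ← Real.exp_add]
        congr 1
        simp only [mul_re, ofReal_re, ofReal_im, mul_zero, sub_zero]
        ring
      have e3 : (n : ℝ) ^ (-(σ + r)) = (n : ℝ) ^ (-σ) * (n : ℝ) ^ (-r) := by
        rw [← Real.rpow_add hn']
        congr 1
        ring
      rw [norm_mul, e2, hc, hb]
      simp only
      rw [norm_mul, e1, e3]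
      ring
  -- the kernel
  have hne : ∀ v : ℝ, 1 - ((r : ℂ) + v * I) ^ 2 ≠ 0 := fun v =>
    BL_ne _ (by rw [BL_re]; exact hr0.le) (by rw [BL_re]; exact hr1)
  have hnorm1 : ∀ (v y : ℝ), ‖cexp (v * y * I)‖ = 1 := by
    intro v y
    rw [← Complex.ofReal_mul, Complex.norm_exp_ofReal_mul_I]
  obtain ⟨ka, hka⟩ : ∃ ka : ℝ → ℝ, ka = fun v : ℝ => ‖(1 - ((r : ℂ) + v * I) ^ 2)⁻¹‖ := ⟨_, rfl⟩
  have hkai : Integrable ka := by
    have h1 := (h r 0 hr0.le hr1).1.norm
    rw [hka]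
    refine h1.congr (ae_of_all _ fun v => ?_)
    simp
  have hka0 : ∀ v, 0 ≤ ka v := fun v => by rw [hka]; positivity
  obtain ⟨G, hG⟩ : ∃ G : ℕ → ℝ → ℂ, G = fun (n : ℕ) (v : ℝ) => (c n * cexp (r * x n)) *
    (cexp (v * x n * I) / (1 - ((r : ℂ) + v * I) ^ 2)) := ⟨_, rfl⟩
  have hGi : ∀ n, Integrable (G n) := by
    intro n
    rw [hG]
    exact (h r (x n) hr0.le hr1).1.const_mul _
  have hGn : ∀ n v, ‖G n v‖ = b n * Y ^ r * ka v := by
    intro n v
    rw [hG, hka]
    simp only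
    rw [norm_mul, hcn, norm_div, hnorm1, one_div, norm_inv]
  have hGs : Summable fun n => ∫ v, ‖G n v‖ := by
    have h1 : (fun n => ∫ v, ‖G n v‖) = fun n => b n * (Y ^ r * ∫ v, ka v) := by
      funext n
      simp only [hGn]
      rw [integral_const_mul]
      ring
    rw [h1]
    exact hbs.mul_right _
  have hsumG := hasSum_integral_of_summable_integral_norm hGi hGs
  -- the sum of the series on the line
  obtain ⟨S, hS⟩ : ∃ S : ℝ → ℂ, S = fun v : ℝ => ∑' n : ℕ, (c n * cexp (r * x n)) * cexp (v * x n * I) :=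
    ⟨_, rfl⟩
  have hbY : Summable fun n => b n * Y ^ r := hbs.mul_right _
  have hSt : ∀ n (v : ℝ), ‖(c n * cexp (r * x n)) * cexp (v * x n * I)‖ ≤ b n * Y ^ r := by
    intro n v
    rw [norm_mul, hcn, hnorm1, mul_one]
  have hSc : Continuous S := by
    rw [hS]
    refine continuous_tsum (fun n => ?_) hbY (fun n v => hSt n v)
    fun_prop
  have hSn : ∀ v, ‖S v‖ ≤ L * Y ^ r := by
    intro v
    rw [hS]
    have h1 := tsum_of_norm_bounded hbY.hasSum (fun n => hSt n v)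
    refine h1.trans ?_
    rw [tsum_mul_right]
    exact mul_le_mul_of_nonneg_right hbL hYr.le
  have hFS : ∀ v, ∑' n, G n v = S v / (1 - ((r : ℂ) + v * I) ^ 2) := by
    intro v
    rw [hG, hS]
    simp only
    rw [← tsum_div_const]
    refine tsum_congr fun n => ?_
    rw [mul_div_assoc]
  obtain ⟨F, hF⟩ : ∃ F : ℝ → ℂ, F = fun v : ℝ => S v / (1 - ((r : ℂ) + v * I) ^ 2) := ⟨_, rfl⟩
  have hFc : Continuous F := by
    rw [hF]
    exact hSc.div (by fun_prop) hne
  have hFn : ∀ v, ‖F v‖ ≤ L * Y ^ r * ka v := by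
    intro v
    rw [hF, hka]
    simp only
    rw [norm_div, norm_inv, div_eq_mul_inv]
    exact mul_le_mul_of_nonneg_right (hSn v) (by positivity)
  have hFi : Integrable F := Integrable.mono' (hkai.const_mul _) hFc.aestronglyMeasurable
    (ae_of_all _ hFn)
  -- the full integral is the block sum
  have hfull : ∫ v, F v = Real.pi * Wb a σ t Y := by
    have h1 : ∫ v, F v = ∑' n, ∫ v, G n v := by
      rw [hsumG.tsum_eq]
      refine integral_congr_ae (ae_of_all _ fun v => ?_)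
      simp only
      rw [hFS, hF]
    rw [h1]
    unfold Wb
    rw [← tsum_mul_left]
    refine tsum_congr fun n => ?_
    have h2 : ∫ v, G n v = (c n * cexp (r * x n)) *
        ((Real.pi * Real.exp (-|x n| - r * x n) : ℝ) : ℂ) := by
      rw [hG]
      simp only
      rw [integral_const_mul, (h r (x n) hr0.le hr1).2]
    rw [h2]
    rcases Nat.eq_zero_or_pos n with rfl | hn
    · rw [hc0, ha0]
      simp
    · have hn' : (0 : ℝ) < n := by exact_mod_cast hn
      have e1 : Real.exp (-|x n|) = min (n / Y) (Y / n) := by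
        have e2 : -|x n| = min (-x n) (x n) := by
          rcases le_total 0 (x n) with h0 | h0
          · rw [abs_of_nonneg h0, min_eq_left (by linarith)]
          · rw [abs_of_nonpos h0, min_eq_right (by linarith), neg_neg]
        rw [e2, Real.exp_monotone.map_min]
        have e3 : Real.exp (x n) = Y / n := by
          rw [hx]
          simp only
          rw [Real.exp_sub, Real.exp_log hY0, Real.exp_log hn']
        rw [Real.exp_neg, e3, inv_div]
      have e4 : cexp (r * x n) * ((Real.pi * Real.exp (-|x n| - r * x n) : ℝ) : ℂ) =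
          Real.pi * ((min (n / Y) (Y / n) : ℝ) : ℂ) := by
        rw [← e1, sub_eq_add_neg, Real.exp_add]
        push_cast
        have e5 : cexp (r * x n) * cexp (-(r * x n)) = 1 := by
          rw [← Complex.exp_add, add_neg_cancel, Complex.exp_zero]
        linear_combination (Real.pi * cexp (-((|x n| : ℝ) : ℂ))) * e5
      rw [mul_assoc, e4, hc]
      ring
  -- the rectangle
  obtain ⟨g, hg⟩ : ∃ g : ℂ → ℂ, g = fun w : ℂ =>
    f ((σ : ℂ) + t * I + w) * cexp (w * Real.log Y) / (1 - w ^ 2) := ⟨_, rfl⟩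
  have hmem : ∀ w : ℂ, 0 ≤ w.re → w.re ≤ r → -(t / 2) ≤ w.im → w.im ≤ t →
      AnalyticAt ℂ f ((σ : ℂ) + t * I + w) ∧ ‖f ((σ : ℂ) + t * I + w)‖ ≤ K := by
    intro w h1 h2 h3 h4
    have e1 : ((σ : ℂ) + t * I + w).re = σ + w.re := by simp
    have e2 : ((σ : ℂ) + t * I + w).im = t + w.im := by simp
    exact hf _ (by rw [e1]; linarith) (by rw [e1]; linarith) (by rw [e2]; linarith)
      (by rw [e2]; linarith)
  have hdiff : DifferentiableOn ℂ g
      ((uIcc (⟨0, -(t / 2)⟩ : ℂ).re (⟨r, t⟩ : ℂ).re) ×ℂ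
        (uIcc (⟨0, -(t / 2)⟩ : ℂ).im (⟨r, t⟩ : ℂ).im)) := by
    intro w hw
    simp only [mem_reProdIm] at hw
    rw [uIcc_of_le hr0.le, uIcc_of_le (by linarith : -(t / 2) ≤ t)] at hw
    obtain ⟨⟨h1, h2⟩, ⟨h3, h4⟩⟩ := hw
    have hA := (hmem w h1 h2 h3 h4).1.differentiableAt
    rw [hg]
    have hA2 : DifferentiableAt ℂ (fun w : ℂ => f ((σ : ℂ) + t * I + w)) w :=
      DifferentiableAt.comp w hA ((differentiableAt_const _).add differentiableAt_id)
    have hB : DifferentiableAt ℂ (fun w : ℂ => cexp (w * Real.log Y)) w := by fun_prop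
    have hD : DifferentiableAt ℂ (fun w : ℂ => 1 - w ^ 2) w := by fun_prop
    exact ((hA2.mul hB).div hD (BL_ne w h1 (by linarith))).differentiableWithinAt
  have hrect := Complex.integral_boundary_rect_eq_zero_of_differentiableOn g _ _ hdiff
  simp only [smul_eq_mul] at hrect
  -- norms on the boundary
  have hgn : ∀ w : ℂ, 0 ≤ w.re → w.re ≤ r → -(t / 2) ≤ w.im → w.im ≤ t →
      ‖g w‖ ≤ K * Y ^ w.re * ‖(1 - w ^ 2)⁻¹‖ := by
    intro w h1 h2 h3 h4
    rw [hg]
    simp only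
    rw [norm_div, norm_mul, norm_inv, div_eq_mul_inv]
    refine mul_le_mul_of_nonneg_right ?_ (by positivity)
    have e1 : ‖cexp (w * Real.log Y)‖ = Y ^ w.re := by
      rw [Complex.norm_exp, Real.rpow_def_of_pos hY0]
      congr 1
      simp
      ring
    rw [e1]
    exact mul_le_mul_of_nonneg_right (hmem w h1 h2 h3 h4).2 (by positivity)
  have hhor : ∀ v : ℝ, -(t / 2) ≤ v → v ≤ t → t ^ 2 / 4 ≤ v ^ 2 →
      ‖∫ y in (0 : ℝ)..r, g (y + v * I)‖ ≤ 4 * K * Y ^ r / t ^ 2 := by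
    intro v hv1 hv2 hv3
    have h1 : ∀ y ∈ uIoc (0 : ℝ) r, ‖g (y + v * I)‖ ≤ 4 * K * Y ^ r / t ^ 2 := by
      intro y hy
      rw [uIoc_of_le hr0.le] at hy
      have hre : ((y : ℂ) + v * I).re = y := by simp
      have him : ((y : ℂ) + v * I).im = v := by simp
      refine (hgn _ (by rw [hre]; exact hy.1.le) (by rw [hre]; exact hy.2)
        (by rw [him]; exact hv1) (by rw [him]; exact hv2)).trans ?_
      rw [hre]
      have e1 : Y ^ y ≤ Y ^ r := Real.rpow_le_rpow_of_exponent_le hY hy.2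
      have e2 : ‖(1 - ((y : ℂ) + v * I) ^ 2)⁻¹‖ ≤ (t ^ 2 / 4)⁻¹ := by
        rw [norm_inv]
        refine inv_anti₀ (by positivity) ?_
        have := BL_ge ((y : ℂ) + v * I)
        rw [him] at this
        linarith
      calc K * Y ^ y * ‖(1 - ((y : ℂ) + v * I) ^ 2)⁻¹‖ ≤ K * Y ^ r * (t ^ 2 / 4)⁻¹ :=
            mul_le_mul (mul_le_mul_of_nonneg_left e1 hK) e2 (norm_nonneg _) (by positivity)
        _ = 4 * K * Y ^ r / t ^ 2 := by field_simp
    have h2 := intervalIntegral.norm_integral_le_of_norm_le_const h1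
    refine h2.trans ?_
    rw [sub_zero, abs_of_pos hr0]
    have h3 : 0 ≤ 4 * K * Y ^ r / t ^ 2 := by positivity
    nlinarith
  have hleft : ‖∫ y in (-(t / 2))..t, g ((0 : ℝ) + y * I)‖ ≤ K * Real.pi := by
    rw [intervalIntegral.integral_of_le (by linarith)]
    have h1 : ∀ y ∈ Ioc (-(t / 2)) t, ‖g ((0 : ℝ) + y * I)‖ ≤ K * (1 + y ^ 2)⁻¹ := by
      intro y hy
      have hre : (((0 : ℝ) : ℂ) + y * I).re = 0 := by simp
      have him : (((0 : ℝ) : ℂ) + y * I).im = y := by simp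
      refine (hgn _ (by rw [hre]) (by rw [hre]; exact hr0.le)
        (by rw [him]; exact hy.1.le) (by rw [him]; exact hy.2)).trans ?_
      rw [hre, Real.rpow_zero, mul_one]
      have e1 : 1 - (((0 : ℝ) : ℂ) + y * I) ^ 2 = ((1 + y ^ 2 : ℝ) : ℂ) := by
        push_cast
        rw [zero_add, mul_pow, I_sq]
        ring
      rw [e1, ← Complex.ofReal_inv, Complex.norm_real, Real.norm_of_nonneg (by positivity)]
    have h2 : ‖∫ y in Ioc (-(t / 2)) t, g ((0 : ℝ) + y * I)‖ ≤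
        ∫ y in Ioc (-(t / 2)) t, K * (1 + y ^ 2)⁻¹ :=
      norm_integral_le_of_norm_le ((integrable_inv_one_add_sq.const_mul K).integrableOn)
        ((ae_restrict_iff' measurableSet_Ioc).2 (ae_of_all _ h1))
    refine h2.trans ?_
    refine (setIntegral_le_integral (integrable_inv_one_add_sq.const_mul K)
      (ae_of_all _ fun y => ?_)).trans (le_of_eq ?_)
    · simp only [Pi.zero_apply]
      positivity
    · rw [integral_const_mul, integral_univ_inv_one_add_sq]
  -- the right side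
  have hright : ∫ y in (-(t / 2))..t, g (r + y * I) = ∫ y in Ioc (-(t / 2)) t, F y := by
    rw [intervalIntegral.integral_of_le (by linarith)]
    refine setIntegral_congr_fun measurableSet_Ioc fun v hv => ?_
    rw [hg, hF]
    simp only
    congr 1
    have e1 : ((σ : ℂ) + t * I + (r + v * I)).re = σ + r := by simp
    have e2 : ((σ : ℂ) + t * I + (r + v * I)).im = t + v := by simp
    rw [hser _ e1 (by rw [e2]; linarith [hv.1]) (by rw [e2]; linarith [hv.2]), hS]
    simp only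
    rw [← tsum_mul_right]
    refine tsum_congr fun n => ?_
    rcases Nat.eq_zero_or_pos n with rfl | hn
    · rw [hc0, ha0]
      simp
    · have hn' : (n : ℂ) ≠ 0 := by exact_mod_cast hn.ne'
      have e3 : -((σ : ℂ) + t * I + (r + v * I)) = -((σ : ℂ) + t * I) + -(r + v * I) := by ring
      have e4 : (n : ℂ) ^ (-((r : ℂ) + v * I)) = cexp (-((r + v * I) * Real.log n)) := by
        rw [Complex.cpow_def_of_ne_zero hn', Complex.natCast_log]
        congr 1
        ring
      rw [e3, Complex.cpow_add _ _ hn', e4, hc, hx]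
      simp only
      have e5 : cexp (-(((r : ℂ) + v * I) * Real.log n)) * cexp ((r + v * I) * Real.log Y) =
          cexp (r * ((Real.log Y - Real.log n : ℝ) : ℂ)) *
            cexp (v * ((Real.log Y - Real.log n : ℝ) : ℂ) * I) := by
        rw [← Complex.exp_add, ← Complex.exp_add]
        congr 1
        push_cast
        ring
      linear_combination (a n * (n : ℂ) ^ (-((σ : ℂ) + t * I))) * e5
  -- the tail
  have htail : ‖∫ v in (Ioc (-(t / 2)) t)ᶜ, F v‖ ≤ L * Y ^ r * (2 * Real.pi / (t / 2)) := by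
    obtain ⟨hi, hv⟩ := BL_cauchy (L * Y ^ r) (t / 2) (by positivity)
    have h1 : ∀ v ∈ (Ioc (-(t / 2)) t)ᶜ, ‖F v‖ ≤ L * Y ^ r * (2 / (v ^ 2 + (t / 2) ^ 2)) := by
      intro v hv
      refine (hFn v).trans (mul_le_mul_of_nonneg_left ?_ (by positivity))
      have hv2 : (t / 2) ^ 2 ≤ v ^ 2 := by
        rw [mem_compl_iff, mem_Ioc, not_and_or, not_lt, not_le] at hv
        rcases hv with hv | hv
        · nlinarith
        · nlinarith
      have hge := BL_ge ((r : ℂ) + v * I)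
      rw [BL_im] at hge
      rw [hka]
      simp only
      have hq : 0 < (t / 2) ^ 2 := by positivity
      rw [norm_inv, inv_eq_one_div, div_le_div_iff₀ (norm_pos_iff.2 (hne v)) (by positivity)]
      linarith
    have h2 : ‖∫ v in (Ioc (-(t / 2)) t)ᶜ, F v‖ ≤
        ∫ v in (Ioc (-(t / 2)) t)ᶜ, L * Y ^ r * (2 / (v ^ 2 + (t / 2) ^ 2)) :=
      norm_integral_le_of_norm_le hi.integrableOn
        ((ae_restrict_iff' measurableSet_Ioc.compl).2 (ae_of_all _ h1))
    refine h2.trans ?_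
    rw [← hv]
    refine setIntegral_le_integral hi (ae_of_all _ fun v => ?_)
    simp only [Pi.zero_apply]
    positivity
  have hsplit := integral_add_compl (measurableSet_Ioc (a := -(t / 2)) (b := t)) hFi
  rw [hfull] at hsplit
  -- conclusion
  obtain ⟨J1, hJ1⟩ : ∃ J : ℂ, J = ∫ y in (0 : ℝ)..r, g (y + ((-(t / 2) : ℝ) : ℂ) * I) := ⟨_, rfl⟩
  obtain ⟨J2, hJ2⟩ : ∃ J : ℂ, J = ∫ y in (0 : ℝ)..r, g (y + (t : ℂ) * I) := ⟨_, rfl⟩
  obtain ⟨J3, hJ3⟩ : ∃ J : ℂ, J = ∫ y in (-(t / 2))..t, g ((0 : ℝ) + y * I) := ⟨_, rfl⟩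
  obtain ⟨J4, hJ4⟩ : ∃ J : ℂ, J = ∫ y in (-(t / 2))..t, g (r + y * I) := ⟨_, rfl⟩
  have hb1 : ‖J1‖ ≤ 4 * K * Y ^ r / t ^ 2 := by
    rw [hJ1]
    exact hhor (-(t / 2)) le_rfl (by linarith) (by nlinarith)
  have hb2 : ‖J2‖ ≤ 4 * K * Y ^ r / t ^ 2 := by
    rw [hJ2]
    exact hhor t (by linarith) le_rfl (by nlinarith)
  have hb3 : ‖J3‖ ≤ K * Real.pi := by rw [hJ3]; exact hleft
  have hR : J1 - J2 + I * J4 - I * J3 = 0 := by
    rw [hJ1, hJ2, hJ3, hJ4]
    exact hrect
  have hJ4e : J4 = J3 + I * (J1 - J2) := by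
    have hI : I * I = -1 := I_mul_I
    linear_combination (-I) * hR + (J4 - J3) * hI
  have hb4 : ‖J4‖ ≤ K * Real.pi + 8 * K * Y ^ r / t ^ 2 := by
    rw [hJ4e]
    refine (norm_add_le _ _).trans ?_
    rw [norm_mul, Complex.norm_I, one_mul]
    have := norm_sub_le J1 J2
    have e : 8 * K * Y ^ r / t ^ 2 = 4 * K * Y ^ r / t ^ 2 + 4 * K * Y ^ r / t ^ 2 := by ring
    rw [e]
    linarith
  have hW : ‖(Real.pi : ℂ) * Wb a σ t Y‖ ≤
      K * Real.pi + 8 * K * Y ^ r / t ^ 2 + L * Y ^ r * (2 * Real.pi / (t / 2)) := by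
    rw [← hsplit, ← hright, ← hJ4]
    exact (norm_add_le _ _).trans (add_le_add hb4 htail)
  rw [norm_mul, Complex.norm_real, Real.norm_of_nonneg Real.pi_pos.le] at hW
  have hpi := Real.pi_pos
  have hpi3 := Real.pi_gt_three
  have hW2 : ‖Wb a σ t Y‖ * Real.pi ≤
      (8 * (K + Y ^ r * (L / t + K / t ^ 2))) * Real.pi := by
    have e1 : 8 * K * Y ^ r / t ^ 2 = 8 * (Y ^ r * (K / t ^ 2)) := by ring
    have e2 : L * Y ^ r * (2 * Real.pi / (t / 2)) = 4 * Real.pi * (Y ^ r * (L / t)) := by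
      field_simp
      ring
    rw [e1, e2] at hW
    have p1 : 0 ≤ Y ^ r * (K / t ^ 2) := by positivity
    have p2 : 0 ≤ Y ^ r * (L / t) := by positivity
    have p3 : Y ^ r * (K / t ^ 2) ≤ Y ^ r * (K / t ^ 2) * Real.pi := by nlinarith
    have p4 : 0 ≤ K * Real.pi := by positivity
    have p5 : 0 ≤ Real.pi * (Y ^ r * (L / t)) := by positivity
    nlinarith
  exact le_of_mul_le_mul_right hW2 hpi

end Pool.Agent.PertZ
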