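import Pool.Agent.PertZ.Defs2
import Pool.Agent.PertZ.BL

/-!
# BLV: the smoothed initial sums approximate the function (helper78)
-/

set_option autoImplicit false

namespace Pool.Agent.PertZ

open MeasureTheory ProbabilityTheory Set Filter Topology Complex Pool.Agent.CW

/-- the kernel -/
noncomputable def BLV_q (c v : ℝ) : ℂ := ((c : ℂ) + v * I) * (1 - ((c : ℂ) + v * I) ^ 2)

theorem BLV_ne1 (w : ℂ) (h0 : -1 < w.re) (h1 : w.re < 1) : 1 - w ^ 2 ≠ 0 := by
  rw [BL_den]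
  apply mul_ne_zero
  · intro h
    have := congrArg Complex.re h
    simp only [sub_re, one_re, zero_re] at this
    linarith
  · intro h
    have := congrArg Complex.re h
    simp only [add_re, one_re, zero_re] at this
    linarith

theorem BLV_ne {c : ℝ} (hc : c ≠ 0) (h0 : -1 < c) (h1 : c < 1) (v : ℝ) : BLV_q c v ≠ 0 := by
  apply mul_ne_zero
  · intro h
    have := congrArg Complex.re h
    rw [BL_re] at this
    exact hc this
  · exact BLV_ne1 _ (by rw [BL_re]; exact h0) (by rw [BL_re]; exact h1)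

theorem BLV_ge (c v : ℝ) : |v| * v ^ 2 ≤ ‖BLV_q c v‖ := by
  unfold BLV_q
  rw [norm_mul]
  have h1 := abs_im_le_norm ((c : ℂ) + v * I)
  have h2 := BL_ge ((c : ℂ) + v * I)
  rw [BL_im] at h1 h2
  exact mul_le_mul h1 h2 (by positivity) (by positivity)

theorem BLV_tail {c t M : ℝ} (hc : c ≠ 0) (h0 : -1 < c) (h1 : c < 1) (ht : 0 < t) (hM : 0 ≤ M)
    (F : ℝ → ℂ) (hF : ∀ v, ‖F v‖ ≤ M * ‖(BLV_q c v)⁻¹‖) :
    ‖∫ v in (Ioc (-(t / 2)) t)ᶜ, F v‖ ≤ M * (8 * Real.pi / t ^ 2) := by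
  obtain ⟨hi, hv⟩ := BL_cauchy (M * (2 / t)) (t / 2) (by positivity)
  have h1 : ∀ v ∈ (Ioc (-(t / 2)) t)ᶜ, ‖F v‖ ≤ M * (2 / t) * (2 / (v ^ 2 + (t / 2) ^ 2)) := by
    intro v hv
    refine (hF v).trans ?_
    rw [mul_assoc]
    refine mul_le_mul_of_nonneg_left ?_ hM
    have hv2 : (t / 2) ≤ |v| := by
      rw [mem_compl_iff, mem_Ioc, not_and_or, not_lt, not_le] at hv
      rcases hv with hv | hv
      · rw [abs_of_nonpos (by linarith)]
        linarith
      · rw [abs_of_nonneg (by linarith)]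
        linarith
    have hv3 : (t / 2) ^ 2 ≤ v ^ 2 := by
      rw [← sq_abs v]
      exact pow_le_pow_left₀ (by positivity) hv2 2
    have hge := BLV_ge c v
    have hq : 0 < (t / 2) ^ 2 := by positivity
    have hb : t / 2 * v ^ 2 ≤ |v| * v ^ 2 := mul_le_mul_of_nonneg_right hv2 (by positivity)
    rw [norm_inv, inv_eq_one_div, div_mul_div_comm,
      div_le_div_iff₀ (norm_pos_iff.2 (BLV_ne hc h0 h1 v)) (by positivity)]
    nlinarith
  have h2 : ‖∫ v in (Ioc (-(t / 2)) t)ᶜ, F v‖ ≤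
      ∫ v in (Ioc (-(t / 2)) t)ᶜ, M * (2 / t) * (2 / (v ^ 2 + (t / 2) ^ 2)) :=
    norm_integral_le_of_norm_le hi.integrableOn
      ((ae_restrict_iff' measurableSet_Ioc.compl).2 (ae_of_all _ h1))
  refine h2.trans ?_
  have h3 : M * (8 * Real.pi / t ^ 2) = M * (2 / t) * (2 * Real.pi / (t / 2)) := by
    field_simp
    ring
  rw [h3, ← hv]
  refine setIntegral_le_integral hi (ae_of_all _ fun v => ?_)
  simp only [Pi.zero_apply]
  positivity

/-- the integral of the constant part -/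
theorem BLV_const (hF : P_FIL) {c t Y : ℝ} (hc : c ≠ 0) (h0 : -1 < c) (h1 : c < 1) (ht : 0 < t)
    (hY : 0 < Y) :
    Integrable (fun v : ℝ => cexp (((c : ℂ) + v * I) * Real.log Y) / BLV_q c v) ∧
    ∃ T : ℂ, ‖T‖ ≤ Y ^ c * (8 * Real.pi / t ^ 2) ∧
    ∫ v in Ioc (-(t / 2)) t, cexp (((c : ℂ) + v * I) * Real.log Y) / BLV_q c v =
      ((2 * Real.pi * (vw (Real.log Y) - if c < 0 then 1 else 0) : ℝ) : ℂ) - T := by
  have hYc : 0 < Y ^ c := Real.rpow_pos_of_pos hY c
  obtain ⟨F, hFd⟩ : ∃ F : ℝ → ℂ, F = fun v : ℝ =>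
    cexp (((c : ℂ) + v * I) * Real.log Y) / BLV_q c v := ⟨_, rfl⟩
  have e1 : F = fun v : ℝ => ((Y ^ c : ℝ) : ℂ) *
      (cexp (v * (Real.log Y : ℝ) * I) / BLV_q c v) := by
    rw [hFd]
    funext v
    rw [Real.rpow_def_of_pos hY, Complex.ofReal_exp, ← mul_div_assoc, ← Complex.exp_add]
    congr 2
    push_cast
    ring
  have hk := hF c (Real.log Y) hc h0 h1
  have hFi : Integrable F := by
    rw [e1]
    exact hk.1.const_mul _
  have hFt : ∫ v, F v =
      ((2 * Real.pi * (vw (Real.log Y) - if c < 0 then 1 else 0) : ℝ) : ℂ) := by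
    rw [e1, integral_const_mul]
    have e2 : ∫ v : ℝ, cexp (v * (Real.log Y : ℝ) * I) / BLV_q c v =
      ((2 * Real.pi * Real.exp (-(c * Real.log Y)) *
        (vw (Real.log Y) - if c < 0 then 1 else 0) : ℝ) : ℂ) := hk.2
    rw [e2, ← Complex.ofReal_mul]
    congr 1
    have e3 : Y ^ c * Real.exp (-(c * Real.log Y)) = 1 := by
      rw [Real.rpow_def_of_pos hY, ← Real.exp_add, mul_comm c, add_neg_cancel, Real.exp_zero]
    linear_combination (2 * Real.pi * (vw (Real.log Y) - if c < 0 then 1 else 0)) * e3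
  have hFn : ∀ v, ‖F v‖ ≤ Y ^ c * ‖(BLV_q c v)⁻¹‖ := by
    intro v
    rw [e1]
    simp only
    rw [norm_mul, norm_div, ← Complex.ofReal_mul, Complex.norm_exp_ofReal_mul_I, norm_inv,
      Complex.norm_real, Real.norm_of_nonneg hYc.le, one_div]
  have hsplit := integral_add_compl (measurableSet_Ioc (a := -(t / 2)) (b := t)) hFi
  refine ⟨by rw [← hFd]; exact hFi, ∫ v in (Ioc (-(t / 2)) t)ᶜ, F v,
    BLV_tail hc h0 h1 ht hYc.le F hFn, ?_⟩
  rw [← hFt, ← hsplit, ← hFd]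
  ring

theorem p_BLV (hF : P_FIL) : P_BLV := by
  intro h r hh0 hh1 hr0 hr1
  obtain ⟨A, hA⟩ : ∃ A : ℝ, A = ∫ v : ℝ, ‖(BLV_q (-h) v)⁻¹‖ := ⟨_, rfl⟩
  have hA0 : 0 ≤ A := by
    rw [hA]
    exact integral_nonneg fun v => norm_nonneg _
  refine ⟨14 + A, by positivity, ?_⟩
  intro a σ L K K' t Y f hσ ht hY hK hK' ha0 hsum hL hf hfl hser
  have hY0 : 0 < Y := by linarith
  have ht0 : 0 < t := by linarith
  have hYr : 0 < Y ^ r := Real.rpow_pos_of_pos hY0 r
  have hYh : 0 < Y ^ (-h) := Real.rpow_pos_of_pos hY0 _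
  have hYhr : Y ^ (-h) ≤ Y ^ r := Real.rpow_le_rpow_of_exponent_le hY (by linarith)
  have hL0 : 0 ≤ L := (tsum_nonneg fun n => by positivity).trans hL
  have hr0' : r ≠ 0 := hr0.ne'
  have hr1' : -1 < r := by linarith
  have hh0' : -h ≠ 0 := neg_ne_zero.2 hh0.ne'
  have hh1' : -1 < -h := by linarith
  have hh2' : -h < 1 := by linarith
  obtain ⟨x, hx⟩ : ∃ x : ℕ → ℝ, x = fun n : ℕ => Real.log Y - Real.log n := ⟨_, rfl⟩
  obtain ⟨c, hc⟩ : ∃ c : ℕ → ℂ, c = fun n : ℕ => a n * (n : ℂ) ^ (-((σ : ℂ) + t * I)) := ⟨_, rfl⟩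
  obtain ⟨b, hb⟩ : ∃ b : ℕ → ℝ, b = fun n : ℕ => ‖a n‖ * (n : ℝ) ^ (-(σ + r)) := ⟨_, rfl⟩
  have hbs : Summable b := by rw [hb]; exact hsum
  have hbL : ∑' n, b n ≤ L := by rw [hb]; exact hL
  have hb0 : ∀ n, 0 ≤ b n := fun n => by rw [hb]; positivity
  have hc0 : c 0 = 0 := by rw [hc]; simp [ha0]
  have hb00 : b 0 = 0 := by rw [hb]; simp [ha0]
  -- the size of the coefficients
  have hcn : ∀ n, ‖c n * cexp (r * x n)‖ = b n * Y ^ r := by
    intro n
    rcases Nat.eq_zero_or_pos n with rfl | hn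
    · rw [hc0, hb00]
      simp
    · have hn' : (0 : ℝ) < n := by exact_mod_cast hn
      have e1 : ‖(n : ℂ) ^ (-((σ : ℂ) + t * I))‖ = (n : ℝ) ^ (-σ) := by
        rw [Complex.norm_natCast_cpow_of_pos hn]
        congr 1
        simp
      have e2 : ‖cexp (r * x n)‖ = Y ^ r * (n : ℝ) ^ (-r) := by
        rw [Complex.norm_exp, hx, Real.rpow_def_of_pos hY0, Real.rpow_def_of_pos hn', ← Real.exp_add]
        congr 1
        simp only [mul_re, ofReal_re, ofReal_im, mul_zero, sub_zero]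
        ring
      have e3 : (n : ℝ) ^ (-(σ + r)) = (n : ℝ) ^ (-σ) * (n : ℝ) ^ (-r) := by
        rw [← Real.rpow_add hn']
        congr 1
        ring
      rw [norm_mul, e2, hc, hb]
      simp only
      rw [norm_mul, e1, e3]
      ring
  -- the kernel
  have hne : ∀ v : ℝ, BLV_q r v ≠ 0 := BLV_ne hr0' hr1' hr1
  have hnorm1 : ∀ (v y : ℝ), ‖cexp (v * y * I)‖ = 1 := by
    intro v y
    rw [← Complex.ofReal_mul, Complex.norm_exp_ofReal_mul_I]
  obtain ⟨ka, hka⟩ : ∃ ka : ℝ → ℝ, ka = fun v : ℝ => ‖(BLV_q r v)⁻¹‖ := ⟨_, rfl⟩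
  have hkai : Integrable ka := by
    have h1 := (hF r 0 hr0' hr1' hr1).1.norm
    rw [hka]
    refine h1.congr (ae_of_all _ fun v => ?_)
    simp [BLV_q]
  have hka0 : ∀ v, 0 ≤ ka v := fun v => by rw [hka]; positivity
  obtain ⟨G, hG⟩ : ∃ G : ℕ → ℝ → ℂ, G = fun (n : ℕ) (v : ℝ) => (c n * cexp (r * x n)) *
    (cexp (v * x n * I) / BLV_q r v) := ⟨_, rfl⟩
  have hGi : ∀ n, Integrable (G n) := by
    intro n
    rw [hG]
    exact (hF r (x n) hr0' hr1' hr1).1.const_mul _
  have hGn : ∀ n v, ‖G n v‖ = b n * Y ^ r * ka v := by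
    intro n v
    rw [hG, hka]
    simp only
    rw [norm_mul, hcn, norm_div, hnorm1, one_div, norm_inv]
  have hGs : Summable fun n => ∫ v, ‖G n v‖ := by
    have h1 : (fun n => ∫ v, ‖G n v‖) = fun n => b n * (Y ^ r * ∫ v, ka v) := by
      funext n
      simp only [hGn]
      rw [integral_const_mul]
      ring
    rw [h1]
    exact hbs.mul_right _
  have hsumG := hasSum_integral_of_summable_integral_norm hGi hGs
  -- the sum of the series on the line
  obtain ⟨S, hS⟩ : ∃ S : ℝ → ℂ, S = fun v : ℝ => ∑' n : ℕ, (c n * cexp (r * x n)) * cexp (v * x n * I) :=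
    ⟨_, rfl⟩
  have hbY : Summable fun n => b n * Y ^ r := hbs.mul_right _
  have hSt : ∀ n (v : ℝ), ‖(c n * cexp (r * x n)) * cexp (v * x n * I)‖ ≤ b n * Y ^ r := by
    intro n v
    rw [norm_mul, hcn, hnorm1, mul_one]
  have hSc : Continuous S := by
    rw [hS]
    refine continuous_tsum (fun n => ?_) hbY (fun n v => hSt n v)
    fun_prop
  have hSn : ∀ v, ‖S v‖ ≤ L * Y ^ r := by
    intro v
    rw [hS]
    have h1 := tsum_of_norm_bounded hbY.hasSum (fun n => hSt n v)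
    refine h1.trans ?_
    rw [tsum_mul_right]
    exact mul_le_mul_of_nonneg_right hbL hYr.le
  have hFS : ∀ v, ∑' n, G n v = S v / BLV_q r v := by
    intro v
    rw [hG, hS]
    simp only
    rw [← tsum_div_const]
    refine tsum_congr fun n => ?_
    rw [mul_div_assoc]
  obtain ⟨F, hFd⟩ : ∃ F : ℝ → ℂ, F = fun v : ℝ => S v / BLV_q r v := ⟨_, rfl⟩
  have hqc : Continuous fun v : ℝ => BLV_q r v := by
    unfold BLV_q
    fun_prop
  have hFc : Continuous F := by
    rw [hFd]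
    exact hSc.div hqc hne
  have hFn : ∀ v, ‖F v‖ ≤ L * Y ^ r * ka v := by
    intro v
    rw [hFd, hka]
    simp only
    rw [norm_div, norm_inv, div_eq_mul_inv]
    exact mul_le_mul_of_nonneg_right (hSn v) (by positivity)
  have hFi : Integrable F := Integrable.mono' (hkai.const_mul _) hFc.aestronglyMeasurable
    (ae_of_all _ hFn)
  -- the full integral is the smoothed initial sum
  have hfull : ∫ v, F v = 2 * Real.pi * Vb a σ t Y := by
    have h1 : ∫ v, F v = ∑' n, ∫ v, G n v := by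
      rw [hsumG.tsum_eq]
      refine integral_congr_ae (ae_of_all _ fun v => ?_)
      simp only
      rw [hFS, hFd]
    rw [h1]
    unfold Vb
    rw [← tsum_mul_left]
    refine tsum_congr fun n => ?_
    have h2 : ∫ v, G n v = (c n * cexp (r * x n)) *
        ((2 * Real.pi * Real.exp (-(r * x n)) * vw (x n) : ℝ) : ℂ) := by
      rw [hG]
      simp only
      have e0 : ∫ v : ℝ, cexp (v * x n * I) / BLV_q r v =
        ((2 * Real.pi * Real.exp (-(r * x n)) * (vw (x n) - if r < 0 then 1 else 0) : ℝ) : ℂ) :=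
        (hF r (x n) hr0' hr1' hr1).2
      rw [integral_const_mul, e0, if_neg (not_lt.2 hr0.le), sub_zero]
    rw [h2]
    rcases Nat.eq_zero_or_pos n with rfl | hn
    · rw [hc0, ha0]
      simp
    · have hn' : (0 : ℝ) < n := by exact_mod_cast hn
      have e1 : Real.log (Y / n) = x n := by
        rw [hx, Real.log_div hY0.ne' hn'.ne']
      have e4 : cexp (r * x n) * ((2 * Real.pi * Real.exp (-(r * x n)) * vw (x n) : ℝ) : ℂ) =
          2 * Real.pi * ((vw (x n) : ℝ) : ℂ) := by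
        push_cast
        have e5 : cexp (r * x n) * cexp (-(r * x n)) = 1 := by
          rw [← Complex.exp_add, add_neg_cancel, Complex.exp_zero]
        linear_combination (2 * Real.pi * ((vw (x n) : ℝ) : ℂ)) * e5
      rw [mul_assoc, e4, e1, hc]
      ring
  -- the rectangle
  obtain ⟨s, hs⟩ : ∃ s : ℂ, s = (σ : ℂ) + t * I := ⟨_, rfl⟩
  obtain ⟨g, hg⟩ : ∃ g : ℂ → ℂ, g = fun w : ℂ =>
    dslope f s (s + w) * cexp (w * Real.log Y) / (1 - w ^ 2) := ⟨_, rfl⟩
  have hmem : ∀ w : ℂ, -h ≤ w.re → w.re ≤ r → -(t / 2) ≤ w.im → w.im ≤ t →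
      AnalyticAt ℂ f (s + w) ∧ ‖f (s + w)‖ ≤ K' := by
    intro w h1 h2 h3 h4
    have e1 : (s + w).re = σ + w.re := by simp [hs]
    have e2 : (s + w).im = t + w.im := by simp [hs]
    exact hf _ (by rw [e1]; linarith) (by rw [e1]; linarith) (by rw [e2]; linarith)
      (by rw [e2]; linarith)
  have hfs := hmem 0 (by simp [hh0.le]) (by simp [hr0.le]) (by simp; linarith) (by simp [ht0.le])
  rw [add_zero] at hfs
  have hdiff : DifferentiableOn ℂ g
      ((uIcc (⟨-h, -(t / 2)⟩ : ℂ).re (⟨r, t⟩ : ℂ).re) ×ℂ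
        (uIcc (⟨-h, -(t / 2)⟩ : ℂ).im (⟨r, t⟩ : ℂ).im)) := by
    intro w hw
    simp only [mem_reProdIm] at hw
    rw [uIcc_of_le (by linarith : -h ≤ r), uIcc_of_le (by linarith : -(t / 2) ≤ t)] at hw
    obtain ⟨⟨h1, h2⟩, ⟨h3, h4⟩⟩ := hw
    have hA1 := (hmem w h1 h2 h3 h4).1
    have hA0 : DifferentiableAt ℂ (dslope f s) (s + w) := by
      by_cases hw0 : w = 0
      · rw [hw0, add_zero]
        have : AnalyticAt ℂ (dslope f s) s := by
          obtain ⟨p, hp⟩ := hfs.1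
          exact ⟨_, hp.has_fpower_series_dslope_fslope⟩
        exact this.differentiableAt
      · rw [differentiableAt_dslope_of_ne (by simpa using hw0)]
        exact hA1.differentiableAt
    rw [hg]
    have hA2 : DifferentiableAt ℂ (fun w : ℂ => dslope f s (s + w)) w :=
      DifferentiableAt.comp w hA0 ((differentiableAt_const _).add differentiableAt_id)
    have hB : DifferentiableAt ℂ (fun w : ℂ => cexp (w * Real.log Y)) w := by fun_prop
    have hD : DifferentiableAt ℂ (fun w : ℂ => 1 - w ^ 2) w := by fun_prop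
    exact ((hA2.mul hB).div hD (BLV_ne1 w (by linarith) (by linarith))).differentiableWithinAt
  have hrect := Complex.integral_boundary_rect_eq_zero_of_differentiableOn g _ _ hdiff
  simp only [smul_eq_mul] at hrect
  have hgw : ∀ w : ℂ, w ≠ 0 → g w = (f (s + w) - f s) * cexp (w * Real.log Y) /
      (w * (1 - w ^ 2)) := by
    intro w hw
    rw [hg]
    simp only
    rw [dslope_of_ne _ (by simpa using hw), slope_def_field, add_sub_cancel_left]
    field_simp
  have hexp : ∀ w : ℂ, ‖cexp (w * Real.log Y)‖ = Y ^ w.re := by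
    intro w
    rw [Complex.norm_exp, Real.rpow_def_of_pos hY0]
    congr 1
    simp
    ring
  -- horizontal sides
  have hhor : ∀ v : ℝ, -(t / 2) ≤ v → v ≤ t → t / 2 ≤ |v| →
      ‖∫ y in (-h : ℝ)..r, g (y + v * I)‖ ≤ 16 * K' * Y ^ r / t ^ 2 := by
    intro v hv1 hv2 hv3
    have h1 : ∀ y ∈ uIoc (-h : ℝ) r, ‖g (y + v * I)‖ ≤ 8 * K' * Y ^ r / t ^ 2 := by
      intro y hy
      rw [uIoc_of_le (by linarith)] at hy
      have hre : ((y : ℂ) + v * I).re = y := by simp
      have him : ((y : ℂ) + v * I).im = v := by simp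
      have hw0 : (y : ℂ) + v * I ≠ 0 := by
        intro h0
        have := congrArg Complex.im h0
        rw [him, zero_im] at this
        rw [this, abs_zero] at hv3
        linarith
      have hm := hmem ((y : ℂ) + v * I) (by rw [hre]; exact hy.1.le) (by rw [hre]; exact hy.2)
        (by rw [him]; exact hv1) (by rw [him]; exact hv2)
      rw [hgw _ hw0, norm_div, norm_mul, hexp, hre]
      have e1 : Y ^ y ≤ Y ^ r := Real.rpow_le_rpow_of_exponent_le hY hy.2
      have e2 : ‖f (s + ((y : ℂ) + v * I)) - f s‖ ≤ 2 * K' := by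
        refine (norm_sub_le _ _).trans ?_
        linarith [hm.2, hfs.2]
      have e3 : |v| * v ^ 2 ≤ ‖((y : ℂ) + v * I) * (1 - ((y : ℂ) + v * I) ^ 2)‖ := BLV_ge y v
      have e4 : t ^ 2 / 4 ≤ |v| * v ^ 2 := by
        have h5 : (t / 2) ^ 2 ≤ v ^ 2 := by
          rw [← sq_abs v]
          exact pow_le_pow_left₀ (by positivity) hv3 2
        have h6 : 1 ≤ |v| := by linarith
        nlinarith
      have e5 : ‖f (s + ((y : ℂ) + v * I)) - f s‖ * Y ^ y ≤ 2 * K' * Y ^ r :=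
        mul_le_mul e2 e1 (by positivity) (by positivity)
      calc ‖f (s + ((y : ℂ) + v * I)) - f s‖ * Y ^ y /
            ‖((y : ℂ) + v * I) * (1 - ((y : ℂ) + v * I) ^ 2)‖
          ≤ (2 * K' * Y ^ r) / (t ^ 2 / 4) :=
            div_le_div₀ (by positivity) e5 (by positivity) (e4.trans e3)
        _ = 8 * K' * Y ^ r / t ^ 2 := by
          field_simp
          ring
    have h2 := intervalIntegral.norm_integral_le_of_norm_le_const h1
    refine h2.trans ?_
    rw [abs_of_pos (by linarith)]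
    have h3 : 0 ≤ 8 * K' * Y ^ r / t ^ 2 := by positivity
    have h4 : 16 * K' * Y ^ r / t ^ 2 = 8 * K' * Y ^ r / t ^ 2 * 2 := by ring
    rw [h4]
    exact mul_le_mul_of_nonneg_left (by linarith) h3
  -- the constant parts
  obtain ⟨hi2, T2, hT2, hE2⟩ := BLV_const hF hr0' hr1' hr1 ht0 hY0
  obtain ⟨hi3, T3, hT3, hE3⟩ := BLV_const hF hh0' hh1' hh2' ht0 hY0
  rw [if_neg (not_lt.2 hr0.le), sub_zero] at hE2
  rw [if_pos (by linarith : -h < 0)] at hE3
  have hwne : ∀ (q v : ℝ), q ≠ 0 → (q : ℂ) + v * I ≠ 0 := by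
    intro q v hq h0
    have := congrArg Complex.re h0
    rw [BL_re, zero_re] at this
    exact hq this
  -- the left side
  obtain ⟨J3, hJ3⟩ : ∃ J : ℂ, J = ∫ y in (-(t / 2))..t, g ((-h : ℝ) + y * I) := ⟨_, rfl⟩
  have hgint : IntervalIntegrable (fun y : ℝ => g ((-h : ℝ) + y * I)) volume (-(t / 2)) t := by
    apply ContinuousOn.intervalIntegrable
    have : ContinuousOn (g ∘ fun y : ℝ => (((-h : ℝ) : ℂ) + y * I)) (uIcc (-(t / 2)) t) := by
      refine hdiff.continuousOn.comp (by fun_prop) ?_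
      intro y hy
      rw [mem_reProdIm]
      refine ⟨?_, ?_⟩
      · rw [BL_re]
        exact left_mem_uIcc
      · rw [BL_im]
        exact hy
    exact this
  have hJ3e : ‖J3 + f s * ∫ v in Ioc (-(t / 2)) t,
      cexp ((((-h : ℝ) : ℂ) + v * I) * Real.log Y) / BLV_q (-h) v‖ ≤ K * Y ^ (-h) * A := by
    rw [hJ3, intervalIntegral.integral_of_le (by linarith), ← integral_const_mul,
      ← integral_add ((intervalIntegrable_iff_integrableOn_Ioc_of_le (by linarith)).1 hgint)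
        (hi3.integrableOn.const_mul _), hA]
    have h1 : ∀ y ∈ Ioc (-(t / 2)) t, ‖g ((-h : ℝ) + y * I) + f s *
        (cexp ((((-h : ℝ) : ℂ) + y * I) * Real.log Y) / BLV_q (-h) y)‖ ≤
        K * Y ^ (-h) * ‖(BLV_q (-h) y)⁻¹‖ := by
      intro y hy
      have e1 : g ((-h : ℝ) + y * I) + f s *
          (cexp ((((-h : ℝ) : ℂ) + y * I) * Real.log Y) / BLV_q (-h) y) =
          f (s + (((-h : ℝ) : ℂ) + y * I)) * cexp ((((-h : ℝ) : ℂ) + y * I) * Real.log Y) *
            (BLV_q (-h) y)⁻¹ := by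
        rw [hgw _ (hwne _ _ hh0'), BLV_q]
        ring
      have e2 : s + (((-h : ℝ) : ℂ) + y * I) = ((σ - h : ℝ) : ℂ) + ((t + y : ℝ) : ℂ) * I := by
        rw [hs]
        push_cast
        ring
      rw [e1, norm_mul, norm_mul, hexp, BL_re, e2]
      exact mul_le_mul_of_nonneg_right (mul_le_mul_of_nonneg_right
        (hfl _ (by linarith [hy.1]) (by linarith [hy.2])) (by positivity)) (norm_nonneg _)
    have hki : Integrable fun v : ℝ => ‖(BLV_q (-h) v)⁻¹‖ := by
      have h1 := (hF (-h) 0 hh0' hh1' hh2').1.norm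
      refine h1.congr (ae_of_all _ fun v => ?_)
      simp [BLV_q]
    refine (norm_integral_le_of_norm_le ((hki.const_mul _).integrableOn)
      ((ae_restrict_iff' measurableSet_Ioc).2 (ae_of_all _ h1))).trans ?_
    rw [← integral_const_mul]
    refine setIntegral_le_integral (hki.const_mul _) (ae_of_all _ fun v => ?_)
    simp only [Pi.zero_apply]
    positivity
  -- the right side
  obtain ⟨J4, hJ4⟩ : ∃ J : ℂ, J = ∫ y in (-(t / 2))..t, g (r + y * I) := ⟨_, rfl⟩
  have hJ4e : J4 + f s * ∫ v in Ioc (-(t / 2)) t,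
      cexp (((r : ℂ) + v * I) * Real.log Y) / BLV_q r v = ∫ v in Ioc (-(t / 2)) t, F v := by
    have h1 : ∫ y in Ioc (-(t / 2)) t, g (r + y * I) = ∫ v in Ioc (-(t / 2)) t,
        (F v - f s * (cexp (((r : ℂ) + v * I) * Real.log Y) / BLV_q r v)) := by
      refine setIntegral_congr_fun measurableSet_Ioc fun v hv => ?_
      have e0 : f (s + ((r : ℂ) + v * I)) * cexp (((r : ℂ) + v * I) * Real.log Y) = S v := by
        have e1 : (s + ((r : ℂ) + v * I)).re = σ + r := by simp [hs]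
        have e2 : (s + ((r : ℂ) + v * I)).im = t + v := by simp [hs]
        rw [hser _ e1 (by rw [e2]; linarith [hv.1]) (by rw [e2]; linarith [hv.2]), hS]
        simp only
        rw [← tsum_mul_right]
        refine tsum_congr fun n => ?_
        rcases Nat.eq_zero_or_pos n with rfl | hn
        · rw [hc0, ha0]
          simp
        · have hn' : (n : ℂ) ≠ 0 := by exact_mod_cast hn.ne'
          have e3 : -(s + ((r : ℂ) + v * I)) = -((σ : ℂ) + t * I) + -(r + v * I) := by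
            rw [hs]
            ring
          have e4 : (n : ℂ) ^ (-((r : ℂ) + v * I)) = cexp (-((r + v * I) * Real.log n)) := by
            rw [Complex.cpow_def_of_ne_zero hn', Complex.natCast_log]
            congr 1
            ring
          rw [e3, Complex.cpow_add _ _ hn', e4, hc, hx]
          simp only
          have e5 : cexp (-(((r : ℂ) + v * I) * Real.log n)) * cexp ((r + v * I) * Real.log Y) =
              cexp (r * ((Real.log Y - Real.log n : ℝ) : ℂ)) *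
                cexp (v * ((Real.log Y - Real.log n : ℝ) : ℂ) * I) := by
            rw [← Complex.exp_add, ← Complex.exp_add]
            congr 1
            push_cast
            ring
          linear_combination (a n * (n : ℂ) ^ (-((σ : ℂ) + t * I))) * e5
      rw [hgw _ (hwne _ _ hr0'), hFd]
      simp only
      rw [← e0, BLV_q]
      ring
    rw [hJ4, intervalIntegral.integral_of_le (by linarith), h1,
      integral_sub hFi.integrableOn (hi2.integrableOn.const_mul _), integral_const_mul]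
    ring
  -- the tail
  have htail : ‖∫ v in (Ioc (-(t / 2)) t)ᶜ, F v‖ ≤ L * Y ^ r * (8 * Real.pi / t ^ 2) :=
    BLV_tail hr0' hr1' hr1 ht0 (by positivity) F (fun v => by
      have := hFn v
      rw [hka] at this
      exact this)
  have hsplit := integral_add_compl (measurableSet_Ioc (a := -(t / 2)) (b := t)) hFi
  rw [hfull] at hsplit
  -- conclusion
  obtain ⟨J1, hJ1⟩ : ∃ J : ℂ, J = ∫ y in (-h : ℝ)..r, g (y + ((-(t / 2) : ℝ) : ℂ) * I) := ⟨_, rfl⟩
  obtain ⟨J2, hJ2⟩ : ∃ J : ℂ, J = ∫ y in (-h : ℝ)..r, g (y + (t : ℂ) * I) := ⟨_, rfl⟩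
  have hb1 : ‖J1‖ ≤ 16 * K' * Y ^ r / t ^ 2 := by
    rw [hJ1]
    exact hhor (-(t / 2)) le_rfl (by linarith) (by rw [abs_neg, abs_of_pos (by positivity)])
  have hb2 : ‖J2‖ ≤ 16 * K' * Y ^ r / t ^ 2 := by
    rw [hJ2]
    exact hhor t (by linarith) le_rfl (by rw [abs_of_pos ht0]; linarith)
  have hR : J1 - J2 + I * J4 - I * J3 = 0 := by
    rw [hJ1, hJ2, hJ3, hJ4]
    exact hrect
  have hJ43 : J4 = J3 + I * (J1 - J2) := by
    have hI : I * I = -1 := I_mul_I
    linear_combination (-I) * hR + (J4 - J3) * hI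
  obtain ⟨Q, hQ⟩ : ∃ Q : ℂ, Q = J3 + f s * ∫ v in Ioc (-(t / 2)) t,
      cexp ((((-h : ℝ) : ℂ) + v * I) * Real.log Y) / BLV_q (-h) v := ⟨_, rfl⟩
  obtain ⟨T1, hT1⟩ : ∃ T : ℂ, T = ∫ v in (Ioc (-(t / 2)) t)ᶜ, F v := ⟨_, rfl⟩
  rw [← hQ] at hJ3e
  rw [← hT1] at htail hsplit
  rw [← hJ4e, hE2] at hsplit
  rw [hE3] at hQ
  have hfin : 2 * Real.pi * (f s - Vb a σ t Y) =
      -(Q + I * (J1 - J2) + T1) + f s * (T2 - T3) := by
    rw [hQ]
    push_cast
    push_cast at hsplit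
    linear_combination hsplit - hJ43
  have hn : ‖2 * (Real.pi : ℂ) * (f s - Vb a σ t Y)‖ ≤
      K * Y ^ (-h) * A + (16 * K' * Y ^ r / t ^ 2 + 16 * K' * Y ^ r / t ^ 2) +
        L * Y ^ r * (8 * Real.pi / t ^ 2) +
        K' * (Y ^ r * (8 * Real.pi / t ^ 2) + Y ^ (-h) * (8 * Real.pi / t ^ 2)) := by
    rw [hfin]
    refine (norm_add_le _ _).trans ?_
    rw [norm_neg, norm_mul]
    refine add_le_add ((norm_add_le _ _).trans (add_le_add ((norm_add_le _ _).trans
      (add_le_add hJ3e ?_)) htail)) ?_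
    · rw [norm_mul, Complex.norm_I, one_mul]
      exact (norm_sub_le _ _).trans (add_le_add hb1 hb2)
    · exact mul_le_mul hfs.2 ((norm_sub_le _ _).trans (add_le_add hT2 hT3)) (norm_nonneg _) hK'
  have hpi := Real.pi_pos
  have hpi3 := Real.pi_gt_three
  rw [norm_mul, norm_mul, Complex.norm_real, Real.norm_of_nonneg hpi.le, Complex.norm_ofNat,
    hs] at hn
  have hq : 0 ≤ Real.pi / t ^ 2 := by positivity
  have h3 : Y ^ (-h) * (8 * Real.pi / t ^ 2) ≤ Y ^ r * (8 * Real.pi / t ^ 2) :=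
    mul_le_mul_of_nonneg_right hYhr (by positivity)
  have h4 := mul_le_mul_of_nonneg_left h3 hK'
  have p1 : 0 ≤ Y ^ r * (K' / t ^ 2) := by positivity
  have p2 : 0 ≤ Y ^ r * (L / t ^ 2) := by positivity
  have p3 : 0 ≤ K * Y ^ (-h) := by positivity
  have e1 : 16 * K' * Y ^ r / t ^ 2 = 16 * (Y ^ r * (K' / t ^ 2)) := by ring
  have e2 : L * Y ^ r * (8 * Real.pi / t ^ 2) = 8 * Real.pi * (Y ^ r * (L / t ^ 2)) := by ring
  have e3 : K' * (Y ^ r * (8 * Real.pi / t ^ 2)) = 8 * Real.pi * (Y ^ r * (K' / t ^ 2)) := by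
    ring
  have e4 : Y ^ r * (L + K') / t ^ 2 = Y ^ r * (L / t ^ 2) + Y ^ r * (K' / t ^ 2) := by ring
  have h5 : ‖f ((σ : ℂ) + t * I) - Vb a σ t Y‖ * (2 * Real.pi) ≤
      ((14 + A) * (K * Y ^ (-h) + Y ^ r * (L + K') / t ^ 2)) * (2 * Real.pi) := by
    rw [e4]
    have q1 : 0 ≤ A * (Y ^ r * (K' / t ^ 2)) := by positivity
    have q2 : 0 ≤ A * (Y ^ r * (L / t ^ 2)) := by positivity
    have q3 : 0 ≤ A * (K * Y ^ (-h)) := by positivity
    have q4 : Y ^ r * (K' / t ^ 2) * 3 ≤ Y ^ r * (K' / t ^ 2) * Real.pi :=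
      mul_le_mul_of_nonneg_left hpi3.le p1
    have q5 : A * (K * Y ^ (-h)) * 3 ≤ A * (K * Y ^ (-h)) * Real.pi :=
      mul_le_mul_of_nonneg_left hpi3.le q3
    have q6 : 0 ≤ A * (Y ^ r * (K' / t ^ 2)) * Real.pi := by positivity
    have q7 : 0 ≤ A * (Y ^ r * (L / t ^ 2)) * Real.pi := by positivity
    have q8 : 0 ≤ K * Y ^ (-h) * Real.pi := by positivity
    have q9 : 0 ≤ Y ^ r * (L / t ^ 2) * Real.pi := by positivity
    nlinarith
  exact le_of_mul_le_mul_right h5 (by positivity)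

end Pool.Agent.PertZ
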