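import Pool.Agent.PertZ.Defs5
import Pool.Agent.PertZ.BLV

/-!
# BLW: bound of the smoothed initial sums by the values to the right
-/

set_option autoImplicit false

namespace Pool.Agent.PertZ

open MeasureTheory ProbabilityTheory Set Filter Topology Complex Pool.Agent.CW

theorem BLW_den (c v : ℝ) (h0 : 0 < c) (h1 : c < 1) :
    (1 - c) * (1 + v ^ 2) ≤ ‖1 - ((c : ℂ) + v * I) ^ 2‖ := by
  rw [BL_den, norm_mul]
  have e1 : ‖1 - ((c : ℂ) + v * I)‖ ^ 2 = (1 - c) ^ 2 + v ^ 2 := by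
    rw [← Complex.normSq_eq_norm_sq, Complex.normSq_apply]
    simp
    ring
  have e2 : ‖1 + ((c : ℂ) + v * I)‖ ^ 2 = (1 + c) ^ 2 + v ^ 2 := by
    rw [← Complex.normSq_eq_norm_sq, Complex.normSq_apply]
    simp
    ring
  have h3 : ((1 - c) * (1 + v ^ 2)) ^ 2 ≤
      (‖1 - ((c : ℂ) + v * I)‖ * ‖1 + ((c : ℂ) + v * I)‖) ^ 2 := by
    rw [mul_pow, mul_pow, e1, e2]
    have p1 : (1 - c) ^ 2 * (1 + v ^ 2) ≤ (1 - c) ^ 2 + v ^ 2 := by
      nlinarith [sq_nonneg v, mul_nonneg (mul_nonneg h0.le (by linarith : 0 ≤ 2 - c)) (sq_nonneg v)]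
    have p2 : 1 + v ^ 2 ≤ (1 + c) ^ 2 + v ^ 2 := by nlinarith
    calc (1 - c) ^ 2 * (1 + v ^ 2) ^ 2 = ((1 - c) ^ 2 * (1 + v ^ 2)) * (1 + v ^ 2) := by ring
      _ ≤ ((1 - c) ^ 2 + v ^ 2) * ((1 + c) ^ 2 + v ^ 2) :=
        mul_le_mul p1 p2 (by positivity) (by positivity)
  exact (sq_le_sq₀ (mul_nonneg (by linarith) (by positivity)) (by positivity)).mp h3

theorem BLW_int (hF : P_FIL) {c : ℝ} (h0 : 0 < c) (h1 : c < 1) :
    Integrable fun v : ℝ => (1 + |v|) * ‖(BLV_q c v)⁻¹‖ := by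
  have hki : Integrable fun v : ℝ => ‖(BLV_q c v)⁻¹‖ := by
    have h1 := (hF c 0 h0.ne' (by linarith) h1).1.norm
    refine h1.congr (ae_of_all _ fun v => ?_)
    simp [BLV_q]
  have hk2 : Integrable fun v : ℝ => |v| * ‖(BLV_q c v)⁻¹‖ := by
    have hb : Integrable fun v : ℝ => (1 - c)⁻¹ * (1 + v ^ 2)⁻¹ :=
      integrable_inv_one_add_sq.const_mul _
    refine Integrable.mono' hb ?_ (ae_of_all _ fun v => ?_)
    · exact (continuous_abs.aestronglyMeasurable).mul hki.aestronglyMeasurable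
    · rw [Real.norm_of_nonneg (by positivity)]
      have hne := BLV_ne h0.ne' (by linarith) h1 v
      have hpos : 0 < ‖BLV_q c v‖ := norm_pos_iff.2 hne
      have h2 : |v| * ((1 - c) * (1 + v ^ 2)) ≤ ‖BLV_q c v‖ := by
        unfold BLV_q
        rw [norm_mul]
        have h3 := abs_im_le_norm ((c : ℂ) + v * I)
        rw [BL_im] at h3
        exact mul_le_mul h3 (BLW_den c v h0 h1)
          (mul_nonneg (by linarith) (by positivity)) (by positivity)
      have hc1 : 0 < 1 - c := by linarith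
      rw [norm_inv, ← mul_inv, ← div_eq_mul_inv, div_le_iff₀ hpos, inv_mul_eq_div,
        le_div_iff₀ (by positivity)]
      exact h2
  have h3 := hki.add hk2
  refine h3.congr (ae_of_all _ fun v => ?_)
  simp only [Pi.add_apply]
  ring

theorem p_BLW (hF : P_FIL) : P_BLW := by
  intro δ r hh0 hh1 hr1
  obtain ⟨A, hA⟩ : ∃ A : ℝ, A = ∫ v : ℝ, (1 + |v|) * ‖(BLV_q δ v)⁻¹‖ := ⟨_, rfl⟩
  have hA0 : 0 ≤ A := by
    rw [hA]
    exact integral_nonneg fun v => by positivity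
  refine ⟨14 + A, by positivity, ?_⟩
  intro a σ L K₀ K₁ K' t Y f hσ ht hY hK₀ hK₁ hK' ha0 hsum hL hf hfl hser
  have hr0 : 0 < r := hh0.trans hh1
  have hY0 : 0 < Y := by linarith
  have ht0 : 0 < t := by linarith
  have hYr : 0 < Y ^ r := Real.rpow_pos_of_pos hY0 r
  have hYh : 0 < Y ^ δ := Real.rpow_pos_of_pos hY0 _
  have hL0 : 0 ≤ L := (tsum_nonneg fun n => by positivity).trans hL
  have hr0' : r ≠ 0 := hr0.ne'
  have hr1' : -1 < r := by linarith
  have hδ1 : δ < 1 := hh1.trans hr1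
  obtain ⟨x, hx⟩ : ∃ x : ℕ → ℝ, x = fun n : ℕ => Real.log Y - Real.log n := ⟨_, rfl⟩
  obtain ⟨c, hc⟩ : ∃ c : ℕ → ℂ, c = fun n : ℕ => a n * (n : ℂ) ^ (-((σ : ℂ) + t * I)) := ⟨_, rfl⟩
  obtain ⟨b, hb⟩ : ∃ b : ℕ → ℝ, b = fun n : ℕ => ‖a n‖ * (n : ℝ) ^ (-(σ + r)) := ⟨_, rfl⟩
  have hbs : Summable b := by rw [hb]; exact hsum
  have hbL : ∑' n, b n ≤ L := by rw [hb]; exact hL
  have hb0 : ∀ n, 0 ≤ b n := fun n => by rw [hb]; positivity
  have hc0 : c 0 = 0 := by rw [hc]; simp [ha0]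
  have hb00 : b 0 = 0 := by rw [hb]; simp [ha0]
  -- the size of the coefficients
  have hcn : ∀ n, ‖c n * cexp (r * x n)‖ = b n * Y ^ r := by
    intro n
    rcases Nat.eq_zero_or_pos n with rfl | hn
    · rw [hc0, hb00]
      simp
    · have hn' : (0 : ℝ) < n := by exact_mod_cast hn
      have e1 : ‖(n : ℂ) ^ (-((σ : ℂ) + t * I))‖ = (n : ℝ) ^ (-σ) := by
        rw [Complex.norm_natCast_cpow_of_pos hn]
        congr 1
        simp
      have e2 : ‖cexp (r * x n)‖ = Y ^ r * (n : ℝ) ^ (-r) := by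
        rw [Complex.norm_exp, hx, Real.rpow_def_of_pos hY0, Real.rpow_def_of_pos hn', ← Real.exp_add]
        congr 1
        simp only [mul_re, ofReal_re, ofReal_im, mul_zero, sub_zero]
        ring
      have e3 : (n : ℝ) ^ (-(σ + r)) = (n : ℝ) ^ (-σ) * (n : ℝ) ^ (-r) := by
        rw [← Real.rpow_add hn']
        congr 1
        ring
      rw [norm_mul, e2, hc, hb]
      simp only
      rw [norm_mul, e1, e3]
      ring
  -- the kernel
  have hne : ∀ v : ℝ, BLV_q r v ≠ 0 := BLV_ne hr0' hr1' hr1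
  have hnorm1 : ∀ (v y : ℝ), ‖cexp (v * y * I)‖ = 1 := by
    intro v y
    rw [← Complex.ofReal_mul, Complex.norm_exp_ofReal_mul_I]
  obtain ⟨ka, hka⟩ : ∃ ka : ℝ → ℝ, ka = fun v : ℝ => ‖(BLV_q r v)⁻¹‖ := ⟨_, rfl⟩
  have hkai : Integrable ka := by
    have h1 := (hF r 0 hr0' hr1' hr1).1.norm
    rw [hka]
    refine h1.congr (ae_of_all _ fun v => ?_)
    simp [BLV_q]
  have hka0 : ∀ v, 0 ≤ ka v := fun v => by rw [hka]; positivity
  obtain ⟨G, hG⟩ : ∃ G : ℕ → ℝ → ℂ, G = fun (n : ℕ) (v : ℝ) => (c n * cexp (r * x n)) *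
    (cexp (v * x n * I) / BLV_q r v) := ⟨_, rfl⟩
  have hGi : ∀ n, Integrable (G n) := by
    intro n
    rw [hG]
    exact (hF r (x n) hr0' hr1' hr1).1.const_mul _
  have hGn : ∀ n v, ‖G n v‖ = b n * Y ^ r * ka v := by
    intro n v
    rw [hG, hka]
    simp only
    rw [norm_mul, hcn, norm_div, hnorm1, one_div, norm_inv]
  have hGs : Summable fun n => ∫ v, ‖G n v‖ := by
    have h1 : (fun n => ∫ v, ‖G n v‖) = fun n => b n * (Y ^ r * ∫ v, ka v) := by
      funext n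
      simp only [hGn]
      rw [integral_const_mul]
      ring
    rw [h1]
    exact hbs.mul_right _
  have hsumG := hasSum_integral_of_summable_integral_norm hGi hGs
  -- the sum of the series on the line
  obtain ⟨S, hS⟩ : ∃ S : ℝ → ℂ, S = fun v : ℝ => ∑' n : ℕ, (c n * cexp (r * x n)) * cexp (v * x n * I) :=
    ⟨_, rfl⟩
  have hbY : Summable fun n => b n * Y ^ r := hbs.mul_right _
  have hSt : ∀ n (v : ℝ), ‖(c n * cexp (r * x n)) * cexp (v * x n * I)‖ ≤ b n * Y ^ r := by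
    intro n v
    rw [norm_mul, hcn, hnorm1, mul_one]
  have hSc : Continuous S := by
    rw [hS]
    refine continuous_tsum (fun n => ?_) hbY (fun n v => hSt n v)
    fun_prop
  have hSn : ∀ v, ‖S v‖ ≤ L * Y ^ r := by
    intro v
    rw [hS]
    have h1 := tsum_of_norm_bounded hbY.hasSum (fun n => hSt n v)
    refine h1.trans ?_
    rw [tsum_mul_right]
    exact mul_le_mul_of_nonneg_right hbL hYr.le
  have hFS : ∀ v, ∑' n, G n v = S v / BLV_q r v := by
    intro v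
    rw [hG, hS]
    simp only
    rw [← tsum_div_const]
    refine tsum_congr fun n => ?_
    rw [mul_div_assoc]
  obtain ⟨F, hFd⟩ : ∃ F : ℝ → ℂ, F = fun v : ℝ => S v / BLV_q r v := ⟨_, rfl⟩
  have hqc : Continuous fun v : ℝ => BLV_q r v := by
    unfold BLV_q
    fun_prop
  have hFc : Continuous F := by
    rw [hFd]
    exact hSc.div hqc hne
  have hFn : ∀ v, ‖F v‖ ≤ L * Y ^ r * ka v := by
    intro v
    rw [hFd, hka]
    simp only
    rw [norm_div, norm_inv, div_eq_mul_inv]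
    exact mul_le_mul_of_nonneg_right (hSn v) (by positivity)
  have hFi : Integrable F := Integrable.mono' (hkai.const_mul _) hFc.aestronglyMeasurable
    (ae_of_all _ hFn)
  -- the full integral is the smoothed initial sum
  have hfull : ∫ v, F v = 2 * Real.pi * Vb a σ t Y := by
    have h1 : ∫ v, F v = ∑' n, ∫ v, G n v := by
      rw [hsumG.tsum_eq]
      refine integral_congr_ae (ae_of_all _ fun v => ?_)
      simp only
      rw [hFS, hFd]
    rw [h1]
    unfold Vb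
    rw [← tsum_mul_left]
    refine tsum_congr fun n => ?_
    have h2 : ∫ v, G n v = (c n * cexp (r * x n)) *
        ((2 * Real.pi * Real.exp (-(r * x n)) * vw (x n) : ℝ) : ℂ) := by
      rw [hG]
      simp only
      have e0 : ∫ v : ℝ, cexp (v * x n * I) / BLV_q r v =
        ((2 * Real.pi * Real.exp (-(r * x n)) * (vw (x n) - if r < 0 then 1 else 0) : ℝ) : ℂ) :=
        (hF r (x n) hr0' hr1' hr1).2
      rw [integral_const_mul, e0, if_neg (not_lt.2 hr0.le), sub_zero]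
    rw [h2]
    rcases Nat.eq_zero_or_pos n with rfl | hn
    · rw [hc0, ha0]
      simp
    · have hn' : (0 : ℝ) < n := by exact_mod_cast hn
      have e1 : Real.log (Y / n) = x n := by
        rw [hx, Real.log_div hY0.ne' hn'.ne']
      have e4 : cexp (r * x n) * ((2 * Real.pi * Real.exp (-(r * x n)) * vw (x n) : ℝ) : ℂ) =
          2 * Real.pi * ((vw (x n) : ℝ) : ℂ) := by
        push_cast
        have e5 : cexp (r * x n) * cexp (-(r * x n)) = 1 := by
          rw [← Complex.exp_add, add_neg_cancel, Complex.exp_zero]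
        linear_combination (2 * Real.pi * ((vw (x n) : ℝ) : ℂ)) * e5
      rw [mul_assoc, e4, e1, hc]
      ring
  -- the rectangle
  obtain ⟨s, hs⟩ : ∃ s : ℂ, s = (σ : ℂ) + t * I := ⟨_, rfl⟩
  obtain ⟨g, hg⟩ : ∃ g : ℂ → ℂ, g = fun w : ℂ =>
    f (s + w) * cexp (w * Real.log Y) / (w * (1 - w ^ 2)) := ⟨_, rfl⟩
  have hmem : ∀ w : ℂ, δ ≤ w.re → w.re ≤ r → -(t / 2) ≤ w.im → w.im ≤ t →
      AnalyticAt ℂ f (s + w) ∧ ‖f (s + w)‖ ≤ K' := by
    intro w h1 h2 h3 h4
    have e1 : (s + w).re = σ + w.re := by simp [hs]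
    have e2 : (s + w).im = t + w.im := by simp [hs]
    exact hf _ (by rw [e1]; linarith) (by rw [e1]; linarith) (by rw [e2]; linarith)
      (by rw [e2]; linarith)
  have hdiff : DifferentiableOn ℂ g
      ((uIcc (⟨δ, -(t / 2)⟩ : ℂ).re (⟨r, t⟩ : ℂ).re) ×ℂ
        (uIcc (⟨δ, -(t / 2)⟩ : ℂ).im (⟨r, t⟩ : ℂ).im)) := by
    intro w hw
    simp only [mem_reProdIm] at hw
    rw [uIcc_of_le hh1.le, uIcc_of_le (by linarith : -(t / 2) ≤ t)] at hw
    obtain ⟨⟨h1, h2⟩, ⟨h3, h4⟩⟩ := hw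
    have hA1 := (hmem w h1 h2 h3 h4).1
    rw [hg]
    have hA2 : DifferentiableAt ℂ (fun w : ℂ => f (s + w)) w :=
      DifferentiableAt.comp w hA1.differentiableAt
        ((differentiableAt_const _).add differentiableAt_id)
    have hB : DifferentiableAt ℂ (fun w : ℂ => cexp (w * Real.log Y)) w := by fun_prop
    have hD : DifferentiableAt ℂ (fun w : ℂ => w * (1 - w ^ 2)) w := by fun_prop
    have hw0 : w ≠ 0 := by
      intro h0
      rw [h0, zero_re] at h1
      linarith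
    exact ((hA2.mul hB).div hD
      (mul_ne_zero hw0 (BLV_ne1 w (by linarith) (by linarith)))).differentiableWithinAt
  have hrect := Complex.integral_boundary_rect_eq_zero_of_differentiableOn g _ _ hdiff
  simp only [smul_eq_mul] at hrect
  have hexp : ∀ w : ℂ, ‖cexp (w * Real.log Y)‖ = Y ^ w.re := by
    intro w
    rw [Complex.norm_exp, Real.rpow_def_of_pos hY0]
    congr 1
    simp
    ring
  -- horizontal sides
  have hhor : ∀ v : ℝ, -(t / 2) ≤ v → v ≤ t → t / 2 ≤ |v| →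
      ‖∫ y in (δ : ℝ)..r, g (y + v * I)‖ ≤ 4 * K' * Y ^ r / t ^ 2 := by
    intro v hv1 hv2 hv3
    have h1 : ∀ y ∈ uIoc (δ : ℝ) r, ‖g (y + v * I)‖ ≤ 4 * K' * Y ^ r / t ^ 2 := by
      intro y hy
      rw [uIoc_of_le hh1.le] at hy
      have hre : ((y : ℂ) + v * I).re = y := by simp
      have him : ((y : ℂ) + v * I).im = v := by simp
      have hm := hmem ((y : ℂ) + v * I) (by rw [hre]; exact hy.1.le) (by rw [hre]; exact hy.2)
        (by rw [him]; exact hv1) (by rw [him]; exact hv2)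
      rw [hg]
      simp only
      rw [norm_div, norm_mul, hexp, hre]
      have e1 : Y ^ y ≤ Y ^ r := Real.rpow_le_rpow_of_exponent_le hY hy.2
      have e3 : |v| * v ^ 2 ≤ ‖((y : ℂ) + v * I) * (1 - ((y : ℂ) + v * I) ^ 2)‖ := BLV_ge y v
      have e4 : t ^ 2 / 4 ≤ |v| * v ^ 2 := by
        have h5 : (t / 2) ^ 2 ≤ v ^ 2 := by
          rw [← sq_abs v]
          exact pow_le_pow_left₀ (by positivity) hv3 2
        have h6 : 1 ≤ |v| := by linarith
        nlinarith
      have e5 : ‖f (s + ((y : ℂ) + v * I))‖ * Y ^ y ≤ K' * Y ^ r :=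
        mul_le_mul hm.2 e1 (by positivity) (by positivity)
      calc ‖f (s + ((y : ℂ) + v * I))‖ * Y ^ y /
            ‖((y : ℂ) + v * I) * (1 - ((y : ℂ) + v * I) ^ 2)‖
          ≤ (K' * Y ^ r) / (t ^ 2 / 4) :=
            div_le_div₀ (by positivity) e5 (by positivity) (e4.trans e3)
        _ = 4 * K' * Y ^ r / t ^ 2 := by
          field_simp
    have h2 := intervalIntegral.norm_integral_le_of_norm_le_const h1
    refine h2.trans ?_
    rw [abs_of_pos (by linarith)]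
    have h3 : 0 ≤ 4 * K' * Y ^ r / t ^ 2 := by positivity
    nlinarith
  -- the left side
  obtain ⟨J3, hJ3⟩ : ∃ J : ℂ, J = ∫ y in (-(t / 2))..t, g ((δ : ℝ) + y * I) := ⟨_, rfl⟩
  have hJ3e : ‖J3‖ ≤ (K₀ + K₁) * Y ^ δ * A := by
    rw [hJ3, intervalIntegral.integral_of_le (by linarith), hA]
    have h1 : ∀ y ∈ Ioc (-(t / 2)) t, ‖g ((δ : ℝ) + y * I)‖ ≤
        (K₀ + K₁) * Y ^ δ * ((1 + |y|) * ‖(BLV_q δ y)⁻¹‖) := by
      intro y hy
      have e2 : s + (((δ : ℝ) : ℂ) + y * I) = ((σ + δ : ℝ) : ℂ) + ((t + y : ℝ) : ℂ) * I := by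
        rw [hs]
        push_cast
        ring
      have e3 := hfl (t + y) (by linarith [hy.1]) (by linarith [hy.2])
      rw [add_sub_cancel_left] at e3
      have e4 : K₀ + K₁ * |y| ≤ (K₀ + K₁) * (1 + |y|) := by
        have := abs_nonneg y
        nlinarith
      have e1 : g ((δ : ℝ) + y * I) =
          f (s + (((δ : ℝ) : ℂ) + y * I)) * cexp ((((δ : ℝ) : ℂ) + y * I) * Real.log Y) *
            (BLV_q δ y)⁻¹ := by
        rw [hg, BLV_q]
        simp only
        rw [div_eq_mul_inv]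
      rw [e1, norm_mul, norm_mul, hexp, BL_re, e2]
      calc ‖f (((σ + δ : ℝ) : ℂ) + ((t + y : ℝ) : ℂ) * I)‖ * Y ^ δ * ‖(BLV_q δ y)⁻¹‖
          ≤ ((K₀ + K₁) * (1 + |y|)) * Y ^ δ * ‖(BLV_q δ y)⁻¹‖ :=
            mul_le_mul_of_nonneg_right (mul_le_mul_of_nonneg_right (e3.trans e4)
              (by positivity)) (norm_nonneg _)
        _ = (K₀ + K₁) * Y ^ δ * ((1 + |y|) * ‖(BLV_q δ y)⁻¹‖) := by ring
    have hki := BLW_int hF hh0 hδ1
    refine (norm_integral_le_of_norm_le ((hki.const_mul _).integrableOn)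
      ((ae_restrict_iff' measurableSet_Ioc).2 (ae_of_all _ h1))).trans ?_
    rw [← integral_const_mul]
    refine setIntegral_le_integral (hki.const_mul _) (ae_of_all _ fun v => ?_)
    simp only [Pi.zero_apply]
    positivity
  -- the right side
  obtain ⟨J4, hJ4⟩ : ∃ J : ℂ, J = ∫ y in (-(t / 2))..t, g (r + y * I) := ⟨_, rfl⟩
  have hJ4e : J4 = ∫ v in Ioc (-(t / 2)) t, F v := by
    rw [hJ4, intervalIntegral.integral_of_le (by linarith)]
    refine setIntegral_congr_fun measurableSet_Ioc fun v hv => ?_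
    have e0 : f (s + ((r : ℂ) + v * I)) * cexp (((r : ℂ) + v * I) * Real.log Y) = S v := by
      have e1 : (s + ((r : ℂ) + v * I)).re = σ + r := by simp [hs]
      have e2 : (s + ((r : ℂ) + v * I)).im = t + v := by simp [hs]
      rw [hser _ e1 (by rw [e2]; linarith [hv.1]) (by rw [e2]; linarith [hv.2]), hS]
      simp only
      rw [← tsum_mul_right]
      refine tsum_congr fun n => ?_
      rcases Nat.eq_zero_or_pos n with rfl | hn
      · rw [hc0, ha0]
        simp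
      · have hn' : (n : ℂ) ≠ 0 := by exact_mod_cast hn.ne'
        have e3 : -(s + ((r : ℂ) + v * I)) = -((σ : ℂ) + t * I) + -(r + v * I) := by
          rw [hs]
          ring
        have e4 : (n : ℂ) ^ (-((r : ℂ) + v * I)) = cexp (-((r + v * I) * Real.log n)) := by
          rw [Complex.cpow_def_of_ne_zero hn', Complex.natCast_log]
          congr 1
          ring
        rw [e3, Complex.cpow_add _ _ hn', e4, hc, hx]
        simp only
        have e5 : cexp (-(((r : ℂ) + v * I) * Real.log n)) * cexp ((r + v * I) * Real.log Y) =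
            cexp (r * ((Real.log Y - Real.log n : ℝ) : ℂ)) *
              cexp (v * ((Real.log Y - Real.log n : ℝ) : ℂ) * I) := by
          rw [← Complex.exp_add, ← Complex.exp_add]
          congr 1
          push_cast
          ring
        linear_combination (a n * (n : ℂ) ^ (-((σ : ℂ) + t * I))) * e5
    rw [hg, hFd]
    simp only
    rw [← e0, BLV_q]
  -- the tail
  have htail : ‖∫ v in (Ioc (-(t / 2)) t)ᶜ, F v‖ ≤ L * Y ^ r * (8 * Real.pi / t ^ 2) :=
    BLV_tail hr0' hr1' hr1 ht0 (by positivity) F (fun v => by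
      have := hFn v
      rw [hka] at this
      exact this)
  have hsplit := integral_add_compl (measurableSet_Ioc (a := -(t / 2)) (b := t)) hFi
  rw [hfull] at hsplit
  -- conclusion
  obtain ⟨J1, hJ1⟩ : ∃ J : ℂ, J = ∫ y in (δ : ℝ)..r, g (y + ((-(t / 2) : ℝ) : ℂ) * I) := ⟨_, rfl⟩
  obtain ⟨J2, hJ2⟩ : ∃ J : ℂ, J = ∫ y in (δ : ℝ)..r, g (y + (t : ℂ) * I) := ⟨_, rfl⟩
  have hb1 : ‖J1‖ ≤ 4 * K' * Y ^ r / t ^ 2 := by
    rw [hJ1]
    exact hhor (-(t / 2)) le_rfl (by linarith) (by rw [abs_neg, abs_of_pos (by positivity)])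
  have hb2 : ‖J2‖ ≤ 4 * K' * Y ^ r / t ^ 2 := by
    rw [hJ2]
    exact hhor t (by linarith) le_rfl (by rw [abs_of_pos ht0]; linarith)
  have hR : J1 - J2 + I * J4 - I * J3 = 0 := by
    rw [hJ1, hJ2, hJ3, hJ4]
    exact hrect
  have hJ43 : J4 = J3 + I * (J1 - J2) := by
    have hI : I * I = -1 := I_mul_I
    linear_combination (-I) * hR + (J4 - J3) * hI
  obtain ⟨T1, hT1⟩ : ∃ T : ℂ, T = ∫ v in (Ioc (-(t / 2)) t)ᶜ, F v := ⟨_, rfl⟩
  rw [← hT1] at htail hsplit
  rw [← hJ4e] at hsplit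
  have hfin : 2 * Real.pi * Vb a σ t Y = J3 + I * (J1 - J2) + T1 := by
    rw [← hsplit, hJ43]
  have hn : ‖2 * (Real.pi : ℂ) * Vb a σ t Y‖ ≤
      (K₀ + K₁) * Y ^ δ * A + (4 * K' * Y ^ r / t ^ 2 + 4 * K' * Y ^ r / t ^ 2) +
        L * Y ^ r * (8 * Real.pi / t ^ 2) := by
    rw [hfin]
    refine (norm_add_le _ _).trans (add_le_add ((norm_add_le _ _).trans
      (add_le_add hJ3e ?_)) htail)
    rw [norm_mul, Complex.norm_I, one_mul]
    exact (norm_sub_le _ _).trans (add_le_add hb1 hb2)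
  have hpi := Real.pi_pos
  have hpi3 := Real.pi_gt_three
  rw [norm_mul, norm_mul, Complex.norm_real, Real.norm_of_nonneg hpi.le,
    Complex.norm_ofNat] at hn
  have p1 : 0 ≤ Y ^ r * (K' / t ^ 2) := by positivity
  have p2 : 0 ≤ Y ^ r * (L / t ^ 2) := by positivity
  have p3 : 0 ≤ (K₀ + K₁) * Y ^ δ := by positivity
  have e1 : 4 * K' * Y ^ r / t ^ 2 = 4 * (Y ^ r * (K' / t ^ 2)) := by ring
  have e2 : L * Y ^ r * (8 * Real.pi / t ^ 2) = 8 * Real.pi * (Y ^ r * (L / t ^ 2)) := by ring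
  have e4 : Y ^ r * (L + K') / t ^ 2 = Y ^ r * (L / t ^ 2) + Y ^ r * (K' / t ^ 2) := by ring
  rw [e1, e2] at hn
  have h5 : ‖Vb a σ t Y‖ * (2 * Real.pi) ≤
      ((14 + A) * ((K₀ + K₁) * Y ^ δ + Y ^ r * (L + K') / t ^ 2)) * (2 * Real.pi) := by
    rw [e4]
    generalize (K₀ + K₁) * Y ^ δ = P at hn p3 ⊢
    generalize Y ^ r * (K' / t ^ 2) = Q at hn p1 ⊢
    generalize Y ^ r * (L / t ^ 2) = R at hn p2 ⊢
    have q1 : 0 ≤ A * Q * Real.pi := by positivity
    have q2 : 0 ≤ A * R * Real.pi := by positivity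
    have q3 : A * P * 3 ≤ A * P * Real.pi := mul_le_mul_of_nonneg_left hpi3.le (by positivity)
    have q4 : Q * 3 ≤ Q * Real.pi := mul_le_mul_of_nonneg_left hpi3.le p1
    have q5 : 0 ≤ P * Real.pi := by positivity
    have q6 : 0 ≤ R * Real.pi := by positivity
    have q7 : 0 ≤ A * P := by positivity
    nlinarith
  exact le_of_mul_le_mul_right h5 (by positivity)

end Pool.Agent.PertZ
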