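import Pool.Agent.PertZ.Defs6
import Pool.Agent.PertZ.DETX
import Pool.Agent.PertZ.ZST

/-!
# Block DETY: the mean is bounded for `B ≤ 1`
-/

set_option autoImplicit false

namespace Pool.Agent.PertZ

open MeasureTheory ProbabilityTheory Set Filter Topology Complex Pool.Agent.CW Pool.Agent.DBN

/-- the ratio for large heights, in a wider strip -/
theorem DETY_ratio : ∃ C : ℝ, 1 ≤ C ∧ ∀ h T : ℝ, |h| ≤ 3 / 4 → 2 ≤ T →
    ‖riemannZeta ((1 / 2 - h : ℝ) + T * I)‖ ≤
      C * T ^ h * ‖riemannZeta ((1 / 2 + h : ℝ) + T * I)‖ := by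
  obtain ⟨C, hC, hx⟩ := xi_two 2
  refine ⟨C * C, by nlinarith, fun h T hh hT => ?_⟩
  have hT0 : 0 < T := by linarith
  have hs : 0 < size T := by unfold size; positivity
  obtain ⟨hh1, hh2⟩ := abs_le.mp hh
  have hσ1 : |1 / 2 + h| ≤ 2 := by rw [abs_le]; constructor <;> linarith
  have hσ2 : |1 / 2 - h| ≤ 2 := by rw [abs_le]; constructor <;> linarith
  have h1 := (hx (1 / 2 + h) T hσ1 hT).1
  have h2 := (hx (1 / 2 - h) T hσ2 hT).2
  have h3 := norm_xi_symm (1 / 2 + h) T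
  have e1 : (1 - (1 / 2 + h) : ℝ) = 1 / 2 - h := by ring
  rw [e1] at h3
  rw [h3] at h2
  have e2 : (1 / 2 - h - 1 / 2) / 2 = -(h / 2) := by ring
  have e3 : (1 / 2 + h - 1 / 2) / 2 = h / 2 := by ring
  rw [e2] at h2
  rw [e3] at h1
  have hp3 : T ^ (h / 2) * T ^ (-(h / 2)) = 1 := by
    rw [← Real.rpow_add hT0]; simp
  have hp4 : T ^ (h / 2) * T ^ (h / 2) = T ^ h := by
    rw [← Real.rpow_add hT0]; congr 1; ring
  have hp1 : 0 < T ^ (h / 2) := by positivity
  set x := ‖riemannZeta ((1 / 2 - h : ℝ) + T * I)‖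
  set y := ‖riemannZeta ((1 / 2 + h : ℝ) + T * I)‖
  have h5 : T ^ (-(h / 2)) * size T * x ≤ C * (C * (T ^ (h / 2) * size T * y)) :=
    h2.trans (mul_le_mul_of_nonneg_left h1 (by linarith))
  have h6 : size T * x ≤ size T * (C * C * T ^ h * y) := by
    calc size T * x = T ^ (h / 2) * (T ^ (-(h / 2)) * size T * x) := by
          rw [← mul_assoc, ← mul_assoc, hp3, one_mul]
      _ ≤ T ^ (h / 2) * (C * (C * (T ^ (h / 2) * size T * y))) :=
          mul_le_mul_of_nonneg_left h5 hp1.le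
      _ = size T * (C * C * (T ^ (h / 2) * T ^ (h / 2)) * y) := by ring
      _ = _ := by rw [hp4]
  exact le_of_mul_le_mul_left h6 hs

/-- zeta is `O(T ^ (1/4))` to the right of the line `1` -/
theorem DETY_right : ∃ C : ℝ, 0 ≤ C ∧ ∀ s : ℂ, 1 ≤ s.re → s.re ≤ 3 → 1 / 2 ≤ s.im →
    ‖riemannZeta s‖ ≤ C * (1 + s.im) ^ (1 / 4 : ℝ) := by
  have h0 : MuLe (1 / 2 + 1 / 2) (1 / 4 - 1 / 2 / 2) := mu_convexity (by norm_num)
  have e0 : (1 / 2 + 1 / 2 : ℝ) = 1 := by norm_num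
  have e1 : (1 / 4 - 1 / 2 / 2 : ℝ) = 0 := by norm_num
  rw [e0, e1] at h0
  obtain ⟨C, hC⟩ := ZST_strip (by norm_num) le_rfl h0 (1 / 4) (by norm_num)
  refine ⟨|C|, abs_nonneg _, fun s h1 h2 h3 => ?_⟩
  have h4 := hC s h1 h2 h3
  rw [zero_add] at h4
  exact h4.trans (mul_le_mul_of_nonneg_right (le_abs_self _) (Real.rpow_nonneg (by linarith) _))

/-- zeta is `O(T)` in the strip `-1/4 ≤ Re s ≤ 3` -/
theorem DETY_strip (hZ : P_ZST) : ∃ C : ℝ, 0 ≤ C ∧ ∀ s : ℂ, -(1 / 4) ≤ s.re → s.re ≤ 3 →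
    2 ≤ s.im → ‖riemannZeta s‖ ≤ C * s.im := by
  obtain ⟨C1, hC1, H1⟩ := DETY_ratio
  obtain ⟨C2, hC2, H2⟩ := DETY_right
  obtain ⟨C3, H3⟩ := hZ.2.1 (1 / 2) (by norm_num)
  refine ⟨|C3| * 2 + C1 * C2 * 2, by positivity, fun s h1 h2 h3 => ?_⟩
  have hT0 : 0 < s.im := by linarith
  have hT1 : 1 ≤ s.im := by linarith
  rcases le_total 0 s.re with h | h
  · have h4 := H3 s h h2 (by linarith)
    rw [show (1 / 2 + 1 / 2 : ℝ) = 1 by norm_num, Real.rpow_one] at h4
    have h5 : C3 * (1 + s.im) ≤ |C3| * (1 + s.im) :=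
      mul_le_mul_of_nonneg_right (le_abs_self _) (by linarith)
    have h6 : |C3| * (1 + s.im) ≤ |C3| * (2 * s.im) :=
      mul_le_mul_of_nonneg_left (by linarith) (abs_nonneg _)
    have h7 : 0 ≤ C1 * C2 * 2 * s.im := by positivity
    nlinarith
  · have hh : |1 / 2 - s.re| ≤ 3 / 4 := by rw [abs_le]; constructor <;> linarith
    have h4 := H1 (1 / 2 - s.re) s.im hh h3
    have e1 : (((1 / 2 - (1 / 2 - s.re) : ℝ) : ℂ) + s.im * I) = s := by
      apply Complex.ext <;> simp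
    rw [e1] at h4
    have h5 := H2 (((1 / 2 + (1 / 2 - s.re) : ℝ) : ℂ) + s.im * I) (by simp; linarith)
      (by simp; linarith) (by simp; linarith)
    have e2 : ((((1 / 2 + (1 / 2 - s.re) : ℝ) : ℂ) + s.im * I)).im = s.im := by simp
    rw [e2] at h5
    have h6 : s.im ^ (1 / 2 - s.re) ≤ s.im ^ (3 / 4 : ℝ) :=
      Real.rpow_le_rpow_of_exponent_le hT1 (by linarith)
    have h7 : (1 + s.im) ^ (1 / 4 : ℝ) ≤ 2 * s.im ^ (1 / 4 : ℝ) := by
      calc (1 + s.im) ^ (1 / 4 : ℝ) ≤ (2 * s.im) ^ (1 / 4 : ℝ) :=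
            Real.rpow_le_rpow (by linarith) (by linarith) (by norm_num)
        _ = 2 ^ (1 / 4 : ℝ) * s.im ^ (1 / 4 : ℝ) := Real.mul_rpow (by norm_num) hT0.le
        _ ≤ 2 * s.im ^ (1 / 4 : ℝ) := by
            refine mul_le_mul_of_nonneg_right ?_ (by positivity)
            calc (2 : ℝ) ^ (1 / 4 : ℝ) ≤ 2 ^ (1 : ℝ) :=
                  Real.rpow_le_rpow_of_exponent_le (by norm_num) (by norm_num)
              _ = 2 := Real.rpow_one 2
    have h8 : s.im ^ (3 / 4 : ℝ) * s.im ^ (1 / 4 : ℝ) = s.im := by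
      rw [← Real.rpow_add hT0, show (3 / 4 + 1 / 4 : ℝ) = 1 by norm_num, Real.rpow_one]
    calc ‖riemannZeta s‖ ≤ C1 * s.im ^ (1 / 2 - s.re) *
          ‖riemannZeta (((1 / 2 + (1 / 2 - s.re) : ℝ) : ℂ) + s.im * I)‖ := h4
      _ ≤ C1 * s.im ^ (3 / 4 : ℝ) * (C2 * (2 * s.im ^ (1 / 4 : ℝ))) := by
          refine mul_le_mul ?_ (h5.trans (mul_le_mul_of_nonneg_left h7 hC2)) (norm_nonneg _)
            (by positivity)
          exact mul_le_mul_of_nonneg_left h6 (by linarith)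
      _ = C1 * C2 * 2 * (s.im ^ (3 / 4 : ℝ) * s.im ^ (1 / 4 : ℝ)) := by ring
      _ = C1 * C2 * 2 * s.im := by rw [h8]
      _ ≤ _ := by
          have : 0 ≤ |C3| * 2 * s.im := by positivity
          linarith

/-- the mean for bounded `t` -/
theorem DETY_mid (hA : P_SMA) (B : ℝ) (hB : 1 / 2 < B) :
    ∃ C : ℝ, ∀ t : ℝ, |t| ≤ 4 → ‖Dl B t‖ ≤ C := by
  have hone : ∀ n, ‖one' n‖ ≤ 1 := by
    intro n; unfold one'; split_ifs <;> simp
  obtain ⟨-, -, h3, -, -⟩ := hA one' B hB (by simp [one']) hone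
  obtain ⟨C₃, hC₃⟩ := h3 (1 / 2) (by norm_num) (by linarith) 1 one_pos
  have hzl : ∃ C : ℝ, ∀ t : ℝ, |t| ≤ 4 → ‖zl t‖ ≤ C := by
    have hc : ContinuousOn zl (Icc (-4) 4) := by
      refine Continuous.continuousOn ?_
      rw [continuous_iff_continuousAt]
      intro t
      unfold zl
      have h1 : (1 / 2 + (t : ℂ) * I) ≠ 1 := by
        intro h
        have := congrArg Complex.re h
        simp at this
      exact ((differentiableAt_riemannZeta h1).continuousAt).comp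
        (f := fun t : ℝ => (1 / 2 + (t : ℂ) * I)) (by fun_prop)
    obtain ⟨C, hC⟩ := isCompact_Icc.exists_bound_of_continuousOn hc
    exact ⟨C, fun t ht => hC t (abs_le.mp ht)⟩
  obtain ⟨C₁, hC₁⟩ := hzl
  set e : ℝ := max 0 ((1 - 1 / 2) / B) + 1 with he
  have he0 : 0 ≤ e := by positivity
  refine ⟨C₁ + |C₃| * 6 ^ e, fun t ht => ?_⟩
  have h := hC₃ (1 / 2 + t * I) (by simp)
  have hn : ‖(1 / 2 + t * I : ℂ)‖ ≤ 5 := by
    calc ‖(1 / 2 + t * I : ℂ)‖ ≤ ‖(1 / 2 : ℂ)‖ + ‖(t * I : ℂ)‖ := norm_add_le _ _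
      _ ≤ 5 := by
        rw [norm_mul, Complex.norm_I, mul_one, Complex.norm_real, Real.norm_eq_abs]
        norm_num
        linarith
  have h5 : (1 + ‖(1 / 2 + t * I : ℂ)‖) ^ e ≤ 6 ^ e :=
    Real.rpow_le_rpow (by positivity) (by linarith) he0
  have h6 : (0 : ℝ) ≤ (1 + ‖(1 / 2 + t * I : ℂ)‖) ^ e := by positivity
  calc ‖Dl B t‖ ≤ ‖zl t‖ + ‖Sm one' B (1 / 2 + t * I)‖ := norm_sub_le _ _
    _ ≤ C₁ + C₃ * (1 + ‖(1 / 2 + t * I : ℂ)‖) ^ e := add_le_add (hC₁ t ht) h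
    _ ≤ C₁ + |C₃| * (1 + ‖(1 / 2 + t * I : ℂ)‖) ^ e := by
        have := mul_le_mul_of_nonneg_right (le_abs_self C₃) h6
        linarith
    _ ≤ C₁ + |C₃| * 6 ^ e := by
        have := mul_le_mul_of_nonneg_left h5 (abs_nonneg C₃)
        linarith

/-- zeta on a line to the right of one -/
theorem DETY_line {σ : ℝ} (hσ : 1 < σ) : ∃ C : ℝ, 0 ≤ C ∧ ∀ v : ℝ,
    ‖riemannZeta ((σ : ℂ) + v * I)‖ ≤ C := by
  refine ⟨∑' n : ℕ, ‖one' n‖ * (n : ℝ) ^ (-σ), tsum_nonneg fun n => by positivity,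
    fun v => ?_⟩
  have hre : ((σ : ℂ) + v * I).re = σ := by simp
  rw [SBD_.zeta_eq (by rw [hre]; exact hσ)]
  refine (norm_tsum_le_tsum_norm ?_).trans (le_of_eq ?_)
  · refine (SBD_.summ hσ).congr fun n => ?_
    rcases Nat.eq_zero_or_pos n with h | h
    · subst h
      simp [one']
    · rw [norm_mul, Complex.norm_natCast_cpow_of_pos h, Complex.neg_re, hre]
  · refine tsum_congr fun n => ?_
    rcases Nat.eq_zero_or_pos n with h | h
    · subst h
      simp [one']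
    · rw [norm_mul, Complex.norm_natCast_cpow_of_pos h, Complex.neg_re, hre]

theorem p_DETY (hZ : P_ZST) (hB : P_BLV) (hH : P_HP) (hA : P_SMA) : P_DETY := by
  intro B hB1 hB2
  have hB0 : 0 < B := by linarith
  set h : ℝ := (1 / 2 + B) / 2 with hh
  have hh0 : 1 / 2 < h := by linarith
  have hh1 : h < B := by linarith
  have hh2 : h ≤ 3 / 4 := by linarith
  obtain ⟨Cb, hCb0, hCb⟩ := hB h h (by linarith) (by linarith) (by linarith) (by linarith)
  obtain ⟨Ch, hCh0, hCh⟩ := hH B h h hB1 (by linarith) hh1 (by linarith) hh1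
  obtain ⟨D, hD0, hD⟩ := DETY_strip hZ
  obtain ⟨C3, hC3, H3⟩ := DETY_ratio
  obtain ⟨M, hM0, hM⟩ := DETY_line (σ := 1 / 2 + h) (by linarith)
  obtain ⟨C', hC'⟩ := DETY_mid hA B hB1
  set L : ℝ := ∑' n : ℕ, ‖one' n‖ * (n : ℝ) ^ (-(1 / 2 + h : ℝ)) with hLd
  have hL0 : 0 ≤ L := tsum_nonneg fun n => by positivity
  set F : ℝ := C3 * 2 ^ |h| * M with hF
  have hF0 : 0 ≤ F := by positivity
  set Q : ℝ := Ch * (1 + 2 * D + Cb * F + Cb * (L + 2 * D)) with hQ
  have hpos : ∀ t : ℝ, 4 ≤ t → ‖Dl B t‖ ≤ Q := by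
    intro t ht
    have ht0 : 0 < t := by linarith
    have ht1 : 1 ≤ t := by linarith
    have ht2 : 2 ≤ t := by linarith
    set K' : ℝ := 2 * D * t with hK'
    have hK'0 : 0 ≤ K' := by positivity
    set K : ℝ := F * t ^ h with hK
    have hK0 : 0 ≤ K := by positivity
    have hzan : ∀ z : ℂ, t / 2 ≤ z.im → AnalyticAt ℂ riemannZeta z := by
      intro z h3
      have hz1 : z ≠ 1 := by
        rintro rfl
        simp at h3
        linarith
      have hop : IsOpen ({1}ᶜ : Set ℂ) := isOpen_compl_singleton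
      exact (DifferentiableOn.analyticAt (s := ({1}ᶜ : Set ℂ))
        (fun w hw => (differentiableAt_riemannZeta hw).differentiableWithinAt)
        (hop.mem_nhds hz1))
    have hzb : ∀ z : ℂ, -(1 / 4) ≤ z.re → z.re ≤ 3 → t / 2 ≤ z.im → z.im ≤ 2 * t →
        ‖riemannZeta z‖ ≤ K' := by
      intro z h1 h2 h3 h4
      have h5 := hD z h1 h2 (by linarith)
      refine h5.trans ?_
      rw [hK']
      nlinarith
    have hV : ∀ Y : ℝ, 1 ≤ Y → ‖zl t - Vb one' (1 / 2) t Y‖ ≤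
        Cb * K * Y ^ (-h) + Cb * ((L + K') / t ^ 2) * Y ^ h := by
      intro Y hY
      have hY0 : 0 < Y := by linarith
      have h1 := hCb one' (1 / 2) L K K' t Y riemannZeta (by norm_num) ht2 hY hK0 hK'0
        (by simp [one']) (SBD_.summ (by linarith)) le_rfl
        (fun z h1 h2 h3 h4 => ⟨hzan z h3, hzb z (by linarith) (by linarith) h3 h4⟩)
        (fun v h1 h2 => ?_) (fun z hz _ _ => SBD_.zeta_eq (by rw [hz]; linarith))
      · have e1 : riemannZeta (((1 / 2 : ℝ) : ℂ) + t * I) = zl t := by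
          unfold zl
          congr 2
          push_cast
          ring
        rw [e1] at h1
        refine h1.trans (le_of_eq ?_)
        ring
      · have hv2 : 2 ≤ v := by linarith
        have h5 := H3 h v (by rw [abs_le]; constructor <;> linarith) hv2
        have h6 : v ^ h ≤ 2 ^ |h| * t ^ h := DETX_pow h t v ht2 h1 h2
        calc ‖riemannZeta (((1 / 2 - h : ℝ) : ℂ) + v * I)‖
            ≤ C3 * v ^ h * ‖riemannZeta (((1 / 2 + h : ℝ) : ℂ) + v * I)‖ := h5
          _ ≤ C3 * (2 ^ |h| * t ^ h) * M := by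
              refine mul_le_mul ?_ (hM v) (norm_nonneg _) (by positivity)
              exact mul_le_mul_of_nonneg_left h6 (by linarith)
          _ = K := by rw [hK, hF]; ring
    have hfin := hCh t (Cb * K) (Cb * ((L + K') / t ^ 2)) ht2 (by positivity) (by positivity) hV
    refine hfin.trans ?_
    rw [hQ]
    refine mul_le_mul_of_nonneg_left ?_ hCh0.le
    have b1 : ‖zl t‖ / t ≤ 2 * D := by
      have h1 : ‖zl t‖ ≤ K' := by
        have := hzb (1 / 2 + t * I) (by simp; norm_num) (by simp; norm_num) (by simp; linarith)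
          (by simp; linarith)
        exact this
      rw [div_le_iff₀ ht0]
      exact h1
    have b2 : Cb * K * t ^ (-(h / B)) ≤ Cb * F := by
      have h1 : K * t ^ (-(h / B)) = F * t ^ (h + -(h / B)) := by
        rw [hK, Real.rpow_add ht0 h]
        ring
      rw [mul_assoc, h1]
      refine mul_le_mul_of_nonneg_left ?_ hCb0.le
      have h2 : t ^ (h + -(h / B)) ≤ 1 := by
        refine Real.rpow_le_one_of_one_le_of_nonpos ht1 ?_
        have h3 : h ≤ h / B := by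
          rw [le_div_iff₀ hB0]
          nlinarith
        linarith
      calc F * t ^ (h + -(h / B)) ≤ F * 1 := mul_le_mul_of_nonneg_left h2 hF0
        _ = F := mul_one F
    have b3 : Cb * ((L + K') / t ^ 2) * t ^ (h / B) ≤ Cb * (L + 2 * D) := by
      rw [mul_assoc]
      refine mul_le_mul_of_nonneg_left ?_ hCb0.le
      have h1 : t ^ (h / B) ≤ t := by
        calc t ^ (h / B) ≤ t ^ (1 : ℝ) := by
              refine Real.rpow_le_rpow_of_exponent_le ht1 ?_
              rw [div_le_one hB0]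
              exact hh1.le
          _ = t := Real.rpow_one t
      have h3 : L + K' ≤ (L + 2 * D) * t := by
        rw [hK']
        nlinarith
      calc (L + K') / t ^ 2 * t ^ (h / B) ≤ (L + 2 * D) * t / t ^ 2 * t := by
            gcongr
        _ = L + 2 * D := by
            field_simp
    linarith
  refine ⟨max Q C', fun t => ?_⟩
  rcases le_total |t| 4 with h4 | h4
  · exact (hC' t h4).trans (le_max_right _ _)
  · rcases le_total 0 t with h0 | h0
    · rw [abs_of_nonneg h0] at h4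
      exact (hpos t h4).trans (le_max_left _ _)
    · rw [abs_of_nonpos h0] at h4
      have h5 := hpos (-t) h4
      rw [DETX_Dl_conj, RCLike.norm_conj] at h5
      exact h5.trans (le_max_left _ _)

end Pool.Agent.PertZ
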