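import Pool.Agent.PertZ.Defs

/-!
# A Fourier integral (helper97)
-/

set_option autoImplicit false

namespace Pool.Agent.PertZ

open MeasureTheory Set Filter Topology Complex
open scoped FourierTransform Real

/-- the function `exp (-2 π |y| - 2 π r y)` -/
noncomputable def FIK_g (r y : ℝ) : ℂ := ((Real.exp (-|2 * π * y| - r * (2 * π * y)) : ℝ) : ℂ)

lemma FIK_den (r v : ℝ) :
    (1 - r ^ 2) * (1 + v ^ 2) ≤ ‖(1 : ℂ) - ((r : ℂ) + v * I) ^ 2‖ := by
  have h1 : ((1 : ℂ) - ((r : ℂ) + v * I) ^ 2).re = 1 - r ^ 2 + v ^ 2 := by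
    simp [pow_two]
    ring
  have h2 := Complex.re_le_norm ((1 : ℂ) - ((r : ℂ) + v * I) ^ 2)
  rw [h1] at h2
  have h3 : 0 ≤ r ^ 2 * v ^ 2 := by positivity
  nlinarith

lemma FIK_ne (r v : ℝ) (hr0 : 0 ≤ r) (hr1 : r < 1) :
    (1 : ℂ) - ((r : ℂ) + v * I) ^ 2 ≠ 0 := by
  intro h
  have h1 := FIK_den r v
  rw [h, norm_zero] at h1
  have h2 : 0 < 1 - r ^ 2 := by nlinarith
  have h3 : 0 < (1 - r ^ 2) * (1 + v ^ 2) := by positivity
  linarith

lemma FIK_int (r x : ℝ) (hr0 : 0 ≤ r) (hr1 : r < 1) :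
    Integrable (fun v : ℝ => Complex.exp (v * x * I) / (1 - ((r : ℂ) + v * I) ^ 2)) := by
  have h2 : 0 < 1 - r ^ 2 := by nlinarith
  have hc : Continuous
      (fun v : ℝ => Complex.exp (v * x * I) / (1 - ((r : ℂ) + v * I) ^ 2)) := by
    refine Continuous.div (by fun_prop) (by fun_prop) fun v => FIK_ne r v hr0 hr1
  refine (integrable_inv_one_add_sq.const_mul (1 - r ^ 2)⁻¹).mono' hc.aestronglyMeasurable
    (Eventually.of_forall fun v => ?_)
  have h3 : ‖Complex.exp (v * x * I)‖ = 1 := by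
    have : (v : ℂ) * x * I = ((v * x : ℝ) : ℂ) * I := by push_cast; ring
    rw [this, Complex.norm_exp_ofReal_mul_I]
  rw [norm_div, h3, one_div, ← mul_inv]
  have h4 : 0 < (1 - r ^ 2) * (1 + v ^ 2) := by positivity
  exact inv_anti₀ h4 (FIK_den r v)

lemma FIK_pos (r y : ℝ) (hy : 0 ≤ y) :
    FIK_g r y = Complex.exp (((-(2 * π * (1 + r)) : ℝ) : ℂ) * y) := by
  unfold FIK_g
  rw [abs_of_nonneg (by positivity), Complex.ofReal_exp]
  congr 1
  push_cast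
  ring

lemma FIK_neg (r y : ℝ) (hy : y ≤ 0) :
    FIK_g r y = Complex.exp (((2 * π * (1 - r) : ℝ) : ℂ) * y) := by
  unfold FIK_g
  have : 2 * π * y ≤ 0 := mul_nonpos_of_nonneg_of_nonpos (by positivity) hy
  rw [abs_of_nonpos this, Complex.ofReal_exp]
  congr 1
  push_cast
  ring

lemma FIK_e1 (r ξ y : ℝ) (hy : 0 ≤ y) :
    Complex.exp (((-2 * π * y * ξ : ℝ) : ℂ) * I) • FIK_g r y =
      Complex.exp ((-(2 * π * (1 + ((r : ℂ) + ξ * I)))) * y) := by
  rw [FIK_pos r y hy, smul_eq_mul, ← Complex.exp_add]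
  congr 1
  push_cast
  ring

lemma FIK_e2 (r ξ y : ℝ) (hy : y ≤ 0) :
    Complex.exp (((-2 * π * y * ξ : ℝ) : ℂ) * I) • FIK_g r y =
      Complex.exp ((2 * π * (1 - ((r : ℂ) + ξ * I))) * y) := by
  rw [FIK_neg r y hy, smul_eq_mul, ← Complex.exp_add]
  congr 1
  push_cast
  ring

lemma FIK_four (r ξ : ℝ) (hr0 : 0 ≤ r) (hr1 : r < 1) :
    (IntegrableOn (fun y : ℝ => Complex.exp (((-2 * π * y * ξ : ℝ) : ℂ) * I) • FIK_g r y)
      (Iic 0) ∧
    IntegrableOn (fun y : ℝ => Complex.exp (((-2 * π * y * ξ : ℝ) : ℂ) * I) • FIK_g r y)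
      (Ioi 0)) ∧
    ∫ y : ℝ, Complex.exp (((-2 * π * y * ξ : ℝ) : ℂ) * I) • FIK_g r y =
      (π : ℂ)⁻¹ * (1 / (1 - ((r : ℂ) + ξ * I) ^ 2)) := by
  have ha : 0 < (2 * π * (1 - ((r : ℂ) + ξ * I))).re := by
    have : (2 * π * (1 - ((r : ℂ) + ξ * I))).re = 2 * π * (1 - r) := by simp
    rw [this]
    have : 0 < 1 - r := by linarith
    positivity
  have hb : (-(2 * π * (1 + ((r : ℂ) + ξ * I)))).re < 0 := by
    have : (-(2 * π * (1 + ((r : ℂ) + ξ * I)))).re = -(2 * π * (1 + r)) := by simp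
    rw [this]
    have : 0 < 2 * π * (1 + r) := by positivity
    linarith
  have hi1 : IntegrableOn
      (fun y : ℝ => Complex.exp (((-2 * π * y * ξ : ℝ) : ℂ) * I) • FIK_g r y) (Iic 0) := by
    refine (integrableOn_exp_mul_complex_Iic ha 0).congr_fun (fun y hy => ?_)
      measurableSet_Iic
    exact (FIK_e2 r ξ y hy).symm
  have hi2 : IntegrableOn
      (fun y : ℝ => Complex.exp (((-2 * π * y * ξ : ℝ) : ℂ) * I) • FIK_g r y) (Ioi 0) := by
    refine (integrableOn_exp_mul_complex_Ioi hb 0).congr_fun (fun y hy => ?_)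
      measurableSet_Ioi
    exact (FIK_e1 r ξ y (le_of_lt hy)).symm
  refine ⟨⟨hi1, hi2⟩, ?_⟩
  rw [← intervalIntegral.integral_Iic_add_Ioi hi1 hi2,
    setIntegral_congr_fun measurableSet_Iic (fun y hy => FIK_e2 r ξ y hy),
    setIntegral_congr_fun measurableSet_Ioi (fun y hy => FIK_e1 r ξ y (le_of_lt hy)),
    integral_exp_mul_complex_Iic ha 0, integral_exp_mul_complex_Ioi hb 0]
  have hπ : (π : ℂ) ≠ 0 := by exact_mod_cast Real.pi_ne_zero
  have h1 : (1 : ℂ) - ((r : ℂ) + ξ * I) ≠ 0 := by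
    intro h
    rw [h] at ha
    simp at ha
  have h2 : (1 : ℂ) + ((r : ℂ) + ξ * I) ≠ 0 := by
    intro h
    rw [h] at hb
    simp at hb
  have h3 := FIK_ne r ξ hr0 hr1
  have h4 : (1 : ℂ) - ((r : ℂ) + ξ * I) ^ 2 =
      (1 - ((r : ℂ) + ξ * I)) * (1 + ((r : ℂ) + ξ * I)) := by ring
  rw [h4]
  simp only [ofReal_zero, mul_zero, Complex.exp_zero]
  field_simp
  ring

theorem p_FIK : P_FIK := by
  intro r x hr0 hr1
  refine ⟨FIK_int r x hr0 hr1, ?_⟩
  have hg : Integrable (FIK_g r) := by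
    obtain ⟨⟨h1, h2⟩, _⟩ := FIK_four r 0 hr0 hr1
    have h3 : Integrable
        (fun y : ℝ => Complex.exp (((-2 * π * y * (0 : ℝ) : ℝ) : ℂ) * I) • FIK_g r y) := by
      rw [← integrableOn_univ, ← Iic_union_Ioi (a := (0 : ℝ))]
      exact h1.union h2
    refine h3.congr (Eventually.of_forall fun y => ?_)
    simp
  have hgc : Continuous (FIK_g r) := by
    unfold FIK_g
    fun_prop
  have hF : 𝓕 (FIK_g r) = fun ξ : ℝ => (π : ℂ)⁻¹ * (1 / (1 - ((r : ℂ) + ξ * I) ^ 2)) := by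
    ext ξ
    rw [Real.fourier_real_eq_integral_exp_smul]
    exact (FIK_four r ξ hr0 hr1).2
  have hFi : Integrable (𝓕 (FIK_g r)) := by
    rw [hF]
    refine ((FIK_int r 0 hr0 hr1).const_mul (π : ℂ)⁻¹).congr (Eventually.of_forall fun y => ?_)
    simp
  have hinv := congrFun (hgc.fourierInv_fourier_eq hg hFi) (x / (2 * π))
  rw [Real.fourierInv_eq', hF] at hinv
  have hπ0 : (π : ℝ) ≠ 0 := Real.pi_ne_zero
  have hπ : (π : ℂ) ≠ 0 := by exact_mod_cast hπ0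
  have h1 : ∀ v : ℝ, Complex.exp (((2 * π * (inner ℝ v (x / (2 * π))) : ℝ) : ℂ) * I) •
      ((π : ℂ)⁻¹ * (1 / (1 - ((r : ℂ) + v * I) ^ 2))) =
      (π : ℂ)⁻¹ * (Complex.exp (v * x * I) / (1 - ((r : ℂ) + v * I) ^ 2)) := by
    intro v
    have h2 : ((2 * π * (inner ℝ v (x / (2 * π))) : ℝ) : ℂ) * I = v * x * I := by
      have : (2 * π * (inner ℝ v (x / (2 * π))) : ℝ) = v * x := by
        simp only [RCLike.inner_apply, conj_trivial]
        field_simp
      rw [this]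
      push_cast
      ring
    rw [h2, smul_eq_mul]
    ring
  simp only [h1] at hinv
  rw [integral_const_mul] at hinv
  have h5 : FIK_g r (x / (2 * π)) = ((Real.exp (-|x| - r * x) : ℝ) : ℂ) := by
    unfold FIK_g
    have : 2 * π * (x / (2 * π)) = x := by field_simp
    rw [this]
  rw [h5] at hinv
  rw [inv_mul_eq_iff_eq_mul₀ hπ] at hinv
  rw [hinv]
  push_cast
  ring

end Pool.Agent.PertZ
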