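import Pool.Agent.PertZ.Defs2

/-!
# A Fourier integral, with a pole (helper84)
-/

set_option autoImplicit false

namespace Pool.Agent.PertZ

open MeasureTheory Set Filter Topology Complex
open scoped FourierTransform Real

/-- the inverse transform -/
noncomputable def FIL_g (c y : ℝ) : ℂ :=
  ((Real.exp (-(c * (2 * π * y))) * (vw (2 * π * y) - if c < 0 then 1 else 0) : ℝ) : ℂ)

lemma FIL_vwc : Continuous vw := by
  unfold vw
  refine Continuous.if_le (by fun_prop) (by fun_prop) continuous_const continuous_id ?_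
  intro x hx
  rw [← hx]
  norm_num

lemma FIL_one (c v : ℝ) :
    (1 - c ^ 2) * (1 + v ^ 2) ≤ ‖(1 : ℂ) - ((c : ℂ) + v * I) ^ 2‖ := by
  have h1 : ((1 : ℂ) - ((c : ℂ) + v * I) ^ 2).re = 1 - c ^ 2 + v ^ 2 := by
    simp [pow_two]
    ring
  have h2 := Complex.re_le_norm ((1 : ℂ) - ((c : ℂ) + v * I) ^ 2)
  rw [h1] at h2
  have h3 : 0 ≤ c ^ 2 * v ^ 2 := by positivity
  nlinarith

lemma FIL_two (c v : ℝ) : |c| ≤ ‖(c : ℂ) + v * I‖ := by
  have h := Complex.abs_re_le_norm ((c : ℂ) + v * I)
  simpa using h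

lemma FIL_den (c v : ℝ) :
    |c| * ((1 - c ^ 2) * (1 + v ^ 2)) ≤ ‖((c : ℂ) + v * I) * (1 - ((c : ℂ) + v * I) ^ 2)‖ := by
  rw [norm_mul]
  have h1 := FIL_one c v
  have h2 := FIL_two c v
  have h3 : 0 ≤ |c| := abs_nonneg c
  calc |c| * ((1 - c ^ 2) * (1 + v ^ 2))
      ≤ |c| * ‖(1 : ℂ) - ((c : ℂ) + v * I) ^ 2‖ := mul_le_mul_of_nonneg_left h1 h3
    _ ≤ _ := mul_le_mul_of_nonneg_right h2 (norm_nonneg _)

lemma FIL_ne (c v : ℝ) (h0 : c ≠ 0) (h1 : -1 < c) (h2 : c < 1) :
    ((c : ℂ) + v * I) * (1 - ((c : ℂ) + v * I) ^ 2) ≠ 0 := by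
  intro h
  have h3 := FIL_den c v
  rw [h, norm_zero] at h3
  have h4 : 0 < 1 - c ^ 2 := by nlinarith
  have h5 : 0 < |c| := abs_pos.2 h0
  have h6 : 0 < |c| * ((1 - c ^ 2) * (1 + v ^ 2)) := by positivity
  linarith

lemma FIL_int (c x : ℝ) (h0 : c ≠ 0) (h1 : -1 < c) (h2 : c < 1) :
    Integrable (fun v : ℝ => Complex.exp (v * x * I) /
      (((c : ℂ) + v * I) * (1 - ((c : ℂ) + v * I) ^ 2))) := by
  have h4 : 0 < 1 - c ^ 2 := by nlinarith
  have h5 : 0 < |c| := abs_pos.2 h0
  have hc : Continuous (fun v : ℝ => Complex.exp (v * x * I) /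
      (((c : ℂ) + v * I) * (1 - ((c : ℂ) + v * I) ^ 2))) := by
    refine Continuous.div (by fun_prop) (by fun_prop) fun v => FIL_ne c v h0 h1 h2
  refine (integrable_inv_one_add_sq.const_mul (|c| * (1 - c ^ 2))⁻¹).mono' hc.aestronglyMeasurable
    (Eventually.of_forall fun v => ?_)
  have h3 : ‖Complex.exp (v * x * I)‖ = 1 := by
    have : (v : ℂ) * x * I = ((v * x : ℝ) : ℂ) * I := by push_cast; ring
    rw [this, Complex.norm_exp_ofReal_mul_I]
  rw [norm_div, h3, one_div, ← mul_inv]
  have h6 : 0 < |c| * (1 - c ^ 2) * (1 + v ^ 2) := by positivity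
  refine inv_anti₀ h6 ?_
  rw [mul_assoc]
  exact FIL_den c v

/-- integral over the line of a function given by exponentials on both sides -/
lemma FIL_split (f : ℝ → ℂ) (p q α β : ℂ) (hp : 0 < p.re) (hq : q.re < 0) (s : ℂ)
    (A B : ℂ) (h1 : ∀ y : ℝ, y ≤ 0 → f y = A * Complex.exp (p * y) + α * Complex.exp (s * y))
    (h2 : ∀ y : ℝ, 0 ≤ y → f y = B * Complex.exp (q * y) + β * Complex.exp (s * y))
    (hs : (s.re < 0 ∧ α = 0) ∨ (0 < s.re ∧ β = 0)) :
    Integrable f ∧ ∫ y : ℝ, f y = A / p - B / q + (α - β) / s := by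
  have hs0 : s ≠ 0 := by
    rintro rfl
    simp at hs
  have hi1 : IntegrableOn f (Iic 0) ∧ ∫ y in Iic (0 : ℝ), f y = A / p + α / s := by
    rcases hs with ⟨_, ha⟩ | ⟨hs, _⟩
    · have e : EqOn (fun y : ℝ => A * Complex.exp (p * y)) f (Iic 0) := by
        intro y hy
        simp only
        rw [h1 y hy, ha, zero_mul, add_zero]
      have i1 : IntegrableOn (fun y : ℝ => A * Complex.exp (p * y)) (Iic 0) :=
        (integrableOn_exp_mul_complex_Iic hp 0).const_mul A
      refine ⟨i1.congr_fun e measurableSet_Iic, ?_⟩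
      rw [← setIntegral_congr_fun measurableSet_Iic e, integral_const_mul,
        integral_exp_mul_complex_Iic hp 0, ha]
      simp [div_eq_mul_inv]
    · have e : EqOn (fun y : ℝ => A * Complex.exp (p * y) + α * Complex.exp (s * y)) f (Iic 0) := by
        intro y hy
        simp only
        rw [h1 y hy]
      have i1 := (integrableOn_exp_mul_complex_Iic hp 0).const_mul A
      have i2 := (integrableOn_exp_mul_complex_Iic hs 0).const_mul α
      have i3 : IntegrableOn (fun y : ℝ => A * Complex.exp (p * y) + α * Complex.exp (s * y))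
        (Iic 0) := i1.add i2
      refine ⟨i3.congr_fun e measurableSet_Iic, ?_⟩
      rw [← setIntegral_congr_fun measurableSet_Iic e, integral_add i1 i2, integral_const_mul,
        integral_const_mul, integral_exp_mul_complex_Iic hp 0, integral_exp_mul_complex_Iic hs 0]
      simp [div_eq_mul_inv]
  have hi2 : IntegrableOn f (Ioi 0) ∧ ∫ y in Ioi (0 : ℝ), f y = -(B / q) - β / s := by
    rcases hs with ⟨hs, _⟩ | ⟨_, hb⟩
    · have e : EqOn (fun y : ℝ => B * Complex.exp (q * y) + β * Complex.exp (s * y)) f (Ioi 0) := by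
        intro y hy
        simp only
        rw [h2 y (le_of_lt hy)]
      have i1 := (integrableOn_exp_mul_complex_Ioi hq 0).const_mul B
      have i2 := (integrableOn_exp_mul_complex_Ioi hs 0).const_mul β
      have i3 : IntegrableOn (fun y : ℝ => B * Complex.exp (q * y) + β * Complex.exp (s * y))
        (Ioi 0) := i1.add i2
      refine ⟨i3.congr_fun e measurableSet_Ioi, ?_⟩
      rw [← setIntegral_congr_fun measurableSet_Ioi e, integral_add i1 i2, integral_const_mul,
        integral_const_mul, integral_exp_mul_complex_Ioi hq 0, integral_exp_mul_complex_Ioi hs 0]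
      simp [div_eq_mul_inv]
      ring
    · have e : EqOn (fun y : ℝ => B * Complex.exp (q * y)) f (Ioi 0) := by
        intro y hy
        simp only
        rw [h2 y (le_of_lt hy), hb, zero_mul, add_zero]
      have i1 : IntegrableOn (fun y : ℝ => B * Complex.exp (q * y)) (Ioi 0) :=
        (integrableOn_exp_mul_complex_Ioi hq 0).const_mul B
      refine ⟨i1.congr_fun e measurableSet_Ioi, ?_⟩
      rw [← setIntegral_congr_fun measurableSet_Ioi e, integral_const_mul,
        integral_exp_mul_complex_Ioi hq 0, hb]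
      simp [div_eq_mul_inv]
  refine ⟨?_, ?_⟩
  · rw [← integrableOn_univ, ← Iic_union_Ioi (a := (0 : ℝ))]
    exact hi1.1.union hi2.1
  · rw [← intervalIntegral.integral_Iic_add_Ioi hi1.1 hi2.1, hi1.2, hi2.2]
    ring

lemma FIL_four (c ξ : ℝ) (h0 : c ≠ 0) (h1 : -1 < c) (h2 : c < 1) :
    Integrable (fun y : ℝ => Complex.exp (((-2 * π * y * ξ : ℝ) : ℂ) * I) • FIL_g c y) ∧
    ∫ y : ℝ, Complex.exp (((-2 * π * y * ξ : ℝ) : ℂ) * I) • FIL_g c y =
      (2 * π : ℂ)⁻¹ * (1 / (((c : ℂ) + ξ * I) * (1 - ((c : ℂ) + ξ * I) ^ 2))) := by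
  have hπ : (π : ℂ) ≠ 0 := by exact_mod_cast Real.pi_ne_zero
  set w : ℂ := (c : ℂ) + ξ * I with hw
  have hwre : w.re = c := by simp [hw]
  set d : ℂ := if c < 0 then 1 else 0 with hd
  have hp : 0 < (2 * π * (1 - w)).re := by
    have : (2 * π * (1 - w)).re = 2 * π * (1 - c) := by simp [hw]
    rw [this]
    have : 0 < 1 - c := by linarith
    positivity
  have hq : (-(2 * π * (1 + w))).re < 0 := by
    have : (-(2 * π * (1 + w))).re = -(2 * π * (1 + c)) := by simp [hw]
    rw [this]
    have : 0 < 1 + c := by linarith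
    have : 0 < 2 * π * (1 + c) := by positivity
    linarith
  have hsre : (-(2 * π * w)).re = -(2 * π * c) := by simp [hw]
  have key := FIL_split (fun y : ℝ => Complex.exp (((-2 * π * y * ξ : ℝ) : ℂ) * I) • FIL_g c y)
    (2 * π * (1 - w)) (-(2 * π * (1 + w))) (-d) (1 - d) hp hq (-(2 * π * w)) (1 / 2) (-(1 / 2))
    ?_ ?_ ?_
  · refine ⟨key.1, ?_⟩
    rw [key.2]
    have hne := FIL_ne c ξ h0 h1 h2
    rw [← hw] at hne
    have hw0 : w ≠ 0 := fun h => hne (by rw [h]; simp)
    have hw1 : 1 - w ≠ 0 := by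
      intro h
      rw [h] at hp
      simp at hp
    have hw2 : 1 + w ≠ 0 := by
      intro h
      rw [h] at hq
      simp at hq
    have h4 : 1 - w ^ 2 = (1 - w) * (1 + w) := by ring
    rw [h4]
    field_simp
    ring
  · intro y hy
    have hv : vw (2 * π * y) = Real.exp (2 * π * y) / 2 := by
      unfold vw
      split_ifs with h
      · have : 2 * π * y ≤ 0 := mul_nonpos_of_nonneg_of_nonpos (by positivity) hy
        have : 2 * π * y = 0 := le_antisymm this h
        rw [this]
        norm_num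
      · rfl
    have hf : FIL_g c y = 1 / 2 * Complex.exp (2 * π * (1 - c) * y) +
        -d * Complex.exp (-(2 * π * c) * y) := by
      unfold FIL_g
      rw [hv, hd]
      have e : Complex.exp (2 * π * (1 - c) * y) =
          Complex.exp (-(2 * π * c) * y) * Complex.exp (2 * π * y) := by
        rw [← Complex.exp_add]; congr 1; ring
      rw [e]
      have e2 : Complex.exp (-(2 * π * c) * y) = ((Real.exp (-(c * (2 * π * y))) : ℝ) : ℂ) := by
        rw [Complex.ofReal_exp]; congr 1; push_cast; ring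
      have e3 : Complex.exp (2 * π * y) = ((Real.exp (2 * π * y) : ℝ) : ℂ) := by
        rw [Complex.ofReal_exp]; congr 1; push_cast; ring
      rw [e2, e3]
      split_ifs <;> push_cast <;> ring
    simp only [smul_eq_mul]
    rw [hf]
    have e4 : Complex.exp (2 * π * (1 - w) * y) =
        Complex.exp (((-2 * π * y * ξ : ℝ) : ℂ) * I) * Complex.exp (2 * π * (1 - c) * y) := by
      rw [← Complex.exp_add]; congr 1; rw [hw]; push_cast; ring
    have e5 : Complex.exp (-(2 * π * w) * y) =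
        Complex.exp (((-2 * π * y * ξ : ℝ) : ℂ) * I) * Complex.exp (-(2 * π * c) * y) := by
      rw [← Complex.exp_add]; congr 1; rw [hw]; push_cast; ring
    rw [e4, e5]
    ring
  · intro y hy
    have hv : vw (2 * π * y) = 1 - Real.exp (-(2 * π * y)) / 2 := by
      unfold vw
      rw [if_pos (by positivity)]
    have hf : FIL_g c y = -(1 / 2) * Complex.exp (-(2 * π * (1 + c)) * y) +
        (1 - d) * Complex.exp (-(2 * π * c) * y) := by
      unfold FIL_g
      rw [hv, hd]
      have e : Complex.exp (-(2 * π * (1 + c)) * y) =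
          Complex.exp (-(2 * π * c) * y) * Complex.exp (-(2 * π * y)) := by
        rw [← Complex.exp_add]; congr 1; ring
      rw [e]
      have e2 : Complex.exp (-(2 * π * c) * y) = ((Real.exp (-(c * (2 * π * y))) : ℝ) : ℂ) := by
        rw [Complex.ofReal_exp]; congr 1; push_cast; ring
      have e3 : Complex.exp (-(2 * π * y)) = ((Real.exp (-(2 * π * y)) : ℝ) : ℂ) := by
        rw [Complex.ofReal_exp]; congr 1; push_cast; ring
      rw [e2, e3]
      split_ifs <;> push_cast <;> ring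
    simp only [smul_eq_mul]
    rw [hf]
    have e4 : Complex.exp (-(2 * π * (1 + w)) * y) =
        Complex.exp (((-2 * π * y * ξ : ℝ) : ℂ) * I) *
          Complex.exp (-(2 * π * (1 + c)) * y) := by
      rw [← Complex.exp_add]; congr 1; rw [hw]; push_cast; ring
    have e5 : Complex.exp (-(2 * π * w) * y) =
        Complex.exp (((-2 * π * y * ξ : ℝ) : ℂ) * I) * Complex.exp (-(2 * π * c) * y) := by
      rw [← Complex.exp_add]; congr 1; rw [hw]; push_cast; ring
    rw [e4, e5]
    ring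
  · rw [hsre, hd]
    have hpi := Real.pi_pos
    rcases lt_or_gt_of_ne h0 with h | h
    · right
      refine ⟨by nlinarith, by simp [h]⟩
    · left
      refine ⟨by nlinarith, by simp [not_lt.2 h.le]⟩

theorem p_FIL : P_FIL := by
  intro c x h0 h1 h2
  refine ⟨FIL_int c x h0 h1 h2, ?_⟩
  have hg : Integrable (FIL_g c) := by
    refine (FIL_four c 0 h0 h1 h2).1.congr (Eventually.of_forall fun y => ?_)
    simp
  have hgc : Continuous (FIL_g c) := by
    unfold FIL_g
    have := FIL_vwc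
    fun_prop
  have hF : 𝓕 (FIL_g c) = fun ξ : ℝ => (2 * π : ℂ)⁻¹ *
      (1 / (((c : ℂ) + ξ * I) * (1 - ((c : ℂ) + ξ * I) ^ 2))) := by
    ext ξ
    rw [Real.fourier_real_eq_integral_exp_smul]
    exact (FIL_four c ξ h0 h1 h2).2
  have hFi : Integrable (𝓕 (FIL_g c)) := by
    rw [hF]
    refine ((FIL_int c 0 h0 h1 h2).const_mul (2 * π : ℂ)⁻¹).congr
      (Eventually.of_forall fun y => ?_)
    simp
  have hinv := congrFun (hgc.fourierInv_fourier_eq hg hFi) (x / (2 * π))
  rw [Real.fourierInv_eq', hF] at hinv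
  have hπ0 : (π : ℝ) ≠ 0 := Real.pi_ne_zero
  have hπ : (2 * π : ℂ) ≠ 0 := by
    have : (π : ℂ) ≠ 0 := by exact_mod_cast hπ0
    simp
  have h1 : ∀ v : ℝ, Complex.exp (((2 * π * (inner ℝ v (x / (2 * π))) : ℝ) : ℂ) * I) •
      ((2 * π : ℂ)⁻¹ * (1 / (((c : ℂ) + v * I) * (1 - ((c : ℂ) + v * I) ^ 2)))) =
      (2 * π : ℂ)⁻¹ * (Complex.exp (v * x * I) /
        (((c : ℂ) + v * I) * (1 - ((c : ℂ) + v * I) ^ 2))) := by
    intro v
    have h2 : ((2 * π * (inner ℝ v (x / (2 * π))) : ℝ) : ℂ) * I = v * x * I := by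
      have : (2 * π * (inner ℝ v (x / (2 * π))) : ℝ) = v * x := by
        simp only [RCLike.inner_apply, conj_trivial]
        field_simp
      rw [this]
      push_cast
      ring
    rw [h2, smul_eq_mul]
    ring
  simp only [h1] at hinv
  rw [integral_const_mul] at hinv
  have h5 : FIL_g c (x / (2 * π)) =
      ((Real.exp (-(c * x)) * (vw x - if c < 0 then 1 else 0) : ℝ) : ℂ) := by
    unfold FIL_g
    have : 2 * π * (x / (2 * π)) = x := by field_simp
    rw [this]
  rw [h5] at hinv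
  rw [inv_mul_eq_iff_eq_mul₀ hπ] at hinv
  rw [hinv]
  push_cast
  ring

end Pool.Agent.PertZ
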