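import Pool.Agent.PertZ.Defs

/-!
# Fluctuations of sums of functions of independent variables, uniformly in the parameter
-/

set_option autoImplicit false

namespace Pool.Agent.PertZ

open MeasureTheory ProbabilityTheory Set Filter Topology Complex Pool.Agent.CW

/-- cut-off -/
noncomputable def FLU_N (k : ℕ) : ℕ := min k ⌊((k : ℝ) + 1) ^ (1 / 8 : ℝ)⌋₊

lemma FLU_N_le (k : ℕ) : FLU_N k ≤ k := min_le_left _ _

lemma FLU_N_le' (k : ℕ) : (FLU_N k : ℝ) ≤ ((k : ℝ) + 1) ^ (1 / 8 : ℝ) := by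
  have h1 : (FLU_N k : ℝ) ≤ (⌊((k : ℝ) + 1) ^ (1 / 8 : ℝ)⌋₊ : ℝ) :=
    Nat.cast_le.mpr (min_le_right _ _)
  exact h1.trans (Nat.floor_le (by positivity))

lemma FLU_N_ge (k : ℕ) : ((k : ℝ) + 1) ^ (1 / 8 : ℝ) ≤ (FLU_N k : ℝ) + 1 := by
  unfold FLU_N
  rcases min_choice k ⌊((k : ℝ) + 1) ^ (1 / 8 : ℝ)⌋₊ with h | h
  · rw [h]
    calc ((k : ℝ) + 1) ^ (1 / 8 : ℝ) ≤ ((k : ℝ) + 1) ^ (1 : ℝ) :=
        Real.rpow_le_rpow_of_exponent_le (by linarith [Nat.cast_nonneg (α := ℝ) k]) (by norm_num)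
      _ = _ := Real.rpow_one _
  · rw [h]
    exact (Nat.lt_floor_add_one _).le

lemma FLU_tau_diff (q : ℕ) (hq : 2 ≤ q) (k : ℕ) :
    ((k : ℝ) + 1) ^ (1 / (q : ℝ)) - (k : ℝ) ^ (1 / (q : ℝ)) ≤
      ((k : ℝ) + 1) ^ (-(1 / 2) : ℝ) := by
  have hk : (0 : ℝ) < (k : ℝ) + 1 := by positivity
  have hq' : (2 : ℝ) ≤ q := by exact_mod_cast hq
  have hr0 : 0 ≤ 1 / (q : ℝ) := by positivity
  have hr1 : 1 / (q : ℝ) ≤ 1 / 2 := one_div_le_one_div_of_le (by norm_num) hq'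
  set r : ℝ := 1 / (q : ℝ) with hr
  set y : ℝ := (k : ℝ) / ((k : ℝ) + 1) with hy
  have hy0 : 0 ≤ y := by positivity
  have hy1 : y ≤ 1 := by rw [hy, div_le_one hk]; linarith
  have h1 : y ≤ y ^ r := by
    calc y = y ^ (1 : ℝ) := (Real.rpow_one y).symm
      _ ≤ y ^ r := Real.rpow_le_rpow_of_exponent_ge' hy0 hy1 hr0 (by linarith)
  have h2 : (k : ℝ) ^ r = ((k : ℝ) + 1) ^ r * y ^ r := by
    rw [← Real.mul_rpow hk.le hy0, hy, mul_div_cancel₀ _ hk.ne']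
  have h3 : ((k : ℝ) + 1) ^ r * y ≤ (k : ℝ) ^ r := by
    rw [h2]; exact mul_le_mul_of_nonneg_left h1 (by positivity)
  have h4 : ((k : ℝ) + 1) ^ r * y = ((k : ℝ) + 1) ^ r - ((k : ℝ) + 1) ^ (r - 1) := by
    rw [Real.rpow_sub_one hk.ne', hy]; field_simp; ring
  have h5 : ((k : ℝ) + 1) ^ (r - 1) ≤ ((k : ℝ) + 1) ^ (-(1 / 2) : ℝ) :=
    Real.rpow_le_rpow_of_exponent_le (by linarith [Nat.cast_nonneg (α := ℝ) k]) (by linarith)
  linarith

lemma FLU_det (D : ℕ → ℝ → ℂ) (x c : ℕ → ℝ) (δ K C₁ : ℝ) (u : ℝ → ℝ) (q : ℕ)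
    (hx : ∀ n, 0 ≤ x n) (hc : ∀ n, 0 ≤ c n) (hδ : 0 < δ) (hq : 2 ≤ q) (hqδ : 1 / (q : ℝ) ≤ δ / 8)
    (hK : ∀ n, x n ≤ K * ((n : ℝ) + 1) ^ 2)
    (ha : ∀ n t t', ‖D n t - D n t'‖ ≤ |t - t'| * (4 * ((n : ℝ) + 1) * (3 + x n)))
    (hb : ∀ n t, ‖D n t‖ ≤ (1 + |t|) * (c n * (3 + x n)))
    (hS : Summable (fun n : ℕ => c n * ((n : ℝ) + 1) ^ δ * (3 + x n)))
    (hu : ∀ t, 1 ≤ u t) (hmono : ∀ t t', |t| ≤ |t'| → u t ≤ u t')
    (h1 : ∀ k : ℕ, ‖∑ n ∈ Finset.range (FLU_N k), D n ((k : ℝ) ^ (1 / (q : ℝ)))‖ ≤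
      C₁ * u ((k : ℝ) ^ (1 / (q : ℝ)))) :
    ∃ C : ℝ, ∀ t : ℝ, 0 ≤ t → ‖∑' n, D n t‖ ≤ C * u t := by
  have hK0 : 0 ≤ K := by
    have := (hx 0).trans (hK 0)
    simpa using this
  have hqpos : 0 < (q : ℝ) := by
    have : (2 : ℝ) ≤ q := by exact_mod_cast hq
    linarith
  set S : ℝ := ∑' n : ℕ, c n * ((n : ℝ) + 1) ^ δ * (3 + x n) with hSdef
  have hterm0 : ∀ n : ℕ, 0 ≤ c n * ((n : ℝ) + 1) ^ δ * (3 + x n) := fun n => by
    have := hx n; have := hc n; positivity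
  have hone : ∀ n : ℕ, (1 : ℝ) ≤ ((n : ℝ) + 1) ^ δ := fun n =>
    Real.one_le_rpow (by linarith [Nat.cast_nonneg (α := ℝ) n]) hδ.le
  have hS' : Summable (fun n : ℕ => c n * (3 + x n)) := by
    refine Summable.of_nonneg_of_le (fun n => ?_) (fun n => ?_) hS
    · have := hx n; have := hc n; positivity
    · have h3 := hx n
      have h4 := hc n
      calc c n * (3 + x n) = c n * 1 * (3 + x n) := by ring
        _ ≤ _ := by gcongr; exact hone n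
  have hD : ∀ t, Summable (fun n => D n t) := fun t =>
    Summable.of_norm_bounded (hS'.mul_left (1 + |t|)) (fun n => hb n t)
  refine ⟨C₁ + 4 * (3 + K) + 2 * S, fun t ht => ?_⟩
  set k : ℕ := ⌊t ^ q⌋₊ with hk
  have hkle : (k : ℝ) ≤ t ^ q := Nat.floor_le (by positivity)
  have hklt : t ^ q < (k : ℝ) + 1 := Nat.lt_floor_add_one _
  have hroot : (t ^ q) ^ (1 / (q : ℝ)) = t := by
    rw [one_div]; exact Real.pow_rpow_inv_natCast ht (by omega)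
  set τ : ℝ := (k : ℝ) ^ (1 / (q : ℝ)) with hτ
  have hτ0 : 0 ≤ τ := by positivity
  have hτle : τ ≤ t := by
    rw [← hroot]; exact Real.rpow_le_rpow (by positivity) hkle (by positivity)
  have hτ' : t ≤ ((k : ℝ) + 1) ^ (1 / (q : ℝ)) := by
    conv_lhs => rw [← hroot]
    exact Real.rpow_le_rpow (by positivity) hklt.le (by positivity)
  have hk1 : (1 : ℝ) ≤ (k : ℝ) + 1 := by linarith [Nat.cast_nonneg (α := ℝ) k]
  have hk0 : (0 : ℝ) < (k : ℝ) + 1 := by linarith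
  obtain ⟨N, hN⟩ : ∃ N, N = FLU_N k := ⟨_, rfl⟩
  have hNle' : (N : ℝ) ≤ ((k : ℝ) + 1) ^ (1 / 8 : ℝ) := hN ▸ FLU_N_le' k
  have hNge : ((k : ℝ) + 1) ^ (1 / 8 : ℝ) ≤ (N : ℝ) + 1 := hN ▸ FLU_N_ge k
  -- first part
  have hp1 : ‖∑ n ∈ Finset.range N, D n τ‖ ≤ C₁ * u t := by
    have h2 := h1 k
    rw [← hN] at h2
    have h3 : u τ ≤ u t := hmono _ _ (by rw [abs_of_nonneg hτ0, abs_of_nonneg ht]; exact hτle)
    have h4 : 0 ≤ C₁ := by
      by_contra hneg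
      push Not at hneg
      have h5 : C₁ * u τ < 0 := mul_neg_of_neg_of_pos hneg (by linarith [hu τ])
      have h6 := norm_nonneg (∑ n ∈ Finset.range N, D n τ)
      have h7 : ‖∑ n ∈ Finset.range N, D n τ‖ ≤ C₁ * u τ := h2
      linarith
    exact h2.trans (mul_le_mul_of_nonneg_left h3 h4)
  -- second part
  have hp2 : ‖∑ n ∈ Finset.range N, (D n t - D n τ)‖ ≤ 4 * (3 + K) := by
    have h2 : ‖∑ n ∈ Finset.range N, (D n t - D n τ)‖ ≤
        ∑ n ∈ Finset.range N, (t - τ) * (4 * (N : ℝ) * (3 + K * (N : ℝ) ^ 2)) := by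
      refine (norm_sum_le _ _).trans (Finset.sum_le_sum fun n hn => ?_)
      refine (ha n t τ).trans ?_
      rw [abs_of_nonneg (by linarith)]
      have hnN : (n : ℝ) + 1 ≤ N := by exact_mod_cast Finset.mem_range.mp hn
      have h3 : x n ≤ K * (N : ℝ) ^ 2 := (hK n).trans (by gcongr)
      have h4 := hx n
      have h5 : 0 ≤ t - τ := by linarith
      gcongr
    have h3 : ∑ n ∈ Finset.range N, (t - τ) * (4 * (N : ℝ) * (3 + K * (N : ℝ) ^ 2)) =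
        (t - τ) * (4 * (N : ℝ) ^ 2 * (3 + K * (N : ℝ) ^ 2)) := by
      rw [Finset.sum_const, Finset.card_range, nsmul_eq_mul]; ring
    have h4 : 4 * (N : ℝ) ^ 2 * (3 + K * (N : ℝ) ^ 2) ≤ 4 * (3 + K) * (N : ℝ) ^ 4 := by
      have h5 : (N : ℝ) ^ 2 ≤ (N : ℝ) ^ 4 := by
        rcases Nat.eq_zero_or_pos N with h0 | h0
        · rw [h0]; simp
        · exact pow_le_pow_right₀ (by exact_mod_cast h0) (by norm_num)
      nlinarith
    have h5 : (N : ℝ) ^ 4 ≤ ((k : ℝ) + 1) ^ (1 / 2 : ℝ) := by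
      calc (N : ℝ) ^ 4 ≤ (((k : ℝ) + 1) ^ (1 / 8 : ℝ)) ^ 4 := by
            gcongr
        _ = ((k : ℝ) + 1) ^ (1 / 2 : ℝ) := by
            rw [← Real.rpow_natCast, ← Real.rpow_mul hk0.le]; norm_num
    have h6 : t - τ ≤ ((k : ℝ) + 1) ^ (-(1 / 2) : ℝ) := by
      have := FLU_tau_diff q hq k
      linarith
    have h7 : ((k : ℝ) + 1) ^ (-(1 / 2) : ℝ) * ((k : ℝ) + 1) ^ (1 / 2 : ℝ) = 1 := by
      rw [← Real.rpow_add hk0]; norm_num
    have h8 : 0 ≤ t - τ := by linarith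
    calc ‖∑ n ∈ Finset.range N, (D n t - D n τ)‖
        ≤ (t - τ) * (4 * (N : ℝ) ^ 2 * (3 + K * (N : ℝ) ^ 2)) := h3 ▸ h2
      _ ≤ (t - τ) * (4 * (3 + K) * (N : ℝ) ^ 4) := mul_le_mul_of_nonneg_left h4 h8
      _ ≤ ((k : ℝ) + 1) ^ (-(1 / 2) : ℝ) * (4 * (3 + K) * ((k : ℝ) + 1) ^ (1 / 2 : ℝ)) := by
          gcongr
      _ = 4 * (3 + K) * (((k : ℝ) + 1) ^ (-(1 / 2) : ℝ) * ((k : ℝ) + 1) ^ (1 / 2 : ℝ)) := by ring
      _ = 4 * (3 + K) := by rw [h7, mul_one]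
  -- third part
  have hp3 : ‖∑' n, D (n + N) t‖ ≤ 2 * S := by
    have hN0 : (0 : ℝ) < (N : ℝ) + 1 := by positivity
    have hshift : Summable (fun n : ℕ => c (n + N) * (((n + N : ℕ) : ℝ) + 1) ^ δ *
        (3 + x (n + N))) :=
      (summable_nat_add_iff (f := fun n : ℕ => c n * ((n : ℝ) + 1) ^ δ * (3 + x n)) N).mpr hS
    have h2 : ∀ n : ℕ, ‖D (n + N) t‖ ≤ ((1 + t) * ((N : ℝ) + 1) ^ (-δ)) *
        (c (n + N) * (((n + N : ℕ) : ℝ) + 1) ^ δ * (3 + x (n + N))) := by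
      intro n
      refine (hb (n + N) t).trans ?_
      rw [abs_of_nonneg ht]
      have h3 : (1 : ℝ) ≤ ((N : ℝ) + 1) ^ (-δ) * (((n + N : ℕ) : ℝ) + 1) ^ δ := by
        rw [Real.rpow_neg hN0.le, ← div_eq_inv_mul, one_le_div (by positivity)]
        apply Real.rpow_le_rpow hN0.le _ hδ.le
        push_cast
        linarith [Nat.cast_nonneg (α := ℝ) n]
      have h4 := hx (n + N)
      have h5 := hc (n + N)
      have h6 : 0 ≤ (1 + t) * (c (n + N) * (3 + x (n + N))) := by positivity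
      calc (1 + t) * (c (n + N) * (3 + x (n + N)))
          ≤ ((1 + t) * (c (n + N) * (3 + x (n + N)))) *
            (((N : ℝ) + 1) ^ (-δ) * (((n + N : ℕ) : ℝ) + 1) ^ δ) :=
              le_mul_of_one_le_right h6 h3
        _ = _ := by ring
    have h3 : ‖∑' n, D (n + N) t‖ ≤ ∑' n : ℕ, ((1 + t) * ((N : ℝ) + 1) ^ (-δ)) *
        (c (n + N) * (((n + N : ℕ) : ℝ) + 1) ^ δ * (3 + x (n + N))) :=
      tsum_of_norm_bounded (hshift.mul_left _).hasSum h2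
    rw [tsum_mul_left] at h3
    have h4 : ∑' n : ℕ, (c (n + N) * (((n + N : ℕ) : ℝ) + 1) ^ δ * (3 + x (n + N))) ≤ S := by
      have h5 := hS.sum_add_tsum_nat_add N
      have h6 : 0 ≤ ∑ n ∈ Finset.range N, c n * ((n : ℝ) + 1) ^ δ * (3 + x n) :=
        Finset.sum_nonneg fun n _ => hterm0 n
      linarith
    have hS0 : 0 ≤ S := tsum_nonneg hterm0
    have h5 : (1 + t) ≤ 2 * ((k : ℝ) + 1) ^ (δ / 8) := by
      have h6 : (1 : ℝ) ≤ ((k : ℝ) + 1) ^ (1 / (q : ℝ)) := Real.one_le_rpow hk1 (by positivity)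
      have h7 : ((k : ℝ) + 1) ^ (1 / (q : ℝ)) ≤ ((k : ℝ) + 1) ^ (δ / 8) :=
        Real.rpow_le_rpow_of_exponent_le hk1 hqδ
      linarith
    have h6 : ((N : ℝ) + 1) ^ (-δ) ≤ ((k : ℝ) + 1) ^ (-(δ / 8)) := by
      rw [Real.rpow_neg hN0.le, Real.rpow_neg hk0.le]
      apply inv_anti₀ (by positivity)
      calc ((k : ℝ) + 1) ^ (δ / 8) = (((k : ℝ) + 1) ^ (1 / 8 : ℝ)) ^ δ := by
            rw [← Real.rpow_mul hk0.le]; congr 1; ring
        _ ≤ ((N : ℝ) + 1) ^ δ := Real.rpow_le_rpow (by positivity) hNge hδ.le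
    have h7 : ((k : ℝ) + 1) ^ (δ / 8) * ((k : ℝ) + 1) ^ (-(δ / 8)) = 1 := by
      rw [← Real.rpow_add hk0]; simp
    calc ‖∑' n, D (n + N) t‖ ≤ _ := h3
      _ ≤ ((1 + t) * ((N : ℝ) + 1) ^ (-δ)) * S := by
          apply mul_le_mul_of_nonneg_left h4; positivity
      _ ≤ ((2 * ((k : ℝ) + 1) ^ (δ / 8)) * ((k : ℝ) + 1) ^ (-(δ / 8))) * S := by
          gcongr
      _ = 2 * S := by rw [mul_assoc 2, h7, mul_one]
  have hsplit : ∑' n, D n t = ∑ n ∈ Finset.range N, D n τ +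
      ∑ n ∈ Finset.range N, (D n t - D n τ) + ∑' n, D (n + N) t := by
    rw [← (hD t).sum_add_tsum_nat_add N, Finset.sum_sub_distrib]; ring
  rw [hsplit]
  have h1u := hu t
  have hS0 : 0 ≤ S := tsum_nonneg hterm0
  calc _ ≤ ‖∑ n ∈ Finset.range N, D n τ‖ + ‖∑ n ∈ Finset.range N, (D n t - D n τ)‖ +
        ‖∑' n, D (n + N) t‖ := norm_add₃_le
    _ ≤ C₁ * u t + 4 * (3 + K) + 2 * S := by linarith
    _ ≤ (C₁ + 4 * (3 + K) + 2 * S) * u t := by nlinarith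

/-- almost sure summability of weighted sums -/
lemma FLU_ae_summable {Ω : Type} [MeasurableSpace Ω] (P : Measure Ω)
    (X : ℕ → Ω → ℝ) (w : ℕ → ℝ) (hX : ∀ n, Measurable (X n)) (hX0 : ∀ n, ∀ᵐ ω ∂P, 0 ≤ X n ω)
    (hXi : ∀ n, Integrable (X n) P) (hX1 : ∀ n, ∫ ω, X n ω ∂P ≤ 1) (hw0 : ∀ n, 0 ≤ w n)
    (hw : Summable w) : ∀ᵐ ω ∂P, Summable (fun n => w n * X n ω) := by
  have h1 : ∫⁻ ω, ∑' n, ENNReal.ofReal (w n * X n ω) ∂P ≠ ⊤ := by
    rw [lintegral_tsum (fun n => ((hX n).const_mul (w n)).ennreal_ofReal.aemeasurable)]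
    have h2 : ∀ n, ∫⁻ ω, ENNReal.ofReal (w n * X n ω) ∂P ≤ ENNReal.ofReal (w n) := by
      intro n
      rw [← ofReal_integral_eq_lintegral_ofReal ((hXi n).const_mul _)
        ((hX0 n).mono fun ω hω => mul_nonneg (hw0 n) hω)]
      apply ENNReal.ofReal_le_ofReal
      rw [integral_const_mul]
      exact mul_le_of_le_one_right (hw0 n) (hX1 n)
    exact ne_top_of_le_ne_top hw.tsum_ofReal_ne_top (ENNReal.tsum_le_tsum h2)
  have h3 : ∀ᵐ ω ∂P, ∑' n, ENNReal.ofReal (w n * X n ω) < ⊤ :=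
    ae_lt_top' (AEMeasurable.tsum
      (fun n => ((hX n).const_mul (w n)).ennreal_ofReal.aemeasurable)) h1
  filter_upwards [h3, ae_all_iff.mpr hX0] with ω h hω
  have h4 := ENNReal.summable_toReal h.ne
  refine h4.congr fun n => ?_
  exact ENNReal.toReal_ofReal (mul_nonneg (hw0 n) (hω n))

/-- the initial sums at the grid points -/
lemma FLU_half (h : P_HOE) {Ω : Type} [MeasurableSpace Ω] (P : Measure Ω) [IsProbabilityMeasure P]
    (X : ℕ → Ω → ℝ) (G : ℕ → ℝ → ℝ → ℂ) (b : ℕ → ℝ) (u : ℝ → ℝ)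
    (hX : ∀ n, Measurable (X n)) (hind : iIndepFun X P) (hX0 : ∀ n, ∀ᵐ ω ∂P, 0 ≤ X n ω)
    (hG : ∀ n t, Measurable (G n t)) (hb : ∀ n, 0 ≤ b n)
    (hGb : ∀ n t x, 0 ≤ x → ‖G n t x‖ ≤ b n)
    (hu : ∀ t, 1 ≤ u t) (q : ℕ) (hq : 1 ≤ q)
    (hsum : Summable (fun k : ℕ => Real.exp (-(u ((k : ℝ) ^ (1 / (q : ℝ)))) ^ 2 /
      (q * (1 + ∑ n ∈ Finset.range k, b n ^ 2))))) :
    ∀ᵐ ω ∂P, ∃ C₁ : ℝ, ∀ k : ℕ, ‖∑ n ∈ Finset.range (FLU_N k),
      (G n ((k : ℝ) ^ (1 / (q : ℝ))) (X n ω) -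
        ∫ ω', G n ((k : ℝ) ^ (1 / (q : ℝ))) (X n ω') ∂P)‖ ≤
        C₁ * u ((k : ℝ) ^ (1 / (q : ℝ))) := by
  set τ : ℕ → ℝ := fun k => (k : ℝ) ^ (1 / (q : ℝ)) with hτ
  set F : ℕ → Ω → ℂ := fun k ω => ∑ n ∈ Finset.range (FLU_N k),
      (G n (τ k) (X n ω) - ∫ ω', G n (τ k) (X n ω') ∂P) with hF
  set A : ℕ → Set Ω := fun k => {ω | 2 * u (τ k) ≤ ‖F k ω‖} with hA
  have hq' : (1 : ℝ) ≤ q := by exact_mod_cast hq
  have hPA : ∀ k, P (A k) ≤ ENNReal.ofReal (4 * Real.exp (-(u (τ k)) ^ 2 /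
      (q * (1 + ∑ n ∈ Finset.range k, b n ^ 2)))) := by
    intro k
    have hV : 0 < 1 + ∑ n ∈ Finset.range k, b n ^ 2 := by
      have : 0 ≤ ∑ n ∈ Finset.range k, b n ^ 2 := Finset.sum_nonneg fun n _ => sq_nonneg _
      linarith
    have hle : ∑ n ∈ Finset.range (FLU_N k), b n ^ 2 ≤ 1 + ∑ n ∈ Finset.range k, b n ^ 2 := by
      have : ∑ n ∈ Finset.range (FLU_N k), b n ^ 2 ≤ ∑ n ∈ Finset.range k, b n ^ 2 :=
        Finset.sum_le_sum_of_subset_of_nonneg (Finset.range_mono (FLU_N_le k))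
          (fun n _ _ => sq_nonneg _)
      linarith
    have h1 := h P (fun n ω => G n (τ k) (X n ω)) b (fun n => (hG n _).comp (hX n))
      (hind.comp (fun n => G n (τ k)) (fun n => hG n _)) hb
      (fun n => (hX0 n).mono fun ω hω => hGb n _ _ hω) (Finset.range (FLU_N k))
      (2 * u (τ k)) (1 + ∑ n ∈ Finset.range k, b n ^ 2) (by linarith [hu (τ k)]) hV hle
    rw [← ofReal_measureReal (measure_ne_top P _)]
    apply ENNReal.ofReal_le_ofReal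
    refine h1.trans ?_
    apply mul_le_mul_of_nonneg_left _ (by norm_num)
    apply Real.exp_le_exp.mpr
    have h2 : (2 * u (τ k)) ^ 2 / (4 * (1 + ∑ n ∈ Finset.range k, b n ^ 2)) =
        (u (τ k)) ^ 2 / (1 + ∑ n ∈ Finset.range k, b n ^ 2) := by
      field_simp; ring
    have h3 : (u (τ k)) ^ 2 / (q * (1 + ∑ n ∈ Finset.range k, b n ^ 2)) ≤
        (u (τ k)) ^ 2 / (1 + ∑ n ∈ Finset.range k, b n ^ 2) := by
      apply div_le_div_of_nonneg_left (sq_nonneg _) hV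
      nlinarith
    rw [h2, neg_div]
    linarith
  have hfin : (∑' k, P (A k)) ≠ ⊤ :=
    ne_top_of_le_ne_top (hsum.mul_left 4).tsum_ofReal_ne_top (ENNReal.tsum_le_tsum hPA)
  filter_upwards [ae_eventually_notMem hfin] with ω hω
  obtain ⟨K₀, hK₀⟩ := eventually_atTop.mp hω
  refine ⟨2 + ∑ k ∈ Finset.range K₀, ‖F k ω‖, fun k => ?_⟩
  have hsum0 : 0 ≤ ∑ k ∈ Finset.range K₀, ‖F k ω‖ := Finset.sum_nonneg fun k _ => norm_nonneg _
  have huk := hu (τ k)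
  change ‖F k ω‖ ≤ (2 + ∑ k ∈ Finset.range K₀, ‖F k ω‖) * u (τ k)
  by_cases hk : K₀ ≤ k
  · have h1 := hK₀ k hk
    have h2 : ‖F k ω‖ < 2 * u (τ k) := not_le.mp h1
    nlinarith
  · have h1 : ‖F k ω‖ ≤ ∑ k ∈ Finset.range K₀, ‖F k ω‖ :=
      Finset.single_le_sum (f := fun k => ‖F k ω‖) (fun _ _ => norm_nonneg _)
        (Finset.mem_range.mpr (not_le.mp hk))
    nlinarith

theorem p_FLU (h : P_HOE) : P_FLU := by
  intro Ω _ P _ X G b c δ u hX hind hX0 hXi hX1 hδ hG hb hc hGb hGlip hGc hcs hu hmono hsum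
  obtain ⟨q, hq⟩ := exists_nat_ge (max 2 (8 / δ))
  have hq2 : 2 ≤ q := by exact_mod_cast (le_max_left _ _).trans hq
  have hqpos : (0 : ℝ) < q := by
    have : (2 : ℝ) ≤ q := (le_max_left _ _).trans hq
    linarith
  have hqδ : 1 / (q : ℝ) ≤ δ / 8 := by
    have h1 : 8 / δ ≤ q := (le_max_right _ _).trans hq
    rw [div_le_iff₀ hδ] at h1
    rw [div_le_div_iff₀ hqpos (by norm_num)]
    linarith
  -- integrability and means
  have hint : ∀ n t, Integrable (fun ω => G n t (X n ω)) P := fun n t =>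
    Integrable.of_bound ((hG n t).comp (hX n)).aestronglyMeasurable (b n)
      ((hX0 n).mono fun ω hω => hGb n t _ hω)
  have hm1 : ∀ n t, ‖∫ ω', G n t (X n ω') ∂P‖ ≤ (1 + |t|) * (c n * 2) := by
    intro n t
    have h1 : Integrable (fun ω => (1 + |t|) * (c n * (1 + X n ω))) P :=
      (((integrable_const (1 : ℝ)).add (hXi n)).const_mul (c n)).const_mul (1 + |t|)
    refine (norm_integral_le_of_norm_le h1 ((hX0 n).mono fun ω hω => hGc n t _ hω)).trans ?_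
    rw [integral_const_mul, integral_const_mul, integral_add (integrable_const _) (hXi n)]
    have h2 := hX1 n
    have h3 := hc n
    simp only [integral_const, probReal_univ, smul_eq_mul, mul_one]
    gcongr
    linarith
  have hm2 : ∀ n t t', ‖(∫ ω', G n t (X n ω') ∂P) - ∫ ω', G n t' (X n ω') ∂P‖ ≤
      |t - t'| * (4 * ((n : ℝ) + 1) * 2) := by
    intro n t t'
    rw [← integral_sub (hint n t) (hint n t')]
    have h1 : Integrable (fun ω => |t - t'| * (4 * ((n : ℝ) + 1) * (1 + X n ω))) P :=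
      (((integrable_const (1 : ℝ)).add (hXi n)).const_mul (4 * ((n : ℝ) + 1))).const_mul
        |t - t'|
    refine (norm_integral_le_of_norm_le h1
      ((hX0 n).mono fun ω hω => hGlip n t t' _ hω)).trans ?_
    rw [integral_const_mul, integral_const_mul, integral_add (integrable_const _) (hXi n)]
    have h2 := hX1 n
    simp only [integral_const, probReal_univ, smul_eq_mul, mul_one]
    gcongr
    linarith
  have hone : ∀ n : ℕ, (1 : ℝ) ≤ ((n : ℝ) + 1) ^ δ := fun n =>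
    Real.one_le_rpow (by linarith [Nat.cast_nonneg (α := ℝ) n]) hδ.le
  have hcsum : Summable c := by
    refine Summable.of_nonneg_of_le hc (fun n => ?_) hcs
    exact le_mul_of_one_le_right (hc n) (hone n)
  have hw1 : Summable (fun n : ℕ => 1 / ((n : ℝ) + 1) ^ 2) := by
    have := (summable_nat_add_iff 1).mpr (Real.summable_one_div_nat_pow.mpr (by norm_num : 1 < 2))
    simpa using this
  have ha1 := FLU_ae_summable P X (fun n => 1 / ((n : ℝ) + 1) ^ 2) hX hX0 hXi hX1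
    (fun n => by positivity) hw1
  have ha2 := FLU_ae_summable P X (fun n => c n * ((n : ℝ) + 1) ^ δ) hX hX0 hXi hX1
    (fun n => mul_nonneg (hc n) (by positivity)) hcs
  have hp := FLU_half h P X G b u hX hind hX0 hG hb hGb hu q (by omega) (hsum q (by omega))
  have hn := FLU_half h P X (fun n t x => G n (-t) x) b u hX hind hX0 (fun n t => hG n _) hb
    (fun n t x hx => hGb n _ x hx) hu q (by omega) (hsum q (by omega))
  filter_upwards [ha1, ha2, hp, hn, ae_all_iff.mpr hX0] with ω h1 h2 h3 h4 h5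
  have hS1 : Summable (fun n : ℕ => c n * ((n : ℝ) + 1) ^ δ * (3 + X n ω)) := by
    have := (hcs.mul_left 3).add h2
    refine this.congr fun n => ?_
    ring
  have hcX : Summable (fun n : ℕ => c n * (1 + X n ω)) := by
    refine Summable.of_nonneg_of_le (fun n => ?_) (fun n => ?_) hS1
    · have := h5 n; have := hc n; positivity
    · have h6 := h5 n
      have h7 := hc n
      calc c n * (1 + X n ω) = c n * 1 * (1 + X n ω) := by ring
        _ ≤ c n * ((n : ℝ) + 1) ^ δ * (3 + X n ω) := by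
            gcongr
            · exact hone n
            · norm_num
  have hA1 : ∀ t, Summable (fun n => G n t (X n ω)) := fun t =>
    Summable.of_norm_bounded (hcX.mul_left (1 + |t|)) (fun n => hGc n t _ (h5 n))
  have hA2 : ∀ t, Summable (fun n => ∫ ω', G n t (X n ω') ∂P) := fun t =>
    Summable.of_norm_bounded ((hcsum.mul_right 2).mul_left (1 + |t|)) (fun n => hm1 n t)
  refine ⟨hA1, hA2, ?_⟩
  obtain ⟨C₁, hC₁⟩ := h3
  obtain ⟨C₂, hC₂⟩ := h4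
  have hK : ∀ n : ℕ, X n ω ≤ (∑' n : ℕ, 1 / ((n : ℝ) + 1) ^ 2 * X n ω) * ((n : ℝ) + 1) ^ 2 := by
    intro n
    have h6 : 1 / ((n : ℝ) + 1) ^ 2 * X n ω ≤ ∑' n : ℕ, 1 / ((n : ℝ) + 1) ^ 2 * X n ω :=
      h1.le_tsum n (fun j _ => mul_nonneg (by positivity) (h5 j))
    have h7 : (0 : ℝ) < ((n : ℝ) + 1) ^ 2 := by positivity
    calc X n ω = (1 / ((n : ℝ) + 1) ^ 2 * X n ω) * ((n : ℝ) + 1) ^ 2 := by field_simp
      _ ≤ _ := mul_le_mul_of_nonneg_right h6 h7.le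
  have hlip : ∀ (n : ℕ) (t t' : ℝ), ‖(G n t (X n ω) - ∫ ω', G n t (X n ω') ∂P) -
      (G n t' (X n ω) - ∫ ω', G n t' (X n ω') ∂P)‖ ≤
        |t - t'| * (4 * ((n : ℝ) + 1) * (3 + X n ω)) := by
    intro n t t'
    have h6 := hGlip n t t' _ (h5 n)
    have h7 := hm2 n t t'
    calc ‖(G n t (X n ω) - ∫ ω', G n t (X n ω') ∂P) -
      (G n t' (X n ω) - ∫ ω', G n t' (X n ω') ∂P)‖
        = ‖(G n t (X n ω) - G n t' (X n ω)) -
          ((∫ ω', G n t (X n ω') ∂P) - ∫ ω', G n t' (X n ω') ∂P)‖ := by congr 1; ring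
      _ ≤ ‖G n t (X n ω) - G n t' (X n ω)‖ +
          ‖(∫ ω', G n t (X n ω') ∂P) - ∫ ω', G n t' (X n ω') ∂P‖ := norm_sub_le _ _
      _ ≤ |t - t'| * (4 * ((n : ℝ) + 1) * (1 + X n ω)) + |t - t'| * (4 * ((n : ℝ) + 1) * 2) :=
          add_le_add h6 h7
      _ = _ := by ring
  have hbd : ∀ (n : ℕ) (t : ℝ), ‖G n t (X n ω) - ∫ ω', G n t (X n ω') ∂P‖ ≤
        (1 + |t|) * (c n * (3 + X n ω)) := by
    intro n t
    have h6 := hGc n t _ (h5 n)
    have h7 := hm1 n t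
    calc ‖G n t (X n ω) - ∫ ω', G n t (X n ω') ∂P‖
        ≤ ‖G n t (X n ω)‖ + ‖∫ ω', G n t (X n ω') ∂P‖ := norm_sub_le _ _
      _ ≤ (1 + |t|) * (c n * (1 + X n ω)) + (1 + |t|) * (c n * 2) := add_le_add h6 h7
      _ = _ := by ring
  obtain ⟨C, hC⟩ := FLU_det (fun n t => G n t (X n ω) - ∫ ω', G n t (X n ω') ∂P)
    (fun n => X n ω) c δ _ C₁ u q h5 hc hδ hq2 hqδ hK hlip hbd hS1 hu hmono hC₁
  obtain ⟨C', hC'⟩ := FLU_det (fun n t => G n (-t) (X n ω) - ∫ ω', G n (-t) (X n ω') ∂P)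
    (fun n => X n ω) c δ _ C₂ u q h5 hc hδ hq2 hqδ hK
    (fun n t t' => by
      have h6 := hlip n (-t) (-t')
      rwa [show -t - -t' = -(t - t') by ring, abs_neg] at h6)
    (fun n t => by
      have h6 := hbd n (-t)
      rwa [abs_neg] at h6) hS1 hu hmono hC₂
  refine ⟨max C C', fun t => ?_⟩
  have hut : 0 ≤ u t := by linarith [hu t]
  rcases le_total 0 t with ht | ht
  · exact (hC t ht).trans (mul_le_mul_of_nonneg_right (le_max_left _ _) hut)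
  · have h6 := hC' (-t) (by linarith)
    simp only [neg_neg] at h6
    have h7 : u (-t) ≤ u t := hmono _ _ (by rw [abs_neg])
    have h8 : 0 ≤ C' := by
      by_contra hneg
      push Not at hneg
      have h9 : C' * u (-t) < 0 := mul_neg_of_neg_of_pos hneg (by linarith [hu (-t)])
      linarith [norm_nonneg (∑' n, (G n t (X n ω) - ∫ ω', G n t (X n ω') ∂P))]
    exact (h6.trans (mul_le_mul_of_nonneg_left h7 h8)).trans
      (mul_le_mul_of_nonneg_right (le_max_right _ _) hut)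

end Pool.Agent.PertZ
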