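import Pool.Agent.PertZ.Defs

/-!
# The Lindelöf hypothesis under random perturbation of the integers: block INT
-/

set_option autoImplicit false

namespace Pool.Agent.PertZ

open MeasureTheory ProbabilityTheory Set Filter Topology Complex Pool.Agent.CW

namespace INT_

theorem exp_sub_one {z : ℂ} (hz : z.re ≤ 0) : ‖Complex.exp z - 1‖ ≤ ‖z‖ := by
  have h := Convex.norm_image_sub_le_of_norm_deriv_le (𝕜 := ℂ) (f := Complex.exp) (C := 1)
    (s := {w : ℂ | w.re ≤ 0}) (x := 0) (y := z)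
    (fun w _ => Complex.differentiableAt_exp)
    (fun w hw => by
      rw [Complex.deriv_exp, Complex.norm_exp]
      exact Real.exp_le_one_iff.2 hw)
    (convex_halfSpace_re_le 0) (by simp) hz
  rw [Complex.exp_zero, sub_zero, one_mul] at h
  exact h

theorem exp_diff (x y : ℝ) : ‖Complex.exp ((x : ℂ) * I) - Complex.exp ((y : ℂ) * I)‖ ≤ |x - y| := by
  have h : Complex.exp ((x : ℂ) * I) - Complex.exp ((y : ℂ) * I) =
      Complex.exp ((y : ℂ) * I) * (Complex.exp (I * ((x - y : ℝ) : ℂ)) - 1) := by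
    rw [mul_sub, ← Complex.exp_add, mul_one]
    congr 2
    push_cast
    ring
  rw [h, norm_mul, Complex.norm_exp_ofReal_mul_I, one_mul]
  exact Real.norm_exp_I_mul_ofReal_sub_one_le

theorem cpow_eq {a : ℝ} (ha : 0 < a) (t : ℝ) : (a : ℂ) ^ (-(1 / 2 + (t : ℂ) * I)) =
    ((a ^ (-(1 / 2) : ℝ) : ℝ) : ℂ) * Complex.exp (((-(t * Real.log a) : ℝ) : ℂ) * I) := by
  rw [Complex.cpow_def_of_ne_zero (by exact_mod_cast ha.ne'), ← Complex.ofReal_log ha.le,
    Real.rpow_def_of_pos ha, Complex.ofReal_exp, ← Complex.exp_add]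
  congr 1
  push_cast
  ring

theorem norm_cpow {a : ℝ} (ha : 0 < a) (t : ℝ) :
    ‖(a : ℂ) ^ (-(1 / 2 + (t : ℂ) * I))‖ = a ^ (-(1 / 2) : ℝ) := by
  rw [Complex.norm_cpow_eq_rpow_re_of_pos ha]
  congr 1
  simp

theorem cpow_diff {a : ℝ} (ha : 1 ≤ a) (t t' : ℝ) :
    ‖(a : ℂ) ^ (-(1 / 2 + (t : ℂ) * I)) - (a : ℂ) ^ (-(1 / 2 + (t' : ℂ) * I))‖ ≤
      |t - t'| * Real.log a := by
  have ha0 : 0 < a := by linarith
  have hl : 0 ≤ Real.log a := Real.log_nonneg ha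
  have h1 : a ^ (-(1 / 2) : ℝ) ≤ 1 := Real.rpow_le_one_of_one_le_of_nonpos ha (by norm_num)
  have h0 : 0 ≤ a ^ (-(1 / 2) : ℝ) := Real.rpow_nonneg ha0.le _
  rw [cpow_eq ha0, cpow_eq ha0, ← mul_sub, norm_mul, Complex.norm_real, Real.norm_eq_abs,
    abs_of_nonneg h0]
  have h2 := exp_diff (-(t * Real.log a)) (-(t' * Real.log a))
  have h3 : |(-(t * Real.log a)) - (-(t' * Real.log a))| = |t - t'| * Real.log a := by
    rw [show (-(t * Real.log a)) - (-(t' * Real.log a)) = -((t - t') * Real.log a) by ring,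
      abs_neg, abs_mul, abs_of_nonneg hl]
  rw [h3] at h2
  have h4 : 0 ≤ |t - t'| * Real.log a := mul_nonneg (abs_nonneg _) hl
  calc a ^ (-(1 / 2) : ℝ) * ‖Complex.exp (((-(t * Real.log a) : ℝ) : ℂ) * I) -
        Complex.exp (((-(t' * Real.log a) : ℝ) : ℂ) * I)‖
      ≤ 1 * (|t - t'| * Real.log a) := mul_le_mul h1 h2 (norm_nonneg _) zero_le_one
    _ = _ := one_mul _

/-- the summand -/
noncomputable def G (B : ℝ) (n : ℕ) (t x : ℝ) : ℂ :=
  ((((n + 1 : ℕ) : ℝ) * Real.exp (x * ((n + 1 : ℕ) : ℝ) ^ (-B)) : ℝ) : ℂ) ^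
      (-(1 / 2 + (t : ℂ) * I)) - ((n + 1 : ℕ) : ℂ) ^ (-(1 / 2 + (t : ℂ) * I))

theorem n1 (n : ℕ) : (1 : ℝ) ≤ ((n + 1 : ℕ) : ℝ) := by
  exact_mod_cast Nat.le_add_left 1 n

theorem n1' (n : ℕ) : ((n + 1 : ℕ) : ℝ) = (n : ℝ) + 1 := by push_cast; ring

theorem big {B x : ℝ} (n : ℕ) (hx : 0 ≤ x) :
    ((n + 1 : ℕ) : ℝ) ≤ ((n + 1 : ℕ) : ℝ) * Real.exp (x * ((n + 1 : ℕ) : ℝ) ^ (-B)) := by
  have h0 : (0 : ℝ) ≤ ((n + 1 : ℕ) : ℝ) := by positivity
  refine le_mul_of_one_le_right h0 (Real.one_le_exp ?_)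
  exact mul_nonneg hx (Real.rpow_nonneg h0 _)

theorem cast_eq (n : ℕ) (t : ℝ) : ((n + 1 : ℕ) : ℂ) ^ (-(1 / 2 + (t : ℂ) * I)) =
    ((((n + 1 : ℕ) : ℝ)) : ℂ) ^ (-(1 / 2 + (t : ℂ) * I)) := by
  congr 1

theorem G_le {B : ℝ} (n : ℕ) (t x : ℝ) (hx : 0 ≤ x) :
    ‖G B n t x‖ ≤ 2 * ((n : ℝ) + 1) ^ (-(1 / 2) : ℝ) := by
  unfold G
  have hn := n1 n
  have hb := big (B := B) n hx
  refine (norm_sub_le _ _).trans ?_
  rw [cast_eq, norm_cpow (by linarith), norm_cpow (by linarith), ← n1' n]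
  have h := Real.rpow_le_rpow_of_nonpos (z := (-(1 / 2) : ℝ)) (by linarith) hb (by norm_num)
  linarith

theorem G_diff {B : ℝ} (hB : 0 < B) (n : ℕ) (t t' x : ℝ) (hx : 0 ≤ x) :
    ‖G B n t x - G B n t' x‖ ≤ |t - t'| * (4 * ((n : ℝ) + 1) * (1 + x)) := by
  unfold G
  have hn := n1 n
  have hn0 : (0 : ℝ) < ((n + 1 : ℕ) : ℝ) := by linarith
  have hb := big (B := B) n hx
  have e1 := cpow_diff (hn.trans hb) t t'
  have e2 := cpow_diff hn t t'
  have e3 : ∀ a b c d : ℂ, a - b - (c - d) = (a - c) - (b - d) := fun a b c d => by ring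
  rw [e3]
  refine (norm_sub_le _ _).trans ?_
  rw [cast_eq, cast_eq]
  refine (add_le_add e1 e2).trans ?_
  rw [← mul_add]
  refine mul_le_mul_of_nonneg_left ?_ (abs_nonneg _)
  rw [Real.log_mul hn0.ne' (Real.exp_pos _).ne', Real.log_exp]
  have l1 : Real.log ((n + 1 : ℕ) : ℝ) ≤ (n : ℝ) + 1 := by
    have := Real.log_le_sub_one_of_pos hn0
    rw [n1' n] at this ⊢
    linarith
  have l2 : ((n + 1 : ℕ) : ℝ) ^ (-B) ≤ 1 :=
    Real.rpow_le_one_of_one_le_of_nonpos hn (by linarith)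
  have l3 : x * ((n + 1 : ℕ) : ℝ) ^ (-B) ≤ x := mul_le_of_le_one_right hx l2
  have l4 : (0 : ℝ) ≤ (n : ℝ) := Nat.cast_nonneg n
  nlinarith [mul_nonneg l4 hx]

theorem G_eq {B : ℝ} (n : ℕ) (t x : ℝ) : G B n t x =
    ((n + 1 : ℕ) : ℂ) ^ (-(1 / 2 + (t : ℂ) * I)) *
      (Complex.exp (-((1 / 2 + (t : ℂ) * I) * ((x * ((n + 1 : ℕ) : ℝ) ^ (-B) : ℝ) : ℂ))) - 1) := by
  unfold G
  have hn0 : (0 : ℝ) < ((n + 1 : ℕ) : ℝ) := by linarith [n1 n]
  rw [mul_sub, mul_one, cast_eq]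
  congr 1
  rw [Complex.cpow_def_of_ne_zero
      (by exact_mod_cast (mul_pos hn0 (Real.exp_pos _)).ne'),
    Complex.cpow_def_of_ne_zero (by exact_mod_cast hn0.ne'), ← Complex.exp_add,
    ← Complex.ofReal_log (mul_pos hn0 (Real.exp_pos _)).le, ← Complex.ofReal_log hn0.le,
    Real.log_mul hn0.ne' (Real.exp_pos _).ne', Real.log_exp]
  congr 1
  push_cast
  ring

theorem norm_s (t : ℝ) : ‖(1 / 2 + (t : ℂ) * I)‖ ≤ 1 + |t| := by
  refine (norm_add_le _ _).trans ?_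
  rw [norm_mul, Complex.norm_I, mul_one, Complex.norm_real, Real.norm_eq_abs]
  have : ‖(1 / 2 : ℂ)‖ = 1 / 2 := by simp
  rw [this]
  linarith

theorem G_small {B : ℝ} (n : ℕ) (t x : ℝ) (hx : 0 ≤ x) :
    ‖G B n t x‖ ≤ (1 + |t|) * (((n : ℝ) + 1) ^ (-(1 / 2) - B : ℝ) * (1 + x)) := by
  have hn := n1 n
  have hn0 : (0 : ℝ) < ((n + 1 : ℕ) : ℝ) := by linarith
  have hy : 0 ≤ x * ((n + 1 : ℕ) : ℝ) ^ (-B) := mul_nonneg hx (Real.rpow_nonneg hn0.le _)
  rw [G_eq, norm_mul, cast_eq, norm_cpow hn0, ← n1' n]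
  have h1 : ‖Complex.exp (-((1 / 2 + (t : ℂ) * I) *
      ((x * ((n + 1 : ℕ) : ℝ) ^ (-B) : ℝ) : ℂ))) - 1‖ ≤
      (1 + |t|) * (x * ((n + 1 : ℕ) : ℝ) ^ (-B)) := by
    refine (exp_sub_one ?_).trans ?_
    · rw [Complex.neg_re, Complex.mul_re]
      simp only [Complex.ofReal_re, Complex.ofReal_im, mul_zero, sub_zero, Complex.add_re,
        Complex.mul_re, Complex.I_re, Complex.I_im, zero_mul]
      have : ((1 / 2 : ℂ)).re = 1 / 2 := by norm_num
      rw [this]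
      linarith
    · rw [norm_neg, norm_mul, Complex.norm_real, Real.norm_eq_abs, abs_of_nonneg hy]
      exact mul_le_mul_of_nonneg_right (norm_s t) hy
  have h2 : ((n + 1 : ℕ) : ℝ) ^ (-(1 / 2) - B : ℝ) =
      ((n + 1 : ℕ) : ℝ) ^ (-(1 / 2) : ℝ) * ((n + 1 : ℕ) : ℝ) ^ (-B) := by
    rw [← Real.rpow_add hn0]
    congr 1
  have h3 : 0 ≤ ((n + 1 : ℕ) : ℝ) ^ (-(1 / 2) : ℝ) := Real.rpow_nonneg hn0.le _
  have h4 : 0 ≤ ((n + 1 : ℕ) : ℝ) ^ (-B) := Real.rpow_nonneg hn0.le _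
  have h5 : 0 ≤ 1 + |t| := by positivity
  calc ((n + 1 : ℕ) : ℝ) ^ (-(1 / 2) : ℝ) * ‖Complex.exp (-((1 / 2 + (t : ℂ) * I) *
      ((x * ((n + 1 : ℕ) : ℝ) ^ (-B) : ℝ) : ℂ))) - 1‖
      ≤ ((n + 1 : ℕ) : ℝ) ^ (-(1 / 2) : ℝ) * ((1 + |t|) * (x * ((n + 1 : ℕ) : ℝ) ^ (-B))) :=
        mul_le_mul_of_nonneg_left h1 h3
    _ ≤ ((n + 1 : ℕ) : ℝ) ^ (-(1 / 2) : ℝ) * ((1 + |t|) * ((1 + x) * ((n + 1 : ℕ) : ℝ) ^ (-B))) :=
        by gcongr; linarith
    _ = _ := by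
        rw [h2]
        ring

theorem G_meas {B : ℝ} (n : ℕ) (t : ℝ) : Measurable (G B n t) := by
  unfold G
  refine Measurable.sub_const ?_ _
  refine Measurable.pow_const ?_ _
  refine Complex.measurable_ofReal.comp ?_
  fun_prop

/-- summability of the tails -/
theorem summ {ε : ℝ} (hε : 0 < ε) (q : ℕ) (hq : 1 ≤ q) :
    Summable (fun k : ℕ => Real.exp (-((1 + |(k : ℝ) ^ (1 / (q : ℝ))|) ^ ε) ^ 2 /
      (q * (1 + ∑ n ∈ Finset.range k, (2 * ((n : ℝ) + 1) ^ (-(1 / 2) : ℝ)) ^ 2)))) := by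
  have hq0 : (0 : ℝ) < q := by exact_mod_cast hq
  have hr : 0 < 2 * ε / q := by positivity
  have hcc : (0 : ℝ) < 1 / (20 * q) := by positivity
  have a1 := ((isLittleO_log_rpow_atTop hr).def hcc)
  have a2 := ((isLittleO_log_rpow_rpow_atTop 2 hr).def hcc)
  have a3 := tendsto_natCast_atTop_atTop.eventually (a1.and a2)
  refine Summable.of_norm_bounded_eventually_nat (g := fun k : ℕ => 1 / (k : ℝ) ^ 2)
    (Real.summable_one_div_nat_pow.2 (by norm_num)) ?_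
  filter_upwards [a3, eventually_ge_atTop 1] with k hk hk1
  obtain ⟨b1, b2⟩ := hk
  have hk0 : (0 : ℝ) < k := by exact_mod_cast hk1
  have hk1' : (1 : ℝ) ≤ k := by exact_mod_cast hk1
  have hl : 0 ≤ Real.log k := Real.log_nonneg hk1'
  rw [Real.norm_eq_abs, Real.norm_eq_abs, abs_of_nonneg hl,
    abs_of_nonneg (Real.rpow_nonneg hk0.le _)] at b1
  rw [Real.norm_eq_abs, Real.norm_eq_abs, abs_of_nonneg (Real.rpow_nonneg hl _),
    abs_of_nonneg (Real.rpow_nonneg hk0.le _)] at b2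
  have b3 : Real.log k ^ (2 : ℝ) = Real.log k ^ 2 := by
    rw [← Real.rpow_natCast]
    norm_num
  rw [b3] at b2
  rw [Real.norm_eq_abs, abs_of_nonneg (Real.exp_pos _).le]
  have hk2 : (0 : ℝ) < (k : ℝ) ^ 2 := by positivity
  rw [← Real.exp_log (show (0 : ℝ) < 1 / (k : ℝ) ^ 2 by positivity)]
  refine Real.exp_le_exp.2 ?_
  rw [Real.log_div one_ne_zero hk2.ne', Real.log_one, Real.log_pow, zero_sub, neg_div,
    neg_le_neg_iff]
  -- the numerator
  have u1 : (k : ℝ) ^ (2 * ε / q) ≤ ((1 + |(k : ℝ) ^ (1 / (q : ℝ))|) ^ ε) ^ 2 := by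
    have c1 : 0 ≤ (k : ℝ) ^ (1 / (q : ℝ)) := Real.rpow_nonneg hk0.le _
    rw [abs_of_nonneg c1]
    have c2 : (k : ℝ) ^ (2 * ε / q) = (((k : ℝ) ^ (1 / (q : ℝ))) ^ ε) ^ 2 := by
      rw [← Real.rpow_natCast, ← Real.rpow_mul c1, ← Real.rpow_mul hk0.le]
      congr 1
      push_cast
      field_simp
    rw [c2]
    refine pow_le_pow_left₀ (Real.rpow_nonneg c1 _) ?_ 2
    exact Real.rpow_le_rpow c1 (by linarith) hε.le
  -- the denominator
  have v1 : ∑ n ∈ Finset.range k, (2 * ((n : ℝ) + 1) ^ (-(1 / 2) : ℝ)) ^ 2 ≤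
      4 * (1 + Real.log k) := by
    have c1 := harmonic_le_one_add_log k
    have c2 : ∑ n ∈ Finset.range k, (2 * ((n : ℝ) + 1) ^ (-(1 / 2) : ℝ)) ^ 2 =
        4 * ((harmonic k : ℚ) : ℝ) := by
      unfold harmonic
      rw [Rat.cast_sum, Finset.mul_sum]
      refine Finset.sum_congr rfl fun n _ => ?_
      have c3 : (0 : ℝ) < (n : ℝ) + 1 := by positivity
      rw [mul_pow, ← Real.rpow_natCast (((n : ℝ) + 1) ^ (-(1 / 2) : ℝ)), ← Real.rpow_mul c3.le]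
      push_cast
      rw [show (-(1 / 2) * 2 : ℝ) = -1 by norm_num, Real.rpow_neg_one]
      norm_num
    rw [c2]
    linarith
  have v0 : 0 ≤ ∑ n ∈ Finset.range k, (2 * ((n : ℝ) + 1) ^ (-(1 / 2) : ℝ)) ^ 2 :=
    Finset.sum_nonneg fun n _ => sq_nonneg _
  have hV : 0 < (q : ℝ) * (1 + ∑ n ∈ Finset.range k, (2 * ((n : ℝ) + 1) ^ (-(1 / 2) : ℝ)) ^ 2) := by
    positivity
  rw [le_div_iff₀ hV]
  refine le_trans ?_ u1
  have w1 : ((2 : ℕ) : ℝ) * Real.log k *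
      ((q : ℝ) * (1 + ∑ n ∈ Finset.range k, (2 * ((n : ℝ) + 1) ^ (-(1 / 2) : ℝ)) ^ 2)) ≤
      2 * Real.log k * (q * (5 + 4 * Real.log k)) := by
    push_cast
    refine mul_le_mul_of_nonneg_left ?_ (by positivity)
    refine mul_le_mul_of_nonneg_left ?_ hq0.le
    linarith
  refine w1.trans ?_
  have w2 : Real.log k * (20 * q) ≤ (k : ℝ) ^ (2 * ε / q) := by
    have := mul_le_mul_of_nonneg_right b1 (show (0 : ℝ) ≤ 20 * q by positivity)
    refine this.trans (le_of_eq ?_)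
    field_simp
  have w3 : Real.log k ^ 2 * (20 * q) ≤ (k : ℝ) ^ (2 * ε / q) := by
    have := mul_le_mul_of_nonneg_right b2 (show (0 : ℝ) ≤ 20 * q by positivity)
    refine this.trans (le_of_eq ?_)
    field_simp
  nlinarith [mul_nonneg hl hq0.le, mul_nonneg (sq_nonneg (Real.log k)) hq0.le]

/-- the fluctuation of the perturbed zeta function -/
theorem fluct (hF : P_FLU) (hM : P_MEX) (hA : P_SMA) {Ω : Type} [MeasurableSpace Ω]
    (P : Measure Ω) [IsProbabilityMeasure P] (X : ℕ → Ω → ℝ) (hX : IsExpSeq P X) {B : ℝ}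
    (hB : 2 < B) {ε : ℝ} (hε : 0 < ε) :
    ∀ᵐ ω ∂P, ∃ C : ℝ, ∀ t : ℝ,
      ‖zlam (pert B (fun n => X n ω)) t - Dl B t‖ ≤ C * (1 + |t|) ^ ε := by
  have hmex := fun n : ℕ => hM P (X (n + 1)) (hX.measurable (n + 1)) (hX.law (n + 1))
  have key := hF P (fun n => X (n + 1)) (G B) (fun n => 2 * ((n : ℝ) + 1) ^ (-(1 / 2) : ℝ))
    (fun n => ((n : ℝ) + 1) ^ (-(1 / 2) - B : ℝ)) (1 / 4) (fun t => (1 + |t|) ^ ε)
    (fun n => hX.measurable (n + 1))
    (hX.indep.precomp (g := fun n : ℕ => n + 1) (fun a b h => by simpa using h))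
    (fun n => (hmex n).1) (fun n => (hmex n).2.1) (fun n => (hmex n).2.2.1) (by norm_num)
    (fun n t => G_meas n t) (fun n => by positivity) (fun n => by positivity)
    (fun n t x hx => G_le n t x hx) (fun n t t' x hx => G_diff (by linarith) n t t' x hx)
    (fun n t x hx => G_small n t x hx) ?_ ?_ ?_ (fun q hq => summ hε q hq)
  · filter_upwards [key] with ω hω
    obtain ⟨k1, k2, C, k3⟩ := hω
    refine ⟨C, fun t => ?_⟩
    have hs : (1 / 2 + (t : ℂ) * I) ≠ 0 := by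
      intro h
      have := congrArg Complex.re h
      simp at this
    have hsre : (1 / 2 + (t : ℂ) * I).re = 1 / 2 := by simp
    -- the sum of the means
    have e1 : ∀ n : ℕ, ∫ ω', G B n t (X (n + 1) ω') ∂P =
        -((1 / 2 + (t : ℂ) * I) * (one' (n + 1) * ((n + 1 : ℕ) : ℂ) ^ (-(1 / 2 + (t : ℂ) * I)) /
          (((((n + 1 : ℕ) : ℝ) ^ B : ℝ) : ℂ) + (1 / 2 + (t : ℂ) * I)))) := by
      intro n
      have hn0 : (0 : ℝ) < ((n + 1 : ℕ) : ℝ) := by linarith [n1 n]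
      have f1 := (hmex n).2.2.2 B (n + 1) (1 / 2 + (t : ℂ) * I) (Nat.le_add_left 1 n)
        (by rw [hsre]; norm_num)
      have hint : Integrable (fun ω' => ((((n + 1 : ℕ) : ℝ) *
          Real.exp (X (n + 1) ω' * ((n + 1 : ℕ) : ℝ) ^ (-B)) : ℝ) : ℂ) ^
            (-(1 / 2 + (t : ℂ) * I))) P := by
        refine Integrable.of_bound (C := 1) ?_ ?_
        · have hm := hX.measurable (n + 1)
          refine Measurable.aestronglyMeasurable ?_
          refine Measurable.pow_const ?_ _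
          refine Complex.measurable_ofReal.comp ?_
          fun_prop
        · filter_upwards [(hmex n).1] with ω' hω'
          have hb := big (B := B) n hω'
          rw [norm_cpow (by linarith)]
          exact Real.rpow_le_one_of_one_le_of_nonpos ((n1 n).trans hb) (by norm_num)
      unfold G
      rw [integral_sub hint (integrable_const _), f1, integral_const]
      have hone : one' (n + 1) = 1 := by
        unfold one'
        rw [if_neg (Nat.succ_ne_zero n)]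
      have hpr : P.real univ = 1 := by simp
      rw [hone, hpr, one_smul, one_mul]
      have hden : ((((n + 1 : ℕ) : ℝ) ^ B : ℝ) : ℂ) + (1 / 2 + (t : ℂ) * I) ≠ 0 := by
        intro h
        have := congrArg Complex.re h
        rw [Complex.add_re, hsre, Complex.ofReal_re, Complex.zero_re] at this
        have h2 : (0 : ℝ) ≤ ((n + 1 : ℕ) : ℝ) ^ B := Real.rpow_nonneg hn0.le _
        linarith
      generalize ((n + 1 : ℕ) : ℂ) ^ (-(1 / 2 + (t : ℂ) * I)) = w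
      generalize ((((n + 1 : ℕ) : ℝ) ^ B : ℝ) : ℂ) = v at hden ⊢
      generalize (1 / 2 + (t : ℂ) * I) = s at hden ⊢
      field_simp
      ring
    have e2 : ∑' n : ℕ, ∫ ω', G B n t (X (n + 1) ω') ∂P = -Sm one' B (1 / 2 + (t : ℂ) * I) := by
      have f1 := (hA one' B (by linarith) (by unfold one'; rw [if_pos rfl]) (fun n => by
        unfold one'
        split_ifs <;> simp)).2.2.2.2 (1 / 2 + (t : ℂ) * I) (by rw [hsre]; norm_num) hs
        (by rw [hsre]; linarith)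
      unfold Sm
      rw [f1.tsum_eq_zero_add]
      have f2 : one' 0 = 0 := by
        unfold one'
        rw [if_pos rfl]
      rw [f2, zero_mul, zero_div, zero_add, ← tsum_mul_left, ← tsum_neg]
      exact tsum_congr fun n => e1 n
    have e3 : zlam (pert B (fun n => X n ω)) t - Dl B t =
        ∑' n, (G B n t (X (n + 1) ω) - ∫ ω', G B n t (X (n + 1) ω') ∂P) := by
      rw [(k1 t).tsum_sub (k2 t), e2]
      unfold zlam Dl
      have f1 : (∑' n : ℕ, ((pert B (fun n => X n ω) (n + 1) : ℂ) ^ (-(1 / 2 + (t : ℂ) * I)) -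
          ((n + 1 : ℕ) : ℂ) ^ (-(1 / 2 + (t : ℂ) * I)))) = ∑' n, G B n t (X (n + 1) ω) := rfl
      rw [f1]
      ring
    rw [e3]
    exact k3 t
  · -- summability
    have h1 : ∀ n : ℕ, ((n : ℝ) + 1) ^ (-(1 / 2) - B : ℝ) * ((n : ℝ) + 1) ^ (1 / 4 : ℝ) =
        1 / (((n + 1 : ℕ) : ℝ) ^ (1 / 4 + B : ℝ)) := by
      intro n
      have h0 : (0 : ℝ) < (n : ℝ) + 1 := by positivity
      have h3 : 1 / (((n : ℝ) + 1) ^ (1 / 4 + B : ℝ)) = ((n : ℝ) + 1) ^ (-(1 / 4 + B) : ℝ) := by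
        rw [Real.rpow_neg h0.le, one_div (((n : ℝ) + 1) ^ (1 / 4 + B : ℝ))]
      rw [n1' n, ← Real.rpow_add h0, h3]
      congr 1
      ring
    rw [funext h1]
    have h2 : Summable (fun n : ℕ => 1 / ((n : ℝ) ^ (1 / 4 + B : ℝ))) :=
      Real.summable_one_div_nat_rpow.2 (by linarith)
    exact (summable_nat_add_iff 1).2 h2
  · intro t
    exact Real.one_le_rpow (by linarith [abs_nonneg t]) hε.le
  · intro t t' h
    exact Real.rpow_le_rpow (by positivity) (by linarith) hε.le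

end INT_

open INT_

theorem p_INT (hF : P_FLU) (hM : P_MEX) (h1 : P_DET1) (h2 : P_DET2) (hA : P_SMA) : P_INT := by
  intro Ω _ P _ X hX B A hB hA0
  have hall : ∀ᵐ ω ∂P, ∀ j : ℕ, ∃ C : ℝ, ∀ t : ℝ,
      ‖zlam (pert B (fun n => X n ω)) t - Dl B t‖ ≤ C * (1 + |t|) ^ (1 / ((j : ℝ) + 1)) :=
    ae_all_iff.2 fun j => fluct hF hM hA P X hX hB (by positivity)
  have hall2 : ∀ᵐ ω ∂P, ∀ ε : ℝ, 0 < ε → ∃ C : ℝ, ∀ t : ℝ,
      ‖zlam (pert B (fun n => X n ω)) t - Dl B t‖ ≤ C * (1 + |t|) ^ (A + ε) := by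
    filter_upwards [hall] with ω hω ε hε
    obtain ⟨j, hj⟩ := exists_nat_one_div_lt hε
    obtain ⟨C, hC⟩ := hω j
    refine ⟨|C|, fun t => (hC t).trans ?_⟩
    have e1 : (1 : ℝ) ≤ 1 + |t| := by linarith [abs_nonneg t]
    have e2 : (1 + |t|) ^ (1 / ((j : ℝ) + 1)) ≤ (1 + |t|) ^ (A + ε) :=
      Real.rpow_le_rpow_of_exponent_le e1 (by linarith)
    calc C * (1 + |t|) ^ (1 / ((j : ℝ) + 1)) ≤ |C| * (1 + |t|) ^ (1 / ((j : ℝ) + 1)) :=
          mul_le_mul_of_nonneg_right (le_abs_self C) (by positivity)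
      _ ≤ |C| * (1 + |t|) ^ (A + ε) := mul_le_mul_of_nonneg_left e2 (abs_nonneg C)
  constructor
  · intro hL
    have hD := h1 B A (by linarith) hA0 hL
    filter_upwards [hall2] with ω hω ε hε
    obtain ⟨C, hC⟩ := hω ε hε
    obtain ⟨C', hC'⟩ := hD ε hε
    refine ⟨C + C', fun t => ?_⟩
    have e1 : zlam (pert B (fun n => X n ω)) t =
        (zlam (pert B (fun n => X n ω)) t - Dl B t) + Dl B t := by ring
    rw [e1, add_mul]
    exact (norm_add_le _ _).trans (add_le_add (hC t) (hC' t))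
  · intro hL
    filter_upwards [hall2] with ω hω hE
    apply hL
    refine h2 B A hB hA0 ?_
    intro ε hε
    obtain ⟨C, hC⟩ := hω ε hε
    obtain ⟨C', hC'⟩ := hE ε hε
    refine ⟨C + C', fun t => ?_⟩
    have e1 : Dl B t = zlam (pert B (fun n => X n ω)) t -
        (zlam (pert B (fun n => X n ω)) t - Dl B t) := by ring
    rw [e1, add_mul, add_comm (C * _)]
    exact (norm_sub_le _ _).trans (add_le_add (hC' t) (hC t))

end Pool.Agent.PertZ
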