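import Pool.Agent.PertZ.Defs2
import Pool.Agent.PertZ.INT

/-!
# The Lindelöf hypothesis under random perturbation of the integers: block GAP
-/

set_option autoImplicit false

namespace Pool.Agent.PertZ

open MeasureTheory ProbabilityTheory Set Filter Topology Complex Pool.Agent.CW

open INT_

/-- the fluctuation of the perturbed zeta function -/
theorem GAP_fluct (hF : P_FLU) (hM : P_MEX) (hA : P_SMA) {Ω : Type} [MeasurableSpace Ω]
    (P : Measure Ω) [IsProbabilityMeasure P] (X : ℕ → Ω → ℝ) (hX : IsExpSeq P X) {B : ℝ}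
    (hB : 1 / 2 < B) {ε : ℝ} (hε : 0 < ε) :
    ∀ᵐ ω ∂P, ∃ C : ℝ, ∀ t : ℝ,
      ‖zlam (pert B (fun n => X n ω)) t - Dl B t‖ ≤ C * (1 + |t|) ^ ε := by
  have hmex := fun n : ℕ => hM P (X (n + 1)) (hX.measurable (n + 1)) (hX.law (n + 1))
  have key := hF P (fun n => X (n + 1)) (G B) (fun n => 2 * ((n : ℝ) + 1) ^ (-(1 / 2) : ℝ))
    (fun n => ((n : ℝ) + 1) ^ (-(1 / 2) - B : ℝ)) ((B - 1 / 2) / 2) (fun t => (1 + |t|) ^ ε)
    (fun n => hX.measurable (n + 1))
    (hX.indep.precomp (g := fun n : ℕ => n + 1) (fun a b h => by simpa using h))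
    (fun n => (hmex n).1) (fun n => (hmex n).2.1) (fun n => (hmex n).2.2.1) (by linarith)
    (fun n t => G_meas n t) (fun n => by positivity) (fun n => by positivity)
    (fun n t x hx => G_le n t x hx) (fun n t t' x hx => G_diff (by linarith) n t t' x hx)
    (fun n t x hx => G_small n t x hx) ?_ ?_ ?_ (fun q hq => summ hε q hq)
  · filter_upwards [key] with ω hω
    obtain ⟨k1, k2, C, k3⟩ := hω
    refine ⟨C, fun t => ?_⟩
    have hs : (1 / 2 + (t : ℂ) * I) ≠ 0 := by
      intro h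
      have := congrArg Complex.re h
      simp at this
    have hsre : (1 / 2 + (t : ℂ) * I).re = 1 / 2 := by simp
    -- the sum of the means
    have e1 : ∀ n : ℕ, ∫ ω', G B n t (X (n + 1) ω') ∂P =
        -((1 / 2 + (t : ℂ) * I) * (one' (n + 1) * ((n + 1 : ℕ) : ℂ) ^ (-(1 / 2 + (t : ℂ) * I)) /
          (((((n + 1 : ℕ) : ℝ) ^ B : ℝ) : ℂ) + (1 / 2 + (t : ℂ) * I)))) := by
      intro n
      have hn0 : (0 : ℝ) < ((n + 1 : ℕ) : ℝ) := by linarith [n1 n]
      have f1 := (hmex n).2.2.2 B (n + 1) (1 / 2 + (t : ℂ) * I) (Nat.le_add_left 1 n)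
        (by rw [hsre]; norm_num)
      have hint : Integrable (fun ω' => ((((n + 1 : ℕ) : ℝ) *
          Real.exp (X (n + 1) ω' * ((n + 1 : ℕ) : ℝ) ^ (-B)) : ℝ) : ℂ) ^
            (-(1 / 2 + (t : ℂ) * I))) P := by
        refine Integrable.of_bound (C := 1) ?_ ?_
        · have hm := hX.measurable (n + 1)
          refine Measurable.aestronglyMeasurable ?_
          refine Measurable.pow_const ?_ _
          refine Complex.measurable_ofReal.comp ?_
          fun_prop
        · filter_upwards [(hmex n).1] with ω' hω'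
          have hb := big (B := B) n hω'
          rw [norm_cpow (by linarith)]
          exact Real.rpow_le_one_of_one_le_of_nonpos ((n1 n).trans hb) (by norm_num)
      unfold G
      rw [integral_sub hint (integrable_const _), f1, integral_const]
      have hone : one' (n + 1) = 1 := by
        unfold one'
        rw [if_neg (Nat.succ_ne_zero n)]
      have hpr : P.real univ = 1 := by simp
      rw [hone, hpr, one_smul, one_mul]
      have hden : ((((n + 1 : ℕ) : ℝ) ^ B : ℝ) : ℂ) + (1 / 2 + (t : ℂ) * I) ≠ 0 := by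
        intro h
        have := congrArg Complex.re h
        rw [Complex.add_re, hsre, Complex.ofReal_re, Complex.zero_re] at this
        have h2 : (0 : ℝ) ≤ ((n + 1 : ℕ) : ℝ) ^ B := Real.rpow_nonneg hn0.le _
        linarith
      generalize ((n + 1 : ℕ) : ℂ) ^ (-(1 / 2 + (t : ℂ) * I)) = w
      generalize ((((n + 1 : ℕ) : ℝ) ^ B : ℝ) : ℂ) = v at hden ⊢
      generalize (1 / 2 + (t : ℂ) * I) = s at hden ⊢
      field_simp
      ring
    have e2 : ∑' n : ℕ, ∫ ω', G B n t (X (n + 1) ω') ∂P = -Sm one' B (1 / 2 + (t : ℂ) * I) := by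
      have f1 := (hA one' B (by linarith) (by unfold one'; rw [if_pos rfl]) (fun n => by
        unfold one'
        split_ifs <;> simp)).2.2.2.2 (1 / 2 + (t : ℂ) * I) (by rw [hsre]; norm_num) hs
        (by rw [hsre]; linarith)
      unfold Sm
      rw [f1.tsum_eq_zero_add]
      have f2 : one' 0 = 0 := by
        unfold one'
        rw [if_pos rfl]
      rw [f2, zero_mul, zero_div, zero_add, ← tsum_mul_left, ← tsum_neg]
      exact tsum_congr fun n => e1 n
    have e3 : zlam (pert B (fun n => X n ω)) t - Dl B t =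
        ∑' n, (G B n t (X (n + 1) ω) - ∫ ω', G B n t (X (n + 1) ω') ∂P) := by
      rw [(k1 t).tsum_sub (k2 t), e2]
      unfold zlam Dl
      have f1 : (∑' n : ℕ, ((pert B (fun n => X n ω) (n + 1) : ℂ) ^ (-(1 / 2 + (t : ℂ) * I)) -
          ((n + 1 : ℕ) : ℂ) ^ (-(1 / 2 + (t : ℂ) * I)))) = ∑' n, G B n t (X (n + 1) ω) := rfl
      rw [f1]
      ring
    rw [e3]
    exact k3 t
  · -- summability
    have h1 : ∀ n : ℕ, ((n : ℝ) + 1) ^ (-(1 / 2) - B : ℝ) *
        ((n : ℝ) + 1) ^ ((B - 1 / 2) / 2) = 1 / (((n + 1 : ℕ) : ℝ) ^ (3 / 4 + B / 2 : ℝ)) := by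
      intro n
      have h0 : (0 : ℝ) < (n : ℝ) + 1 := by positivity
      have h3 : 1 / (((n : ℝ) + 1) ^ (3 / 4 + B / 2 : ℝ)) =
          ((n : ℝ) + 1) ^ (-(3 / 4 + B / 2) : ℝ) := by
        rw [Real.rpow_neg h0.le, one_div (((n : ℝ) + 1) ^ (3 / 4 + B / 2 : ℝ))]
      rw [n1' n, ← Real.rpow_add h0, h3]
      congr 1
      ring
    rw [funext h1]
    have h2 : Summable (fun n : ℕ => 1 / ((n : ℝ) ^ (3 / 4 + B / 2 : ℝ))) :=
      Real.summable_one_div_nat_rpow.2 (by linarith)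
    exact (summable_nat_add_iff 1).2 h2
  · intro t
    exact Real.one_le_rpow (by linarith [abs_nonneg t]) hε.le
  · intro t t' h
    exact Real.rpow_le_rpow (by positivity) (by linarith) hε.le

theorem p_GAP (hF : P_FLU) (hM : P_MEX) (hA : P_SMA) : P_GAP := by
  intro Ω _ P _ X hX B hB
  have hall : ∀ᵐ ω ∂P, ∀ j : ℕ, ∃ C : ℝ, ∀ t : ℝ,
      ‖zlam (pert B (fun n => X n ω)) t - Dl B t‖ ≤ C * (1 + |t|) ^ (1 / ((j : ℝ) + 1)) :=
    ae_all_iff.2 fun j => GAP_fluct hF hM hA P X hX hB (by positivity)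
  filter_upwards [hall] with ω hω ε hε
  obtain ⟨j, hj⟩ := exists_nat_one_div_lt hε
  obtain ⟨C, hC⟩ := hω j
  refine ⟨|C|, fun t => (hC t).trans ?_⟩
  have e1 : (1 : ℝ) ≤ 1 + |t| := by linarith [abs_nonneg t]
  have e2 : (1 + |t|) ^ (1 / ((j : ℝ) + 1)) ≤ (1 + |t|) ^ ε :=
    Real.rpow_le_rpow_of_exponent_le e1 hj.le
  calc C * (1 + |t|) ^ (1 / ((j : ℝ) + 1)) ≤ |C| * (1 + |t|) ^ (1 / ((j : ℝ) + 1)) :=
        mul_le_mul_of_nonneg_right (le_abs_self C) (by positivity)
    _ ≤ |C| * (1 + |t|) ^ ε := mul_le_mul_of_nonneg_left e2 (abs_nonneg C)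

end Pool.Agent.PertZ
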