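import Pool.Agent.PertZ.Defs6
import Pool.Agent.PertZ.INT

/-!
# The Lindelöf hypothesis under random perturbation of the integers: block GAPL
-/

set_option autoImplicit false

namespace Pool.Agent.PertZ

open MeasureTheory ProbabilityTheory Set Filter Topology Complex Pool.Agent.CW

open INT_

/-- one plus the logarithm -/
theorem GAPL_one_le (t : ℝ) : (1 : ℝ) ≤ 1 + Real.log (1 + |t|) := by
  have := Real.log_nonneg (show (1 : ℝ) ≤ 1 + |t| by linarith [abs_nonneg t])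
  linarith

/-- the summability condition of the fluctuation block for powers of the logarithm -/
theorem GAPL_summ {ε : ℝ} (hε : 0 < ε) (q : ℕ) (hq : 1 ≤ q) :
    Summable (fun k : ℕ => Real.exp
      (-((1 + Real.log (1 + |(k : ℝ) ^ (1 / (q : ℝ))|)) ^ (1 + ε)) ^ 2 /
        (q * (1 + ∑ n ∈ Finset.range k, (2 * ((n : ℝ) + 1) ^ (-(1 / 2) : ℝ)) ^ 2)))) := by
  have hq0 : (0 : ℝ) < q := by exact_mod_cast hq
  have hq1 : (1 : ℝ) ≤ q := by exact_mod_cast hq
  have hlim : Tendsto (fun k : ℕ =>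
      (1 + Real.log (1 + |(k : ℝ) ^ (1 / (q : ℝ))|)) ^ (2 * ε : ℝ)) atTop atTop := by
    have h1 : Tendsto (fun k : ℕ => (k : ℝ) ^ (1 / (q : ℝ))) atTop atTop :=
      (tendsto_rpow_atTop (by positivity)).comp tendsto_natCast_atTop_atTop
    have h2 : Tendsto (fun k : ℕ => 1 + |(k : ℝ) ^ (1 / (q : ℝ))|) atTop atTop :=
      tendsto_atTop_add_const_left _ _ (tendsto_abs_atTop_atTop.comp h1)
    have h3 : Tendsto (fun k : ℕ => 1 + Real.log (1 + |(k : ℝ) ^ (1 / (q : ℝ))|)) atTop atTop :=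
      tendsto_atTop_add_const_left _ _ (Real.tendsto_log_atTop.comp h2)
    exact (tendsto_rpow_atTop (by positivity)).comp h3
  have hs2 : Summable (fun k : ℕ => (k : ℝ) ^ (-(2 : ℝ))) :=
    Real.summable_nat_rpow.2 (by norm_num)
  refine Summable.of_norm_bounded_eventually_nat hs2 ?_
  filter_upwards [hlim.eventually_ge_atTop (18 * (q : ℝ) ^ 3), eventually_ge_atTop 1]
    with k hk hk1
  have hk0 : (0 : ℝ) < k := by exact_mod_cast hk1
  rw [Real.norm_of_nonneg (Real.exp_pos _).le]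
  set τ : ℝ := (k : ℝ) ^ (1 / (q : ℝ)) with hτ
  have hτ0 : 0 < τ := Real.rpow_pos_of_pos hk0 _
  have hL1' := GAPL_one_le τ
  set L : ℝ := 1 + Real.log (1 + |τ|) with hL
  have hL1 : 1 ≤ L := hL1'
  have hL0 : 0 < L := by linarith
  have hlog : Real.log k ≤ q * L := by
    have h4 : Real.log τ = (1 / (q : ℝ)) * Real.log k := Real.log_rpow hk0 _
    have h5 : Real.log τ ≤ Real.log (1 + |τ|) := by
      refine Real.log_le_log hτ0 ?_
      rw [abs_of_pos hτ0]; linarith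
    have h6 : Real.log k = q * Real.log τ := by rw [h4]; field_simp
    rw [h6]
    refine mul_le_mul_of_nonneg_left ?_ hq0.le
    linarith
  have v1 : ∑ n ∈ Finset.range k, (2 * ((n : ℝ) + 1) ^ (-(1 / 2) : ℝ)) ^ 2 ≤
      4 * (1 + Real.log k) := by
    have c1 := harmonic_le_one_add_log k
    have c2 : ∑ n ∈ Finset.range k, (2 * ((n : ℝ) + 1) ^ (-(1 / 2) : ℝ)) ^ 2 =
        4 * ((harmonic k : ℚ) : ℝ) := by
      unfold harmonic
      rw [Rat.cast_sum, Finset.mul_sum]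
      refine Finset.sum_congr rfl fun n _ => ?_
      have c3 : (0 : ℝ) < (n : ℝ) + 1 := by positivity
      rw [mul_pow, ← Real.rpow_natCast (((n : ℝ) + 1) ^ (-(1 / 2) : ℝ)), ← Real.rpow_mul c3.le]
      push_cast
      rw [show (-(1 / 2) * 2 : ℝ) = -1 by norm_num, Real.rpow_neg_one]
      norm_num
    rw [c2]
    linarith
  have v0 : 0 ≤ ∑ n ∈ Finset.range k, (2 * ((n : ℝ) + 1) ^ (-(1 / 2) : ℝ)) ^ 2 :=
    Finset.sum_nonneg fun n _ => sq_nonneg _
  set Sg : ℝ := 1 + ∑ n ∈ Finset.range k, (2 * ((n : ℝ) + 1) ^ (-(1 / 2) : ℝ)) ^ 2 with hSg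
  have hSg1 : 1 ≤ Sg := by linarith
  have hSgV : Sg ≤ 9 * (q * L) := by
    have h1 : 1 ≤ q * L := by nlinarith
    linarith
  have husq : (L ^ (1 + ε)) ^ 2 = L ^ 2 * L ^ (2 * ε : ℝ) := by
    rw [← Real.rpow_natCast (L ^ (1 + ε)), ← Real.rpow_mul hL0.le, ← Real.rpow_natCast L 2,
      ← Real.rpow_add hL0]
    congr 1
    push_cast
    ring
  have hkey : 2 * Real.log k ≤ (L ^ (1 + ε)) ^ 2 / (q * Sg) := by
    rw [le_div_iff₀ (by positivity), husq]
    have hk' : 0 ≤ Real.log k := Real.log_natCast_nonneg k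
    have h7 : 2 * Real.log k ≤ 2 * (q * L) := by linarith
    have h8 : q * Sg ≤ q * (9 * (q * L)) := mul_le_mul_of_nonneg_left hSgV hq0.le
    calc 2 * Real.log k * (q * Sg) ≤ 2 * (q * L) * (q * (9 * (q * L))) :=
          mul_le_mul h7 h8 (by positivity) (by positivity)
      _ = L ^ 2 * (18 * (q : ℝ) ^ 3) := by ring
      _ ≤ L ^ 2 * L ^ (2 * ε : ℝ) := mul_le_mul_of_nonneg_left hk (by positivity)
  calc Real.exp (-(L ^ (1 + ε)) ^ 2 / (q * Sg)) ≤ Real.exp (-(2 * Real.log k)) := by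
        refine Real.exp_le_exp.2 ?_
        rw [neg_div]
        linarith
    _ = (k : ℝ) ^ (-(2 : ℝ)) := by
      rw [Real.rpow_def_of_pos hk0]
      congr 1
      ring

/-- the fluctuation of the perturbed zeta function -/
theorem GAPL_fluct (hF : P_FLU) (hM : P_MEX) (hA : P_SMA) {Ω : Type} [MeasurableSpace Ω]
    (P : Measure Ω) [IsProbabilityMeasure P] (X : ℕ → Ω → ℝ) (hX : IsExpSeq P X) {B : ℝ}
    (hB : 1 / 2 < B) {ε : ℝ} (hε : 0 < ε) :
    ∀ᵐ ω ∂P, ∃ C : ℝ, ∀ t : ℝ,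
      ‖zlam (pert B (fun n => X n ω)) t - Dl B t‖ ≤
        C * (1 + Real.log (1 + |t|)) ^ (1 + ε) := by
  have hmex := fun n : ℕ => hM P (X (n + 1)) (hX.measurable (n + 1)) (hX.law (n + 1))
  have key := hF P (fun n => X (n + 1)) (G B) (fun n => 2 * ((n : ℝ) + 1) ^ (-(1 / 2) : ℝ))
    (fun n => ((n : ℝ) + 1) ^ (-(1 / 2) - B : ℝ)) ((B - 1 / 2) / 2)
    (fun t => (1 + Real.log (1 + |t|)) ^ (1 + ε))
    (fun n => hX.measurable (n + 1))
    (hX.indep.precomp (g := fun n : ℕ => n + 1) (fun a b h => by simpa using h))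
    (fun n => (hmex n).1) (fun n => (hmex n).2.1) (fun n => (hmex n).2.2.1) (by linarith)
    (fun n t => G_meas n t) (fun n => by positivity) (fun n => by positivity)
    (fun n t x hx => G_le n t x hx) (fun n t t' x hx => G_diff (by linarith) n t t' x hx)
    (fun n t x hx => G_small n t x hx) ?_ ?_ ?_ (fun q hq => GAPL_summ hε q hq)
  · filter_upwards [key] with ω hω
    obtain ⟨k1, k2, C, k3⟩ := hω
    refine ⟨C, fun t => ?_⟩
    have hs : (1 / 2 + (t : ℂ) * I) ≠ 0 := by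
      intro h
      have := congrArg Complex.re h
      simp at this
    have hsre : (1 / 2 + (t : ℂ) * I).re = 1 / 2 := by simp
    -- the sum of the means
    have e1 : ∀ n : ℕ, ∫ ω', G B n t (X (n + 1) ω') ∂P =
        -((1 / 2 + (t : ℂ) * I) * (one' (n + 1) * ((n + 1 : ℕ) : ℂ) ^ (-(1 / 2 + (t : ℂ) * I)) /
          (((((n + 1 : ℕ) : ℝ) ^ B : ℝ) : ℂ) + (1 / 2 + (t : ℂ) * I)))) := by
      intro n
      have hn0 : (0 : ℝ) < ((n + 1 : ℕ) : ℝ) := by linarith [n1 n]
      have f1 := (hmex n).2.2.2 B (n + 1) (1 / 2 + (t : ℂ) * I) (Nat.le_add_left 1 n)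
        (by rw [hsre]; norm_num)
      have hint : Integrable (fun ω' => ((((n + 1 : ℕ) : ℝ) *
          Real.exp (X (n + 1) ω' * ((n + 1 : ℕ) : ℝ) ^ (-B)) : ℝ) : ℂ) ^
            (-(1 / 2 + (t : ℂ) * I))) P := by
        refine Integrable.of_bound (C := 1) ?_ ?_
        · have hm := hX.measurable (n + 1)
          refine Measurable.aestronglyMeasurable ?_
          refine Measurable.pow_const ?_ _
          refine Complex.measurable_ofReal.comp ?_
          fun_prop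
        · filter_upwards [(hmex n).1] with ω' hω'
          have hb := big (B := B) n hω'
          rw [norm_cpow (by linarith)]
          exact Real.rpow_le_one_of_one_le_of_nonpos ((n1 n).trans hb) (by norm_num)
      unfold G
      rw [integral_sub hint (integrable_const _), f1, integral_const]
      have hone : one' (n + 1) = 1 := by
        unfold one'
        rw [if_neg (Nat.succ_ne_zero n)]
      have hpr : P.real univ = 1 := by simp
      rw [hone, hpr, one_smul, one_mul]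
      have hden : ((((n + 1 : ℕ) : ℝ) ^ B : ℝ) : ℂ) + (1 / 2 + (t : ℂ) * I) ≠ 0 := by
        intro h
        have := congrArg Complex.re h
        rw [Complex.add_re, hsre, Complex.ofReal_re, Complex.zero_re] at this
        have h2 : (0 : ℝ) ≤ ((n + 1 : ℕ) : ℝ) ^ B := Real.rpow_nonneg hn0.le _
        linarith
      generalize ((n + 1 : ℕ) : ℂ) ^ (-(1 / 2 + (t : ℂ) * I)) = w
      generalize ((((n + 1 : ℕ) : ℝ) ^ B : ℝ) : ℂ) = v at hden ⊢
      generalize (1 / 2 + (t : ℂ) * I) = s at hden ⊢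
      field_simp
      ring
    have e2 : ∑' n : ℕ, ∫ ω', G B n t (X (n + 1) ω') ∂P = -Sm one' B (1 / 2 + (t : ℂ) * I) := by
      have f1 := (hA one' B (by linarith) (by unfold one'; rw [if_pos rfl]) (fun n => by
        unfold one'
        split_ifs <;> simp)).2.2.2.2 (1 / 2 + (t : ℂ) * I) (by rw [hsre]; norm_num) hs
        (by rw [hsre]; linarith)
      unfold Sm
      rw [f1.tsum_eq_zero_add]
      have f2 : one' 0 = 0 := by
        unfold one'
        rw [if_pos rfl]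
      rw [f2, zero_mul, zero_div, zero_add, ← tsum_mul_left, ← tsum_neg]
      exact tsum_congr fun n => e1 n
    have e3 : zlam (pert B (fun n => X n ω)) t - Dl B t =
        ∑' n, (G B n t (X (n + 1) ω) - ∫ ω', G B n t (X (n + 1) ω') ∂P) := by
      rw [(k1 t).tsum_sub (k2 t), e2]
      unfold zlam Dl
      have f1 : (∑' n : ℕ, ((pert B (fun n => X n ω) (n + 1) : ℂ) ^ (-(1 / 2 + (t : ℂ) * I)) -
          ((n + 1 : ℕ) : ℂ) ^ (-(1 / 2 + (t : ℂ) * I)))) = ∑' n, G B n t (X (n + 1) ω) := rfl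
      rw [f1]
      ring
    rw [e3]
    exact k3 t
  · -- summability
    have h1 : ∀ n : ℕ, ((n : ℝ) + 1) ^ (-(1 / 2) - B : ℝ) *
        ((n : ℝ) + 1) ^ ((B - 1 / 2) / 2) = 1 / (((n + 1 : ℕ) : ℝ) ^ (3 / 4 + B / 2 : ℝ)) := by
      intro n
      have h0 : (0 : ℝ) < (n : ℝ) + 1 := by positivity
      have h3 : 1 / (((n : ℝ) + 1) ^ (3 / 4 + B / 2 : ℝ)) =
          ((n : ℝ) + 1) ^ (-(3 / 4 + B / 2) : ℝ) := by
        rw [Real.rpow_neg h0.le, one_div (((n : ℝ) + 1) ^ (3 / 4 + B / 2 : ℝ))]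
      rw [n1' n, ← Real.rpow_add h0, h3]
      congr 1
      ring
    rw [funext h1]
    have h2 : Summable (fun n : ℕ => 1 / ((n : ℝ) ^ (3 / 4 + B / 2 : ℝ))) :=
      Real.summable_one_div_nat_rpow.2 (by linarith)
    exact (summable_nat_add_iff 1).2 h2
  · intro t
    exact Real.one_le_rpow (GAPL_one_le t) (by linarith)
  · intro t t' h
    have h0 := GAPL_one_le t
    refine Real.rpow_le_rpow (by linarith) ?_ (by linarith)
    have h1 := Real.log_le_log (show (0 : ℝ) < 1 + |t| by linarith [abs_nonneg t])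
      (show 1 + |t| ≤ 1 + |t'| by linarith)
    linarith

theorem p_GAPL (hF : P_FLU) (hM : P_MEX) (hA : P_SMA) : P_GAPL := by
  intro Ω _ P _ X hX B hB
  have hall : ∀ᵐ ω ∂P, ∀ j : ℕ, ∃ C : ℝ, ∀ t : ℝ,
      ‖zlam (pert B (fun n => X n ω)) t - Dl B t‖ ≤
        C * (1 + Real.log (1 + |t|)) ^ (1 + 1 / ((j : ℝ) + 1)) :=
    ae_all_iff.2 fun j => GAPL_fluct hF hM hA P X hX hB (by positivity)
  filter_upwards [hall] with ω hω ε hε
  obtain ⟨j, hj⟩ := exists_nat_one_div_lt hε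
  obtain ⟨C, hC⟩ := hω j
  refine ⟨|C|, fun t => (hC t).trans ?_⟩
  have e1 := GAPL_one_le t
  have e2 : (1 + Real.log (1 + |t|)) ^ (1 + 1 / ((j : ℝ) + 1)) ≤
      (1 + Real.log (1 + |t|)) ^ (1 + ε) :=
    Real.rpow_le_rpow_of_exponent_le e1 (by linarith)
  have e3 : 0 ≤ (1 + Real.log (1 + |t|)) ^ (1 + 1 / ((j : ℝ) + 1)) :=
    Real.rpow_nonneg (by linarith) _
  calc C * (1 + Real.log (1 + |t|)) ^ (1 + 1 / ((j : ℝ) + 1)) ≤
        |C| * (1 + Real.log (1 + |t|)) ^ (1 + 1 / ((j : ℝ) + 1)) :=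
        mul_le_mul_of_nonneg_right (le_abs_self C) e3
    _ ≤ |C| * (1 + Real.log (1 + |t|)) ^ (1 + ε) :=
        mul_le_mul_of_nonneg_left e2 (abs_nonneg C)

end Pool.Agent.PertZ
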