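import Pool.Agent.PertZ.Defs7
import Pool.Agent.Lib.ZetaCrude

/-! PZ6-GID: the mean is the integral of its parts (helper99). -/

set_option autoImplicit false

namespace Pool.Agent.PertZ

open MeasureTheory ProbabilityTheory Set Filter Topology Complex Pool.Agent.CW Pool.Agent.DBN

lemma GID_tel {p a : ℝ} (hp : 1 < p) (ha : 1 ≤ a) :
    a ^ (-p) ≤ 2 ^ p / (p - 1) * (a ^ (1 - p) - (a + 1) ^ (1 - p)) := by
  have ha0 : 0 < a := by linarith
  have hq : 0 < p - 1 := by linarith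
  have ha1 : 0 < a + 1 := by linarith
  have hy : 0 < a / (a + 1) := by positivity
  have h1 : 1 + (p - 1) / (a + 1) ≤ (a / (a + 1)) ^ (1 - p) := by
    rw [Real.rpow_def_of_pos hy]
    have h2 := Real.log_le_sub_one_of_pos hy
    have h3 := Real.add_one_le_exp (Real.log (a / (a + 1)) * (1 - p))
    have h4 : a / (a + 1) - 1 = -(1 / (a + 1)) := by
      field_simp
      ring
    rw [h4] at h2
    have h5 : (p - 1) * Real.log (a / (a + 1)) ≤ (p - 1) * -(1 / (a + 1)) := by gcongr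
    have h6 : (p - 1) / (a + 1) = (p - 1) * (1 / (a + 1)) := by ring
    rw [h6]
    linarith
  have h2 : a ^ (1 - p) = (a + 1) ^ (1 - p) * (a / (a + 1)) ^ (1 - p) := by
    rw [← Real.mul_rpow ha1.le hy.le]
    congr 1
    field_simp
  have h3 : (a + 1) ^ (1 - p) = (a + 1) * (a + 1) ^ (-p) := by
    rw [show (1 - p) = 1 + -p by ring, Real.rpow_add ha1, Real.rpow_one]
  have h4 : (2 : ℝ) ^ (-p) * a ^ (-p) ≤ (a + 1) ^ (-p) := by
    rw [← Real.mul_rpow (by norm_num) ha0.le]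
    exact Real.rpow_le_rpow_of_nonpos ha1 (by linarith) (by linarith)
  have h5 : (p - 1) * (a + 1) ^ (-p) ≤ a ^ (1 - p) - (a + 1) ^ (1 - p) := by
    have h6 : (a + 1) ^ (1 - p) * (1 + (p - 1) / (a + 1)) ≤
        (a + 1) ^ (1 - p) * (a / (a + 1)) ^ (1 - p) := by gcongr
    have h7 : (a + 1) ^ (1 - p) * (1 + (p - 1) / (a + 1)) =
        (a + 1) ^ (1 - p) + (p - 1) * (a + 1) ^ (-p) := by
      rw [h3]
      field_simp
    rw [← h2] at h6
    linarith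
  have h6 : (2 : ℝ) ^ p * 2 ^ (-p) = 1 := by
    rw [← Real.rpow_add (by norm_num)]
    simp
  calc a ^ (-p) = 2 ^ p * ((2 : ℝ) ^ (-p) * a ^ (-p)) := by rw [← mul_assoc, h6, one_mul]
    _ ≤ 2 ^ p * (a + 1) ^ (-p) := by gcongr
    _ = 2 ^ p / (p - 1) * ((p - 1) * (a + 1) ^ (-p)) := by field_simp
    _ ≤ _ := by gcongr

lemma GID_tail {p : ℝ} (hp : 1 < p) (N : ℕ) :
    Summable (fun n : ℕ => (((n + N : ℕ) + 1 : ℝ)) ^ (-p)) ∧
    ∑' n : ℕ, (((n + N : ℕ) + 1 : ℝ)) ^ (-p) ≤ 2 ^ p / (p - 1) * (N + 1 : ℝ) ^ (1 - p) := by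
  have hq : 0 < p - 1 := by linarith
  have hpart : ∀ K : ℕ, ∑ n ∈ Finset.range K, (((n + N : ℕ) + 1 : ℝ)) ^ (-p) ≤
      2 ^ p / (p - 1) * ((N + 1 : ℝ) ^ (1 - p) - (((K + N : ℕ) + 1 : ℝ)) ^ (1 - p)) := by
    intro K
    induction K with
    | zero => simp
    | succ K ih =>
      rw [Finset.sum_range_succ]
      have h1 := GID_tel (a := ((K + N : ℕ) + 1 : ℝ)) hp (by
        have : (0 : ℝ) ≤ ((K + N : ℕ) : ℝ) := Nat.cast_nonneg _
        linarith)
      have h2 : (((K + N : ℕ) + 1 : ℝ) + 1) = (((K + 1 + N : ℕ)) + 1 : ℝ) := by push_cast; ring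
      rw [h2] at h1
      linarith
  have hpart' : ∀ K : ℕ, ∑ n ∈ Finset.range K, (((n + N : ℕ) + 1 : ℝ)) ^ (-p) ≤
      2 ^ p / (p - 1) * (N + 1 : ℝ) ^ (1 - p) := by
    intro K
    refine (hpart K).trans ?_
    have : 0 ≤ (((K + N : ℕ) + 1 : ℝ)) ^ (1 - p) := by positivity
    gcongr
    linarith
  exact ⟨summable_of_sum_range_le (fun n => by positivity) hpart',
    Real.tsum_le_of_sum_range_le (fun n => by positivity) hpart'⟩

lemma GID_zeta : ∃ C : ℝ, 0 < C ∧ ∀ t x : ℝ, 0 < x →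
    ‖riemannZeta (1 / 2 + t * I) -
        ∑ n ∈ Finset.range ⌊x⌋₊, ((n + 1 : ℝ) : ℂ) ^ (-(1 / 2 + t * I)) +
      (x : ℂ) ^ (1 - (1 / 2 + t * I)) / (1 - (1 / 2 + t * I))‖ ≤
        C * (1 + |t|) * x ^ (-(1 / 2) : ℝ) := by
  refine ⟨2 ^ (3 / 2 : ℝ) / (3 / 2 - 1) + 1,
    add_pos (div_pos (by positivity) (by norm_num)) one_pos, fun t x hx => ?_⟩
  set s : ℂ := 1 / 2 + t * I with hs
  obtain ⟨N, hN⟩ : ∃ N, N = ⌊x⌋₊ := ⟨_, rfl⟩
  rw [← hN]
  have hre : s.re = 1 / 2 := by simp [hs]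
  have hs1 : s ≠ 1 := by
    intro h
    rw [h] at hre
    norm_num at hre
  have hne : s - 1 ≠ 0 := sub_ne_zero.2 hs1
  have hne' : 1 - s ≠ 0 := sub_ne_zero.2 hs1.symm
  have hns : ‖s‖ ≤ 1 + |t| := by
    rw [hs]
    refine (norm_add_le _ _).trans ?_
    simp
    norm_num
  have hN0 : (0 : ℝ) < N + 1 := by positivity
  have hxN : x ≤ N + 1 := by rw [hN]; exact (Nat.lt_floor_add_one x).le
  have hNx : (N : ℝ) ≤ x := by rw [hN]; exact Nat.floor_le hx.le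
  have hfin : ∀ N : ℕ, 1 + ∑ n ∈ Finset.range N, Pool.Agent.Lib.ZetaCrude.g n s =
      (s - 1) * ∑ n ∈ Finset.range N, ((n + 1 : ℝ) : ℂ) ^ (-s) + ((N + 1 : ℝ) : ℂ) ^ (1 - s) := by
    intro N
    induction N with
    | zero => simp
    | succ N ih =>
      rw [Finset.sum_range_succ, Finset.sum_range_succ, ← add_assoc, ih,
        Pool.Agent.Lib.ZetaCrude.g]
      push_cast
      ring_nf
  have hb : ∀ n : ℕ, ‖Pool.Agent.Lib.ZetaCrude.g (n + N) s‖ ≤
      ‖s - 1‖ * ‖s‖ * (((n + N : ℕ) + 1 : ℝ)) ^ (-(3 / 2) : ℝ) := by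
    intro n
    have := Pool.Agent.Lib.ZetaCrude.norm_g_le (n + N) s (by rw [hre]; norm_num)
    have e : (-s.re - 1 : ℝ) = -(3 / 2) := by rw [hre]; norm_num
    rw [e] at this
    exact this
  have ht := GID_tail (p := 3 / 2) (by norm_num) N
  have hsumN : Summable fun n => Pool.Agent.Lib.ZetaCrude.g (n + N) s :=
    (ht.1.mul_left (‖s - 1‖ * ‖s‖)).of_norm_bounded hb
  have hsum : Summable fun n => Pool.Agent.Lib.ZetaCrude.g n s := (summable_nat_add_iff N).1 hsumN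
  have hG : (s - 1) * riemannZeta s = 1 + ∑' n, Pool.Agent.Lib.ZetaCrude.g n s := by
    have h1 := Pool.Agent.Lib.ZetaCrude.G_eq (s := s) (by rw [hre]; norm_num)
    unfold Pool.Agent.Lib.ZetaCrude.G at h1
    rw [h1, riemannZeta_eq_inv_sub_mul hs1]
    field_simp
  rw [← hsum.sum_add_tsum_nat_add N, ← add_assoc, hfin N] at hG
  have h1 : riemannZeta s - ∑ n ∈ Finset.range N, ((n + 1 : ℝ) : ℂ) ^ (-s) +
      (x : ℂ) ^ (1 - s) / (1 - s) =
      (∑' n, Pool.Agent.Lib.ZetaCrude.g (n + N) s) / (s - 1) -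
        (((N + 1 : ℝ) : ℂ) ^ (1 - s) - (x : ℂ) ^ (1 - s)) / (1 - s) := by
    have h2 : riemannZeta s = ∑ n ∈ Finset.range N, ((n + 1 : ℝ) : ℂ) ^ (-s) +
      ((N + 1 : ℝ) : ℂ) ^ (1 - s) / (s - 1) +
      (∑' n, Pool.Agent.Lib.ZetaCrude.g (n + N) s) / (s - 1) := by
      rw [eq_comm, ← mul_right_inj' hne, hG]
      field_simp
    have h3 : ((N + 1 : ℝ) : ℂ) ^ (1 - s) / (s - 1) = -(((N + 1 : ℝ) : ℂ) ^ (1 - s) / (1 - s)) := by
      rw [← div_neg, neg_sub]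
    rw [h2, h3]
    ring
  rw [h1]
  have hA : ‖(∑' n, Pool.Agent.Lib.ZetaCrude.g (n + N) s) / (s - 1)‖ ≤
      2 ^ (3 / 2 : ℝ) / (3 / 2 - 1) * (1 + |t|) * x ^ (-(1 / 2) : ℝ) := by
    have hn1 : 0 < ‖s - 1‖ := norm_pos_iff.2 hne
    rw [norm_div, div_le_iff₀ hn1]
    have h4 : ‖∑' n, Pool.Agent.Lib.ZetaCrude.g (n + N) s‖ ≤ ‖s - 1‖ * ‖s‖ *
        ∑' n : ℕ, (((n + N : ℕ) + 1 : ℝ)) ^ (-(3 / 2) : ℝ) := by
      rw [← tsum_mul_left]
      exact tsum_of_norm_bounded (ht.1.mul_left _).hasSum hb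
    have h5 : (N + 1 : ℝ) ^ (1 - 3 / 2 : ℝ) ≤ x ^ (-(1 / 2) : ℝ) := by
      rw [show (1 - 3 / 2 : ℝ) = -(1 / 2) by norm_num]
      exact Real.rpow_le_rpow_of_nonpos hx hxN (by norm_num)
    have h6 : (0 : ℝ) ≤ 2 ^ (3 / 2 : ℝ) / (3 / 2 - 1) := div_nonneg (by positivity) (by norm_num)
    calc _ ≤ _ := h4
      _ ≤ ‖s - 1‖ * (1 + |t|) * (2 ^ (3 / 2 : ℝ) / (3 / 2 - 1) * x ^ (-(1 / 2) : ℝ)) := by
        gcongr
        exact ht.2.trans (by gcongr)
      _ = _ := by ring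
  have hB : ‖(((N + 1 : ℝ) : ℂ) ^ (1 - s) - (x : ℂ) ^ (1 - s)) / (1 - s)‖ ≤
      1 * (1 + |t|) * x ^ (-(1 / 2) : ℝ) := by
    have hn1 : 0 < ‖1 - s‖ := norm_pos_iff.2 hne'
    rw [norm_div, div_le_iff₀ hn1]
    have hbd : ∀ y ∈ Set.Icc x (N + 1), ‖(1 - s) * (y : ℂ) ^ (1 - s - 1)‖ ≤
        ‖1 - s‖ * x ^ (-(1 / 2) : ℝ) := by
      intro y hy
      have hy0 : 0 < y := lt_of_lt_of_le hx hy.1
      rw [norm_mul, norm_cpow_eq_rpow_re_of_pos hy0]
      have e : (1 - s - 1).re = -(1 / 2) := by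
        simp [hre]
      rw [e]
      exact mul_le_mul_of_nonneg_left (Real.rpow_le_rpow_of_nonpos hx hy.1 (by norm_num))
        (norm_nonneg _)
    have hder : ∀ y ∈ Set.Icc x (N + 1), HasDerivWithinAt (fun y : ℝ => (y : ℂ) ^ (1 - s))
        ((1 - s) * (y : ℂ) ^ (1 - s - 1)) (Set.Icc x (N + 1)) y := by
      intro y hy
      exact (Pool.Agent.Lib.ZetaCrude.hasDerivAt_cpow_real (lt_of_lt_of_le hx hy.1)
        (1 - s)).hasDerivWithinAt
    have h7 := Convex.norm_image_sub_le_of_norm_hasDerivWithin_le hder hbd (convex_Icc x (N + 1))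
      (Set.left_mem_Icc.mpr hxN) (Set.right_mem_Icc.mpr hxN)
    have h8 : ‖((N : ℝ) + 1 - x)‖ ≤ 1 + |t| := by
      rw [Real.norm_of_nonneg (by linarith)]
      linarith [abs_nonneg t]
    calc _ ≤ _ := h7
      _ ≤ ‖1 - s‖ * x ^ (-(1 / 2) : ℝ) * (1 + |t|) := by gcongr
      _ = _ := by ring
  calc _ ≤ _ := norm_sub_le _ _
    _ ≤ _ := add_le_add hA hB
    _ = _ := by ring

lemma GID_fub {F : ℕ → ℝ → ℂ} (hI : ∀ n, Integrable (F n))
    (hs : Summable fun n => ∫ v, ‖F n v‖) (hp : ∀ v, Summable fun n => F n v) :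
    Integrable (fun v => ∑' n, F n v) ∧ ∫ v, ∑' n, F n v = ∑' n, ∫ v, F n v := by
  refine ⟨⟨?_, ?_⟩, (hasSum_integral_of_summable_integral_norm hI hs).tsum_eq.symm⟩
  · refine aestronglyMeasurable_of_tendsto_ae atTop
      (f := fun N v => ∑ n ∈ Finset.range N, F n v) (fun N => ?_)
      (Eventually.of_forall fun v => (hp v).hasSum.tendsto_sum_nat)
    exact Finset.aestronglyMeasurable_fun_sum _ fun n _ => (hI n).1
  · have h1 : ∀ i : ℕ, ∫⁻ a, ‖F i a‖ₑ = ‖∫ a, ‖F i a‖‖ₑ := by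
      intro i
      dsimp [enorm]
      rw [lintegral_coe_eq_integral _ (hI i).norm, ENNReal.coe_nnreal_eq, coe_nnnorm,
        Real.norm_of_nonneg (integral_nonneg (fun a ↦ norm_nonneg (F i a)))]
      simp only [coe_nnnorm]
    have h2 : ∑' i : ℕ, (‖∫ a, ‖F i a‖‖ₑ : ENNReal) ≠ ⊤ :=
      ENNReal.tsum_coe_ne_top_iff_summable.2 <| NNReal.summable_coe.1 hs.abs
    calc ∫⁻ v, ‖∑' n, F n v‖ₑ ≤ ∫⁻ v, ∑' n, ‖F n v‖ₑ :=
          lintegral_mono fun v => enorm_tsum_le_tsum_enorm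
      _ = ∑' n, ∫⁻ v, ‖F n v‖ₑ := lintegral_tsum fun n => (hI n).1.enorm
      _ < ⊤ := by
        simp only [h1]
        exact h2.lt_top

lemma GID_gauss (w : ℂ) : Integrable (fun v : ℝ =>
      Complex.exp (w * v) * ((Real.exp (-v ^ 2 / 4) : ℝ) : ℂ)) ∧
    ∫ v : ℝ, Complex.exp (w * v) * ((Real.exp (-v ^ 2 / 4) : ℝ) : ℂ) =
      ((2 * √Real.pi : ℝ) : ℂ) * Complex.exp (w ^ 2) := by
  have e : (fun v : ℝ => Complex.exp (w * v) * ((Real.exp (-v ^ 2 / 4) : ℝ) : ℂ)) =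
      fun v : ℝ => Complex.exp ((-(1 / 4) : ℂ) * (v : ℂ) ^ 2 + w * v + 0) := by
    funext v
    push_cast
    rw [← Complex.exp_add]
    congr 1
    ring
  have hb : (-(1 / 4) : ℂ).re < 0 := by norm_num
  rw [e]
  refine ⟨integrable_cexp_quadratic' hb w 0, ?_⟩
  rw [integral_cexp_quadratic hb w 0]
  have h1 : ((Real.pi : ℂ) / -(-(1 / 4))) ^ (1 / 2 : ℂ) = ((2 * √Real.pi : ℝ) : ℂ) := by
    have h2 : ((Real.pi : ℂ) / -(-(1 / 4))) = ((2 ^ 2 * Real.pi : ℝ) : ℂ) := by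
      push_cast
      ring
    rw [h2, show (1 / 2 : ℂ) = ((1 / 2 : ℝ) : ℂ) by push_cast; ring,
      ← Complex.ofReal_cpow (by positivity), ← Real.sqrt_eq_rpow,
      Real.sqrt_mul (by norm_num), Real.sqrt_sq (by norm_num)]
  rw [h1]
  congr 2
  ring

lemma GID_gaussR (a : ℝ) : Integrable (fun v : ℝ => Real.exp (a * v) * Real.exp (-v ^ 2 / 4)) := by
  have h := (GID_gauss (a : ℂ)).1.norm
  refine h.congr (Eventually.of_forall fun v => ?_)
  simp only [norm_mul]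
  rw [← Complex.ofReal_mul, ← Complex.ofReal_exp, norm_real, norm_real,
    Real.norm_of_nonneg (Real.exp_pos _).le, Real.norm_of_nonneg (Real.exp_pos _).le]

/-- the coefficients of the parts -/
noncomputable def GID_c (B T : ℝ) (n : ℕ) : ℂ := one' n * (n : ℂ) ^ (-(1 / 2 + T * I)) *
    ((((n : ℝ) ^ B : ℝ) : ℂ) / ((((n : ℝ) ^ B : ℝ) : ℂ) + (1 / 2 + T * I)))

/-- the part of the sum at `x` -/
noncomputable def GID_F (B T U : ℝ) (n : ℕ) (v : ℝ) : ℂ :=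
  GID_c B T n * ((if (n : ℝ) ≤ Real.exp (U + v) then Real.exp (-v ^ 2 / 4) else 0 : ℝ) : ℂ)

lemma GID_c_zero (B T : ℝ) : GID_c B T 0 = 0 := by
  simp [GID_c, one']

lemma GID_den (T y : ℝ) :
    y ≤ ‖((y : ℝ) : ℂ) + (1 / 2 + T * I)‖ := by
  have h1 := Complex.re_le_norm (((y : ℝ) : ℂ) + (1 / 2 + T * I))
  have h2 : (((y : ℝ) : ℂ) + (1 / 2 + T * I)).re = y + 1 / 2 := by simp
  rw [h2] at h1
  linarith

lemma GID_c_norm (B T : ℝ) (n : ℕ) : ‖GID_c B T n‖ ≤ (n : ℝ) ^ (-(1 / 2) : ℝ) := by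
  rcases Nat.eq_zero_or_pos n with rfl | hn
  · rw [GID_c_zero, norm_zero]
    positivity
  · have hn0 : (0 : ℝ) < n := by exact_mod_cast hn
    have hnB : 0 < (n : ℝ) ^ B := Real.rpow_pos_of_pos hn0 _
    have h1 := GID_den T ((n : ℝ) ^ B)
    unfold GID_c
    rw [norm_mul, norm_mul, norm_div, norm_real, Real.norm_of_nonneg hnB.le,
      show (n : ℂ) = ((n : ℝ) : ℂ) by push_cast; rfl, norm_cpow_eq_rpow_re_of_pos hn0]
    have h2 : (-(1 / 2 + (T : ℂ) * I)).re = -(1 / 2) := by simp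
    have h3 : ‖one' n‖ = 1 := by simp [one', hn.ne']
    rw [h2, h3, one_mul]
    have h4 : (n : ℝ) ^ B / ‖(((n : ℝ) ^ B : ℝ) : ℂ) + (1 / 2 + T * I)‖ ≤ 1 :=
      div_le_one_of_le₀ h1 (norm_nonneg _)
    calc _ ≤ (n : ℝ) ^ (-(1 / 2) : ℝ) * 1 := by gcongr
      _ = _ := mul_one _

lemma GID_F_norm (B T U : ℝ) (n : ℕ) (v : ℝ) : ‖GID_F B T U n v‖ ≤
    (n : ℝ) ^ (-(3 / 2) : ℝ) * (Real.exp U * (Real.exp (1 * v) * Real.exp (-v ^ 2 / 4))) := by
  unfold GID_F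
  rw [norm_mul, norm_real]
  rcases Nat.eq_zero_or_pos n with rfl | hn
  · rw [GID_c_zero, norm_zero, zero_mul]
    positivity
  · have hn0 : (0 : ℝ) < n := by exact_mod_cast hn
    split_ifs with h
    · rw [Real.norm_of_nonneg (Real.exp_pos _).le]
      have h1 : (n : ℝ) ^ (-(1 / 2) : ℝ) = (n : ℝ) ^ (-(3 / 2) : ℝ) * n := by
        conv_rhs => rw [← Real.rpow_one (n : ℝ), ← Real.rpow_mul hn0.le, one_mul,
          ← Real.rpow_add hn0]
        norm_num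
      calc ‖GID_c B T n‖ * Real.exp (-v ^ 2 / 4) ≤
          (n : ℝ) ^ (-(1 / 2) : ℝ) * Real.exp (-v ^ 2 / 4) := by
            gcongr
            exact GID_c_norm B T n
        _ = (n : ℝ) ^ (-(3 / 2) : ℝ) * n * Real.exp (-v ^ 2 / 4) := by rw [h1]
        _ ≤ (n : ℝ) ^ (-(3 / 2) : ℝ) * Real.exp (U + v) * Real.exp (-v ^ 2 / 4) := by gcongr
        _ = _ := by rw [Real.exp_add, one_mul]; ring
    · simp only [norm_zero, mul_zero]
      positivity

lemma GID_F_norm' (B T U : ℝ) (n : ℕ) (v : ℝ) : ‖GID_F B T U n v‖ ≤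
    (n : ℝ) ^ (-(3 / 2) : ℝ) * (Real.exp U * Real.exp 1) := by
  refine (GID_F_norm B T U n v).trans ?_
  rw [← Real.exp_add (1 * v)]
  gcongr
  nlinarith [sq_nonneg (v / 2 - 1)]

lemma GID_F_sum (B T U : ℝ) (v : ℕ → ℝ) : Summable fun n => GID_F B T U n (v n) :=
  ((Real.summable_nat_rpow.2 (by norm_num : (-(3 / 2) : ℝ) < -1)).mul_right _).of_norm_bounded
    fun n => GID_F_norm' B T U n (v n)

lemma GID_F_int (B T U : ℝ) (n : ℕ) : Integrable (GID_F B T U n) := by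
  refine Integrable.mono' (((GID_gaussR 1).const_mul (Real.exp U)).const_mul _) ?_
    (Eventually.of_forall (GID_F_norm B T U n))
  refine Measurable.aestronglyMeasurable ?_
  unfold GID_F
  refine (Complex.measurable_ofReal.comp (Measurable.ite ?_ ?_ measurable_const)).const_mul _
  · exact measurableSet_le measurable_const (by fun_prop)
  · fun_prop

lemma GID_F_isum (B T U : ℝ) : Summable fun n => ∫ v, ‖GID_F B T U n v‖ := by
  refine Summable.of_nonneg_of_le (fun n => integral_nonneg fun v => norm_nonneg _) (fun n => ?_)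
    ((Real.summable_nat_rpow.2 (by norm_num : (-(3 / 2) : ℝ) < -1)).mul_right
      (Real.exp U * ∫ v : ℝ, Real.exp (1 * v) * Real.exp (-v ^ 2 / 4)))
  calc _ ≤ ∫ v : ℝ, (n : ℝ) ^ (-(3 / 2) : ℝ) *
      (Real.exp U * (Real.exp (1 * v) * Real.exp (-v ^ 2 / 4))) :=
        integral_mono (GID_F_int B T U n).norm
          (((GID_gaussR 1).const_mul (Real.exp U)).const_mul _) (GID_F_norm B T U n)
    _ = _ := by rw [integral_const_mul, integral_const_mul]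

lemma GID_ind (B T U : ℝ) (n : ℕ) (u : ℝ) :
    (Iic U).indicator (fun u => one' n * (n : ℂ) ^ (-(1 / 2 + T * I)) *
    ((((n : ℝ) ^ B : ℝ) : ℂ) / ((((n : ℝ) ^ B : ℝ) : ℂ) + (1 / 2 + T * I))) *
    ((Real.exp (-(Real.log n - u) ^ 2 / 4) : ℝ) : ℂ)) u = GID_F B T U n (Real.log n - u) := by
  change (Iic U).indicator (fun u => GID_c B T n *
    ((Real.exp (-(Real.log n - u) ^ 2 / 4) : ℝ) : ℂ)) u = _
  unfold GID_F
  rcases Nat.eq_zero_or_pos n with rfl | hn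
  · rw [GID_c_zero]
    simp
  · have hn0 : (0 : ℝ) < n := by exact_mod_cast hn
    have h1 : (n : ℝ) ≤ Real.exp (U + (Real.log n - u)) ↔ u ∈ Iic U := by
      rw [← Real.log_le_iff_le_exp hn0, mem_Iic]
      constructor <;> intro h <;> linarith
    by_cases hu : u ∈ Iic U
    · rw [indicator_of_mem hu, if_pos (h1.2 hu)]
    · rw [indicator_of_notMem hu, if_neg (fun h => hu (h1.1 h))]
      simp

lemma GID_blk (B T U : ℝ) : IntegrableOn (blk B T) (Iic U) ∧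
    ∫ u in Iic U, blk B T u = ∫ v, ∑' n, GID_F B T U n v := by
  have h0 : (Iic U).indicator (blk B T) = fun u => ∑' n, GID_F B T U n (Real.log n - u) := by
    funext u
    simp only [← GID_ind]
    by_cases hu : u ∈ Iic U
    · simp only [indicator_of_mem hu]
      rfl
    · simp only [indicator_of_notMem hu, tsum_zero]
  have h1 := GID_fub (F := fun n u => GID_F B T U n (Real.log n - u))
    (fun n => (GID_F_int B T U n).comp_sub_left _) (by
      refine (GID_F_isum B T U).congr fun n => ?_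
      exact (integral_sub_left_eq_self (fun v => ‖GID_F B T U n v‖) volume (Real.log n)).symm)
    (fun u => GID_F_sum B T U _)
  have h2 := GID_fub (GID_F_int B T U) (GID_F_isum B T U) (fun v => GID_F_sum B T U fun _ => v)
  rw [← h0] at h1
  refine ⟨(integrable_indicator_iff measurableSet_Iic).1 h1.1, ?_⟩
  rw [← integral_indicator measurableSet_Iic, h1.2, h2.2]
  refine tsum_congr fun n => ?_
  exact integral_sub_left_eq_self (GID_F B T U n) volume (Real.log n)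

lemma GID_fin (B T U v : ℝ) : ∑' n, GID_F B T U n v =
    ((Real.exp (-v ^ 2 / 4) : ℝ) : ℂ) *
      ∑ n ∈ Finset.range ⌊Real.exp (U + v)⌋₊, GID_c B T (n + 1) := by
  have hx := Real.exp_pos (U + v)
  rw [tsum_eq_sum (s := Finset.range (⌊Real.exp (U + v)⌋₊ + 1))]
  · rw [Finset.sum_range_succ']
    have h0 : GID_F B T U 0 v = 0 := by
      unfold GID_F
      rw [GID_c_zero, zero_mul]
    rw [h0, add_zero, Finset.mul_sum]
    refine Finset.sum_congr rfl fun n hn => ?_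
    unfold GID_F
    have h1 : ((n + 1 : ℕ) : ℝ) ≤ Real.exp (U + v) := by
      have h2 : n + 1 ≤ ⌊Real.exp (U + v)⌋₊ := Finset.mem_range.1 hn
      exact (Nat.le_floor_iff hx.le).1 h2
    rw [if_pos h1, mul_comm]
  · intro n hn
    unfold GID_F
    have h1 : ¬ ((n : ℝ) ≤ Real.exp (U + v)) := by
      intro h
      have h2 := Nat.le_floor h
      rw [Finset.mem_range] at hn
      omega
    rw [if_neg h1]
    simp

lemma GID_dl (hA : P_SMA) {B : ℝ} (hB : 1 / 2 < B) (T : ℝ) (N : ℕ) :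
    ‖Dl B T - ∑ n ∈ Finset.range N, GID_c B T (n + 1) -
      (riemannZeta (1 / 2 + T * I) -
        ∑ n ∈ Finset.range N, ((n + 1 : ℝ) : ℂ) ^ (-(1 / 2 + T * I)))‖ ≤
    (1 + |T|) * (2 ^ (B + 1 / 2) / (B + 1 / 2 - 1) * (N + 1 : ℝ) ^ (1 - (B + 1 / 2))) := by
  set s : ℂ := 1 / 2 + T * I with hs
  have hre : s.re = 1 / 2 := by simp [hs]
  have hs0 : s ≠ 0 := by
    intro h
    rw [h] at hre
    norm_num at hre
  have hns : ‖s‖ ≤ 1 + |T| := by
    rw [hs]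
    refine (norm_add_le _ _).trans ?_
    simp
    norm_num
  have hone : ∀ n, ‖one' n‖ ≤ 1 := by
    intro n
    unfold one'
    split_ifs <;> simp
  obtain ⟨-, -, -, -, h5⟩ := hA one' B hB (by simp [one']) hone
  set f : ℕ → ℂ := fun n => one' n * (n : ℂ) ^ (-s) / ((((n : ℝ) ^ B : ℝ) : ℂ) + s) with hf
  have hsum : Summable f := h5 s (by rw [hre]; norm_num) hs0 (by rw [hre]; linarith)
  have hf0 : f 0 = 0 := by simp [hf, one']
  have hSm : Sm one' B s = s * ∑' n, f n := rfl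
  have h1 : ∑' n, f n = ∑ n ∈ Finset.range N, f (n + 1) + ∑' n, f (n + N + 1) := by
    rw [← hsum.sum_add_tsum_nat_add (N + 1), Finset.sum_range_succ', hf0, add_zero]
    rfl
  have hc : ∀ n : ℕ, GID_c B T (n + 1) = ((n + 1 : ℝ) : ℂ) ^ (-s) - s * f (n + 1) := by
    intro n
    have hn0 : (0 : ℝ) < (n + 1 : ℕ) := by positivity
    have hnB : 0 < ((n + 1 : ℕ) : ℝ) ^ B := Real.rpow_pos_of_pos hn0 _
    have hd : (((((n + 1 : ℕ) : ℝ) ^ B : ℝ) : ℂ) + s) ≠ 0 := by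
      rw [← norm_pos_iff]
      exact hnB.trans_le (GID_den T _)
    unfold GID_c
    simp only [hf, one', Nat.add_eq_zero_iff, one_ne_zero, and_false, if_false, one_mul]
    rw [← hs, show ((n + 1 : ℕ) : ℂ) = ((n + 1 : ℝ) : ℂ) by push_cast; rfl]
    field_simp
    ring
  have h2 : Dl B T - ∑ n ∈ Finset.range N, GID_c B T (n + 1) -
      (riemannZeta s - ∑ n ∈ Finset.range N, ((n + 1 : ℝ) : ℂ) ^ (-s)) =
      -(s * ∑' n, f (n + N + 1)) := by
    unfold Dl zl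
    rw [← hs, hSm, h1]
    simp only [hc]
    rw [Finset.sum_sub_distrib, ← Finset.mul_sum]
    ring
  rw [h2, norm_neg, norm_mul]
  have ht := GID_tail (p := B + 1 / 2) (by linarith) N
  have hb : ∀ n : ℕ, ‖f (n + N + 1)‖ ≤ (((n + N : ℕ) + 1 : ℝ)) ^ (-(B + 1 / 2)) := by
    intro n
    have hn0 : (0 : ℝ) < ((n + N : ℕ) + 1 : ℝ) := by positivity
    have hnB : 0 < ((n + N : ℕ) + 1 : ℝ) ^ B := Real.rpow_pos_of_pos hn0 _
    have e : ((n + N + 1 : ℕ) : ℝ) = ((n + N : ℕ) + 1 : ℝ) := by push_cast; ring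
    have e' : ((n + N + 1 : ℕ) : ℂ) = (((n + N : ℕ) + 1 : ℝ) : ℂ) := by push_cast; ring
    have hd := GID_den T (((n + N : ℕ) + 1 : ℝ) ^ B)
    simp only [hf, one', Nat.add_eq_zero_iff, one_ne_zero, and_false, if_false, one_mul]
    rw [norm_div, e, e', norm_cpow_eq_rpow_re_of_pos hn0]
    have h3 : (-s).re = -(1 / 2) := by rw [Complex.neg_re, hre]
    rw [h3, show (-(B + 1 / 2)) = -(1 / 2) - B by ring, Real.rpow_sub hn0]
    gcongr
  have h3 : ‖∑' n, f (n + N + 1)‖ ≤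
      2 ^ (B + 1 / 2) / (B + 1 / 2 - 1) * (N + 1 : ℝ) ^ (1 - (B + 1 / 2)) :=
    (tsum_of_norm_bounded ht.1.hasSum hb).trans ht.2
  gcongr

lemma GID_cpow (y : ℝ) (w : ℂ) : ((Real.exp y : ℝ) : ℂ) ^ w = Complex.exp (w * y) := by
  rw [cpow_def_of_ne_zero (by exact_mod_cast (Real.exp_pos y).ne'),
    ← Complex.ofReal_log (Real.exp_pos _).le, Real.log_exp, mul_comm]

theorem p_GID (hA : P_SMA) : P_GID := by
  intro B K hB hK hKB
  obtain ⟨C₀, hC₀, hz⟩ := GID_zeta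
  obtain ⟨β, hβ⟩ : ∃ β : ℝ, β = B - 1 / 2 := ⟨_, rfl⟩
  have hβ0 : 0 < β := by rw [hβ]; linarith
  rw [← hβ] at hKB
  obtain ⟨C₁, hC₁⟩ : ∃ C₁ : ℝ, C₁ = 2 ^ (B + 1 / 2) / (B + 1 / 2 - 1) := ⟨_, rfl⟩
  have hC₁0 : 0 < C₁ := by rw [hC₁]; exact div_pos (by positivity) (by linarith)
  set J₁ : ℝ := ∫ v : ℝ, Real.exp (-(1 / 2) * v) * Real.exp (-v ^ 2 / 4) with hJ₁
  set J₂ : ℝ := ∫ v : ℝ, Real.exp (-β * v) * Real.exp (-v ^ 2 / 4) with hJ₂
  have hpi : 0 < 2 * √Real.pi := by positivity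
  refine ⟨1 / (2 * √Real.pi) * (2 * C₀ * J₁ + 2 * C₁ * J₂) +
    2 * Real.exp (K ^ 2 / 16 + 1 / 4), fun T hT => ?_⟩
  have hT0 : 0 < T := by linarith
  have hlog : 0 ≤ Real.log T := Real.log_nonneg (by linarith)
  obtain ⟨U, hU⟩ : ∃ U : ℝ, U = K * Real.log T := ⟨_, rfl⟩
  rw [← hU]
  obtain ⟨hI, hblk⟩ := GID_blk B T U
  refine ⟨hI, ?_⟩
  rw [hblk]
  obtain ⟨s, hs⟩ : ∃ s : ℂ, s = 1 / 2 + T * I := ⟨_, rfl⟩
  have hre : (1 - s).re = 1 / 2 := by
    simp [hs]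
    norm_num
  have him : (1 - s).im = -T := by simp [hs]
  have hn1 : 1 / 2 ≤ ‖1 - s‖ := by
    have := Complex.re_le_norm (1 - s)
    rwa [hre] at this
  have hs1 : 1 - s ≠ 0 := by
    rw [← norm_pos_iff]
    linarith
  obtain ⟨g, hg⟩ : ∃ g : ℝ → ℂ, g = fun v => ((Real.exp (-v ^ 2 / 4) : ℝ) : ℂ) := ⟨_, rfl⟩
  obtain ⟨D, hD⟩ : ∃ D : ℝ → ℂ, D = fun v =>
    ∑ n ∈ Finset.range ⌊Real.exp (U + v)⌋₊, GID_c B T (n + 1) := ⟨_, rfl⟩
  obtain ⟨W, hW⟩ : ∃ W : ℝ → ℂ, W = fun v : ℝ =>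
    Complex.exp (U * (1 - s)) / (1 - s) * (Complex.exp ((1 - s) * v) * g v) := ⟨_, rfl⟩
  have hF : (fun v => ∑' n, GID_F B T U n v) = fun v => g v * D v := by
    funext v
    rw [GID_fin, hg, hD]
  have hgI : Integrable g := by
    have := (GID_gauss 0).1
    rw [hg]
    simpa using this
  have hgi : ∫ v, g v = ((2 * √Real.pi : ℝ) : ℂ) := by
    have := (GID_gauss 0).2
    rw [hg]
    simpa using this
  have hDI : Integrable (fun v => g v * D v) := by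
    rw [← hF]
    exact (GID_fub (GID_F_int B T U) (GID_F_isum B T U) (fun v => GID_F_sum B T U fun _ => v)).1
  have hWI : Integrable W := by
    rw [hW, hg]
    exact (GID_gauss (1 - s)).1.const_mul _
  have hWi : ∫ v, W v = Complex.exp (U * (1 - s)) / (1 - s) *
      (((2 * √Real.pi : ℝ) : ℂ) * Complex.exp ((1 - s) ^ 2)) := by
    rw [hW, hg, integral_const_mul, (GID_gauss (1 - s)).2]
  have hb : ∀ v, ‖g v * Dl B T - g v * D v + W v‖ ≤
      2 * C₀ * (Real.exp (-(1 / 2) * v) * Real.exp (-v ^ 2 / 4)) +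
      2 * C₁ * (Real.exp (-β * v) * Real.exp (-v ^ 2 / 4)) := by
    intro v
    have hx := Real.exp_pos (U + v)
    have hE : g v * Dl B T - g v * D v + W v = g v *
        ((riemannZeta (1 / 2 + T * I) - ∑ n ∈ Finset.range ⌊Real.exp (U + v)⌋₊,
            ((n + 1 : ℝ) : ℂ) ^ (-(1 / 2 + T * I)) +
          ((Real.exp (U + v) : ℝ) : ℂ) ^ (1 - (1 / 2 + T * I)) / (1 - (1 / 2 + T * I))) +
        (Dl B T - ∑ n ∈ Finset.range ⌊Real.exp (U + v)⌋₊, GID_c B T (n + 1) -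
          (riemannZeta (1 / 2 + T * I) - ∑ n ∈ Finset.range ⌊Real.exp (U + v)⌋₊,
            ((n + 1 : ℝ) : ℂ) ^ (-(1 / 2 + T * I))))) := by
      rw [GID_cpow, hW, hD, ← hs]
      have e : Complex.exp ((1 - s) * ((U + v : ℝ) : ℂ)) =
          Complex.exp (U * (1 - s)) * Complex.exp ((1 - s) * v) := by
        rw [← Complex.exp_add]
        congr 1
        push_cast
        ring
      rw [e]
      ring
    rw [hE, norm_mul]
    have hgv : ‖g v‖ = Real.exp (-v ^ 2 / 4) := by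
      rw [hg]
      simp only [norm_real]
      exact Real.norm_of_nonneg (Real.exp_pos _).le
    have h1 := hz T (Real.exp (U + v)) hx
    have h2 := GID_dl hA hB T ⌊Real.exp (U + v)⌋₊
    rw [← hC₁] at h2
    have h3 : ((⌊Real.exp (U + v)⌋₊ : ℝ) + 1) ^ (1 - (B + 1 / 2)) ≤ Real.exp (U + v) ^ (-β) := by
      rw [show (1 - (B + 1 / 2)) = -β by rw [hβ]; ring]
      exact Real.rpow_le_rpow_of_nonpos hx (Nat.lt_floor_add_one _).le (by linarith)
    have h4 : Real.exp (U + v) ^ (-(1 / 2) : ℝ) =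
        Real.exp (-(1 / 2) * U) * Real.exp (-(1 / 2) * v) := by
      rw [← Real.exp_mul, ← Real.exp_add]
      congr 1
      ring
    have h5 : Real.exp (U + v) ^ (-β) = Real.exp (-β * U) * Real.exp (-β * v) := by
      rw [← Real.exp_mul, ← Real.exp_add]
      congr 1
      ring
    have h6 : (1 + |T|) ≤ 2 * T := by
      rw [abs_of_pos hT0]
      linarith
    have h7 : T * Real.exp (-(1 / 2) * U) ≤ 1 := by
      nth_rewrite 1 [← Real.exp_log hT0]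
      rw [← Real.exp_add, Real.exp_le_one_iff, hU]
      nlinarith
    have h8 : T * Real.exp (-β * U) ≤ 1 := by
      nth_rewrite 1 [← Real.exp_log hT0]
      rw [← Real.exp_add, Real.exp_le_one_iff, hU]
      nlinarith
    have h9 : C₀ * (1 + |T|) * Real.exp (U + v) ^ (-(1 / 2) : ℝ) ≤
        2 * C₀ * Real.exp (-(1 / 2) * v) := by
      rw [h4]
      calc _ ≤ C₀ * (2 * T) * (Real.exp (-(1 / 2) * U) * Real.exp (-(1 / 2) * v)) := by gcongr
        _ = 2 * C₀ * Real.exp (-(1 / 2) * v) * (T * Real.exp (-(1 / 2) * U)) := by ring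
        _ ≤ 2 * C₀ * Real.exp (-(1 / 2) * v) * 1 := by gcongr
        _ = _ := by ring
    have h10 : (1 + |T|) * (C₁ * ((⌊Real.exp (U + v)⌋₊ : ℝ) + 1) ^ (1 - (B + 1 / 2))) ≤
        2 * C₁ * Real.exp (-β * v) := by
      calc _ ≤ (2 * T) * (C₁ * (Real.exp (-β * U) * Real.exp (-β * v))) := by
            rw [← h5]
            gcongr
        _ = 2 * C₁ * Real.exp (-β * v) * (T * Real.exp (-β * U)) := by ring
        _ ≤ 2 * C₁ * Real.exp (-β * v) * 1 := by gcongr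
        _ = _ := by ring
    rw [hgv]
    calc _ ≤ Real.exp (-v ^ 2 / 4) *
          (2 * C₀ * Real.exp (-(1 / 2) * v) + 2 * C₁ * Real.exp (-β * v)) := by
          gcongr
          exact (norm_add_le _ _).trans (add_le_add (h1.trans h9) (h2.trans h10))
      _ = _ := by ring
  have hmain : Dl B T - ((1 / (2 * √Real.pi) : ℝ) : ℂ) * ∫ v, ∑' n, GID_F B T U n v =
      ((1 / (2 * √Real.pi) : ℝ) : ℂ) * ((∫ v, (g v * Dl B T - g v * D v + W v)) - ∫ v, W v) := by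
    have h1 : ∫ v, (g v * Dl B T - g v * D v + W v) =
        ((2 * √Real.pi : ℝ) : ℂ) * Dl B T - (∫ v, g v * D v) + ∫ v, W v := by
      have hI1 : Integrable (fun v => g v * Dl B T) := hgI.mul_const _
      have hI2 : Integrable (fun v => g v * Dl B T - g v * D v) := hI1.sub hDI
      rw [integral_add hI2 hWI, integral_sub hI1 hDI, integral_mul_const, hgi]
    rw [h1, hF]
    have h2 : ((1 / (2 * √Real.pi) : ℝ) : ℂ) * ((2 * √Real.pi : ℝ) : ℂ) = 1 := by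
      rw [← Complex.ofReal_mul, one_div_mul_cancel hpi.ne', Complex.ofReal_one]
    linear_combination (-Dl B T) * h2
  rw [hmain, norm_mul, norm_real, Real.norm_of_nonneg (by positivity)]
  have hA1 : ‖∫ v, (g v * Dl B T - g v * D v + W v)‖ ≤ 2 * C₀ * J₁ + 2 * C₁ * J₂ := by
    refine (norm_integral_le_of_norm_le ((((GID_gaussR (-(1 / 2))).const_mul (2 * C₀))).add
      ((GID_gaussR (-β)).const_mul (2 * C₁))) (Eventually.of_forall hb)).trans ?_
    refine le_of_eq ?_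
    change ∫ v : ℝ, (2 * C₀ * (Real.exp (-(1 / 2) * v) * Real.exp (-v ^ 2 / 4)) +
      2 * C₁ * (Real.exp (-β * v) * Real.exp (-v ^ 2 / 4))) = _
    rw [integral_add ((GID_gaussR (-(1 / 2))).const_mul (2 * C₀))
      ((GID_gaussR (-β)).const_mul (2 * C₁)), integral_const_mul, integral_const_mul]
  have hA2 : ‖∫ v, W v‖ ≤ 2 * √Real.pi * (2 * Real.exp (K ^ 2 / 16 + 1 / 4)) := by
    rw [hWi, norm_mul, norm_mul, norm_div, norm_real, Real.norm_of_nonneg hpi.le,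
      Complex.norm_exp, Complex.norm_exp]
    have e1 : ((U : ℂ) * (1 - s)).re = U / 2 := by
      rw [Complex.re_ofReal_mul, hre]
      ring
    have e2 : ((1 - s) ^ 2).re = 1 / 4 - T ^ 2 := by
      rw [sq, Complex.mul_re, hre, him]
      ring
    rw [e1, e2]
    have h1 : Real.exp (U / 2) * Real.exp (1 / 4 - T ^ 2) ≤ Real.exp (K ^ 2 / 16 + 1 / 4) := by
      rw [← Real.exp_add]
      refine Real.exp_le_exp.2 ?_
      have h2 : Real.log T ≤ T := (Real.log_le_sub_one_of_pos hT0).trans (by linarith)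
      have h3 : U ≤ K * T := by
        rw [hU]
        gcongr
      nlinarith [sq_nonneg (T - K / 4)]
    have h2 : ‖1 - s‖⁻¹ ≤ 2 := by
      calc ‖1 - s‖⁻¹ ≤ (1 / 2 : ℝ)⁻¹ := inv_anti₀ (by norm_num) hn1
        _ = 2 := by norm_num
    calc Real.exp (U / 2) / ‖1 - s‖ * (2 * √Real.pi * Real.exp (1 / 4 - T ^ 2)) =
        2 * √Real.pi * (‖1 - s‖⁻¹ * (Real.exp (U / 2) * Real.exp (1 / 4 - T ^ 2))) := by
          rw [div_eq_mul_inv]
          ring
      _ ≤ 2 * √Real.pi * (2 * Real.exp (K ^ 2 / 16 + 1 / 4)) := by gcongr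
  calc _ ≤ 1 / (2 * √Real.pi) * ((2 * C₀ * J₁ + 2 * C₁ * J₂) +
        2 * √Real.pi * (2 * Real.exp (K ^ 2 / 16 + 1 / 4))) := by
        gcongr
        exact (norm_sub_le _ _).trans (add_le_add hA1 hA2)
    _ = _ := by
        field_simp

end Pool.Agent.PertZ
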