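import Pool.Agent.PertZ.Defs7
import Pool.Agent.DBN.Mu2

/-!
# Smoothed sums of zeta which are longer than the height
-/

set_option autoImplicit false

namespace Pool.Agent.PertZ

open MeasureTheory ProbabilityTheory Set Filter Topology Complex Pool.Agent.CW Pool.Agent.DBN

lemma GZL_exp {p T : ℝ} (hp : 0 ≤ p) (hT : 0 < T) :
    T ^ p * Real.exp (-T ^ 2 / 8) ≤ Real.exp (2 * p ^ 2) := by
  rw [Real.rpow_def_of_pos hT, ← Real.exp_add]
  apply Real.exp_le_exp.mpr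
  have h1 : Real.log T ≤ T := (Real.log_le_sub_one_of_pos hT).trans (by linarith)
  have h2 : Real.log T * p ≤ T * p := mul_le_mul_of_nonneg_right h1 hp
  nlinarith [sq_nonneg (T - 4 * p)]

lemma GZL_sum (N T : ℝ) :
    ∑' n : ℕ, one' n * (n : ℂ) ^ (-(((1 / 2 : ℝ) : ℂ) + T * I)) * ((gw 0 N n : ℝ) : ℂ) =
      zsum N T := by
  have h := (Nat.succ_injective).tsum_eq (f := fun n : ℕ =>
    one' n * (n : ℂ) ^ (-(((1 / 2 : ℝ) : ℂ) + T * I)) * ((gw 0 N n : ℝ) : ℂ)) (by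
      intro n hn
      rcases Nat.eq_zero_or_pos n with h0 | h0
      · exfalso
        apply hn
        simp [h0, one']
      · exact ⟨n - 1, by simp; omega⟩)
  rw [← h]
  unfold zsum
  refine tsum_congr fun n => ?_
  simp only [one', gw, Nat.succ_eq_add_one, Nat.add_eq_zero_iff, one_ne_zero, and_false,
    if_false, Real.rpow_zero, one_mul]
  rw [mul_comm]
  congr 2
  push_cast
  ring

lemma GZL_zeta {z : ℂ} (hz : 1 < z.re) : riemannZeta z = ∑' n : ℕ, one' n * (n : ℂ) ^ (-z) := by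
  rw [zeta_eq_tsum_one_div_nat_cpow hz]
  refine tsum_congr fun n => ?_
  rcases Nat.eq_zero_or_pos n with h0 | h0
  · subst h0
    have : z ≠ 0 := by
      rintro rfl
      simp at hz
      linarith
    simp [one', Complex.zero_cpow this]
  · rw [Complex.cpow_neg]
    simp [one', h0.ne']

theorem p_GZL (hG : P_BLG) : P_GZL := by
  intro K ε hK hε
  obtain ⟨C₀, hC₀, h0⟩ := hG 0 (-(3 / 4)) 1 (by norm_num)
  obtain ⟨C₁, hC₁, h1⟩ := (mu_left (σ := -(3 / 4)) (by norm_num)).one hε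
  obtain ⟨C₂, K₂, hC₂, hK₂, h2⟩ := zeta_crude_strip 2
  set L : ℝ := ∑' n : ℕ, ‖one' n‖ * (n : ℝ) ^ (-((1 / 2 : ℝ) + 1)) with hL
  have hL0 : 0 ≤ L := tsum_nonneg fun n => by positivity
  have hsum : Summable (fun n : ℕ => ‖one' n‖ * (n : ℝ) ^ (-((1 / 2 : ℝ) + 1))) := by
    refine Summable.of_nonneg_of_le (fun n => by positivity) (fun n => ?_)
      (Real.summable_nat_rpow.mpr (by norm_num : (-((1 / 2 : ℝ) + 1)) < -1))
    have h3 : ‖one' n‖ ≤ 1 := by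
      unfold one'
      split_ifs <;> simp
    have h4 : 0 ≤ (n : ℝ) ^ (-((1 / 2 : ℝ) + 1)) := by positivity
    nlinarith
  refine ⟨C₀ * (C₁ * 2 ^ (3 / 4 + ε) +
    2 * (L + C₂ * 2 ^ K₂) * Real.exp (2 * (K + K₂) ^ 2)), fun T N hT hTN hNT => ?_⟩
  have hT0 : 0 < T := by linarith
  have hT1 : 1 ≤ T := by linarith
  have hN0 : 0 < N := by linarith
  have hN1 : 1 ≤ N := by linarith
  have key := h0 one' (1 / 2) L (C₁ * (2 * T) ^ (3 / 4 + ε)) 0 (C₂ * (2 * T) ^ K₂) T N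
    riemannZeta hT hN0 (by positivity) le_rfl (by positivity) (by simp [one']) hsum le_rfl ?_ ?_ ?_
  rotate_left
  · intro z hz1 hz2 hz3 hz4
    have hne : z ≠ 1 := by
      rintro rfl
      simp at hz3
      linarith
    refine ⟨?_, ?_⟩
    · refine DifferentiableOn.analyticAt (s := {1}ᶜ) ?_ (isOpen_compl_singleton.mem_nhds hne)
      intro w hw
      exact (differentiableAt_riemannZeta hw).differentiableWithinAt
    · refine (h2 z ?_ (by linarith)).trans ?_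
      · rw [abs_le]
        constructor <;> linarith
      · have : z.im ^ K₂ ≤ (2 * T) ^ K₂ := Real.rpow_le_rpow (by linarith) hz4 (by linarith)
        gcongr
  · intro v hv1 hv2
    have h3 := h1 v (by linarith)
    have e : (((1 / 2 + -(3 / 4) : ℝ) : ℂ)) = (((1 / 2 : ℝ) + (-(3 / 4) : ℝ) : ℝ) : ℂ) := rfl
    have h4 : v ^ (3 / 4 + ε) ≤ (2 * T) ^ (3 / 4 + ε) :=
      Real.rpow_le_rpow (by linarith) hv2 (by linarith)
    rw [neg_neg] at h3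
    calc _ ≤ C₁ * v ^ (3 / 4 + ε) := h3
      _ ≤ C₁ * (2 * T) ^ (3 / 4 + ε) := by gcongr
      _ = _ := by ring
  · intro z hz _ _
    exact GZL_zeta (by rw [hz]; norm_num)
  rw [GZL_sum] at key
  refine key.trans ?_
  have hTe : 1 ≤ T ^ ε := Real.one_le_rpow hT1 hε.le
  -- first part
  have hA : (C₁ * (2 * T) ^ (3 / 4 + ε) + 0) * N ^ (-(3 / 4) : ℝ) ≤
      C₁ * 2 ^ (3 / 4 + ε) * T ^ ε := by
    have h5 : N ^ (-(3 / 4) : ℝ) ≤ T ^ (-(3 / 4) : ℝ) :=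
      Real.rpow_le_rpow_of_nonpos hT0 hTN (by norm_num)
    have h6 : (2 * T) ^ (3 / 4 + ε) = 2 ^ (3 / 4 + ε) * (T ^ (3 / 4 : ℝ) * T ^ ε) := by
      rw [Real.mul_rpow (by norm_num) hT0.le, Real.rpow_add hT0]
    have h7 : T ^ (3 / 4 : ℝ) * T ^ (-(3 / 4) : ℝ) = 1 := by
      rw [← Real.rpow_add hT0]
      norm_num
    calc (C₁ * (2 * T) ^ (3 / 4 + ε) + 0) * N ^ (-(3 / 4) : ℝ)
        ≤ (C₁ * (2 * T) ^ (3 / 4 + ε) + 0) * T ^ (-(3 / 4) : ℝ) := by gcongr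
      _ = C₁ * 2 ^ (3 / 4 + ε) * T ^ ε * (T ^ (3 / 4 : ℝ) * T ^ (-(3 / 4) : ℝ)) := by
          rw [h6]; ring
      _ = C₁ * 2 ^ (3 / 4 + ε) * T ^ ε := by rw [h7, mul_one]
  have hB : (N ^ (-(3 / 4) : ℝ) + N ^ (1 : ℝ)) * (L + C₂ * (2 * T) ^ K₂) *
      Real.exp (-T ^ 2 / 8) ≤ 2 * (L + C₂ * 2 ^ K₂) * Real.exp (2 * (K + K₂) ^ 2) := by
    have h5 : N ^ (-(3 / 4) : ℝ) ≤ T ^ K := by
      have h6 : N ^ (-(3 / 4) : ℝ) ≤ 1 := Real.rpow_le_one_of_one_le_of_nonpos hN1 (by norm_num)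
      exact h6.trans (Real.one_le_rpow hT1 (by linarith))
    have h6 : N ^ (1 : ℝ) ≤ T ^ K := by rwa [Real.rpow_one]
    have h7 : L + C₂ * (2 * T) ^ K₂ ≤ (L + C₂ * 2 ^ K₂) * T ^ K₂ := by
      rw [Real.mul_rpow (by norm_num) hT0.le]
      have h8 : 1 ≤ T ^ K₂ := Real.one_le_rpow hT1 (by linarith)
      nlinarith
    have h9 := GZL_exp (p := K + K₂) (by linarith) hT0
    calc (N ^ (-(3 / 4) : ℝ) + N ^ (1 : ℝ)) * (L + C₂ * (2 * T) ^ K₂) * Real.exp (-T ^ 2 / 8)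
        ≤ (T ^ K + T ^ K) * ((L + C₂ * 2 ^ K₂) * T ^ K₂) * Real.exp (-T ^ 2 / 8) := by
          gcongr
      _ = 2 * (L + C₂ * 2 ^ K₂) * (T ^ (K + K₂) * Real.exp (-T ^ 2 / 8)) := by
          rw [Real.rpow_add hT0]; ring
      _ ≤ 2 * (L + C₂ * 2 ^ K₂) * Real.exp (2 * (K + K₂) ^ 2) := by gcongr
  calc _ ≤ C₀ * (C₁ * 2 ^ (3 / 4 + ε) * T ^ ε +
        2 * (L + C₂ * 2 ^ K₂) * Real.exp (2 * (K + K₂) ^ 2)) := by
        gcongr
    _ ≤ C₀ * (C₁ * 2 ^ (3 / 4 + ε) * T ^ ε +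
        2 * (L + C₂ * 2 ^ K₂) * Real.exp (2 * (K + K₂) ^ 2) * T ^ ε) := by
        have h10 : 0 ≤ 2 * (L + C₂ * 2 ^ K₂) * Real.exp (2 * (K + K₂) ^ 2) := by positivity
        have h11 := le_mul_of_one_le_right h10 hTe
        exact mul_le_mul_of_nonneg_left (by linarith) hC₀.le
    _ = _ := by ring

end Pool.Agent.PertZ
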