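import Pool.Agent.PertZ.Defs

/-!
# The Lindelöf hypothesis under random perturbation: Hoeffding's inequality for complex
random variables (helper78)
-/

set_option autoImplicit false

namespace Pool.Agent.PertZ

open MeasureTheory ProbabilityTheory Set Filter Topology Complex

theorem HOE_mono {Ω : Type} [MeasurableSpace Ω] {P : Measure Ω} {X : Ω → ℝ} {c d : NNReal}
    (h : HasSubgaussianMGF X c P) (hcd : c ≤ d) : HasSubgaussianMGF X d P where
  integrable_exp_mul := h.integrable_exp_mul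
  mgf_le t := by
    refine (h.mgf_le t).trans (Real.exp_le_exp.2 ?_)
    have : (c : ℝ) ≤ d := by exact_mod_cast hcd
    have ht : 0 ≤ t ^ 2 := sq_nonneg t
    nlinarith [mul_le_mul_of_nonneg_right this ht]

/-- one tail of a sum of bounded independent real variables -/
theorem HOE_tail {Ω : Type} [MeasurableSpace Ω] (P : Measure Ω) [IsProbabilityMeasure P]
    (Z : ℕ → Ω → ℝ) (b : ℕ → ℝ) (hm : ∀ n, Measurable (Z n)) (hi : iIndepFun Z P)
    (hb : ∀ n, 0 ≤ b n) (hZ : ∀ n, ∀ᵐ ω ∂P, |Z n ω| ≤ b n) (s : Finset ℕ) (u V : ℝ)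
    (hu : 0 ≤ u) (hV : 0 < V) (hs : ∑ n ∈ s, b n ^ 2 ≤ V) :
    P.real {ω | u ≤ ∑ n ∈ s, (Z n ω - ∫ ω', Z n ω' ∂P)} ≤ Real.exp (-(u ^ 2 / (2 * V))) := by
  have h1 : ∀ n, HasSubgaussianMGF (fun ω => Z n ω - ∫ ω', Z n ω' ∂P)
      ((‖b n - -(b n)‖₊ / 2) ^ 2) P := fun n =>
    hasSubgaussianMGF_of_mem_Icc (hm n).aemeasurable
      ((hZ n).mono fun ω hω => abs_le.1 hω)
  have h2 : iIndepFun (fun n ω => Z n ω - ∫ ω', Z n ω' ∂P) P :=
    hi.comp (fun n (x : ℝ) => x - ∫ ω', Z n ω' ∂P) (fun n => by fun_prop)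
  have h3 := HasSubgaussianMGF.sum_of_iIndepFun h2 (s := s) (fun n _ => h1 n)
  have h4 : ∑ n ∈ s, (‖b n - -(b n)‖₊ / 2) ^ 2 ≤ V.toNNReal := by
    rw [← NNReal.coe_le_coe, Real.coe_toNNReal _ hV.le]
    push_cast
    refine le_trans (le_of_eq (Finset.sum_congr rfl fun n _ => ?_)) hs
    rw [show b n - -(b n) = 2 * b n by ring, Real.norm_of_nonneg (by linarith [hb n])]
    ring
  have h5 := (HOE_mono h3 h4).measure_ge_le hu
  rw [Real.coe_toNNReal _ hV.le] at h5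
  rwa [neg_div] at h5

/-- Hoeffding's inequality for complex random variables -/
theorem p_HOE : P_HOE := by
  intro Ω _ P _ Y b hm hi hb hY s u V hu hV hs
  have hint : ∀ n, Integrable (Y n) P := fun n =>
    Integrable.of_bound (hm n).aestronglyMeasurable (b n) (hY n)
  set v : ℝ := u / √2 with hv
  have hv0 : 0 ≤ v := by positivity
  have hv2 : v ^ 2 = u ^ 2 / 2 := by
    rw [hv, div_pow, Real.sq_sqrt (by norm_num)]
  have key : ∀ L : ℂ →L[ℝ] ℝ, (∀ z, |L z| ≤ ‖z‖) →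
      P.real {ω | v ≤ L (∑ n ∈ s, (Y n ω - ∫ ω', Y n ω' ∂P))} ≤
        Real.exp (-(u ^ 2 / (4 * V))) := by
    intro L hL
    have hLm : Measurable L := L.continuous.measurable
    have h1 := HOE_tail P (fun n ω => L (Y n ω)) b (fun n => hLm.comp (hm n))
      (hi.comp (fun _ => L) (fun _ => hLm)) hb
      (fun n => (hY n).mono fun ω hω => (hL _).trans hω) s v V hv0 hV hs
    rw [hv2, show u ^ 2 / 2 / (2 * V) = u ^ 2 / (4 * V) by
      rw [div_div]; ring_nf] at h1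
    have h2 : ∀ ω, ∑ n ∈ s, (L (Y n ω) - ∫ ω', L (Y n ω') ∂P) =
        L (∑ n ∈ s, (Y n ω - ∫ ω', Y n ω' ∂P)) := by
      intro ω
      rw [map_sum]
      refine Finset.sum_congr rfl fun n _ => ?_
      rw [map_sub, ← L.integral_comp_comm (hint n)]
    simp only [h2] at h1
    exact h1
  set S : Ω → ℂ := fun ω => ∑ n ∈ s, (Y n ω - ∫ ω', Y n ω' ∂P) with hS
  have k1 := key Complex.reCLM (fun z => Complex.abs_re_le_norm z)
  have k2 := key (-Complex.reCLM) (fun z => by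
    simpa using Complex.abs_re_le_norm z)
  have k3 := key Complex.imCLM (fun z => Complex.abs_im_le_norm z)
  have k4 := key (-Complex.imCLM) (fun z => by
    simpa using Complex.abs_im_le_norm z)
  have hsub : {ω | u ≤ ‖S ω‖} ⊆
      ({ω | v ≤ Complex.reCLM (S ω)} ∪ {ω | v ≤ (-Complex.reCLM : ℂ →L[ℝ] ℝ) (S ω)}) ∪
      ({ω | v ≤ Complex.imCLM (S ω)} ∪ {ω | v ≤ (-Complex.imCLM : ℂ →L[ℝ] ℝ) (S ω)}) := by
    intro ω hω
    by_contra hc
    simp only [mem_union, mem_ofPred_eq, not_or, not_le, Complex.reCLM_apply,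
      Complex.imCLM_apply, ContinuousLinearMap.neg_apply] at hc
    obtain ⟨⟨a1, a2⟩, a3, a4⟩ := hc
    have b1 : |(S ω).re| < v := abs_lt.2 ⟨by linarith, a1⟩
    have b2 : |(S ω).im| < v := abs_lt.2 ⟨by linarith, a3⟩
    have b3 : (S ω).re ^ 2 < v ^ 2 := sq_lt_sq.2 (by rwa [abs_of_nonneg hv0])
    have b4 : (S ω).im ^ 2 < v ^ 2 := sq_lt_sq.2 (by rwa [abs_of_nonneg hv0])
    have b5 : ‖S ω‖ ^ 2 = (S ω).re ^ 2 + (S ω).im ^ 2 := by
      rw [← Complex.normSq_eq_norm_sq, Complex.normSq_apply]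
      ring
    have b6 : u ^ 2 ≤ ‖S ω‖ ^ 2 := pow_le_pow_left₀ hu hω 2
    linarith
  refine (measureReal_mono hsub).trans ?_
  refine (measureReal_union_le _ _).trans ?_
  refine (add_le_add (measureReal_union_le _ _) (measureReal_union_le _ _)).trans ?_
  linarith

end Pool.Agent.PertZ
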