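import Pool.Agent.PertZ.Defs

/-!
# Random perturbations: bound of `Sm` by the block sums (job PZ-SUPI)
-/

set_option autoImplicit false

namespace Pool.Agent.PertZ

open MeasureTheory ProbabilityTheory Set Filter Topology Complex Pool.Agent.CW

lemma SUPI_min_one {x e : ℝ} (hx : 0 ≤ x) (h0 : 0 ≤ e) (h1 : e ≤ 1) : min 1 x ≤ x ^ e := by
  rcases le_total x 1 with h | h
  · calc min 1 x ≤ x := min_le_right _ _
      _ = x ^ (1 : ℝ) := (Real.rpow_one x).symm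
      _ ≤ x ^ e := Real.rpow_le_rpow_of_exponent_ge' hx h h0 h1
  · exact (min_le_left _ _).trans (Real.one_le_rpow h h0)

lemma SUPI_min {n Y θ : ℝ} (hn : 0 < n) (hY : 0 < Y) (h0 : 0 ≤ θ) (h1 : θ ≤ 1) :
    min (n / Y) (Y / n) ≤ Y ^ θ * n ^ (-θ) := by
  have h2 : min (n / Y) (Y / n) ≤ min 1 (Y / n) := by
    rcases le_total Y n with h | h
    · refine le_min ?_ (min_le_right _ _)
      exact (min_le_right _ _).trans ((div_le_one hn).2 h)
    · refine le_min ?_ (min_le_right _ _)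
      exact (min_le_left _ _).trans ((div_le_one hY).2 h)
  refine h2.trans ((SUPI_min_one (by positivity) h0 h1).trans_eq ?_)
  rw [Real.div_rpow hY.le hn.le, Real.rpow_neg hn.le, div_eq_mul_inv]

lemma SUPI_norm_pow {n : ℕ} (hn : 1 ≤ n) (σ t : ℝ) :
    ‖(n : ℂ) ^ (-((σ : ℂ) + t * I))‖ = (n : ℝ) ^ (-σ) := by
  rw [Complex.norm_natCast_cpow_of_pos (by omega)]
  simp

lemma SUPI_cpow {n : ℕ} (hn : 1 ≤ n) (σ κ t : ℝ) :
    (n : ℂ) ^ (-(((σ + κ : ℝ) : ℂ) + t * I)) =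
      (n : ℂ) ^ (-((σ : ℂ) + t * I)) * (((n : ℝ) ^ (-κ) : ℝ) : ℂ) := by
  have h0 : (n : ℂ) ≠ 0 := by exact_mod_cast (by omega : n ≠ 0)
  rw [Complex.ofReal_cpow (by positivity), ← Complex.ofReal_natCast, ← Complex.cpow_add]
  · congr 1
    push_cast
    ring
  · exact_mod_cast (by omega : n ≠ 0)

/-- integrals of powers -/
lemma SUPI_int {p : ℝ} (hp : 0 < p) : ∫ Y in Ioi (1 : ℝ), Y ^ (-p - 1) = 1 / p := by
  rw [integral_Ioi_rpow_of_lt (by linarith) one_pos, Real.one_rpow]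
  have : p ≠ 0 := hp.ne'
  have h1 : -p - 1 + 1 = -p := by ring
  rw [h1]
  field_simp

theorem p_SUPI (h : P_REP) : P_SUPI := by
  intro B κ σ r e e' hB hσ hσκ hr h1 hκB he0 he1 he he0' he1' he'
  obtain ⟨C₀, hC₀, hrep⟩ := h B κ hB hκB
  obtain ⟨M, hM⟩ : ∃ M : ℝ, M = σ + κ + 1 := ⟨_, rfl⟩
  have hM1 : 1 ≤ M := by linarith
  refine ⟨C₀ * (M / (κ + B * e) + M / (κ - r + B * e') + 1), by positivity, ?_⟩
  intro a t K₁ K₂ ha0 ha1 ht hK₁ hK₂ hW
  have ht0 : 0 < t := by linarith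
  obtain ⟨s, hs⟩ : ∃ s : ℂ, s = ((σ + κ : ℝ) : ℂ) + t * I := ⟨_, rfl⟩
  have hsre : s.re = σ + κ := by rw [hs]; simp
  have hsim : s.im = t := by rw [hs]; simp
  have hs0 : s ≠ 0 := by
    intro h2
    rw [h2, Complex.zero_im] at hsim
    linarith
  rw [← hs]
  obtain ⟨ρ, c, hρc, hc, hρ, hid⟩ := hrep s (by rw [hsre]; exact hσκ) hs0
  have hsn : ‖s‖ ≤ M * t := by
    calc ‖s‖ ≤ |s.re| + |s.im| := Complex.norm_le_abs_re_add_abs_im s
      _ = (σ + κ) + t := by rw [hsre, hsim, abs_of_nonneg hσκ, abs_of_pos ht0]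
      _ ≤ M * t := by rw [hM]; nlinarith
  have hsn0 : 0 < ‖s‖ := norm_pos_iff.2 hs0
  -- the exponent
  obtain ⟨θ, hθ0, hθ1, hθσ, hθq⟩ : ∃ θ : ℝ, 0 < θ ∧ θ < 1 ∧ 1 < σ + θ ∧ θ < κ + B := by
    have h2 : max (1 - σ) 0 < min (κ + B) 1 := by
      refine max_lt (lt_min ?_ ?_) (lt_min ?_ ?_) <;> linarith
    obtain ⟨θ, h3, h4⟩ := exists_between h2
    have h5 := max_lt_iff.1 h3
    have h6 := lt_min_iff.1 h4
    exact ⟨θ, h5.2, h6.2, by linarith [h5.1], h6.1⟩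
  have hρ' : ∀ Y : ℝ, 1 ≤ Y → ‖ρ Y / Y‖ ≤ C₀ * (Y ^ (-κ - 1) * min 1 (‖s‖ * Y ^ (-B))) := by
    intro Y hY
    have hY0 : 0 < Y := by linarith
    rw [norm_div, Complex.norm_real, Real.norm_of_nonneg hY0.le, div_le_iff₀ hY0]
    refine (hρ Y hY).trans_eq ?_
    rw [Real.rpow_sub_one hY0.ne']
    field_simp
  -- the functions
  obtain ⟨F, hF⟩ : ∃ F : ℕ → ℝ → ℂ, F = fun n Y => a n * (n : ℂ) ^ (-((σ : ℂ) + t * I)) *
    ((min (n / Y) (Y / n) : ℝ) : ℂ) * (ρ Y / Y) := ⟨_, rfl⟩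
  have hFb : ∀ n : ℕ, ∀ Y : ℝ, 1 ≤ Y → ‖F n Y‖ ≤
      C₀ * ‖s‖ * (n : ℝ) ^ (-(σ + θ)) * Y ^ (-(κ + B - θ) - 1) := by
    intro n Y hY
    have hY0 : 0 < Y := by linarith
    rcases Nat.eq_zero_or_pos n with rfl | hn
    · rw [hF]
      simp only [ha0, zero_mul, norm_zero]
      positivity
    · have hn0 : (0 : ℝ) < n := by exact_mod_cast hn
      rw [hF]
      simp only [norm_mul]
      rw [SUPI_norm_pow hn, Complex.norm_real, Real.norm_of_nonneg (by positivity)]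
      have h2 := SUPI_min hn0 hY0 hθ0.le hθ1.le
      have h3 := hρ' Y hY
      have h4 : min 1 (‖s‖ * Y ^ (-B)) ≤ ‖s‖ * Y ^ (-B) := min_le_right _ _
      calc ‖a n‖ * (n : ℝ) ^ (-σ) * min (n / Y) (Y / n) * ‖ρ Y / Y‖
          ≤ 1 * (n : ℝ) ^ (-σ) * (Y ^ θ * (n : ℝ) ^ (-θ)) *
            (C₀ * (Y ^ (-κ - 1) * (‖s‖ * Y ^ (-B)))) := by
            gcongr
            · exact ha1 n
            · exact h3.trans (by gcongr)
        _ = C₀ * ‖s‖ * ((n : ℝ) ^ (-σ) * (n : ℝ) ^ (-θ)) *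
            (Y ^ θ * Y ^ (-κ - 1) * Y ^ (-B)) := by ring
        _ = _ := by
          rw [← Real.rpow_add hn0, ← Real.rpow_add hY0, ← Real.rpow_add hY0]
          congr 2
          · congr 1
            congr 1
            ring
          · ring
  have hpw : ∀ p : ℝ, 0 < p → IntegrableOn (fun Y : ℝ => Y ^ (-p - 1)) (Ioi 1) := fun p hp =>
    integrableOn_Ioi_rpow_of_lt (by linarith) one_pos
  have hFm : ∀ n, AEStronglyMeasurable (F n) (volume.restrict (Ioi 1)) := by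
    intro n
    apply ContinuousOn.aestronglyMeasurable _ measurableSet_Ioi
    rw [hF]
    have h2 : ContinuousOn ρ (Ioi 1) := hρc.mono Ioi_subset_Ici_self
    have h3 : ContinuousOn (fun Y : ℝ => ((min (n / Y) (Y / n) : ℝ) : ℂ)) (Ioi 1) := by
      apply Complex.continuous_ofReal.comp_continuousOn
      have h5 : ContinuousOn (fun Y : ℝ => (n : ℝ) / Y) (Ioi 1) := by
        apply ContinuousOn.div continuousOn_const continuousOn_id
        intro Y hY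
        have : (1 : ℝ) < Y := hY
        exact (by linarith : (0 : ℝ) < Y).ne'
      have h6 : ContinuousOn (fun Y : ℝ => Y / (n : ℝ)) (Ioi 1) := continuousOn_id.div_const _
      exact continuous_min.comp_continuousOn (h5.prodMk h6)
    have h4 : ContinuousOn (fun Y : ℝ => ρ Y / (Y : ℂ)) (Ioi 1) := by
      apply ContinuousOn.div h2 Complex.continuous_ofReal.continuousOn
      intro Y hY
      have : (1 : ℝ) < Y := hY
      exact_mod_cast (by linarith : (0 : ℝ) < Y).ne'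
    exact (continuousOn_const.mul h3).mul h4
  have hFi : ∀ n, Integrable (F n) (volume.restrict (Ioi 1)) := by
    intro n
    refine ((hpw (κ + B - θ) (by linarith)).const_mul
      (C₀ * ‖s‖ * (n : ℝ) ^ (-(σ + θ)))).mono' (hFm n) ?_
    refine (ae_restrict_iff' measurableSet_Ioi).2 (Eventually.of_forall fun Y hY => ?_)
    exact hFb n Y (le_of_lt hY)
  have hns : Summable fun n : ℕ => (n : ℝ) ^ (-(σ + θ)) :=
    Real.summable_nat_rpow.2 (by linarith)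
  have hFs : Summable fun n => ∫ Y in Ioi (1 : ℝ), ‖F n Y‖ := by
    refine Summable.of_nonneg_of_le (fun n => integral_nonneg fun Y => norm_nonneg _)
      (fun n => ?_) ((hns.mul_left (C₀ * ‖s‖)).mul_right (1 / (κ + B - θ)))
    rw [← SUPI_int (show 0 < κ + B - θ by linarith), ← integral_const_mul]
    refine setIntegral_mono_on (hFi n).norm ((hpw _ (by linarith)).const_mul _)
      measurableSet_Ioi fun Y hY => hFb n Y (le_of_lt hY)
  have hS := hasSum_integral_of_summable_integral_norm hFi hFs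
  have hWb : ∀ Y : ℝ, ∑' n, F n Y = Wb a σ t Y * (ρ Y / Y) := by
    intro Y
    rw [hF]
    unfold Wb
    rw [tsum_mul_right]
  have hW1 : Summable fun n : ℕ => a n * (n : ℂ) ^ (-((σ : ℂ) + t * I)) *
      ((min ((n : ℝ) / 1) (1 / n) : ℝ) : ℂ) := by
    refine Summable.of_norm_bounded hns fun n => ?_
    rcases Nat.eq_zero_or_pos n with rfl | hn
    · simp only [ha0, zero_mul, norm_zero]
      positivity
    · have hn0 : (0 : ℝ) < n := by exact_mod_cast hn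
      simp only [norm_mul]
      rw [SUPI_norm_pow hn, Complex.norm_real, Real.norm_of_nonneg (by positivity)]
      have h2 := SUPI_min hn0 one_pos hθ0.le hθ1.le
      rw [Real.one_rpow, one_mul] at h2
      calc ‖a n‖ * (n : ℝ) ^ (-σ) * min ((n : ℝ) / 1) (1 / n)
          ≤ 1 * (n : ℝ) ^ (-σ) * (n : ℝ) ^ (-θ) := by
            gcongr
            exact ha1 n
        _ = _ := by
          rw [one_mul, ← Real.rpow_add hn0]
          congr 1
          ring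
  have hterm : ∀ n : ℕ, s * (a n * (n : ℂ) ^ (-s) / ((((n : ℝ) ^ B : ℝ) : ℂ) + s)) =
      (∫ Y in Ioi (1 : ℝ), F n Y) + c * (a n * (n : ℂ) ^ (-((σ : ℂ) + t * I)) *
      ((min ((n : ℝ) / 1) (1 / n) : ℝ) : ℂ)) := by
    intro n
    rcases Nat.eq_zero_or_pos n with rfl | hn
    · rw [hF]
      simp [ha0]
    · have hn0 : (0 : ℝ) < n := by exact_mod_cast hn
      have hn1 : (1 : ℝ) ≤ n := by exact_mod_cast hn
      have h2 := hid n hn
      have h3 : (∫ Y in Ioi (1 : ℝ), F n Y) = a n * (n : ℂ) ^ (-((σ : ℂ) + t * I)) *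
          ∫ Y in Ioi (1 : ℝ), ((min (n / Y) (Y / n) / Y : ℝ) : ℂ) * ρ Y := by
        rw [hF, ← integral_const_mul]
        congr 1
        funext Y
        push_cast
        ring
      have h4 : min ((n : ℝ) / 1) (1 / n) = 1 / n := by
        apply min_eq_right
        rw [div_one]
        exact ((div_le_one hn0).2 hn1).trans hn1
      have h5 : ((1 / (n : ℝ) : ℝ) : ℂ) = 1 / n := by push_cast; ring
      have h6 : (n : ℂ) ^ (-s) = (n : ℂ) ^ (-((σ : ℂ) + t * I)) *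
          (((n : ℝ) ^ (-κ) : ℝ) : ℂ) := by
        rw [hs]
        exact SUPI_cpow hn σ κ t
      rw [h3, h4, h5, h6]
      calc s * (a n * ((n : ℂ) ^ (-((σ : ℂ) + t * I)) * (((n : ℝ) ^ (-κ) : ℝ) : ℂ)) /
            ((((n : ℝ) ^ B : ℝ) : ℂ) + s))
          = a n * (n : ℂ) ^ (-((σ : ℂ) + t * I)) * ((((n : ℝ) ^ (-κ) : ℝ) : ℂ) *
            (s / ((((n : ℝ) ^ B : ℝ) : ℂ) + s))) := by ring
        _ = _ := by
          rw [h2]
          ring
  have hSm : Sm a B s = (∫ Y in Ioi (1 : ℝ), Wb a σ t Y * (ρ Y / Y)) + c * Wb a σ t 1 := by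
    unfold Sm
    rw [← tsum_mul_left]
    have h2 := hS.add (hW1.hasSum.mul_left c)
    simp only [hWb] at h2
    have h3 : (∑' n : ℕ, a n * (n : ℂ) ^ (-((σ : ℂ) + t * I)) *
        ((min ((n : ℝ) / 1) (1 / n) : ℝ) : ℂ)) = Wb a σ t 1 := rfl
    rw [h3] at h2
    rw [← h2.tsum_eq]
    exact tsum_congr hterm
  -- the bounds
  have hb1 : ‖∫ Y in Ioi (1 : ℝ), Wb a σ t Y * (ρ Y / Y)‖ ≤
      C₀ * K₁ * ‖s‖ ^ e * (1 / (κ + B * e)) + C₀ * K₂ * ‖s‖ ^ e' * (1 / (κ - r + B * e')) := by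
    have hi1 := (hpw (κ + B * e) he).const_mul (C₀ * K₁ * ‖s‖ ^ e)
    have hi2 := (hpw (κ - r + B * e') he').const_mul (C₀ * K₂ * ‖s‖ ^ e')
    have h2 := norm_integral_le_of_norm_le (μ := volume.restrict (Ioi (1 : ℝ)))
      (f := fun Y => Wb a σ t Y * (ρ Y / Y)) (hi1.add hi2) (by
        refine (ae_restrict_iff' measurableSet_Ioi).2 (Eventually.of_forall fun Y hY => ?_)
        have hY1 : 1 ≤ Y := le_of_lt hY
        have hY0 : 0 < Y := by linarith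
        have hsY : 0 ≤ ‖s‖ * Y ^ (-B) := by positivity
        have h3 := hρ' Y hY1
        have h4 := hW Y hY1
        have h5 := SUPI_min_one hsY he0 he1
        have h6 := SUPI_min_one hsY he0' he1'
        rw [Real.mul_rpow (norm_nonneg _) (by positivity), ← Real.rpow_mul hY0.le] at h5 h6
        rw [norm_mul]
        calc ‖Wb a σ t Y‖ * ‖ρ Y / Y‖
            ≤ (K₁ + K₂ * Y ^ r) * (C₀ * (Y ^ (-κ - 1) * min 1 (‖s‖ * Y ^ (-B)))) := by gcongr
          _ = C₀ * K₁ * (Y ^ (-κ - 1) * min 1 (‖s‖ * Y ^ (-B))) +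
              C₀ * K₂ * ((Y ^ r * Y ^ (-κ - 1)) * min 1 (‖s‖ * Y ^ (-B))) := by ring
          _ ≤ C₀ * K₁ * (Y ^ (-κ - 1) * (‖s‖ ^ e * Y ^ (-B * e))) +
              C₀ * K₂ * ((Y ^ r * Y ^ (-κ - 1)) * (‖s‖ ^ e' * Y ^ (-B * e'))) := by gcongr
          _ = C₀ * K₁ * ‖s‖ ^ e * (Y ^ (-κ - 1) * Y ^ (-B * e)) +
              C₀ * K₂ * ‖s‖ ^ e' * (Y ^ r * Y ^ (-κ - 1) * Y ^ (-B * e')) := by ring
          _ = C₀ * K₁ * ‖s‖ ^ e * Y ^ (-(κ + B * e) - 1) +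
              C₀ * K₂ * ‖s‖ ^ e' * Y ^ (-(κ - r + B * e') - 1) := by
            rw [← Real.rpow_add hY0, ← Real.rpow_add hY0, ← Real.rpow_add hY0]
            congr 3 <;> ring)
    refine h2.trans_eq ?_
    have h3 : ∫ Y in Ioi (1 : ℝ), ((fun Y => C₀ * K₁ * ‖s‖ ^ e * Y ^ (-(κ + B * e) - 1)) +
        fun Y => C₀ * K₂ * ‖s‖ ^ e' * Y ^ (-(κ - r + B * e') - 1)) Y =
        (∫ Y in Ioi (1 : ℝ), C₀ * K₁ * ‖s‖ ^ e * Y ^ (-(κ + B * e) - 1)) +
        ∫ Y in Ioi (1 : ℝ), C₀ * K₂ * ‖s‖ ^ e' * Y ^ (-(κ - r + B * e') - 1) :=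
      integral_add hi1 hi2
    rw [h3, integral_const_mul, integral_const_mul, SUPI_int he, SUPI_int he']
  have hpe : ∀ x : ℝ, 0 ≤ x → x ≤ 1 → ‖s‖ ^ x ≤ M * t ^ x := by
    intro x hx0 hx1
    calc ‖s‖ ^ x ≤ (M * t) ^ x := Real.rpow_le_rpow (norm_nonneg _) hsn hx0
      _ = M ^ x * t ^ x := Real.mul_rpow (by linarith) ht0.le
      _ ≤ M ^ (1 : ℝ) * t ^ x := by gcongr
      _ = M * t ^ x := by rw [Real.rpow_one]
  have hb2 : ‖c * Wb a σ t 1‖ ≤ C₀ * (K₁ * t ^ e + K₂ * t ^ e') := by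
    rw [norm_mul]
    have h2 := hW 1 le_rfl
    rw [Real.one_rpow, mul_one] at h2
    have h3 : 1 ≤ t ^ e := Real.one_le_rpow ht he0
    have h4 : 1 ≤ t ^ e' := Real.one_le_rpow ht he0'
    have h5 : K₁ + K₂ ≤ K₁ * t ^ e + K₂ * t ^ e' := by nlinarith
    exact mul_le_mul hc (h2.trans h5) (norm_nonneg _) hC₀.le
  rw [hSm]
  have hp1 : 0 < 1 / (κ + B * e) := by positivity
  have hp2 : 0 < 1 / (κ - r + B * e') := by positivity
  have hte : 0 < t ^ e := by positivity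
  have hte' : 0 < t ^ e' := by positivity
  calc ‖(∫ Y in Ioi (1 : ℝ), Wb a σ t Y * (ρ Y / Y)) + c * Wb a σ t 1‖
      ≤ ‖∫ Y in Ioi (1 : ℝ), Wb a σ t Y * (ρ Y / Y)‖ + ‖c * Wb a σ t 1‖ := norm_add_le _ _
    _ ≤ (C₀ * K₁ * (M * t ^ e) * (1 / (κ + B * e)) +
        C₀ * K₂ * (M * t ^ e') * (1 / (κ - r + B * e'))) +
        C₀ * (K₁ * t ^ e + K₂ * t ^ e') := by
        refine add_le_add (hb1.trans ?_) hb2
        gcongr
        · exact hpe e he0 he1
        · exact hpe e' he0' he1'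
    _ = C₀ * ((K₁ * t ^ e) * (M / (κ + B * e)) + (K₂ * t ^ e') * (M / (κ - r + B * e')) +
        (K₁ * t ^ e + K₂ * t ^ e')) := by ring
    _ ≤ C₀ * ((K₁ * t ^ e + K₂ * t ^ e') * (M / (κ + B * e)) +
        (K₁ * t ^ e + K₂ * t ^ e') * (M / (κ - r + B * e')) + (K₁ * t ^ e + K₂ * t ^ e')) := by
        have hq1 : 0 ≤ K₁ * t ^ e := by positivity
        have hq2 : 0 ≤ K₂ * t ^ e' := by positivity
        gcongr <;> linarith
    _ = _ := by ring

end Pool.Agent.PertZ
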