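import Pool.Agent.PertZ.Defs2
import Pool.Agent.PertZ.SUPI

/-!
# Random perturbations: high-pass bound of the mean (job PZ2-HP)
-/

set_option autoImplicit false

namespace Pool.Agent.PertZ

open MeasureTheory ProbabilityTheory Set Filter Topology Complex Pool.Agent.CW

lemma HP_cont_vw : Continuous vw := by
  unfold vw
  refine Continuous.if_le (by fun_prop) (by fun_prop) continuous_const continuous_id ?_
  intro x hx
  rw [← hx]
  norm_num

lemma HP_vw_nonneg (x : ℝ) : 0 ≤ vw x := by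
  unfold vw
  split_ifs with h
  · have : Real.exp (-x) ≤ 1 := Real.exp_le_one_iff.2 (by linarith)
    linarith
  · positivity

lemma HP_vw_le {x θ : ℝ} (h0 : 0 ≤ θ) (h1 : θ ≤ 1) : vw x ≤ Real.exp (x * θ) := by
  unfold vw
  split_ifs with h
  · have h2 : 0 < Real.exp (-x) := Real.exp_pos _
    have h3 : 1 ≤ Real.exp (x * θ) := Real.one_le_exp (by positivity)
    linarith
  · push Not at h
    have h2 : Real.exp x ≤ Real.exp (x * θ) := Real.exp_le_exp.2 (by nlinarith)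
    have h3 : 0 < Real.exp x := Real.exp_pos _
    linarith

lemma HP_vw_log {n Y θ : ℝ} (hn : 0 < n) (hY : 0 < Y) (h0 : 0 ≤ θ) (h1 : θ ≤ 1) :
    vw (Real.log (Y / n)) ≤ Y ^ θ * n ^ (-θ) := by
  refine (HP_vw_le h0 h1).trans_eq ?_
  rw [Real.exp_mul, Real.exp_log (by positivity), Real.div_rpow hY.le hn.le,
    Real.rpow_neg hn.le, div_eq_mul_inv]

lemma HP_pow_int {q : ℝ} (hq : 0 < q) : IntegrableOn (fun Y : ℝ => Y ^ (-q - 1)) (Ioi 1) :=
  integrableOn_Ioi_rpow_of_lt (by linarith) one_pos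

/-- the basic integral -/
lemma HP_int {B p S : ℝ} (hp : -B < p) (hp' : p < B) (hS : 1 ≤ S) :
    IntegrableOn (fun Y : ℝ => min (Y ^ B / S) (S * Y ^ (-B)) * Y ^ (p - 1)) (Ioi 1) ∧
    ∫ Y in Ioi (1 : ℝ), min (Y ^ B / S) (S * Y ^ (-B)) * Y ^ (p - 1) ≤
      (1 / (B + p) + 1 / (B - p)) * S ^ (p / B) := by
  have hB : 0 < B := by linarith
  have hS0 : 0 < S := by linarith
  have hcont : ContinuousOn (fun Y : ℝ => min (Y ^ B / S) (S * Y ^ (-B)) * Y ^ (p - 1))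
      (Ioi 1) := by
    have h1 : ∀ q : ℝ, ContinuousOn (fun Y : ℝ => Y ^ q) (Ioi 1) := by
      intro q
      apply ContinuousOn.rpow_const continuousOn_id
      intro Y hY
      left
      have : (1 : ℝ) < Y := hY
      exact (by linarith : (0 : ℝ) < Y).ne'
    have h2 : ContinuousOn (fun Y : ℝ => min (Y ^ B / S) (S * Y ^ (-B))) (Ioi 1) :=
      continuous_min.comp_continuousOn (((h1 B).div_const S).prodMk ((h1 (-B)).const_mul S))
    exact h2.mul (h1 _)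
  have hbound : ∀ Y : ℝ, 1 ≤ Y → min (Y ^ B / S) (S * Y ^ (-B)) * Y ^ (p - 1) ≤
      S * Y ^ (-(B - p) - 1) := by
    intro Y hY
    have hY0 : 0 < Y := by linarith
    calc min (Y ^ B / S) (S * Y ^ (-B)) * Y ^ (p - 1) ≤ (S * Y ^ (-B)) * Y ^ (p - 1) := by
          gcongr
          exact min_le_right _ _
      _ = S * (Y ^ (-B) * Y ^ (p - 1)) := by ring
      _ = _ := by
        rw [← Real.rpow_add hY0]
        congr 2
        ring
  have hnn : ∀ Y : ℝ, 1 ≤ Y → 0 ≤ min (Y ^ B / S) (S * Y ^ (-B)) * Y ^ (p - 1) := by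
    intro Y hY
    have hY0 : 0 < Y := by linarith
    positivity
  have hint : IntegrableOn (fun Y : ℝ => min (Y ^ B / S) (S * Y ^ (-B)) * Y ^ (p - 1))
      (Ioi 1) := by
    refine ((HP_pow_int (show 0 < B - p by linarith)).const_mul S).mono'
      (hcont.aestronglyMeasurable measurableSet_Ioi) ?_
    refine (ae_restrict_iff' measurableSet_Ioi).2 (Eventually.of_forall fun Y hY => ?_)
    rw [Real.norm_of_nonneg (hnn Y (le_of_lt hY))]
    exact hbound Y (le_of_lt hY)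
  refine ⟨hint, ?_⟩
  obtain ⟨Z, hZ⟩ : ∃ Z : ℝ, Z = S ^ (1 / B) := ⟨_, rfl⟩
  have hZ1 : 1 ≤ Z := by
    rw [hZ]
    exact Real.one_le_rpow hS (by positivity)
  have hZ0 : 0 < Z := by linarith
  have hZB : ∀ q : ℝ, Z ^ q = S ^ (q / B) := by
    intro q
    rw [hZ, ← Real.rpow_mul hS0.le]
    congr 1
    field_simp
  rw [← Ioc_union_Ioi_eq_Ioi hZ1, setIntegral_union (Ioc_disjoint_Ioi le_rfl)
    measurableSet_Ioi (hint.mono_set Ioc_subset_Ioi_self)
    (hint.mono_set (Ioi_subset_Ioi hZ1))]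
  have h1 : ∫ Y in Ioc (1 : ℝ) Z, min (Y ^ B / S) (S * Y ^ (-B)) * Y ^ (p - 1) ≤
      1 / (B + p) * S ^ (p / B) := by
    have hpi : IntervalIntegrable (fun Y : ℝ => Y ^ (B + p - 1)) volume 1 Z :=
      intervalIntegral.intervalIntegrable_rpow' (by linarith)
    have hpi' : IntegrableOn (fun Y : ℝ => S⁻¹ * Y ^ (B + p - 1)) (Ioc 1 Z) :=
      ((intervalIntegrable_iff_integrableOn_Ioc_of_le hZ1).1 hpi).const_mul _
    calc ∫ Y in Ioc (1 : ℝ) Z, min (Y ^ B / S) (S * Y ^ (-B)) * Y ^ (p - 1)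
        ≤ ∫ Y in Ioc (1 : ℝ) Z, S⁻¹ * Y ^ (B + p - 1) := by
          refine setIntegral_mono_on (hint.mono_set Ioc_subset_Ioi_self) hpi'
            measurableSet_Ioc fun Y hY => ?_
          have hY0 : 0 < Y := by linarith [hY.1]
          calc min (Y ^ B / S) (S * Y ^ (-B)) * Y ^ (p - 1) ≤ (Y ^ B / S) * Y ^ (p - 1) := by
                gcongr
                exact min_le_left _ _
            _ = S⁻¹ * (Y ^ B * Y ^ (p - 1)) := by ring
            _ = _ := by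
              rw [← Real.rpow_add hY0]
              congr 2
              ring
      _ = S⁻¹ * ∫ Y in (1 : ℝ)..Z, Y ^ (B + p - 1) := by
          rw [integral_const_mul, intervalIntegral.integral_of_le hZ1]
      _ = S⁻¹ * ((Z ^ (B + p) - 1) / (B + p)) := by
          rw [integral_rpow (Or.inl (by linarith)), Real.one_rpow]
          have : B + p - 1 + 1 = B + p := by ring
          rw [this]
      _ ≤ S⁻¹ * (Z ^ (B + p) / (B + p)) := by
          have : 0 < B + p := by linarith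
          gcongr
          linarith
      _ = _ := by
          rw [hZB, show (B + p) / B = 1 + p / B by field_simp, Real.rpow_add hS0,
            Real.rpow_one]
          field_simp
  have h2 : ∫ Y in Ioi Z, min (Y ^ B / S) (S * Y ^ (-B)) * Y ^ (p - 1) ≤
      1 / (B - p) * S ^ (p / B) := by
    have hpi : IntegrableOn (fun Y : ℝ => S * Y ^ (-(B - p) - 1)) (Ioi Z) :=
      (integrableOn_Ioi_rpow_of_lt (by linarith) hZ0).const_mul S
    calc ∫ Y in Ioi Z, min (Y ^ B / S) (S * Y ^ (-B)) * Y ^ (p - 1)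
        ≤ ∫ Y in Ioi Z, S * Y ^ (-(B - p) - 1) := by
          refine setIntegral_mono_on (hint.mono_set (Ioi_subset_Ioi hZ1)) hpi
            measurableSet_Ioi fun Y hY => hbound Y ?_
          exact hZ1.trans (le_of_lt hY)
      _ = S * (Z ^ (-(B - p)) / (B - p)) := by
          rw [integral_const_mul, integral_Ioi_rpow_of_lt (by linarith) hZ0]
          have h3 : -(B - p) - 1 + 1 = -(B - p) := by ring
          rw [h3, neg_div_neg_eq]
      _ = _ := by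
          rw [hZB, show -(B - p) / B = -1 + p / B by field_simp; ring, Real.rpow_add hS0,
            Real.rpow_neg_one]
          field_simp
  calc _ ≤ 1 / (B + p) * S ^ (p / B) + 1 / (B - p) * S ^ (p / B) := add_le_add h1 h2
    _ = _ := by ring

theorem p_HP (h : P_REV) : P_HP := by
  intro B e r hB he0 heB hr0 hrB
  have hB0 : 0 < B := by linarith
  obtain ⟨C₀, hC₀, hrep⟩ := h B hB0
  obtain ⟨θ, hθ0, hθ1, hθB⟩ : ∃ θ : ℝ, 1 / 2 < θ ∧ θ < 1 ∧ θ < B := by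
    obtain ⟨θ, h1, h2⟩ := exists_between (lt_min hB (by norm_num : (1 / 2 : ℝ) < 1))
    exact ⟨θ, h1, (lt_min_iff.1 h2).2, (lt_min_iff.1 h2).1⟩
  have hns : Summable fun n : ℕ => (n : ℝ) ^ (-(1 / 2 + θ)) :=
    Real.summable_nat_rpow.2 (by linarith)
  have hns' : Summable fun n : ℕ => (n : ℝ) ^ (-(3 / 2) : ℝ) :=
    Real.summable_nat_rpow.2 (by norm_num)
  obtain ⟨Z₀, hZ₀⟩ : ∃ Z₀ : ℝ, Z₀ = ∑' n : ℕ, (n : ℝ) ^ (-(3 / 2) : ℝ) := ⟨_, rfl⟩
  have hZ₀0 : 0 ≤ Z₀ := by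
    rw [hZ₀]
    exact tsum_nonneg fun n => by positivity
  obtain ⟨A₁, hA₁⟩ : ∃ A₁ : ℝ, A₁ = 1 / (B + -e) + 1 / (B - -e) := ⟨_, rfl⟩
  obtain ⟨A₂, hA₂⟩ : ∃ A₂ : ℝ, A₂ = 1 / (B + r) + 1 / (B - r) := ⟨_, rfl⟩
  have hA₁0 : 0 ≤ A₁ := by
    rw [hA₁]
    have h1 : 0 < B + -e := by linarith
    have h2 : 0 < B - -e := by linarith
    positivity
  have hA₂0 : 0 ≤ A₂ := by
    rw [hA₂]
    have h1 : 0 < B + r := by linarith
    have h2 : 0 < B - r := by linarith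
    positivity
  have hr2 : (0 : ℝ) ≤ 2 ^ (r / B) := by positivity
  refine ⟨C₀ * (1 + Z₀ + A₁ + A₂ * 2 ^ (r / B)), by positivity, ?_⟩
  intro t K₁ K₂ ht hK₁ hK₂ hV
  have ht0 : 0 < t := by linarith
  obtain ⟨s, hs⟩ : ∃ s : ℂ, s = 1 / 2 + t * I := ⟨_, rfl⟩
  have hs' : (((1 / 2 : ℝ) : ℂ) + t * I) = s := by
    rw [hs]
    push_cast
    ring
  have hsre : s.re = 1 / 2 := by rw [← hs']; simp
  have hsim : s.im = t := by rw [← hs']; simp
  have hst : t ≤ ‖s‖ := by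
    calc t = |s.im| := by rw [hsim, abs_of_pos ht0]
      _ ≤ ‖s‖ := Complex.abs_im_le_norm s
  have hst' : ‖s‖ ≤ 2 * t := by
    calc ‖s‖ ≤ |s.re| + |s.im| := Complex.norm_le_abs_re_add_abs_im s
      _ = 1 / 2 + t := by rw [hsre, hsim, abs_of_pos ht0, abs_of_pos (by norm_num)]
      _ ≤ 2 * t := by linarith
  have hs1 : 1 ≤ ‖s‖ := by linarith
  have hsn0 : 0 < ‖s‖ := by linarith
  obtain ⟨ρ, c, hρc, hc, hρ, hone, hid⟩ := hrep s (by rw [hsre]; norm_num) hs1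
  have hρ' : ∀ Y : ℝ, 1 ≤ Y → ‖ρ Y / Y‖ ≤
      C₀ * (min (Y ^ B / ‖s‖) (‖s‖ * Y ^ (-B)) * Y ^ (-1 : ℝ)) := by
    intro Y hY
    have hY0 : 0 < Y := by linarith
    rw [norm_div, Complex.norm_real, Real.norm_of_nonneg hY0.le, div_le_iff₀ hY0,
      Real.rpow_neg_one]
    refine (hρ Y hY).trans_eq ?_
    field_simp
  have hρ'' : ∀ Y : ℝ, 1 ≤ Y → ‖ρ Y / Y‖ ≤ C₀ * ‖s‖ * Y ^ (-B - 1) := by
    intro Y hY
    have hY0 : 0 < Y := by linarith
    refine (hρ' Y hY).trans ?_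
    calc C₀ * (min (Y ^ B / ‖s‖) (‖s‖ * Y ^ (-B)) * Y ^ (-1 : ℝ)) ≤
          C₀ * ((‖s‖ * Y ^ (-B)) * Y ^ (-1 : ℝ)) := by
          gcongr
          exact min_le_right _ _
      _ = C₀ * ‖s‖ * (Y ^ (-B) * Y ^ (-1 : ℝ)) := by ring
      _ = _ := by
        rw [← Real.rpow_add hY0]
        congr 2
  have hρm : ContinuousOn (fun Y : ℝ => ρ Y / (Y : ℂ)) (Ioi 1) := by
    apply ContinuousOn.div (hρc.mono Ioi_subset_Ici_self)
      Complex.continuous_ofReal.continuousOn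
    intro Y hY
    have : (1 : ℝ) < Y := hY
    exact_mod_cast (by linarith : (0 : ℝ) < Y).ne'
  -- the coefficients
  obtain ⟨G, hG⟩ : ∃ G : ℕ → ℝ → ℂ, G = fun n Y =>
    one' n * (n : ℂ) ^ (-s) * ((vw (Real.log (Y / n)) : ℝ) : ℂ) := ⟨_, rfl⟩
  have hGb : ∀ n : ℕ, ∀ Y : ℝ, 1 ≤ Y → ‖G n Y‖ ≤ (n : ℝ) ^ (-(1 / 2 + θ)) * Y ^ θ := by
    intro n Y hY
    have hY0 : 0 < Y := by linarith
    rcases Nat.eq_zero_or_pos n with rfl | hn
    · rw [hG]
      simp only [one', if_true, zero_mul, norm_zero]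
      positivity
    · have hn0 : (0 : ℝ) < n := by exact_mod_cast hn
      rw [hG]
      simp only [norm_mul, one', if_neg hn.ne', one_mul]
      rw [← hs', SUPI_norm_pow hn, Complex.norm_real, Real.norm_of_nonneg (HP_vw_nonneg _)]
      calc (n : ℝ) ^ (-(1 / 2 : ℝ)) * vw (Real.log (Y / n)) ≤
            (n : ℝ) ^ (-(1 / 2 : ℝ)) * (Y ^ θ * (n : ℝ) ^ (-θ)) := by
            gcongr
            exact HP_vw_log hn0 hY0 (by linarith) hθ1.le
        _ = ((n : ℝ) ^ (-(1 / 2 : ℝ)) * (n : ℝ) ^ (-θ)) * Y ^ θ := by ring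
        _ = _ := by
          rw [← Real.rpow_add hn0]
          congr 2
          ring
  have hGs : ∀ Y : ℝ, 1 ≤ Y → Summable fun n => G n Y := fun Y hY =>
    Summable.of_norm_bounded (hns.mul_right _) fun n => hGb n Y hY
  have hGm : ∀ n, ContinuousOn (G n) (Ioi 1) := by
    intro n
    rcases Nat.eq_zero_or_pos n with rfl | hn
    · rw [hG]
      simp only [one', if_true, zero_mul]
      exact continuousOn_const
    · have hn0 : (n : ℝ) ≠ 0 := by exact_mod_cast hn.ne'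
      rw [hG]
      refine continuousOn_const.mul (Complex.continuous_ofReal.comp_continuousOn
        (HP_cont_vw.comp_continuousOn (ContinuousOn.log (continuousOn_id.div_const _) ?_)))
      intro Y hY
      have : (1 : ℝ) < Y := hY
      exact div_ne_zero (by linarith : (0 : ℝ) < Y).ne' hn0
  obtain ⟨F, hF⟩ : ∃ F : ℕ → ℝ → ℂ, F = fun n Y =>
    ((if n = 0 then zl t else 0) - G n Y) * (ρ Y / Y) := ⟨_, rfl⟩
  have hFm : ∀ n, AEStronglyMeasurable (F n) (volume.restrict (Ioi 1)) := by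
    intro n
    apply ContinuousOn.aestronglyMeasurable _ measurableSet_Ioi
    rw [hF]
    exact (continuousOn_const.sub (hGm n)).mul hρm
  have hpw := fun (p : ℝ) (hp : 0 < p) => HP_pow_int (q := p) hp
  have hFb : ∀ n : ℕ, ∀ Y : ℝ, 1 ≤ Y → ‖F n Y‖ ≤
      (if n = 0 then ‖zl t‖ else 0) * (C₀ * ‖s‖) * Y ^ (-B - 1) +
      (n : ℝ) ^ (-(1 / 2 + θ)) * (C₀ * ‖s‖) * Y ^ (-(B - θ) - 1) := by
    intro n Y hY
    have hY0 : 0 < Y := by linarith
    rw [hF]
    simp only [norm_mul]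
    have h1 : ‖(if n = 0 then zl t else 0) - G n Y‖ ≤
        (if n = 0 then ‖zl t‖ else 0) + (n : ℝ) ^ (-(1 / 2 + θ)) * Y ^ θ := by
      refine (norm_sub_le _ _).trans (add_le_add ?_ (hGb n Y hY))
      split_ifs <;> simp
    have h0 : 0 ≤ (if n = 0 then ‖zl t‖ else 0) := by split_ifs <;> positivity
    calc ‖(if n = 0 then zl t else 0) - G n Y‖ * ‖ρ Y / Y‖ ≤
        ((if n = 0 then ‖zl t‖ else 0) + (n : ℝ) ^ (-(1 / 2 + θ)) * Y ^ θ) *
        (C₀ * ‖s‖ * Y ^ (-B - 1)) := mul_le_mul h1 (hρ'' Y hY) (norm_nonneg _) (by positivity)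
      _ = (if n = 0 then ‖zl t‖ else 0) * (C₀ * ‖s‖) * Y ^ (-B - 1) +
        (n : ℝ) ^ (-(1 / 2 + θ)) * (C₀ * ‖s‖) * (Y ^ θ * Y ^ (-B - 1)) := by ring
      _ = _ := by
        rw [← Real.rpow_add hY0]
        congr 3
        ring
  have hbi : ∀ n : ℕ, IntegrableOn (fun Y : ℝ =>
      (if n = 0 then ‖zl t‖ else 0) * (C₀ * ‖s‖) * Y ^ (-B - 1) +
      (n : ℝ) ^ (-(1 / 2 + θ)) * (C₀ * ‖s‖) * Y ^ (-(B - θ) - 1)) (Ioi 1) := fun n =>
    ((hpw B hB0).const_mul _).add ((hpw (B - θ) (by linarith)).const_mul _)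
  have hFi : ∀ n, Integrable (F n) (volume.restrict (Ioi 1)) := by
    intro n
    refine (hbi n).mono' (hFm n) ?_
    exact (ae_restrict_iff' measurableSet_Ioi).2
      (Eventually.of_forall fun Y hY => hFb n Y (le_of_lt hY))
  have hFs : Summable fun n => ∫ Y in Ioi (1 : ℝ), ‖F n Y‖ := by
    have hsum : Summable fun n : ℕ => (if n = 0 then ‖zl t‖ else 0) * (C₀ * ‖s‖) * (1 / B) +
        (n : ℝ) ^ (-(1 / 2 + θ)) * (C₀ * ‖s‖) * (1 / (B - θ)) := by
      refine Summable.add ((Summable.mul_right _ ?_).mul_right _)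
        ((hns.mul_right _).mul_right _)
      exact summable_of_ne_finset_zero (s := {0}) fun n hn => by
        rw [Finset.mem_singleton] at hn
        rw [if_neg hn]
    refine Summable.of_nonneg_of_le (fun n => integral_nonneg fun Y => norm_nonneg _)
      (fun n => ?_) hsum
    have h1 := setIntegral_mono_on (hFi n).norm (hbi n) measurableSet_Ioi
      fun Y hY => hFb n Y (le_of_lt hY)
    refine h1.trans_eq ?_
    have h2 := integral_add (μ := volume.restrict (Ioi (1 : ℝ)))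
      ((hpw B hB0).const_mul ((if n = 0 then ‖zl t‖ else 0) * (C₀ * ‖s‖)))
      ((hpw (B - θ) (by linarith)).const_mul ((n : ℝ) ^ (-(1 / 2 + θ)) * (C₀ * ‖s‖)))
    refine h2.trans ?_
    rw [integral_const_mul, integral_const_mul, SUPI_int hB0, SUPI_int (by linarith)]
  have hS := hasSum_integral_of_summable_integral_norm hFi hFs
  have hVb : ∀ Y : ℝ, Vb one' (1 / 2) t Y = ∑' n, G n Y := by
    intro Y
    unfold Vb
    rw [hG, hs']
  have hFV : ∀ Y : ℝ, 1 ≤ Y → ∑' n, F n Y = (zl t - Vb one' (1 / 2) t Y) * (ρ Y / Y) := by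
    intro Y hY
    rw [hF]
    simp only
    rw [tsum_mul_right, Summable.tsum_sub _ (hGs Y hY), tsum_ite_eq, hVb]
    exact summable_of_ne_finset_zero (s := {0}) fun n hn => by
      rw [Finset.mem_singleton] at hn
      rw [if_neg hn]
  have hFV' : ∫ Y in Ioi (1 : ℝ), ∑' n, F n Y =
      ∫ Y in Ioi (1 : ℝ), (zl t - Vb one' (1 / 2) t Y) * (ρ Y / Y) :=
    setIntegral_congr_fun measurableSet_Ioi fun Y hY => hFV Y (le_of_lt hY)
  have hρi : IntegrableOn (fun Y : ℝ => ρ Y / (Y : ℂ)) (Ioi 1) := by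
    refine ((hpw B hB0).const_mul (C₀ * ‖s‖)).mono'
      (hρm.aestronglyMeasurable measurableSet_Ioi) ?_
    exact (ae_restrict_iff' measurableSet_Ioi).2
      (Eventually.of_forall fun Y hY => hρ'' Y (le_of_lt hY))
  -- the terms of `Sm`
  obtain ⟨T, hT⟩ : ∃ T : ℕ → ℂ, T = fun n =>
    s * (one' n * (n : ℂ) ^ (-s) / ((((n : ℝ) ^ B : ℝ) : ℂ) + s)) := ⟨_, rfl⟩
  obtain ⟨D, hD⟩ : ∃ D : ℕ → ℂ, D = fun n => one' n * (n : ℂ) ^ (-s) / n := ⟨_, rfl⟩
  have hDb : ∀ n : ℕ, ‖D n‖ ≤ (n : ℝ) ^ (-(3 / 2) : ℝ) := by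
    intro n
    rcases Nat.eq_zero_or_pos n with rfl | hn
    · rw [hD]
      simp only [one', if_true, zero_mul, zero_div, norm_zero]
      positivity
    · have hn0 : (0 : ℝ) < n := by exact_mod_cast hn
      rw [hD]
      simp only [norm_div, one', if_neg hn.ne', one_mul]
      rw [← hs', SUPI_norm_pow hn, Complex.norm_natCast]
      refine le_of_eq ?_
      rw [div_eq_mul_inv, ← Real.rpow_neg_one, ← Real.rpow_add hn0]
      congr 1
      norm_num
  have hDs : Summable D := Summable.of_norm_bounded hns' hDb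
  have hterm : ∀ n : ℕ, T n = (if n = 0 then zl t * ∫ Y in Ioi (1 : ℝ), ρ Y / Y else 0) -
      (∫ Y in Ioi (1 : ℝ), F n Y) + c * D n := by
    intro n
    rcases Nat.eq_zero_or_pos n with rfl | hn
    · rw [hT, hD, hF, hG]
      simp only [one', if_true, zero_mul, zero_div, mul_zero, sub_zero, add_zero]
      rw [integral_const_mul, sub_self]
    · have h1 : (∫ Y in Ioi (1 : ℝ), F n Y) = -(one' n * (n : ℂ) ^ (-s) *
          ∫ Y in Ioi (1 : ℝ), ((vw (Real.log (Y / n)) / Y : ℝ) : ℂ) * ρ Y) := by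
        rw [hF, hG, ← integral_const_mul, ← integral_neg]
        congr 1
        funext Y
        simp only [if_neg hn.ne']
        push_cast
        ring
      rw [h1, if_neg hn.ne', hT, hD]
      have h2 := hid n hn
      calc s * (one' n * (n : ℂ) ^ (-s) / ((((n : ℝ) ^ B : ℝ) : ℂ) + s)) =
          one' n * (n : ℂ) ^ (-s) * (s / ((((n : ℝ) ^ B : ℝ) : ℂ) + s)) := by ring
        _ = _ := by
          rw [h2]
          ring
  have hSm : Sm one' B s = zl t * (∫ Y in Ioi (1 : ℝ), ρ Y / Y) -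
      (∫ Y in Ioi (1 : ℝ), (zl t - Vb one' (1 / 2) t Y) * (ρ Y / Y)) + c * ∑' n, D n := by
    have h1 : HasSum (fun n : ℕ => (if n = 0 then zl t * ∫ Y in Ioi (1 : ℝ), ρ Y / Y else 0))
        (zl t * ∫ Y in Ioi (1 : ℝ), ρ Y / Y) := hasSum_ite_eq 0 _
    have h2 := (h1.sub hS).add (hDs.hasSum.mul_left c)
    rw [hFV'] at h2
    unfold Sm
    rw [← tsum_mul_left, ← h2.tsum_eq]
    refine tsum_congr fun n => ?_
    rw [← hterm n, hT]
  have hDl : Dl B t = zl t * (1 - ∫ Y in Ioi (1 : ℝ), ρ Y / Y) +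
      (∫ Y in Ioi (1 : ℝ), (zl t - Vb one' (1 / 2) t Y) * (ρ Y / Y)) - c * ∑' n, D n := by
    unfold Dl
    rw [← hs, hSm]
    ring
  -- the bounds
  have hb1 : ‖zl t * (1 - ∫ Y in Ioi (1 : ℝ), ρ Y / Y)‖ ≤ C₀ * (‖zl t‖ / t) := by
    rw [norm_mul]
    calc ‖zl t‖ * ‖1 - ∫ Y in Ioi (1 : ℝ), ρ Y / Y‖ ≤ ‖zl t‖ * (C₀ / ‖s‖) := by gcongr
      _ ≤ ‖zl t‖ * (C₀ / t) := by gcongr
      _ = _ := by ring
  have hb3 : ‖c * ∑' n, D n‖ ≤ C₀ * Z₀ := by
    rw [norm_mul, hZ₀]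
    refine mul_le_mul hc ?_ (norm_nonneg _) hC₀.le
    exact tsum_of_norm_bounded hns'.hasSum hDb
  obtain ⟨hi1, hj1⟩ := HP_int (B := B) (p := -e) (S := ‖s‖) (by linarith) (by linarith) hs1
  obtain ⟨hi2, hj2⟩ := HP_int (B := B) (p := r) (S := ‖s‖) (by linarith) (by linarith) hs1
  have hb2 : ‖∫ Y in Ioi (1 : ℝ), (zl t - Vb one' (1 / 2) t Y) * (ρ Y / Y)‖ ≤
      C₀ * K₁ * (A₁ * ‖s‖ ^ (-e / B)) + C₀ * K₂ * (A₂ * ‖s‖ ^ (r / B)) := by
    have h2 := norm_integral_le_of_norm_le (μ := volume.restrict (Ioi (1 : ℝ)))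
      (f := fun Y => (zl t - Vb one' (1 / 2) t Y) * (ρ Y / Y))
      ((hi1.const_mul (C₀ * K₁)).add (hi2.const_mul (C₀ * K₂))) (by
        refine (ae_restrict_iff' measurableSet_Ioi).2 (Eventually.of_forall fun Y hY => ?_)
        have hY1 : 1 ≤ Y := le_of_lt hY
        have hY0 : 0 < Y := by linarith
        rw [norm_mul]
        calc ‖zl t - Vb one' (1 / 2) t Y‖ * ‖ρ Y / Y‖ ≤ (K₁ * Y ^ (-e) + K₂ * Y ^ r) *
              (C₀ * (min (Y ^ B / ‖s‖) (‖s‖ * Y ^ (-B)) * Y ^ (-1 : ℝ))) :=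
              mul_le_mul (hV Y hY1) (hρ' Y hY1) (norm_nonneg _) (by positivity)
          _ = C₀ * K₁ * (min (Y ^ B / ‖s‖) (‖s‖ * Y ^ (-B)) * (Y ^ (-e) * Y ^ (-1 : ℝ))) +
              C₀ * K₂ * (min (Y ^ B / ‖s‖) (‖s‖ * Y ^ (-B)) * (Y ^ r * Y ^ (-1 : ℝ))) := by
              ring
          _ = _ := by
            rw [← Real.rpow_add hY0, ← Real.rpow_add hY0]
            rfl)
    refine h2.trans ?_
    have h3 := integral_add (μ := volume.restrict (Ioi (1 : ℝ)))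
      (hi1.const_mul (C₀ * K₁)) (hi2.const_mul (C₀ * K₂))
    refine h3.trans_le ?_
    rw [integral_const_mul, integral_const_mul]
    rw [hA₁, hA₂]
    gcongr
  have hse : ‖s‖ ^ (-e / B) ≤ t ^ (-(e / B)) := by
    rw [neg_div]
    exact Real.rpow_le_rpow_of_nonpos ht0 hst (by
      have : 0 < e / B := by positivity
      linarith)
  have hsr : ‖s‖ ^ (r / B) ≤ 2 ^ (r / B) * t ^ (r / B) := by
    rw [← Real.mul_rpow (by norm_num) ht0.le]
    exact Real.rpow_le_rpow hsn0.le hst' (by positivity)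
  rw [hDl]
  have hz0 : 0 ≤ ‖zl t‖ / t := by positivity
  have hq1 : 0 ≤ K₁ * t ^ (-(e / B)) := by positivity
  have hq2 : 0 ≤ K₂ * t ^ (r / B) := by positivity
  have hP := mul_nonneg hZ₀0 hz0
  calc ‖zl t * (1 - ∫ Y in Ioi (1 : ℝ), ρ Y / Y) +
        (∫ Y in Ioi (1 : ℝ), (zl t - Vb one' (1 / 2) t Y) * (ρ Y / Y)) - c * ∑' n, D n‖
      ≤ C₀ * (‖zl t‖ / t) + (C₀ * K₁ * (A₁ * ‖s‖ ^ (-e / B)) +
        C₀ * K₂ * (A₂ * ‖s‖ ^ (r / B))) + C₀ * Z₀ :=
        (norm_sub_le _ _).trans (add_le_add ((norm_add_le _ _).trans (add_le_add hb1 hb2)) hb3)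
    _ ≤ C₀ * (‖zl t‖ / t) + (C₀ * K₁ * (A₁ * t ^ (-(e / B))) +
        C₀ * K₂ * (A₂ * (2 ^ (r / B) * t ^ (r / B)))) + C₀ * Z₀ := by gcongr
    _ = C₀ * (‖zl t‖ / t + A₁ * (K₁ * t ^ (-(e / B))) +
        (A₂ * 2 ^ (r / B)) * (K₂ * t ^ (r / B)) + Z₀) := by ring
    _ ≤ C₀ * ((1 + Z₀ + A₁ + A₂ * 2 ^ (r / B)) *
        (1 + ‖zl t‖ / t + K₁ * t ^ (-(e / B)) + K₂ * t ^ (r / B))) := by
        refine mul_le_mul_of_nonneg_left ?_ hC₀.le
        obtain ⟨x, hx⟩ : ∃ x, x = ‖zl t‖ / t := ⟨_, rfl⟩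
        obtain ⟨y, hy⟩ : ∃ y, y = K₁ * t ^ (-(e / B)) := ⟨_, rfl⟩
        obtain ⟨z, hz⟩ : ∃ z, z = K₂ * t ^ (r / B) := ⟨_, rfl⟩
        obtain ⟨w, hw⟩ : ∃ w, w = A₂ * 2 ^ (r / B) := ⟨_, rfl⟩
        have hw0 : 0 ≤ w := by rw [hw]; positivity
        rw [← hx, ← hy, ← hz, ← hw]
        rw [← hx] at hz0
        rw [← hy] at hq1
        rw [← hz] at hq2
        nlinarith [mul_nonneg hZ₀0 hz0, mul_nonneg hZ₀0 hq1, mul_nonneg hZ₀0 hq2,
          mul_nonneg hA₁0 hz0, mul_nonneg hA₁0 hq1, mul_nonneg hA₁0 hq2,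
          mul_nonneg hw0 hz0, mul_nonneg hw0 hq1, mul_nonneg hw0 hq2]
    _ = _ := by ring

end Pool.Agent.PertZ
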