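import Pool.Agent.PertZ.Defs5
import Pool.Agent.PertZ.SUPI
import Pool.Agent.PertZ.HP

/-!
# Random perturbations: bound of low-pass sums by the smoothed initial sums (job PZ4-LPS)
-/

set_option autoImplicit false

namespace Pool.Agent.PertZ

open MeasureTheory ProbabilityTheory Set Filter Topology Complex Pool.Agent.CW

lemma LPS_vw_one {n : ℕ} (hn : 1 ≤ n) : vw (Real.log (1 / n)) = 1 / n / 2 := by
  have hn0 : (0 : ℝ) < n := by exact_mod_cast hn
  rcases hn.eq_or_lt with rfl | h2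
  · unfold vw
    norm_num
  · have h3 : (1 : ℝ) < n := by exact_mod_cast h2
    have h4 : Real.log (1 / n) < 0 := Real.log_neg (by positivity) ((div_lt_one hn0).2 h3)
    unfold vw
    rw [if_neg (not_le.2 h4), Real.exp_log (by positivity)]

theorem p_LPS (h : P_REVK) : P_LPS := by
  intro B κ δ r e e' hB hκB hδ hr he0 he1 he0' he1' he he'
  obtain ⟨C₀, hC₀, hrep⟩ := h B κ hB (by linarith)
  have hq1 : 0 < κ - δ + B * e := by linarith
  have hq2 : 0 < κ - r + B * e' := by linarith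
  refine ⟨C₀ * (2 / (κ - δ + B * e) + 2 / (κ - r + B * e') + 2), by positivity, ?_⟩
  intro a t K₁ K₂ ha0 ha1 ht hK₁ hK₂ hV
  have ht0 : 0 < t := by linarith
  obtain ⟨s, hs⟩ : ∃ s : ℂ, s = 1 / 2 + t * I := ⟨_, rfl⟩
  have hs' : (((1 / 2 : ℝ) : ℂ) + t * I) = s := by
    rw [hs]
    push_cast
    ring
  have hsre : s.re = 1 / 2 := by rw [← hs']; simp
  have hsim : s.im = t := by rw [← hs']; simp
  have hst : t ≤ ‖s‖ := by
    calc t = |s.im| := by rw [hsim, abs_of_pos ht0]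
      _ ≤ ‖s‖ := Complex.abs_im_le_norm s
  have hsn : ‖s‖ ≤ 2 * t := by
    calc ‖s‖ ≤ |s.re| + |s.im| := Complex.norm_le_abs_re_add_abs_im s
      _ = 1 / 2 + t := by rw [hsre, hsim, abs_of_pos ht0, abs_of_pos (by norm_num)]
      _ ≤ 2 * t := by linarith
  have hs1 : 1 ≤ ‖s‖ := by linarith
  have hsn0 : 0 < ‖s‖ := by linarith
  rw [← hs]
  obtain ⟨ρ, c, hρc, hc, hρ, hid⟩ := hrep s (by rw [hsre]; norm_num) hs1
  -- the exponent
  obtain ⟨θ, hθ0, hθ1, hθB⟩ : ∃ θ : ℝ, 1 / 2 < θ ∧ θ < 1 ∧ θ < κ + B := by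
    obtain ⟨θ, h1, h2⟩ := exists_between (lt_min hκB (by norm_num : (1 / 2 : ℝ) < 1))
    exact ⟨θ, h1, (lt_min_iff.1 h2).2, (lt_min_iff.1 h2).1⟩
  have hρ' : ∀ Y : ℝ, 1 ≤ Y → ‖ρ Y / Y‖ ≤ C₀ * (Y ^ (-κ - 1) * min 1 (‖s‖ * Y ^ (-B))) := by
    intro Y hY
    have hY0 : 0 < Y := by linarith
    rw [norm_div, Complex.norm_real, Real.norm_of_nonneg hY0.le, div_le_iff₀ hY0]
    refine (hρ Y hY).trans_eq ?_
    rw [Real.rpow_sub_one hY0.ne']
    field_simp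
  -- the functions
  obtain ⟨G, hG⟩ : ∃ G : ℕ → ℝ → ℂ, G = fun n Y =>
    a n * (n : ℂ) ^ (-s) * ((vw (Real.log (Y / n)) : ℝ) : ℂ) := ⟨_, rfl⟩
  have hGb : ∀ n : ℕ, ∀ Y : ℝ, 1 ≤ Y → ‖G n Y‖ ≤ (n : ℝ) ^ (-(1 / 2 + θ)) * Y ^ θ := by
    intro n Y hY
    have hY0 : 0 < Y := by linarith
    rcases Nat.eq_zero_or_pos n with rfl | hn
    · rw [hG]
      simp only [ha0, zero_mul, norm_zero]
      positivity
    · have hn0 : (0 : ℝ) < n := by exact_mod_cast hn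
      rw [hG]
      simp only [norm_mul]
      rw [← hs', SUPI_norm_pow hn, Complex.norm_real, Real.norm_of_nonneg (HP_vw_nonneg _)]
      calc ‖a n‖ * (n : ℝ) ^ (-(1 / 2 : ℝ)) * vw (Real.log (Y / n)) ≤
            1 * (n : ℝ) ^ (-(1 / 2 : ℝ)) * (Y ^ θ * (n : ℝ) ^ (-θ)) := by
            have h1 := HP_vw_log hn0 hY0 (by linarith : 0 ≤ θ) hθ1.le
            have h2 := HP_vw_nonneg (Real.log (Y / n))
            gcongr
            exact ha1 n
        _ = ((n : ℝ) ^ (-(1 / 2 : ℝ)) * (n : ℝ) ^ (-θ)) * Y ^ θ := by ring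
        _ = _ := by
          rw [← Real.rpow_add hn0]
          congr 2
          ring
  have hGm : ∀ n, ContinuousOn (G n) (Ioi 1) := by
    intro n
    rcases Nat.eq_zero_or_pos n with rfl | hn
    · rw [hG]
      simp only [ha0, zero_mul]
      exact continuousOn_const
    · have hn0 : (n : ℝ) ≠ 0 := by exact_mod_cast hn.ne'
      rw [hG]
      refine continuousOn_const.mul (Complex.continuous_ofReal.comp_continuousOn
        (HP_cont_vw.comp_continuousOn (ContinuousOn.log (continuousOn_id.div_const _) ?_)))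
      intro Y hY
      have : (1 : ℝ) < Y := hY
      exact div_ne_zero (by linarith : (0 : ℝ) < Y).ne' hn0
  obtain ⟨F, hF⟩ : ∃ F : ℕ → ℝ → ℂ, F = fun n Y => G n Y * (ρ Y / Y) := ⟨_, rfl⟩
  have hFb : ∀ n : ℕ, ∀ Y : ℝ, 1 ≤ Y → ‖F n Y‖ ≤
      C₀ * ‖s‖ * (n : ℝ) ^ (-(1 / 2 + θ)) * Y ^ (-(κ + B - θ) - 1) := by
    intro n Y hY
    have hY0 : 0 < Y := by linarith
    rw [hF]
    simp only [norm_mul]
    have h3 := hρ' Y hY
    have h4 : min 1 (‖s‖ * Y ^ (-B)) ≤ ‖s‖ * Y ^ (-B) := min_le_right _ _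
    calc ‖G n Y‖ * ‖ρ Y / Y‖
        ≤ ((n : ℝ) ^ (-(1 / 2 + θ)) * Y ^ θ) *
          (C₀ * (Y ^ (-κ - 1) * (‖s‖ * Y ^ (-B)))) := by
          refine mul_le_mul (hGb n Y hY) (h3.trans (by gcongr)) (norm_nonneg _) (by positivity)
      _ = C₀ * ‖s‖ * (n : ℝ) ^ (-(1 / 2 + θ)) *
          (Y ^ θ * Y ^ (-κ - 1) * Y ^ (-B)) := by ring
      _ = _ := by
        rw [← Real.rpow_add hY0, ← Real.rpow_add hY0]
        congr 2
        ring
  have hpw : ∀ p : ℝ, 0 < p → IntegrableOn (fun Y : ℝ => Y ^ (-p - 1)) (Ioi 1) := fun p hp =>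
    HP_pow_int hp
  have hFm : ∀ n, AEStronglyMeasurable (F n) (volume.restrict (Ioi 1)) := by
    intro n
    apply ContinuousOn.aestronglyMeasurable _ measurableSet_Ioi
    rw [hF]
    have h4 : ContinuousOn (fun Y : ℝ => ρ Y / (Y : ℂ)) (Ioi 1) := by
      apply ContinuousOn.div (hρc.mono Ioi_subset_Ici_self)
        Complex.continuous_ofReal.continuousOn
      intro Y hY
      have : (1 : ℝ) < Y := hY
      exact_mod_cast (by linarith : (0 : ℝ) < Y).ne'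
    exact (hGm n).mul h4
  have hFi : ∀ n, Integrable (F n) (volume.restrict (Ioi 1)) := by
    intro n
    refine ((hpw (κ + B - θ) (by linarith)).const_mul
      (C₀ * ‖s‖ * (n : ℝ) ^ (-(1 / 2 + θ)))).mono' (hFm n) ?_
    refine (ae_restrict_iff' measurableSet_Ioi).2 (Eventually.of_forall fun Y hY => ?_)
    exact hFb n Y (le_of_lt hY)
  have hns : Summable fun n : ℕ => (n : ℝ) ^ (-(1 / 2 + θ)) :=
    Real.summable_nat_rpow.2 (by linarith)
  have hFs : Summable fun n => ∫ Y in Ioi (1 : ℝ), ‖F n Y‖ := by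
    refine Summable.of_nonneg_of_le (fun n => integral_nonneg fun Y => norm_nonneg _)
      (fun n => ?_) ((hns.mul_left (C₀ * ‖s‖)).mul_right (1 / (κ + B - θ)))
    rw [← SUPI_int (show 0 < κ + B - θ by linarith), ← integral_const_mul]
    refine setIntegral_mono_on (hFi n).norm ((hpw _ (by linarith)).const_mul _)
      measurableSet_Ioi fun Y hY => hFb n Y (le_of_lt hY)
  have hS := hasSum_integral_of_summable_integral_norm hFi hFs
  have hVb : ∀ Y : ℝ, Vb a (1 / 2) t Y = ∑' n, G n Y := by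
    intro Y
    unfold Vb
    rw [hG, hs']
  have hFV : ∀ Y : ℝ, ∑' n, F n Y = Vb a (1 / 2) t Y * (ρ Y / Y) := by
    intro Y
    rw [hF, hVb]
    simp only
    rw [tsum_mul_right]
  have hG1 : Summable fun n : ℕ => G n 1 := by
    refine Summable.of_norm_bounded hns fun n => ?_
    have h2 := hGb n 1 le_rfl
    rwa [Real.one_rpow, mul_one] at h2
  have hterm : ∀ n : ℕ, a n * (n : ℂ) ^ (-s) * ((((n : ℝ) ^ (-κ) : ℝ) : ℂ) *
      (s / ((((n : ℝ) ^ B : ℝ) : ℂ) + s))) =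
      (∫ Y in Ioi (1 : ℝ), F n Y) + (c * 2) * G n 1 := by
    intro n
    rcases Nat.eq_zero_or_pos n with rfl | hn
    · rw [hF, hG]
      simp [ha0]
    · have h3 : (∫ Y in Ioi (1 : ℝ), F n Y) = a n * (n : ℂ) ^ (-s) *
          ∫ Y in Ioi (1 : ℝ), ((vw (Real.log (Y / n)) / Y : ℝ) : ℂ) * ρ Y := by
        rw [hF, hG, ← integral_const_mul]
        congr 1
        funext Y
        push_cast
        ring
      have h4 : G n 1 = a n * (n : ℂ) ^ (-s) * (1 / n / 2) := by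
        rw [hG]
        simp only
        rw [LPS_vw_one hn]
        push_cast
        rfl
      rw [h3, h4, hid n hn]
      ring
  have hsum : ∑' n : ℕ, a n * (n : ℂ) ^ (-s) * ((((n : ℝ) ^ (-κ) : ℝ) : ℂ) *
      (s / ((((n : ℝ) ^ B : ℝ) : ℂ) + s))) =
      (∫ Y in Ioi (1 : ℝ), Vb a (1 / 2) t Y * (ρ Y / Y)) + (c * 2) * Vb a (1 / 2) t 1 := by
    have h2 := hS.add (hG1.hasSum.mul_left (c * 2))
    simp only [hFV] at h2
    rw [← hVb] at h2
    rw [← h2.tsum_eq]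
    exact tsum_congr hterm
  -- the bounds
  have hb1 : ‖∫ Y in Ioi (1 : ℝ), Vb a (1 / 2) t Y * (ρ Y / Y)‖ ≤
      C₀ * K₁ * ‖s‖ ^ e * (1 / (κ - δ + B * e)) +
      C₀ * K₂ * ‖s‖ ^ e' * (1 / (κ - r + B * e')) := by
    have hi1 := (hpw (κ - δ + B * e) hq1).const_mul (C₀ * K₁ * ‖s‖ ^ e)
    have hi2 := (hpw (κ - r + B * e') hq2).const_mul (C₀ * K₂ * ‖s‖ ^ e')
    have h2 := norm_integral_le_of_norm_le (μ := volume.restrict (Ioi (1 : ℝ)))
      (f := fun Y => Vb a (1 / 2) t Y * (ρ Y / Y)) (hi1.add hi2) (by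
        refine (ae_restrict_iff' measurableSet_Ioi).2 (Eventually.of_forall fun Y hY => ?_)
        have hY1 : 1 ≤ Y := le_of_lt hY
        have hY0 : 0 < Y := by linarith
        have hsY : 0 ≤ ‖s‖ * Y ^ (-B) := by positivity
        have h3 := hρ' Y hY1
        have h4 := hV Y hY1
        have h5 := SUPI_min_one hsY he0 he1
        have h6 := SUPI_min_one hsY he0' he1'
        rw [Real.mul_rpow (norm_nonneg _) (by positivity), ← Real.rpow_mul hY0.le] at h5 h6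
        rw [norm_mul]
        calc ‖Vb a (1 / 2) t Y‖ * ‖ρ Y / Y‖
            ≤ (K₁ * Y ^ δ + K₂ * Y ^ r) *
              (C₀ * (Y ^ (-κ - 1) * min 1 (‖s‖ * Y ^ (-B)))) :=
              mul_le_mul h4 h3 (norm_nonneg _) (by positivity)
          _ = C₀ * K₁ * ((Y ^ δ * Y ^ (-κ - 1)) * min 1 (‖s‖ * Y ^ (-B))) +
              C₀ * K₂ * ((Y ^ r * Y ^ (-κ - 1)) * min 1 (‖s‖ * Y ^ (-B))) := by ring
          _ ≤ C₀ * K₁ * ((Y ^ δ * Y ^ (-κ - 1)) * (‖s‖ ^ e * Y ^ (-B * e))) +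
              C₀ * K₂ * ((Y ^ r * Y ^ (-κ - 1)) * (‖s‖ ^ e' * Y ^ (-B * e'))) := by gcongr
          _ = C₀ * K₁ * ‖s‖ ^ e * (Y ^ δ * Y ^ (-κ - 1) * Y ^ (-B * e)) +
              C₀ * K₂ * ‖s‖ ^ e' * (Y ^ r * Y ^ (-κ - 1) * Y ^ (-B * e')) := by ring
          _ = C₀ * K₁ * ‖s‖ ^ e * Y ^ (-(κ - δ + B * e) - 1) +
              C₀ * K₂ * ‖s‖ ^ e' * Y ^ (-(κ - r + B * e') - 1) := by
            rw [← Real.rpow_add hY0, ← Real.rpow_add hY0, ← Real.rpow_add hY0,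
              ← Real.rpow_add hY0]
            congr 3 <;> ring)
    refine h2.trans_eq ?_
    have h3 := integral_add (μ := volume.restrict (Ioi (1 : ℝ))) hi1 hi2
    refine h3.trans ?_
    rw [integral_const_mul, integral_const_mul, SUPI_int hq1, SUPI_int hq2]
  have hpe : ∀ x : ℝ, 0 ≤ x → x ≤ 1 → ‖s‖ ^ x ≤ 2 * t ^ x := by
    intro x hx0 hx1
    calc ‖s‖ ^ x ≤ (2 * t) ^ x := Real.rpow_le_rpow (norm_nonneg _) hsn hx0
      _ = 2 ^ x * t ^ x := Real.mul_rpow (by norm_num) ht0.le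
      _ ≤ 2 ^ (1 : ℝ) * t ^ x := by
        gcongr
        norm_num
      _ = 2 * t ^ x := by rw [Real.rpow_one]
  have hte : 0 < t ^ e := by positivity
  have hte' : 0 < t ^ e' := by positivity
  have hb2 : ‖(c * 2) * Vb a (1 / 2) t 1‖ ≤ C₀ * 2 * (K₁ * t ^ e + K₂ * t ^ e') := by
    rw [norm_mul, norm_mul]
    have h2 := hV 1 le_rfl
    rw [Real.one_rpow, Real.one_rpow, mul_one, mul_one] at h2
    have h3 : 1 ≤ t ^ e := Real.one_le_rpow ht he0
    have h4 : 1 ≤ t ^ e' := Real.one_le_rpow ht he0'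
    have h5 : K₁ + K₂ ≤ K₁ * t ^ e + K₂ * t ^ e' := by nlinarith
    have h6 : ‖(2 : ℂ)‖ = 2 := by simp
    rw [h6]
    exact mul_le_mul (by linarith) (h2.trans h5) (norm_nonneg _) (by positivity)
  rw [hsum]
  calc ‖(∫ Y in Ioi (1 : ℝ), Vb a (1 / 2) t Y * (ρ Y / Y)) + (c * 2) * Vb a (1 / 2) t 1‖
      ≤ ‖∫ Y in Ioi (1 : ℝ), Vb a (1 / 2) t Y * (ρ Y / Y)‖ +
        ‖(c * 2) * Vb a (1 / 2) t 1‖ := norm_add_le _ _
    _ ≤ (C₀ * K₁ * (2 * t ^ e) * (1 / (κ - δ + B * e)) +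
        C₀ * K₂ * (2 * t ^ e') * (1 / (κ - r + B * e'))) +
        C₀ * 2 * (K₁ * t ^ e + K₂ * t ^ e') := by
        refine add_le_add (hb1.trans ?_) hb2
        gcongr
        · exact hpe e he0 he1
        · exact hpe e' he0' he1'
    _ = C₀ * ((K₁ * t ^ e) * (2 / (κ - δ + B * e)) + (K₂ * t ^ e') * (2 / (κ - r + B * e')) +
        2 * (K₁ * t ^ e + K₂ * t ^ e')) := by ring
    _ ≤ C₀ * ((K₁ * t ^ e + K₂ * t ^ e') * (2 / (κ - δ + B * e)) +
        (K₁ * t ^ e + K₂ * t ^ e') * (2 / (κ - r + B * e')) +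
        2 * (K₁ * t ^ e + K₂ * t ^ e')) := by
        have hq3 : 0 ≤ K₁ * t ^ e := by positivity
        have hq4 : 0 ≤ K₂ * t ^ e' := by positivity
        gcongr <;> linarith
    _ = _ := by ring

end Pool.Agent.PertZ
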