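import Pool.Agent.PertZ.Defs

/-!
# Euler products of perturbed primes
-/

set_option autoImplicit false

namespace Pool.Agent.PertZ

open MeasureTheory ProbabilityTheory Set Filter Topology Complex Pool.Agent.CW

/-- `|exp w - 1| ≤ |w|` in the left half plane -/
theorem PEU_exp_sub_one {w : ℂ} (hw : w.re ≤ 0) : ‖Complex.exp w - 1‖ ≤ ‖w‖ := by
  have hconv : Convex ℝ {z : ℂ | z.re ≤ 0} := convex_halfSpace_re_le 0
  have h := hconv.norm_image_sub_le_of_norm_deriv_le (f := Complex.exp) (C := 1)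
    (fun z _ => Complex.differentiable_exp z)
    (fun z hz => by
      rw [Complex.deriv_exp, Complex.norm_exp]
      exact Real.exp_le_one_iff.mpr hz)
    (show (0 : ℂ) ∈ {z : ℂ | z.re ≤ 0} by simp) (show w ∈ {z : ℂ | z.re ≤ 0} from hw)
  simpa using h

theorem PEU_pert_ge {B : ℝ} {x : ℕ → ℝ} (hx : ∀ n, 0 ≤ x n) (n : ℕ) : (n : ℝ) ≤ pert B x n := by
  unfold pert
  have h1 : (1 : ℝ) ≤ Real.exp (x n * (n : ℝ) ^ (-B)) :=
    Real.one_le_exp (mul_nonneg (hx n) (Real.rpow_nonneg (Nat.cast_nonneg n) _))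
  have h2 : (0 : ℝ) ≤ n := Nat.cast_nonneg n
  nlinarith

/-- the perturbed power -/
theorem PEU_pow {B : ℝ} {x : ℕ → ℝ} {n : ℕ} (hn : 1 ≤ n) (s : ℂ) :
    (pert B x n : ℂ) ^ (-s) =
      (n : ℂ) ^ (-s) * Complex.exp (-(s * ((x n * (n : ℝ) ^ (-B) : ℝ) : ℂ))) := by
  have hn0 : (0 : ℝ) < n := by exact_mod_cast hn
  have hpos : 0 < Real.exp (x n * (n : ℝ) ^ (-B)) := Real.exp_pos _
  unfold pert
  rw [Complex.ofReal_mul, Complex.mul_cpow_ofReal_nonneg hn0.le hpos.le]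
  congr 1
  rw [Complex.cpow_def_of_ne_zero (by exact_mod_cast hpos.ne'), ← Complex.ofReal_log hpos.le,
    Real.log_exp]
  congr 1
  ring

theorem PEU_diff_bound {B : ℝ} {x : ℕ → ℝ} (hx : ∀ n, 0 ≤ x n) {n : ℕ} (hn : 1 ≤ n) {s : ℂ}
    (hs : 0 ≤ s.re) :
    ‖(pert B x n : ℂ) ^ (-s) - (n : ℂ) ^ (-s)‖ ≤ ‖s‖ * (x n * (n : ℝ) ^ (-(s.re + B))) := by
  have hn0 : (0 : ℝ) < n := by exact_mod_cast hn
  rw [PEU_pow hn]
  have h1 : (n : ℂ) ^ (-s) * Complex.exp (-(s * ((x n * (n : ℝ) ^ (-B) : ℝ) : ℂ))) -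
      (n : ℂ) ^ (-s) = (n : ℂ) ^ (-s) *
        (Complex.exp (-(s * ((x n * (n : ℝ) ^ (-B) : ℝ) : ℂ))) - 1) := by ring
  have hy : 0 ≤ x n * (n : ℝ) ^ (-B) := mul_nonneg (hx n) (Real.rpow_nonneg hn0.le _)
  rw [h1, norm_mul, Complex.norm_natCast_cpow_of_pos hn]
  have h2 : ‖Complex.exp (-(s * ((x n * (n : ℝ) ^ (-B) : ℝ) : ℂ))) - 1‖ ≤
      ‖s‖ * (x n * (n : ℝ) ^ (-B)) := by
    refine (PEU_exp_sub_one ?_).trans ?_
    · rw [Complex.neg_re, Complex.re_mul_ofReal]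
      have := mul_nonneg hs hy
      linarith
    · rw [norm_neg, norm_mul, Complex.norm_real, Real.norm_of_nonneg hy]
  have h3 : (0 : ℝ) ≤ (n : ℝ) ^ (-s).re := Real.rpow_nonneg hn0.le _
  calc (n : ℝ) ^ (-s).re * ‖Complex.exp (-(s * ((x n * (n : ℝ) ^ (-B) : ℝ) : ℂ))) - 1‖
      ≤ (n : ℝ) ^ (-s).re * (‖s‖ * (x n * (n : ℝ) ^ (-B))) := mul_le_mul_of_nonneg_left h2 h3
    _ = ‖s‖ * (x n * (n : ℝ) ^ (-(s.re + B))) := by
        rw [show -(s.re + B) = (-s).re + (-B) by simp; ring, Real.rpow_add hn0]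
        ring

/-- the sum of differences: bound of the terms -/
theorem PEU_term {B : ℝ} {x : ℕ → ℝ} (hx : ∀ n, 0 ≤ x n) {σ : ℝ} (n : ℕ) {s : ℂ}
    (h0 : 0 ≤ σ) (hs : σ ≤ s.re) :
    ‖pr n * ((pert B x n : ℂ) ^ (-s) - (n : ℂ) ^ (-s))‖ ≤ ‖s‖ * (x n * (n : ℝ) ^ (-(σ + B))) := by
  have hnn : 0 ≤ ‖s‖ * (x n * (n : ℝ) ^ (-(σ + B))) :=
    mul_nonneg (norm_nonneg _) (mul_nonneg (hx n) (Real.rpow_nonneg (Nat.cast_nonneg n) _))
  unfold pr
  split_ifs with h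
  · rw [one_mul]
    have hn : 1 ≤ n := h.one_lt.le
    refine (PEU_diff_bound hx hn (h0.trans hs)).trans ?_
    refine mul_le_mul_of_nonneg_left ?_ (norm_nonneg _)
    refine mul_le_mul_of_nonneg_left ?_ (hx n)
    exact Real.rpow_le_rpow_of_exponent_le (by exact_mod_cast hn) (by linarith)
  · rw [zero_mul, norm_zero]
    exact hnn

/-- the logarithmic remainders over the primes for a sequence `L p ≥ p` -/
noncomputable def PEU_q (L : ℕ → ℝ) (s : ℂ) : ℂ :=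
  ∑' p : Nat.Primes, (-Complex.log (1 - (L p : ℂ) ^ (-s)) - (L p : ℂ) ^ (-s))

theorem PEU_norm_pow {L : ℕ → ℝ} (hL : ∀ n : ℕ, (n : ℝ) ≤ L n) (p : Nat.Primes) {σ : ℝ} {s : ℂ}
    (h0 : 0 ≤ σ) (hs : σ ≤ s.re) : ‖(L p : ℂ) ^ (-s)‖ ≤ (p : ℝ) ^ (-σ) := by
  have hp : (1 : ℝ) < (p : ℕ) := by exact_mod_cast p.2.one_lt
  have hLp : (p : ℝ) ≤ L p := hL p
  have hL0 : 0 < L p := by linarith
  rw [Complex.norm_cpow_eq_rpow_re_of_pos hL0]
  calc (L p) ^ (-s).re ≤ (L p) ^ (-σ) :=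
        Real.rpow_le_rpow_of_exponent_le (by linarith) (by rw [Complex.neg_re]; linarith)
    _ ≤ (p : ℝ) ^ (-σ) := Real.rpow_le_rpow_of_nonpos (by linarith) hLp (by linarith)

theorem PEU_small {L : ℕ → ℝ} (hL : ∀ n : ℕ, (n : ℝ) ≤ L n) (p : Nat.Primes) {s : ℂ}
    (hs : 1 / 2 ≤ s.re) : ‖(L p : ℂ) ^ (-s)‖ ≤ 3 / 4 := by
  refine (PEU_norm_pow hL p (by norm_num : (0 : ℝ) ≤ 1 / 2) hs).trans ?_
  have hp : (2 : ℝ) ≤ (p : ℕ) := by exact_mod_cast p.2.two_le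
  have h1 : (p : ℝ) ^ (-(1 / 2) : ℝ) ≤ (2 : ℝ) ^ (-(1 / 2) : ℝ) :=
    Real.rpow_le_rpow_of_nonpos (by norm_num) hp (by norm_num)
  refine h1.trans ?_
  rw [Real.rpow_neg (by norm_num), ← Real.sqrt_eq_rpow]
  have h2 : (4 / 3 : ℝ) ≤ Real.sqrt 2 := by
    apply Real.le_sqrt_of_sq_le
    norm_num
  calc (Real.sqrt 2)⁻¹ ≤ (4 / 3 : ℝ)⁻¹ := inv_anti₀ (by norm_num) h2
    _ = 3 / 4 := by norm_num

theorem PEU_q_term {L : ℕ → ℝ} (hL : ∀ n : ℕ, (n : ℝ) ≤ L n) (p : Nat.Primes) {σ : ℝ} {s : ℂ}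
    (h0 : 1 / 2 ≤ σ) (hs : σ ≤ s.re) :
    ‖-Complex.log (1 - (L p : ℂ) ^ (-s)) - (L p : ℂ) ^ (-s)‖ ≤ 2 * (p : ℝ) ^ (-(2 * σ)) := by
  set z : ℂ := (L p : ℂ) ^ (-s) with hz
  have h1 : ‖z‖ ≤ 3 / 4 := PEU_small hL p (h0.trans hs)
  have h2 : ‖z‖ ≤ (p : ℝ) ^ (-σ) := PEU_norm_pow hL p (by linarith) hs
  have h3 : ‖-z‖ < 1 := by rw [norm_neg]; linarith
  have h4 := Complex.norm_log_one_add_sub_self_le h3
  have h5 : -Complex.log (1 - z) - z = -(Complex.log (1 + -z) - -z) := by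
    rw [← sub_eq_add_neg]; ring
  rw [h5, norm_neg]
  refine h4.trans ?_
  rw [norm_neg]
  have h6 : (1 - ‖z‖)⁻¹ ≤ 4 := by
    rw [inv_le_comm₀ (by linarith) (by norm_num)]
    linarith
  have h7 : ‖z‖ ^ 2 ≤ ((p : ℝ) ^ (-σ)) ^ 2 := pow_le_pow_left₀ (norm_nonneg _) h2 2
  have h8 : ((p : ℝ) ^ (-σ)) ^ 2 = (p : ℝ) ^ (-(2 * σ)) := by
    rw [← Real.rpow_natCast, ← Real.rpow_mul (Nat.cast_nonneg _)]
    congr 1
    push_cast
    ring
  calc ‖z‖ ^ 2 * (1 - ‖z‖)⁻¹ / 2 ≤ ‖z‖ ^ 2 * 4 / 2 := by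
        have := mul_le_mul_of_nonneg_left h6 (sq_nonneg ‖z‖)
        linarith
    _ = 2 * ‖z‖ ^ 2 := by ring
    _ ≤ 2 * (p : ℝ) ^ (-(2 * σ)) := by rw [← h8]; linarith

theorem PEU_sum2 {σ : ℝ} (hσ : 1 / 2 < σ) :
    Summable (fun p : Nat.Primes => 2 * (p : ℝ) ^ (-(2 * σ))) :=
  (Nat.Primes.summable_rpow.mpr (by linarith)).mul_left 2

theorem PEU_q_summable {L : ℕ → ℝ} (hL : ∀ n : ℕ, (n : ℝ) ≤ L n) {s : ℂ} (hs : 1 / 2 < s.re) :
    Summable (fun p : Nat.Primes =>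
      (-Complex.log (1 - (L p : ℂ) ^ (-s)) - (L p : ℂ) ^ (-s))) :=
  Summable.of_norm_bounded (PEU_sum2 hs) (fun p => PEU_q_term hL p hs.le le_rfl)

theorem PEU_q_bound {L : ℕ → ℝ} (hL : ∀ n : ℕ, (n : ℝ) ≤ L n) {σ : ℝ} (hσ : 1 / 2 < σ) :
    ∃ C : ℝ, ∀ s : ℂ, σ ≤ s.re → ‖PEU_q L s‖ ≤ C := by
  refine ⟨∑' p : Nat.Primes, 2 * (p : ℝ) ^ (-(2 * σ)), fun s hs => ?_⟩
  exact tsum_of_norm_bounded (PEU_sum2 hσ).hasSum (fun p => PEU_q_term hL p hσ.le hs)

theorem PEU_q_diff {L : ℕ → ℝ} (hL : ∀ n : ℕ, (n : ℝ) ≤ L n) {s : ℂ} (hs : 1 / 2 < s.re) :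
    DifferentiableAt ℂ (PEU_q L) s := by
  obtain ⟨σ, h1, h2⟩ := exists_between hs
  have hU : IsOpen {z : ℂ | σ < z.re} := isOpen_lt continuous_const Complex.continuous_re
  have hd : DifferentiableOn ℂ (PEU_q L) {z : ℂ | σ < z.re} := by
    refine differentiableOn_tsum_of_summable_norm (PEU_sum2 h1) ?_ hU ?_
    · intro p z hz
      have hz' : 1 / 2 ≤ z.re := (h1.trans hz).le
      have hp : (1 : ℝ) < (p : ℕ) := by exact_mod_cast p.2.one_lt
      have hLp : (p : ℝ) ≤ L p := hL p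
      have hL0 : (L p : ℂ) ≠ 0 := by
        have : L p ≠ 0 := by linarith
        exact_mod_cast this
      have hc : DifferentiableAt ℂ (fun w : ℂ => (L p : ℂ) ^ (-w)) z :=
        (differentiableAt_id.neg).const_cpow (Or.inl hL0)
      have hsl : 1 - (L p : ℂ) ^ (-z) ∈ Complex.slitPlane := by
        rw [Complex.mem_slitPlane_iff]
        left
        have h3 : ‖(L p : ℂ) ^ (-z)‖ ≤ 3 / 4 := PEU_small hL p hz'
        have h4 : ((L p : ℂ) ^ (-z)).re ≤ ‖(L p : ℂ) ^ (-z)‖ := Complex.re_le_norm _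
        rw [Complex.sub_re, Complex.one_re]
        linarith
      exact ((((differentiableAt_const _).sub hc).clog hsl).neg.sub hc).differentiableWithinAt
    · intro p z hz
      exact PEU_q_term hL p h1.le (le_of_lt hz)
  exact hd.differentiableAt (hU.mem_nhds h2)

/-- the sum of the differences is analytic -/
theorem PEU_D_diff {B : ℝ} {x : ℕ → ℝ} (hx : ∀ n, 0 ≤ x n)
    (hsum : ∀ σ : ℝ, 1 / 2 < σ → Summable (fun n : ℕ => x n * (n : ℝ) ^ (-(σ + B))))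
    {s : ℂ} (hs : 1 / 2 < s.re) :
    DifferentiableAt ℂ
      (fun s : ℂ => ∑' n : ℕ, pr n * ((pert B x n : ℂ) ^ (-s) - (n : ℂ) ^ (-s))) s := by
  obtain ⟨σ, h1, h2⟩ := exists_between hs
  have hU : IsOpen ({z : ℂ | σ < z.re} ∩ Metric.ball 0 (‖s‖ + 1)) :=
    (isOpen_lt continuous_const Complex.continuous_re).inter Metric.isOpen_ball
  have hd : DifferentiableOn ℂ
      (fun s : ℂ => ∑' n : ℕ, pr n * ((pert B x n : ℂ) ^ (-s) - (n : ℂ) ^ (-s)))
      ({z : ℂ | σ < z.re} ∩ Metric.ball 0 (‖s‖ + 1)) := by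
    refine differentiableOn_tsum_of_summable_norm ((hsum σ h1).mul_left (‖s‖ + 1)) ?_ hU ?_
    · intro n z hz
      by_cases hn : n.Prime
      · have hn0 : (n : ℂ) ≠ 0 := by exact_mod_cast hn.ne_zero
        have hp0 : (pert B x n : ℂ) ≠ 0 := by
          have h3 := PEU_pert_ge (B := B) hx n
          have h4 : (0 : ℝ) < n := by exact_mod_cast hn.pos
          have : pert B x n ≠ 0 := by linarith
          exact_mod_cast this
        have hc1 : DifferentiableAt ℂ (fun w : ℂ => (pert B x n : ℂ) ^ (-w)) z :=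
          (differentiableAt_id.neg).const_cpow (Or.inl hp0)
        have hc2 : DifferentiableAt ℂ (fun w : ℂ => (n : ℂ) ^ (-w)) z :=
          (differentiableAt_id.neg).const_cpow (Or.inl hn0)
        exact ((hc1.sub hc2).const_mul (pr n)).differentiableWithinAt
      · have : pr n = 0 := by unfold pr; rw [if_neg hn]
        simp only [this, zero_mul]
        exact differentiableWithinAt_const _
    · intro n z hz
      have hz1 : σ ≤ z.re := le_of_lt hz.1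
      have hz2 : ‖z‖ ≤ ‖s‖ + 1 := by
        have := hz.2
        rw [Metric.mem_ball, dist_zero_right] at this
        exact this.le
      refine (PEU_term hx n (by linarith) hz1).trans ?_
      exact mul_le_mul_of_nonneg_right hz2
        (mul_nonneg (hx n) (Real.rpow_nonneg (Nat.cast_nonneg n) _))
  refine hd.differentiableAt (hU.mem_nhds ⟨h2, ?_⟩)
  rw [Metric.mem_ball, dist_zero_right]
  linarith

/-- the punctured half plane is preconnected -/
theorem PEU_conn : IsPreconnected {s : ℂ | 1 / 2 < s.re ∧ s ≠ 1} := by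
  have hR : IsPreconnected {s : ℂ | 1 < s.re} := (convex_halfSpace_re_gt 1).isPreconnected
  have hUp : IsPreconnected ({s : ℂ | 1 / 2 < s.re} ∩ {s : ℂ | 0 < s.im}) :=
    ((convex_halfSpace_re_gt (1 / 2)).inter (convex_halfSpace_im_gt 0)).isPreconnected
  have hDn : IsPreconnected ({s : ℂ | 1 / 2 < s.re} ∩ {s : ℂ | s.im < 0}) :=
    ((convex_halfSpace_re_gt (1 / 2)).inter (convex_halfSpace_im_lt 0)).isPreconnected
  have hLf : IsPreconnected ({s : ℂ | 1 / 2 < s.re} ∩ {s : ℂ | s.re < 1}) :=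
    ((convex_halfSpace_re_gt (1 / 2)).inter (convex_halfSpace_re_lt 1)).isPreconnected
  have h1 : IsPreconnected ({s : ℂ | 1 < s.re} ∪
      ({s : ℂ | 1 / 2 < s.re} ∩ {s : ℂ | 0 < s.im})) := by
    refine hR.union (2 + I) ?_ ?_ hUp
    · simp
    · constructor
      · simp; norm_num
      · simp
  have h2 : IsPreconnected (({s : ℂ | 1 < s.re} ∪
      ({s : ℂ | 1 / 2 < s.re} ∩ {s : ℂ | 0 < s.im})) ∪
      ({s : ℂ | 1 / 2 < s.re} ∩ {s : ℂ | s.im < 0})) := by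
    refine h1.union (2 - I) ?_ ?_ hDn
    · left; simp
    · constructor
      · simp; norm_num
      · simp
  have h3 : IsPreconnected ((({s : ℂ | 1 < s.re} ∪
      ({s : ℂ | 1 / 2 < s.re} ∩ {s : ℂ | 0 < s.im})) ∪
      ({s : ℂ | 1 / 2 < s.re} ∩ {s : ℂ | s.im < 0})) ∪
      ({s : ℂ | 1 / 2 < s.re} ∩ {s : ℂ | s.re < 1})) := by
    refine h2.union ((3 / 4 : ℝ) + I) ?_ ?_ hLf
    · left; right
      constructor
      · simp; norm_num
      · simp
    · constructor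
      · simp; norm_num
      · simp; norm_num
  convert h3 using 1
  ext s
  simp only [Set.mem_ofPred_eq, mem_union, mem_inter_iff]
  constructor
  · rintro ⟨ha, hb⟩
    rcases lt_trichotomy s.im 0 with h | h | h
    · left; right; exact ⟨ha, h⟩
    · rcases lt_trichotomy s.re 1 with h' | h' | h'
      · right; exact ⟨ha, h'⟩
      · exact absurd (Complex.ext (by simpa using h') (by simpa using h)) hb
      · left; left; left; exact h'
    · left; left; right; exact ⟨ha, h⟩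
  · rintro (((h | h) | h) | h)
    · refine ⟨by linarith, fun h' => ?_⟩
      rw [h'] at h; simp at h
    · refine ⟨h.1, fun h' => ?_⟩
      have := h.2; rw [h'] at this; simp at this
    · refine ⟨h.1, fun h' => ?_⟩
      have := h.2; rw [h'] at this; simp at this
    · refine ⟨h.1, fun h' => ?_⟩
      have := h.2; rw [h'] at this; simp at this

/-- sums over the naturals and over the primes -/
theorem PEU_primes {f : ℕ → ℂ} {a : ℂ} (h : HasSum (fun n : ℕ => pr n * f n) a) :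
    HasSum (fun p : Nat.Primes => f p) a := by
  have h1 : Function.Injective (fun p : Nat.Primes => (p : ℕ)) := Nat.Primes.coe_nat_injective
  have h2 : HasSum ((fun n : ℕ => pr n * f n) ∘ fun p : Nat.Primes => (p : ℕ)) a := by
    rw [h1.hasSum_iff]
    · exact h
    · intro n hn
      have : ¬ n.Prime := fun hp => hn ⟨⟨n, hp⟩, rfl⟩
      unfold pr
      rw [if_neg this, zero_mul]
  convert h2 using 1
  funext p
  simp only [Function.comp]
  unfold pr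
  rw [if_pos p.2, one_mul]

theorem p_PEU (hQ : P_PQ2) : P_PEU := by
  intro B x hB hx hsum
  have hq2 : ∀ s : ℂ, q2 s = PEU_q (fun n => (n : ℝ)) s := by
    intro s
    unfold q2 PEU_q
    simp
  have hLn : ∀ n : ℕ, (n : ℝ) ≤ (fun n : ℕ => (n : ℝ)) n := fun n => le_rfl
  have hLp : ∀ n : ℕ, (n : ℝ) ≤ pert B x n := fun n => PEU_pert_ge hx n
  set D : ℂ → ℂ := fun s => ∑' n : ℕ, pr n * ((pert B x n : ℂ) ^ (-s) - (n : ℂ) ^ (-s)) with hD
  set q3 : ℂ → ℂ := PEU_q (pert B x) with hq3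
  have hS1 : ∀ s : ℂ, 1 / 2 < s.re →
      Summable (fun n : ℕ => pr n * ((pert B x n : ℂ) ^ (-s) - (n : ℂ) ^ (-s))) := by
    intro s hs
    exact Summable.of_norm_bounded ((hsum s.re hs).mul_left ‖s‖)
      (fun n => PEU_term hx n (by linarith) le_rfl)
  refine ⟨hS1, ?_⟩
  set Z : ℂ → ℂ := fun s => riemannZeta s * Complex.exp (D s + q3 s - q2 s) with hZ
  have hq2d : ∀ s : ℂ, 1 / 2 < s.re → DifferentiableAt ℂ q2 s := by
    intro s hs
    have : q2 = PEU_q (fun n => (n : ℝ)) := funext hq2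
    rw [this]
    exact PEU_q_diff hLn hs
  have hZd : DifferentiableOn ℂ Z {s : ℂ | 1 / 2 < s.re ∧ s ≠ 1} := by
    intro s hs
    refine DifferentiableAt.differentiableWithinAt ?_
    exact (differentiableAt_riemannZeta hs.2).mul
      (((PEU_D_diff hx hsum hs.1).add (PEU_q_diff hLp hs.1)).sub (hq2d s hs.1)).cexp
  have hZp : ∀ s : ℂ, 1 < s.re →
      HasProd (fun p : Nat.Primes => (1 - (pert B x p : ℂ) ^ (-s))⁻¹) (Z s) := by
    intro s hs
    have hs' : 1 / 2 < s.re := by linarith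
    obtain ⟨hsm, hze⟩ := hQ.2.2 s hs
    have e1 : HasSum (fun n : ℕ => pr n * (n : ℂ) ^ (-s)) (∑' n : ℕ, pr n * (n : ℂ) ^ (-s)) :=
      hsm.hasSum
    have e2 : HasSum (fun n : ℕ => pr n * ((pert B x n : ℂ) ^ (-s) - (n : ℂ) ^ (-s))) (D s) :=
      (hS1 s hs').hasSum
    have e3 : HasSum (fun n : ℕ => pr n * (pert B x n : ℂ) ^ (-s))
        (D s + ∑' n : ℕ, pr n * (n : ℂ) ^ (-s)) := by
      convert e2.add e1 using 1
      funext n
      ring
    have e4 := PEU_primes e3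
    have e5 : HasSum (fun p : Nat.Primes =>
        (-Complex.log (1 - (pert B x p : ℂ) ^ (-s)) - (pert B x p : ℂ) ^ (-s))) (q3 s) :=
      (PEU_q_summable hLp hs').hasSum
    have e6 : HasSum (fun p : Nat.Primes => -Complex.log (1 - (pert B x p : ℂ) ^ (-s)))
        (q3 s + (D s + ∑' n : ℕ, pr n * (n : ℂ) ^ (-s))) := by
      convert e5.add e4 using 1
      funext p
      ring
    have e7 := e6.cexp
    convert e7 using 1
    · funext p
      simp only [Function.comp]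
      rw [Complex.exp_neg, Complex.exp_log]
      intro h0
      have h3 : ‖(pert B x p : ℂ) ^ (-s)‖ ≤ 3 / 4 := PEU_small hLp p hs'.le
      have h4 : (pert B x p : ℂ) ^ (-s) = 1 := (sub_eq_zero.mp h0).symm
      rw [h4] at h3
      norm_num at h3
    · simp only [hZ]
      rw [hze, ← Complex.exp_add]
      congr 1
      ring
  refine ⟨Z, hZd, hZp, ?_, ?_⟩
  · intro Z' hZ'd hZ'p s hs1 hs2
    have hU : IsOpen {s : ℂ | 1 / 2 < s.re ∧ s ≠ 1} :=
      (isOpen_lt continuous_const Complex.continuous_re).inter isOpen_ne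
    have hA1 : AnalyticOnNhd ℂ Z' {s : ℂ | 1 / 2 < s.re ∧ s ≠ 1} := hZ'd.analyticOnNhd hU
    have hA2 : AnalyticOnNhd ℂ Z {s : ℂ | 1 / 2 < s.re ∧ s ≠ 1} := hZd.analyticOnNhd hU
    have h2 : (2 : ℂ) ∈ {s : ℂ | 1 / 2 < s.re ∧ s ≠ 1} := by
      constructor
      · norm_num
      · norm_num
    have hev : Z' =ᶠ[𝓝 2] Z := by
      have hV : IsOpen {s : ℂ | 1 < s.re} := isOpen_lt continuous_const Complex.continuous_re
      filter_upwards [hV.mem_nhds (show (2 : ℂ) ∈ {s : ℂ | 1 < s.re} by simp)] with w hw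
      exact (hZ'p w hw).unique (hZp w hw)
    exact hA1.eqOn_of_preconnected_of_eventuallyEq hA2 PEU_conn h2 hev ⟨hs1, hs2⟩
  · intro σ hσ
    obtain ⟨C1, hC1⟩ := PEU_q_bound hLp hσ
    obtain ⟨C2, hC2⟩ := hQ.2.1 σ hσ
    refine ⟨Real.exp (C1 + C2), Real.exp_pos _, fun s hs _ => ?_⟩
    have h1 : ‖q3 s - q2 s‖ ≤ C1 + C2 :=
      (norm_sub_le _ _).trans (add_le_add (hC1 s hs) (hC2 s hs))
    have h2 : Z s = (riemannZeta s * Complex.exp (D s)) * Complex.exp (q3 s - q2 s) := by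
      simp only [hZ]
      rw [mul_assoc, ← Complex.exp_add]
      congr 2
      ring
    have h3 : riemannZeta s * Complex.exp (D s) = Z s * Complex.exp (-(q3 s - q2 s)) := by
      rw [h2, mul_assoc, ← Complex.exp_add]
      simp
    have h4 : ‖Complex.exp (q3 s - q2 s)‖ ≤ Real.exp (C1 + C2) := by
      rw [Complex.norm_exp]
      exact Real.exp_le_exp.mpr ((Complex.re_le_norm _).trans h1)
    have h5 : ‖Complex.exp (-(q3 s - q2 s))‖ ≤ Real.exp (C1 + C2) := by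
      rw [Complex.norm_exp]
      refine Real.exp_le_exp.mpr ((Complex.re_le_norm _).trans ?_)
      rw [norm_neg]
      exact h1
    constructor
    · calc ‖Z s‖ = ‖riemannZeta s * Complex.exp (D s)‖ * ‖Complex.exp (q3 s - q2 s)‖ := by
            rw [h2, norm_mul]
        _ ≤ ‖riemannZeta s * Complex.exp (D s)‖ * Real.exp (C1 + C2) :=
            mul_le_mul_of_nonneg_left h4 (norm_nonneg _)
        _ = Real.exp (C1 + C2) * ‖riemannZeta s * Complex.exp (D s)‖ := by ring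
    · calc ‖riemannZeta s * Complex.exp (D s)‖ = ‖Z s‖ * ‖Complex.exp (-(q3 s - q2 s))‖ := by
            rw [h3, norm_mul]
        _ ≤ ‖Z s‖ * Real.exp (C1 + C2) := mul_le_mul_of_nonneg_left h5 (norm_nonneg _)
        _ = Real.exp (C1 + C2) * ‖Z s‖ := by ring

end Pool.Agent.PertZ
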