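import Pool.Agent.PertZ.Defs
import Pool.Agent.SelCR.Log

/-!
# Block PLOG: the logarithm of zeta in a half plane with few zeros
-/

set_option autoImplicit false

namespace Pool.Agent.PertZ

open MeasureTheory ProbabilityTheory Set Filter Topology Complex Pool.Agent.CW

/-- Borel and Carathéodory in a disc about `c` -/
lemma PLOG_bc {f : ℂ → ℂ} {c z : ℂ} {R r M : ℝ} (hr : 0 ≤ r) (hrR : r < R) (hM : 0 < M)
    (hf : DifferentiableOn ℂ f (Metric.ball c R)) (hre : ∀ w ∈ Metric.ball c R, (f w).re ≤ M)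
    (hz : ‖z - c‖ ≤ r) : ‖f z‖ ≤ 2 * M * r / (R - r) + ‖f c‖ * (R + r) / (R - r) := by
  have hball : ∀ w ∈ Metric.ball (0 : ℂ) R, c + w ∈ Metric.ball c R := by
    intro w hw
    rw [mem_ball_zero_iff] at hw
    rw [mem_ball_iff_norm]
    simpa using hw
  have h1 := borelCaratheodory (f := fun w => f (c + w)) (R := R) (z := z - c) hM
    (hf.comp (by fun_prop) hball)
    (fun w hw => hre _ (hball w hw)) (by linarith)
    (by rw [mem_ball_zero_iff]; linarith)
  simp only [add_sub_cancel, add_zero] at h1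
  refine h1.trans ?_
  have h2 : 0 < R - r := by linarith
  have h3 : 0 < R - ‖z - c‖ := by linarith
  have h4 : 0 ≤ ‖f c‖ * (R + r) := mul_nonneg (norm_nonneg _) (by linarith)
  gcongr

lemma PLOG_lseries (z : ℂ) : ∑' n : ℕ, pr n * (n : ℂ) ^ (-z) = LSeries pr z := by
  unfold LSeries
  congr 1
  funext n
  rcases eq_or_ne n 0 with rfl | hn
  · simp [pr, Nat.not_prime_zero]
  · rw [LSeries.term_of_ne_zero hn, Complex.cpow_neg]
    rfl

lemma PLOG_pr_le (n : ℕ) : ‖pr n‖ ≤ 1 := by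
  unfold pr
  split_ifs <;> simp

lemma PLOG_diff {z : ℂ} (hz : 1 < z.re) :
    DifferentiableAt ℂ (fun z => ∑' n : ℕ, pr n * (n : ℂ) ^ (-z)) z := by
  have h : (fun z => ∑' n : ℕ, pr n * (n : ℂ) ^ (-z)) = LSeries pr := funext PLOG_lseries
  rw [h]
  have h1 : LSeries.abscissaOfAbsConv pr ≤ 1 :=
    LSeries.abscissaOfAbsConv_le_of_le_const ⟨1, fun n _ => PLOG_pr_le n⟩
  have h2 := LSeries_analyticOnNhd pr
  refine (h2 z ?_).differentiableAt
  show LSeries.abscissaOfAbsConv pr < (z.re : EReal)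
  exact h1.trans_lt (by exact_mod_cast hz)

lemma PLOG_norm_le : ∃ K : ℝ, 0 ≤ K ∧ ∀ z : ℂ, 3 / 2 ≤ z.re →
    ‖∑' n : ℕ, pr n * (n : ℂ) ^ (-z)‖ ≤ K := by
  have hs : Summable (fun n : ℕ => (n : ℝ) ^ (-(3 / 2 : ℝ))) :=
    Real.summable_nat_rpow.mpr (by norm_num)
  refine ⟨∑' n : ℕ, (n : ℝ) ^ (-(3 / 2 : ℝ)), tsum_nonneg fun n => by positivity, ?_⟩
  intro z hz
  refine tsum_of_norm_bounded hs.hasSum ?_
  intro n
  rcases eq_or_ne n 0 with rfl | hn
  · simp [pr, Nat.not_prime_zero]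
  · rw [norm_mul, Complex.norm_natCast_cpow_of_pos (Nat.pos_of_ne_zero hn)]
    have h1 : (1 : ℝ) ≤ n := by exact_mod_cast Nat.one_le_iff_ne_zero.mpr hn
    have h2 : (n : ℝ) ^ (-z).re ≤ (n : ℝ) ^ (-(3 / 2 : ℝ)) := by
      apply Real.rpow_le_rpow_of_exponent_le h1
      rw [Complex.neg_re]
      linarith
    calc ‖pr n‖ * (n : ℝ) ^ (-z).re ≤ 1 * (n : ℝ) ^ (-z).re := by
          gcongr
          exact PLOG_pr_le n
      _ ≤ _ := by rw [one_mul]; exact h2

/-- PLOG -/
theorem p_PLOG (hQ : P_PQ2) (hZ : P_ZST) : P_PLOG := by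
  intro hF σ₀ hσ₀
  suffices H : ∀ σ : ℝ, 1 / 2 < σ → σ ≤ 1 → ∃ (T₀ C : ℝ) (f : ℂ → ℂ), 2 ≤ T₀ ∧
      (∀ z : ℂ, σ ≤ z.re → T₀ ≤ z.im → AnalyticAt ℂ f z ∧
        riemannZeta z = Complex.exp (f z + q2 z) ∧ ‖f z‖ ≤ C * Real.log z.im) ∧
      ∀ z : ℂ, 1 < z.re → T₀ ≤ z.im → f z = ∑' n : ℕ, pr n * (n : ℂ) ^ (-z) by
    obtain ⟨T₀, C, f, h1, h2, h3⟩ := H (min σ₀ 1) (lt_min hσ₀ (by norm_num)) (min_le_right _ _)
    exact ⟨T₀, C, f, h1, fun z hz => h2 z ((min_le_left _ _).trans hz), h3⟩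
  intro σ hσ hσ1
  obtain ⟨hQ1, hQ2, hQ3⟩ := hQ
  obtain ⟨s1, hs1, hs1σ⟩ : ∃ s1 : ℝ, 1 / 2 < s1 ∧ s1 < σ :=
    ⟨(1 / 2 + σ) / 2, by linarith, by linarith⟩
  obtain ⟨T1, hT2, hT1⟩ : ∃ T1 : ℝ, 2 ≤ T1 ∧ ∀ z, riemannZeta z = 0 → s1 < z.re → z.im ≤ T1 := by
    obtain ⟨M, hM⟩ := ((hF s1 hs1).image Complex.im).bddAbove
    exact ⟨max 2 M, le_max_left _ _, fun z h1 h2 =>
      (hM ⟨z, ⟨h1, h2⟩, rfl⟩).trans (le_max_right _ _)⟩
  set U : Set ℂ := {z | s1 < z.re ∧ T1 < z.im} with hU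
  have hUo : IsOpen U :=
    (isOpen_lt continuous_const continuous_re).inter (isOpen_lt continuous_const continuous_im)
  have hUc : Convex ℝ U := (convex_halfSpace_re_gt s1).inter (convex_halfSpace_im_gt T1)
  have hUne : U.Nonempty := ⟨⟨s1 + 1, T1 + 1⟩, by simp [hU]⟩
  have hne1 : ∀ z ∈ U, z ≠ 1 := by
    rintro z hz rfl
    have := hz.2
    rw [Complex.one_im] at this
    linarith
  have hzan : AnalyticOnNhd ℂ riemannZeta U := by
    refine DifferentiableOn.analyticOnNhd ?_ hUo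
    intro z hz
    exact (differentiableAt_riemannZeta (hne1 z hz)).differentiableWithinAt
  have hz0 : ∀ z ∈ U, riemannZeta z ≠ 0 := fun z hz h => absurd (hT1 z h hz.1) (not_le.mpr hz.2)
  obtain ⟨g, hg, hge⟩ := Pool.Agent.SelCR.exists_log hUo hUc hUne hzan hz0
  -- the constant
  obtain ⟨c, hc⟩ : ∃ c : ℂ, ∀ z : ℂ, 1 < z.re → T1 < z.im →
      g z = (∑' n : ℕ, pr n * (n : ℂ) ^ (-z)) + q2 z + c := by
    set V : Set ℂ := {z | 1 < z.re ∧ T1 < z.im} with hV
    have hVo : IsOpen V :=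
      (isOpen_lt continuous_const continuous_re).inter (isOpen_lt continuous_const continuous_im)
    have hVc : Convex ℝ V := (convex_halfSpace_re_gt 1).inter (convex_halfSpace_im_gt T1)
    have hVU : V ⊆ U := fun z hz => ⟨by have := hz.1; linarith, hz.2⟩
    set h : ℂ → ℂ := fun z => g z - ((∑' n : ℕ, pr n * (n : ℂ) ^ (-z)) + q2 z) with hh
    have hd : ∀ z ∈ V, DifferentiableAt ℂ h z := by
      intro z hz
      have h1 := (hg z (hVU hz)).differentiableAt
      have h2 := PLOG_diff hz.1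
      have h3 := (hQ1 z (by have := hz.1; linarith)).differentiableAt
      exact h1.sub (h2.add h3)
    have he : ∀ z ∈ V, Complex.exp (h z) = 1 := by
      intro z hz
      rw [hh]
      simp only
      rw [Complex.exp_sub, hge z (hVU hz), ← (hQ3 z hz.1).2]
      exact div_self (hz0 z (hVU hz))
    have hder : V.EqOn (deriv h) 0 := by
      intro z hz
      have h1 : (fun w => Complex.exp (h w)) =ᶠ[𝓝 z] fun _ => (1 : ℂ) := by
        filter_upwards [hVo.mem_nhds hz] with w hw using he w hw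
      have h2 := h1.deriv_eq
      rw [deriv_const] at h2
      have h3 := ((hd z hz).hasDerivAt.cexp).deriv
      rw [h2, he z hz, one_mul] at h3
      exact h3.symm
    have hne : (⟨2, T1 + 1⟩ : ℂ) ∈ V := by simp [hV]
    refine ⟨h ⟨2, T1 + 1⟩, ?_⟩
    intro z hz1 hz2
    have h4 := hVo.is_const_of_deriv_eq_zero hVc.isPreconnected
      (fun w hw => (hd w hw).differentiableWithinAt) hder (show z ∈ V from ⟨hz1, hz2⟩) hne
    rw [← h4, hh]
    simp only
    ring
  have hec : Complex.exp c = 1 := by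
    have h1 : (⟨2, T1 + 1⟩ : ℂ) ∈ U := by
      simp only [hU, Set.mem_ofPred_eq]
      constructor <;> linarith
    have h2 := hc ⟨2, T1 + 1⟩ (by norm_num) (by simp)
    have h3 := hge _ h1
    have h4 := (hQ3 ⟨2, T1 + 1⟩ (by norm_num)).2
    rw [h2, Complex.exp_add, ← h4] at h3
    exact mul_left_cancel₀ (hz0 _ h1) (by rw [h3, mul_one])
  obtain ⟨K2, hK2⟩ := hQ2 s1 hs1
  obtain ⟨K3, hK30, hK3⟩ := PLOG_norm_le
  obtain ⟨Cz, hCz⟩ := hZ.2.1 (1 / 2) (by norm_num)
  -- the function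
  set f : ℂ → ℂ := fun z => g z - q2 z - c with hf
  have hfan : ∀ z ∈ U, AnalyticAt ℂ f z := fun z hz =>
    ((hg z hz).sub (hQ1 z (by have := hz.1; linarith))).sub analyticAt_const
  have hfD : ∀ z : ℂ, 1 < z.re → T1 < z.im → f z = ∑' n : ℕ, pr n * (n : ℂ) ^ (-z) := by
    intro z h1 h2
    rw [hf]
    simp only
    rw [hc z h1 h2]
    ring
  have hfexp : ∀ z ∈ U, riemannZeta z = Complex.exp (f z + q2 z) := by
    intro z hz
    have h1 : f z + q2 z = g z - c := by
      rw [hf]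
      simp only
      ring
    rw [h1, Complex.exp_sub, hec, div_one, hge z hz]
  have hl2 : 0 < Real.log 2 := Real.log_pos (by norm_num)
  set Cz' := max Cz 1 with hCz'
  have hK20 : 0 ≤ K2 := (norm_nonneg _).trans (hK2 2 (by norm_num; linarith))
  set K4 := 2 + (Real.log Cz' + K2 + ‖c‖) / Real.log 2 with hK4
  have hlC : 0 ≤ Real.log Cz' := Real.log_nonneg (le_max_right _ _)
  have hK40 : 0 < K4 := by positivity
  set R := 3 / 2 - s1 with hR
  set r := 3 / 2 - σ with hr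
  have hr0 : 0 < r := by rw [hr]; linarith
  have hrR : r < R := by rw [hr, hR]; linarith
  have hRr : 0 < R - r := by linarith
  -- the real part
  have hre : ∀ t : ℝ, T1 + 1 ≤ t → ∀ w ∈ Metric.ball ((3 / 2 : ℝ) + t * I : ℂ) R,
      w ∈ U ∧ (f w).re ≤ K4 * Real.log t := by
    intro t ht w hw
    rw [mem_ball_iff_norm] at hw
    have h1 : |w.re - 3 / 2| < R := by
      have := (abs_re_le_norm (w - ((3 / 2 : ℝ) + t * I : ℂ))).trans_lt hw
      simpa using this
    have h2 : |w.im - t| < R := by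
      have := (abs_im_le_norm (w - ((3 / 2 : ℝ) + t * I : ℂ))).trans_lt hw
      simpa using this
    rw [abs_lt] at h1 h2
    have hR1 : R < 1 := by rw [hR]; linarith
    have hwU : w ∈ U := ⟨by rw [hR] at h1; linarith, by linarith⟩
    refine ⟨hwU, ?_⟩
    have h3 := hCz w (by have := hwU.1; linarith) (by rw [hR] at h1; linarith) (by linarith)
    have h4 : ‖riemannZeta w‖ = Real.exp (g w).re := by
      rw [← hge w hwU, Complex.norm_exp]
    have h5 : Real.exp (g w).re ≤ Cz' * t ^ 2 := by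
      rw [← h4]
      refine h3.trans ?_
      have h6 : (1 + w.im) ^ (1 / 2 + 1 / 2 : ℝ) = 1 + w.im := by
        norm_num
      rw [h6]
      have h7 : 0 ≤ 1 + w.im := by linarith
      calc Cz * (1 + w.im) ≤ Cz' * (1 + w.im) := by
            gcongr
            exact le_max_left _ _
        _ ≤ Cz' * t ^ 2 := by
            gcongr
            nlinarith
    have ht0 : 0 < t := by linarith
    have hCz0 : 0 < Cz' := lt_of_lt_of_le one_pos (le_max_right _ _)
    have h8 : (g w).re ≤ Real.log Cz' + 2 * Real.log t := by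
      have h9 := Real.log_le_log (Real.exp_pos _) h5
      rw [Real.log_exp, Real.log_mul hCz0.ne' (by positivity), Real.log_pow] at h9
      exact_mod_cast h9
    have h10 : (f w).re ≤ Real.log Cz' + 2 * Real.log t + K2 + ‖c‖ := by
      have h11 : (f w).re = (g w).re - (q2 w).re - c.re := by
        rw [hf]
        simp
      have h12 := (abs_le.mp (abs_re_le_norm (q2 w))).1
      have h13 := hK2 w hwU.1.le
      have h14 := (abs_le.mp (abs_re_le_norm c)).1
      rw [h11]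
      linarith
    have h15 : Real.log 2 ≤ Real.log t := Real.log_le_log (by norm_num) (by linarith)
    have h16 : Real.log Cz' + K2 + ‖c‖ ≤ (Real.log Cz' + K2 + ‖c‖) / Real.log 2 * Real.log t := by
      rw [div_mul_eq_mul_div, le_div_iff₀ hl2]
      gcongr
    rw [hK4, add_mul]
    linarith
  refine ⟨T1 + 1, 2 * K4 * r / (R - r) + K3 * (R + r) / (R - r) / Real.log 2 + K3 / Real.log 2,
    f, by linarith, ?_, fun z h1 h2 => hfD z h1 (by linarith)⟩
  intro z hz1 hz2
  have hzU : z ∈ U := ⟨by linarith, by linarith⟩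
  refine ⟨hfan z hzU, hfexp z hzU, ?_⟩
  have hlt : Real.log 2 ≤ Real.log z.im := Real.log_le_log (by norm_num) (by linarith)
  have hlt0 : 0 < Real.log z.im := by linarith
  have hR0 : 0 < R := by linarith
  rcases le_or_gt (3 / 2) z.re with h32 | h32
  · rw [hfD z (by linarith) (by linarith)]
    refine (hK3 z h32).trans ?_
    have h1 : K3 ≤ K3 / Real.log 2 * Real.log z.im := by
      rw [div_mul_eq_mul_div, le_div_iff₀ hl2]
      gcongr
    have h2 : 0 ≤ (2 * K4 * r / (R - r) + K3 * (R + r) / (R - r) / Real.log 2) *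
      Real.log z.im := by positivity
    rw [add_mul]
    linarith
  · have hbc := PLOG_bc (f := f) (c := ((3 / 2 : ℝ) + z.im * I : ℂ)) (z := z) (R := R) (r := r)
      (M := K4 * Real.log z.im) hr0.le hrR (by positivity)
      (fun w hw => (hfan w (hre z.im hz2 w hw).1).differentiableAt.differentiableWithinAt)
      (fun w hw => (hre z.im hz2 w hw).2) (by
        have h1 : z - ((3 / 2 : ℝ) + z.im * I : ℂ) = ((z.re - 3 / 2 : ℝ) : ℂ) := by
          apply Complex.ext <;> simp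
        rw [h1, Complex.norm_real, Real.norm_eq_abs, abs_le, hr]
        constructor <;> linarith)
    refine hbc.trans ?_
    have h1 : ‖f ((3 / 2 : ℝ) + z.im * I : ℂ)‖ ≤ K3 := by
      rw [hfD _ (by simp; norm_num) (by simp; linarith)]
      exact hK3 _ (by simp)
    have h2 : ‖f ((3 / 2 : ℝ) + z.im * I : ℂ)‖ * (R + r) / (R - r) ≤
        K3 * (R + r) / (R - r) := by
      gcongr
    have h3 : K3 * (R + r) / (R - r) ≤
        K3 * (R + r) / (R - r) / Real.log 2 * Real.log z.im := by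
      rw [div_mul_eq_mul_div _ (Real.log 2), le_div_iff₀ hl2]
      gcongr
    have h4 : 2 * (K4 * Real.log z.im) * r / (R - r) =
        2 * K4 * r / (R - r) * Real.log z.im := by ring
    have h5 : 0 ≤ K3 / Real.log 2 * Real.log z.im := by positivity
    rw [h4, add_mul, add_mul]
    linarith

end Pool.Agent.PertZ
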