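import Pool.Agent.PertZ.Defs

/-!
# The Euler product of zeta and the contribution of the higher prime powers
-/

set_option autoImplicit false

namespace Pool.Agent.PertZ

open MeasureTheory ProbabilityTheory Set Filter Topology Complex Pool.Agent.CW

theorem PQ2_norm (p : Nat.Primes) (s : ℂ) :
    ‖((p : ℕ) : ℂ) ^ (-s)‖ = ((p : ℕ) : ℝ) ^ (-s.re) := by
  rw [Complex.norm_natCast_cpow_of_pos p.prop.pos, Complex.neg_re]

theorem PQ2_le {p : Nat.Primes} {s : ℂ} (hs : 1 / 2 < s.re) :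
    ‖((p : ℕ) : ℂ) ^ (-s)‖ ≤ 3 / 4 := by
  rw [PQ2_norm]
  have hp : (2 : ℝ) ≤ ((p : ℕ) : ℝ) := by exact_mod_cast p.prop.two_le
  calc ((p : ℕ) : ℝ) ^ (-s.re) ≤ ((p : ℕ) : ℝ) ^ (-(1 / 2) : ℝ) :=
        Real.rpow_le_rpow_of_exponent_le (by linarith) (by linarith)
    _ ≤ (2 : ℝ) ^ (-(1 / 2) : ℝ) :=
        Real.rpow_le_rpow_of_nonpos (by norm_num) hp (by norm_num)
    _ ≤ 3 / 4 := by
        have h : ((2 : ℝ) ^ (-(1 / 2) : ℝ)) ^ 2 = 1 / 2 := by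
          rw [← Real.rpow_natCast, ← Real.rpow_mul (by norm_num)]
          norm_num [Real.rpow_neg_one]
        have h0 : 0 < (2 : ℝ) ^ (-(1 / 2) : ℝ) := by positivity
        nlinarith

theorem PQ2_term {p : Nat.Primes} {σ : ℝ} (hσ : 1 / 2 < σ) {s : ℂ} (hs : σ ≤ s.re) :
    ‖-Complex.log (1 - ((p : ℕ) : ℂ) ^ (-s)) - ((p : ℕ) : ℂ) ^ (-s)‖ ≤
      2 * ((p : ℕ) : ℝ) ^ (-(2 * σ)) := by
  have h1 := PQ2_le (p := p) (s := s) (by linarith)
  have h0 : ‖-(((p : ℕ) : ℂ) ^ (-s))‖ < 1 := by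
    rw [norm_neg]
    linarith
  have h2 := Complex.norm_log_one_add_sub_self_le h0
  rw [norm_neg] at h2
  have h3 : -Complex.log (1 - ((p : ℕ) : ℂ) ^ (-s)) - ((p : ℕ) : ℂ) ^ (-s) =
      -(Complex.log (1 + -(((p : ℕ) : ℂ) ^ (-s))) - -(((p : ℕ) : ℂ) ^ (-s))) := by
    rw [← sub_eq_add_neg]
    ring
  rw [h3, norm_neg]
  refine h2.trans ?_
  have h4 : (1 - ‖((p : ℕ) : ℂ) ^ (-s)‖)⁻¹ ≤ 4 := by
    rw [inv_le_comm₀ (by linarith) (by norm_num)]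
    linarith
  have h5 : ‖((p : ℕ) : ℂ) ^ (-s)‖ ≤ ((p : ℕ) : ℝ) ^ (-σ) := by
    rw [PQ2_norm]
    have hp : (1 : ℝ) ≤ ((p : ℕ) : ℝ) := by exact_mod_cast p.prop.one_le
    exact Real.rpow_le_rpow_of_exponent_le hp (by linarith)
  have h6 : (((p : ℕ) : ℝ) ^ (-σ)) ^ 2 = ((p : ℕ) : ℝ) ^ (-(2 * σ)) := by
    rw [← Real.rpow_natCast, ← Real.rpow_mul (by positivity)]
    congr 1
    push_cast
    ring
  have h7 : ‖((p : ℕ) : ℂ) ^ (-s)‖ ^ 2 ≤ ((p : ℕ) : ℝ) ^ (-(2 * σ)) := by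
    rw [← h6]
    gcongr
  have h8 : 0 ≤ (1 - ‖((p : ℕ) : ℂ) ^ (-s)‖)⁻¹ := inv_nonneg.2 (by linarith)
  calc ‖((p : ℕ) : ℂ) ^ (-s)‖ ^ 2 * (1 - ‖((p : ℕ) : ℂ) ^ (-s)‖)⁻¹ / 2
      ≤ ((p : ℕ) : ℝ) ^ (-(2 * σ)) * 4 / 2 := by gcongr
    _ = 2 * ((p : ℕ) : ℝ) ^ (-(2 * σ)) := by ring

theorem PQ2_sum {σ : ℝ} (hσ : 1 / 2 < σ) :
    Summable (fun p : Nat.Primes => 2 * ((p : ℕ) : ℝ) ^ (-(2 * σ))) :=
  (Nat.Primes.summable_rpow.2 (by linarith)).mul_left 2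

theorem PQ2_pr (s : ℂ) : (fun n : ℕ => pr n * (n : ℂ) ^ (-s)) =
    Set.indicator {p : ℕ | p.Prime} (fun n : ℕ => (n : ℂ) ^ (-s)) := by
  funext n
  by_cases h : n.Prime
  · rw [Set.indicator_of_mem (show n ∈ {p : ℕ | p.Prime} from h)]
    simp [pr, h]
  · rw [Set.indicator_of_notMem (show n ∉ {p : ℕ | p.Prime} from h)]
    simp [pr, h]

theorem PQ2_summable {s : ℂ} (hs : 1 < s.re) :
    Summable (fun p : Nat.Primes => ((p : ℕ) : ℂ) ^ (-s)) := by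
  refine Summable.of_norm ?_
  have h : (fun p : Nat.Primes => ‖((p : ℕ) : ℂ) ^ (-s)‖) =
      fun p : Nat.Primes => ((p : ℕ) : ℝ) ^ (-s.re) := funext fun p => PQ2_norm p s
  rw [h]
  exact Nat.Primes.summable_rpow.2 (by linarith)

theorem p_PQ2 : P_PQ2 := by
  refine ⟨fun s hs => ?_, fun σ hσ => ?_, fun s hs => ⟨?_, ?_⟩⟩
  · obtain ⟨σ, hσ⟩ : ∃ σ : ℝ, σ = (1 / 2 + s.re) / 2 := ⟨_, rfl⟩
    have h1 : 1 / 2 < σ := by rw [hσ]; linarith
    have h2 : σ < s.re := by rw [hσ]; linarith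
    have hU : IsOpen {w : ℂ | σ < w.re} := isOpen_lt continuous_const Complex.continuous_re
    have hd : DifferentiableOn ℂ q2 {w : ℂ | σ < w.re} := by
      refine differentiableOn_tsum_of_summable_norm (PQ2_sum h1) (fun p => ?_) hU
        (fun p w hw => PQ2_term h1 (le_of_lt hw))
      have hc : Differentiable ℂ (fun w : ℂ => ((p : ℕ) : ℂ) ^ (-w)) :=
        Differentiable.const_cpow differentiable_neg
          (Or.inl (by exact_mod_cast p.prop.ne_zero))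
      refine DifferentiableOn.sub (DifferentiableOn.neg ?_) hc.differentiableOn
      refine DifferentiableOn.clog ((differentiable_const _).sub hc).differentiableOn
        (fun w hw => ?_)
      have h4 := Complex.mem_slitPlane_of_norm_lt_one (z := -(((p : ℕ) : ℂ) ^ (-w))) (by
        rw [norm_neg]
        have := PQ2_le (p := p) (s := w) (lt_trans h1 hw)
        linarith)
      rw [← sub_eq_add_neg] at h4
      exact h4
    exact hd.analyticAt (hU.mem_nhds h2)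
  · refine ⟨∑' p : Nat.Primes, 2 * ((p : ℕ) : ℝ) ^ (-(2 * σ)), fun s hs => ?_⟩
    exact tsum_of_norm_bounded (PQ2_sum hσ).hasSum (fun p => PQ2_term hσ hs)
  · rw [PQ2_pr]
    exact summable_subtype_iff_indicator.1 (PQ2_summable hs)
  · rw [← riemannZeta_eulerProduct_exp_log hs, PQ2_pr]
    congr 1
    have h1 : ∑' n : ℕ, Set.indicator {p : ℕ | p.Prime} (fun n : ℕ => (n : ℂ) ^ (-s)) n =
        ∑' p : Nat.Primes, ((p : ℕ) : ℂ) ^ (-s) :=
      (tsum_subtype {p : ℕ | p.Prime} (fun n : ℕ => (n : ℂ) ^ (-s))).symm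
    rw [h1]
    unfold q2
    have h2 : Summable (fun p : Nat.Primes =>
        (-Complex.log (1 - ((p : ℕ) : ℂ) ^ (-s)) - ((p : ℕ) : ℂ) ^ (-s))) :=
      Summable.of_norm_bounded (PQ2_sum (σ := s.re) (by linarith))
        (fun p => PQ2_term (by linarith) le_rfl)
    rw [← (PQ2_summable hs).tsum_add h2]
    refine tsum_congr fun p => ?_
    ring

end Pool.Agent.PertZ
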