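import Pool.Agent.PertZ.Defs

/-!
# The deterministic equivalence for primes, from the zeros
-/

set_option autoImplicit false

namespace Pool.Agent.PertZ

open MeasureTheory ProbabilityTheory Set Filter Topology Complex Pool.Agent.CW

lemma PR2_pr_zero : pr 0 = 0 := by
  unfold pr; simp [Nat.not_prime_zero]

lemma PR2_pr_le (n : ℕ) : ‖pr n‖ ≤ 1 := by
  unfold pr; split_ifs <;> simp

/-- powers below one are sublinear -/
lemma PR2_young (q A ε : ℝ) (hq : q < 1) (hq0 : 0 ≤ q) (hA : 0 < A) (hε : 0 < ε) :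
    ∃ C : ℝ, ∀ x : ℝ, 0 ≤ x → A * x ^ q ≤ ε * x + C := by
  set X := (A / ε) ^ (1 / (1 - q)) with hX
  have hXpos : 0 < X := Real.rpow_pos_of_pos (div_pos hA hε) _
  refine ⟨A * X ^ q, fun x hx => ?_⟩
  have hXq : 0 ≤ X ^ q := (Real.rpow_pos_of_pos hXpos _).le
  rcases le_total x X with h | h
  · have h1 : x ^ q ≤ X ^ q := Real.rpow_le_rpow hx h hq0
    have h2 : A * x ^ q ≤ A * X ^ q := mul_le_mul_of_nonneg_left h1 hA.le
    have h3 : 0 ≤ ε * x := mul_nonneg hε.le hx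
    linarith
  · have hxpos : 0 < x := lt_of_lt_of_le hXpos h
    have h1 : x ^ (q - 1) ≤ X ^ (q - 1) :=
      Real.rpow_le_rpow_of_nonpos hXpos h (by linarith)
    have h2 : X ^ (q - 1) = ε / A := by
      rw [hX, ← Real.rpow_mul (div_pos hA hε).le]
      have h21 : 1 / (1 - q) * (q - 1) = -1 := by
        have h22 : (1 - q) ≠ 0 := by linarith
        field_simp
        ring
      rw [h21, Real.rpow_neg_one, inv_div]
    have h3 : x ^ q = x * x ^ (q - 1) := by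
      conv_lhs => rw [show q = 1 + (q - 1) by ring]
      rw [Real.rpow_add hxpos, Real.rpow_one]
    have h4 : A * x ^ q ≤ ε * x := by
      rw [h3]
      have h41 : x * x ^ (q - 1) ≤ x * (ε / A) := by
        rw [← h2]; exact mul_le_mul_of_nonneg_left h1 hx
      calc A * (x * x ^ (q - 1)) ≤ A * (x * (ε / A)) := mul_le_mul_of_nonneg_left h41 hA.le
        _ = ε * x := by field_simp
    have h5 : 0 ≤ A * X ^ q := mul_nonneg hA.le hXq
    linarith

lemma PR2_summable (c : ℝ) (hc : 1 < c) :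
    Summable (fun n : ℕ => ‖pr n‖ * (n : ℝ) ^ (-c)) := by
  refine Summable.of_nonneg_of_le (fun n => ?_) (fun n => ?_)
    (Real.summable_nat_rpow.mpr (show -c < -1 by linarith))
  · exact mul_nonneg (norm_nonneg _) (Real.rpow_nonneg (Nat.cast_nonneg _) _)
  · calc ‖pr n‖ * (n : ℝ) ^ (-c) ≤ 1 * (n : ℝ) ^ (-c) :=
          mul_le_mul_of_nonneg_right (PR2_pr_le n) (Real.rpow_nonneg (Nat.cast_nonneg _) _)
      _ = _ := one_mul _

lemma PR2_dir (z : ℂ) (hz : 2 ≤ z.re) : ‖∑' n : ℕ, pr n * (n : ℂ) ^ (-z)‖ ≤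
    ∑' n : ℕ, ‖pr n‖ * (n : ℝ) ^ (-(2 : ℝ)) := by
  refine tsum_of_norm_bounded (PR2_summable 2 (by norm_num)).hasSum (fun n => ?_)
  rcases Nat.eq_zero_or_pos n with rfl | hn
  · simp [PR2_pr_zero]
  · rw [norm_mul, Complex.norm_natCast_cpow_of_pos hn, Complex.neg_re]
    refine mul_le_mul_of_nonneg_left ?_ (norm_nonneg _)
    exact Real.rpow_le_rpow_of_exponent_le (by exact_mod_cast hn) (by linarith)

/-- `Sm` on a line close to the critical line -/
lemma PR2_line (hB : P_BL) (hS : P_SUPI) (B h : ℝ) (hBh : 1 / 2 < B) (hh : 0 < h)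
    (T₀ CP : ℝ) (f : ℂ → ℂ) (hT₀ : 2 ≤ T₀)
    (hf : ∀ z : ℂ, 1 / 2 + h / 3 ≤ z.re → T₀ ≤ z.im →
      AnalyticAt ℂ f z ∧ ‖f z‖ ≤ CP * Real.log z.im)
    (hf2 : ∀ z : ℂ, 1 < z.re → T₀ ≤ z.im → f z = ∑' n : ℕ, pr n * (n : ℂ) ^ (-z)) :
    ∃ D : ℝ, 0 ≤ D ∧ ∀ v : ℝ, 2 * T₀ ≤ v →
      ‖Sm pr B (((1 / 2 + 2 * h / 3 : ℝ) : ℂ) + v * I)‖ ≤ D * Real.log (2 * v) := by
  obtain ⟨CB, hCB, hBL⟩ := hB (1 / 2) (by norm_num) (by norm_num)
  obtain ⟨CS, hCS, hSU⟩ := hS B (h / 3) (1 / 2 + h / 3) (1 / 2) 0 1 (by linarith) (by linarith)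
    (by linarith) (by norm_num) (by linarith) (by linarith) le_rfl (by norm_num) (by linarith)
    (by norm_num) le_rfl (by linarith)
  have hLs := PR2_summable (1 / 2 + h / 3 + 1 / 2) (by linarith)
  obtain ⟨L, hL⟩ : ∃ L : ℝ, L = ∑' n : ℕ, ‖pr n‖ * (n : ℝ) ^ (-(1 / 2 + h / 3 + 1 / 2)) :=
    ⟨_, rfl⟩
  have hL0 : 0 ≤ L := by
    rw [hL]
    exact tsum_nonneg (fun n => mul_nonneg (norm_nonneg _)
      (Real.rpow_nonneg (Nat.cast_nonneg _) _))
  refine ⟨CS * (CB * (2 * |CP| + L)), by positivity, fun v hv => ?_⟩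
  have hv4 : 4 ≤ v := by linarith
  have hv0 : 0 < v := by linarith
  have hlog : 1 ≤ Real.log (2 * v) := by
    rw [Real.le_log_iff_exp_le (by linarith)]
    have := Real.exp_one_lt_d9
    linarith
  have hlog0 : 0 ≤ Real.log (2 * v) := by linarith
  obtain ⟨K, hK⟩ : ∃ K : ℝ, K = |CP| * Real.log (2 * v) := ⟨_, rfl⟩
  have hK0 : 0 ≤ K := by rw [hK]; exact mul_nonneg (abs_nonneg _) hlog0
  have hW : ∀ Y : ℝ, 1 ≤ Y → ‖Wb pr (1 / 2 + h / 3) v Y‖ ≤
      CB * K + CB * (L / v + K / v ^ 2) * Y ^ (1 / 2 : ℝ) := by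
    intro Y hY
    have key := hBL pr (1 / 2 + h / 3) L K v Y f (by linarith) (by linarith) hY hK0 PR2_pr_zero
      hLs hL.ge (fun z h1 h2 h3 h4 => by
        obtain ⟨ha, hb⟩ := hf z h1 (by linarith)
        refine ⟨ha, hb.trans ?_⟩
        have hz1 : 0 ≤ Real.log z.im := Real.log_nonneg (by linarith)
        have hz2 : Real.log z.im ≤ Real.log (2 * v) := Real.log_le_log (by linarith) h4
        rw [hK]
        calc CP * Real.log z.im ≤ |CP| * Real.log z.im :=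
              mul_le_mul_of_nonneg_right (le_abs_self _) hz1
          _ ≤ |CP| * Real.log (2 * v) := mul_le_mul_of_nonneg_left hz2 (abs_nonneg _))
      (fun z h1 h2 h3 => hf2 z (by rw [h1]; linarith) (by linarith))
    calc _ ≤ _ := key
      _ = _ := by ring
  have hmain := hSU pr v (CB * K) (CB * (L / v + K / v ^ 2)) PR2_pr_zero PR2_pr_le
    (by linarith) (by positivity) (by positivity) hW
  rw [show (1 / 2 + h / 3 + h / 3 : ℝ) = 1 / 2 + 2 * h / 3 by ring, Real.rpow_zero,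
    Real.rpow_one, mul_one] at hmain
  refine hmain.trans ?_
  have e1 : CB * (L / v + K / v ^ 2) * v = CB * (L + K / v) := by
    field_simp
  rw [e1]
  have e2 : K / v ≤ K := div_le_self hK0 (by linarith)
  have e3 : L ≤ L * Real.log (2 * v) := le_mul_of_one_le_right hL0 hlog
  have e4 : CB * K + CB * (L + K / v) ≤ CB * (2 * |CP| + L) * Real.log (2 * v) := by
    calc CB * K + CB * (L + K / v) = CB * (K + (L + K / v)) := by ring
      _ ≤ CB * (K + (L * Real.log (2 * v) + K)) :=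
          mul_le_mul_of_nonneg_left (by linarith) hCB.le
      _ = CB * (2 * |CP| + L) * Real.log (2 * v) := by rw [hK]; ring
  calc CS * (CB * K + CB * (L + K / v))
      ≤ CS * (CB * (2 * |CP| + L) * Real.log (2 * v)) := mul_le_mul_of_nonneg_left e4 hCS.le
    _ = _ := by ring

/-- the crude bound on a rectangle by a power of the height -/
lemma PR2_pow (p D : ℝ) (hp : 0 ≤ p) : ∃ k : ℕ, ∀ T : ℝ, 2 ≤ T →
    D ≤ T ^ (k : ℝ) ∧ D * (4 * T) ^ (p + 1) ≤ T ^ (3 * p + 3 + k) := by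
  obtain ⟨k, hk⟩ := pow_unbounded_of_one_lt |D| (one_lt_two : (1 : ℝ) < 2)
  refine ⟨k, fun T hT => ?_⟩
  have hT0 : 0 < T := by linarith
  have h1 : |D| ≤ T ^ (k : ℝ) := by
    rw [Real.rpow_natCast]
    exact hk.le.trans (pow_le_pow_left₀ (by norm_num) hT k)
  refine ⟨(le_abs_self D).trans h1, ?_⟩
  have h2 : 4 * T ≤ T ^ (3 : ℝ) := by
    have : T ^ (3 : ℝ) = T ^ 2 * T := by
      rw [show (3 : ℝ) = ((3 : ℕ) : ℝ) by norm_num, Real.rpow_natCast]; ring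
    rw [this]
    have h4 : (4 : ℝ) ≤ T ^ 2 := by nlinarith
    exact mul_le_mul_of_nonneg_right h4 hT0.le
  have h3 : (4 * T) ^ (p + 1) ≤ T ^ (3 * p + 3) := by
    calc (4 * T) ^ (p + 1) ≤ (T ^ (3 : ℝ)) ^ (p + 1) :=
          Real.rpow_le_rpow (by linarith) h2 (by linarith)
      _ = T ^ (3 * p + 3) := by rw [← Real.rpow_mul hT0.le]; ring_nf
  calc D * (4 * T) ^ (p + 1) ≤ |D| * (4 * T) ^ (p + 1) :=
        mul_le_mul_of_nonneg_right (le_abs_self D) (Real.rpow_nonneg (by linarith) _)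
    _ ≤ T ^ (k : ℝ) * T ^ (3 * p + 3) :=
        mul_le_mul h1 h3 (Real.rpow_nonneg (by linarith) _) (Real.rpow_nonneg hT0.le _)
    _ = T ^ (3 * p + 3 + k) := by rw [← Real.rpow_add hT0]; ring_nf

/-- bound on the strip, for large heights -/
lemma PR2_strip (hT : P_TLR) (hB : P_BL) (hS : P_SUPI) (hQ : P_PQ2) (hA : P_SMA) (B h : ℝ)
    (hBh : 1 / 2 < B) (hh : 0 < h) (hh2 : h ≤ 1 / 2)
    (T₀ CP : ℝ) (f : ℂ → ℂ) (hT₀ : 2 ≤ T₀)
    (hf : ∀ z : ℂ, 1 / 2 + h / 3 ≤ z.re → T₀ ≤ z.im →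
      AnalyticAt ℂ f z ∧ ‖f z‖ ≤ CP * Real.log z.im)
    (hf2 : ∀ z : ℂ, 1 < z.re → T₀ ≤ z.im → f z = ∑' n : ℕ, pr n * (n : ℂ) ^ (-z)) :
    ∀ ε : ℝ, 0 < ε → ∃ D : ℝ, ∀ T x : ℝ, 4 * T₀ ≤ T → 1 / 2 + h ≤ x → x ≤ 2 →
      ‖f (x + T * I) + q2 (x + T * I) - Sm pr B (x + T * I)‖ ≤ ε * Real.log T + D := by
  intro ε hε
  obtain ⟨D₁, hD₁, hline⟩ := PR2_line hB hS B h hBh hh T₀ CP f hT₀ hf hf2
  obtain ⟨hA1, -, hA3, ⟨CA, hA4⟩, -⟩ := hA pr B hBh PR2_pr_zero PR2_pr_le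
  obtain ⟨hQ1, hQ2, -⟩ := hQ
  obtain ⟨Cq, hCq⟩ := hQ2 (1 / 2 + 2 * h / 3) (by linarith)
  obtain ⟨C3, hC3⟩ := hA3 (1 / 2 + 2 * h / 3) (by linarith) (by linarith) 1 one_pos
  obtain ⟨p, hp⟩ : ∃ p : ℝ, p = max 0 ((1 - (1 / 2 + 2 * h / 3)) / B) := ⟨_, rfl⟩
  have hp0 : 0 ≤ p := by rw [hp]; exact le_max_left _ _
  rw [← hp] at hC3
  obtain ⟨L2, hL2⟩ : ∃ L : ℝ, L = ∑' n : ℕ, ‖pr n‖ * (n : ℝ) ^ (-(2 : ℝ)) := ⟨_, rfl⟩
  have hL20 : 0 ≤ L2 := by
    rw [hL2]
    exact tsum_nonneg (fun n => mul_nonneg (norm_nonneg _)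
      (Real.rpow_nonneg (Nat.cast_nonneg _) _))
  -- one constant for everything
  obtain ⟨D, hD⟩ : ∃ D : ℝ, D = 1 + |CP| + |Cq| + |C3| + |CA| + L2 + D₁ := ⟨_, rfl⟩
  have a1 := abs_nonneg CP
  have a2 := abs_nonneg Cq
  have a3 := abs_nonneg C3
  have a4 := abs_nonneg CA
  have hD1 : 1 ≤ D := by rw [hD]; linarith
  obtain ⟨k, hk⟩ := PR2_pow p D hp0
  obtain ⟨CT, hCT1, hCT⟩ := hT (1 / 2 + 2 * h / 3) 2 (3 * p + 3 + k) (by linarith)
    (by positivity)
  -- exponents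
  obtain ⟨q, hq⟩ : ∃ q : ℝ, q = (2 - (1 / 2 + h)) / (2 - (1 / 2 + 2 * h / 3)) := ⟨_, rfl⟩
  have hden : 0 < 2 - (1 / 2 + 2 * h / 3) := by linarith
  have hq0 : 0 ≤ q := by rw [hq]; exact div_nonneg (by linarith) hden.le
  have hq1 : q < 1 := by rw [hq, div_lt_one hden]; linarith
  obtain ⟨E, hE⟩ := PR2_young q (CT * D ^ q * D) ε hq1 hq0 (by positivity) hε
  refine ⟨ε * Real.log 4 + E, fun T x hTT hx1 hx2 => ?_⟩
  have hT2 : 2 ≤ T := by linarith
  have hT0 : 0 < T := by linarith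
  have hlogT : 1 ≤ Real.log (4 * T) := by
    rw [Real.le_log_iff_exp_le (by linarith)]
    have := Real.exp_one_lt_d9
    linarith
  have hlogle : Real.log (4 * T) ≤ (4 * T) ^ (p + 1) := by
    calc Real.log (4 * T) ≤ 4 * T := (Real.log_le_sub_one_of_pos (by linarith)).trans
          (by linarith)
      _ = (4 * T) ^ (1 : ℝ) := (Real.rpow_one _).symm
      _ ≤ (4 * T) ^ (p + 1) := Real.rpow_le_rpow_of_exponent_le (by linarith) (by linarith)
  have hone : (1 : ℝ) ≤ (4 * T) ^ (p + 1) := hlogT.trans hlogle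
  have hKneg : T ^ (-(3 * p + 3 + (k : ℝ))) ≤ 1 :=
    Real.rpow_le_one_of_one_le_of_nonpos (by linarith)
      (by have : (0 : ℝ) ≤ k := Nat.cast_nonneg k
          linarith)
  have hkT := (hk T hT2).2
  have hDle : D ≤ T ^ (3 * p + 3 + (k : ℝ)) := by
    refine (hk T hT2).1.trans (Real.rpow_le_rpow_of_exponent_le (by linarith) (by linarith))
  have hM1 : 1 ≤ D * Real.log (4 * T) := by nlinarith
  have key := hCT T (D * Real.log (4 * T)) D
    (fun z => f z + q2 z - Sm pr B z) hT2 (hKneg.trans hM1)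
    ((mul_le_mul_of_nonneg_left hlogle (by linarith)).trans hkT) (hKneg.trans hD1) hDle
    (fun z h1 h2 h3 h4 => ?_) (fun v h1 h2 => ⟨?_, ?_⟩) x (by linarith) hx2
  · refine key.trans ?_
    have hx3 : (2 - x) / (2 - (1 / 2 + 2 * h / 3)) ≤ q := by
      rw [hq]; exact div_le_div_of_nonneg_right (by linarith) hden.le
    have hx4 : (x - (1 / 2 + 2 * h / 3)) / (2 - (1 / 2 + 2 * h / 3)) ≤ 1 := by
      rw [div_le_one hden]; linarith
    have b1 : (D * Real.log (4 * T)) ^ ((2 - x) / (2 - (1 / 2 + 2 * h / 3))) ≤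
        (D * Real.log (4 * T)) ^ q := Real.rpow_le_rpow_of_exponent_le hM1 hx3
    have b2 : D ^ ((x - (1 / 2 + 2 * h / 3)) / (2 - (1 / 2 + 2 * h / 3))) ≤ D := by
      calc _ ≤ D ^ (1 : ℝ) := Real.rpow_le_rpow_of_exponent_le hD1 hx4
        _ = D := Real.rpow_one D
    have b3 : CT * (D * Real.log (4 * T)) ^ ((2 - x) / (2 - (1 / 2 + 2 * h / 3))) *
        D ^ ((x - (1 / 2 + 2 * h / 3)) / (2 - (1 / 2 + 2 * h / 3))) ≤
        CT * (D * Real.log (4 * T)) ^ q * D := by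
      refine mul_le_mul (mul_le_mul_of_nonneg_left b1 (by linarith)) b2 ?_ ?_
      · exact Real.rpow_nonneg (by linarith) _
      · exact mul_nonneg (by linarith) (Real.rpow_nonneg (by linarith) _)
    refine b3.trans ?_
    rw [Real.mul_rpow (by linarith) (by linarith)]
    have b4 := hE (Real.log (4 * T)) (by linarith)
    have b5 : Real.log (4 * T) = Real.log 4 + Real.log T :=
      Real.log_mul (by norm_num) hT0.ne'
    calc CT * (D ^ q * Real.log (4 * T) ^ q) * D = CT * D ^ q * D * Real.log (4 * T) ^ q := by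
          ring
      _ ≤ ε * Real.log (4 * T) + E := b4
      _ = ε * Real.log T + (ε * Real.log 4 + E) := by rw [b5]; ring
  · -- crude bound
    obtain ⟨ha, hb⟩ := hf z (by linarith) (by linarith)
    refine ⟨(ha.add (hQ1 z (by linarith))).sub (hA1 z (by linarith) (by linarith)), ?_⟩
    have c1 : ‖f z‖ ≤ |CP| * (4 * T) ^ (p + 1) := by
      have hz1 : 0 ≤ Real.log z.im := Real.log_nonneg (by linarith)
      have hz2 : Real.log z.im ≤ Real.log (4 * T) := Real.log_le_log (by linarith) (by linarith)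
      calc ‖f z‖ ≤ CP * Real.log z.im := hb
        _ ≤ |CP| * Real.log z.im := mul_le_mul_of_nonneg_right (le_abs_self _) hz1
        _ ≤ |CP| * (4 * T) ^ (p + 1) :=
          mul_le_mul_of_nonneg_left (hz2.trans hlogle) (abs_nonneg _)
    have c2 : ‖q2 z‖ ≤ |Cq| * (4 * T) ^ (p + 1) := by
      calc ‖q2 z‖ ≤ Cq := hCq z h1
        _ ≤ |Cq| * 1 := by rw [mul_one]; exact le_abs_self _
        _ ≤ _ := mul_le_mul_of_nonneg_left hone (abs_nonneg _)
    have c3 : ‖Sm pr B z‖ ≤ |C3| * (4 * T) ^ (p + 1) := by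
      have hz : 1 + ‖z‖ ≤ 4 * T := by
        have hz1 := Complex.norm_le_abs_re_add_abs_im z
        rw [abs_of_nonneg (by linarith : 0 ≤ z.re), abs_of_nonneg (by linarith : 0 ≤ z.im)] at hz1
        linarith
      calc ‖Sm pr B z‖ ≤ C3 * (1 + ‖z‖) ^ (p + 1) := hC3 z h1
        _ ≤ |C3| * (1 + ‖z‖) ^ (p + 1) :=
          mul_le_mul_of_nonneg_right (le_abs_self _) (Real.rpow_nonneg (by positivity) _)
        _ ≤ |C3| * (4 * T) ^ (p + 1) :=
          mul_le_mul_of_nonneg_left (Real.rpow_le_rpow (by positivity) hz (by linarith))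
            (abs_nonneg _)
    calc ‖f z + q2 z - Sm pr B z‖ ≤ ‖f z + q2 z‖ + ‖Sm pr B z‖ := norm_sub_le _ _
      _ ≤ ‖f z‖ + ‖q2 z‖ + ‖Sm pr B z‖ := by
          have := norm_add_le (f z) (q2 z)
          linarith
      _ ≤ (|CP| + |Cq| + |C3|) * (4 * T) ^ (p + 1) := by
          rw [add_mul, add_mul]; linarith
      _ ≤ D * (4 * T) ^ (p + 1) := by
          refine mul_le_mul_of_nonneg_right ?_ (by linarith)
          rw [hD]; linarith
      _ ≤ _ := hkT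
  · -- the left side
    have hv : 2 * T₀ ≤ v := by linarith
    obtain ⟨z, hz⟩ : ∃ z : ℂ, z = ((1 / 2 + 2 * h / 3 : ℝ) : ℂ) + v * I := ⟨_, rfl⟩
    have hzre : z.re = 1 / 2 + 2 * h / 3 := by rw [hz]; simp
    have hzim : z.im = v := by rw [hz]; simp
    have hlogv : 0 ≤ Real.log v := Real.log_nonneg (by linarith)
    have hlogv2 : Real.log v ≤ Real.log (4 * T) := Real.log_le_log (by linarith) (by linarith)
    have hlogv3 : Real.log (2 * v) ≤ Real.log (4 * T) :=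
      Real.log_le_log (by linarith) (by linarith)
    have d1 : ‖f z‖ ≤ |CP| * Real.log (4 * T) := by
      calc ‖f z‖ ≤ CP * Real.log z.im := (hf z (by rw [hzre]; linarith)
            (by rw [hzim]; linarith)).2
        _ ≤ |CP| * Real.log z.im := mul_le_mul_of_nonneg_right (le_abs_self _)
            (by rw [hzim]; exact hlogv)
        _ ≤ |CP| * Real.log (4 * T) := by
            rw [hzim]; exact mul_le_mul_of_nonneg_left hlogv2 (abs_nonneg _)
    have d2 : ‖q2 z‖ ≤ |Cq| * Real.log (4 * T) := by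
      calc ‖q2 z‖ ≤ Cq := hCq z hzre.ge
        _ ≤ |Cq| * 1 := by rw [mul_one]; exact le_abs_self _
        _ ≤ _ := mul_le_mul_of_nonneg_left hlogT (abs_nonneg _)
    have d3 : ‖Sm pr B z‖ ≤ D₁ * Real.log (4 * T) := by
      have := hline v hv
      rw [← hz] at this
      exact this.trans (mul_le_mul_of_nonneg_left hlogv3 hD₁)
    show ‖f (((1 / 2 + 2 * h / 3 : ℝ) : ℂ) + v * I) + q2 (((1 / 2 + 2 * h / 3 : ℝ) : ℂ) + v * I) -
      Sm pr B (((1 / 2 + 2 * h / 3 : ℝ) : ℂ) + v * I)‖ ≤ D * Real.log (4 * T)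
    rw [← hz]
    calc ‖f z + q2 z - Sm pr B z‖ ≤ ‖f z + q2 z‖ + ‖Sm pr B z‖ := norm_sub_le _ _
      _ ≤ ‖f z‖ + ‖q2 z‖ + ‖Sm pr B z‖ := by
          have := norm_add_le (f z) (q2 z)
          linarith
      _ ≤ (|CP| + |Cq| + D₁) * Real.log (4 * T) := by
          rw [add_mul, add_mul]; linarith
      _ ≤ D * Real.log (4 * T) := by
          refine mul_le_mul_of_nonneg_right ?_ (by linarith)
          rw [hD]; linarith
  · -- the right side
    obtain ⟨z, hz⟩ : ∃ z : ℂ, z = ((2 : ℝ) : ℂ) + v * I := ⟨_, rfl⟩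
    have hzre : z.re = 2 := by rw [hz]; simp
    have hzim : z.im = v := by rw [hz]; simp
    show ‖f (((2 : ℝ) : ℂ) + v * I) + q2 (((2 : ℝ) : ℂ) + v * I) -
      Sm pr B (((2 : ℝ) : ℂ) + v * I)‖ ≤ D
    rw [← hz]
    have d1 : ‖f z‖ ≤ L2 := by
      rw [hf2 z (by rw [hzre]; norm_num) (by rw [hzim]; linarith), hL2]
      exact PR2_dir z hzre.ge
    have d2 : ‖q2 z‖ ≤ |Cq| := (hCq z (by rw [hzre]; linarith)).trans (le_abs_self _)
    have d3 : ‖Sm pr B z‖ ≤ |CA| := (hA4 z hzre.ge).trans (le_abs_self _)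
    calc ‖f z + q2 z - Sm pr B z‖ ≤ ‖f z + q2 z‖ + ‖Sm pr B z‖ := norm_sub_le _ _
      _ ≤ ‖f z‖ + ‖q2 z‖ + ‖Sm pr B z‖ := by
          have := norm_add_le (f z) (q2 z)
          linarith
      _ ≤ D := by rw [hD]; linarith

theorem p_PR2 (hT : P_TLR) (hB : P_BL) (hS : P_SUPI) (hQ : P_PQ2) (hP : P_PLOG)
    (hA : P_SMA) : P_PR2 := by
  intro hFZ B hBh σ hσ ε hε
  obtain ⟨h, hh⟩ : ∃ h : ℝ, h = min σ 1 - 1 / 2 := ⟨_, rfl⟩
  have hh0 : 0 < h := by
    rw [hh]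
    have : (1 / 2 : ℝ) < min σ 1 := lt_min hσ (by norm_num)
    linarith
  have hh1 : h ≤ 1 / 2 := by
    rw [hh]
    have : min σ 1 ≤ 1 := min_le_right _ _
    linarith
  have hhσ : 1 / 2 + h ≤ σ := by
    rw [hh]
    have : min σ 1 ≤ σ := min_le_left _ _
    linarith
  obtain ⟨T₀, CP, f, hT₀, hf, hf2⟩ := hP hFZ (1 / 2 + h / 3) (by linarith)
  obtain ⟨D, hD⟩ := PR2_strip hT hB hS hQ hA B h hBh hh0 hh1 T₀ CP f hT₀
    (fun z h1 h2 => ⟨(hf z h1 h2).1, (hf z h1 h2).2.2⟩) hf2 ε hε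
  obtain ⟨hA1, -, -, ⟨CA, hA4⟩, -⟩ := hA pr B hBh PR2_pr_zero PR2_pr_le
  obtain ⟨hQ1, hQ2, hQ3⟩ := hQ
  obtain ⟨Cq, hCq⟩ := hQ2 1 (by norm_num)
  -- compact part
  have hcpt : IsCompact (Icc (1 / 2 + h) 2 ×ℂ Icc 1 (4 * T₀)) :=
    isCompact_Icc.reProdIm isCompact_Icc
  have hcont : ContinuousOn (fun s : ℂ => riemannZeta s * Complex.exp (-Sm pr B s))
      (Icc (1 / 2 + h) 2 ×ℂ Icc 1 (4 * T₀)) := by
    intro s hs
    rw [Complex.mem_reProdIm] at hs
    have hs1 : s ≠ 1 := by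
      intro h1
      have := hs.2.1
      rw [h1] at this
      norm_num at this
    have c1 : ContinuousAt riemannZeta s := (differentiableAt_riemannZeta hs1).continuousAt
    have c2 : ContinuousAt (Sm pr B) s :=
      (hA1 s (by linarith [hs.1.1]) (by linarith [hs.1.1])).continuousAt
    exact (c1.mul (Complex.continuous_exp.continuousAt.comp c2.neg)).continuousWithinAt
  obtain ⟨C6, hC6⟩ := hcpt.exists_bound_of_continuousOn hcont
  obtain ⟨L2, hL2⟩ : ∃ L : ℝ, L = ∑' n : ℕ, ‖pr n‖ * (n : ℝ) ^ (-(2 : ℝ)) := ⟨_, rfl⟩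
  refine ⟨max (max (Real.exp (L2 + Cq + CA)) (Real.exp D)) C6, fun s hs1 hs2 => ?_⟩
  have hpow : 1 ≤ s.im ^ ε := Real.one_le_rpow hs2 hε.le
  have hpow0 : 0 ≤ s.im ^ ε := by linarith
  have hm1 : Real.exp (L2 + Cq + CA) ≤
      max (max (Real.exp (L2 + Cq + CA)) (Real.exp D)) C6 :=
    (le_max_left _ _).trans (le_max_left _ _)
  have hm2 : Real.exp D ≤ max (max (Real.exp (L2 + Cq + CA)) (Real.exp D)) C6 :=
    (le_max_right _ _).trans (le_max_left _ _)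
  have hm3 : C6 ≤ max (max (Real.exp (L2 + Cq + CA)) (Real.exp D)) C6 := le_max_right _ _
  have hm0 : 0 ≤ max (max (Real.exp (L2 + Cq + CA)) (Real.exp D)) C6 :=
    (Real.exp_pos _).le.trans hm1
  rcases le_total 2 s.re with h2 | h2
  · -- right half plane
    have e1 : ‖riemannZeta s * Complex.exp (-Sm pr B s)‖ ≤ Real.exp (L2 + Cq + CA) := by
      rw [(hQ3 s (by linarith)).2, ← Complex.exp_add]
      refine (Complex.norm_exp_le_exp_norm _).trans (Real.exp_le_exp.mpr ?_)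
      have g1 : ‖∑' n : ℕ, pr n * (n : ℂ) ^ (-s)‖ ≤ L2 := by rw [hL2]; exact PR2_dir s h2
      have g2 : ‖q2 s‖ ≤ Cq := hCq s (by linarith)
      have g3 : ‖Sm pr B s‖ ≤ CA := hA4 s h2
      calc ‖(∑' n : ℕ, pr n * (n : ℂ) ^ (-s)) + q2 s + -Sm pr B s‖
          ≤ ‖(∑' n : ℕ, pr n * (n : ℂ) ^ (-s)) + q2 s‖ + ‖-Sm pr B s‖ := norm_add_le _ _
        _ ≤ ‖∑' n : ℕ, pr n * (n : ℂ) ^ (-s)‖ + ‖q2 s‖ + ‖-Sm pr B s‖ := by
            have := norm_add_le (∑' n : ℕ, pr n * (n : ℂ) ^ (-s)) (q2 s)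
            linarith
        _ ≤ L2 + Cq + CA := by rw [norm_neg]; linarith
    calc _ ≤ max (max (Real.exp (L2 + Cq + CA)) (Real.exp D)) C6 := e1.trans hm1
      _ ≤ _ := le_mul_of_one_le_right hm0 hpow
  · rcases le_total (4 * T₀) s.im with h3 | h3
    · -- high
      have hz := (hf s (by linarith) (by linarith)).2.1
      have e1 : ‖riemannZeta s * Complex.exp (-Sm pr B s)‖ ≤ Real.exp D * s.im ^ ε := by
        rw [hz, ← Complex.exp_add]
        refine (Complex.norm_exp_le_exp_norm _).trans ?_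
        have g := hD s.im s.re h3 (by linarith) h2
        rw [Complex.re_add_im] at g
        rw [← sub_eq_add_neg]
        calc Real.exp ‖f s + q2 s - Sm pr B s‖ ≤ Real.exp (ε * Real.log s.im + D) :=
              Real.exp_le_exp.mpr g
          _ = Real.exp D * s.im ^ ε := by
              rw [Real.exp_add, Real.rpow_def_of_pos (by linarith), mul_comm (Real.log s.im),
                mul_comm]
      exact e1.trans (mul_le_mul_of_nonneg_right hm2 hpow0)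
    · -- compact
      have e1 := hC6 s (by
        rw [Complex.mem_reProdIm]
        exact ⟨⟨by linarith, h2⟩, ⟨hs2, h3⟩⟩)
      calc _ ≤ max (max (Real.exp (L2 + Cq + CA)) (Real.exp D)) C6 := e1.trans hm3
        _ ≤ _ := le_mul_of_one_le_right hm0 hpow

end Pool.Agent.PertZ
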