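import Pool.Agent.PertZ.Defs2

/-!
# The analytic continuation of the zeta function of a perturbed sequence
-/

set_option autoImplicit false

namespace Pool.Agent.PertZ

open MeasureTheory ProbabilityTheory Set Filter Topology Complex Pool.Agent.CW

/-- `Z` is the analytic continuation of `∑ lam n ^ (-s)` to a neighbourhood of `Re s ≥ 1/2`,
`s ≠ 1` -/
def ContinuesL (lam : ℕ → ℝ) (Z : ℂ → ℂ) : Prop := ∃ δ : ℝ, 0 < δ ∧
  DifferentiableOn ℂ Z {s : ℂ | 1 / 2 - δ < s.re ∧ s ≠ 1} ∧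
  ∀ s : ℂ, 1 < s.re → HasSum (fun n : ℕ => (lam (n + 1) : ℂ) ^ (-s)) (Z s)

/-- the punctured half plane is preconnected -/
theorem CONT_conn {a : ℝ} (ha : a < 1) : IsPreconnected {s : ℂ | a < s.re ∧ s ≠ 1} := by
  have hR : IsPreconnected {s : ℂ | 1 < s.re} := (convex_halfSpace_re_gt 1).isPreconnected
  have hUp : IsPreconnected ({s : ℂ | a < s.re} ∩ {s : ℂ | 0 < s.im}) :=
    ((convex_halfSpace_re_gt a).inter (convex_halfSpace_im_gt 0)).isPreconnected
  have hDn : IsPreconnected ({s : ℂ | a < s.re} ∩ {s : ℂ | s.im < 0}) :=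
    ((convex_halfSpace_re_gt a).inter (convex_halfSpace_im_lt 0)).isPreconnected
  have hLf : IsPreconnected ({s : ℂ | a < s.re} ∩ {s : ℂ | s.re < 1}) :=
    ((convex_halfSpace_re_gt a).inter (convex_halfSpace_re_lt 1)).isPreconnected
  have h1 : IsPreconnected ({s : ℂ | 1 < s.re} ∪
      ({s : ℂ | a < s.re} ∩ {s : ℂ | 0 < s.im})) := by
    refine hR.union (2 + I) ?_ ?_ hUp
    · simp
    · constructor
      · simp; linarith
      · simp
  have h2 : IsPreconnected (({s : ℂ | 1 < s.re} ∪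
      ({s : ℂ | a < s.re} ∩ {s : ℂ | 0 < s.im})) ∪
      ({s : ℂ | a < s.re} ∩ {s : ℂ | s.im < 0})) := by
    refine h1.union (2 - I) ?_ ?_ hDn
    · left; simp
    · constructor
      · simp; linarith
      · simp
  have h3 : IsPreconnected ((({s : ℂ | 1 < s.re} ∪
      ({s : ℂ | a < s.re} ∩ {s : ℂ | 0 < s.im})) ∪
      ({s : ℂ | a < s.re} ∩ {s : ℂ | s.im < 0})) ∪
      ({s : ℂ | a < s.re} ∩ {s : ℂ | s.re < 1})) := by
    refine h2.union ((((a + 1) / 2 : ℝ) : ℂ) + I) ?_ ?_ hLf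
    · left; right
      constructor
      · simp; linarith
      · simp
    · constructor
      · simp; linarith
      · simp; linarith
  convert h3 using 1
  ext s
  simp only [mem_ofPred_eq, mem_union, mem_inter_iff]
  constructor
  · rintro ⟨h, hne⟩
    rcases lt_trichotomy s.im 0 with h4 | h4 | h4
    · exact Or.inl (Or.inr ⟨h, h4⟩)
    · rcases lt_trichotomy s.re 1 with h5 | h5 | h5
      · exact Or.inr ⟨h, h5⟩
      · exact absurd (Complex.ext h5 h4) hne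
      · exact Or.inl (Or.inl (Or.inl h5))
    · exact Or.inl (Or.inl (Or.inr ⟨h, h4⟩))
  · rintro (((h | ⟨h, h'⟩) | ⟨h, h'⟩) | ⟨h, h'⟩)
    · refine ⟨by linarith, ?_⟩
      rintro rfl; simp at h
    · refine ⟨h, ?_⟩
      rintro rfl; simp at h'
    · refine ⟨h, ?_⟩
      rintro rfl; simp at h'
    · refine ⟨h, ?_⟩
      rintro rfl; simp at h'

theorem CONT_exp {z : ℂ} {c : ℝ} (hc : 0 ≤ c) (hz : z.re ≤ c) :
    ‖Complex.exp z - 1‖ ≤ Real.exp c * ‖z‖ := by
  have h := Convex.norm_image_sub_le_of_norm_deriv_le (𝕜 := ℂ) (f := Complex.exp)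
    (s := {w : ℂ | w.re ≤ c}) (C := Real.exp c) (x := 0) (y := z)
    (fun w _ => Complex.differentiableAt_exp)
    (fun w hw => by
      rw [Complex.deriv_exp, Complex.norm_exp]
      exact Real.exp_le_exp.mpr hw) (convex_halfSpace_re_le c) (by simpa using hc) hz
  simpa using h

theorem CONT_eq {N : ℕ} (hN : 1 ≤ N) (x : ℝ) (s : ℂ) :
    (((N : ℝ) * Real.exp x : ℝ) : ℂ) ^ (-s) = (N : ℂ) ^ (-s) * Complex.exp (-s * x) := by
  have hN0 : (0 : ℝ) < N := by exact_mod_cast hN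
  have hNc : (N : ℂ) ≠ 0 := by exact_mod_cast hN0.ne'
  have h1 : (((N : ℝ) * Real.exp x : ℝ) : ℂ) ≠ 0 := by
    exact_mod_cast (mul_pos hN0 (Real.exp_pos x)).ne'
  rw [Complex.cpow_def_of_ne_zero h1, Complex.cpow_def_of_ne_zero hNc, ← Complex.exp_add,
    ← Complex.ofReal_log (mul_pos hN0 (Real.exp_pos x)).le,
    Real.log_mul hN0.ne' (Real.exp_pos x).ne', Real.log_exp, ← Complex.ofReal_natCast,
    ← Complex.ofReal_log hN0.le]
  congr 1
  push_cast
  ring

theorem CONT_term {N : ℕ} (hN : 1 ≤ N) {x : ℝ} (hx : -1 ≤ x) {s : ℂ} (hs : 0 ≤ s.re) :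
    ‖(((N : ℝ) * Real.exp x : ℝ) : ℂ) ^ (-s) - (N : ℂ) ^ (-s)‖ ≤
      Real.exp s.re * (‖s‖ * |x|) * (N : ℝ) ^ (-s.re) := by
  have hN0 : (0 : ℝ) < N := by exact_mod_cast hN
  have h1 : (((N : ℝ) * Real.exp x : ℝ) : ℂ) ^ (-s) - (N : ℂ) ^ (-s) =
      (N : ℂ) ^ (-s) * (Complex.exp (-s * x) - 1) := by
    rw [CONT_eq hN]; ring
  have h2 : ‖(N : ℂ) ^ (-s)‖ = (N : ℝ) ^ (-s.re) := by
    rw [Complex.norm_natCast_cpow_of_pos hN]; simp
  have h3 : ‖Complex.exp (-s * x) - 1‖ ≤ Real.exp s.re * ‖-s * (x : ℂ)‖ := by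
    apply CONT_exp hs
    simp
    nlinarith
  have h4 : ‖-s * (x : ℂ)‖ = ‖s‖ * |x| := by
    rw [norm_mul, norm_neg, Complex.norm_real, Real.norm_eq_abs]
  rw [h4] at h3
  rw [h1, norm_mul, h2, mul_comm]
  exact mul_le_mul_of_nonneg_right h3 (by positivity)

theorem CONT_lt {N : ℕ} (hN : 1 ≤ N) {x : ℝ} (hx : -1 ≤ x) {s : ℂ} {σ R : ℝ} (hσ : 0 ≤ σ)
    (hs : σ ≤ s.re) (hR : ‖s‖ ≤ R) :
    ‖(((N : ℝ) * Real.exp x : ℝ) : ℂ) ^ (-s) - (N : ℂ) ^ (-s)‖ ≤
      Real.exp R * R * (|x| * (N : ℝ) ^ (-σ)) := by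
  have hN0 : (1 : ℝ) ≤ N := by exact_mod_cast hN
  have hR0 : 0 ≤ R := (norm_nonneg s).trans hR
  have hre : s.re ≤ R := (Complex.re_le_norm s).trans hR
  refine (CONT_term hN hx (hσ.trans hs)).trans ?_
  have h1 : Real.exp s.re ≤ Real.exp R := Real.exp_le_exp.mpr hre
  have h2 : (N : ℝ) ^ (-s.re) ≤ (N : ℝ) ^ (-σ) :=
    Real.rpow_le_rpow_of_exponent_le hN0 (by linarith)
  calc Real.exp s.re * (‖s‖ * |x|) * (N : ℝ) ^ (-s.re)
      ≤ Real.exp R * (R * |x|) * (N : ℝ) ^ (-σ) := by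
        apply mul_le_mul _ h2 (by positivity) (by positivity)
        apply mul_le_mul h1 _ (by positivity) (by positivity)
        exact mul_le_mul_of_nonneg_right hR (abs_nonneg _)
    _ = _ := by ring

/-- the continuation on the critical line is `zlam` -/
theorem p_CONT (lam d : ℕ → ℝ) (δ : ℝ) (hδ : 0 < δ) (hδ2 : δ ≤ 1 / 2)
    (hlam : ∀ n, 1 ≤ n → lam n = n * Real.exp (d n)) (hd : ∀ n, 1 ≤ n → -1 ≤ d n)
    (hs : Summable (fun n : ℕ => |d (n + 1)| * ((n + 1 : ℕ) : ℝ) ^ (-(1 / 2 - δ))))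
    (Q : (ℝ → ℂ) → Prop) :
    (∃ Z, ContinuesL lam Z ∧ Q (fun t => Z (1 / 2 + t * I))) ↔ Q (zlam lam) := by
  set E : ℕ → ℂ → ℂ := fun n s => (lam (n + 1) : ℂ) ^ (-s) - ((n + 1 : ℕ) : ℂ) ^ (-s) with hE
  have hEle : ∀ (n : ℕ) (s : ℂ) (R : ℝ), 1 / 2 - δ ≤ s.re → ‖s‖ ≤ R → ‖E n s‖ ≤
      Real.exp R * R * (|d (n + 1)| * ((n + 1 : ℕ) : ℝ) ^ (-(1 / 2 - δ))) := by
    intro n s R h1 h2
    simp only [hE]
    rw [hlam (n + 1) (by omega)]
    exact CONT_lt (by omega) (hd (n + 1) (by omega)) (by linarith) h1 h2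
  have hEsum : ∀ s : ℂ, 1 / 2 - δ ≤ s.re → Summable (fun n => E n s) := by
    intro s h1
    exact Summable.of_norm_bounded (hs.mul_left (Real.exp ‖s‖ * ‖s‖))
      (fun n => hEle n s ‖s‖ h1 le_rfl)
  set D : ℂ → ℂ := fun s => ∑' n : ℕ, E n s with hD
  have hlpos : ∀ n : ℕ, (lam (n + 1) : ℂ) ≠ 0 := by
    intro n
    rw [hlam (n + 1) (by omega)]
    have : (0 : ℝ) < ((n + 1 : ℕ) : ℝ) := by positivity
    exact_mod_cast (mul_pos this (Real.exp_pos _)).ne'
  have hDdiff : ∀ s : ℂ, 1 / 2 - δ < s.re → DifferentiableAt ℂ D s := by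
    intro s h1
    have hU : IsOpen ({w : ℂ | 1 / 2 - δ < w.re} ∩ {w : ℂ | ‖w‖ < ‖s‖ + 1}) :=
      (isOpen_lt continuous_const Complex.continuous_re).inter
        (isOpen_lt continuous_norm continuous_const)
    have h2 : DifferentiableOn ℂ D
        ({w : ℂ | 1 / 2 - δ < w.re} ∩ {w : ℂ | ‖w‖ < ‖s‖ + 1}) := by
      apply differentiableOn_tsum_of_summable_norm
        (hs.mul_left (Real.exp (‖s‖ + 1) * (‖s‖ + 1))) _ hU
      · intro n w hw
        exact hEle n w (‖s‖ + 1) (le_of_lt hw.1) (le_of_lt hw.2)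
      · intro n w hw
        apply DifferentiableAt.differentiableWithinAt
        apply DifferentiableAt.sub
        · exact (differentiable_id.neg).differentiableAt.const_cpow (Or.inl (hlpos n))
        · exact (differentiable_id.neg).differentiableAt.const_cpow
            (Or.inl (by exact_mod_cast Nat.succ_ne_zero n))
    exact h2.differentiableAt (hU.mem_nhds ⟨h1, by simp⟩)
  set Z : ℂ → ℂ := fun s => riemannZeta s + D s with hZ
  have hZd : DifferentiableOn ℂ Z {s : ℂ | 1 / 2 - δ < s.re ∧ s ≠ 1} := by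
    intro s hs
    exact ((differentiableAt_riemannZeta hs.2).add (hDdiff s hs.1)).differentiableWithinAt
  have hZs : ∀ s : ℂ, 1 < s.re → HasSum (fun n : ℕ => (lam (n + 1) : ℂ) ^ (-s)) (Z s) := by
    intro s h1
    have e1 : Summable (fun n : ℕ => ((n + 1 : ℕ) : ℂ) ^ (-s)) := by
      have := (summable_nat_add_iff 1).mpr (Complex.summable_one_div_nat_cpow.mpr h1)
      refine this.congr (fun n => ?_)
      rw [Complex.cpow_neg, one_div]
    have e2 : HasSum (fun n : ℕ => ((n + 1 : ℕ) : ℂ) ^ (-s)) (riemannZeta s) := by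
      rw [zeta_eq_tsum_one_div_nat_add_one_cpow h1]
      convert e1.hasSum using 2
      ext n
      rw [Complex.cpow_neg, one_div]
      push_cast
      rfl
    have e3 := e2.add (hEsum s (by linarith)).hasSum
    have e4 : (fun n : ℕ => ((n + 1 : ℕ) : ℂ) ^ (-s) + E n s) =
        fun n : ℕ => (lam (n + 1) : ℂ) ^ (-s) := by
      ext n
      simp only [hE]
      ring
    rw [e4] at e3
    exact e3
  have hZt : ∀ t : ℝ, Z (1 / 2 + t * I) = zlam lam t := by
    intro t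
    rfl
  have hZt' : (fun t : ℝ => Z (1 / 2 + t * I)) = zlam lam := funext hZt
  constructor
  · rintro ⟨Z', ⟨δ', hδ', hZ'd, hZ's⟩, hZ'e⟩
    have hUo : IsOpen {s : ℂ | 1 / 2 - min δ δ' < s.re ∧ s ≠ 1} :=
      (isOpen_lt continuous_const Complex.continuous_re).inter isOpen_compl_singleton
    have hm : 0 < min δ δ' := lt_min hδ hδ'
    have hA1 : AnalyticOnNhd ℂ Z' {s : ℂ | 1 / 2 - min δ δ' < s.re ∧ s ≠ 1} := by
      apply DifferentiableOn.analyticOnNhd _ hUo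
      refine hZ'd.mono (fun s hs => ⟨?_, hs.2⟩)
      have := min_le_right δ δ'
      linarith [hs.1]
    have hA2 : AnalyticOnNhd ℂ Z {s : ℂ | 1 / 2 - min δ δ' < s.re ∧ s ≠ 1} := by
      apply DifferentiableOn.analyticOnNhd _ hUo
      refine hZd.mono (fun s hs => ⟨?_, hs.2⟩)
      have := min_le_left δ δ'
      linarith [hs.1]
    have hev : Z' =ᶠ[𝓝 (2 : ℂ)] Z := by
      have hV : IsOpen {s : ℂ | 1 < s.re} := isOpen_lt continuous_const Complex.continuous_re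
      filter_upwards [hV.mem_nhds (show (2 : ℂ) ∈ {s : ℂ | 1 < s.re} by simp)] with w hw
      exact (hZ's w hw).unique (hZs w hw)
    have h2 : (2 : ℂ) ∈ {s : ℂ | 1 / 2 - min δ δ' < s.re ∧ s ≠ 1} := by
      refine ⟨?_, by norm_num⟩
      simp
      linarith
    have heq := hA1.eqOn_of_preconnected_of_eventuallyEq hA2 (CONT_conn (by linarith)) h2 hev
    have hfun : (fun t : ℝ => Z' (1 / 2 + t * I)) = zlam lam := by
      rw [← hZt']
      funext t
      apply heq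
      refine ⟨?_, ?_⟩
      · have h5 : (1 / 2 + t * I : ℂ).re = 1 / 2 := by simp
        rw [h5]
        linarith
      · intro h
        have := congrArg Complex.re h
        simp at this
    rw [← hfun]
    exact hZ'e
  · intro h
    refine ⟨Z, ⟨δ, hδ, hZd, hZs⟩, ?_⟩
    rw [hZt']
    exact h

end Pool.Agent.PertZ
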