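import Pool.Agent.PertZ.Defs

/-!
# The Lindelöf hypothesis under random perturbation of the primes: assembly
-/

set_option autoImplicit false

namespace Pool.Agent.PertZ

open MeasureTheory ProbabilityTheory Set Filter Topology Complex Pool.Agent.CW

/-- the exponential of a power of the logarithm is `O(t ^ ε)` -/
theorem PRI_exp (C ε : ℝ) (hε : 0 < ε) : ∃ K : ℝ, 0 < K ∧ ∀ t : ℝ, 1 ≤ t →
    Real.exp (C * (1 + Real.log (1 + t)) ^ (2 / 3 : ℝ)) ≤ K * t ^ ε := by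
  have hC0 : 0 ≤ |C| := abs_nonneg C
  refine ⟨Real.exp (|C| ^ 3 / ε ^ 2 + ε * (1 + Real.log 2)), Real.exp_pos _, ?_⟩
  intro t ht
  have ht0 : 0 < t := by linarith
  have hlog0 : 0 ≤ Real.log (1 + t) := Real.log_nonneg (by linarith)
  have hlog1 : Real.log (1 + t) ≤ Real.log 2 + Real.log t := by
    rw [← Real.log_mul (by norm_num) ht0.ne']
    exact Real.log_le_log (by linarith) (by linarith)
  set L : ℝ := 1 + Real.log (1 + t) with hL
  have hL0 : 0 ≤ L := by linarith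
  set y : ℝ := L ^ (1 / 3 : ℝ) with hy
  have hy0 : 0 ≤ y := Real.rpow_nonneg hL0 _
  have hy3 : y ^ 3 = L := by
    rw [hy, ← Real.rpow_natCast, ← Real.rpow_mul hL0]; norm_num
  have hy2 : L ^ (2 / 3 : ℝ) = y ^ 2 := by
    rw [hy, ← Real.rpow_natCast, ← Real.rpow_mul hL0]; norm_num
  have key : C * L ^ (2 / 3 : ℝ) ≤ ε * L + |C| ^ 3 / ε ^ 2 := by
    rw [hy2]
    have h1 : C * y ^ 2 ≤ |C| * y ^ 2 :=
      mul_le_mul_of_nonneg_right (le_abs_self C) (sq_nonneg y)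
    refine h1.trans ?_
    rcases le_total (|C|) (ε * y) with h | h
    · have h2 : |C| * y ^ 2 ≤ (ε * y) * y ^ 2 := mul_le_mul_of_nonneg_right h (sq_nonneg y)
      have h3 : (ε * y) * y ^ 2 = ε * L := by rw [← hy3]; ring
      have h4 : 0 ≤ |C| ^ 3 / ε ^ 2 := by positivity
      linarith
    · have h2 : y ≤ |C| / ε := by
        rw [le_div_iff₀ hε]; linarith
      have h3 : y ^ 2 ≤ (|C| / ε) ^ 2 := pow_le_pow_left₀ hy0 h2 2
      have h4 : |C| * y ^ 2 ≤ |C| * (|C| / ε) ^ 2 := mul_le_mul_of_nonneg_left h3 hC0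
      have h5 : |C| * (|C| / ε) ^ 2 = |C| ^ 3 / ε ^ 2 := by field_simp
      have h6 : 0 ≤ ε * L := by positivity
      linarith
  have h7 : C * L ^ (2 / 3 : ℝ) ≤
      (|C| ^ 3 / ε ^ 2 + ε * (1 + Real.log 2)) + Real.log t * ε := by
    have h8 : ε * L ≤ ε * (1 + (Real.log 2 + Real.log t)) :=
      mul_le_mul_of_nonneg_left (by rw [hL]; linarith) hε.le
    nlinarith [key, h8]
  calc Real.exp (C * L ^ (2 / 3 : ℝ))
      ≤ Real.exp ((|C| ^ 3 / ε ^ 2 + ε * (1 + Real.log 2)) + Real.log t * ε) :=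
        Real.exp_le_exp.mpr h7
    _ = Real.exp (|C| ^ 3 / ε ^ 2 + ε * (1 + Real.log 2)) * t ^ ε := by
        rw [Real.exp_add, Real.rpow_def_of_pos ht0]

/-- the smoothed prime sums commute with conjugation -/
theorem PRI_conj (B : ℝ) (s : ℂ) :
    Sm pr B ((starRingEnd ℂ) s) = (starRingEnd ℂ) (Sm pr B s) := by
  unfold Sm
  rw [map_mul, Complex.conj_tsum]
  congr 1
  refine tsum_congr fun n => ?_
  have harg : (n : ℂ).arg ≠ Real.pi := by
    rw [Complex.natCast_arg]; exact Real.pi_pos.ne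
  have h1 : (n : ℂ) ^ (-(starRingEnd ℂ) s) = (starRingEnd ℂ) ((n : ℂ) ^ (-s)) := by
    have := Complex.cpow_conj (n : ℂ) (-s) harg
    rw [map_neg, Complex.conj_natCast] at this
    exact this
  have h2 : (starRingEnd ℂ) (pr n) = pr n := by
    unfold pr; split_ifs <;> simp
  rw [map_div₀, map_mul, map_add, h1, h2, Complex.conj_ofReal]

/-- the size of `zeta exp (-Sm)` at conjugate points -/
theorem PRI_norm_conj (B : ℝ) (s : ℂ) :
    ‖riemannZeta ((starRingEnd ℂ) s) * Complex.exp (-Sm pr B ((starRingEnd ℂ) s))‖ =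
      ‖riemannZeta s * Complex.exp (-Sm pr B s)‖ := by
  rw [PRI_conj, riemannZeta_conj, ← map_neg, Complex.exp_conj, ← map_mul, Complex.norm_conj]

/-- from the Lindelöf bound for the positive imaginary parts to both signs -/
theorem PRI_both (B σ ε : ℝ) (C : ℝ)
    (h : ∀ s : ℂ, σ ≤ s.re → 1 ≤ s.im →
      ‖riemannZeta s * Complex.exp (-Sm pr B s)‖ ≤ C * s.im ^ ε) :
    ∀ s : ℂ, σ ≤ s.re → 1 ≤ |s.im| →
      ‖riemannZeta s * Complex.exp (-Sm pr B s)‖ ≤ C * |s.im| ^ ε := by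
  intro s hs him
  rcases le_total 0 s.im with h0 | h0
  · rw [abs_of_nonneg h0] at him ⊢
    exact h s hs him
  · rw [abs_of_nonpos h0] at him ⊢
    have h1 := h ((starRingEnd ℂ) s) (by rw [Complex.conj_re]; exact hs)
      (by rw [Complex.conj_im]; exact him)
    rw [PRI_norm_conj, Complex.conj_im] at h1
    exact h1

/-- the exponential of the fluctuation -/
theorem PRI_fluct (σ C ε : ℝ) (hε : 0 < ε) : ∃ K : ℝ, 0 < K ∧ ∀ (s w : ℂ), σ ≤ s.re →
    1 ≤ |s.im| → ‖w‖ ≤ C * (1 + Real.log (1 + |s.im|)) ^ (2 / 3 : ℝ) →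
    ‖Complex.exp w‖ ≤ K * |s.im| ^ ε := by
  obtain ⟨K, hK, hK'⟩ := PRI_exp C ε hε
  refine ⟨K, hK, fun s w _ him hw => ?_⟩
  calc ‖Complex.exp w‖ ≤ Real.exp ‖w‖ := Complex.norm_exp_le_exp_norm w
    _ ≤ Real.exp (C * (1 + Real.log (1 + |s.im|)) ^ (2 / 3 : ℝ)) := Real.exp_le_exp.mpr hw
    _ ≤ K * |s.im| ^ ε := hK' _ him

theorem p_PRI (hE : P_PEU) (hF : P_PFL) (h1 : P_PR1) (h2 : P_PR2) : P_PRI := by
  intro Ω _ P _ X hX B hB
  have hne : ∀ s : ℂ, 1 ≤ |s.im| → s ≠ 1 := by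
    rintro s hs rfl
    simp at hs
    linarith
  constructor
  · intro hFZ
    filter_upwards [hF P X hX B hB] with ω hω
    obtain ⟨hx0, hxs, hfl⟩ := hω
    obtain ⟨-, Z, hZd, hZp, -, hZb⟩ := hE B (fun n => X n ω) hB hx0 hxs
    refine ⟨Z, hZd, hZp, ?_⟩
    intro σ hσ ε hε
    obtain ⟨C₁, hC₁, hb⟩ := hZb σ hσ
    obtain ⟨C₂, hC₂⟩ := h2 hFZ B hB σ hσ (ε / 2) (by linarith)
    have hC₂' := PRI_both B σ (ε / 2) C₂ hC₂
    obtain ⟨C₃, hC₃⟩ := hfl σ hσ
    obtain ⟨K, hK, hKb⟩ := PRI_fluct σ C₃ (ε / 2) (by linarith)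
    refine ⟨C₁ * (C₂ * K), fun s hs him => ?_⟩
    have hb1 := (hb s hs (hne s him)).1
    set S : ℂ := ∑' n : ℕ, pr n * ((pert B (fun n => X n ω) n : ℂ) ^ (-s) - (n : ℂ) ^ (-s))
      with hS
    have e1 : riemannZeta s * Complex.exp S =
        (riemannZeta s * Complex.exp (-Sm pr B s)) * Complex.exp (S + Sm pr B s) := by
      rw [mul_assoc, ← Complex.exp_add]; congr 2; ring
    have hw := hKb s (S + Sm pr B s) hs him (hC₃ s hs)
    have hz := hC₂' s hs him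
    have himp : 0 < |s.im| := by linarith
    have hpe : |s.im| ^ (ε / 2) * |s.im| ^ (ε / 2) = |s.im| ^ ε := by
      rw [← Real.rpow_add himp]; congr 1; ring
    calc ‖Z s‖ ≤ C₁ * ‖riemannZeta s * Complex.exp S‖ := hb1
      _ = C₁ * (‖riemannZeta s * Complex.exp (-Sm pr B s)‖ * ‖Complex.exp (S + Sm pr B s)‖) := by
          rw [e1, norm_mul]
      _ ≤ C₁ * ((C₂ * |s.im| ^ (ε / 2)) * (K * |s.im| ^ (ε / 2))) :=
          mul_le_mul_of_nonneg_left
            (mul_le_mul hz hw (norm_nonneg _) ((norm_nonneg _).trans hz)) hC₁.le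
      _ = C₁ * (C₂ * K) * |s.im| ^ ε := by rw [← hpe]; ring
  · intro hnFZ
    filter_upwards [hF P X hX B hB] with ω hω
    obtain ⟨hx0, hxs, hfl⟩ := hω
    obtain ⟨-, Z, -, -, hZu, hZb⟩ := hE B (fun n => X n ω) hB hx0 hxs
    rintro ⟨Z', hZd', hZp', hZb'⟩
    apply hnFZ
    apply h1 B hB
    intro σ hσ ε hε
    obtain ⟨C₁, hC₁, hb⟩ := hZb σ hσ
    obtain ⟨C₂, hC₂⟩ := hZb' σ hσ (ε / 2) (by linarith)
    obtain ⟨C₃, hC₃⟩ := hfl σ hσ
    obtain ⟨K, hK, hKb⟩ := PRI_fluct σ C₃ (ε / 2) (by linarith)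
    refine ⟨C₁ * (C₂ * K), fun s hs him => ?_⟩
    have him' : 1 ≤ |s.im| := him.trans (le_abs_self _)
    have hb2 := (hb s hs (hne s him')).2
    have heq : Z' s = Z s := hZu Z' hZd' hZp' s (lt_of_lt_of_le hσ hs) (hne s him')
    have hz := hC₂ s hs him'
    rw [heq] at hz
    set S : ℂ := ∑' n : ℕ, pr n * ((pert B (fun n => X n ω) n : ℂ) ^ (-s) - (n : ℂ) ^ (-s))
      with hS
    have e1 : riemannZeta s * Complex.exp (-Sm pr B s) =
        (riemannZeta s * Complex.exp S) * Complex.exp (-(S + Sm pr B s)) := by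
      rw [mul_assoc, ← Complex.exp_add]; congr 2; ring
    have hw := hKb s (-(S + Sm pr B s)) hs him' (by rw [norm_neg]; exact hC₃ s hs)
    have himp : 0 < s.im := by linarith
    have habs : |s.im| = s.im := abs_of_pos himp
    rw [habs] at hz hw
    have hpe : s.im ^ (ε / 2) * s.im ^ (ε / 2) = s.im ^ ε := by
      rw [← Real.rpow_add himp]; congr 1; ring
    calc ‖riemannZeta s * Complex.exp (-Sm pr B s)‖
        = ‖riemannZeta s * Complex.exp S‖ * ‖Complex.exp (-(S + Sm pr B s))‖ := by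
          rw [e1, norm_mul]
      _ ≤ (C₁ * (C₂ * s.im ^ (ε / 2))) * (K * s.im ^ (ε / 2)) := by
          have h3 : ‖riemannZeta s * Complex.exp S‖ ≤ C₁ * (C₂ * s.im ^ (ε / 2)) :=
            hb2.trans (mul_le_mul_of_nonneg_left hz hC₁.le)
          exact mul_le_mul h3 hw (norm_nonneg _) ((norm_nonneg _).trans h3)
      _ = C₁ * (C₂ * K) * s.im ^ ε := by rw [← hpe]; ring

end Pool.Agent.PertZ
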