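import Pool.Agent.PertZ.Defs4
import Pool.Agent.PertZ.PRI
import Pool.Agent.PertZ.CONT

/-!
# Part 3: the Lindelöf abscissa of the perturbed primes, assembly
-/

set_option autoImplicit false

namespace Pool.Agent.PertZ

open MeasureTheory ProbabilityTheory Set Filter Topology Complex Pool.Agent.CW

/-- two continuations of the same Euler product agree -/
theorem PRIT_unique {θ : ℝ} (hθ : θ < 1) {F : ℂ → ℕ → ℂ} {Z Z' : ℂ → ℂ}
    (hZ : DifferentiableOn ℂ Z {s : ℂ | θ < s.re ∧ s ≠ 1})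
    (hZ' : DifferentiableOn ℂ Z' {s : ℂ | θ < s.re ∧ s ≠ 1})
    (h : ∀ s : ℂ, 1 < s.re → HasProd (fun p : Nat.Primes => F s p) (Z s))
    (h' : ∀ s : ℂ, 1 < s.re → HasProd (fun p : Nat.Primes => F s p) (Z' s)) :
    ∀ s : ℂ, θ < s.re → s ≠ 1 → Z' s = Z s := by
  have hUo : IsOpen {s : ℂ | θ < s.re ∧ s ≠ 1} :=
    (isOpen_lt continuous_const Complex.continuous_re).inter isOpen_compl_singleton
  have hev : Z' =ᶠ[𝓝 (2 : ℂ)] Z := by
    have hV : IsOpen {s : ℂ | 1 < s.re} := isOpen_lt continuous_const Complex.continuous_re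
    filter_upwards [hV.mem_nhds (show (2 : ℂ) ∈ {s : ℂ | 1 < s.re} by simp)] with w hw
    exact (h' w hw).unique (h w hw)
  have h2 : (2 : ℂ) ∈ {s : ℂ | θ < s.re ∧ s ≠ 1} := by
    refine ⟨?_, by norm_num⟩
    simp
    linarith
  have heq := (hZ'.analyticOnNhd hUo).eqOn_of_preconnected_of_eventuallyEq
    (hZ.analyticOnNhd hUo) (CONT_conn hθ) h2 hev
  intro s hs hs1
  exact heq ⟨hs, hs1⟩

theorem p_PRIT (hE : P_PEU) (hF : P_PFL) (h1 : P_PR1T) (h2 : P_PR2T) : P_PRIT := by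
  intro Ω _ P _ X hX B hB
  have hne : ∀ s : ℂ, 1 ≤ |s.im| → s ≠ 1 := by
    rintro s hs rfl
    simp at hs
    linarith
  filter_upwards [hF P X hX B hB] with ω hω
  intro θ hθ hθ1
  obtain ⟨hx0, hxs, hfl⟩ := hω
  obtain ⟨-, Z, hZd, hZp, -, hZb⟩ := hE B (fun n => X n ω) hB hx0 hxs
  have hZd' : DifferentiableOn ℂ Z {s : ℂ | θ < s.re ∧ s ≠ 1} :=
    hZd.mono fun s hs => ⟨lt_of_le_of_lt hθ hs.1, hs.2⟩
  constructor
  · rintro ⟨Z', hZ1, hZ2, hZ3⟩
    apply h1 B θ hB hθ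
    intro σ hσ ε hε
    have hσ' : 1 / 2 < σ := lt_of_le_of_lt hθ hσ
    obtain ⟨C₁, hC₁, hb⟩ := hZb σ hσ'
    obtain ⟨C₂, hC₂⟩ := hZ3 σ hσ (ε / 2) (by linarith)
    obtain ⟨C₃, hC₃⟩ := hfl σ hσ'
    obtain ⟨K, hK, hKb⟩ := PRI_fluct σ C₃ (ε / 2) (by linarith)
    refine ⟨C₁ * (C₂ * K), fun s hs him => ?_⟩
    have him' : 1 ≤ |s.im| := him.trans (le_abs_self _)
    have hb2 := (hb s hs (hne s him')).2
    have heq : Z' s = Z s := PRIT_unique
      (F := fun s p => (1 - (pert B (fun n => X n ω) p : ℂ) ^ (-s))⁻¹) hθ1 hZd' hZ1 hZp hZ2 s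
      (lt_of_lt_of_le hσ hs) (hne s him')
    have hz := hC₂ s hs him'
    rw [heq] at hz
    set S : ℂ := ∑' n : ℕ, pr n * ((pert B (fun n => X n ω) n : ℂ) ^ (-s) - (n : ℂ) ^ (-s))
      with hS
    have e1 : riemannZeta s * Complex.exp (-Sm pr B s) =
        (riemannZeta s * Complex.exp S) * Complex.exp (-(S + Sm pr B s)) := by
      rw [mul_assoc, ← Complex.exp_add]; congr 2; ring
    have hw := hKb s (-(S + Sm pr B s)) hs him' (by rw [norm_neg]; exact hC₃ s hs)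
    have himp : 0 < s.im := by linarith
    have habs : |s.im| = s.im := abs_of_pos himp
    rw [habs] at hz hw
    have hpe : s.im ^ (ε / 2) * s.im ^ (ε / 2) = s.im ^ ε := by
      rw [← Real.rpow_add himp]; congr 1; ring
    calc ‖riemannZeta s * Complex.exp (-Sm pr B s)‖
        = ‖riemannZeta s * Complex.exp S‖ * ‖Complex.exp (-(S + Sm pr B s))‖ := by
          rw [e1, norm_mul]
      _ ≤ (C₁ * (C₂ * s.im ^ (ε / 2))) * (K * s.im ^ (ε / 2)) := by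
          have h3 : ‖riemannZeta s * Complex.exp S‖ ≤ C₁ * (C₂ * s.im ^ (ε / 2)) :=
            hb2.trans (mul_le_mul_of_nonneg_left hz hC₁.le)
          exact mul_le_mul h3 hw (norm_nonneg _) ((norm_nonneg _).trans h3)
      _ = C₁ * (C₂ * K) * s.im ^ ε := by rw [← hpe]; ring
  · intro hFZ
    refine ⟨Z, hZd', hZp, ?_⟩
    intro σ hσ ε hε
    have hσ' : 1 / 2 < σ := lt_of_le_of_lt hθ hσ
    obtain ⟨C₁, hC₁, hb⟩ := hZb σ hσ'
    obtain ⟨C₂, hC₂⟩ := h2 θ hθ hFZ B hB σ hσ (ε / 2) (by linarith)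
    have hC₂' := PRI_both B σ (ε / 2) C₂ hC₂
    obtain ⟨C₃, hC₃⟩ := hfl σ hσ'
    obtain ⟨K, hK, hKb⟩ := PRI_fluct σ C₃ (ε / 2) (by linarith)
    refine ⟨C₁ * (C₂ * K), fun s hs him => ?_⟩
    have hb1 := (hb s hs (hne s him)).1
    set S : ℂ := ∑' n : ℕ, pr n * ((pert B (fun n => X n ω) n : ℂ) ^ (-s) - (n : ℂ) ^ (-s))
      with hS
    have e1 : riemannZeta s * Complex.exp S =
        (riemannZeta s * Complex.exp (-Sm pr B s)) * Complex.exp (S + Sm pr B s) := by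
      rw [mul_assoc, ← Complex.exp_add]; congr 2; ring
    have hw := hKb s (S + Sm pr B s) hs him (hC₃ s hs)
    have hz := hC₂' s hs him
    have himp : 0 < |s.im| := by linarith
    have hpe : |s.im| ^ (ε / 2) * |s.im| ^ (ε / 2) = |s.im| ^ ε := by
      rw [← Real.rpow_add himp]; congr 1; ring
    calc ‖Z s‖ ≤ C₁ * ‖riemannZeta s * Complex.exp S‖ := hb1
      _ = C₁ * (‖riemannZeta s * Complex.exp (-Sm pr B s)‖ * ‖Complex.exp (S + Sm pr B s)‖) := by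
          rw [e1, norm_mul]
      _ ≤ C₁ * ((C₂ * |s.im| ^ (ε / 2)) * (K * |s.im| ^ (ε / 2))) :=
          mul_le_mul_of_nonneg_left
            (mul_le_mul hz hw (norm_nonneg _) ((norm_nonneg _).trans hz)) hC₁.le
      _ = C₁ * (C₂ * K) * |s.im| ^ ε := by rw [← hpe]; ring

end Pool.Agent.PertZ
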