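import Pool.Agent.PertZ.Defs

/-!
# The weights `n^(-κ) s / (n^B + s)` as mixtures of the weights `min (n/Y) (Y/n)`
-/

set_option autoImplicit false

namespace Pool.Agent.PertZ

open MeasureTheory Set Filter Topology Complex

namespace REP_

/-- `Y^B / (Y^B + s)` -/
noncomputable def q (B : ℝ) (s : ℂ) (Y : ℝ) : ℂ := ((Y ^ B : ℝ) : ℂ) / (((Y ^ B : ℝ) : ℂ) + s)

/-- `Y^(-κ) s / (Y^B + s)` -/
noncomputable def g (B κ : ℝ) (s : ℂ) (Y : ℝ) : ℂ :=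
  ((Y ^ (-κ) : ℝ) : ℂ) * (s / (((Y ^ B : ℝ) : ℂ) + s))

/-- `θ g` -/
noncomputable def g1 (B κ : ℝ) (s : ℂ) (Y : ℝ) : ℂ := -(κ + B * q B s Y) * g B κ s Y

/-- `θ² g` -/
noncomputable def g2 (B κ : ℝ) (s : ℂ) (Y : ℝ) : ℂ :=
  ((κ + B * q B s Y) ^ 2 - B ^ 2 * (q B s Y * (1 - q B s Y))) * g B κ s Y

theorem den_norm {B : ℝ} {s : ℂ} (hs : 0 ≤ s.re) {Y : ℝ} (hY : 0 < Y) :
    Y ^ B ≤ ‖((Y ^ B : ℝ) : ℂ) + s‖ ∧ ‖s‖ ≤ ‖((Y ^ B : ℝ) : ℂ) + s‖ := by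
  have hB : 0 < Y ^ B := Real.rpow_pos_of_pos hY B
  constructor
  · have h := Complex.re_le_norm (((Y ^ B : ℝ) : ℂ) + s)
    rw [Complex.add_re, Complex.ofReal_re] at h
    linarith
  · rw [Complex.norm_def, Complex.norm_def]
    apply Real.sqrt_le_sqrt
    rw [Complex.normSq_apply, Complex.normSq_apply, Complex.add_re, Complex.add_im,
      Complex.ofReal_re, Complex.ofReal_im]
    nlinarith

theorem den_ne {B : ℝ} {s : ℂ} (hs : 0 ≤ s.re) {Y : ℝ} (hY : 0 < Y) :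
    ((Y ^ B : ℝ) : ℂ) + s ≠ 0 := by
  have h := (den_norm (B := B) hs hY).1
  have hB : 0 < Y ^ B := Real.rpow_pos_of_pos hY B
  intro h0
  rw [h0, norm_zero] at h
  linarith

theorem q_norm {B : ℝ} {s : ℂ} (hs : 0 ≤ s.re) {Y : ℝ} (hY : 0 < Y) : ‖q B s Y‖ ≤ 1 := by
  have hB : 0 < Y ^ B := Real.rpow_pos_of_pos hY B
  have h := den_norm (B := B) hs hY
  rw [q, norm_div, Complex.norm_real, Real.norm_of_nonneg hB.le]
  exact div_le_one_of_le₀ h.1 (norm_nonneg _)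

theorem one_sub_q {B : ℝ} {s : ℂ} (hs : 0 ≤ s.re) {Y : ℝ} (hY : 0 < Y) :
    1 - q B s Y = s / (((Y ^ B : ℝ) : ℂ) + s) := by
  have h := den_ne (B := B) hs hY
  rw [q]
  field_simp
  ring

theorem frac_norm {B : ℝ} {s : ℂ} (hs : 0 ≤ s.re) {Y : ℝ} (hY : 0 < Y) :
    ‖s / (((Y ^ B : ℝ) : ℂ) + s)‖ ≤ min 1 (‖s‖ * Y ^ (-B)) := by
  have hB : 0 < Y ^ B := Real.rpow_pos_of_pos hY B
  have h := den_norm (B := B) hs hY
  rw [norm_div]
  refine le_min (div_le_one_of_le₀ h.2 (norm_nonneg _)) ?_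
  rw [Real.rpow_neg hY.le, ← div_eq_mul_inv]
  exact div_le_div_of_nonneg_left (norm_nonneg _) hB h.1

theorem g_norm {B κ : ℝ} {s : ℂ} (hs : 0 ≤ s.re) {Y : ℝ} (hY : 0 < Y) :
    ‖g B κ s Y‖ ≤ Y ^ (-κ) * min 1 (‖s‖ * Y ^ (-B)) := by
  have hk : 0 < Y ^ (-κ) := Real.rpow_pos_of_pos hY _
  rw [g, norm_mul, Complex.norm_real, Real.norm_of_nonneg hk.le]
  exact mul_le_mul_of_nonneg_left (frac_norm hs hY) hk.le

theorem hasDerivAt_rpow' (a : ℝ) {Y : ℝ} (hY : 0 < Y) :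
    HasDerivAt (fun Y : ℝ => ((Y ^ a : ℝ) : ℂ)) ((a : ℂ) * ((Y ^ a : ℝ) : ℂ) / (Y : ℂ)) Y := by
  have h := (Real.hasDerivAt_rpow_const (x := Y) (p := a) (Or.inl hY.ne')).ofReal_comp
  convert h using 1
  rw [Real.rpow_sub_one hY.ne']
  push_cast
  ring

theorem hasDerivAt_q {B : ℝ} {s : ℂ} (hs : 0 ≤ s.re) {Y : ℝ} (hY : 0 < Y) :
    HasDerivAt (q B s) ((B : ℂ) * (q B s Y * (1 - q B s Y)) / (Y : ℂ)) Y := by
  have h := den_ne (B := B) hs hY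
  have h1 := hasDerivAt_rpow' B hY
  have h2 := h1.fun_div (h1.add_const s) h
  have hY' : (Y : ℂ) ≠ 0 := by exact_mod_cast hY.ne'
  refine (h2.congr_deriv ?_ : HasDerivAt (fun Y : ℝ => ((Y ^ B : ℝ) : ℂ) / (((Y ^ B : ℝ) : ℂ) + s)) _ Y)
  rw [one_sub_q hs hY, q]
  field_simp
  ring

theorem hasDerivAt_g {B κ : ℝ} {s : ℂ} (hs : 0 ≤ s.re) {Y : ℝ} (hY : 0 < Y) :
    HasDerivAt (g B κ s) (g1 B κ s Y / (Y : ℂ)) Y := by
  have h := den_ne (B := B) hs hY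
  have h1 := hasDerivAt_rpow' B hY
  have h2 := (hasDerivAt_rpow' (-κ) hY).fun_mul ((hasDerivAt_const Y s).fun_div (h1.add_const s) h)
  have hY' : (Y : ℂ) ≠ 0 := by exact_mod_cast hY.ne'
  refine (h2.congr_deriv ?_ :
    HasDerivAt (fun Y : ℝ => ((Y ^ (-κ) : ℝ) : ℂ) * (s / (((Y ^ B : ℝ) : ℂ) + s))) _ Y)
  rw [g1, g, q]
  push_cast
  field_simp
  ring

theorem hasDerivAt_g1 {B κ : ℝ} {s : ℂ} (hs : 0 ≤ s.re) {Y : ℝ} (hY : 0 < Y) :
    HasDerivAt (g1 B κ s) (g2 B κ s Y / (Y : ℂ)) Y := by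
  have hq := hasDerivAt_q (B := B) hs hY
  have hg := hasDerivAt_g (B := B) (κ := κ) hs hY
  have h2 := ((hq.const_mul (B : ℂ)).const_add (κ : ℂ)).fun_neg.fun_mul hg
  have hY' : (Y : ℂ) ≠ 0 := by exact_mod_cast hY.ne'
  refine (h2.congr_deriv ?_ : HasDerivAt (fun Y : ℝ => -(κ + B * q B s Y) * g B κ s Y) _ Y)
  rw [g2, g1]
  field_simp
  ring

/-- the density -/
noncomputable def rho (B κ : ℝ) (s : ℂ) (Y : ℝ) : ℂ := (g B κ s Y - g2 B κ s Y) / 2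

theorem rho_continuousAt {B κ : ℝ} {s : ℂ} (hs : 0 ≤ s.re) {Y : ℝ} (hY : 0 < Y) :
    ContinuousAt (rho B κ s) Y := by
  have hq : ContinuousAt (q B s) Y := (hasDerivAt_q (B := B) hs hY).continuousAt
  have hg : ContinuousAt (g B κ s) Y := (hasDerivAt_g (B := B) (κ := κ) hs hY).continuousAt
  show ContinuousAt (fun Y => (g B κ s Y -
    ((κ + B * q B s Y) ^ 2 - B ^ 2 * (q B s Y * (1 - q B s Y))) * g B κ s Y) / 2) Y
  fun_prop

theorem coef_norm {B κ : ℝ} (hB : 0 < B) {z : ℂ} (hz : ‖z‖ ≤ 1) : ‖(κ : ℂ) + B * z‖ ≤ |κ| + B := by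
  refine (norm_add_le _ _).trans ?_
  rw [norm_mul, Complex.norm_real, Complex.norm_real, Real.norm_eq_abs, Real.norm_of_nonneg hB.le]
  have := mul_le_mul_of_nonneg_left hz hB.le
  linarith

theorem g1_norm {B κ : ℝ} (hB : 0 < B) {s : ℂ} (hs : 0 ≤ s.re) {Y : ℝ} (hY : 0 < Y) :
    ‖g1 B κ s Y‖ ≤ (|κ| + B) * ‖g B κ s Y‖ := by
  rw [g1, norm_mul, norm_neg]
  exact mul_le_mul_of_nonneg_right (coef_norm hB (q_norm hs hY)) (norm_nonneg _)

theorem g2_norm {B κ : ℝ} (hB : 0 < B) {s : ℂ} (hs : 0 ≤ s.re) {Y : ℝ} (hY : 0 < Y) :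
    ‖g2 B κ s Y‖ ≤ ((|κ| + B) ^ 2 + B ^ 2) * ‖g B κ s Y‖ := by
  rw [g2, norm_mul]
  refine mul_le_mul_of_nonneg_right ?_ (norm_nonneg _)
  refine (norm_sub_le _ _).trans (add_le_add ?_ ?_)
  · rw [norm_pow]
    exact pow_le_pow_left₀ (norm_nonneg _) (coef_norm hB (q_norm hs hY)) 2
  · rw [norm_mul, norm_mul, norm_pow, Complex.norm_real, Real.norm_of_nonneg hB.le]
    have h1 := q_norm (B := B) hs hY
    have h2 : ‖1 - q B s Y‖ ≤ 1 := by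
      rw [one_sub_q hs hY]
      exact (frac_norm hs hY).trans (min_le_left _ _)
    have h3 : ‖q B s Y‖ * ‖1 - q B s Y‖ ≤ 1 := mul_le_one₀ h1 (norm_nonneg _) h2
    have h4 : 0 ≤ B ^ 2 := sq_nonneg B
    calc B ^ 2 * (‖q B s Y‖ * ‖1 - q B s Y‖) ≤ B ^ 2 * 1 := mul_le_mul_of_nonneg_left h3 h4
      _ = B ^ 2 := mul_one _

theorem rho_norm {B κ : ℝ} (hB : 0 < B) {s : ℂ} (hs : 0 ≤ s.re) {Y : ℝ} (hY : 0 < Y) :
    ‖rho B κ s Y‖ ≤ (1 + (|κ| + B) ^ 2 + B ^ 2) * ‖g B κ s Y‖ := by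
  rw [rho, norm_div]
  have h1 := norm_sub_le (g B κ s Y) (g2 B κ s Y)
  have h2 := g2_norm (κ := κ) hB hs hY
  have h3 := norm_nonneg (g B κ s Y)
  have h4 : ‖(2 : ℂ)‖ = 2 := by simp
  rw [h4, div_le_iff₀ (by norm_num)]
  nlinarith [sq_nonneg (|κ| + B), sq_nonneg B, mul_nonneg (sq_nonneg (|κ| + B)) h3,
    mul_nonneg (sq_nonneg B) h3]

/-- the integrand -/
noncomputable def integrand (B κ : ℝ) (s : ℂ) (N Y : ℝ) : ℂ :=
  ((min (N / Y) (Y / N) / Y : ℝ) : ℂ) * rho B κ s Y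

theorem integrand_integrable {B κ : ℝ} (hB : 0 < B) (hk : 0 < κ + B) {s : ℂ} (hs : 0 ≤ s.re)
    {N : ℝ} (hN : 1 ≤ N) : IntegrableOn (integrand B κ s N) (Ioi 1) := by
  have hN0 : 0 < N := by linarith
  have hint : IntegrableOn (fun Y : ℝ => (1 + (|κ| + B) ^ 2 + B ^ 2) * N * ‖s‖ *
      Y ^ (-κ - B - 2)) (Ioi 1) :=
    (integrableOn_Ioi_rpow_of_lt (by linarith) one_pos).const_mul _
  refine Integrable.mono' hint ?_ ?_
  · refine ContinuousOn.aestronglyMeasurable ?_ measurableSet_Ioi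
    intro Y hY
    have hY1 : (1 : ℝ) < Y := hY
    have hY0 : 0 < Y := by linarith
    refine ContinuousAt.continuousWithinAt ?_
    have h1 := rho_continuousAt (B := B) (κ := κ) hs hY0
    refine ContinuousAt.mul ?_ h1
    refine Complex.continuous_ofReal.continuousAt.comp ?_
    exact ((continuousAt_const.div continuousAt_id hY0.ne').min
      (continuousAt_id.div_const N)).div continuousAt_id hY0.ne'
  · refine (ae_restrict_iff' measurableSet_Ioi).2 (Filter.Eventually.of_forall fun Y hY => ?_)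
    have hY1 : (1 : ℝ) < Y := hY
    have hY0 : 0 < Y := by linarith
    rw [integrand, norm_mul, Complex.norm_real]
    have hm0 : 0 ≤ min (N / Y) (Y / N) / Y :=
      div_nonneg (le_min (div_nonneg hN0.le hY0.le) (div_nonneg hY0.le hN0.le)) hY0.le
    rw [Real.norm_of_nonneg hm0]
    have hm1 : min (N / Y) (Y / N) / Y ≤ N / Y / Y :=
      div_le_div_of_nonneg_right (min_le_left _ _) hY0.le
    have hg := g_norm (B := B) (κ := κ) hs hY0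
    have hg' : ‖g B κ s Y‖ ≤ Y ^ (-κ) * (‖s‖ * Y ^ (-B)) :=
      hg.trans (mul_le_mul_of_nonneg_left (min_le_right _ _) (Real.rpow_nonneg hY0.le _))
    have hr := rho_norm (κ := κ) hB hs hY0
    have hC : 0 ≤ 1 + (|κ| + B) ^ 2 + B ^ 2 := by positivity
    calc min (N / Y) (Y / N) / Y * ‖rho B κ s Y‖
        ≤ N / Y / Y * ((1 + (|κ| + B) ^ 2 + B ^ 2) * (Y ^ (-κ) * (‖s‖ * Y ^ (-B)))) := by
          refine mul_le_mul hm1 (hr.trans (mul_le_mul_of_nonneg_left hg' hC)) (norm_nonneg _) ?_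
          positivity
      _ = (1 + (|κ| + B) ^ 2 + B ^ 2) * N * ‖s‖ * Y ^ (-κ - B - 2) := by
          have : Y ^ (-κ - B - 2) = Y ^ (-κ) * Y ^ (-B) / Y ^ 2 := by
            rw [Real.rpow_sub hY0, sub_eq_add_neg (-κ) B, Real.rpow_add hY0, Real.rpow_two]
          rw [this]
          field_simp

theorem hasDerivAt_F1 {B κ : ℝ} {s : ℂ} (hs : 0 ≤ s.re) {N : ℝ} (hN : 1 ≤ N) {Y : ℝ} (hY : 0 < Y)
    (hYN : Y ≤ N) : HasDerivAt (fun Y : ℝ => (Y : ℂ) * (g B κ s Y - g1 B κ s Y) / (2 * (N : ℂ)))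
      (integrand B κ s N Y) Y := by
  have hN0 : 0 < N := by linarith
  have hg := hasDerivAt_g (B := B) (κ := κ) hs hY
  have hg1 := hasDerivAt_g1 (B := B) (κ := κ) hs hY
  have hid : HasDerivAt (fun Y : ℝ => (Y : ℂ)) 1 Y := Complex.ofRealCLM.hasDerivAt
  have h := (hid.fun_mul (hg.fun_sub hg1)).div_const (2 * (N : ℂ))
  refine h.congr_deriv ?_
  have hmin : min (N / Y) (Y / N) = Y / N := by
    refine min_eq_right ?_
    rw [div_le_div_iff₀ hN0 hY]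
    nlinarith
  have hY' : (Y : ℂ) ≠ 0 := by exact_mod_cast hY.ne'
  have hN' : (N : ℂ) ≠ 0 := by exact_mod_cast hN0.ne'
  rw [integrand, hmin, rho]
  push_cast
  field_simp
  ring

theorem hasDerivAt_F2 {B κ : ℝ} {s : ℂ} (hs : 0 ≤ s.re) {N : ℝ} (hN : 1 ≤ N) {Y : ℝ} (hY : 0 < Y)
    (hYN : N ≤ Y) : HasDerivAt (fun Y : ℝ => -((N : ℂ) * (g B κ s Y + g1 B κ s Y) / (2 * (Y : ℂ))))
      (integrand B κ s N Y) Y := by
  have hN0 : 0 < N := by linarith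
  have hg := hasDerivAt_g (B := B) (κ := κ) hs hY
  have hg1 := hasDerivAt_g1 (B := B) (κ := κ) hs hY
  have hid : HasDerivAt (fun Y : ℝ => (Y : ℂ)) 1 Y := Complex.ofRealCLM.hasDerivAt
  have hY' : (Y : ℂ) ≠ 0 := by exact_mod_cast hY.ne'
  have hN' : (N : ℂ) ≠ 0 := by exact_mod_cast hN0.ne'
  have h2Y : (2 * (Y : ℂ)) ≠ 0 := mul_ne_zero two_ne_zero hY'
  have h := ((((hg.fun_add hg1).const_mul (N : ℂ)).fun_div (hid.const_mul (2 : ℂ)) h2Y)).fun_neg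
  refine h.congr_deriv ?_
  have hmin : min (N / Y) (Y / N) = N / Y := by
    refine min_eq_left ?_
    rw [div_le_div_iff₀ hY hN0]
    nlinarith
  rw [integrand, hmin, rho]
  push_cast
  field_simp
  ring

theorem tendsto_F2 {B κ : ℝ} (hB : 0 < B) (hk : 0 < κ + B) {s : ℂ} (hs : 0 ≤ s.re) {N : ℝ}
    (hN : 1 ≤ N) :
    Tendsto (fun Y : ℝ => -((N : ℂ) * (g B κ s Y + g1 B κ s Y) / (2 * (Y : ℂ)))) atTop (𝓝 0) := by
  have hN0 : 0 < N := by linarith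
  have h0 : Tendsto (fun Y : ℝ => N * (1 + |κ| + B) * ‖s‖ / Y) atTop (𝓝 0) :=
    tendsto_const_nhds.div_atTop tendsto_id
  refine squeeze_zero_norm' ?_ h0
  filter_upwards [eventually_ge_atTop (1 : ℝ)] with Y hY
  have hY0 : 0 < Y := by linarith
  have hg := g_norm (B := B) (κ := κ) hs hY0
  have hg' : ‖g B κ s Y‖ ≤ ‖s‖ := by
    refine hg.trans ?_
    calc Y ^ (-κ) * min 1 (‖s‖ * Y ^ (-B)) ≤ Y ^ (-κ) * (‖s‖ * Y ^ (-B)) :=
          mul_le_mul_of_nonneg_left (min_le_right _ _) (Real.rpow_nonneg hY0.le _)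
      _ = ‖s‖ * Y ^ (-(κ + B)) := by
          rw [neg_add, Real.rpow_add hY0]
          ring
      _ ≤ ‖s‖ * 1 := mul_le_mul_of_nonneg_left
          (Real.rpow_le_one_of_one_le_of_nonpos hY (by linarith)) (norm_nonneg _)
      _ = ‖s‖ := mul_one _
  have h1 := g1_norm (κ := κ) hB hs hY0
  have h2 : ‖g B κ s Y + g1 B κ s Y‖ ≤ (1 + |κ| + B) * ‖s‖ := by
    refine (norm_add_le _ _).trans ?_
    have h3 : (|κ| + B) * ‖g B κ s Y‖ ≤ (|κ| + B) * ‖s‖ :=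
      mul_le_mul_of_nonneg_left hg' (by positivity)
    linarith
  rw [norm_neg, norm_div, norm_mul, norm_mul, Complex.norm_real, Complex.norm_real,
    Real.norm_of_nonneg hN0.le, Real.norm_of_nonneg hY0.le]
  have h4 : ‖(2 : ℂ)‖ = 2 := by simp
  rw [h4, div_le_div_iff₀ (by positivity) hY0]
  have h5 : N * ‖g B κ s Y + g1 B κ s Y‖ ≤ N * ((1 + |κ| + B) * ‖s‖) :=
    mul_le_mul_of_nonneg_left h2 hN0.le
  have h6 : 0 ≤ N * ((1 + |κ| + B) * ‖s‖) := by positivity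
  nlinarith

theorem identity {B κ : ℝ} (hB : 0 < B) (hk : 0 < κ + B) {s : ℂ} (hs : 0 ≤ s.re) {N : ℝ}
    (hN : 1 ≤ N) : (∫ Y in Ioi (1 : ℝ), integrand B κ s N Y) =
      g B κ s N - ((g B κ s 1 - g1 B κ s 1) / 2) / N := by
  have hN0 : 0 < N := by linarith
  have hN' : (N : ℂ) ≠ 0 := by exact_mod_cast hN0.ne'
  have hint := integrand_integrable hB hk hs hN
  have hintN : IntegrableOn (integrand B κ s N) (Ioi N) := hint.mono_set (Ioi_subset_Ioi hN)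
  rw [← intervalIntegral.integral_interval_add_Ioi hint hintN]
  have e1 : (∫ Y in (1 : ℝ)..N, integrand B κ s N Y) =
      (N : ℂ) * (g B κ s N - g1 B κ s N) / (2 * (N : ℂ)) -
        ((1 : ℝ) : ℂ) * (g B κ s 1 - g1 B κ s 1) / (2 * (N : ℂ)) := by
    refine intervalIntegral.integral_eq_sub_of_hasDerivAt
      (f := fun Y : ℝ => (Y : ℂ) * (g B κ s Y - g1 B κ s Y) / (2 * (N : ℂ))) ?_ ?_
    · intro Y hY
      rw [uIcc_of_le hN] at hY
      exact hasDerivAt_F1 hs hN (by linarith [hY.1]) hY.2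
    · rw [intervalIntegrable_iff_integrableOn_Ioc_of_le hN]
      exact hint.mono_set Ioc_subset_Ioi_self
  have e2 : (∫ Y in Ioi N, integrand B κ s N Y) =
      0 - -((N : ℂ) * (g B κ s N + g1 B κ s N) / (2 * (N : ℂ))) := by
    refine integral_Ioi_of_hasDerivAt_of_tendsto'
      (f := fun Y : ℝ => -((N : ℂ) * (g B κ s Y + g1 B κ s Y) / (2 * (Y : ℂ)))) ?_ hintN
      (tendsto_F2 hB hk hs hN)
    intro Y hY
    have hY' : N ≤ Y := hY
    exact hasDerivAt_F2 hs hN (by linarith) hY'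
  rw [e1, e2]
  push_cast
  field_simp
  ring

end REP_

theorem p_REP : P_REP := by
  intro B κ hB hk
  refine ⟨1 + (|κ| + B) ^ 2 + B ^ 2, by positivity, ?_⟩
  intro s hs _
  refine ⟨REP_.rho B κ s, (REP_.g B κ s 1 - REP_.g1 B κ s 1) / 2, ?_, ?_, ?_, ?_⟩
  · intro Y hY
    have hY' : (1 : ℝ) ≤ Y := hY
    exact (REP_.rho_continuousAt hs (by linarith)).continuousWithinAt
  · have hg := REP_.g_norm (B := B) (κ := κ) hs one_pos
    have hg' : ‖REP_.g B κ s 1‖ ≤ 1 := by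
      refine hg.trans ?_
      rw [Real.one_rpow, one_mul]
      exact min_le_left _ _
    have h1 := REP_.g1_norm (κ := κ) hB hs one_pos
    have h2 := norm_sub_le (REP_.g B κ s 1) (REP_.g1 B κ s 1)
    have h3 : (|κ| + B) * ‖REP_.g B κ s 1‖ ≤ (|κ| + B) * 1 :=
      mul_le_mul_of_nonneg_left hg' (by positivity)
    have h4 : ‖(2 : ℂ)‖ = 2 := by simp
    rw [norm_div, h4, div_le_iff₀ (by norm_num)]
    nlinarith [sq_nonneg (|κ| + B), sq_nonneg B, sq_nonneg (|κ| + B - 1)]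
  · intro Y hY
    have hY0 : 0 < Y := by linarith
    refine (REP_.rho_norm hB hs hY0).trans ?_
    rw [mul_assoc]
    exact mul_le_mul_of_nonneg_left (REP_.g_norm hs hY0) (by positivity)
  · intro n hn
    have hN : (1 : ℝ) ≤ n := by exact_mod_cast hn
    have h := REP_.identity hB hk hs hN
    have h' : (∫ Y in Ioi (1 : ℝ), ((min (n / Y) (Y / n) / Y : ℝ) : ℂ) * REP_.rho B κ s Y) =
        REP_.g B κ s n - ((REP_.g B κ s 1 - REP_.g1 B κ s 1) / 2) / ((n : ℝ) : ℂ) := h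
    rw [h', Complex.ofReal_natCast]
    simp only [REP_.g]
    ring

end Pool.Agent.PertZ
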