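import Pool.Agent.PertZ.Defs2
import Pool.Agent.PertZ.REP

/-!
# The weight `s / (n^B + s)` as a mixture of the weights `vw`
-/

set_option autoImplicit false

namespace Pool.Agent.PertZ

open MeasureTheory Set Filter Topology Complex

namespace REV_

/-- the density -/
noncomputable def R (B : ℝ) (s : ℂ) (Y : ℝ) : ℂ :=
  REP_.q B s Y * (1 - REP_.q B s Y) *
    (B + B ^ 3 * (6 * REP_.q B s Y - 6 * REP_.q B s Y ^ 2 - 1))

/-- the density of REP for `κ = 0` -/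
noncomputable def R1 (B : ℝ) (s : ℂ) (Y : ℝ) : ℂ :=
  (1 - REP_.q B s Y) * (1 - B ^ 2 * (REP_.q B s Y * (2 * REP_.q B s Y - 1))) / 2

theorem g_eq {B : ℝ} {s : ℂ} (hs : 0 ≤ s.re) {Y : ℝ} (hY : 0 < Y) :
    REP_.g B 0 s Y = 1 - REP_.q B s Y := by
  rw [REP_.g, REP_.one_sub_q hs hY]
  simp

theorem rho_eq {B : ℝ} {s : ℂ} (hs : 0 ≤ s.re) {Y : ℝ} (hY : 0 < Y) :
    REP_.rho B 0 s Y = R1 B s Y := by
  rw [REP_.rho, REP_.g2, g_eq hs hY, R1]
  push_cast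
  ring

theorem hasDerivAt_R1 {B : ℝ} {s : ℂ} (hs : 0 ≤ s.re) {Y : ℝ} (hY : 0 < Y) :
    HasDerivAt (R1 B s) (-(R B s Y) / (2 * (Y : ℂ))) Y := by
  have hq := REP_.hasDerivAt_q (B := B) hs hY
  have hY' : (Y : ℂ) ≠ 0 := by exact_mod_cast hY.ne'
  have h1 := (hq.const_sub 1)
  have h2 := (hq.fun_mul ((hq.const_mul (2 : ℂ)).sub_const (1 : ℂ))).const_mul ((B : ℂ) ^ 2)
  have h3 := (h1.fun_mul (h2.const_sub 1)).div_const 2
  refine (h3.congr_deriv ?_ : HasDerivAt (fun Y : ℝ => (1 - REP_.q B s Y) *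
    (1 - (B : ℂ) ^ 2 * (REP_.q B s Y * (2 * REP_.q B s Y - 1))) / 2) _ Y)
  rw [R]
  field_simp
  ring

theorem q_le {B : ℝ} {s : ℂ} (hs : 0 ≤ s.re) (hs1 : 1 ≤ ‖s‖) {Y : ℝ} (hY : 0 < Y) :
    ‖REP_.q B s Y‖ ≤ Y ^ B / ‖s‖ := by
  have hB : 0 < Y ^ B := Real.rpow_pos_of_pos hY B
  have h := REP_.den_norm (B := B) hs hY
  rw [REP_.q, norm_div, Complex.norm_real, Real.norm_of_nonneg hB.le]
  exact div_le_div_of_nonneg_left hB.le (by linarith) h.2

theorem one_sub_q_le {B : ℝ} {s : ℂ} (hs : 0 ≤ s.re) {Y : ℝ} (hY : 0 < Y) :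
    ‖1 - REP_.q B s Y‖ ≤ min 1 (‖s‖ * Y ^ (-B)) := by
  rw [REP_.one_sub_q hs hY]
  exact REP_.frac_norm hs hY

theorem coef_le {B : ℝ} (hB : 0 < B) {z : ℂ} (hz : ‖z‖ ≤ 1) :
    ‖(B : ℂ) + B ^ 3 * (6 * z - 6 * z ^ 2 - 1)‖ ≤ B + 13 * B ^ 3 := by
  have h1 : ‖(6 * z - 6 * z ^ 2 - 1 : ℂ)‖ ≤ 13 := by
    have h2 : ‖z ^ 2‖ ≤ 1 := by
      rw [norm_pow]
      exact pow_le_one₀ (norm_nonneg _) hz
    have h6 : ‖(6 : ℂ)‖ = 6 := by simp
    calc ‖(6 * z - 6 * z ^ 2 - 1 : ℂ)‖ ≤ ‖6 * z - 6 * z ^ 2‖ + ‖(1 : ℂ)‖ := norm_sub_le _ _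
      _ ≤ (‖6 * z‖ + ‖6 * z ^ 2‖) + ‖(1 : ℂ)‖ := by
          gcongr
          exact norm_sub_le _ _
      _ = (6 * ‖z‖ + 6 * ‖z ^ 2‖) + 1 := by rw [norm_mul, norm_mul, h6, norm_one]
      _ ≤ 13 := by linarith
  refine (norm_add_le _ _).trans ?_
  rw [norm_mul, norm_pow, Complex.norm_real, Real.norm_of_nonneg hB.le]
  have h3 : 0 ≤ B ^ 3 := by positivity
  nlinarith [mul_le_mul_of_nonneg_left h1 h3]

theorem R_le {B : ℝ} (hB : 0 < B) {s : ℂ} (hs : 0 ≤ s.re) (hs1 : 1 ≤ ‖s‖) {Y : ℝ} (hY : 0 < Y) :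
    ‖R B s Y‖ ≤ (B + 13 * B ^ 3) * min (Y ^ B / ‖s‖) (‖s‖ * Y ^ (-B)) := by
  have h1 := REP_.q_norm (B := B) hs hY
  have h2 := q_le (B := B) hs hs1 hY
  have h3 := one_sub_q_le (B := B) hs hY
  have h4 := coef_le hB h1
  have h5 : ‖REP_.q B s Y‖ * ‖1 - REP_.q B s Y‖ ≤ min (Y ^ B / ‖s‖) (‖s‖ * Y ^ (-B)) := by
    refine le_min ?_ ?_
    · calc ‖REP_.q B s Y‖ * ‖1 - REP_.q B s Y‖ ≤ ‖REP_.q B s Y‖ * 1 :=
            mul_le_mul_of_nonneg_left (h3.trans (min_le_left _ _)) (norm_nonneg _)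
        _ ≤ _ := by rw [mul_one]; exact h2
    · calc ‖REP_.q B s Y‖ * ‖1 - REP_.q B s Y‖ ≤ 1 * ‖1 - REP_.q B s Y‖ :=
            mul_le_mul_of_nonneg_right h1 (norm_nonneg _)
        _ ≤ _ := by rw [one_mul]; exact h3.trans (min_le_right _ _)
  rw [R, norm_mul, norm_mul, mul_comm]
  exact mul_le_mul h4 h5 (by positivity) (by positivity)

theorem R1_le {B : ℝ} {s : ℂ} (hs : 0 ≤ s.re) {Y : ℝ} (hY : 0 < Y) :
    ‖R1 B s Y‖ ≤ (1 + 3 * B ^ 2) * (‖s‖ * Y ^ (-B)) := by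
  have h1 := REP_.q_norm (B := B) hs hY
  have h3 := one_sub_q_le (B := B) hs hY
  have h2 : ‖(2 : ℂ)‖ = 2 := by simp
  have h5 : ‖(2 * REP_.q B s Y - 1 : ℂ)‖ ≤ 3 := by
    refine (norm_sub_le _ _).trans ?_
    rw [norm_mul, h2, norm_one]
    linarith
  have h6 : ‖(1 - (B : ℂ) ^ 2 * (REP_.q B s Y * (2 * REP_.q B s Y - 1)) : ℂ)‖ ≤ 1 + 3 * B ^ 2 := by
    refine (norm_sub_le _ _).trans ?_
    rw [norm_mul, norm_pow, norm_mul, Complex.norm_real, norm_one, Real.norm_eq_abs, sq_abs]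
    have h7 : ‖REP_.q B s Y‖ * ‖(2 * REP_.q B s Y - 1 : ℂ)‖ ≤ 1 * 3 :=
      mul_le_mul h1 h5 (norm_nonneg _) (by norm_num)
    nlinarith [mul_le_mul_of_nonneg_left h7 (sq_nonneg B)]
  rw [R1, norm_div, norm_mul, h2, div_le_iff₀ (by norm_num)]
  have h8 : ‖1 - REP_.q B s Y‖ * ‖(1 - (B : ℂ) ^ 2 * (REP_.q B s Y *
      (2 * REP_.q B s Y - 1)) : ℂ)‖ ≤ (‖s‖ * Y ^ (-B)) * (1 + 3 * B ^ 2) :=
    mul_le_mul (h3.trans (min_le_right _ _)) h6 (norm_nonneg _) (by positivity)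
  have h9 : 0 ≤ (‖s‖ * Y ^ (-B)) * (1 + 3 * B ^ 2) := by positivity
  linarith

theorem R_continuousAt {B : ℝ} {s : ℂ} (hs : 0 ≤ s.re) {Y : ℝ} (hY : 0 < Y) :
    ContinuousAt (R B s) Y := by
  have hq : ContinuousAt (REP_.q B s) Y := (REP_.hasDerivAt_q (B := B) hs hY).continuousAt
  show ContinuousAt (fun Y => REP_.q B s Y * (1 - REP_.q B s Y) *
    (B + B ^ 3 * (6 * REP_.q B s Y - 6 * REP_.q B s Y ^ 2 - 1))) Y
  fun_prop

theorem vw_measurable : Measurable vw := by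
  unfold vw
  exact Measurable.ite measurableSet_Ici (by fun_prop) (by fun_prop)

theorem vw_bound (x : ℝ) : 0 ≤ vw x ∧ vw x ≤ 1 := by
  unfold vw
  split_ifs with h
  · have h1 : Real.exp (-x) ≤ 1 := Real.exp_le_one_iff.2 (by linarith)
    have h2 := Real.exp_pos (-x)
    constructor <;> linarith
  · have h1 : Real.exp x ≤ 1 := Real.exp_le_one_iff.2 (by linarith)
    have h2 := Real.exp_pos x
    constructor <;> linarith

theorem vw_left {N Y : ℝ} (hN : 0 < N) (hY : 0 < Y) (h : Y ≤ N) :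
    vw (Real.log (Y / N)) = Y / (2 * N) := by
  have hYN : 0 < Y / N := div_pos hY hN
  unfold vw
  split_ifs with h0
  · have h1 : Y / N ≤ 1 := (div_le_one hN).2 h
    have h2 : (1 : ℝ) ≤ Y / N := by
      by_contra hcon
      have := Real.log_neg hYN (not_le.1 hcon)
      linarith
    have h3 : Y / N = 1 := le_antisymm h1 h2
    have h4 : Y = N := by
      rw [div_eq_one_iff_eq hN.ne'] at h3
      exact h3
    rw [h3, h4]
    simp
    field_simp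
    norm_num
  · rw [Real.exp_log hYN]
    field_simp

theorem vw_right {N Y : ℝ} (hN : 0 < N) (hY : 0 < Y) (h : N ≤ Y) :
    vw (Real.log (Y / N)) = 1 - N / (2 * Y) := by
  have hYN : 0 < Y / N := div_pos hY hN
  have h0 : 0 ≤ Real.log (Y / N) := Real.log_nonneg ((one_le_div hN).2 h)
  unfold vw
  rw [if_pos h0, Real.exp_neg, Real.exp_log hYN]
  field_simp

/-- a dominated function is integrable -/
theorem integrable_of {B : ℝ} (hB : 0 < B) {s : ℂ} (hs : 0 ≤ s.re) (hs1 : 1 ≤ ‖s‖)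
    (w : ℝ → ℝ) (hw : Measurable w) (hw1 : ∀ Y, 1 < Y → |w Y| ≤ 1 / Y) :
    IntegrableOn (fun Y : ℝ => ((w Y : ℝ) : ℂ) * R B s Y) (Ioi 1) := by
  have hint : IntegrableOn (fun Y : ℝ => (B + 13 * B ^ 3) * ‖s‖ * Y ^ (-B - 1)) (Ioi 1) :=
    (integrableOn_Ioi_rpow_of_lt (by linarith) one_pos).const_mul _
  refine Integrable.mono' hint ?_ ?_
  · refine AEStronglyMeasurable.mul ?_ ?_
    · exact (Complex.measurable_ofReal.comp hw).aestronglyMeasurable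
    · refine ContinuousOn.aestronglyMeasurable ?_ measurableSet_Ioi
      intro Y hY
      have hY1 : (1 : ℝ) < Y := hY
      exact (R_continuousAt hs (by linarith)).continuousWithinAt
  · refine (ae_restrict_iff' measurableSet_Ioi).2 (Filter.Eventually.of_forall fun Y hY => ?_)
    have hY1 : (1 : ℝ) < Y := hY
    have hY0 : 0 < Y := by linarith
    rw [norm_mul, Complex.norm_real, Real.norm_eq_abs]
    have h1 := R_le hB hs hs1 hY0
    have h2 : ‖R B s Y‖ ≤ (B + 13 * B ^ 3) * (‖s‖ * Y ^ (-B)) :=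
      h1.trans (mul_le_mul_of_nonneg_left (min_le_right _ _) (by positivity))
    calc |w Y| * ‖R B s Y‖ ≤ 1 / Y * ((B + 13 * B ^ 3) * (‖s‖ * Y ^ (-B))) :=
          mul_le_mul (hw1 Y hY1) h2 (norm_nonneg _) (by positivity)
      _ = (B + 13 * B ^ 3) * ‖s‖ * Y ^ (-B - 1) := by
          rw [Real.rpow_sub hY0, Real.rpow_one]
          field_simp

theorem tendsto_of {B : ℝ} (hB : 0 < B) {s : ℂ} (hs : 0 ≤ s.re) (w : ℝ → ℂ) {M : ℝ}
    (hw : ∀ Y, 1 ≤ Y → ‖w Y‖ ≤ M) :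
    Tendsto (fun Y : ℝ => w Y * R1 B s Y) atTop (𝓝 0) := by
  have hM : 0 ≤ M := (norm_nonneg _).trans (hw 1 le_rfl)
  have h0 : Tendsto (fun Y : ℝ => M * ((1 + 3 * B ^ 2) * (‖s‖ * Y ^ (-B)))) atTop (𝓝 0) := by
    have h := ((tendsto_rpow_neg_atTop hB).const_mul ‖s‖).const_mul (1 + 3 * B ^ 2)
    have h' := h.const_mul M
    simpa using h'
  refine squeeze_zero_norm' ?_ h0
  filter_upwards [eventually_ge_atTop (1 : ℝ)] with Y hY
  rw [norm_mul]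
  exact mul_le_mul (hw Y hY) (R1_le hs (by linarith)) (norm_nonneg _) hM

/-- the total mass -/
theorem mass {B : ℝ} (hB : 0 < B) {s : ℂ} (hs : 0 ≤ s.re) (hs1 : 1 ≤ ‖s‖) :
    ∫ Y in Ioi (1 : ℝ), R B s Y / Y = 2 * R1 B s 1 := by
  have hint : IntegrableOn (fun Y : ℝ => R B s Y / Y) (Ioi 1) := by
    have h := integrable_of hB hs hs1 (fun Y => 1 / Y) (by fun_prop) (fun Y hY => by
      rw [abs_of_nonneg (by positivity)])
    refine h.congr_fun (fun Y _ => ?_) measurableSet_Ioi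
    push_cast
    ring
  have ht := tendsto_of (B := B) (s := s) hB hs (fun _ => (-2 : ℂ)) (M := 2)
    (fun Y _ => by simp)
  have h := integral_Ioi_of_hasDerivAt_of_tendsto' (a := 1)
    (f := fun Y : ℝ => (-2 : ℂ) * R1 B s Y) (f' := fun Y : ℝ => R B s Y / Y) ?_ hint ht
  · rw [h]
    ring
  · intro Y hY
    have hY1 : (1 : ℝ) ≤ Y := hY
    have hY0 : 0 < Y := by linarith
    have hY' : (Y : ℂ) ≠ 0 := by exact_mod_cast hY0.ne'
    refine ((hasDerivAt_R1 (B := B) hs hY0).const_mul (-2 : ℂ)).congr_deriv ?_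
    field_simp

/-- the difference of the two integrands -/
noncomputable def dif (B : ℝ) (s : ℂ) (N Y : ℝ) : ℂ :=
  ((vw (Real.log (Y / N)) / Y : ℝ) : ℂ) * R B s Y - REP_.integrand B 0 s N Y

theorem deriv_left {B : ℝ} {s : ℂ} (hs : 0 ≤ s.re) {N : ℝ} (hN : 1 ≤ N) {Y : ℝ} (hY : 0 < Y)
    (hYN : Y ≤ N) :
    HasDerivAt (fun Y : ℝ => -((Y : ℂ) / N) * R1 B s Y) (dif B s N Y) Y := by
  have hN0 : 0 < N := by linarith
  have hY' : (Y : ℂ) ≠ 0 := by exact_mod_cast hY.ne'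
  have hN' : (N : ℂ) ≠ 0 := by exact_mod_cast hN0.ne'
  have hid : HasDerivAt (fun Y : ℝ => (Y : ℂ)) 1 Y := Complex.ofRealCLM.hasDerivAt
  have h := ((hid.div_const (N : ℂ)).fun_neg).fun_mul (hasDerivAt_R1 (B := B) hs hY)
  refine h.congr_deriv ?_
  have hmin : min (N / Y) (Y / N) = Y / N := by
    refine min_eq_right ?_
    rw [div_le_div_iff₀ hN0 hY]
    nlinarith
  rw [dif, REP_.integrand, hmin, rho_eq hs hY, vw_left hN0 hY hYN]
  push_cast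
  field_simp
  ring

theorem deriv_right {B : ℝ} {s : ℂ} (hs : 0 ≤ s.re) {N : ℝ} (hN : 1 ≤ N) {Y : ℝ} (hY : 0 < Y)
    (hYN : N ≤ Y) :
    HasDerivAt (fun Y : ℝ => -(2 - (N : ℂ) / Y) * R1 B s Y) (dif B s N Y) Y := by
  have hN0 : 0 < N := by linarith
  have hY' : (Y : ℂ) ≠ 0 := by exact_mod_cast hY.ne'
  have hN' : (N : ℂ) ≠ 0 := by exact_mod_cast hN0.ne'
  have hid : HasDerivAt (fun Y : ℝ => (Y : ℂ)) 1 Y := Complex.ofRealCLM.hasDerivAt
  have h := ((((hasDerivAt_const Y (N : ℂ)).fun_div hid hY').const_sub 2).fun_neg).fun_mul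
    (hasDerivAt_R1 (B := B) hs hY)
  refine h.congr_deriv ?_
  have hmin : min (N / Y) (Y / N) = N / Y := by
    refine min_eq_left ?_
    rw [div_le_div_iff₀ hY hN0]
    nlinarith
  rw [dif, REP_.integrand, hmin, rho_eq hs hY, vw_right hN0 hY hYN]
  push_cast
  field_simp
  ring

theorem wt_integrable {B : ℝ} (hB : 0 < B) {s : ℂ} (hs : 0 ≤ s.re) (hs1 : 1 ≤ ‖s‖) (N : ℝ) :
    IntegrableOn (fun Y : ℝ => ((vw (Real.log (Y / N)) / Y : ℝ) : ℂ) * R B s Y) (Ioi 1) := by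
  refine integrable_of hB hs hs1 (fun Y => vw (Real.log (Y / N)) / Y) ?_ ?_
  · exact (vw_measurable.comp (Real.measurable_log.comp (measurable_id.div_const N))).div
      measurable_id
  · intro Y hY
    have hY0 : 0 < Y := by linarith
    have h := vw_bound (Real.log (Y / N))
    rw [abs_of_nonneg (div_nonneg h.1 hY0.le)]
    exact div_le_div_of_nonneg_right h.2 hY0.le

theorem main {B : ℝ} (hB : 0 < B) {s : ℂ} (hs : 0 ≤ s.re) (hs1 : 1 ≤ ‖s‖) {N : ℝ}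
    (hN : 1 ≤ N) :
    (∫ Y in Ioi (1 : ℝ), ((vw (Real.log (Y / N)) / Y : ℝ) : ℂ) * R B s Y) =
      (∫ Y in Ioi (1 : ℝ), REP_.integrand B 0 s N Y) + R1 B s 1 / N := by
  have hN0 : 0 < N := by linarith
  have hN' : (N : ℂ) ≠ 0 := by exact_mod_cast hN0.ne'
  have h1 := wt_integrable hB hs hs1 N
  have h2 := REP_.integrand_integrable hB (by linarith : 0 < (0 : ℝ) + B) hs hN
  have hint : IntegrableOn (dif B s N) (Ioi 1) := h1.sub h2
  have hintN : IntegrableOn (dif B s N) (Ioi N) := hint.mono_set (Ioi_subset_Ioi hN)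
  have e0 : (∫ Y in Ioi (1 : ℝ), dif B s N Y) =
      (∫ Y in Ioi (1 : ℝ), ((vw (Real.log (Y / N)) / Y : ℝ) : ℂ) * R B s Y) -
        ∫ Y in Ioi (1 : ℝ), REP_.integrand B 0 s N Y := integral_sub h1 h2
  have e1 : (∫ Y in (1 : ℝ)..N, dif B s N Y) =
      -((N : ℂ) / N) * R1 B s N - -(((1 : ℝ) : ℂ) / N) * R1 B s 1 := by
    refine intervalIntegral.integral_eq_sub_of_hasDerivAt
      (f := fun Y : ℝ => -((Y : ℂ) / N) * R1 B s Y) ?_ ?_
    · intro Y hY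
      rw [uIcc_of_le hN] at hY
      exact deriv_left hs hN (by linarith [hY.1]) hY.2
    · rw [intervalIntegrable_iff_integrableOn_Ioc_of_le hN]
      exact hint.mono_set Ioc_subset_Ioi_self
  have e2 : (∫ Y in Ioi N, dif B s N Y) = 0 - -(2 - (N : ℂ) / N) * R1 B s N := by
    refine integral_Ioi_of_hasDerivAt_of_tendsto'
      (f := fun Y : ℝ => -(2 - (N : ℂ) / Y) * R1 B s Y) ?_ hintN ?_
    · intro Y hY
      have hY' : N ≤ Y := hY
      exact deriv_right hs hN (by linarith) hY'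
    · refine tendsto_of (B := B) (s := s) hB hs (fun Y => -(2 - (N : ℂ) / Y)) (M := 2 + N) ?_
      intro Y hY
      rw [norm_neg]
      refine (norm_sub_le _ _).trans ?_
      rw [norm_div, Complex.norm_real, Complex.norm_real, Real.norm_of_nonneg hN0.le,
        Real.norm_of_nonneg (by linarith : (0 : ℝ) ≤ Y)]
      have h3 : N / Y ≤ N := div_le_self hN0.le hY
      have h4 : ‖(2 : ℂ)‖ = 2 := by simp
      linarith
  have e3 : (∫ Y in Ioi (1 : ℝ), dif B s N Y) = R1 B s 1 / N := by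
    rw [← intervalIntegral.integral_interval_add_Ioi hint hintN, e1, e2]
    push_cast
    field_simp
    ring
  rw [e3] at e0
  rw [e0]
  ring

end REV_

open REV_ in
theorem p_REV : P_REV := by
  intro B hB
  refine ⟨1 + B + 3 * B ^ 2 + 13 * B ^ 3, by positivity, ?_⟩
  intro s hs hs1
  have hs0 : 0 < ‖s‖ := by linarith
  have hg1 : ‖REP_.g B 0 s 1‖ ≤ 1 := by
    rw [g_eq hs one_pos]
    exact (one_sub_q_le hs one_pos).trans (min_le_left _ _)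
  refine ⟨R B s, (REP_.g B 0 s 1 - REP_.g1 B 0 s 1) / 2 - R1 B s 1, ?_, ?_, ?_, ?_, ?_⟩
  · intro Y hY
    have hY' : (1 : ℝ) ≤ Y := hY
    exact (R_continuousAt hs (by linarith)).continuousWithinAt
  · rw [← rho_eq hs one_pos, REP_.rho]
    have h1 := REP_.g1_norm (κ := 0) hB hs one_pos
    have h2 := REP_.g2_norm (κ := 0) hB hs one_pos
    rw [abs_zero, zero_add] at h1 h2
    have e : (REP_.g B 0 s 1 - REP_.g1 B 0 s 1) / 2 - (REP_.g B 0 s 1 - REP_.g2 B 0 s 1) / 2 =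
        (REP_.g2 B 0 s 1 - REP_.g1 B 0 s 1) / 2 := by ring
    have h4 : ‖(2 : ℂ)‖ = 2 := by simp
    rw [e, norm_div, h4, div_le_iff₀ (by norm_num)]
    refine (norm_sub_le _ _).trans ?_
    have h5 : B * ‖REP_.g B 0 s 1‖ ≤ B * 1 := mul_le_mul_of_nonneg_left hg1 hB.le
    have h6 : (B ^ 2 + B ^ 2) * ‖REP_.g B 0 s 1‖ ≤ (B ^ 2 + B ^ 2) * 1 :=
      mul_le_mul_of_nonneg_left hg1 (by positivity)
    have h7 : 0 ≤ B ^ 3 := by positivity
    nlinarith [sq_nonneg B]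
  · intro Y hY
    have hY0 : 0 < Y := by linarith
    refine (R_le hB hs hs1 hY0).trans (mul_le_mul_of_nonneg_right ?_ ?_)
    · nlinarith [sq_nonneg B]
    · exact le_min (div_nonneg (Real.rpow_nonneg hY0.le _) hs0.le)
        (mul_nonneg hs0.le (Real.rpow_nonneg hY0.le _))
  · rw [mass hB hs hs1]
    have hq := q_le (B := B) hs hs1 one_pos
    rw [Real.one_rpow] at hq
    have hq1 := REP_.q_norm (B := B) hs one_pos
    have h2 : ‖(2 : ℂ)‖ = 2 := by simp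
    have e : 1 - 2 * R1 B s 1 = REP_.q B s 1 * (1 + B ^ 2 * ((2 * REP_.q B s 1 - 1) *
        (1 - REP_.q B s 1))) := by
      rw [R1]
      ring
    have h5 : ‖(2 * REP_.q B s 1 - 1 : ℂ)‖ ≤ 3 := by
      refine (norm_sub_le _ _).trans ?_
      rw [norm_mul, h2, norm_one]
      linarith
    have h6 : ‖1 - REP_.q B s 1‖ ≤ 1 := (one_sub_q_le hs one_pos).trans (min_le_left _ _)
    have h7 : ‖(1 + (B : ℂ) ^ 2 * ((2 * REP_.q B s 1 - 1) * (1 - REP_.q B s 1)) : ℂ)‖ ≤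
        1 + 3 * B ^ 2 := by
      refine (norm_add_le _ _).trans ?_
      rw [norm_mul, norm_pow, norm_mul, Complex.norm_real, norm_one, Real.norm_eq_abs, sq_abs]
      have h8 : ‖(2 * REP_.q B s 1 - 1 : ℂ)‖ * ‖1 - REP_.q B s 1‖ ≤ 3 * 1 :=
        mul_le_mul h5 h6 (norm_nonneg _) (by norm_num)
      nlinarith [mul_le_mul_of_nonneg_left h8 (sq_nonneg B)]
    rw [e, norm_mul]
    calc ‖REP_.q B s 1‖ * ‖(1 + (B : ℂ) ^ 2 * ((2 * REP_.q B s 1 - 1) *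
          (1 - REP_.q B s 1)) : ℂ)‖ ≤ 1 / ‖s‖ * (1 + 3 * B ^ 2) :=
          mul_le_mul hq h7 (norm_nonneg _) (by positivity)
      _ = (1 + 3 * B ^ 2) / ‖s‖ := by ring
      _ ≤ _ := by
          refine div_le_div_of_nonneg_right ?_ hs0.le
          have h9 : 0 ≤ B ^ 3 := by positivity
          nlinarith
  · intro n hn
    have hN : (1 : ℝ) ≤ n := by exact_mod_cast hn
    have h := main hB hs hs1 hN
    rw [REP_.identity hB (by linarith) hs hN] at h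
    have hg := g_eq (B := B) hs (by linarith : (0 : ℝ) < n)
    rw [REP_.one_sub_q hs (by linarith)] at hg
    rw [h, hg, Complex.ofReal_natCast]
    ring

end Pool.Agent.PertZ
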