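import Pool.Agent.PertZ.Defs5
import Pool.Agent.PertZ.REV

/-!
# The weights `n^(-κ) s / (n^B + s)` as mixtures of the weights `vw`
-/

set_option autoImplicit false

namespace Pool.Agent.PertZ

open MeasureTheory Set Filter Topology Complex

/-- the density -/
noncomputable def REVK_R (B κ : ℝ) (s : ℂ) (Y : ℝ) : ℂ :=
  ((2 * B * (κ + B * REP_.q B s Y) - B ^ 2 * (1 - 2 * REP_.q B s Y)) *
      (B * (REP_.q B s Y * (1 - REP_.q B s Y))) -
    (κ + B * REP_.q B s Y) *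
      ((κ + B * REP_.q B s Y) ^ 2 - B ^ 2 * (REP_.q B s Y * (1 - REP_.q B s Y))) +
    (κ + B * REP_.q B s Y)) * REP_.g B κ s Y

/-- a bound of the coefficient -/
noncomputable def REVK_c (B κ : ℝ) : ℝ :=
  (2 * B * (|κ| + B) + 3 * B ^ 2) * B + (|κ| + B) * ((|κ| + B) ^ 2 + B ^ 2) + (|κ| + B)

theorem REVK_hasDerivAt {B κ : ℝ} {s : ℂ} (hs : 0 ≤ s.re) {Y : ℝ} (hY : 0 < Y) :
    HasDerivAt (REP_.rho B κ s) (-(REVK_R B κ s Y) / (2 * (Y : ℂ))) Y := by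
  have hq := REP_.hasDerivAt_q (B := B) hs hY
  have hg := REP_.hasDerivAt_g (B := B) (κ := κ) hs hY
  have hY' : (Y : ℂ) ≠ 0 := by exact_mod_cast hY.ne'
  have h1 := (hq.const_mul (B : ℂ)).const_add (κ : ℂ)
  have h2 := (hq.fun_mul (hq.const_sub 1)).const_mul ((B : ℂ) ^ 2)
  have h3 := ((h1.fun_pow 2).fun_sub h2).fun_mul hg
  have h4 := (hg.fun_sub h3).div_const 2
  refine (h4.congr_deriv ?_ : HasDerivAt (fun Y : ℝ => (REP_.g B κ s Y -
    ((κ + B * REP_.q B s Y) ^ 2 - B ^ 2 * (REP_.q B s Y * (1 - REP_.q B s Y))) *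
      REP_.g B κ s Y) / 2) _ Y)
  rw [REVK_R, REP_.g1]
  push_cast
  field_simp
  ring

theorem REVK_coef {B κ : ℝ} (hB : 0 < B) {z : ℂ} (hz : ‖z‖ ≤ 1) (hz1 : ‖1 - z‖ ≤ 1) :
    ‖(2 * B * (κ + B * z) - B ^ 2 * (1 - 2 * z)) * (B * (z * (1 - z))) -
      (κ + B * z) * ((κ + B * z) ^ 2 - B ^ 2 * (z * (1 - z))) + (κ + B * z)‖ ≤ REVK_c B κ := by
  have ha : ‖(κ : ℂ) + B * z‖ ≤ |κ| + B := REP_.coef_norm hB hz
  have ha0 : 0 ≤ |κ| + B := by positivity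
  have hzz : ‖z * (1 - z)‖ ≤ 1 := by
    rw [norm_mul]
    exact mul_le_one₀ hz (norm_nonneg _) hz1
  have hBn : ‖(B : ℂ)‖ = B := by rw [Complex.norm_real, Real.norm_of_nonneg hB.le]
  have h2 : ‖(2 : ℂ)‖ = 2 := by simp
  have e1 : ‖(B : ℂ) * (z * (1 - z))‖ ≤ B := by
    rw [norm_mul, hBn]
    calc B * ‖z * (1 - z)‖ ≤ B * 1 := mul_le_mul_of_nonneg_left hzz hB.le
      _ = B := mul_one _
  have e2 : ‖(2 * B * (κ + B * z) - B ^ 2 * (1 - 2 * z) : ℂ)‖ ≤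
      2 * B * (|κ| + B) + 3 * B ^ 2 := by
    refine (norm_sub_le _ _).trans (add_le_add ?_ ?_)
    · rw [norm_mul, norm_mul, h2, hBn]
      exact mul_le_mul_of_nonneg_left ha (by positivity)
    · rw [norm_mul, norm_pow, hBn]
      have h3 : ‖(1 - 2 * z : ℂ)‖ ≤ 3 := by
        refine (norm_sub_le _ _).trans ?_
        rw [norm_one, norm_mul, h2]
        linarith
      calc B ^ 2 * ‖(1 - 2 * z : ℂ)‖ ≤ B ^ 2 * 3 := mul_le_mul_of_nonneg_left h3 (by positivity)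
        _ = 3 * B ^ 2 := by ring
  have e3 : ‖((κ : ℂ) + B * z) ^ 2 - B ^ 2 * (z * (1 - z))‖ ≤ (|κ| + B) ^ 2 + B ^ 2 := by
    refine (norm_sub_le _ _).trans (add_le_add ?_ ?_)
    · rw [norm_pow]
      exact pow_le_pow_left₀ (norm_nonneg _) ha 2
    · rw [norm_mul, norm_pow, hBn]
      calc B ^ 2 * ‖z * (1 - z)‖ ≤ B ^ 2 * 1 := mul_le_mul_of_nonneg_left hzz (by positivity)
        _ = B ^ 2 := mul_one _
  rw [REVK_c]
  refine (norm_add_le _ _).trans (add_le_add ((norm_sub_le _ _).trans (add_le_add ?_ ?_)) ha)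
  · rw [norm_mul]
    exact mul_le_mul e2 e1 (norm_nonneg _) (by positivity)
  · rw [norm_mul]
    exact mul_le_mul ha e3 (norm_nonneg _) ha0

theorem REVK_c_nonneg {B κ : ℝ} (hB : 0 < B) : 0 ≤ REVK_c B κ := by
  rw [REVK_c]
  positivity

theorem REVK_R_le {B κ : ℝ} (hB : 0 < B) {s : ℂ} (hs : 0 ≤ s.re) {Y : ℝ} (hY : 0 < Y) :
    ‖REVK_R B κ s Y‖ ≤ REVK_c B κ * (Y ^ (-κ) * min 1 (‖s‖ * Y ^ (-B))) := by
  rw [REVK_R, norm_mul]
  refine mul_le_mul (REVK_coef hB (REP_.q_norm hs hY) ?_) (REP_.g_norm hs hY) (norm_nonneg _)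
    (REVK_c_nonneg hB)
  exact (REV_.one_sub_q_le hs hY).trans (min_le_left _ _)

theorem REVK_g_le {B κ : ℝ} {s : ℂ} (_ : 0 ≤ s.re) {Y : ℝ} (hY : 0 < Y) :
    Y ^ (-κ) * min 1 (‖s‖ * Y ^ (-B)) ≤ ‖s‖ * Y ^ (-(κ + B)) := by
  calc Y ^ (-κ) * min 1 (‖s‖ * Y ^ (-B)) ≤ Y ^ (-κ) * (‖s‖ * Y ^ (-B)) :=
        mul_le_mul_of_nonneg_left (min_le_right _ _) (Real.rpow_nonneg hY.le _)
    _ = ‖s‖ * Y ^ (-(κ + B)) := by
        rw [neg_add, Real.rpow_add hY]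
        ring

theorem REVK_rho_le {B κ : ℝ} (hB : 0 < B) {s : ℂ} (hs : 0 ≤ s.re) {Y : ℝ} (hY : 0 < Y) :
    ‖REP_.rho B κ s Y‖ ≤ (1 + (|κ| + B) ^ 2 + B ^ 2) * (‖s‖ * Y ^ (-(κ + B))) :=
  (REP_.rho_norm hB hs hY).trans (mul_le_mul_of_nonneg_left
    ((REP_.g_norm hs hY).trans (REVK_g_le hs hY)) (by positivity))

theorem REVK_R_continuousAt {B κ : ℝ} {s : ℂ} (hs : 0 ≤ s.re) {Y : ℝ} (hY : 0 < Y) :
    ContinuousAt (REVK_R B κ s) Y := by
  have hq : ContinuousAt (REP_.q B s) Y := (REP_.hasDerivAt_q (B := B) hs hY).continuousAt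
  have hg : ContinuousAt (REP_.g B κ s) Y := (REP_.hasDerivAt_g (B := B) hs hY).continuousAt
  show ContinuousAt (fun Y => ((2 * B * (κ + B * REP_.q B s Y) -
      B ^ 2 * (1 - 2 * REP_.q B s Y)) * (B * (REP_.q B s Y * (1 - REP_.q B s Y))) -
    (κ + B * REP_.q B s Y) *
      ((κ + B * REP_.q B s Y) ^ 2 - B ^ 2 * (REP_.q B s Y * (1 - REP_.q B s Y))) +
    (κ + B * REP_.q B s Y)) * REP_.g B κ s Y) Y
  fun_prop

theorem REVK_integrable {B κ : ℝ} (hB : 0 < B) (hk : 0 < κ + B) {s : ℂ} (hs : 0 ≤ s.re)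
    (w : ℝ → ℝ) (hw : Measurable w) (hw1 : ∀ Y, 1 < Y → |w Y| ≤ 1 / Y) :
    IntegrableOn (fun Y : ℝ => ((w Y : ℝ) : ℂ) * REVK_R B κ s Y) (Ioi 1) := by
  have hint : IntegrableOn (fun Y : ℝ => REVK_c B κ * ‖s‖ * Y ^ (-(κ + B) - 1)) (Ioi 1) :=
    (integrableOn_Ioi_rpow_of_lt (by linarith) one_pos).const_mul _
  refine Integrable.mono' hint ?_ ?_
  · refine AEStronglyMeasurable.mul ?_ ?_
    · exact (Complex.measurable_ofReal.comp hw).aestronglyMeasurable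
    · refine ContinuousOn.aestronglyMeasurable ?_ measurableSet_Ioi
      intro Y hY
      have hY1 : (1 : ℝ) < Y := hY
      exact (REVK_R_continuousAt hs (by linarith)).continuousWithinAt
  · refine (ae_restrict_iff' measurableSet_Ioi).2 (Filter.Eventually.of_forall fun Y hY => ?_)
    have hY1 : (1 : ℝ) < Y := hY
    have hY0 : 0 < Y := by linarith
    rw [norm_mul, Complex.norm_real, Real.norm_eq_abs]
    have h2 : ‖REVK_R B κ s Y‖ ≤ REVK_c B κ * (‖s‖ * Y ^ (-(κ + B))) :=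
      (REVK_R_le hB hs hY0).trans (mul_le_mul_of_nonneg_left (REVK_g_le hs hY0)
        (REVK_c_nonneg hB))
    calc |w Y| * ‖REVK_R B κ s Y‖ ≤ 1 / Y * (REVK_c B κ * (‖s‖ * Y ^ (-(κ + B)))) :=
          mul_le_mul (hw1 Y hY1) h2 (norm_nonneg _) (by positivity)
      _ = REVK_c B κ * ‖s‖ * Y ^ (-(κ + B) - 1) := by
          rw [Real.rpow_sub hY0, Real.rpow_one]
          field_simp

theorem REVK_tendsto {B κ : ℝ} (hB : 0 < B) (hk : 0 < κ + B) {s : ℂ} (hs : 0 ≤ s.re)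
    (w : ℝ → ℂ) {M : ℝ} (hw : ∀ Y, 1 ≤ Y → ‖w Y‖ ≤ M) :
    Tendsto (fun Y : ℝ => w Y * REP_.rho B κ s Y) atTop (𝓝 0) := by
  have hM : 0 ≤ M := (norm_nonneg _).trans (hw 1 le_rfl)
  have h0 : Tendsto (fun Y : ℝ => M * ((1 + (|κ| + B) ^ 2 + B ^ 2) *
      (‖s‖ * Y ^ (-(κ + B))))) atTop (𝓝 0) := by
    have h := ((tendsto_rpow_neg_atTop hk).const_mul ‖s‖).const_mul
      (1 + (|κ| + B) ^ 2 + B ^ 2)
    have h' := h.const_mul M
    simpa using h'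
  refine squeeze_zero_norm' ?_ h0
  filter_upwards [eventually_ge_atTop (1 : ℝ)] with Y hY
  rw [norm_mul]
  exact mul_le_mul (hw Y hY) (REVK_rho_le hB hs (by linarith)) (norm_nonneg _) hM

/-- the difference of the two integrands -/
noncomputable def REVK_dif (B κ : ℝ) (s : ℂ) (N Y : ℝ) : ℂ :=
  ((vw (Real.log (Y / N)) / Y : ℝ) : ℂ) * REVK_R B κ s Y - REP_.integrand B κ s N Y

theorem REVK_deriv_left {B κ : ℝ} {s : ℂ} (hs : 0 ≤ s.re) {N : ℝ} (hN : 1 ≤ N) {Y : ℝ}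
    (hY : 0 < Y) (hYN : Y ≤ N) :
    HasDerivAt (fun Y : ℝ => -((Y : ℂ) / N) * REP_.rho B κ s Y) (REVK_dif B κ s N Y) Y := by
  have hN0 : 0 < N := by linarith
  have hY' : (Y : ℂ) ≠ 0 := by exact_mod_cast hY.ne'
  have hN' : (N : ℂ) ≠ 0 := by exact_mod_cast hN0.ne'
  have hid : HasDerivAt (fun Y : ℝ => (Y : ℂ)) 1 Y := Complex.ofRealCLM.hasDerivAt
  have h := ((hid.div_const (N : ℂ)).fun_neg).fun_mul (REVK_hasDerivAt (B := B) (κ := κ) hs hY)
  refine h.congr_deriv ?_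
  have hmin : min (N / Y) (Y / N) = Y / N := by
    refine min_eq_right ?_
    rw [div_le_div_iff₀ hN0 hY]
    nlinarith
  rw [REVK_dif, REP_.integrand, hmin, REV_.vw_left hN0 hY hYN]
  push_cast
  field_simp
  ring

theorem REVK_deriv_right {B κ : ℝ} {s : ℂ} (hs : 0 ≤ s.re) {N : ℝ} (hN : 1 ≤ N) {Y : ℝ}
    (hY : 0 < Y) (hYN : N ≤ Y) :
    HasDerivAt (fun Y : ℝ => -(2 - (N : ℂ) / Y) * REP_.rho B κ s Y) (REVK_dif B κ s N Y) Y := by
  have hN0 : 0 < N := by linarith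
  have hY' : (Y : ℂ) ≠ 0 := by exact_mod_cast hY.ne'
  have hN' : (N : ℂ) ≠ 0 := by exact_mod_cast hN0.ne'
  have hid : HasDerivAt (fun Y : ℝ => (Y : ℂ)) 1 Y := Complex.ofRealCLM.hasDerivAt
  have h := ((((hasDerivAt_const Y (N : ℂ)).fun_div hid hY').const_sub 2).fun_neg).fun_mul
    (REVK_hasDerivAt (B := B) (κ := κ) hs hY)
  refine h.congr_deriv ?_
  have hmin : min (N / Y) (Y / N) = N / Y := by
    refine min_eq_left ?_
    rw [div_le_div_iff₀ hY hN0]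
    nlinarith
  rw [REVK_dif, REP_.integrand, hmin, REV_.vw_right hN0 hY hYN]
  push_cast
  field_simp
  ring

theorem REVK_wt_integrable {B κ : ℝ} (hB : 0 < B) (hk : 0 < κ + B) {s : ℂ} (hs : 0 ≤ s.re)
    (N : ℝ) :
    IntegrableOn (fun Y : ℝ => ((vw (Real.log (Y / N)) / Y : ℝ) : ℂ) * REVK_R B κ s Y)
      (Ioi 1) := by
  refine REVK_integrable hB hk hs (fun Y => vw (Real.log (Y / N)) / Y) ?_ ?_
  · exact (REV_.vw_measurable.comp (Real.measurable_log.comp (measurable_id.div_const N))).div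
      measurable_id
  · intro Y hY
    have hY0 : 0 < Y := by linarith
    have h := REV_.vw_bound (Real.log (Y / N))
    rw [abs_of_nonneg (div_nonneg h.1 hY0.le)]
    exact div_le_div_of_nonneg_right h.2 hY0.le

theorem REVK_main {B κ : ℝ} (hB : 0 < B) (hk : 0 < κ + B) {s : ℂ} (hs : 0 ≤ s.re) {N : ℝ}
    (hN : 1 ≤ N) :
    (∫ Y in Ioi (1 : ℝ), ((vw (Real.log (Y / N)) / Y : ℝ) : ℂ) * REVK_R B κ s Y) =
      (∫ Y in Ioi (1 : ℝ), REP_.integrand B κ s N Y) + REP_.rho B κ s 1 / N := by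
  have hN0 : 0 < N := by linarith
  have hN' : (N : ℂ) ≠ 0 := by exact_mod_cast hN0.ne'
  have h1 := REVK_wt_integrable hB hk hs N
  have h2 := REP_.integrand_integrable hB hk hs hN
  have hint : IntegrableOn (REVK_dif B κ s N) (Ioi 1) := h1.sub h2
  have hintN : IntegrableOn (REVK_dif B κ s N) (Ioi N) := hint.mono_set (Ioi_subset_Ioi hN)
  have e0 : (∫ Y in Ioi (1 : ℝ), REVK_dif B κ s N Y) =
      (∫ Y in Ioi (1 : ℝ), ((vw (Real.log (Y / N)) / Y : ℝ) : ℂ) * REVK_R B κ s Y) -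
        ∫ Y in Ioi (1 : ℝ), REP_.integrand B κ s N Y := integral_sub h1 h2
  have e1 : (∫ Y in (1 : ℝ)..N, REVK_dif B κ s N Y) =
      -((N : ℂ) / N) * REP_.rho B κ s N - -(((1 : ℝ) : ℂ) / N) * REP_.rho B κ s 1 := by
    refine intervalIntegral.integral_eq_sub_of_hasDerivAt
      (f := fun Y : ℝ => -((Y : ℂ) / N) * REP_.rho B κ s Y) ?_ ?_
    · intro Y hY
      rw [uIcc_of_le hN] at hY
      exact REVK_deriv_left hs hN (by linarith [hY.1]) hY.2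
    · rw [intervalIntegrable_iff_integrableOn_Ioc_of_le hN]
      exact hint.mono_set Ioc_subset_Ioi_self
  have e2 : (∫ Y in Ioi N, REVK_dif B κ s N Y) =
      0 - -(2 - (N : ℂ) / N) * REP_.rho B κ s N := by
    refine integral_Ioi_of_hasDerivAt_of_tendsto'
      (f := fun Y : ℝ => -(2 - (N : ℂ) / Y) * REP_.rho B κ s Y) ?_ hintN ?_
    · intro Y hY
      have hY' : N ≤ Y := hY
      exact REVK_deriv_right hs hN (by linarith) hY'
    · refine REVK_tendsto hB hk hs (fun Y => -(2 - (N : ℂ) / Y)) (M := 2 + N) ?_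
      intro Y hY
      rw [norm_neg]
      refine (norm_sub_le _ _).trans ?_
      rw [norm_div, Complex.norm_real, Complex.norm_real, Real.norm_of_nonneg hN0.le,
        Real.norm_of_nonneg (by linarith : (0 : ℝ) ≤ Y)]
      have h3 : N / Y ≤ N := div_le_self hN0.le hY
      have h4 : ‖(2 : ℂ)‖ = 2 := by simp
      linarith
  have e3 : (∫ Y in Ioi (1 : ℝ), REVK_dif B κ s N Y) = REP_.rho B κ s 1 / N := by
    rw [← intervalIntegral.integral_interval_add_Ioi hint hintN, e1, e2]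
    push_cast
    field_simp
    ring
  rw [e3] at e0
  rw [e0]
  ring

theorem p_REVK : P_REVK := by
  intro B κ hB hk
  have hc0 := REVK_c_nonneg (κ := κ) hB
  refine ⟨1 + ((|κ| + B) + ((|κ| + B) ^ 2 + B ^ 2)) + REVK_c B κ, by positivity, ?_⟩
  intro s hs hs1
  have hg1 : ‖REP_.g B κ s 1‖ ≤ 1 := by
    refine (REP_.g_norm hs one_pos).trans ?_
    rw [Real.one_rpow, one_mul]
    exact min_le_left _ _
  refine ⟨REVK_R B κ s, (REP_.g B κ s 1 - REP_.g1 B κ s 1) / 2 - REP_.rho B κ s 1,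
    ?_, ?_, ?_, ?_⟩
  · intro Y hY
    have hY' : (1 : ℝ) ≤ Y := hY
    exact (REVK_R_continuousAt hs (by linarith)).continuousWithinAt
  · rw [REP_.rho]
    have h1 := REP_.g1_norm (κ := κ) hB hs one_pos
    have h2 := REP_.g2_norm (κ := κ) hB hs one_pos
    have e : (REP_.g B κ s 1 - REP_.g1 B κ s 1) / 2 - (REP_.g B κ s 1 - REP_.g2 B κ s 1) / 2 =
        (REP_.g2 B κ s 1 - REP_.g1 B κ s 1) / 2 := by ring
    have h4 : ‖(2 : ℂ)‖ = 2 := by simp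
    rw [e, norm_div, h4, div_le_iff₀ (by norm_num)]
    refine (norm_sub_le _ _).trans ?_
    have h5 : (|κ| + B) * ‖REP_.g B κ s 1‖ ≤ (|κ| + B) * 1 :=
      mul_le_mul_of_nonneg_left hg1 (by positivity)
    have h6 : ((|κ| + B) ^ 2 + B ^ 2) * ‖REP_.g B κ s 1‖ ≤ ((|κ| + B) ^ 2 + B ^ 2) * 1 :=
      mul_le_mul_of_nonneg_left hg1 (by positivity)
    have h7 : 0 ≤ |κ| + B := by positivity
    have h8 : 0 ≤ (|κ| + B) ^ 2 + B ^ 2 := by positivity
    linarith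
  · intro Y hY
    have hY0 : 0 < Y := by linarith
    refine (REVK_R_le hB hs hY0).trans (mul_le_mul_of_nonneg_right ?_ ?_)
    · have h7 : 0 ≤ |κ| + B := by positivity
      have h8 : 0 ≤ (|κ| + B) ^ 2 + B ^ 2 := by positivity
      linarith
    · exact mul_nonneg (Real.rpow_nonneg hY0.le _) (le_min zero_le_one
        (mul_nonneg (norm_nonneg _) (Real.rpow_nonneg hY0.le _)))
  · intro n hn
    have hN : (1 : ℝ) ≤ n := by exact_mod_cast hn
    have h := REVK_main hB hk hs hN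
    rw [REP_.identity hB hk hs hN] at h
    rw [h, REP_.g, Complex.ofReal_natCast]
    ring

end Pool.Agent.PertZ
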