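import Pool.Agent.PertZ.Defs

set_option autoImplicit false

namespace Pool.Agent.PertZ

open MeasureTheory ProbabilityTheory Set Filter Topology Complex Pool.Agent.CW

namespace TLR_

/-- the auxiliary function -/
noncomputable def G (a b T lM lm : ℝ) (f : ℂ → ℂ) (z : ℂ) : ℂ :=
  f z * Complex.exp ((z - T * I) ^ 2 - ((b : ℂ) - z) / ((b : ℂ) - a) * lM - (z - a) / ((b : ℂ) - a) * lm)

lemma norm_G (a b T lM lm : ℝ) (f : ℂ → ℂ) (z : ℂ) :
    ‖G a b T lM lm f z‖ = ‖f z‖ * Real.exp (z.re ^ 2 - (z.im - T) ^ 2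
      - (b - z.re) / (b - a) * lM - (z.re - a) / (b - a) * lm) := by
  unfold G
  rw [norm_mul, Complex.norm_exp]
  congr 2
  have h1 : ((z - T * I) ^ 2).re = z.re ^ 2 - (z.im - T) ^ 2 := by
    rw [sq, Complex.mul_re]
    simp
    ring
  have h2 : (((b : ℂ) - z) / ((b : ℂ) - a) * lM).re = (b - z.re) / (b - a) * lM := by
    have : ((b : ℂ) - z) / ((b : ℂ) - a) * lM = ((b : ℂ) - z) * (((1 / (b - a) * lM : ℝ)) : ℂ) := by
      push_cast; ring
    rw [this, Complex.re_mul_ofReal]
    simp
    ring
  have h3 : ((z - a) / ((b : ℂ) - a) * lm).re = (z.re - a) / (b - a) * lm := by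
    have : (z - a) / ((b : ℂ) - a) * lm = (z - a) * (((1 / (b - a) * lm : ℝ)) : ℂ) := by
      push_cast; ring
    rw [this, Complex.re_mul_ofReal]
    simp
    ring
  rw [Complex.sub_re, Complex.sub_re, h1, h2, h3]

end TLR_

theorem p_TLR : P_TLR := by
  intro a b K hab hK
  refine ⟨Real.exp (a ^ 2 + b ^ 2 + 4 * K ^ 2), Real.one_le_exp (by positivity), ?_⟩
  intro T M m f hT hM1 hM2 hm1 hm2 hf hedge σ haσ hσb
  have hT0 : (0 : ℝ) < T := by linarith
  have hba : 0 < b - a := by linarith
  have hMpos : 0 < M := lt_of_lt_of_le (Real.rpow_pos_of_pos hT0 _) hM1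
  have hmpos : 0 < m := lt_of_lt_of_le (Real.rpow_pos_of_pos hT0 _) hm1
  set c : ℝ := a ^ 2 + b ^ 2 + 4 * K ^ 2 with hc
  set lM := Real.log M with hlM
  set lm := Real.log m with hlm
  have hlT : 0 ≤ Real.log T := Real.log_nonneg (by linarith)
  have hlTT : Real.log T ≤ T := (Real.log_le_sub_one_of_pos hT0).trans (by linarith)
  have hlM1 : -(K * Real.log T) ≤ lM := by
    have := Real.log_le_log (Real.rpow_pos_of_pos hT0 _) hM1
    rw [Real.log_rpow hT0] at this
    linarith
  have hlm1 : -(K * Real.log T) ≤ lm := by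
    have := Real.log_le_log (Real.rpow_pos_of_pos hT0 _) hm1
    rw [Real.log_rpow hT0] at this
    linarith
  -- the rectangle
  set U : Set ℂ := Ioo a b ×ℂ Ioo (T / 2) (2 * T) with hU
  have hT2 : T / 2 < 2 * T := by linarith
  have hclosure : closure U = Icc a b ×ℂ Icc (T / 2) (2 * T) := by
    rw [hU, closure_reProdIm, closure_Ioo hab.ne, closure_Ioo hT2.ne]
  have hmemc : ∀ z ∈ closure U, a ≤ z.re ∧ z.re ≤ b ∧ T / 2 ≤ z.im ∧ z.im ≤ 2 * T := by
    intro z hz
    rw [hclosure, mem_reProdIm] at hz
    exact ⟨hz.1.1, hz.1.2, hz.2.1, hz.2.2⟩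
  have hbd : Bornology.IsBounded U := (Metric.isBounded_Ioo a b).reProdIm (Metric.isBounded_Ioo _ _)
  have hsqle : ∀ x : ℝ, a ≤ x → x ≤ b → x ^ 2 ≤ a ^ 2 + b ^ 2 := by
    intro x h1 h2
    rcases le_total 0 x with h | h
    · nlinarith [sq_nonneg a]
    · nlinarith [sq_nonneg b]
  have han : ∀ z ∈ closure U, AnalyticAt ℂ (TLR_.G a b T lM lm f) z := by
    intro z hz
    obtain ⟨h1, h2, h3, h4⟩ := hmemc z hz
    have h5 := (hf z h1 h2 h3 h4).1
    unfold TLR_.G
    refine h5.mul ?_
    refine AnalyticAt.cexp ?_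
    fun_prop
  have hd : DiffContOnCl ℂ (TLR_.G a b T lM lm f) U := by
    refine ⟨fun z hz => (han z (subset_closure hz)).differentiableAt.differentiableWithinAt,
      fun z hz => (han z hz).continuousAt.continuousWithinAt⟩
  -- bound on the frontier
  have hfr : ∀ z ∈ frontier U, ‖TLR_.G a b T lM lm f z‖ ≤ Real.exp c := by
    intro z hz
    have hzc : z ∈ closure U := frontier_subset_closure hz
    obtain ⟨h1, h2, h3, h4⟩ := hmemc z hzc
    rw [TLR_.norm_G]
    have hfz := (hf z h1 h2 h3 h4).2
    by_cases hra : z.re = a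
    · -- left edge
      have hz' : z = (a : ℂ) + (z.im : ℝ) * I := by
        apply Complex.ext <;> simp [hra]
      have hb1 := (hedge z.im h3 h4).1
      rw [← hz'] at hb1
      calc ‖f z‖ * Real.exp (z.re ^ 2 - (z.im - T) ^ 2
      - (b - z.re) / (b - a) * lM - (z.re - a) / (b - a) * lm)
          ≤ M * Real.exp (a ^ 2 - lM) := by
            refine mul_le_mul hb1 ?_ (Real.exp_nonneg _) hMpos.le
            apply Real.exp_le_exp.mpr
            rw [hra, div_self hba.ne', sub_self, zero_div]
            nlinarith [sq_nonneg (z.im - T)]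
        _ = Real.exp (a ^ 2) := by
            rw [Real.exp_sub, hlM, Real.exp_log hMpos]
            field_simp
        _ ≤ Real.exp c := by
            apply Real.exp_le_exp.mpr
            rw [hc]; nlinarith [sq_nonneg b, sq_nonneg K]
    · by_cases hrb : z.re = b
      · have hz' : z = (b : ℂ) + (z.im : ℝ) * I := by
          apply Complex.ext <;> simp [hrb]
        have hb1 := (hedge z.im h3 h4).2
        rw [← hz'] at hb1
        calc ‖f z‖ * Real.exp (z.re ^ 2 - (z.im - T) ^ 2
        - (b - z.re) / (b - a) * lM - (z.re - a) / (b - a) * lm)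
            ≤ m * Real.exp (b ^ 2 - lm) := by
              refine mul_le_mul hb1 ?_ (Real.exp_nonneg _) hmpos.le
              apply Real.exp_le_exp.mpr
              rw [hrb, div_self hba.ne', sub_self, zero_div]
              nlinarith [sq_nonneg (z.im - T)]
          _ = Real.exp (b ^ 2) := by
              rw [Real.exp_sub, hlm, Real.exp_log hmpos]
              field_simp
          _ ≤ Real.exp c := by
              apply Real.exp_le_exp.mpr
              rw [hc]; nlinarith [sq_nonneg a, sq_nonneg K]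
      · -- horizontal edges
        have him : z.im = T / 2 ∨ z.im = 2 * T := by
          by_contra hne
          push Not at hne
          apply hz.2
          have ho : IsOpen U := isOpen_Ioo.reProdIm isOpen_Ioo
          rw [ho.interior_eq, hU, mem_reProdIm]
          exact ⟨⟨lt_of_le_of_ne h1 (Ne.symm hra), lt_of_le_of_ne h2 hrb⟩,
            ⟨lt_of_le_of_ne h3 (Ne.symm hne.1), lt_of_le_of_ne h4 hne.2⟩⟩
        have hsq : T ^ 2 / 4 ≤ (z.im - T) ^ 2 := by
          rcases him with h | h
          · rw [h]; nlinarith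
          · rw [h]; nlinarith
        have hp : 0 ≤ (b - z.re) / (b - a) := div_nonneg (by linarith) hba.le
        have hq : 0 ≤ (z.re - a) / (b - a) := div_nonneg (by linarith) hba.le
        have hpq : (b - z.re) / (b - a) + (z.re - a) / (b - a) = 1 := by
          rw [← add_div, div_eq_one_iff_eq hba.ne']; ring
        have hx2 := hsqle z.re h1 h2
        calc ‖f z‖ * Real.exp (z.re ^ 2 - (z.im - T) ^ 2
        - (b - z.re) / (b - a) * lM - (z.re - a) / (b - a) * lm)
            ≤ T ^ K * Real.exp (a ^ 2 + b ^ 2 - T ^ 2 / 4 + K * Real.log T) := by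
              refine mul_le_mul hfz ?_ (Real.exp_nonneg _) (Real.rpow_nonneg hT0.le _)
              apply Real.exp_le_exp.mpr
              have e1 := mul_le_mul_of_nonneg_left hlM1 hp
              have e2 := mul_le_mul_of_nonneg_left hlm1 hq
              have e3 : (b - z.re) / (b - a) * -(K * Real.log T) +
                (z.re - a) / (b - a) * -(K * Real.log T) = -(K * Real.log T) := by
                rw [← add_mul, hpq, one_mul]
              linarith
          _ = Real.exp (K * Real.log T + (a ^ 2 + b ^ 2 - T ^ 2 / 4 + K * Real.log T)) := by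
              rw [Real.exp_add (K * Real.log T), Real.rpow_def_of_pos hT0, mul_comm (Real.log T) K]
          _ ≤ Real.exp c := by
              apply Real.exp_le_exp.mpr
              rw [hc]
              have e4 : K * Real.log T ≤ K * T := mul_le_mul_of_nonneg_left hlTT hK
              nlinarith [sq_nonneg (T / 2 - 2 * K)]
  have hmain := Complex.norm_le_of_forall_mem_frontier_norm_le hbd hd hfr
    (z := (σ : ℂ) + T * I) (by
      rw [hclosure, mem_reProdIm]
      simp
      exact ⟨⟨haσ, hσb⟩, by linarith, by linarith⟩)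
  rw [TLR_.norm_G] at hmain
  have hre : ((σ : ℂ) + T * I).re = σ := by simp
  have him : ((σ : ℂ) + T * I).im = T := by simp
  rw [hre, him, sub_self] at hmain
  have hM' : M ^ ((b - σ) / (b - a)) = Real.exp ((b - σ) / (b - a) * lM) := by
    rw [Real.rpow_def_of_pos hMpos, mul_comm]
  have hm' : m ^ ((σ - a) / (b - a)) = Real.exp ((σ - a) / (b - a) * lm) := by
    rw [Real.rpow_def_of_pos hmpos, mul_comm]
  rw [hM', hm', mul_assoc, ← Real.exp_add]
  have hge : Real.exp (-((b - σ) / (b - a) * lM + (σ - a) / (b - a) * lm)) ≤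
      Real.exp (σ ^ 2 - 0 ^ 2 - (b - σ) / (b - a) * lM - (σ - a) / (b - a) * lm) := by
    apply Real.exp_le_exp.mpr
    nlinarith [sq_nonneg σ]
  have h7 : ‖f ((σ : ℂ) + T * I)‖ * Real.exp (-((b - σ) / (b - a) * lM + (σ - a) / (b - a) * lm))
      ≤ Real.exp c := (mul_le_mul_of_nonneg_left hge (norm_nonneg _)).trans hmain
  rw [Real.exp_neg, ← div_eq_mul_inv, div_le_iff₀ (Real.exp_pos _)] at h7
  exact h7

end Pool.Agent.PertZ
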