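import Pool.Agent.PertZ.Defs

/-!
# WOR1 (helper83)

Perturbations `n exp (d n)` with `|d n| ≤ n ^ (-B)`, `B > 1/2`: the exponent of the perturbed zeta
function on the critical line is at most `max (exponent of zeta) (1 / (2 B))`.
-/

set_option autoImplicit false

namespace Pool.Agent.PertZ

open MeasureTheory ProbabilityTheory Set Filter Topology Complex Pool.Agent.CW

lemma WOR1_split (N : ℕ) (e : ℝ) (w : ℂ) :
    (((N : ℝ) * Real.exp e : ℝ) : ℂ) ^ w - (N : ℂ) ^ w =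
      (N : ℂ) ^ w * (Complex.exp (e * w) - 1) := by
  have h1 : (((N : ℝ) * Real.exp e : ℝ) : ℂ) ^ w = (N : ℂ) ^ w * Complex.exp (e * w) := by
    rw [Complex.ofReal_mul, Complex.mul_cpow_ofReal_nonneg (Nat.cast_nonneg N) (Real.exp_pos e).le]
    congr 1
    rw [Complex.cpow_def_of_ne_zero (by exact_mod_cast (Real.exp_pos e).ne'),
      ← Complex.ofReal_log (Real.exp_pos e).le, Real.log_exp]
  rw [h1]; ring

lemma WOR1_term (N : ℕ) (hN : 1 ≤ N) (e t B θ : ℝ) (hB : 0 < B) (h0 : 0 ≤ θ) (h1 : θ ≤ 1)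
    (he : |e| ≤ (N : ℝ) ^ (-B)) :
    ‖(((N : ℝ) * Real.exp e : ℝ) : ℂ) ^ (-(1 / 2 + t * I)) - (N : ℂ) ^ (-(1 / 2 + t * I))‖ ≤
      3 * (1 + |t|) ^ θ * (N : ℝ) ^ (-(1 / 2 + B * θ)) := by
  have hN0 : (0 : ℝ) < N := by exact_mod_cast hN
  have hN1 : (1 : ℝ) ≤ N := by exact_mod_cast hN
  rw [WOR1_split N, norm_mul, Complex.norm_natCast_cpow_of_pos hN]
  have hre : (-(1 / 2 + t * I) : ℂ).re = -(1 / 2) := by simp
  rw [hre]
  set s : ℂ := 1 / 2 + t * I with hs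
  have hs1 : ‖s‖ ≤ 1 + |t| := by
    calc ‖s‖ ≤ ‖(1 / 2 : ℂ)‖ + ‖(t : ℂ) * I‖ := norm_add_le _ _
      _ = 1 / 2 + |t| := by simp
      _ ≤ 1 + |t| := by linarith
  have hs0 : 0 < ‖s‖ := by
    rw [norm_pos_iff]
    intro h
    have : s.re = 1 / 2 := by simp [hs]
    rw [h] at this
    norm_num at this
  set X : ℝ := ‖s‖ * (N : ℝ) ^ (-B) with hX
  have hX0 : 0 < X := by positivity
  have hz : ‖(e : ℂ) * -s‖ ≤ X := by
    rw [norm_mul, norm_neg, Complex.norm_real, Real.norm_eq_abs, hX, mul_comm]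
    exact mul_le_mul_of_nonneg_left he hs0.le
  have hkey : ‖Complex.exp ((e : ℂ) * -s) - 1‖ ≤ 3 * X ^ θ := by
    rcases le_or_gt X 1 with hX1 | hX1
    · have h2 : X ≤ X ^ θ := by
        calc X = X ^ (1 : ℝ) := (Real.rpow_one X).symm
          _ ≤ X ^ θ := Real.rpow_le_rpow_of_exponent_ge hX0 hX1 h1
      have h3 := Complex.norm_exp_sub_one_le (hz.trans hX1)
      linarith
    · have h2 : 1 ≤ X ^ θ := Real.one_le_rpow hX1.le h0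
      have h3 : ‖Complex.exp ((e : ℂ) * -s)‖ ≤ 2 := by
        rw [Complex.norm_exp]
        have h4 : ((e : ℂ) * -s).re = -(e / 2) := by
          simp [hs]; ring
        rw [h4]
        have h5 : |e| ≤ 1 := he.trans (Real.rpow_le_one_of_one_le_of_nonpos hN1 (by linarith))
        have h6 : -(e / 2) ≤ 1 / 2 := by have := (abs_le.1 h5).1; linarith
        have h7 : Real.exp (1 / 2) ^ 2 = Real.exp 1 := by
          rw [← Real.exp_nat_mul]; norm_num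
        have h8 := Real.exp_one_lt_d9
        have h9 : Real.exp (1 / 2) ≤ 2 := by
          nlinarith [Real.exp_pos (1 / 2)]
        exact (Real.exp_le_exp.2 h6).trans h9
      calc ‖Complex.exp ((e : ℂ) * -s) - 1‖ ≤ ‖Complex.exp ((e : ℂ) * -s)‖ + ‖(1 : ℂ)‖ :=
            norm_sub_le _ _
        _ ≤ 2 + 1 := by rw [norm_one]; linarith
        _ ≤ 3 * X ^ θ := by linarith
  have hXθ : X ^ θ ≤ (1 + |t|) ^ θ * (N : ℝ) ^ (-(B * θ)) := by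
    rw [hX, Real.mul_rpow hs0.le (by positivity), ← Real.rpow_mul hN0.le]
    rw [show -B * θ = -(B * θ) by ring]
    apply mul_le_mul_of_nonneg_right _ (by positivity)
    exact Real.rpow_le_rpow hs0.le hs1 h0
  calc (N : ℝ) ^ (-(1 / 2 : ℝ)) * ‖Complex.exp ((e : ℂ) * -s) - 1‖
      ≤ (N : ℝ) ^ (-(1 / 2 : ℝ)) * (3 * ((1 + |t|) ^ θ * (N : ℝ) ^ (-(B * θ)))) := by
        apply mul_le_mul_of_nonneg_left _ (by positivity)
        linarith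
    _ = 3 * (1 + |t|) ^ θ * ((N : ℝ) ^ (-(1 / 2 : ℝ)) * (N : ℝ) ^ (-(B * θ))) := by ring
    _ = 3 * (1 + |t|) ^ θ * (N : ℝ) ^ (-(1 / 2 + B * θ)) := by
        rw [← Real.rpow_add hN0]; congr 2; ring

theorem p_WOR1 : P_WOR1 := by
  intro B A hB hA hL d hd ε hε
  obtain ⟨C, hC⟩ := hL ε hε
  have hB0 : 0 < B := by linarith
  set δ : ℝ := min (B - 1 / 2) (B * ε) with hδ
  have hδ0 : 0 < δ := lt_min (by linarith) (by positivity)
  have hδ1 : δ ≤ B - 1 / 2 := min_le_left _ _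
  have hδ2 : δ ≤ B * ε := min_le_right _ _
  set θ : ℝ := (1 / 2 + δ) / B with hθ
  have hθ0 : 0 ≤ θ := by positivity
  have hθ1 : θ ≤ 1 := by rw [hθ, div_le_one hB0]; linarith
  have hBθ : B * θ = 1 / 2 + δ := by rw [hθ]; field_simp
  have hθA : θ ≤ A + ε := by
    have h1 : θ = 1 / (2 * B) + δ / B := by rw [hθ]; field_simp
    have h2 : δ / B ≤ ε := by rw [div_le_iff₀ hB0]; linarith
    linarith
  have hsum : Summable (fun n : ℕ => ((n + 1 : ℕ) : ℝ) ^ (-(1 / 2 + B * θ))) := by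
    rw [hBθ]
    have h := (summable_nat_add_iff 1).2
      (Real.summable_nat_rpow.2 (by linarith : -(1 / 2 + (1 / 2 + δ)) < -1))
    exact h
  refine ⟨C + 3 * ∑' n : ℕ, ((n + 1 : ℕ) : ℝ) ^ (-(1 / 2 + B * θ)), ?_⟩
  intro t
  have ht : 1 ≤ 1 + |t| := by linarith [abs_nonneg t]
  have hterm : ∀ n : ℕ, ‖((((n + 1 : ℕ) : ℝ) * Real.exp (d (n + 1)) : ℝ) : ℂ) ^
      (-(1 / 2 + t * I)) - ((n + 1 : ℕ) : ℂ) ^ (-(1 / 2 + t * I))‖ ≤
      3 * (1 + |t|) ^ θ * ((n + 1 : ℕ) : ℝ) ^ (-(1 / 2 + B * θ)) := fun n =>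
    WOR1_term (n + 1) (by omega) (d (n + 1)) t B θ hB0 hθ0 hθ1 (hd (n + 1) (by omega))
  have hmaj : Summable (fun n : ℕ => 3 * (1 + |t|) ^ θ * ((n + 1 : ℕ) : ℝ) ^ (-(1 / 2 + B * θ))) :=
    hsum.mul_left _
  have h1 : ‖∑' n : ℕ, (((((n + 1 : ℕ) : ℝ) * Real.exp (d (n + 1)) : ℝ) : ℂ) ^
      (-(1 / 2 + t * I)) - ((n + 1 : ℕ) : ℂ) ^ (-(1 / 2 + t * I)))‖ ≤
      3 * (1 + |t|) ^ θ * ∑' n : ℕ, ((n + 1 : ℕ) : ℝ) ^ (-(1 / 2 + B * θ)) := by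
    rw [← tsum_mul_left]
    exact tsum_of_norm_bounded hmaj.hasSum hterm
  have h2 : (1 + |t|) ^ θ ≤ (1 + |t|) ^ (A + ε) := Real.rpow_le_rpow_of_exponent_le ht hθA
  have h3 : 0 ≤ ∑' n : ℕ, ((n + 1 : ℕ) : ℝ) ^ (-(1 / 2 + B * θ)) :=
    tsum_nonneg fun n => by positivity
  have h4 := hC t
  have h5 : ‖zlam (fun n => n * Real.exp (d n)) t‖ ≤ ‖zl t‖ +
      ‖∑' n : ℕ, (((((n + 1 : ℕ) : ℝ) * Real.exp (d (n + 1)) : ℝ) : ℂ) ^
      (-(1 / 2 + t * I)) - ((n + 1 : ℕ) : ℂ) ^ (-(1 / 2 + t * I)))‖ := norm_add_le _ _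
  have h6 : 3 * (1 + |t|) ^ θ * ∑' n : ℕ, ((n + 1 : ℕ) : ℝ) ^ (-(1 / 2 + B * θ)) ≤
      3 * (1 + |t|) ^ (A + ε) * ∑' n : ℕ, ((n + 1 : ℕ) : ℝ) ^ (-(1 / 2 + B * θ)) := by
    apply mul_le_mul_of_nonneg_right _ h3
    linarith
  calc ‖zlam (fun n => n * Real.exp (d n)) t‖ ≤ C * (1 + |t|) ^ (A + ε) +
        3 * (1 + |t|) ^ (A + ε) * ∑' n : ℕ, ((n + 1 : ℕ) : ℝ) ^ (-(1 / 2 + B * θ)) := by linarith
    _ = (C + 3 * ∑' n : ℕ, ((n + 1 : ℕ) : ℝ) ^ (-(1 / 2 + B * θ))) * (1 + |t|) ^ (A + ε) := by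
        ring

end Pool.Agent.PertZ
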