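import Pool.Agent.PertZ.Defs

set_option autoImplicit false

namespace Pool.Agent.PertZ

open MeasureTheory ProbabilityTheory Set Filter Topology Complex Pool.Agent.CW

/-- admissible perturbations -/
def WOR2_valid (B : ℝ) (d : ℕ → ℝ) : Prop := ∀ n, 1 ≤ n → |d n| ≤ (n : ℝ) ^ (-B)

/-- the terms of the series -/
noncomputable def WOR2_term (T : ℝ) (d : ℕ → ℝ) (n : ℕ) : ℂ :=
  (((fun m : ℕ => (m : ℝ) * Real.exp (d m)) (n + 1) : ℝ) : ℂ) ^ (-(1 / 2 + T * I)) -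
    ((n + 1 : ℕ) : ℂ) ^ (-(1 / 2 + T * I))

lemma WOR2_pow (x y : ℝ) (hx : 0 < x) (s : ℂ) :
    ((x * Real.exp y : ℝ) : ℂ) ^ (-s) = (x : ℂ) ^ (-s) * Complex.exp (-s * y) := by
  have hxe : 0 < x * Real.exp y := by positivity
  rw [Complex.cpow_def_of_ne_zero (by exact_mod_cast hxe.ne'),
    Complex.cpow_def_of_ne_zero (by exact_mod_cast hx.ne'), ← Complex.ofReal_log hxe.le,
    ← Complex.ofReal_log hx.le, Real.log_mul hx.ne' (Real.exp_pos _).ne', Real.log_exp,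
    ← Complex.exp_add]
  congr 1
  push_cast
  ring

lemma WOR2_one_le (B : ℝ) (hB : 0 < B) (n : ℕ) (hn : 1 ≤ n) : (n : ℝ) ^ (-B) ≤ 1 := by
  apply Real.rpow_le_one_of_one_le_of_nonpos
  · exact_mod_cast hn
  · linarith

/-- the constant in the bound of the terms -/
noncomputable def WOR2_K (T : ℝ) : ℝ :=
  ‖(1 / 2 + T * I : ℂ)‖ * Real.exp ‖(1 / 2 + T * I : ℂ)‖

lemma WOR2_K_nonneg (T : ℝ) : 0 ≤ WOR2_K T := by unfold WOR2_K; positivity

lemma WOR2_term_eq (T : ℝ) (d : ℕ → ℝ) (n : ℕ) :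
    WOR2_term T d n = ((n + 1 : ℕ) : ℂ) ^ (-(1 / 2 + T * I)) *
      (Complex.exp (-(1 / 2 + T * I) * d (n + 1)) - 1) := by
  unfold WOR2_term
  have h := WOR2_pow ((n + 1 : ℕ) : ℝ) (d (n + 1)) (by positivity) (1 / 2 + T * I)
  simp only at h ⊢
  rw [h]
  push_cast
  ring

lemma WOR2_term_bound (B : ℝ) (hB : 0 < B) (T : ℝ) (d : ℕ → ℝ) (hd : WOR2_valid B d) (n : ℕ) :
    ‖WOR2_term T d n‖ ≤ WOR2_K T * ((n + 1 : ℕ) : ℝ) ^ (-(1 / 2 + B)) := by
  rw [WOR2_term_eq, norm_mul, Complex.norm_natCast_cpow_of_pos (Nat.succ_pos n)]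
  have hre : (-(1 / 2 + T * I) : ℂ).re = -(1 / 2) := by simp
  rw [hre]
  have h1 : ‖Complex.exp (-(1 / 2 + T * I) * d (n + 1)) - 1‖ ≤
      ‖(-(1 / 2 + T * I) * d (n + 1) : ℂ)‖ * Real.exp ‖(-(1 / 2 + T * I) * d (n + 1) : ℂ)‖ := by
    have := Complex.norm_exp_sub_sum_le_norm_mul_exp (-(1 / 2 + T * I) * d (n + 1) : ℂ) 1
    simpa using this
  have h2 : ‖(-(1 / 2 + T * I) * d (n + 1) : ℂ)‖ = ‖(1 / 2 + T * I : ℂ)‖ * |d (n + 1)| := by
    rw [norm_mul, norm_neg, Complex.norm_real, Real.norm_eq_abs]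
  have hdn := hd (n + 1) (Nat.succ_le_succ (Nat.zero_le n))
  have h3 : |d (n + 1)| ≤ 1 := hdn.trans (WOR2_one_le B hB _ (by omega))
  have h4 : ‖Complex.exp (-(1 / 2 + T * I) * d (n + 1)) - 1‖ ≤
      WOR2_K T * ((n + 1 : ℕ) : ℝ) ^ (-B) := by
    refine h1.trans ?_
    rw [h2]
    have h5 : ‖(1 / 2 + T * I : ℂ)‖ * |d (n + 1)| ≤ ‖(1 / 2 + T * I : ℂ)‖ :=
      mul_le_of_le_one_right (norm_nonneg _) h3
    have h6 : Real.exp (‖(1 / 2 + T * I : ℂ)‖ * |d (n + 1)|) ≤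
        Real.exp ‖(1 / 2 + T * I : ℂ)‖ := Real.exp_le_exp.2 h5
    have h7 : ‖(1 / 2 + T * I : ℂ)‖ * |d (n + 1)| ≤
        ‖(1 / 2 + T * I : ℂ)‖ * ((n + 1 : ℕ) : ℝ) ^ (-B) :=
      mul_le_mul_of_nonneg_left hdn (norm_nonneg _)
    calc ‖(1 / 2 + T * I : ℂ)‖ * |d (n + 1)| * Real.exp (‖(1 / 2 + T * I : ℂ)‖ * |d (n + 1)|)
        ≤ (‖(1 / 2 + T * I : ℂ)‖ * ((n + 1 : ℕ) : ℝ) ^ (-B)) *
          Real.exp ‖(1 / 2 + T * I : ℂ)‖ := by gcongr
      _ = WOR2_K T * ((n + 1 : ℕ) : ℝ) ^ (-B) := by unfold WOR2_K; ring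
  calc ((n + 1 : ℕ) : ℝ) ^ (-(1 / 2) : ℝ) * ‖Complex.exp (-(1 / 2 + T * I) * d (n + 1)) - 1‖
      ≤ ((n + 1 : ℕ) : ℝ) ^ (-(1 / 2) : ℝ) * (WOR2_K T * ((n + 1 : ℕ) : ℝ) ^ (-B)) := by gcongr
    _ = WOR2_K T * ((n + 1 : ℕ) : ℝ) ^ (-(1 / 2 + B)) := by
        have : (-(1 / 2 + B) : ℝ) = -(1 / 2) + -B := by ring
        rw [this, Real.rpow_add (by positivity)]
        ring

lemma WOR2_sumK (B : ℝ) (hB : 1 / 2 < B) (T : ℝ) :
    Summable (fun n : ℕ => WOR2_K T * ((n + 1 : ℕ) : ℝ) ^ (-(1 / 2 + B))) := by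
  apply Summable.mul_left
  have h : Summable (fun n : ℕ => (n : ℝ) ^ (-(1 / 2 + B))) :=
    Real.summable_nat_rpow.2 (by linarith)
  exact (summable_nat_add_iff 1).2 h

lemma WOR2_summable (B : ℝ) (hB : 1 / 2 < B) (T : ℝ) (d : ℕ → ℝ) (hd : WOR2_valid B d) :
    Summable (WOR2_term T d) :=
  Summable.of_norm_bounded (WOR2_sumK B hB T)
    (fun n => WOR2_term_bound B (by linarith) T d hd n)

/-- abbreviation -/
noncomputable def WOR2_z (T : ℝ) (d : ℕ → ℝ) : ℂ := zlam (fun n => n * Real.exp (d n)) T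

lemma WOR2_z_eq (T : ℝ) (d : ℕ → ℝ) : WOR2_z T d = zl T + ∑' n, WOR2_term T d n := rfl

/-- far modifications do not matter -/
lemma WOR2_tail (B : ℝ) (hB : 1 / 2 < B) (T : ℝ) (δ : ℝ) (hδ : 0 < δ) :
    ∃ M : ℕ, ∀ e e' : ℕ → ℝ, WOR2_valid B e → WOR2_valid B e' → (∀ n < M, e n = e' n) →
      ‖WOR2_z T e - WOR2_z T e'‖ ≤ δ := by
  have hK := WOR2_sumK B hB T
  have ht : Tendsto (fun i : ℕ => ∑' k : ℕ, 2 * (WOR2_K T * ((k + i + 1 : ℕ) : ℝ) ^ (-(1 / 2 + B))))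
      atTop (𝓝 0) :=
    tendsto_sum_nat_add (fun n : ℕ => 2 * (WOR2_K T * ((n + 1 : ℕ) : ℝ) ^ (-(1 / 2 + B))))
  obtain ⟨i, hi⟩ := (ht.eventually (gt_mem_nhds hδ)).exists
  refine ⟨i + 1, fun e e' he he' hee => ?_⟩
  have hs := WOR2_summable B hB T e he
  have hs' := WOR2_summable B hB T e' he'
  have hdiff : WOR2_z T e - WOR2_z T e' = ∑' n, (WOR2_term T e n - WOR2_term T e' n) := by
    rw [WOR2_z_eq, WOR2_z_eq, hs.tsum_sub hs']
    ring
  have hsub := hs.sub hs'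
  rw [hdiff, ← hsub.sum_add_tsum_nat_add i]
  have hzero : ∑ n ∈ Finset.range i, (WOR2_term T e n - WOR2_term T e' n) = 0 := by
    apply Finset.sum_eq_zero
    intro n hn
    have : e (n + 1) = e' (n + 1) := hee _ (by have := Finset.mem_range.1 hn; omega)
    rw [WOR2_term_eq, WOR2_term_eq, this, sub_self]
  rw [hzero, zero_add]
  have hsum2 : Summable (fun k : ℕ => 2 * (WOR2_K T * ((k + i + 1 : ℕ) : ℝ) ^ (-(1 / 2 + B)))) :=
    ((summable_nat_add_iff i).2 hK).mul_left 2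
  refine (tsum_of_norm_bounded hsum2.hasSum (fun k => ?_)).trans hi.le
  calc ‖WOR2_term T e (k + i) - WOR2_term T e' (k + i)‖
      ≤ ‖WOR2_term T e (k + i)‖ + ‖WOR2_term T e' (k + i)‖ := norm_sub_le _ _
    _ ≤ WOR2_K T * ((k + i + 1 : ℕ) : ℝ) ^ (-(1 / 2 + B)) +
        WOR2_K T * ((k + i + 1 : ℕ) : ℝ) ^ (-(1 / 2 + B)) :=
        add_le_add (WOR2_term_bound B (by linarith) T e he (k + i))
          (WOR2_term_bound B (by linarith) T e' he' (k + i))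
    _ = 2 * (WOR2_K T * ((k + i + 1 : ℕ) : ℝ) ^ (-(1 / 2 + B))) := by ring

/-- alignment of one number -/
lemma WOR2_align (B T a : ℝ) (n : ℕ) (hn : 1 ≤ n) (hT : 0 < T)
    (hTn : Real.pi ≤ T * (n : ℝ) ^ (-B)) :
    ∃ y : ℝ, |y| ≤ (n : ℝ) ^ (-B) ∧
      (((n : ℝ) * Real.exp y : ℝ) : ℂ) ^ (-(1 / 2 + T * I)) =
        ((((n : ℝ) * Real.exp y) ^ (-(1 / 2) : ℝ) : ℝ) : ℂ) * Complex.exp (a * I) := by
  have hn0 : (0 : ℝ) < n := by exact_mod_cast hn
  set u : ℝ := (T * Real.log n + a) / (2 * Real.pi) with hu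
  set k : ℤ := round u with hk
  have hpi := Real.pi_pos
  set y : ℝ := (-a + 2 * Real.pi * k) / T - Real.log n with hy
  have hyT : y = -(2 * Real.pi * (u - k)) / T := by
    rw [hy, hu]
    field_simp
    ring
  have habs : |u - k| ≤ 1 / 2 := abs_sub_round u
  have hyb : |y| ≤ Real.pi / T := by
    rw [hyT, abs_div, abs_neg, abs_mul, abs_of_pos hT, abs_of_pos (by positivity : 0 < 2 * Real.pi)]
    gcongr
    nlinarith
  refine ⟨y, hyb.trans ?_, ?_⟩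
  · rw [div_le_iff₀ hT]
    linarith [mul_comm T ((n : ℝ) ^ (-B))]
  · have hx : 0 < (n : ℝ) * Real.exp y := by positivity
    rw [Complex.cpow_def_of_ne_zero (by exact_mod_cast hx.ne'), ← Complex.ofReal_log hx.le,
      Real.rpow_def_of_pos hx, Complex.ofReal_exp]
    have hL : T * Real.log ((n : ℝ) * Real.exp y) = -a + 2 * Real.pi * k := by
      rw [Real.log_mul hn0.ne' (Real.exp_pos _).ne', Real.log_exp, hy]
      field_simp
      ring
    rw [← Complex.exp_add, Complex.exp_eq_exp_iff_exists_int]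
    refine ⟨-k, ?_⟩
    have hL' : (T : ℂ) * (Real.log ((n : ℝ) * Real.exp y) : ℂ) = -a + 2 * Real.pi * k := by
      exact_mod_cast congrArg (fun x : ℝ => (x : ℂ)) hL
    push_cast
    linear_combination (-I) * hL'

/-- the constant of the lower bound -/
noncomputable def WOR2_c (B : ℝ) : ℝ := 1 / (8 * Real.pi ^ (1 / (2 * B)))

lemma WOR2_c_pos (B : ℝ) : 0 < WOR2_c B := by
  unfold WOR2_c
  have := Real.pi_pos
  positivity

lemma WOR2_step (B : ℝ) (hB : 1 / 2 < B) (d : ℕ → ℝ) (hd : WOR2_valid B d) (M : ℕ) (R : ℝ) :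
    ∃ (d' : ℕ → ℝ) (M' : ℕ) (T : ℝ), WOR2_valid B d' ∧ M < M' ∧ R ≤ T ∧
      (∀ n < M, d' n = d n) ∧ ∀ e : ℕ → ℝ, WOR2_valid B e → (∀ n < M', e n = d' n) →
        WOR2_c B * T ^ (1 / (2 * B)) ≤ ‖WOR2_z T e‖ := by
  have hB0 : 0 < B := by linarith
  have hpi := Real.pi_pos
  -- choice of `N`
  obtain ⟨N, hNM, hN32, hNR⟩ : ∃ N : ℕ, M ≤ N ∧ 32 ≤ N ∧
      R ≤ Real.pi * ((2 * N : ℕ) : ℝ) ^ B := by
    have h1 : Tendsto (fun N : ℕ => Real.pi * ((2 * N : ℕ) : ℝ) ^ B) atTop atTop := by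
      apply Tendsto.const_mul_atTop hpi
      apply (tendsto_rpow_atTop hB0).comp
      apply tendsto_natCast_atTop_atTop.comp
      exact Tendsto.const_mul_atTop' (by norm_num) tendsto_id
    obtain ⟨N, hN⟩ := ((h1.eventually_ge_atTop R).and
      ((eventually_ge_atTop M).and (eventually_ge_atTop 32))).exists
    exact ⟨N, hN.2.1, hN.2.2, hN.1⟩
  set T : ℝ := Real.pi * ((2 * N : ℕ) : ℝ) ^ B with hT
  have hNpos : (0 : ℝ) < ((2 * N : ℕ) : ℝ) := by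
    have : 0 < 2 * N := by omega
    exact_mod_cast this
  have hT0 : 0 < T := by positivity
  set d0 : ℕ → ℝ := fun m => if N < m ∧ m ≤ 2 * N then 0 else d m with hd0
  set R0 : ℂ := WOR2_z T d0 - ∑ n ∈ Finset.Ico N (2 * N), ((n + 1 : ℕ) : ℂ) ^ (-(1 / 2 + T * I))
    with hR0
  have hal : ∀ m : ℕ, ∃ y : ℝ, N < m ∧ m ≤ 2 * N → |y| ≤ (m : ℝ) ^ (-B) ∧
      (((m : ℝ) * Real.exp y : ℝ) : ℂ) ^ (-(1 / 2 + T * I)) =
        ((((m : ℝ) * Real.exp y) ^ (-(1 / 2) : ℝ) : ℝ) : ℂ) * Complex.exp (Complex.arg R0 * I) := by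
    intro m
    by_cases hm : N < m ∧ m ≤ 2 * N
    · have hm1 : 1 ≤ m := by omega
      have hmpos : (0 : ℝ) < m := by exact_mod_cast hm1
      have hle : (m : ℝ) ≤ ((2 * N : ℕ) : ℝ) := by exact_mod_cast hm.2
      have hTm : Real.pi ≤ T * (m : ℝ) ^ (-B) := by
        have h1 : ((2 * N : ℕ) : ℝ) ^ (-B) ≤ (m : ℝ) ^ (-B) :=
          Real.rpow_le_rpow_of_nonpos hmpos hle (by linarith)
        calc Real.pi = Real.pi * (((2 * N : ℕ) : ℝ) ^ B * ((2 * N : ℕ) : ℝ) ^ (-B)) := by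
              rw [← Real.rpow_add hNpos, add_neg_cancel, Real.rpow_zero, mul_one]
          _ = T * ((2 * N : ℕ) : ℝ) ^ (-B) := by rw [hT]; ring
          _ ≤ T * (m : ℝ) ^ (-B) := by gcongr
      obtain ⟨y, hy1, hy2⟩ := WOR2_align B T (Complex.arg R0) m hm1 hT0 hTm
      exact ⟨y, fun _ => ⟨hy1, hy2⟩⟩
    · exact ⟨0, fun h => absurd h hm⟩
  choose y hy using hal
  set d' : ℕ → ℝ := fun m => if N < m ∧ m ≤ 2 * N then y m else d m with hd'
  have hd0v : WOR2_valid B d0 := by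
    intro n hn
    simp only [hd0]
    split_ifs with h
    · rw [abs_zero]; positivity
    · exact hd n hn
  have hd'v : WOR2_valid B d' := by
    intro n hn
    simp only [hd']
    split_ifs with h
    · exact (hy n h).1
    · exact hd n hn
  obtain ⟨M1, hM1⟩ := WOR2_tail B hB T 1 one_pos
  -- the value for `d'`
  have hval : WOR2_z T d' = R0 + ∑ n ∈ Finset.Ico N (2 * N),
      ((((((n + 1 : ℕ) : ℝ) * Real.exp (y (n + 1))) ^ (-(1 / 2) : ℝ) : ℝ) : ℂ) *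
        Complex.exp (Complex.arg R0 * I)) := by
    have hs := WOR2_summable B hB T d' hd'v
    have hs0 := WOR2_summable B hB T d0 hd0v
    have h1 : WOR2_z T d' - WOR2_z T d0 =
        ∑ n ∈ Finset.Ico N (2 * N), (WOR2_term T d' n - WOR2_term T d0 n) := by
      rw [WOR2_z_eq, WOR2_z_eq, add_sub_add_left_eq_sub, ← hs.tsum_sub hs0]
      apply tsum_eq_sum
      intro n hn
      have hn' : ¬ (N < n + 1 ∧ n + 1 ≤ 2 * N) := by
        intro h
        apply hn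
        rw [Finset.mem_Ico]
        omega
      rw [WOR2_term_eq, WOR2_term_eq]
      simp only [hd', hd0, if_neg hn', sub_self]
    have h2 : ∑ n ∈ Finset.Ico N (2 * N), (WOR2_term T d' n - WOR2_term T d0 n) =
        ∑ n ∈ Finset.Ico N (2 * N),
          (((((((n + 1 : ℕ) : ℝ) * Real.exp (y (n + 1))) ^ (-(1 / 2) : ℝ) : ℝ) : ℂ) *
            Complex.exp (Complex.arg R0 * I)) - ((n + 1 : ℕ) : ℂ) ^ (-(1 / 2 + T * I))) := by
      apply Finset.sum_congr rfl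
      intro n hn
      rw [Finset.mem_Ico] at hn
      have hn' : N < n + 1 ∧ n + 1 ≤ 2 * N := by omega
      have e1 : WOR2_term T d0 n = 0 := by
        rw [WOR2_term_eq]
        simp only [hd0, if_pos hn']
        simp
      have e2 : WOR2_term T d' n =
          (((((((n + 1 : ℕ) : ℝ) * Real.exp (y (n + 1))) ^ (-(1 / 2) : ℝ) : ℝ) : ℂ) *
            Complex.exp (Complex.arg R0 * I)) - ((n + 1 : ℕ) : ℂ) ^ (-(1 / 2 + T * I))) := by
        unfold WOR2_term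
        simp only [hd', if_pos hn']
        rw [← (hy (n + 1) hn').2]
      rw [e1, e2, sub_zero]
    rw [h2, Finset.sum_sub_distrib] at h1
    rw [hR0]
    linear_combination h1
  -- lower bound of the aligned sum
  set S : ℝ := ∑ n ∈ Finset.Ico N (2 * N),
    (((n + 1 : ℕ) : ℝ) * Real.exp (y (n + 1))) ^ (-(1 / 2) : ℝ) with hS
  have hSn : ((2 * N : ℕ) : ℝ) ^ (1 / 2 : ℝ) / 4 ≤ S := by
    have hterm : ∀ n ∈ Finset.Ico N (2 * N), ((2 * N : ℕ) : ℝ) ^ (-(1 / 2) : ℝ) / 2 ≤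
        (((n + 1 : ℕ) : ℝ) * Real.exp (y (n + 1))) ^ (-(1 / 2) : ℝ) := by
      intro n hn
      rw [Finset.mem_Ico] at hn
      have hn' : N < n + 1 ∧ n + 1 ≤ 2 * N := by omega
      have hy1 : |y (n + 1)| ≤ 1 := (hy (n + 1) hn').1.trans (WOR2_one_le B hB0 _ (by omega))
      have he : Real.exp (y (n + 1)) ≤ 4 := by
        have h1 : Real.exp (y (n + 1)) ≤ Real.exp 1 := Real.exp_le_exp.2 (le_of_abs_le hy1)
        have h2 := Real.exp_one_lt_d9
        linarith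
      have hx : ((n + 1 : ℕ) : ℝ) * Real.exp (y (n + 1)) ≤ ((2 * N : ℕ) : ℝ) * 4 := by
        have h1 : ((n + 1 : ℕ) : ℝ) ≤ ((2 * N : ℕ) : ℝ) := by exact_mod_cast hn'.2
        have h2 := Real.exp_pos (y (n + 1))
        nlinarith
      have hpos : 0 < ((n + 1 : ℕ) : ℝ) * Real.exp (y (n + 1)) := by positivity
      calc ((2 * N : ℕ) : ℝ) ^ (-(1 / 2) : ℝ) / 2 = (((2 * N : ℕ) : ℝ) * 4) ^ (-(1 / 2) : ℝ) := by
            rw [Real.mul_rpow hNpos.le (by norm_num)]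
            have : (4 : ℝ) ^ (-(1 / 2) : ℝ) = 1 / 2 := by
              rw [show (4 : ℝ) = 2 ^ (2 : ℝ) by norm_num, ← Real.rpow_mul (by norm_num)]
              norm_num
            rw [this]; ring
        _ ≤ _ := Real.rpow_le_rpow_of_nonpos hpos hx (by norm_num)
    have hcard : (Finset.Ico N (2 * N)).card = N := by rw [Nat.card_Ico]; omega
    have h1 := Finset.card_nsmul_le_sum _ _ _ hterm
    rw [hcard, nsmul_eq_mul] at h1
    refine le_trans (le_of_eq ?_) h1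
    have h2 : ((2 * N : ℕ) : ℝ) ^ (1 / 2 : ℝ) =
        ((2 * N : ℕ) : ℝ) * ((2 * N : ℕ) : ℝ) ^ (-(1 / 2) : ℝ) := by
      nth_rewrite 2 [← Real.rpow_one ((2 * N : ℕ) : ℝ)]
      rw [← Real.rpow_add hNpos]
      norm_num
    rw [h2]
    push_cast
    ring
  have hSbig : 2 ≤ S := by
    have h64 : (64 : ℝ) ≤ ((2 * N : ℕ) : ℝ) := by
      have : 64 ≤ 2 * N := by omega
      exact_mod_cast this
    have h8 : (8 : ℝ) ≤ ((2 * N : ℕ) : ℝ) ^ (1 / 2 : ℝ) := by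
      have : (8 : ℝ) = 64 ^ (1 / 2 : ℝ) := by
        rw [show (64 : ℝ) = 8 ^ (2 : ℝ) by norm_num, ← Real.rpow_mul (by norm_num)]
        norm_num
      rw [this]
      exact Real.rpow_le_rpow (by norm_num) h64 (by norm_num)
    linarith
  have hnorm : S ≤ ‖WOR2_z T d'‖ := by
    have h1 : WOR2_z T d' = ((‖R0‖ + S : ℝ) : ℂ) * Complex.exp (Complex.arg R0 * I) := by
      rw [hval, ← Finset.sum_mul, hS]
      push_cast
      rw [add_mul, Complex.norm_mul_exp_arg_mul_I]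
    rw [h1, norm_mul, Complex.norm_exp_ofReal_mul_I, mul_one, Complex.norm_real,
      Real.norm_eq_abs, abs_of_nonneg (by positivity)]
    linarith [norm_nonneg R0]
  refine ⟨d', max M1 (2 * N + 1), T, hd'v, ?_, hNR, ?_, ?_⟩
  · exact lt_of_lt_of_le (by omega) (le_max_right _ _)
  · intro n hn
    simp only [hd']
    rw [if_neg (by omega)]
  · intro e he hee
    have h1 := hM1 e d' he hd'v (fun n hn => hee n (lt_of_lt_of_le hn (le_max_left _ _)))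
    have h2 : ‖WOR2_z T d'‖ ≤ ‖WOR2_z T e‖ + 1 := by
      have := norm_sub_norm_le (WOR2_z T d') (WOR2_z T e)
      rw [norm_sub_rev] at this
      linarith
    have h3 : WOR2_c B * T ^ (1 / (2 * B)) = ((2 * N : ℕ) : ℝ) ^ (1 / 2 : ℝ) / 8 := by
      have h4 : T ^ (1 / (2 * B)) = Real.pi ^ (1 / (2 * B)) * ((2 * N : ℕ) : ℝ) ^ (1 / 2 : ℝ) := by
        rw [hT, Real.mul_rpow hpi.le (by positivity), ← Real.rpow_mul hNpos.le]
        congr 2
        field_simp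
      rw [h4]
      unfold WOR2_c
      have : 0 < Real.pi ^ (1 / (2 * B)) := by positivity
      field_simp
    rw [h3]
    linarith

/-- states of the construction -/
def WOR2_State (B : ℝ) : Type := {p : (ℕ → ℝ) × ℕ // WOR2_valid B p.1}

lemma WOR2_seq (B : ℝ) (hB : 1 / 2 < B) :
    ∃ d : ℕ → ℝ, WOR2_valid B d ∧ ∀ j : ℕ, ∃ T : ℝ, (j : ℝ) ≤ T ∧
      WOR2_c B * T ^ (1 / (2 * B)) ≤ ‖WOR2_z T d‖ := by
  have step : ∀ (j : ℕ) (p : WOR2_State B), ∃ q : WOR2_State B, p.1.2 < q.1.2 ∧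
      (∀ n < p.1.2, q.1.1 n = p.1.1 n) ∧ ∃ T : ℝ, (j : ℝ) ≤ T ∧
        ∀ e : ℕ → ℝ, WOR2_valid B e → (∀ n < q.1.2, e n = q.1.1 n) →
          WOR2_c B * T ^ (1 / (2 * B)) ≤ ‖WOR2_z T e‖ := by
    intro j p
    obtain ⟨d', M', T, h1, h2, h3, h4, h5⟩ := WOR2_step B hB p.1.1 p.2 p.1.2 j
    exact ⟨⟨(d', M'), h1⟩, h2, h4, T, h3, h5⟩
  choose f hf1 hf2 hf3 using step
  have h0 : WOR2_valid B (fun _ => (0 : ℝ)) := by
    intro n hn
    simp only [abs_zero]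
    positivity
  let s : ℕ → WOR2_State B := fun j => Nat.rec ⟨((fun _ => (0 : ℝ)), 0), h0⟩ (fun j p => f j p) j
  have hs : ∀ j, s (j + 1) = f j (s j) := fun j => rfl
  have hmono : ∀ j, (s j).1.2 < (s (j + 1)).1.2 := fun j => by rw [hs]; exact hf1 j (s j)
  have hge : ∀ j, j ≤ (s j).1.2 := by
    intro j
    induction j with
    | zero => exact Nat.zero_le _
    | succ j ih => exact Nat.succ_le_of_lt (lt_of_le_of_lt ih (hmono j))
  have hle : ∀ i k, (s i).1.2 ≤ (s (i + k)).1.2 := by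
    intro i k
    induction k with
    | zero => exact le_rfl
    | succ k ih => exact ih.trans (hmono (i + k)).le
  have hagree : ∀ i k n, n < (s i).1.2 → (s (i + k)).1.1 n = (s i).1.1 n := by
    intro i k
    induction k with
    | zero => intro n _; rfl
    | succ k ih =>
      intro n hn
      have h1 : (s (i + k + 1)).1.1 n = (s (i + k)).1.1 n := by
        rw [hs]
        exact hf2 (i + k) (s (i + k)) n (lt_of_lt_of_le hn (hle i k))
      rw [show i + (k + 1) = i + k + 1 by ring, h1, ih n hn]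
  let d : ℕ → ℝ := fun n => (s (n + 1)).1.1 n
  have hd : ∀ j n, n < (s j).1.2 → d n = (s j).1.1 n := by
    intro j n hn
    show (s (n + 1)).1.1 n = (s j).1.1 n
    rcases le_total (n + 1) j with h | h
    · obtain ⟨k, rfl⟩ := Nat.exists_eq_add_of_le h
      exact (hagree (n + 1) k n (lt_of_lt_of_le (Nat.lt_succ_self n) (hge (n + 1)))).symm
    · obtain ⟨k, hk⟩ := Nat.exists_eq_add_of_le h
      rw [hk]
      exact hagree j k n hn
  have hdv : WOR2_valid B d := fun n hn => (s (n + 1)).2 n hn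
  refine ⟨d, hdv, fun j => ?_⟩
  obtain ⟨T, hT1, hT2⟩ := hf3 j (s j)
  refine ⟨T, hT1, hT2 d hdv (fun n hn => ?_)⟩
  rw [← hs] at hn ⊢
  exact hd (j + 1) n hn

theorem p_WOR2 : P_WOR2 := by
  intro B hB
  obtain ⟨d, hdv, hd⟩ := WOR2_seq B hB
  refine ⟨d, hdv, fun A hA => ?_⟩
  by_contra hlt
  rw [not_le] at hlt
  set γ : ℝ := 1 / (2 * B) with hγ
  have hγ0 : 0 < γ := by rw [hγ]; have : 0 < B := by linarith
                         positivity
  obtain ⟨C, hC⟩ := hA ((γ - A) / 2) (by linarith)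
  have hexp : A + (γ - A) / 2 = γ - (γ - A) / 2 := by ring
  set δ : ℝ := (γ - A) / 2 with hδ
  have hδ0 : 0 < δ := by linarith
  have hc := WOR2_c_pos B
  -- choose `T` large
  have htend : Tendsto (fun x : ℝ => x ^ δ) atTop atTop := tendsto_rpow_atTop hδ0
  obtain ⟨X, hX⟩ := (htend.eventually_gt_atTop (C * 2 ^ γ / WOR2_c B)).exists_forall_of_atTop
  obtain ⟨j, hj⟩ := exists_nat_ge (max X 1)
  obtain ⟨T, hT1, hT2⟩ := hd j
  have hTX : X ≤ T := (le_max_left _ _).trans (hj.trans hT1)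
  have hT1' : 1 ≤ T := (le_max_right _ _).trans (hj.trans hT1)
  have hT0 : 0 < T := by linarith
  have h1 := hC T
  rw [hexp, abs_of_pos hT0] at h1
  have h2 : WOR2_c B * T ^ γ ≤ C * (1 + T) ^ (γ - δ) := hT2.trans h1
  have h3 : (1 + T) ^ γ ≤ 2 ^ γ * T ^ γ := by
    rw [← Real.mul_rpow (by norm_num) hT0.le]
    exact Real.rpow_le_rpow (by linarith) (by linarith) hγ0.le
  have h4 : (1 + T) ^ γ = (1 + T) ^ (γ - δ) * (1 + T) ^ δ := by
    rw [← Real.rpow_add (by linarith)]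
    ring_nf
  have hpos : 0 < (1 + T) ^ (γ - δ) := Real.rpow_pos_of_pos (by linarith) _
  have h5 : WOR2_c B * ((1 + T) ^ (γ - δ) * (1 + T) ^ δ) ≤ 2 ^ γ * (C * (1 + T) ^ (γ - δ)) := by
    rw [← h4]
    calc WOR2_c B * (1 + T) ^ γ ≤ WOR2_c B * (2 ^ γ * T ^ γ) := by gcongr
      _ = 2 ^ γ * (WOR2_c B * T ^ γ) := by ring
      _ ≤ 2 ^ γ * (C * (1 + T) ^ (γ - δ)) := by gcongr
  have h6 : WOR2_c B * (1 + T) ^ δ ≤ C * 2 ^ γ := by
    have : (WOR2_c B * (1 + T) ^ δ) * (1 + T) ^ (γ - δ) ≤ (C * 2 ^ γ) * (1 + T) ^ (γ - δ) := by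
      calc _ = WOR2_c B * ((1 + T) ^ (γ - δ) * (1 + T) ^ δ) := by ring
        _ ≤ 2 ^ γ * (C * (1 + T) ^ (γ - δ)) := h5
        _ = _ := by ring
    exact le_of_mul_le_mul_right this hpos
  have h7 := hX (1 + T) (by linarith)
  rw [div_lt_iff₀ hc] at h7
  linarith [mul_comm (WOR2_c B) ((1 + T) ^ δ)]

end Pool.Agent.PertZ
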