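import Pool.Agent.CW.Defs

/-!
# The Lindelöf hypothesis under random perturbation of the integers and of the primes:
definitions and block statements
-/

set_option autoImplicit false

namespace Pool.Agent.PertZ

open MeasureTheory ProbabilityTheory Set Filter Topology Complex Pool.Agent.CW

/-! ## Definitions used in the final statement -/

/-- `X 0, X 1, ...` are independent exponential variables of mean one -/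
structure IsExpSeq {Ω : Type} [MeasurableSpace Ω] (P : Measure Ω) (X : ℕ → Ω → ℝ) : Prop where
  measurable : ∀ i, Measurable (X i)
  indep : iIndepFun X P
  law : ∀ i, P.map (X i) = expMeasure 1

/-- `U 0, U 1, ...` are independent and uniformly distributed on `[0, 1]` -/
structure IsUnifSeq {Ω : Type} [MeasurableSpace Ω] (P : Measure Ω) (U : ℕ → Ω → ℝ) : Prop where
  measurable : ∀ i, Measurable (U i)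
  indep : iIndepFun U P
  law : ∀ i, P.map (U i) = volume.restrict (Icc 0 1)

/-- `n exp (x n ^ (-B))` -/
noncomputable def pert (B : ℝ) (x : ℕ → ℝ) (n : ℕ) : ℝ := n * Real.exp (x n * (n : ℝ) ^ (-B))

/-- the zeta function `∑ lam n ^ (-s)` of the sequence `lam 1, lam 2, ...` at `s = 1/2 + i t`
(continued by means of zeta) -/
noncomputable def zlam (lam : ℕ → ℝ) (t : ℝ) : ℂ :=
  zl t + ∑' n : ℕ, ((lam (n + 1) : ℂ) ^ (-(1 / 2 + t * I)) -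
    ((n + 1 : ℕ) : ℂ) ^ (-(1 / 2 + t * I)))

/-- `F t = O(|t| ^ (A + ε))` for every `ε > 0` -/
def ExpLe (A : ℝ) (F : ℝ → ℂ) : Prop :=
  ∀ ε : ℝ, 0 < ε → ∃ C : ℝ, ∀ t : ℝ, ‖F t‖ ≤ C * (1 + |t|) ^ (A + ε)

/-- the Lindelöf hypothesis for the Beurling zeta function of the generalised primes `lam p`: the
Euler product continues to `Re s > 1/2`, `s ≠ 1`, and is `O(|Im s| ^ ε)` on every half plane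
`Re s ≥ σ > 1/2` -/
def BeurlingLH (lam : ℕ → ℝ) : Prop := ∃ Z : ℂ → ℂ,
  DifferentiableOn ℂ Z {s : ℂ | 1 / 2 < s.re ∧ s ≠ 1} ∧
  (∀ s : ℂ, 1 < s.re → HasProd (fun p : Nat.Primes => (1 - (lam p : ℂ) ^ (-s))⁻¹) (Z s)) ∧
  ∀ σ : ℝ, 1 / 2 < σ → ∀ ε : ℝ, 0 < ε → ∃ C : ℝ, ∀ s : ℂ, σ ≤ s.re → 1 ≤ |s.im| →
    ‖Z s‖ ≤ C * |s.im| ^ ε

/-- zeta has only finitely many zeros in every half plane `Re s > σ > 1/2` -/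
def FewZeros : Prop := ∀ σ : ℝ, 1 / 2 < σ → {s : ℂ | riemannZeta s = 0 ∧ σ < s.re}.Finite

/-! ## Auxiliary objects -/

/-- coefficients of zeta -/
noncomputable def one' (n : ℕ) : ℂ := if n = 0 then 0 else 1

/-- coefficients of the prime zeta function -/
noncomputable def pr (n : ℕ) : ℂ := by classical exact if n.Prime then 1 else 0

/-- `S(s) = s ∑ a(n) n^(-s) / (n^B + s)` -/
noncomputable def Sm (a : ℕ → ℂ) (B : ℝ) (s : ℂ) : ℂ :=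
  s * ∑' n : ℕ, a n * (n : ℂ) ^ (-s) / ((((n : ℝ) ^ B : ℝ) : ℂ) + s)

/-- the mean of the randomly perturbed zeta function on the critical line -/
noncomputable def Dl (B t : ℝ) : ℂ := zl t - Sm one' B (1 / 2 + t * I)

/-- the block sum with weights `min (n/Y) (Y/n)` -/
noncomputable def Wb (a : ℕ → ℂ) (σ t Y : ℝ) : ℂ :=
  ∑' n : ℕ, a n * (n : ℂ) ^ (-((σ : ℂ) + t * I)) * ((min (n / Y) (Y / n) : ℝ) : ℂ)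

/-- the contribution of the higher prime powers to `log ζ` -/
noncomputable def q2 (s : ℂ) : ℂ :=
  ∑' p : Nat.Primes, (-Complex.log (1 - (p : ℂ) ^ (-s)) - (p : ℂ) ^ (-s))

/-! ## Block statements: complex analysis -/

/-- three lines in a rectangle -/
def P_TLR : Prop := ∀ a b K : ℝ, a < b → 0 ≤ K → ∃ C : ℝ, 1 ≤ C ∧
  ∀ (T M m : ℝ) (f : ℂ → ℂ), 2 ≤ T → T ^ (-K) ≤ M → M ≤ T ^ K → T ^ (-K) ≤ m → m ≤ T ^ K →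
    (∀ z : ℂ, a ≤ z.re → z.re ≤ b → T / 2 ≤ z.im → z.im ≤ 2 * T →
      AnalyticAt ℂ f z ∧ ‖f z‖ ≤ T ^ K) →
    (∀ v : ℝ, T / 2 ≤ v → v ≤ 2 * T → ‖f (a + v * I)‖ ≤ M ∧ ‖f (b + v * I)‖ ≤ m) →
    ∀ σ : ℝ, a ≤ σ → σ ≤ b →
      ‖f (σ + T * I)‖ ≤ C * M ^ ((b - σ) / (b - a)) * m ^ ((σ - a) / (b - a))

/-- a Fourier integral -/
def P_FIK : Prop := ∀ r x : ℝ, 0 ≤ r → r < 1 →
  Integrable (fun v : ℝ => Complex.exp (v * x * I) / (1 - ((r : ℂ) + v * I) ^ 2)) ∧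
  ∫ v : ℝ, Complex.exp (v * x * I) / (1 - ((r : ℂ) + v * I) ^ 2) =
    ((Real.pi * Real.exp (-|x| - r * x) : ℝ) : ℂ)

/-- bound of the block sums by the values of the analytic function to the left -/
def P_BL : Prop := ∀ r : ℝ, 0 < r → r < 1 → ∃ C : ℝ, 0 < C ∧
  ∀ (a : ℕ → ℂ) (σ L K t Y : ℝ) (f : ℂ → ℂ), 0 < σ → 1 ≤ t → 1 ≤ Y → 0 ≤ K → a 0 = 0 →
    Summable (fun n : ℕ => ‖a n‖ * (n : ℝ) ^ (-(σ + r))) →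
    ∑' n : ℕ, ‖a n‖ * (n : ℝ) ^ (-(σ + r)) ≤ L →
    (∀ z : ℂ, σ ≤ z.re → z.re ≤ σ + r → t / 2 ≤ z.im → z.im ≤ 2 * t →
      AnalyticAt ℂ f z ∧ ‖f z‖ ≤ K) →
    (∀ z : ℂ, z.re = σ + r → t / 2 ≤ z.im → z.im ≤ 2 * t →
      f z = ∑' n : ℕ, a n * (n : ℂ) ^ (-z)) →
    ‖Wb a σ t Y‖ ≤ C * (K + Y ^ r * (L / t + K / t ^ 2))

/-- the weights `n^(-κ) s / (n^B + s)` as mixtures of the weights `min (n/Y) (Y/n)` -/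
def P_REP : Prop := ∀ B κ : ℝ, 0 < B → 0 < κ + B → ∃ C : ℝ, 0 < C ∧
  ∀ s : ℂ, 0 ≤ s.re → s ≠ 0 → ∃ (ρ : ℝ → ℂ) (c : ℂ), ContinuousOn ρ (Ici 1) ∧ ‖c‖ ≤ C ∧
    (∀ Y : ℝ, 1 ≤ Y → ‖ρ Y‖ ≤ C * Y ^ (-κ) * min 1 (‖s‖ * Y ^ (-B))) ∧
    ∀ n : ℕ, 1 ≤ n → (((n : ℝ) ^ (-κ) : ℝ) : ℂ) * (s / ((((n : ℝ) ^ B : ℝ) : ℂ) + s)) =
      (∫ Y in Ioi (1 : ℝ), ((min (n / Y) (Y / n) / Y : ℝ) : ℂ) * ρ Y) + c / n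

/-- bound of `Sm` by the block sums -/
def P_SUPI : Prop := ∀ B κ σ r e e' : ℝ, 0 < B → 0 < σ → 0 ≤ σ + κ → 0 ≤ r →
  1 < σ + κ + B → 0 < κ + B → 0 ≤ e → e ≤ 1 → 0 < κ + B * e → 0 ≤ e' → e' ≤ 1 →
  0 < κ - r + B * e' → ∃ C : ℝ, 0 < C ∧
  ∀ (a : ℕ → ℂ) (t K₁ K₂ : ℝ), a 0 = 0 → (∀ n, ‖a n‖ ≤ 1) → 1 ≤ t → 0 ≤ K₁ → 0 ≤ K₂ →
    (∀ Y : ℝ, 1 ≤ Y → ‖Wb a σ t Y‖ ≤ K₁ + K₂ * Y ^ r) →
    ‖Sm a B (((σ + κ : ℝ) : ℂ) + t * I)‖ ≤ C * (K₁ * t ^ e + K₂ * t ^ e')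

/-! ## Block statements: zeta -/

/-- growth facts for zeta -/
def P_ZST : Prop :=
  (∀ m : ℝ, 0 ≤ m → LineBound m → ∀ ε : ℝ, 0 < ε → ∃ C : ℝ, ∀ s : ℂ, 1 / 2 ≤ s.re →
    s.re ≤ 3 → 1 / 2 ≤ s.im → ‖riemannZeta s‖ ≤ C * (1 + s.im) ^ (m + ε)) ∧
  (∀ ε : ℝ, 0 < ε → ∃ C : ℝ, ∀ s : ℂ, 0 ≤ s.re → s.re ≤ 3 → 1 / 2 ≤ s.im →
    ‖riemannZeta s‖ ≤ C * (1 + s.im) ^ (1 / 2 + ε)) ∧
  (∃ C : ℝ, 0 < C ∧ ∀ h t : ℝ, 0 ≤ h → h ≤ 1 / 2 → 1 / 2 ≤ t →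
    ‖riemannZeta ((1 / 2 - h : ℝ) + t * I)‖ ≤ C * t ^ h * ‖riemannZeta ((1 / 2 + h : ℝ) + t * I)‖ ∧
    ‖riemannZeta ((1 / 2 + h : ℝ) + t * I)‖ ≤
      C * t ^ (-h) * ‖riemannZeta ((1 / 2 - h : ℝ) + t * I)‖) ∧
  LineBound (1 / 2)

/-- the smoothed initial sums of zeta -/
def P_SBD : Prop := ∀ B m : ℝ, 1 < B → 0 ≤ m → LineBound m → ∀ κ : ℝ, -(1 / 4) ≤ κ → κ ≤ 0 →
  ∀ ε : ℝ, 0 < ε → ∃ C : ℝ, ∀ t : ℝ, 1 ≤ t →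
    ‖Sm one' B (((1 / 2 + κ : ℝ) : ℂ) + t * I)‖ ≤ C * t ^ (m - κ / B + ε)

/-- `Sm` for bounded coefficients: analyticity, symmetry, trivial bounds -/
def P_SMA : Prop := ∀ (a : ℕ → ℂ) (B : ℝ), 1 / 2 < B → a 0 = 0 → (∀ n, ‖a n‖ ≤ 1) →
  (∀ s : ℂ, 0 < s.re → 1 - B < s.re → AnalyticAt ℂ (Sm a B) s) ∧
  (∀ s : ℂ, 0 ≤ s.re → 1 - B < s.re → s ≠ 0 → AnalyticAt ℂ (Sm a B) s) ∧
  (∀ σ : ℝ, 0 ≤ σ → 1 - B < σ → ∀ ε : ℝ, 0 < ε → ∃ C : ℝ, ∀ s : ℂ, σ ≤ s.re →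
    ‖Sm a B s‖ ≤ C * (1 + ‖s‖) ^ (max 0 ((1 - σ) / B) + ε)) ∧
  (∃ C : ℝ, ∀ s : ℂ, 2 ≤ s.re → ‖Sm a B s‖ ≤ C) ∧
  ∀ s : ℂ, 0 ≤ s.re → s ≠ 0 → 1 - B < s.re →
    Summable (fun n : ℕ => a n * (n : ℂ) ^ (-s) / ((((n : ℝ) ^ B : ℝ) : ℂ) + s))

/-- the deterministic equivalence, from zeta to the mean -/
def P_DET1 : Prop := ∀ B A : ℝ, 1 < B → 0 ≤ A → LineBound A → ExpLe A (Dl B)

/-- the deterministic equivalence, from the mean to zeta -/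
def P_DET2 : Prop := ∀ B A : ℝ, 2 < B → 0 ≤ A → ExpLe A (Dl B) → LineBound A

/-! ## Block statements: fluctuations -/

/-- Hoeffding's inequality for complex random variables -/
def P_HOE : Prop := ∀ {Ω : Type} [MeasurableSpace Ω] (P : Measure Ω) [IsProbabilityMeasure P]
  (Y : ℕ → Ω → ℂ) (b : ℕ → ℝ), (∀ n, Measurable (Y n)) → iIndepFun Y P → (∀ n, 0 ≤ b n) →
  (∀ n, ∀ᵐ ω ∂P, ‖Y n ω‖ ≤ b n) → ∀ (s : Finset ℕ) (u V : ℝ), 0 ≤ u → 0 < V →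
  ∑ n ∈ s, b n ^ 2 ≤ V →
  P.real {ω | u ≤ ‖∑ n ∈ s, (Y n ω - ∫ ω', Y n ω' ∂P)‖} ≤ 4 * Real.exp (-(u ^ 2 / (4 * V)))

/-- fluctuations of sums of functions of independent nonnegative variables, uniformly in `t` -/
def P_FLU : Prop := ∀ {Ω : Type} [MeasurableSpace Ω] (P : Measure Ω) [IsProbabilityMeasure P]
  (X : ℕ → Ω → ℝ) (G : ℕ → ℝ → ℝ → ℂ) (b c : ℕ → ℝ) (δ : ℝ) (u : ℝ → ℝ),
  (∀ n, Measurable (X n)) → iIndepFun X P → (∀ n, ∀ᵐ ω ∂P, 0 ≤ X n ω) →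
  (∀ n, Integrable (X n) P) → (∀ n, ∫ ω, X n ω ∂P ≤ 1) → 0 < δ →
  (∀ n t, Measurable (G n t)) → (∀ n, 0 ≤ b n) → (∀ n, 0 ≤ c n) →
  (∀ n t x, 0 ≤ x → ‖G n t x‖ ≤ b n) →
  (∀ n t t' x, 0 ≤ x → ‖G n t x - G n t' x‖ ≤ |t - t'| * (4 * ((n : ℝ) + 1) * (1 + x))) →
  (∀ n t x, 0 ≤ x → ‖G n t x‖ ≤ (1 + |t|) * (c n * (1 + x))) →
  Summable (fun n : ℕ => c n * ((n : ℝ) + 1) ^ δ) →
  (∀ t, 1 ≤ u t) → (∀ t t', |t| ≤ |t'| → u t ≤ u t') →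
  (∀ q : ℕ, 1 ≤ q → Summable (fun k : ℕ => Real.exp (-(u ((k : ℝ) ^ (1 / (q : ℝ)))) ^ 2 /
    (q * (1 + ∑ n ∈ Finset.range k, b n ^ 2))))) →
  ∀ᵐ ω ∂P, (∀ t, Summable (fun n => G n t (X n ω))) ∧
    (∀ t, Summable (fun n => ∫ ω', G n t (X n ω') ∂P)) ∧
    ∃ C : ℝ, ∀ t : ℝ, ‖∑' n, (G n t (X n ω) - ∫ ω', G n t (X n ω') ∂P)‖ ≤ C * u t

/-- means of the perturbed powers -/
def P_MEX : Prop := ∀ {Ω : Type} [MeasurableSpace Ω] (P : Measure Ω) [IsProbabilityMeasure P]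
  (X : Ω → ℝ), Measurable X → P.map X = expMeasure 1 →
  (∀ᵐ ω ∂P, 0 ≤ X ω) ∧ Integrable X P ∧ ∫ ω, X ω ∂P ≤ 1 ∧
  ∀ (B : ℝ) (n : ℕ) (s : ℂ), 1 ≤ n → 0 ≤ s.re →
    ∫ ω, (((n : ℝ) * Real.exp (X ω * (n : ℝ) ^ (-B)) : ℝ) : ℂ) ^ (-s) ∂P =
      (n : ℂ) ^ (-s) * (((n : ℝ) ^ B : ℝ) / ((((n : ℝ) ^ B : ℝ) : ℂ) + s))

/-! ## The four theorems -/

/-- (I) -/
def P_INT : Prop := ∀ {Ω : Type} [MeasurableSpace Ω] (P : Measure Ω) [IsProbabilityMeasure P]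
  (X : ℕ → Ω → ℝ), IsExpSeq P X → ∀ B A : ℝ, 2 < B → 0 ≤ A →
  (LineBound A → ∀ᵐ ω ∂P, ExpLe A (zlam (pert B (fun n => X n ω)))) ∧
  (¬ LineBound A → ∀ᵐ ω ∂P, ¬ ExpLe A (zlam (pert B (fun n => X n ω))))

/-- (II) -/
def P_UNI : Prop := ∀ {Ω : Type} [MeasurableSpace Ω] (P : Measure Ω) [IsProbabilityMeasure P]
  (U : ℕ → Ω → ℝ), IsUnifSeq P U → ∀ᵐ ω ∂P, ExpLe 0 (zlam (fun n => n + U n ω))

/-- (III), upper bound -/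
def P_WOR1 : Prop := ∀ B A : ℝ, 1 / 2 < B → 1 / (2 * B) ≤ A → LineBound A →
  ∀ d : ℕ → ℝ, (∀ n, 1 ≤ n → |d n| ≤ (n : ℝ) ^ (-B)) → ExpLe A (zlam (fun n => n * Real.exp (d n)))

/-- (III), lower bound -/
def P_WOR2 : Prop := ∀ B : ℝ, 1 / 2 < B → ∃ d : ℕ → ℝ, (∀ n, 1 ≤ n → |d n| ≤ (n : ℝ) ^ (-B)) ∧
  ∀ A : ℝ, ExpLe A (zlam (fun n => n * Real.exp (d n))) → 1 / (2 * B) ≤ A

/-- (IV) -/
def P_PRI : Prop := ∀ {Ω : Type} [MeasurableSpace Ω] (P : Measure Ω) [IsProbabilityMeasure P]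
  (X : ℕ → Ω → ℝ), IsExpSeq P X → ∀ B : ℝ, 1 / 2 < B →
  (FewZeros → ∀ᵐ ω ∂P, BeurlingLH (pert B (fun n => X n ω))) ∧
  (¬ FewZeros → ∀ᵐ ω ∂P, ¬ BeurlingLH (pert B (fun n => X n ω)))

/-! ## Block statements: primes -/

/-- the function `q2` and the Euler product -/
def P_PQ2 : Prop := (∀ s : ℂ, 1 / 2 < s.re → AnalyticAt ℂ q2 s) ∧
  (∀ σ : ℝ, 1 / 2 < σ → ∃ C : ℝ, ∀ s : ℂ, σ ≤ s.re → ‖q2 s‖ ≤ C) ∧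
  ∀ s : ℂ, 1 < s.re → Summable (fun n : ℕ => pr n * (n : ℂ) ^ (-s)) ∧
    riemannZeta s = Complex.exp ((∑' n : ℕ, pr n * (n : ℂ) ^ (-s)) + q2 s)

/-- the deterministic equivalence for primes, to the zeros -/
def P_PR1 : Prop := ∀ B : ℝ, 1 / 2 < B →
  (∀ σ : ℝ, 1 / 2 < σ → ∀ ε : ℝ, 0 < ε → ∃ C : ℝ, ∀ s : ℂ, σ ≤ s.re → 1 ≤ s.im →
    ‖riemannZeta s * Complex.exp (-Sm pr B s)‖ ≤ C * s.im ^ ε) → FewZeros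

/-- the logarithm of zeta without zeros -/
def P_PLOG : Prop := FewZeros → ∀ σ : ℝ, 1 / 2 < σ → ∃ (T₀ C : ℝ) (f : ℂ → ℂ), 2 ≤ T₀ ∧
  (∀ z : ℂ, σ ≤ z.re → T₀ ≤ z.im → AnalyticAt ℂ f z ∧
    riemannZeta z = Complex.exp (f z + q2 z) ∧ ‖f z‖ ≤ C * Real.log z.im) ∧
  ∀ z : ℂ, 1 < z.re → T₀ ≤ z.im → f z = ∑' n : ℕ, pr n * (n : ℂ) ^ (-z)

/-- the deterministic equivalence for primes, from the zeros -/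
def P_PR2 : Prop := FewZeros → ∀ B : ℝ, 1 / 2 < B → ∀ σ : ℝ, 1 / 2 < σ → ∀ ε : ℝ, 0 < ε →
  ∃ C : ℝ, ∀ s : ℂ, σ ≤ s.re → 1 ≤ s.im →
    ‖riemannZeta s * Complex.exp (-Sm pr B s)‖ ≤ C * s.im ^ ε

/-- Euler products of perturbed primes -/
def P_PEU : Prop := ∀ (B : ℝ) (x : ℕ → ℝ), 1 / 2 < B → (∀ n, 0 ≤ x n) →
  (∀ σ : ℝ, 1 / 2 < σ → Summable (fun n : ℕ => x n * (n : ℝ) ^ (-(σ + B)))) →
  (∀ s : ℂ, 1 / 2 < s.re →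
    Summable (fun n : ℕ => pr n * ((pert B x n : ℂ) ^ (-s) - (n : ℂ) ^ (-s)))) ∧
  (∃ Z : ℂ → ℂ, DifferentiableOn ℂ Z {s : ℂ | 1 / 2 < s.re ∧ s ≠ 1} ∧
    (∀ s : ℂ, 1 < s.re → HasProd (fun p : Nat.Primes => (1 - (pert B x p : ℂ) ^ (-s))⁻¹) (Z s)) ∧
    (∀ Z' : ℂ → ℂ, DifferentiableOn ℂ Z' {s : ℂ | 1 / 2 < s.re ∧ s ≠ 1} →
      (∀ s : ℂ, 1 < s.re →
        HasProd (fun p : Nat.Primes => (1 - (pert B x p : ℂ) ^ (-s))⁻¹) (Z' s)) →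
      ∀ s : ℂ, 1 / 2 < s.re → s ≠ 1 → Z' s = Z s) ∧
    ∀ σ : ℝ, 1 / 2 < σ → ∃ C : ℝ, 0 < C ∧ ∀ s : ℂ, σ ≤ s.re → s ≠ 1 →
      ‖Z s‖ ≤ C * ‖riemannZeta s * Complex.exp
        (∑' n : ℕ, pr n * ((pert B x n : ℂ) ^ (-s) - (n : ℂ) ^ (-s)))‖ ∧
      ‖riemannZeta s * Complex.exp
        (∑' n : ℕ, pr n * ((pert B x n : ℂ) ^ (-s) - (n : ℂ) ^ (-s)))‖ ≤ C * ‖Z s‖)

/-- fluctuations of the prime sums -/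
def P_PFL : Prop := ∀ {Ω : Type} [MeasurableSpace Ω] (P : Measure Ω) [IsProbabilityMeasure P]
  (X : ℕ → Ω → ℝ), IsExpSeq P X → ∀ B : ℝ, 1 / 2 < B →
  ∀ᵐ ω ∂P, (∀ n, 0 ≤ X n ω) ∧
    (∀ σ : ℝ, 1 / 2 < σ → Summable (fun n : ℕ => X n ω * (n : ℝ) ^ (-(σ + B)))) ∧
    ∀ σ : ℝ, 1 / 2 < σ → ∃ C : ℝ, ∀ s : ℂ, σ ≤ s.re →
      ‖(∑' n : ℕ, pr n * ((pert B (fun n => X n ω) n : ℂ) ^ (-s) - (n : ℂ) ^ (-s))) +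
        Sm pr B s‖ ≤ C * (1 + Real.log (1 + |s.im|)) ^ (2 / 3 : ℝ)

end Pool.Agent.PertZ
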