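import Pool.Agent.PertZ.Defs

/-!
# Part 2: the mean below the exponent `B = 2`

High-pass bounds: the mean of the perturbed zeta function is bounded by the values of zeta on the
left of the critical line.
-/

set_option autoImplicit false

namespace Pool.Agent.PertZ

open MeasureTheory ProbabilityTheory Set Filter Topology Complex Pool.Agent.CW

/-- `ζ(σ + i t) = O(|t| ^ (m + ε))` for every `ε > 0` -/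
def LineAt (σ m : ℝ) : Prop :=
  ∀ ε : ℝ, 0 < ε → ∃ C : ℝ, ∀ t : ℝ, 1 ≤ |t| → ‖riemannZeta (σ + t * I)‖ ≤ C * |t| ^ (m + ε)

/-- the weight `1 - n/(2Y)` for `n ≤ Y` and `Y/(2n)` for `n > Y`, as a function of `log (Y/n)` -/
noncomputable def vw (x : ℝ) : ℝ := if 0 ≤ x then 1 - Real.exp (-x) / 2 else Real.exp x / 2

/-- the smoothed initial sum -/
noncomputable def Vb (a : ℕ → ℂ) (σ t Y : ℝ) : ℂ :=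
  ∑' n : ℕ, a n * (n : ℂ) ^ (-((σ : ℂ) + t * I)) * ((vw (Real.log (Y / n)) : ℝ) : ℂ)

/-- a Fourier integral -/
def P_FIL : Prop := ∀ c x : ℝ, c ≠ 0 → -1 < c → c < 1 →
  Integrable (fun v : ℝ => Complex.exp (v * x * I) /
    (((c : ℂ) + v * I) * (1 - ((c : ℂ) + v * I) ^ 2))) ∧
  ∫ v : ℝ, Complex.exp (v * x * I) / (((c : ℂ) + v * I) * (1 - ((c : ℂ) + v * I) ^ 2)) =
    ((2 * Real.pi * Real.exp (-(c * x)) * (vw x - if c < 0 then 1 else 0) : ℝ) : ℂ)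

/-- the smoothed initial sums approximate the function, with an error bounded by its values to the
left -/
def P_BLV : Prop := ∀ h r : ℝ, 0 < h → h < 1 → 0 < r → r < 1 → ∃ C : ℝ, 0 < C ∧
  ∀ (a : ℕ → ℂ) (σ L K K' t Y : ℝ) (f : ℂ → ℂ), 0 < σ → 2 ≤ t → 1 ≤ Y → 0 ≤ K → 0 ≤ K' →
    a 0 = 0 → Summable (fun n : ℕ => ‖a n‖ * (n : ℝ) ^ (-(σ + r))) →
    ∑' n : ℕ, ‖a n‖ * (n : ℝ) ^ (-(σ + r)) ≤ L →
    (∀ z : ℂ, σ - h ≤ z.re → z.re ≤ σ + r → t / 2 ≤ z.im → z.im ≤ 2 * t →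
      AnalyticAt ℂ f z ∧ ‖f z‖ ≤ K') →
    (∀ v : ℝ, t / 2 ≤ v → v ≤ 2 * t → ‖f (((σ - h : ℝ) : ℂ) + v * I)‖ ≤ K) →
    (∀ z : ℂ, z.re = σ + r → t / 2 ≤ z.im → z.im ≤ 2 * t →
      f z = ∑' n : ℕ, a n * (n : ℂ) ^ (-z)) →
    ‖f ((σ : ℂ) + t * I) - Vb a σ t Y‖ ≤ C * (K * Y ^ (-h) + Y ^ r * (L + K') / t ^ 2)

/-- the weight `s / (n^B + s)` as a mixture of the weights `vw` -/
def P_REV : Prop := ∀ B : ℝ, 0 < B → ∃ C : ℝ, 0 < C ∧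
  ∀ s : ℂ, 0 ≤ s.re → 1 ≤ ‖s‖ → ∃ (ρ : ℝ → ℂ) (c : ℂ), ContinuousOn ρ (Ici 1) ∧ ‖c‖ ≤ C ∧
    (∀ Y : ℝ, 1 ≤ Y → ‖ρ Y‖ ≤ C * min (Y ^ B / ‖s‖) (‖s‖ * Y ^ (-B))) ∧
    ‖1 - ∫ Y in Ioi (1 : ℝ), ρ Y / Y‖ ≤ C / ‖s‖ ∧
    ∀ n : ℕ, 1 ≤ n → s / ((((n : ℝ) ^ B : ℝ) : ℂ) + s) =
      (∫ Y in Ioi (1 : ℝ), ((vw (Real.log (Y / n)) / Y : ℝ) : ℂ) * ρ Y) + c / n

/-- bound of the mean by the approximation errors of the smoothed initial sums -/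
def P_HP : Prop := ∀ B h r : ℝ, 1 / 2 < B → 0 < h → h < B → 0 < r → r < B → ∃ C : ℝ, 0 < C ∧
  ∀ t K₁ K₂ : ℝ, 2 ≤ t → 0 ≤ K₁ → 0 ≤ K₂ →
    (∀ Y : ℝ, 1 ≤ Y → ‖zl t - Vb one' (1 / 2) t Y‖ ≤ K₁ * Y ^ (-h) + K₂ * Y ^ r) →
    ‖Dl B t‖ ≤ C * (1 + ‖zl t‖ / t + K₁ * t ^ (-(h / B)) + K₂ * t ^ (r / B))

/-- bounds of the mean for all `B > 1/2` -/
def P_DETX : Prop := ∀ B h m : ℝ, 1 / 2 < B → 0 ≤ h → h ≤ 1 / 2 → LineAt (1 / 2 + h) m →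
  ExpLe (max 0 (m + h * (1 - 1 / B))) (Dl B)

/-- the perturbed zeta function is its mean up to `O(t ^ ε)` -/
def P_GAP : Prop := ∀ {Ω : Type} [MeasurableSpace Ω] (P : Measure Ω) [IsProbabilityMeasure P]
  (X : ℕ → Ω → ℝ), IsExpSeq P X → ∀ B : ℝ, 1 / 2 < B →
  ∀ᵐ ω ∂P, ∀ ε : ℝ, 0 < ε → ∃ C : ℝ, ∀ t : ℝ,
    ‖zlam (pert B (fun n => X n ω)) t - Dl B t‖ ≤ C * (1 + |t|) ^ ε

end Pool.Agent.PertZ
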