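import Pool.Agent.PertZ.Defs2

/-!
# Part 3: the abscissa of the Lindelöf hypothesis for perturbed primes
-/

set_option autoImplicit false

namespace Pool.Agent.PertZ

open MeasureTheory ProbabilityTheory Set Filter Topology Complex Pool.Agent.CW

/-- the Lindelöf hypothesis to the right of `θ` for the Beurling zeta function of the generalised
primes `lam p` -/
def BLH (θ : ℝ) (lam : ℕ → ℝ) : Prop := ∃ Z : ℂ → ℂ,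
  DifferentiableOn ℂ Z {s : ℂ | θ < s.re ∧ s ≠ 1} ∧
  (∀ s : ℂ, 1 < s.re → HasProd (fun p : Nat.Primes => (1 - (lam p : ℂ) ^ (-s))⁻¹) (Z s)) ∧
  ∀ σ : ℝ, θ < σ → ∀ ε : ℝ, 0 < ε → ∃ C : ℝ, ∀ s : ℂ, σ ≤ s.re → 1 ≤ |s.im| →
    ‖Z s‖ ≤ C * |s.im| ^ ε

/-- zeta has only finitely many zeros in every half plane `Re s > σ > θ` -/
def FewZ (θ : ℝ) : Prop := ∀ σ : ℝ, θ < σ → {s : ℂ | riemannZeta s = 0 ∧ σ < s.re}.Finite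

/-- as `P_PR1`, to the right of `θ` -/
def P_PR1T : Prop := ∀ B θ : ℝ, 1 / 2 < B → 1 / 2 ≤ θ →
  (∀ σ : ℝ, θ < σ → ∀ ε : ℝ, 0 < ε → ∃ C : ℝ, ∀ s : ℂ, σ ≤ s.re → 1 ≤ s.im →
    ‖riemannZeta s * Complex.exp (-Sm pr B s)‖ ≤ C * s.im ^ ε) → FewZ θ

/-- as `P_PLOG`, to the right of `θ` -/
def P_PLOGT : Prop := ∀ θ : ℝ, 1 / 2 ≤ θ → FewZ θ → ∀ σ : ℝ, θ < σ →
  ∃ (T₀ C : ℝ) (f : ℂ → ℂ), 2 ≤ T₀ ∧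
  (∀ z : ℂ, σ ≤ z.re → T₀ ≤ z.im → AnalyticAt ℂ f z ∧
    riemannZeta z = Complex.exp (f z + q2 z) ∧ ‖f z‖ ≤ C * Real.log z.im) ∧
  ∀ z : ℂ, 1 < z.re → T₀ ≤ z.im → f z = ∑' n : ℕ, pr n * (n : ℂ) ^ (-z)

/-- as `P_PR2`, to the right of `θ` -/
def P_PR2T : Prop := ∀ θ : ℝ, 1 / 2 ≤ θ → FewZ θ → ∀ B : ℝ, 1 / 2 < B → ∀ σ : ℝ, θ < σ →
  ∀ ε : ℝ, 0 < ε → ∃ C : ℝ, ∀ s : ℂ, σ ≤ s.re → 1 ≤ s.im →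
    ‖riemannZeta s * Complex.exp (-Sm pr B s)‖ ≤ C * s.im ^ ε

/-- as `P_PRI`, for all abscissas -/
def P_PRIT : Prop := ∀ {Ω : Type} [MeasurableSpace Ω] (P : Measure Ω) [IsProbabilityMeasure P]
  (X : ℕ → Ω → ℝ), IsExpSeq P X → ∀ B : ℝ, 1 / 2 < B →
  ∀ᵐ ω ∂P, ∀ θ : ℝ, 1 / 2 ≤ θ → θ < 1 → (BLH θ (pert B (fun n => X n ω)) ↔ FewZ θ)

end Pool.Agent.PertZ
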