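import Pool.Agent.PertZ.Defs2

/-!
# Part 4: comparison of the means for different exponents
-/

set_option autoImplicit false

namespace Pool.Agent.PertZ

open MeasureTheory ProbabilityTheory Set Filter Topology Complex Pool.Agent.CW

/-- bound of the smoothed initial sums by the values of the analytic function to the right -/
def P_BLW : Prop := ∀ δ r : ℝ, 0 < δ → δ < r → r < 1 → ∃ C : ℝ, 0 < C ∧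
  ∀ (a : ℕ → ℂ) (σ L K₀ K₁ K' t Y : ℝ) (f : ℂ → ℂ), 0 < σ → 2 ≤ t → 1 ≤ Y → 0 ≤ K₀ → 0 ≤ K₁ →
    0 ≤ K' → a 0 = 0 → Summable (fun n : ℕ => ‖a n‖ * (n : ℝ) ^ (-(σ + r))) →
    ∑' n : ℕ, ‖a n‖ * (n : ℝ) ^ (-(σ + r)) ≤ L →
    (∀ z : ℂ, σ + δ ≤ z.re → z.re ≤ σ + r → t / 2 ≤ z.im → z.im ≤ 2 * t →
      AnalyticAt ℂ f z ∧ ‖f z‖ ≤ K') →
    (∀ v : ℝ, t / 2 ≤ v → v ≤ 2 * t →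
      ‖f (((σ + δ : ℝ) : ℂ) + v * I)‖ ≤ K₀ + K₁ * |v - t|) →
    (∀ z : ℂ, z.re = σ + r → t / 2 ≤ z.im → z.im ≤ 2 * t →
      f z = ∑' n : ℕ, a n * (n : ℂ) ^ (-z)) →
    ‖Vb a σ t Y‖ ≤ C * ((K₀ + K₁) * Y ^ δ + Y ^ r * (L + K') / t ^ 2)

/-- the weights `n^(-κ) s / (n^B + s)` as mixtures of the weights `vw` -/
def P_REVK : Prop := ∀ B κ : ℝ, 0 < B → 0 < κ + B → ∃ C : ℝ, 0 < C ∧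
  ∀ s : ℂ, 0 ≤ s.re → 1 ≤ ‖s‖ → ∃ (ρ : ℝ → ℂ) (c : ℂ), ContinuousOn ρ (Ici 1) ∧ ‖c‖ ≤ C ∧
    (∀ Y : ℝ, 1 ≤ Y → ‖ρ Y‖ ≤ C * (Y ^ (-κ) * min 1 (‖s‖ * Y ^ (-B)))) ∧
    ∀ n : ℕ, 1 ≤ n → (((n : ℝ) ^ (-κ) : ℝ) : ℂ) * (s / ((((n : ℝ) ^ B : ℝ) : ℂ) + s)) =
      (∫ Y in Ioi (1 : ℝ), ((vw (Real.log (Y / n)) / Y : ℝ) : ℂ) * ρ Y) + c / n

/-- bound of low-pass sums by the smoothed initial sums -/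
def P_LPS : Prop := ∀ B κ δ r e e' : ℝ, 0 < B → 1 / 2 < κ + B → 0 ≤ δ → 0 ≤ r → 0 ≤ e → e ≤ 1 →
  0 ≤ e' → e' ≤ 1 → δ < κ + B * e → r < κ + B * e' → ∃ C : ℝ, 0 < C ∧
  ∀ (a : ℕ → ℂ) (t K₁ K₂ : ℝ), a 0 = 0 → (∀ n, ‖a n‖ ≤ 1) → 1 ≤ t → 0 ≤ K₁ → 0 ≤ K₂ →
    (∀ Y : ℝ, 1 ≤ Y → ‖Vb a (1 / 2) t Y‖ ≤ K₁ * Y ^ δ + K₂ * Y ^ r) →
    ‖∑' n : ℕ, a n * (n : ℂ) ^ (-(1 / 2 + t * I)) * ((((n : ℝ) ^ (-κ) : ℝ) : ℂ) *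
      ((1 / 2 + t * I) / ((((n : ℝ) ^ B : ℝ) : ℂ) + (1 / 2 + t * I))))‖ ≤
      C * (K₁ * t ^ e + K₂ * t ^ e')

/-- comparison of the exponents of the means -/
def P_TRF : Prop := ∀ B B' A : ℝ, 1 / 2 < B → 1 / 2 < B' → 0 ≤ A → ExpLe A (Dl B') →
  ExpLe (A + max 0 (1 - B' / B)) (Dl B)

end Pool.Agent.PertZ
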