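import Pool.Agent.PertZ.Defs2

/-!
# Part 5: powers of the logarithm
-/

set_option autoImplicit false

namespace Pool.Agent.PertZ

open MeasureTheory ProbabilityTheory Set Filter Topology Complex Pool.Agent.CW

/-- `F t = O((log t) ^ (1 + ε))` for every `ε > 0` -/
def LogLe (F : ℝ → ℂ) : Prop :=
  ∀ ε : ℝ, 0 < ε → ∃ C : ℝ, ∀ t : ℝ, ‖F t‖ ≤ C * (1 + Real.log (1 + |t|)) ^ (1 + ε)

/-- the mean is bounded for `B ≤ 1` -/
def P_DETY : Prop := ∀ B : ℝ, 1 / 2 < B → B ≤ 1 → ∃ C : ℝ, ∀ t : ℝ, ‖Dl B t‖ ≤ C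

/-- the perturbed zeta function is its mean up to `O((log t) ^ (1 + ε))` -/
def P_GAPL : Prop := ∀ {Ω : Type} [MeasurableSpace Ω] (P : Measure Ω) [IsProbabilityMeasure P]
  (X : ℕ → Ω → ℝ), IsExpSeq P X → ∀ B : ℝ, 1 / 2 < B →
  ∀ᵐ ω ∂P, LogLe (fun t => zlam (pert B (fun n => X n ω)) t - Dl B t)

/-- the uniform model -/
def P_UNIL : Prop := ∀ {Ω : Type} [MeasurableSpace Ω] (P : Measure Ω) [IsProbabilityMeasure P]
  (U : ℕ → Ω → ℝ), IsUnifSeq P U → ∀ᵐ ω ∂P, LogLe (zlam (fun n => n + U n ω))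

end Pool.Agent.PertZ
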