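import Pool.Agent.PertZ.Defs2
import Pool.Agent.DBN.Defs2

/-!
# Part 6: the exponent of the mean in terms of smoothed sums
-/

set_option autoImplicit false

namespace Pool.Agent.PertZ

open MeasureTheory ProbabilityTheory Set Filter Topology Complex Pool.Agent.CW Pool.Agent.DBN

/-- the weight `(N/n)^b exp (-(log (n/N))² / 4)` -/
noncomputable def gw (b N : ℝ) (n : ℕ) : ℝ :=
  (N / n) ^ b * Real.exp (-(Real.log (n / N)) ^ 2 / 4)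

/-- Gaussian smoothed sums and the values of the analytic function on a vertical line -/
def P_BLG : Prop := ∀ b l r : ℝ, l < r → ∃ C : ℝ, 0 < C ∧
  ∀ (a : ℕ → ℂ) (σ L K₀ K₁ K' T N : ℝ) (f : ℂ → ℂ), 2 ≤ T → 0 < N → 0 ≤ K₀ → 0 ≤ K₁ → 0 ≤ K' →
    a 0 = 0 → Summable (fun n : ℕ => ‖a n‖ * (n : ℝ) ^ (-(σ + r))) →
    ∑' n : ℕ, ‖a n‖ * (n : ℝ) ^ (-(σ + r)) ≤ L →
    (∀ z : ℂ, σ + l ≤ z.re → z.re ≤ σ + r → T / 2 ≤ z.im → z.im ≤ 2 * T →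
      AnalyticAt ℂ f z ∧ ‖f z‖ ≤ K') →
    (∀ v : ℝ, T / 2 ≤ v → v ≤ 2 * T →
      ‖f (((σ + l : ℝ) : ℂ) + v * I)‖ ≤ K₀ + K₁ * |v - T|) →
    (∀ z : ℂ, z.re = σ + r → T / 2 ≤ z.im → z.im ≤ 2 * T →
      f z = ∑' n : ℕ, a n * (n : ℂ) ^ (-z)) →
    ‖∑' n : ℕ, a n * (n : ℂ) ^ (-((σ : ℂ) + T * I)) * ((gw b N n : ℝ) : ℂ)‖ ≤
      C * ((K₀ + K₁) * N ^ l + (N ^ l + N ^ r) * (L + K') * Real.exp (-T ^ 2 / 8))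

/-- smoothed sums of zeta which are longer than the height -/
def P_GZL : Prop := ∀ K ε : ℝ, 1 ≤ K → 0 < ε → ∃ C : ℝ, ∀ T N : ℝ, 2 ≤ T → T ≤ N → N ≤ T ^ K →
  ‖zsum N T‖ ≤ C * T ^ ε

/-- from the mean to the smoothed sums -/
def P_GSF : Prop := ∀ B A : ℝ, 1 / 2 < B → 0 ≤ A → ExpLe A (Dl B) →
  ∀ b : ℝ, 0 ≤ b → b ≤ 1 → SumLe b (A + max 0 (1 - B * b))

/-- the part of the mean near `n = e^u` -/
noncomputable def blk (B T u : ℝ) : ℂ :=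
  ∑' n : ℕ, one' n * (n : ℂ) ^ (-(1 / 2 + T * I)) *
    ((((n : ℝ) ^ B : ℝ) : ℂ) / ((((n : ℝ) ^ B : ℝ) : ℂ) + (1 / 2 + T * I))) *
    ((Real.exp (-(Real.log n - u) ^ 2 / 4) : ℝ) : ℂ)

/-- bound of the parts of the mean by the smoothed sums -/
def P_GBK : Prop := ∀ B : ℝ, 1 / 2 < B → ∃ τ : ℝ, 0 < τ ∧ ∀ c : ℝ, 0 ≤ c → ∃ C : ℝ, 0 < C ∧
  ∀ T u M : ℝ, 2 ≤ T → 0 ≤ M →
    (∀ v y : ℝ, ‖zsum (Real.exp (u + y)) (T - v)‖ ≤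
      M * Real.exp (c * |y|) * Real.exp (τ * |v|)) →
    ‖blk B T u‖ ≤ C * min 1 (Real.exp (B * u) / T) * M

/-- the mean is the integral of its parts -/
def P_GID : Prop := ∀ B K : ℝ, 1 / 2 < B → 2 ≤ K → 1 ≤ K * (B - 1 / 2) → ∃ C : ℝ,
  ∀ T : ℝ, 2 ≤ T → IntegrableOn (blk B T) (Iic (K * Real.log T)) ∧
    ‖Dl B T - ((1 / (2 * √Real.pi) : ℝ) : ℂ) * ∫ u in Iic (K * Real.log T), blk B T u‖ ≤ C

/-- from the smoothed sums to the mean -/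
def P_GSB : Prop := ∀ B A : ℝ, 1 / 2 < B → 0 ≤ A →
  (∀ b : ℝ, 0 ≤ b → b ≤ 1 → SumLe b (A + max 0 (1 - B * b))) → ExpLe A (Dl B)

end Pool.Agent.PertZ
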