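import Pool.Agent.PertZ.Defs

/-!
# The deterministic equivalence for primes, to the zeros
-/

set_option autoImplicit false

namespace Pool.Agent.PertZ

open MeasureTheory ProbabilityTheory Set Filter Topology Complex Pool.Agent.CW

/-- `zeta * exp (-Sm - q2)` -/
noncomputable def PR1_H (B : ℝ) (s : ℂ) : ℂ :=
  riemannZeta s * Complex.exp (-Sm pr B s) * Complex.exp (-q2 s)

theorem PR1_pr0 : pr 0 = 0 := by
  simp [pr, Nat.not_prime_zero]

theorem PR1_prle (n : ℕ) : ‖pr n‖ ≤ 1 := by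
  unfold pr
  split_ifs <;> simp

theorem PR1_ana (hQ : P_PQ2) (hA : P_SMA) {B : ℝ} (hB : 1 / 2 < B) {s : ℂ} (hs : 1 / 2 < s.re)
    (h1 : s ≠ 1) : AnalyticAt ℂ (PR1_H B) s := by
  have hz : AnalyticAt ℂ riemannZeta s := analyticOn_riemannZeta s h1
  have hS : AnalyticAt ℂ (Sm pr B) s :=
    (hA pr B hB PR1_pr0 PR1_prle).1 s (by linarith) (by linarith)
  have hq : AnalyticAt ℂ q2 s := hQ.1 s hs
  exact (hz.mul (hS.neg.cexp)).mul hq.neg.cexp

/-- on the right: `H` is close to one -/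
theorem PR1_far (hQ : P_PQ2) (hA : P_SMA) {B : ℝ} (hB : 1 / 2 < B) :
    ∃ C : ℝ, 1 ≤ C ∧ ∀ s : ℂ, s.re = B + 3 → C ≤ s.im → ‖PR1_H B s - 1‖ ≤ 2 * (C / s.im) := by
  have hsum : Summable (fun n : ℕ => ((n : ℝ) ^ (-3 : ℝ))) :=
    Real.summable_nat_rpow.2 (by norm_num)
  set C0 : ℝ := ∑' n : ℕ, (n : ℝ) ^ (-3 : ℝ) with hC0
  refine ⟨max 1 C0, le_max_left _ _, fun s hs him => ?_⟩
  have him0 : 0 < s.im := lt_of_lt_of_le (lt_of_lt_of_le one_pos (le_max_left _ _)) him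
  have hs1 : 1 < s.re := by linarith
  have hs0 : s ≠ 0 := by
    intro h
    rw [h] at him0
    simp at him0
  obtain ⟨hsm, hz⟩ := hQ.2.2 s hs1
  have hsm2 := (hA pr B hB PR1_pr0 PR1_prle).2.2.2.2 s (by linarith) hs0 (by linarith)
  have hH : PR1_H B s = Complex.exp ((∑' n : ℕ, pr n * (n : ℂ) ^ (-s)) - Sm pr B s) := by
    unfold PR1_H
    rw [hz, ← Complex.exp_add, ← Complex.exp_add]
    congr 1
    ring
  have hD : (∑' n : ℕ, pr n * (n : ℂ) ^ (-s)) - Sm pr B s =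
      ∑' n : ℕ, (pr n * (n : ℂ) ^ (-s) -
        s * (pr n * (n : ℂ) ^ (-s) / ((((n : ℝ) ^ B : ℝ) : ℂ) + s))) := by
    unfold Sm
    rw [← tsum_mul_left, ← hsm.tsum_sub (hsm2.mul_left s)]
  have hterm : ∀ n : ℕ, ‖pr n * (n : ℂ) ^ (-s) -
      s * (pr n * (n : ℂ) ^ (-s) / ((((n : ℝ) ^ B : ℝ) : ℂ) + s))‖ ≤
      (n : ℝ) ^ (-3 : ℝ) / s.im := by
    intro n
    rcases Nat.eq_zero_or_pos n with rfl | hn
    · rw [PR1_pr0]
      simp only [zero_mul, zero_div, mul_zero, sub_zero, norm_zero]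
      positivity
    have hn' : (0 : ℝ) < n := by exact_mod_cast hn
    have hden : ((((n : ℝ) ^ B : ℝ) : ℂ) + s) ≠ 0 := by
      intro h
      have := congrArg Complex.im h
      simp at this
      linarith
    have e1 : pr n * (n : ℂ) ^ (-s) -
        s * (pr n * (n : ℂ) ^ (-s) / ((((n : ℝ) ^ B : ℝ) : ℂ) + s)) =
        pr n * (n : ℂ) ^ (-s) * (((n : ℝ) ^ B : ℝ) : ℂ) / ((((n : ℝ) ^ B : ℝ) : ℂ) + s) := by
      field_simp
      ring
    rw [e1, norm_div, norm_mul, norm_mul]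
    have e2 : ‖(n : ℂ) ^ (-s)‖ = (n : ℝ) ^ (-(B + 3)) := by
      rw [← Complex.ofReal_natCast, Complex.norm_cpow_eq_rpow_re_of_pos hn', Complex.neg_re, hs]
    have e3 : ‖(((n : ℝ) ^ B : ℝ) : ℂ)‖ = (n : ℝ) ^ B := by
      rw [Complex.norm_real, Real.norm_of_nonneg (by positivity)]
    have e4 : s.im ≤ ‖((((n : ℝ) ^ B : ℝ) : ℂ) + s)‖ := by
      have := Complex.abs_im_le_norm ((((n : ℝ) ^ B : ℝ) : ℂ) + s)
      simp only [Complex.add_im, Complex.ofReal_im, zero_add] at this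
      exact (le_abs_self _).trans this
    have e5 : (n : ℝ) ^ (-(B + 3)) * (n : ℝ) ^ B = (n : ℝ) ^ (-3 : ℝ) := by
      rw [← Real.rpow_add hn']
      congr 1
      ring
    rw [e2, e3]
    calc ‖pr n‖ * (n : ℝ) ^ (-(B + 3)) * (n : ℝ) ^ B / ‖((((n : ℝ) ^ B : ℝ) : ℂ) + s)‖
        ≤ 1 * (n : ℝ) ^ (-(B + 3)) * (n : ℝ) ^ B / s.im := by
          gcongr
          exact PR1_prle n
      _ = (n : ℝ) ^ (-3 : ℝ) / s.im := by rw [one_mul, e5]
  have hle : ‖(∑' n : ℕ, pr n * (n : ℂ) ^ (-s)) - Sm pr B s‖ ≤ max 1 C0 / s.im := by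
    rw [hD]
    refine (tsum_of_norm_bounded ((hsum.div_const s.im).hasSum) hterm).trans ?_
    rw [tsum_div_const]
    gcongr
    exact le_max_right _ _
  rw [hH]
  refine (Complex.norm_exp_sub_one_le (hle.trans ?_)).trans ?_
  · rw [div_le_one him0]
    exact him
  · linarith

/-- no zeros of large height -/
theorem PR1_nozero (hT : P_TLR) (hQ : P_PQ2) (hA : P_SMA) {B : ℝ} (hB : 1 / 2 < B)
    (hh : ∀ σ : ℝ, 1 / 2 < σ → ∀ ε : ℝ, 0 < ε → ∃ C : ℝ, ∀ s : ℂ, σ ≤ s.re → 1 ≤ s.im →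
      ‖riemannZeta s * Complex.exp (-Sm pr B s)‖ ≤ C * s.im ^ ε)
    {s0 d : ℝ} (hs0 : 1 / 2 < s0) (hd : 0 < d) (hsd : s0 + d ≤ B + 3) :
    ∀ᶠ T : ℝ in atTop, ∀ σ : ℝ, s0 + d ≤ σ → σ ≤ B + 3 →
      riemannZeta (σ + T * I) ≠ 0 := by
  set R : ℝ := B + 3 with hR
  have hRs : 0 < R - s0 := by linarith
  set δ : ℝ := d / (R - s0) with hδ
  have hδ0 : 0 < δ := by positivity
  have hδ1 : δ ≤ 1 := by
    rw [hδ, div_le_one hRs]
    linarith
  obtain ⟨Ch, hCh⟩ := hh s0 hs0 (δ / 2) (by positivity)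
  obtain ⟨Cq, hCq⟩ := hQ.2.1 s0 hs0
  obtain ⟨Cf, hCf1, hCf⟩ := PR1_far hQ hA hB
  obtain ⟨CT, hCT1, hCT⟩ := hT s0 R 2 (by linarith) (by norm_num)
  set C1 : ℝ := 2 * (|Ch| * Real.exp Cq + 1) with hC1
  have hC11 : 1 ≤ C1 := by
    have : 0 ≤ |Ch| * Real.exp Cq := by positivity
    rw [hC1]
    linarith
  set C2 : ℝ := 4 * Cf with hC2
  have hC21 : 1 ≤ C2 := by rw [hC2]; linarith
  have hlim : Tendsto (fun T : ℝ => CT * C1 * C2 ^ δ * T ^ (-(δ / 2))) atTop (𝓝 0) := by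
    have := (tendsto_rpow_neg_atTop (y := δ / 2) (by positivity)).const_mul (CT * C1 * C2 ^ δ)
    simpa using this
  have hev := hlim.eventually (gt_mem_nhds (show (0 : ℝ) < 1 from one_pos))
  filter_upwards [hev, eventually_ge_atTop (2 : ℝ), eventually_ge_atTop C1,
    eventually_ge_atTop C2, eventually_ge_atTop (2 * Cf)] with T hT1 hT2 hTC1 hTC2 hTf
  intro σ hσ1 hσ2 hz0
  have hT0 : (0 : ℝ) < T := by linarith
  set M : ℝ := C1 * T ^ (δ / 2) with hM
  set m : ℝ := C2 / T with hm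
  have hTδ : 1 ≤ T ^ (δ / 2) := Real.one_le_rpow (by linarith) (by positivity)
  have hM1 : 1 ≤ M := by
    rw [hM]
    nlinarith
  have hm0 : 0 < m := by positivity
  have hm1 : m ≤ 1 := by
    rw [hm, div_le_one hT0]
    exact hTC2
  have hTK1 : T ^ (-(2 : ℝ)) ≤ 1 := Real.rpow_le_one_of_one_le_of_nonpos (by linarith) (by norm_num)
  have hTK2 : 1 ≤ T ^ (2 : ℝ) := Real.one_le_rpow (by linarith) (by norm_num)
  have hMK : M ≤ T ^ (2 : ℝ) := by
    have h1 : T ^ (δ / 2) ≤ T := by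
      calc T ^ (δ / 2) ≤ T ^ (1 : ℝ) := Real.rpow_le_rpow_of_exponent_le (by linarith) (by linarith)
        _ = T := Real.rpow_one T
    calc M = C1 * T ^ (δ / 2) := rfl
      _ ≤ T * T := by gcongr
      _ = T ^ (2 : ℝ) := by
        rw [Real.rpow_two]
        ring
  have hmK : T ^ (-(2 : ℝ)) ≤ m := by
    have h1 : T ^ (-(2 : ℝ)) ≤ T ^ (-(1 : ℝ)) :=
      Real.rpow_le_rpow_of_exponent_le (by linarith) (by norm_num)
    have h2 : T ^ (-(1 : ℝ)) = 1 / T := by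
      rw [Real.rpow_neg_one, one_div]
    rw [h2] at h1
    refine h1.trans ?_
    rw [hm]
    gcongr
  have hb : ∀ z : ℂ, s0 ≤ z.re → T / 2 ≤ z.im → z.im ≤ 2 * T → ‖PR1_H B z - 1‖ ≤ M := by
    intro z h1 h2 h3
    have hz1 : 1 ≤ z.im := by linarith
    have e1 := hCh z h1 hz1
    have e2 : ‖Complex.exp (-q2 z)‖ ≤ Real.exp Cq := by
      rw [Complex.norm_exp]
      apply Real.exp_le_exp.2
      refine (le_abs_self _).trans ((Complex.abs_re_le_norm _).trans ?_)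
      rw [norm_neg]
      exact hCq z h1
    have e3 : z.im ^ (δ / 2) ≤ 2 * T ^ (δ / 2) := by
      calc z.im ^ (δ / 2) ≤ (2 * T) ^ (δ / 2) := by
            apply Real.rpow_le_rpow (by linarith) h3 (by positivity)
        _ = 2 ^ (δ / 2) * T ^ (δ / 2) := Real.mul_rpow (by norm_num) hT0.le
        _ ≤ 2 ^ (1 : ℝ) * T ^ (δ / 2) := by
            gcongr
            · norm_num
            · linarith
        _ = 2 * T ^ (δ / 2) := by rw [Real.rpow_one]
    have e4 : ‖PR1_H B z‖ ≤ |Ch| * (2 * T ^ (δ / 2)) * Real.exp Cq := by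
      unfold PR1_H
      rw [norm_mul]
      have : Ch * z.im ^ (δ / 2) ≤ |Ch| * (2 * T ^ (δ / 2)) := by
        have h4 : 0 ≤ z.im ^ (δ / 2) := by positivity
        calc Ch * z.im ^ (δ / 2) ≤ |Ch| * z.im ^ (δ / 2) := by
              gcongr
              exact le_abs_self _
          _ ≤ |Ch| * (2 * T ^ (δ / 2)) := by gcongr
      exact mul_le_mul (e1.trans this) e2 (norm_nonneg _) (by positivity)
    calc ‖PR1_H B z - 1‖ ≤ ‖PR1_H B z‖ + ‖(1 : ℂ)‖ := norm_sub_le _ _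
      _ ≤ |Ch| * (2 * T ^ (δ / 2)) * Real.exp Cq + 1 := by
          rw [norm_one]
          linarith
      _ ≤ M := by
          rw [hM, hC1]
          have h5 : 0 ≤ |Ch| * Real.exp Cq := by positivity
          nlinarith
  have key := hCT T M m (fun z => PR1_H B z - 1) hT2 (hTK1.trans hM1) hMK hmK
    (hm1.trans hTK2) ?_ ?_ σ (by linarith) hσ2
  · -- contradiction
    have hH0 : PR1_H B (σ + T * I) = 0 := by
      unfold PR1_H
      rw [hz0, zero_mul, zero_mul]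
    simp only [hH0, zero_sub, norm_neg, norm_one] at key
    have hθ : (R - σ) / (R - s0) ≤ 1 := by
      rw [div_le_one hRs]
      linarith
    have hθ' : δ ≤ (σ - s0) / (R - s0) := by
      rw [hδ]
      gcongr
      linarith
    have k1 : M ^ ((R - σ) / (R - s0)) ≤ M := by
      calc M ^ ((R - σ) / (R - s0)) ≤ M ^ (1 : ℝ) := Real.rpow_le_rpow_of_exponent_le hM1 hθ
        _ = M := Real.rpow_one M
    have k2 : m ^ ((σ - s0) / (R - s0)) ≤ m ^ δ :=
      Real.rpow_le_rpow_of_exponent_ge hm0 hm1 hθ'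
    have k3 : CT * M ^ ((R - σ) / (R - s0)) * m ^ ((σ - s0) / (R - s0)) ≤ CT * M * m ^ δ := by
      have h6 : 0 ≤ M ^ ((R - σ) / (R - s0)) := by positivity
      gcongr
    have k4 : CT * M * m ^ δ = CT * C1 * C2 ^ δ * T ^ (-(δ / 2)) := by
      rw [hM, hm, Real.div_rpow (by linarith) hT0.le]
      have h7 : T ^ (δ / 2) / T ^ δ = T ^ (-(δ / 2)) := by
        rw [← Real.rpow_sub hT0]
        congr 1
        ring
      rw [← h7]
      ring
    rw [k4] at k3
    linarith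
  · intro z h1 h2 h3 h4
    refine ⟨?_, (hb z h1 h3 h4).trans hMK⟩
    have hz1 : z ≠ 1 := by
      intro h
      rw [h] at h3
      simp at h3
      linarith
    exact (PR1_ana hQ hA hB (by linarith) hz1).sub analyticAt_const
  · intro v h1 h2
    refine ⟨hb _ (by simp) (by simpa using h1) (by simpa using h2), ?_⟩
    have hv := hCf ((R : ℂ) + v * I) (by simp [hR]) (by simp; linarith)
    refine hv.trans ?_
    have : (((R : ℂ) + v * I)).im = v := by simp
    rw [this, hm, hC2]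
    have hv0 : 0 < v := by linarith
    have h8 : Cf / v ≤ Cf / (T / 2) := by
      apply div_le_div_of_nonneg_left (by linarith) (by linarith) h1
    calc 2 * (Cf / v) ≤ 2 * (Cf / (T / 2)) := by linarith
      _ = 4 * Cf / T := by
        field_simp
        ring

theorem p_PR1 (hT : P_TLR) (hQ : P_PQ2) (hA : P_SMA) : P_PR1 := by
  intro B hB hh σ hσ
  rcases le_or_gt 1 σ with h1 | h1
  · convert Set.finite_empty
    rw [Set.eq_empty_iff_forall_notMem]
    rintro s ⟨hs0, hs⟩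
    exact riemannZeta_ne_zero_of_one_le_re (by linarith) hs0
  have hev := PR1_nozero hT hQ hA hB hh (s0 := (1 / 2 + σ) / 2) (d := (σ - 1 / 2) / 2)
    (by linarith) (by linarith) (by linarith)
  obtain ⟨T1, hT1⟩ := (hev.and (eventually_ge_atTop 1)).exists_forall_of_atTop
  have hfin := IsCompact.inter_riemannZetaZeros_finite
    ((isCompact_Icc (a := σ) (b := (1 : ℝ))).reProdIm (isCompact_Icc (a := -T1) (b := T1)))
  refine hfin.subset ?_
  rintro s ⟨hs0, hs⟩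
  have hs1 : s.re < 1 := by
    by_contra h
    exact riemannZeta_ne_zero_of_one_le_re (not_lt.1 h) hs0
  refine ⟨?_, hs0⟩
  rw [Complex.mem_reProdIm]
  refine ⟨⟨hs.le, hs1.le⟩, ?_, ?_⟩
  · by_contra h
    push Not at h
    refine (hT1 (-s.im) (by linarith)).1 s.re (by linarith) (by linarith) ?_
    have e : ((s.re : ℂ) + ((-s.im : ℝ) : ℂ) * I) = (starRingEnd ℂ) s := by
      apply Complex.ext <;> simp
    rw [e, riemannZeta_conj, hs0, map_zero]
  · by_contra h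
    push Not at h
    refine (hT1 s.im h.le).1 s.re (by linarith) (by linarith) ?_
    rw [Complex.re_add_im]
    exact hs0

end Pool.Agent.PertZ
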