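import Pool.Agent.PertZ.Defs
import Pool.Agent.Lib.ZetaCrude

/-! PZ-UNI: the zeta function of uniformly perturbed integers (helper19). -/

set_option autoImplicit false

namespace Pool.Agent.PertZ

open MeasureTheory ProbabilityTheory Set Filter Topology Complex Pool.Agent.CW

/-- the increments -/
noncomputable def UNI_G (n : ℕ) (t x : ℝ) : ℂ :=
  ((((n + 1 : ℕ) : ℝ) + x : ℝ) : ℂ) ^ (-(1 / 2 + t * I)) - ((n + 1 : ℕ) : ℂ) ^ (-(1 / 2 + t * I))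

lemma UNI_norm {y : ℝ} (hy : 0 < y) (t : ℝ) :
    ‖(y : ℂ) ^ (-(1 / 2 + t * I))‖ = y ^ (-(1 / 2) : ℝ) := by
  rw [norm_cpow_eq_rpow_re_of_pos hy]
  congr 1
  simp

lemma UNI_diff {y : ℝ} (hy : 1 ≤ y) (t t' : ℝ) :
    ‖(y : ℂ) ^ (-(1 / 2 + t * I)) - (y : ℂ) ^ (-(1 / 2 + t' * I))‖ ≤ 2 * |t - t'| := by
  have hy0 : 0 < y := by linarith
  have hyc : (y : ℂ) ≠ 0 := by exact_mod_cast hy0.ne'
  have hder : ∀ v ∈ (univ : Set ℝ), HasDerivWithinAt (fun v : ℝ => (y : ℂ) ^ (-(1 / 2 + v * I)))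
      ((y : ℂ) ^ (-(1 / 2 + v * I)) * Complex.log y * (-(1 * I))) univ v := by
    intro v _
    have h1 : HasDerivAt (fun z : ℂ => -(1 / 2 + z * I)) (-(1 * I)) (v : ℂ) :=
      (((hasDerivAt_id (v : ℂ)).mul_const I).const_add (1 / 2 : ℂ)).neg
    exact (h1.const_cpow (Or.inl hyc)).comp_ofReal.hasDerivWithinAt
  have hb : ∀ v ∈ (univ : Set ℝ),
      ‖(y : ℂ) ^ (-(1 / 2 + v * I)) * Complex.log y * (-(1 * I))‖ ≤ 2 := by
    intro v _
    rw [norm_mul, norm_mul, norm_neg, one_mul, norm_I, mul_one, UNI_norm hy0,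
      ← Complex.ofReal_log hy0.le, norm_real, Real.norm_of_nonneg (Real.log_nonneg hy)]
    have h1 : Real.log y ≤ y ^ (1 / 2 : ℝ) / (1 / 2) :=
      Real.log_le_rpow_div hy0.le (by norm_num)
    have h2 : y ^ (-(1 / 2) : ℝ) * y ^ (1 / 2 : ℝ) = 1 := by
      rw [← Real.rpow_add hy0]; simp
    have h3 : 0 < y ^ (-(1 / 2) : ℝ) := Real.rpow_pos_of_pos hy0 _
    calc y ^ (-(1 / 2) : ℝ) * Real.log y ≤ y ^ (-(1 / 2) : ℝ) * (y ^ (1 / 2 : ℝ) / (1 / 2)) := by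
          gcongr
      _ = 2 * (y ^ (-(1 / 2) : ℝ) * y ^ (1 / 2 : ℝ)) := by ring
      _ ≤ 2 := by rw [h2, mul_one]
  have := Convex.norm_image_sub_le_of_norm_hasDerivWithin_le hder hb convex_univ
    (mem_univ t') (mem_univ t)
  simpa [Real.norm_eq_abs] using this

lemma UNI_b (n : ℕ) (t x : ℝ) (hx : 0 ≤ x) :
    ‖UNI_G n t x‖ ≤ 2 * ((n : ℝ) + 1) ^ (-(1 / 2) : ℝ) := by
  have h0 : (0 : ℝ) < (n : ℝ) + 1 := by positivity
  unfold UNI_G
  refine (norm_sub_le _ _).trans ?_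
  have e : ((n + 1 : ℕ) : ℂ) = (((n : ℝ) + 1 : ℝ) : ℂ) := by push_cast; rfl
  have e' : (((n + 1 : ℕ) : ℝ) + x : ℝ) = ((n : ℝ) + 1 + x : ℝ) := by push_cast; ring
  rw [e, e', UNI_norm h0, UNI_norm (by positivity)]
  have h1 : ((n : ℝ) + 1 + x) ^ (-(1 / 2) : ℝ) ≤ ((n : ℝ) + 1) ^ (-(1 / 2) : ℝ) :=
    Real.rpow_le_rpow_of_nonpos h0 (by linarith) (by norm_num)
  linarith

lemma UNI_c (n : ℕ) (t x : ℝ) (hx : 0 ≤ x) :
    ‖UNI_G n t x‖ ≤ (1 + |t|) * (((n : ℝ) + 1) ^ (-(1 / 2) - 1 : ℝ) * (1 + x)) := by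
  have h0 : (0 : ℝ) < (n : ℝ) + 1 := by positivity
  unfold UNI_G
  have e : ((n + 1 : ℕ) : ℂ) = (((n : ℝ) + 1 : ℝ) : ℂ) := by push_cast; rfl
  have e' : (((n + 1 : ℕ) : ℝ) + x : ℝ) = ((n : ℝ) + 1 + x : ℝ) := by push_cast; ring
  have h1 := Pool.Agent.Lib.ZetaCrude.norm_cpow_sub_le (a := (n : ℝ) + 1)
    (x := (n : ℝ) + 1 + x) h0 (by linarith) (1 / 2 + t * I) (by simp)
  rw [e, e']
  refine h1.trans ?_
  have h2 : ‖(1 / 2 + t * I : ℂ)‖ ≤ 1 + |t| := by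
    refine (norm_add_le _ _).trans ?_
    simp
    norm_num
  have h3 : (1 / 2 + t * I : ℂ).re = 1 / 2 := by simp
  rw [h3]
  have h4 : 0 < ((n : ℝ) + 1) ^ (-(1 / 2) - 1 : ℝ) := Real.rpow_pos_of_pos h0 _
  calc ‖(1 / 2 + t * I : ℂ)‖ * ((n : ℝ) + 1) ^ (-(1 / 2) - 1 : ℝ) * ((n : ℝ) + 1 + x - (n + 1))
      = ‖(1 / 2 + t * I : ℂ)‖ * (((n : ℝ) + 1) ^ (-(1 / 2) - 1 : ℝ) * x) := by ring
    _ ≤ (1 + |t|) * (((n : ℝ) + 1) ^ (-(1 / 2) - 1 : ℝ) * (1 + x)) := by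
        gcongr
        linarith

lemma UNI_lip (n : ℕ) (t t' x : ℝ) (hx : 0 ≤ x) :
    ‖UNI_G n t x - UNI_G n t' x‖ ≤ |t - t'| * (4 * ((n : ℝ) + 1) * (1 + x)) := by
  have h0 : (1 : ℝ) ≤ (n : ℝ) + 1 := by linarith [Nat.cast_nonneg (α := ℝ) n]
  unfold UNI_G
  have e : ((n + 1 : ℕ) : ℂ) = (((n : ℝ) + 1 : ℝ) : ℂ) := by push_cast; rfl
  have e' : (((n + 1 : ℕ) : ℝ) + x : ℝ) = ((n : ℝ) + 1 + x : ℝ) := by push_cast; ring
  rw [e, e', sub_sub_sub_comm]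
  refine (norm_sub_le _ _).trans ?_
  have h1 := UNI_diff (y := (n : ℝ) + 1 + x) (by linarith) t t'
  have h2 := UNI_diff (y := (n : ℝ) + 1) h0 t t'
  have h3 : 0 ≤ |t - t'| := abs_nonneg _
  have h4 : (1 : ℝ) ≤ ((n : ℝ) + 1) * (1 + x) := by nlinarith
  calc _ ≤ 2 * |t - t'| + 2 * |t - t'| := add_le_add h1 h2
    _ = |t - t'| * (4 * 1) := by ring
    _ ≤ |t - t'| * (4 * (((n : ℝ) + 1) * (1 + x))) := by gcongr
    _ = _ := by ring

lemma UNI_meas (n : ℕ) (t : ℝ) : Measurable (UNI_G n t) := by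
  unfold UNI_G
  exact ((Complex.measurable_ofReal.comp
    (measurable_const.add measurable_id)).pow_const _).sub_const _

lemma UNI_exp {a D : ℝ} (ha : 0 < a) (hD : 0 < D) :
    Summable (fun k : ℕ => Real.exp (-((k : ℝ) ^ a / D))) := by
  have h1 := isLittleO_exp_neg_mul_rpow_atTop (a := 1 / D) (by positivity) (-2 / a)
  have h2 : Tendsto (fun k : ℕ => (k : ℝ) ^ a) atTop atTop :=
    (tendsto_rpow_atTop ha).comp tendsto_natCast_atTop_atTop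
  have h3 := (h1.comp_tendsto h2).isBigO
  refine summable_of_isBigO_nat (Real.summable_nat_rpow.2 (by norm_num : (-2 : ℝ) < -1)) ?_
  refine h3.congr (fun k => ?_) fun k => ?_
  · simp only [Function.comp_apply]
    congr 1
    ring
  · simp only [Function.comp_apply]
    rw [← Real.rpow_mul (Nat.cast_nonneg k)]
    congr 1
    field_simp

lemma UNI_sum {e : ℝ} (he : 0 < e) (q : ℕ) (hq : 1 ≤ q) :
    Summable (fun k : ℕ => Real.exp (-((1 + |(k : ℝ) ^ (1 / (q : ℝ))|) ^ e) ^ 2 /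
      (q * (1 + ∑ n ∈ Finset.range k, (2 * ((n : ℝ) + 1) ^ (-(1 / 2) : ℝ)) ^ 2)))) := by
  have hq0 : (0 : ℝ) < q := by exact_mod_cast hq
  set a : ℝ := e / q with ha
  have ha0 : 0 < a := by positivity
  have hb : ∀ n : ℕ, (2 * ((n : ℝ) + 1) ^ (-(1 / 2) : ℝ)) ^ 2 = 4 * ((n : ℝ) + 1)⁻¹ := by
    intro n
    have h0 : (0 : ℝ) < (n : ℝ) + 1 := by positivity
    rw [mul_pow, ← Real.rpow_natCast (((n : ℝ) + 1) ^ (-(1 / 2) : ℝ)), ← Real.rpow_mul h0.le]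
    norm_num
    rw [Real.rpow_neg_one]
  have hsum : ∀ k : ℕ, 1 ≤ k →
      1 + ∑ n ∈ Finset.range k, (2 * ((n : ℝ) + 1) ^ (-(1 / 2) : ℝ)) ^ 2 ≤
        (5 + 4 / a) * (k : ℝ) ^ a := by
    intro k hk
    have hk1 : (1 : ℝ) ≤ k := by exact_mod_cast hk
    simp only [hb]
    rw [← Finset.mul_sum]
    have h1 : ∑ n ∈ Finset.range k, ((n : ℝ) + 1)⁻¹ ≤ 1 + Real.log k := by
      have := harmonic_le_one_add_log k
      unfold harmonic at this
      push_cast at this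
      exact this
    have h2 : Real.log k ≤ (k : ℝ) ^ a / a := Real.log_le_rpow_div (by positivity) ha0
    have h3 : 1 ≤ (k : ℝ) ^ a := Real.one_le_rpow hk1 ha0.le
    calc 1 + 4 * ∑ n ∈ Finset.range k, ((n : ℝ) + 1)⁻¹ ≤ 1 + 4 * (1 + (k : ℝ) ^ a / a) := by
          linarith
      _ = 5 * 1 + 4 / a * (k : ℝ) ^ a := by ring
      _ ≤ 5 * (k : ℝ) ^ a + 4 / a * (k : ℝ) ^ a := by gcongr
      _ = _ := by ring
  have hD : 0 < (q : ℝ) * (5 + 4 / a) := by positivity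
  refine Summable.of_nonneg_of_le (fun k => (Real.exp_pos _).le) (fun k => ?_) (UNI_exp ha0 hD)
  refine Real.exp_le_exp.2 ?_
  rw [neg_div]
  refine neg_le_neg ?_
  rcases Nat.eq_zero_or_pos k with rfl | hk
  · simp only [Nat.cast_zero, Real.zero_rpow ha0.ne', zero_div]
    positivity
  · have hk1 : (1 : ℝ) ≤ k := by exact_mod_cast hk
    have h1 : (k : ℝ) ^ a * (k : ℝ) ^ a ≤ ((1 + |(k : ℝ) ^ (1 / (q : ℝ))|) ^ e) ^ 2 := by
      have h2 : (k : ℝ) ^ a ≤ (1 + |(k : ℝ) ^ (1 / (q : ℝ))|) ^ e := by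
        have e1 : (k : ℝ) ^ a = ((k : ℝ) ^ (1 / (q : ℝ))) ^ e := by
          rw [← Real.rpow_mul (by positivity)]
          congr 1
          rw [ha]
          ring
        rw [e1]
        refine Real.rpow_le_rpow (by positivity) ?_ he.le
        have := le_abs_self ((k : ℝ) ^ (1 / (q : ℝ)))
        linarith
      rw [sq]
      exact mul_le_mul h2 h2 (by positivity) (by positivity)
    have hs := hsum k hk
    have hs0 : 0 < 1 + ∑ n ∈ Finset.range k, (2 * ((n : ℝ) + 1) ^ (-(1 / 2) : ℝ)) ^ 2 := by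
      have : 0 ≤ ∑ n ∈ Finset.range k, (2 * ((n : ℝ) + 1) ^ (-(1 / 2) : ℝ)) ^ 2 :=
        Finset.sum_nonneg fun _ _ => sq_nonneg _
      linarith
    have hka : 0 < (k : ℝ) ^ a := by positivity
    calc (k : ℝ) ^ a / (q * (5 + 4 / a)) =
        ((k : ℝ) ^ a * (k : ℝ) ^ a) / (q * ((5 + 4 / a) * (k : ℝ) ^ a)) := by
          field_simp
      _ ≤ ((1 + |(k : ℝ) ^ (1 / (q : ℝ))|) ^ e) ^ 2 / (q * ((5 + 4 / a) * (k : ℝ) ^ a)) := by
          gcongr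
      _ ≤ _ := by
          gcongr

/-- the integral of a power over the unit interval -/
lemma UNI_int (n : ℕ) (s : ℂ) (hs : s ≠ 1) :
    ∫ x in Icc (0 : ℝ) 1, ((((n + 1 : ℕ) : ℝ) + x : ℝ) : ℂ) ^ (-s) =
      (((n + 2 : ℝ) : ℂ) ^ (1 - s) - ((n + 1 : ℝ) : ℂ) ^ (1 - s)) / (1 - s) := by
  have hs1 : (1 : ℂ) - s ≠ 0 := sub_ne_zero.2 hs.symm
  rw [integral_Icc_eq_integral_Ioc, ← intervalIntegral.integral_of_le zero_le_one]
  have hder : ∀ x ∈ uIcc (0 : ℝ) 1, HasDerivAt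
      (fun x : ℝ => ((((n + 1 : ℕ) : ℝ) + x : ℝ) : ℂ) ^ (1 - s) / (1 - s))
      (((((n + 1 : ℕ) : ℝ) + x : ℝ) : ℂ) ^ (-s)) x := by
    intro x hx
    rw [uIcc_of_le zero_le_one] at hx
    have h0 : (0 : ℝ) < ((n + 1 : ℕ) : ℝ) + x := by
      have := hx.1
      positivity
    have h1 := Pool.Agent.Lib.ZetaCrude.hasDerivAt_cpow_real h0 (1 - s)
    have h2 : HasDerivAt (fun x : ℝ => ((n + 1 : ℕ) : ℝ) + x) 1 x :=
      (hasDerivAt_id x).const_add _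
    have h3 := (h1.scomp x h2).div_const (1 - s)
    have e : (1 : ℝ) • ((1 - s) * ((((n + 1 : ℕ) : ℝ) + x : ℝ) : ℂ) ^ (1 - s - 1)) / (1 - s) =
        ((((n + 1 : ℕ) : ℝ) + x : ℝ) : ℂ) ^ (-s) := by
      rw [one_smul, show (1 - s - 1 : ℂ) = -s by ring]
      field_simp
    rw [e] at h3
    exact h3
  have hcont : ContinuousOn (fun x : ℝ => ((((n + 1 : ℕ) : ℝ) + x : ℝ) : ℂ) ^ (-s))
      (uIcc (0 : ℝ) 1) := by
    intro x hx
    rw [uIcc_of_le zero_le_one] at hx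
    have h0 : (0 : ℝ) < ((n + 1 : ℕ) : ℝ) + x := by
      have := hx.1
      positivity
    have h1 := Pool.Agent.Lib.ZetaCrude.hasDerivAt_cpow_real h0 (-s)
    have h2 : HasDerivAt (fun x : ℝ => ((n + 1 : ℕ) : ℝ) + x) 1 x :=
      (hasDerivAt_id x).const_add _
    exact (h1.scomp x h2).continuousAt.continuousWithinAt
  rw [intervalIntegral.integral_eq_sub_of_hasDerivAt hder hcont.intervalIntegrable]
  push_cast
  rw [← sub_div, show (n : ℂ) + 1 + 1 = n + 2 by ring, add_zero]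

/-- the mean of the increments -/
lemma UNI_mean {Ω : Type} [MeasurableSpace Ω] (P : Measure Ω) [IsProbabilityMeasure P]
    (X : Ω → ℝ) (hX : Measurable X) (hl : P.map X = volume.restrict (Icc 0 1)) (n : ℕ) (t : ℝ) :
    ∫ ω, UNI_G n t (X ω) ∂P =
      Pool.Agent.Lib.ZetaCrude.g n (1 / 2 + t * I) / (1 - (1 / 2 + t * I)) := by
  have hs : (1 / 2 + t * I : ℂ) ≠ 1 := by
    intro h
    have := congrArg Complex.re h
    simp at this
  have hs1 : (1 : ℂ) - (1 / 2 + t * I) ≠ 0 := sub_ne_zero.2 hs.symm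
  have h1 : ∫ ω, UNI_G n t (X ω) ∂P = ∫ x in Icc (0 : ℝ) 1, UNI_G n t x := by
    rw [← hl, integral_map hX.aemeasurable (UNI_meas n t).aestronglyMeasurable]
  rw [h1]
  unfold UNI_G
  rw [integral_sub]
  · rw [UNI_int n _ hs, setIntegral_const, Real.volume_real_Icc_of_le zero_le_one]
    unfold Pool.Agent.Lib.ZetaCrude.g
    have e : ((n + 1 : ℕ) : ℂ) = ((n + 1 : ℝ) : ℂ) := by push_cast; rfl
    rw [e]
    generalize (1 / 2 + (t : ℂ) * I) = s at hs1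
    simp only [sub_zero, one_smul]
    rw [eq_div_iff hs1, sub_mul, div_mul_cancel₀ _ hs1]
    ring
  · refine Integrable.of_bound (C := 1) ?_ ?_
    · exact ((Complex.measurable_ofReal.comp
        (measurable_const.add measurable_id)).pow_const _).aestronglyMeasurable
    · refine (ae_restrict_iff' measurableSet_Icc).2 (Eventually.of_forall fun x hx => ?_)
      have h0 : (1 : ℝ) ≤ ((n + 1 : ℕ) : ℝ) + x := by
        have := hx.1
        push_cast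
        linarith [Nat.cast_nonneg (α := ℝ) n]
      rw [UNI_norm (by linarith)]
      exact Real.rpow_le_one_of_one_le_of_nonpos h0 (by norm_num)
  · exact integrable_const _

/-- the identity for the zeta function of the perturbed integers -/
lemma UNI_zlam (lam : ℕ → ℝ) (x : ℕ → ℝ) (hl : ∀ n, lam (n + 1) = ((n + 1 : ℕ) : ℝ) + x n) (t : ℝ)
    (h1 : Summable fun n => UNI_G n t (x n))
    (h2 : Summable fun n => Pool.Agent.Lib.ZetaCrude.g n (1 / 2 + t * I) /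
      (1 - (1 / 2 + t * I))) :
    zlam lam t = ((1 / 2 + t * I : ℂ) - 1)⁻¹ + ∑' n, (UNI_G n t (x n) -
      Pool.Agent.Lib.ZetaCrude.g n (1 / 2 + t * I) / (1 - (1 / 2 + t * I))) := by
  set s : ℂ := 1 / 2 + t * I with hs
  have hre : s.re = 1 / 2 := by simp [hs]
  have hs1 : s ≠ 1 := by
    intro h
    rw [h] at hre
    norm_num at hre
  have hs2 : s - 1 ≠ 0 := sub_ne_zero.2 hs1
  have hs3 : 1 - s ≠ 0 := sub_ne_zero.2 hs1.symm
  have h3 := Pool.Agent.Lib.ZetaCrude.G_eq (s := s) (by rw [hre]; norm_num)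
  unfold Pool.Agent.Lib.ZetaCrude.G at h3
  have h4 := riemannZeta_eq_inv_sub_mul hs1
  rw [← h3] at h4
  rw [h1.tsum_sub h2, tsum_div_const]
  unfold zlam zl
  rw [← hs, h4]
  have e : ∀ n : ℕ, ((lam (n + 1) : ℂ) ^ (-s) - ((n + 1 : ℕ) : ℂ) ^ (-s)) =
      UNI_G n t (x n) := by
    intro n
    unfold UNI_G
    rw [hl n]
  simp only [e]
  set A := ∑' n, Pool.Agent.Lib.ZetaCrude.g n s
  set B := ∑' n, UNI_G n t (x n)
  have e2 : A / (1 - s) = -((s - 1)⁻¹ * A) := by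
    rw [div_eq_inv_mul, ← neg_sub s 1, inv_neg, neg_mul]
  rw [e2]
  ring

theorem p_UNI (hF : P_FLU) : P_UNI := by
  intro Ω _ P _ U hU
  have hX : ∀ n, Measurable (U (n + 1)) := fun n => hU.measurable _
  have hX0 : ∀ n, ∀ᵐ ω ∂P, U (n + 1) ω ∈ Icc (0 : ℝ) 1 := by
    intro n
    have h1 : ∀ᵐ x ∂(P.map (U (n + 1))), x ∈ Icc (0 : ℝ) 1 := by
      rw [hU.law]
      exact ae_restrict_mem measurableSet_Icc
    exact ae_of_ae_map (hX n).aemeasurable h1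
  have hXi : ∀ n, Integrable (U (n + 1)) P := by
    intro n
    refine Integrable.of_bound (C := 1) (hX n).aestronglyMeasurable ?_
    filter_upwards [hX0 n] with ω hω
    rw [Real.norm_eq_abs, abs_of_nonneg hω.1]
    exact hω.2
  have hXm : ∀ n, ∫ ω, U (n + 1) ω ∂P ≤ 1 := by
    intro n
    calc ∫ ω, U (n + 1) ω ∂P ≤ ∫ _ω, (1 : ℝ) ∂P := by
          refine integral_mono_ae (hXi n) (integrable_const _) ?_
          filter_upwards [hX0 n] with ω hω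
          exact hω.2
      _ = 1 := by simp
  have hc : Summable fun n : ℕ =>
      ((n : ℝ) + 1) ^ (-(1 / 2) - 1 : ℝ) * ((n : ℝ) + 1) ^ (1 / 4 : ℝ) := by
    have h1 := Pool.Agent.Lib.ZetaCrude.summable_rpow_aux (σ := 1 / 4) (by norm_num)
    refine h1.congr fun n => ?_
    rw [← Real.rpow_add (by positivity)]
    norm_num
  have key : ∀ j : ℕ, ∀ᵐ ω ∂P, ∃ C : ℝ, ∀ t : ℝ,
      ‖zlam (fun n => n + U n ω) t‖ ≤ 2 + C * (1 + |t|) ^ (1 / ((j : ℝ) + 1)) := by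
    intro j
    have he : (0 : ℝ) < 1 / ((j : ℝ) + 1) := by positivity
    have h := hF P (fun n => U (n + 1)) UNI_G (fun n => 2 * ((n : ℝ) + 1) ^ (-(1 / 2) : ℝ))
      (fun n => ((n : ℝ) + 1) ^ (-(1 / 2) - 1 : ℝ)) (1 / 4)
      (fun t => (1 + |t|) ^ (1 / ((j : ℝ) + 1))) hX
      (hU.indep.precomp (g := fun n : ℕ => n + 1) (add_left_injective 1))
      (fun n => (hX0 n).mono fun ω hω => hω.1) hXi hXm (by norm_num) UNI_meas
      (fun n => by positivity) (fun n => by positivity) (fun n t x hx => UNI_b n t x hx)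
      (fun n t t' x hx => UNI_lip n t t' x hx) (fun n t x hx => UNI_c n t x hx) hc
      (fun t => Real.one_le_rpow (by linarith [abs_nonneg t]) he.le)
      (fun t t' htt => by gcongr) (fun q hq => UNI_sum he q hq)
    filter_upwards [h] with ω hω
    obtain ⟨h1, h2, C, hC⟩ := hω
    refine ⟨C, fun t => ?_⟩
    have hm : ∀ n, ∫ ω', UNI_G n t (U (n + 1) ω') ∂P =
        Pool.Agent.Lib.ZetaCrude.g n (1 / 2 + t * I) / (1 - (1 / 2 + t * I)) :=
      fun n => UNI_mean P (U (n + 1)) (hX n) (hU.law _) n t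
    have h2t := h2 t
    have hCt := hC t
    simp only [hm] at h2t hCt
    rw [UNI_zlam (fun n => n + U n ω) (fun n => U (n + 1) ω) (fun n => rfl) t (h1 t) h2t]
    refine (norm_add_le _ _).trans (add_le_add ?_ hCt)
    rw [norm_inv]
    have h3 : 1 / 2 ≤ ‖(1 / 2 + t * I : ℂ) - 1‖ := by
      have h4 := Complex.abs_re_le_norm ((1 / 2 + t * I : ℂ) - 1)
      have h5 : ((1 / 2 + t * I : ℂ) - 1).re = -(1 / 2) := by
        simp
        norm_num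
      rw [h5, abs_neg, abs_of_pos (by norm_num : (0 : ℝ) < 1 / 2)] at h4
      exact h4
    calc ‖(1 / 2 + t * I : ℂ) - 1‖⁻¹ ≤ (1 / 2 : ℝ)⁻¹ := inv_anti₀ (by norm_num) h3
      _ = 2 := by norm_num
  filter_upwards [ae_all_iff.2 key] with ω hω ε hε
  obtain ⟨j, hj⟩ := exists_nat_one_div_lt hε
  obtain ⟨C, hC⟩ := hω j
  refine ⟨2 + |C|, fun t => (hC t).trans ?_⟩
  have h1 : (1 : ℝ) ≤ 1 + |t| := by linarith [abs_nonneg t]
  have h2 : (1 + |t|) ^ (1 / ((j : ℝ) + 1)) ≤ (1 + |t|) ^ (0 + ε) :=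
    Real.rpow_le_rpow_of_exponent_le h1 (by linarith)
  have h3 : 1 ≤ (1 + |t|) ^ (0 + ε) := Real.one_le_rpow h1 (by linarith)
  have h4 : 0 ≤ (1 + |t|) ^ (1 / ((j : ℝ) + 1)) := by positivity
  calc 2 + C * (1 + |t|) ^ (1 / ((j : ℝ) + 1)) ≤ 2 + |C| * (1 + |t|) ^ (1 / ((j : ℝ) + 1)) := by
        gcongr
        exact le_abs_self C
    _ ≤ 2 * (1 + |t|) ^ (0 + ε) + |C| * (1 + |t|) ^ (0 + ε) := by
        gcongr
        linarith
    _ = _ := by ring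

end Pool.Agent.PertZ
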