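import Pool.Agent.PertZ.Defs6
import Pool.Agent.PertZ.UNI

/-! PZ5-UNIL: the zeta function of uniformly perturbed integers is `O((log t) ^ (1 + ε))`. -/

set_option autoImplicit false

namespace Pool.Agent.PertZ

open MeasureTheory ProbabilityTheory Set Filter Topology Complex Pool.Agent.CW

lemma UNIL_exp {e D : ℝ} (he : 0 < e) (hD : 0 < D) :
    Summable (fun k : ℕ => Real.exp (-((1 + Real.log k) ^ (1 + 2 * e) / D))) := by
  refine summable_of_isBigO_nat (Real.summable_nat_rpow.2 (by norm_num : (-2 : ℝ) < -1)) ?_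
  have h1 : Tendsto (fun k : ℕ => (1 + Real.log (k : ℝ)) ^ (2 * e)) atTop atTop := by
    refine (tendsto_rpow_atTop (by positivity : (0 : ℝ) < 2 * e)).comp ?_
    exact tendsto_atTop_add_const_left _ _
      (Real.tendsto_log_atTop.comp tendsto_natCast_atTop_atTop)
  refine Asymptotics.IsBigO.of_bound 1 ?_
  filter_upwards [h1.eventually_ge_atTop (2 * D), eventually_ge_atTop 1] with k hk hk1
  have hk1' : (1 : ℝ) ≤ k := by exact_mod_cast hk1
  have hl : 0 ≤ Real.log k := Real.log_nonneg hk1'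
  have hk0 : (0 : ℝ) < k := by linarith
  rw [Real.norm_of_nonneg (Real.exp_pos _).le, one_mul,
    Real.norm_of_nonneg (by positivity), Real.rpow_def_of_pos hk0]
  refine Real.exp_le_exp.2 ?_
  have h2 : (1 + Real.log k) ^ (1 + 2 * e) = (1 + Real.log k) * (1 + Real.log k) ^ (2 * e) := by
    rw [Real.rpow_add (by linarith), Real.rpow_one]
  have h3 : 2 * Real.log k ≤ (1 + Real.log k) ^ (1 + 2 * e) / D := by
    rw [h2, le_div_iff₀ hD]
    calc 2 * Real.log k * D ≤ (1 + Real.log k) * (2 * D) := by nlinarith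
      _ ≤ _ := mul_le_mul_of_nonneg_left hk (by linarith)
  linarith

lemma UNIL_sum {e : ℝ} (he : 0 < e) (q : ℕ) (hq : 1 ≤ q) :
    Summable (fun k : ℕ => Real.exp
      (-((1 + Real.log (1 + |(k : ℝ) ^ (1 / (q : ℝ))|)) ^ (1 + e)) ^ 2 /
      (q * (1 + ∑ n ∈ Finset.range k, (2 * ((n : ℝ) + 1) ^ (-(1 / 2) : ℝ)) ^ 2)))) := by
  have hq1 : (1 : ℝ) ≤ q := by exact_mod_cast hq
  have hq0 : (0 : ℝ) < q := by linarith
  have hb : ∀ n : ℕ, (2 * ((n : ℝ) + 1) ^ (-(1 / 2) : ℝ)) ^ 2 = 4 * ((n : ℝ) + 1)⁻¹ := by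
    intro n
    have h0 : (0 : ℝ) < (n : ℝ) + 1 := by positivity
    rw [mul_pow, ← Real.rpow_natCast (((n : ℝ) + 1) ^ (-(1 / 2) : ℝ)), ← Real.rpow_mul h0.le]
    norm_num
    rw [Real.rpow_neg_one]
  set Q : ℝ := (q : ℝ) ^ (2 + 2 * e) with hQ
  have hQ1 : 1 ≤ Q := Real.one_le_rpow hq1 (by positivity)
  have hD : 0 < 5 * ((q : ℝ) * Q) := by positivity
  refine Summable.of_nonneg_of_le (fun k => (Real.exp_pos _).le) (fun k => ?_)
    (UNIL_exp he hD)
  refine Real.exp_le_exp.2 ?_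
  rw [neg_div]
  refine neg_le_neg ?_
  rcases Nat.eq_zero_or_pos k with rfl | hk
  · have h0 : ((0 : ℕ) : ℝ) ^ (1 / (q : ℝ)) = 0 := by
      rw [Nat.cast_zero, Real.zero_rpow (by positivity)]
    rw [h0]
    simp only [Nat.cast_zero, Real.log_zero, add_zero, Real.one_rpow, abs_zero, Real.log_one,
      Finset.range_zero, Finset.sum_empty, one_pow, mul_one]
    refine one_div_le_one_div_of_le hq0 ?_
    nlinarith
  · have hk1 : (1 : ℝ) ≤ k := by exact_mod_cast hk
    have hk0 : (0 : ℝ) < k := by linarith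
    have hl : 0 ≤ Real.log k := Real.log_nonneg hk1
    set l : ℝ := 1 + Real.log k with hl1
    have hl0 : 1 ≤ l := by linarith
    have hsum : 1 + ∑ n ∈ Finset.range k, (2 * ((n : ℝ) + 1) ^ (-(1 / 2) : ℝ)) ^ 2 ≤ 5 * l := by
      simp only [hb]
      rw [← Finset.mul_sum]
      have h1 : ∑ n ∈ Finset.range k, ((n : ℝ) + 1)⁻¹ ≤ 1 + Real.log k := by
        have := harmonic_le_one_add_log k
        unfold harmonic at this
        push_cast at this
        exact this
      linarith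
    have hs0 : 0 < 1 + ∑ n ∈ Finset.range k, (2 * ((n : ℝ) + 1) ^ (-(1 / 2) : ℝ)) ^ 2 := by
      have : 0 ≤ ∑ n ∈ Finset.range k, (2 * ((n : ℝ) + 1) ^ (-(1 / 2) : ℝ)) ^ 2 :=
        Finset.sum_nonneg fun _ _ => sq_nonneg _
      linarith
    have hA : l / q ≤ 1 + Real.log (1 + |(k : ℝ) ^ (1 / (q : ℝ))|) := by
      have h1 : Real.log ((k : ℝ) ^ (1 / (q : ℝ))) ≤
          Real.log (1 + |(k : ℝ) ^ (1 / (q : ℝ))|) := by
        refine Real.log_le_log (by positivity) ?_
        have := le_abs_self ((k : ℝ) ^ (1 / (q : ℝ)))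
        linarith
      rw [Real.log_rpow hk0] at h1
      have h2 : l / q = 1 / q + 1 / q * Real.log k := by rw [hl1]; ring
      have h3 : 1 / (q : ℝ) ≤ 1 := by
        rw [div_le_one hq0]; exact hq1
      linarith
    have hu : l ^ (1 + 2 * e) * l / Q ≤
        ((1 + Real.log (1 + |(k : ℝ) ^ (1 / (q : ℝ))|)) ^ (1 + e)) ^ 2 := by
      have h1 : l ^ (1 + 2 * e) * l / Q = ((l / q) ^ (1 + e)) ^ 2 := by
        rw [← Real.rpow_natCast ((l / q) ^ (1 + e)), ← Real.rpow_mul (by positivity),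
          Real.div_rpow (by linarith) hq0.le, hQ]
        congr 1
        · rw [← Real.rpow_add_one (by positivity)]
          congr 1
          push_cast
          ring
        · congr 1
          push_cast
          ring
      rw [h1]
      refine pow_le_pow_left₀ (by positivity) ?_ 2
      exact Real.rpow_le_rpow (by positivity) hA (by linarith)
    calc l ^ (1 + 2 * e) / (5 * (q * Q)) = l ^ (1 + 2 * e) * l / Q / (q * (5 * l)) := by
          field_simp
      _ ≤ ((1 + Real.log (1 + |(k : ℝ) ^ (1 / (q : ℝ))|)) ^ (1 + e)) ^ 2 / (q * (5 * l)) := by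
          gcongr
      _ ≤ _ := by
          gcongr

theorem p_UNIL (hF : P_FLU) : P_UNIL := by
  intro Ω _ P _ U hU
  have hX : ∀ n, Measurable (U (n + 1)) := fun n => hU.measurable _
  have hX0 : ∀ n, ∀ᵐ ω ∂P, U (n + 1) ω ∈ Icc (0 : ℝ) 1 := by
    intro n
    have h1 : ∀ᵐ x ∂(P.map (U (n + 1))), x ∈ Icc (0 : ℝ) 1 := by
      rw [hU.law]
      exact ae_restrict_mem measurableSet_Icc
    exact ae_of_ae_map (hX n).aemeasurable h1
  have hXi : ∀ n, Integrable (U (n + 1)) P := by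
    intro n
    refine Integrable.of_bound (C := 1) (hX n).aestronglyMeasurable ?_
    filter_upwards [hX0 n] with ω hω
    rw [Real.norm_eq_abs, abs_of_nonneg hω.1]
    exact hω.2
  have hXm : ∀ n, ∫ ω, U (n + 1) ω ∂P ≤ 1 := by
    intro n
    calc ∫ ω, U (n + 1) ω ∂P ≤ ∫ _ω, (1 : ℝ) ∂P := by
          refine integral_mono_ae (hXi n) (integrable_const _) ?_
          filter_upwards [hX0 n] with ω hω
          exact hω.2
      _ = 1 := by simp
  have hc : Summable fun n : ℕ =>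
      ((n : ℝ) + 1) ^ (-(1 / 2) - 1 : ℝ) * ((n : ℝ) + 1) ^ (1 / 4 : ℝ) := by
    have h1 := Pool.Agent.Lib.ZetaCrude.summable_rpow_aux (σ := 1 / 4) (by norm_num)
    refine h1.congr fun n => ?_
    rw [← Real.rpow_add (by positivity)]
    norm_num
  have hlog : ∀ t : ℝ, 1 ≤ 1 + Real.log (1 + |t|) := fun t => by
    have := Real.log_nonneg (show (1 : ℝ) ≤ 1 + |t| by linarith [abs_nonneg t])
    linarith
  have key : ∀ j : ℕ, ∀ᵐ ω ∂P, ∃ C : ℝ, ∀ t : ℝ,
      ‖zlam (fun n => n + U n ω) t‖ ≤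
        2 + C * (1 + Real.log (1 + |t|)) ^ (1 + 1 / ((j : ℝ) + 1)) := by
    intro j
    have he : (0 : ℝ) < 1 / ((j : ℝ) + 1) := by positivity
    have h := hF P (fun n => U (n + 1)) UNI_G (fun n => 2 * ((n : ℝ) + 1) ^ (-(1 / 2) : ℝ))
      (fun n => ((n : ℝ) + 1) ^ (-(1 / 2) - 1 : ℝ)) (1 / 4)
      (fun t => (1 + Real.log (1 + |t|)) ^ (1 + 1 / ((j : ℝ) + 1))) hX
      (hU.indep.precomp (g := fun n : ℕ => n + 1) (add_left_injective 1))
      (fun n => (hX0 n).mono fun ω hω => hω.1) hXi hXm (by norm_num) UNI_meas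
      (fun n => by positivity) (fun n => by positivity) (fun n t x hx => UNI_b n t x hx)
      (fun n t t' x hx => UNI_lip n t t' x hx) (fun n t x hx => UNI_c n t x hx) hc
      (fun t => Real.one_le_rpow (hlog t) (by positivity))
      (fun t t' htt => by
        refine Real.rpow_le_rpow (by linarith [hlog t]) ?_ (by positivity)
        have := Real.log_le_log (show (0 : ℝ) < 1 + |t| by linarith [abs_nonneg t])
          (show 1 + |t| ≤ 1 + |t'| by linarith)
        linarith) (fun q hq => UNIL_sum he q hq)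
    filter_upwards [h] with ω hω
    obtain ⟨h1, h2, C, hC⟩ := hω
    refine ⟨C, fun t => ?_⟩
    have hm : ∀ n, ∫ ω', UNI_G n t (U (n + 1) ω') ∂P =
        Pool.Agent.Lib.ZetaCrude.g n (1 / 2 + t * I) / (1 - (1 / 2 + t * I)) :=
      fun n => UNI_mean P (U (n + 1)) (hX n) (hU.law _) n t
    have h2t := h2 t
    have hCt := hC t
    simp only [hm] at h2t hCt
    rw [UNI_zlam (fun n => n + U n ω) (fun n => U (n + 1) ω) (fun n => rfl) t (h1 t) h2t]
    refine (norm_add_le _ _).trans (add_le_add ?_ hCt)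
    rw [norm_inv]
    have h3 : 1 / 2 ≤ ‖(1 / 2 + t * I : ℂ) - 1‖ := by
      have h4 := Complex.abs_re_le_norm ((1 / 2 + t * I : ℂ) - 1)
      have h5 : ((1 / 2 + t * I : ℂ) - 1).re = -(1 / 2) := by
        simp
        norm_num
      rw [h5, abs_neg, abs_of_pos (by norm_num : (0 : ℝ) < 1 / 2)] at h4
      exact h4
    calc ‖(1 / 2 + t * I : ℂ) - 1‖⁻¹ ≤ (1 / 2 : ℝ)⁻¹ := inv_anti₀ (by norm_num) h3
      _ = 2 := by norm_num
  filter_upwards [ae_all_iff.2 key] with ω hω ε hε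
  obtain ⟨j, hj⟩ := exists_nat_one_div_lt hε
  obtain ⟨C, hC⟩ := hω j
  refine ⟨2 + |C|, fun t => (hC t).trans ?_⟩
  have h2 : (1 + Real.log (1 + |t|)) ^ (1 + 1 / ((j : ℝ) + 1)) ≤
      (1 + Real.log (1 + |t|)) ^ (1 + ε) :=
    Real.rpow_le_rpow_of_exponent_le (hlog t) (by linarith)
  have h3 : 1 ≤ (1 + Real.log (1 + |t|)) ^ (1 + ε) := Real.one_le_rpow (hlog t) (by linarith)
  have h4 : 0 ≤ (1 + Real.log (1 + |t|)) ^ (1 + 1 / ((j : ℝ) + 1)) :=
    Real.rpow_nonneg (by linarith [hlog t]) _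
  calc 2 + C * (1 + Real.log (1 + |t|)) ^ (1 + 1 / ((j : ℝ) + 1))
      ≤ 2 + |C| * (1 + Real.log (1 + |t|)) ^ (1 + 1 / ((j : ℝ) + 1)) := by
        gcongr
        exact le_abs_self C
    _ ≤ 2 * (1 + Real.log (1 + |t|)) ^ (1 + ε) + |C| * (1 + Real.log (1 + |t|)) ^ (1 + ε) := by
        gcongr
        linarith
    _ = _ := by ring

end Pool.Agent.PertZ
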