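import Pool.Agent.PertZ.FinL
import Pool.Agent.PertZ.TLR
import Pool.Agent.PertZ.FIK
import Pool.Agent.PertZ.BL
import Pool.Agent.PertZ.REP
import Pool.Agent.PertZ.SUPI
import Pool.Agent.PertZ.ZST
import Pool.Agent.PertZ.SMA
import Pool.Agent.PertZ.SBD
import Pool.Agent.PertZ.DET2
import Pool.Agent.PertZ.HOE
import Pool.Agent.PertZ.FLU
import Pool.Agent.PertZ.MEX
import Pool.Agent.PertZ.UNIL
import Pool.Agent.PertZ.WOR1
import Pool.Agent.PertZ.WOR2
import Pool.Agent.PertZ.PQ2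
import Pool.Agent.PertZ.PR1T
import Pool.Agent.PertZ.PLOGT
import Pool.Agent.PertZ.PR2T
import Pool.Agent.PertZ.PEU
import Pool.Agent.PertZ.PFL
import Pool.Agent.PertZ.PRIT
import Pool.Agent.PertZ.FIL
import Pool.Agent.PertZ.BLV
import Pool.Agent.PertZ.REV
import Pool.Agent.PertZ.HP
import Pool.Agent.PertZ.DETX
import Pool.Agent.PertZ.GAP
import Pool.Agent.PertZ.GAPL
import Pool.Agent.PertZ.DETY
import Pool.Agent.PertZ.BLW
import Pool.Agent.PertZ.REVK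
import Pool.Agent.PertZ.LPS
import Pool.Agent.PertZ.TRF
import Pool.Agent.PertZ.GSF
import Pool.Agent.PertZ.GSB
import Pool.Agent.PertZ.GZL
import Pool.Agent.PertZ.BLG
import Pool.Agent.PertZ.GBK
import Pool.Agent.PertZ.GID

/-!
# The Lindelöf hypothesis under perturbation of the integers and of the primes
-/

set_option autoImplicit false

open Complex MeasureTheory ProbabilityTheory Set

namespace Pool.Agent.PertZ.Final

/-- `X 0, X 1, ...` are independent exponential random variables of mean one on `(Ω, P)`. -/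
def ExpSeq {Ω : Type} [MeasurableSpace Ω] (P : Measure Ω) (X : ℕ → Ω → ℝ) : Prop :=
  (∀ n, Measurable (X n)) ∧ iIndepFun X P ∧ ∀ n, P.map (X n) = expMeasure 1

/-- `U 0, U 1, ...` are independent and uniformly distributed on `[0, 1]`. -/
def UnifSeq {Ω : Type} [MeasurableSpace Ω] (P : Measure Ω) (U : ℕ → Ω → ℝ) : Prop :=
  (∀ n, Measurable (U n)) ∧ iIndepFun U P ∧ ∀ n, P.map (U n) = volume.restrict (Icc 0 1)

/-- `ζ(1/2 + it) = O((1 + |t|) ^ (A + ε))` for every `ε > 0`; the case `A = 0` is the Lindelöf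
hypothesis -/
def ZetaGrowth (A : ℝ) : Prop :=
  ∀ ε : ℝ, 0 < ε → ∃ C : ℝ, ∀ t : ℝ, ‖riemannZeta (1 / 2 + t * I)‖ ≤ C * (1 + |t|) ^ (A + ε)

/-- the smoothed sum `∑ n ^ (-1/2 - iT) exp (-(log (n / N))² / 4)` over `n ≥ 1` -/
noncomputable def smoothSum (N T : ℝ) : ℂ :=
  ∑' n : ℕ, (Real.exp (-(Real.log ((n + 1 : ℕ) / N)) ^ 2 / 4) : ℂ) *
    ((n + 1 : ℕ) : ℂ) ^ (-(1 / 2 + T * I) : ℂ)

/-- the smoothed sums of length `N = T ^ (b + o(1))` are `O(T ^ (a + ε))` for every `ε > 0` -/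
def SumLe (b a : ℝ) : Prop :=
  ∀ ε : ℝ, 0 < ε → ∃ δ : ℝ, 0 < δ ∧ ∃ C : ℝ, ∀ T N : ℝ, 2 ≤ T →
    T ^ (b - δ) ≤ N → N ≤ T ^ (b + δ) → ‖smoothSum N T‖ ≤ C * T ^ (a + ε)

/-- The Dirichlet series `∑ (lam n) ^ (-s)` over `n ≥ 1` converges for `Re s > 1` and `Z` is its
analytic continuation to `Re s > 1/2 - δ`, `s ≠ 1`, for some `δ > 0`. -/
def Continues (lam : ℕ → ℝ) (Z : ℂ → ℂ) : Prop := ∃ δ : ℝ, 0 < δ ∧
  DifferentiableOn ℂ Z {s : ℂ | 1 / 2 - δ < s.re ∧ s ≠ 1} ∧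
  ∀ s : ℂ, 1 < s.re → HasSum (fun n : ℕ => (lam (n + 1) : ℂ) ^ (-s)) (Z s)

/-- The continuation is `O((1 + |t|) ^ (A + ε))` at `1/2 + it` for every `ε > 0`. -/
def Growth (A : ℝ) (lam : ℕ → ℝ) : Prop := ∃ Z : ℂ → ℂ, Continues lam Z ∧
  ∀ ε : ℝ, 0 < ε → ∃ C : ℝ, ∀ t : ℝ, ‖Z (1 / 2 + t * I)‖ ≤ C * (1 + |t|) ^ (A + ε)

/-- The continuation is `O((1 + log (1 + |t|)) ^ (1 + ε))` at `1/2 + it` for every `ε > 0`. -/
def LogGrowth (lam : ℕ → ℝ) : Prop := ∃ Z : ℂ → ℂ, Continues lam Z ∧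
  ∀ ε : ℝ, 0 < ε → ∃ C : ℝ, ∀ t : ℝ,
    ‖Z (1 / 2 + t * I)‖ ≤ C * (1 + Real.log (1 + |t|)) ^ (1 + ε)

/-- The Lindelöf hypothesis to the right of `θ` for the Beurling zeta function of the generalised
primes `lam p`: the Euler product converges for `Re s > 1` and continues analytically to
`Re s > θ`, `s ≠ 1`, and the continuation is `O(|Im s| ^ ε)` on every half plane
`Re s ≥ σ > θ`. -/
def BeurlingLH (θ : ℝ) (lam : ℕ → ℝ) : Prop := ∃ Z : ℂ → ℂ,
  DifferentiableOn ℂ Z {s : ℂ | θ < s.re ∧ s ≠ 1} ∧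
  (∀ s : ℂ, 1 < s.re → HasProd (fun p : Nat.Primes => (1 - (lam p : ℂ) ^ (-s))⁻¹) (Z s)) ∧
  ∀ σ : ℝ, θ < σ → ∀ ε : ℝ, 0 < ε → ∃ C : ℝ, ∀ s : ℂ, σ ≤ s.re → 1 ≤ |s.im| →
    ‖Z s‖ ≤ C * |s.im| ^ ε

/-- zeta has only finitely many zeros in every half plane `Re s > σ > θ` -/
def FewZeros (θ : ℝ) : Prop := ∀ σ : ℝ, θ < σ → {s : ℂ | riemannZeta s = 0 ∧ σ < s.re}.Finite

/-- Sequences of independent exponential and uniform random variables exist. -/
theorem exists_seq : (∃ (Ω : Type) (_ : MeasurableSpace Ω) (P : Measure Ω)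
    (_ : IsProbabilityMeasure P) (X : ℕ → Ω → ℝ), ExpSeq P X) ∧
    ∃ (Ω : Type) (_ : MeasurableSpace Ω) (P : Measure Ω)
    (_ : IsProbabilityMeasure P) (U : ℕ → Ω → ℝ), UnifSeq P U := by
  constructor
  · have : IsProbabilityMeasure (expMeasure 1) := isProbabilityMeasure_expMeasure zero_lt_one
    obtain ⟨Ω, _, P, X, h1, h2, h3, h4⟩ := exists_iid ℕ (expMeasure 1)
    exact ⟨Ω, _, P, h4, X, h1, h3, fun i => (h2 i).map_eq⟩
  · have : IsProbabilityMeasure (volume.restrict (Icc (0 : ℝ) 1)) := ⟨by simp⟩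
    obtain ⟨Ω, _, P, X, h1, h2, h3, h4⟩ := exists_iid ℕ (volume.restrict (Icc (0 : ℝ) 1))
    exact ⟨Ω, _, P, h4, X, h1, h3, fun i => (h2 i).map_eq⟩

open Pool.Agent.PertZ in
/-- the set of growth exponents of a function is a closed half line -/
lemma exponent (F : ℝ → ℂ) (A₀ : ℝ) (h0 : 0 ≤ A₀) (h : ExpLe A₀ F) : ∃ e : ℝ, 0 ≤ e ∧
    ∀ A : ℝ, 0 ≤ A → (ExpLe A F ↔ e ≤ A) := by
  have hne : {A : ℝ | 0 ≤ A ∧ ExpLe A F}.Nonempty := ⟨A₀, h0, h⟩
  have hbd : BddBelow {A : ℝ | 0 ≤ A ∧ ExpLe A F} := ⟨0, fun x hx => hx.1⟩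
  refine ⟨sInf {A : ℝ | 0 ≤ A ∧ ExpLe A F}, Real.sInf_nonneg (fun x hx => hx.1), fun A hA =>
    ⟨fun h1 => csInf_le hbd ⟨hA, h1⟩, fun h1 ε hε => ?_⟩⟩
  obtain ⟨m, hm, hlt⟩ := exists_lt_of_csInf_lt hne
    (show sInf {A : ℝ | 0 ≤ A ∧ ExpLe A F} < A + ε / 2 by linarith)
  obtain ⟨C, hC⟩ := hm.2 (ε / 2) (by linarith)
  refine ⟨max C 0, fun t => (hC t).trans ?_⟩
  have h2 : (1 : ℝ) ≤ 1 + |t| := by linarith [abs_nonneg t]
  calc C * (1 + |t|) ^ (m + ε / 2) ≤ max C 0 * (1 + |t|) ^ (m + ε / 2) :=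
        mul_le_mul_of_nonneg_right (le_max_left _ _) (by positivity)
    _ ≤ max C 0 * (1 + |t|) ^ (A + ε) :=
        mul_le_mul_of_nonneg_left (Real.rpow_le_rpow_of_exponent_le h2 (by linarith))
          (le_max_right _ _)

open Pool.Agent.PertZ in
/-- functions which differ by `O(t ^ ε)` have the same exponents -/
lemma transfer {F G : ℝ → ℂ} (h : ∀ ε : ℝ, 0 < ε → ∃ C : ℝ, ∀ t : ℝ,
    ‖F t - G t‖ ≤ C * (1 + |t|) ^ ε) {A : ℝ} (hA : 0 ≤ A) (hG : ExpLe A G) : ExpLe A F := by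
  intro ε hε
  obtain ⟨C₁, h1⟩ := h ε hε
  obtain ⟨C₂, h2⟩ := hG ε hε
  refine ⟨|C₁| + C₂, fun t => ?_⟩
  have h3 : (1 : ℝ) ≤ 1 + |t| := by linarith [abs_nonneg t]
  have h4 : (1 + |t|) ^ ε ≤ (1 + |t|) ^ (A + ε) :=
    Real.rpow_le_rpow_of_exponent_le h3 (by linarith)
  have h5 : C₁ * (1 + |t|) ^ ε ≤ |C₁| * (1 + |t|) ^ (A + ε) :=
    (mul_le_mul_of_nonneg_right (le_abs_self _) (by positivity)).trans
      (mul_le_mul_of_nonneg_left h4 (abs_nonneg _))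
  calc ‖F t‖ = ‖(F t - G t) + G t‖ := by rw [sub_add_cancel]
    _ ≤ ‖F t - G t‖ + ‖G t‖ := norm_add_le _ _
    _ ≤ C₁ * (1 + |t|) ^ ε + C₂ * (1 + |t|) ^ (A + ε) := add_le_add (h1 t) (h2 t)
    _ ≤ _ := by rw [add_mul]; linarith

open Pool.Agent.PertZ in
lemma zetaGrowth_iff {A : ℝ} (hA : 0 ≤ A) : ZetaGrowth A ↔ LineAt (1 / 2) A := (FINL_mu hA).symm

open Pool.Agent.PertZ in
lemma zetaGrowth_nonneg {A : ℝ} (h : ZetaGrowth A) : 0 ≤ A := by
  by_contra hA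
  rw [not_le] at hA
  obtain ⟨C, hC⟩ := h (-A / 2) (by linarith)
  have h1 : LineAt (1 / 2) (A / 2) := by
    intro ε hε
    refine ⟨|C|, fun t ht => ?_⟩
    have h2 := hC t
    rw [show A + -A / 2 = A / 2 by ring] at h2
    have h0 : 0 < |t| := by linarith
    have h3 : (1 + |t|) ^ (A / 2) ≤ |t| ^ (A / 2 + ε) :=
      (Real.rpow_le_rpow_of_nonpos h0 (by linarith) (by linarith)).trans
        (Real.rpow_le_rpow_of_exponent_le ht (by linarith))
    push_cast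
    exact (h2.trans (mul_le_mul_of_nonneg_right (le_abs_self C) (by positivity))).trans
      (mul_le_mul_of_nonneg_left h3 (abs_nonneg C))
  linarith [FINL_nonneg h1]

open Pool.Agent.PertZ in
/-- **The Lindelöf hypothesis under perturbation of the integers and of the primes** -/
theorem result :
    -- (I) independent exponential perturbations of the integers: the exponent `e B`
    (∃ e : ℝ → ℝ,
      (∀ B : ℝ, 1 / 2 < B → 0 ≤ e B ∧
        ∀ {Ω : Type} [MeasurableSpace Ω] (P : Measure Ω) [IsProbabilityMeasure P]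
          (X : ℕ → Ω → ℝ), ExpSeq P X → ∀ᵐ ω ∂P, ∀ A : ℝ, 0 ≤ A →
            (Growth A (fun n => n * Real.exp (X n ω * (n : ℝ) ^ (-B))) ↔ e B ≤ A)) ∧
      (∀ B : ℝ, 1 / 2 < B → B ≤ 1 → e B = 0 ∧
        ∀ {Ω : Type} [MeasurableSpace Ω] (P : Measure Ω) [IsProbabilityMeasure P]
          (X : ℕ → Ω → ℝ), ExpSeq P X → ∀ᵐ ω ∂P,
            LogGrowth (fun n => n * Real.exp (X n ω * (n : ℝ) ^ (-B)))) ∧
      (∀ B A : ℝ, 1 / 2 < B → 0 ≤ A →
        (e B ≤ A ↔ ∀ b : ℝ, 0 ≤ b → b ≤ 1 → SumLe b (A + max 0 (1 - B * b)))) ∧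
      (∀ B : ℝ, 1 ≤ B → e B ≤ (1 - 1 / B) / 2) ∧
      (∀ B B' : ℝ, 1 / 2 < B → B ≤ B' → e B ≤ e B' ∧ e B' ≤ e B + (1 - B / B')) ∧
      (∀ B A : ℝ, 2 ≤ B → (e B ≤ A ↔ ZetaGrowth A)) ∧
      (ZetaGrowth 0 ↔ ∀ B : ℝ, 1 / 2 < B → B < 2 → e B = 0)) ∧
    -- (II) independent exponential perturbations of the primes
    (∀ {Ω : Type} [MeasurableSpace Ω] (P : Measure Ω) [IsProbabilityMeasure P]
      (X : ℕ → Ω → ℝ), ExpSeq P X → ∀ B : ℝ, 1 / 2 < B → ∀ᵐ ω ∂P, ∀ θ : ℝ, 1 / 2 ≤ θ → θ < 1 →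
        (BeurlingLH θ (fun n => n * Real.exp (X n ω * (n : ℝ) ^ (-B))) ↔ FewZeros θ)) ∧
    -- (III) arbitrary perturbations of the integers
    (∀ B : ℝ, 1 / 2 < B → ∀ A : ℝ, (∀ d : ℕ → ℝ, (∀ n, 1 ≤ n → |d n| ≤ (n : ℝ) ^ (-B)) →
      Growth A (fun n => n * Real.exp (d n))) ↔ (1 / (2 * B) ≤ A ∧ ZetaGrowth A)) ∧
    -- (IV) every integer is replaced by a random point of the next unit interval
    (∀ {Ω : Type} [MeasurableSpace Ω] (P : Measure Ω) [IsProbabilityMeasure P]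
      (U : ℕ → Ω → ℝ), UnifSeq P U → ∀ᵐ ω ∂P, LogGrowth (fun n => n + U n ω)) := by
  have zst := p_ZST
  have sma := p_SMA
  have bl := p_BL p_FIK
  have supi := p_SUPI p_REP
  have det2 : P_DET2 := p_DET2 p_TLR zst (p_SBD bl supi zst) sma
  have flu : P_FLU := @p_FLU @p_HOE
  have detx : P_DETX := p_DETX zst (p_BLV p_FIL) (p_HP p_REV) sma
  have gap : P_GAP := @p_GAP @flu @p_MEX sma
  have gapl : P_GAPL := @p_GAPL @flu @p_MEX sma
  have dety : P_DETY := p_DETY zst (p_BLV p_FIL) (p_HP p_REV) sma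
  have trf : P_TRF := p_TRF p_TLR zst (p_BLW p_FIL) (p_LPS p_REVK) sma
  have pri : P_PRIT := @p_PRIT (p_PEU p_PQ2) (@p_PFL @flu @p_MEX p_TLR sma)
    (p_PR1T p_TLR p_PQ2 sma) (p_PR2T p_TLR bl supi p_PQ2 (p_PLOGT p_PQ2 zst) sma)
  have hx : ∀ B : ℝ, 1 / 2 < B → ExpLe (max 0 (0 + 1 / 2 * (1 - 1 / B))) (Dl B) := fun B hB =>
    detx B (1 / 2) 0 hB (by norm_num) le_rfl FINL_one
  have hex : ∀ B : ℝ, ∃ e : ℝ, 1 / 2 < B → 0 ≤ e ∧ ∀ A : ℝ, 0 ≤ A → (ExpLe A (Dl B) ↔ e ≤ A) := by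
    intro B
    by_cases hB : 1 / 2 < B
    · obtain ⟨e, he0, he⟩ := exponent (Dl B) _ (le_max_left _ _) (hx B hB)
      exact ⟨e, fun _ => ⟨he0, he⟩⟩
    · exact ⟨0, fun h => absurd h hB⟩
  choose e he using hex
  have hself : ∀ B : ℝ, 1 / 2 < B → ExpLe (e B) (Dl B) := fun B hB =>
    ((he B hB).2 _ (he B hB).1).mpr le_rfl
  have htwo : ∀ B A : ℝ, 2 < B → (e B ≤ A ↔ ZetaGrowth A) := by
    intro B A hB2
    have hB : 1 / 2 < B := by linarith
    rcases lt_or_ge A 0 with hA | hA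
    · exact ⟨fun h => by linarith [(he B hB).1], fun h => by
        have : 0 ≤ A := zetaGrowth_nonneg h
        linarith⟩
    rw [← (he B hB).2 A hA]
    constructor
    · intro h
      exact det2 B A hB2 hA h
    · intro h
      have h' : LineAt (1 / 2 + 0) A := by
        rw [add_zero]
        exact (zetaGrowth_iff hA).mp h
      have := detx B 0 A hB le_rfl (by norm_num) h'
      simpa [max_eq_right hA] using this
  have hmono : ∀ B B' : ℝ, 1 / 2 < B → B ≤ B' → e B ≤ e B' ∧ e B' ≤ e B + (1 - B / B') := by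
    intro B B' hB hBB
    have hB' : 1 / 2 < B' := by linarith
    have hB0 : 0 < B := by linarith
    have hB0' : 0 < B' := by linarith
    have h1 := trf B B' (e B') hB hB' (he B' hB').1 (hself B' hB')
    have h2 := trf B' B (e B) hB' hB (he B hB).1 (hself B hB)
    have e1 : max 0 (1 - B' / B) = 0 := by
      apply max_eq_left
      rw [sub_nonpos, one_le_div hB0]
      exact hBB
    have e2 : max 0 (1 - B / B') = 1 - B / B' := by
      apply max_eq_right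
      rw [sub_nonneg, div_le_one hB0']
      exact hBB
    rw [e1, add_zero] at h1
    rw [e2] at h2
    refine ⟨((he B hB).2 _ (he B' hB').1).mp h1, ((he B' hB').2 _ ?_).mp h2⟩
    have : 0 ≤ 1 - B / B' := by rw [← e2]; exact le_max_left _ _
    linarith [(he B hB).1]
  have gsf : P_GSF := p_GSF p_BLG zst sma
  have gsb : P_GSB := p_GSB p_GBK (p_GID sma) (p_GZL p_BLG)
  have htwo' : ∀ B A : ℝ, 2 ≤ B → (e B ≤ A ↔ ZetaGrowth A) := by
    intro B A hB2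
    rcases eq_or_lt_of_le hB2 with h | h
    · subst h
      constructor
      · intro h
        have hA : 0 ≤ A := (he 2 (by norm_num)).1.trans h
        -- use the exponents slightly above `2`
        intro ε hε
        obtain ⟨B, hB, hBε⟩ : ∃ B : ℝ, 2 < B ∧ 1 - 2 / B ≤ ε / 2 := by
          refine ⟨2 + min 1 ε, by linarith [lt_min one_pos hε], ?_⟩
          have h3 : 0 < min 1 ε := lt_min one_pos hε
          have h4 : min 1 ε ≤ ε := min_le_right _ _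
          rw [show (1 : ℝ) - 2 / (2 + min 1 ε) = min 1 ε / (2 + min 1 ε) by field_simp; ring]
          rw [div_le_div_iff₀ (by linarith) (by norm_num)]
          nlinarith
        have h5 : e B ≤ A + ε / 2 := by linarith [(hmono 2 B (by norm_num) hB.le).2]
        obtain ⟨C, hC⟩ := (htwo B (A + ε / 2) hB).mp h5 (ε / 2) (by linarith)
        refine ⟨C, fun t => ?_⟩
        have := hC t
        rwa [show A + ε / 2 + ε / 2 = A + ε by ring] at this
      · intro h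
        exact (hmono 2 3 (by norm_num) (by norm_num)).1.trans ((htwo 3 A (by norm_num)).mpr h)
    · exact htwo B A h
  refine ⟨⟨e, ?_, ?_, ?_, ?_, hmono, htwo', ?_⟩, ?_, ?_, ?_⟩
  · intro B hB
    refine ⟨(he B hB).1, ?_⟩
    intro Ω _ P _ X hX
    have hX' : IsExpSeq P X := ⟨hX.1, hX.2.1, hX.2.2⟩
    filter_upwards [FINL_exp @p_MEX P X hX' hB, gap P X hX' B hB] with ω h1 h2
    intro A hA
    rw [← (he B hB).2 A hA]
    refine (h1 (ExpLe A)).trans ⟨fun h => ?_, fun h => transfer h2 hA h⟩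
    refine transfer (fun ε hε => ?_) hA h
    obtain ⟨C, hC⟩ := h2 ε hε
    exact ⟨C, fun t => by rw [norm_sub_rev]; exact hC t⟩
  · intro B hB hB1
    have h1 := ((he B hB).2 _ (le_max_left _ _)).mp (hx B hB)
    have h2 : max 0 (0 + 1 / 2 * (1 - 1 / B)) = 0 := by
      apply max_eq_left
      have : 1 ≤ 1 / B := by
        rw [le_div_iff₀ (by linarith)]
        linarith
      linarith
    rw [h2] at h1
    refine ⟨le_antisymm h1 (he B hB).1, ?_⟩
    intro Ω _ P _ X hX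
    have hX' : IsExpSeq P X := ⟨hX.1, hX.2.1, hX.2.2⟩
    filter_upwards [FINL_exp @p_MEX P X hX' hB, gapl P X hX' B hB] with ω h3 h4
    refine (h3 LogLe).mpr (fun ε hε => ?_)
    obtain ⟨C₁, hC₁⟩ := h4 ε hε
    obtain ⟨C₂, hC₂⟩ := dety B hB hB1
    refine ⟨C₁ + |C₂|, fun t => ?_⟩
    have h5 : 1 ≤ (1 + Real.log (1 + |t|)) ^ (1 + ε) := by
      apply Real.one_le_rpow _ (by linarith)
      have := Real.log_nonneg (show (1 : ℝ) ≤ 1 + |t| by linarith [abs_nonneg t])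
      linarith
    calc ‖zlam (pert B (fun n => X n ω)) t‖
        = ‖(zlam (pert B (fun n => X n ω)) t - Dl B t) + Dl B t‖ := by rw [sub_add_cancel]
      _ ≤ ‖zlam (pert B (fun n => X n ω)) t - Dl B t‖ + ‖Dl B t‖ := norm_add_le _ _
      _ ≤ C₁ * (1 + Real.log (1 + |t|)) ^ (1 + ε) + |C₂| :=
          add_le_add (hC₁ t) ((hC₂ t).trans (le_abs_self _))
      _ ≤ _ := by nlinarith [abs_nonneg C₂]
  · intro B A hB hA
    rw [← (he B hB).2 A hA]
    exact ⟨fun h => gsf B A hB hA h, fun h => gsb B A hB hA h⟩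
  · intro B hB1
    have hB : 1 / 2 < B := by linarith
    have h1 := ((he B hB).2 _ (le_max_left _ _)).mp (hx B hB)
    have h2 : max 0 (0 + 1 / 2 * (1 - 1 / B)) = (1 - 1 / B) / 2 := by
      rw [max_eq_right]
      · ring
      · have : 1 / B ≤ 1 := by
          rw [div_le_one (by linarith)]
          exact hB1
        linarith
    rwa [h2] at h1
  · constructor
    · intro h B hB hB2
      exact le_antisymm ((hmono B 2 hB hB2.le).1.trans ((htwo' 2 0 le_rfl).mpr h)) (he B hB).1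
    · intro h
      refine (htwo' 2 0 le_rfl).mp (le_of_forall_pos_le_add fun δ hδ => ?_)
      have h3 : 0 < min 1 δ := lt_min one_pos hδ
      have h4 : min 1 δ ≤ δ := min_le_right _ _
      have h5 : min 1 δ ≤ 1 := min_le_left _ _
      have h6 := (hmono (2 - min 1 δ) 2 (by linarith) (by linarith)).2
      rw [h (2 - min 1 δ) (by linarith) (by linarith)] at h6
      linarith
  · intro Ω _ P _ X hX B hB
    exact pri P X ⟨hX.1, hX.2.1, hX.2.2⟩ B hB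
  · intro B hB A
    constructor
    · intro h
      obtain ⟨d, hd, hdA⟩ := p_WOR2 B hB
      have h1 : 1 / (2 * B) ≤ A := hdA A ((FINL_det hB hd (ExpLe A)).mp (h d hd))
      have hA : 0 ≤ A := le_trans (by positivity) h1
      refine ⟨h1, ?_⟩
      have h3 : ∀ n : ℕ, 1 ≤ n → |(fun _ => (0 : ℝ)) n| ≤ (n : ℝ) ^ (-B) := by
        intro n _
        simpa using Real.rpow_nonneg (Nat.cast_nonneg n) (-B)
      have h4 := (FINL_det hB h3 (ExpLe A)).mp (h (fun _ => 0) h3)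
      intro ε hε
      obtain ⟨C, hC⟩ := h4 ε hε
      refine ⟨C, fun t => ?_⟩
      have h5 := hC t
      have h6 : zlam (fun n : ℕ => (n : ℝ) * Real.exp 0) t = Pool.Agent.CW.zl t := by
        unfold zlam
        simp
      rwa [h6] at h5
    · rintro ⟨h1, h2⟩ d hd
      have hA : 0 ≤ A := le_trans (by positivity) h1
      exact (FINL_det hB hd (ExpLe A)).mpr (p_WOR1 B A hB h1 h2 d hd)
  · intro Ω _ P _ U hU
    have hU' : IsUnifSeq P U := ⟨hU.1, hU.2.1, hU.2.2⟩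
    filter_upwards [FINL_unif P U hU', @p_UNIL @flu Ω _ P _ U hU'] with ω h1 h2
    exact (h1 LogLe).mpr h2

end Pool.Agent.PertZ.Final
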